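import Pool.Agent.P.MP_3d25f3_gt.Stmt

-- part Pool.Agent.P.MP_3d25f3_gt.Bas
section

set_option autoImplicit false

open Set Filter Topology

namespace Pool.Agent.P.MP_3d25f3_gt

variable {Z W : Type} {R R' : Type} [CommRing R] [CommRing R']

/-- augmented coboundary -/
def d0 : (List Z → R) → List Z → R
  | _, [] => 0
  | c, x :: l => c l - d0 (fun l' => c (x :: l')) l

lemma d0_add (a b : List Z → R) (l : List Z) : d0 (a + b) l = d0 a l + d0 b l := by
  induction l generalizing a b with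
  | nil => simp [d0]
  | cons x l ih =>
    have := ih (fun l' => a (x :: l')) (fun l' => b (x :: l'))
    simp only [d0, Pi.add_apply]
    rw [show (fun l' => a (x :: l') + b (x :: l'))
      = (fun l' => a (x :: l')) + (fun l' => b (x :: l')) from rfl, this]
    ring

lemma d0_smul (r : R) (a : List Z → R) (l : List Z) : d0 (r • a) l = r * d0 a l := by
  induction l generalizing a with
  | nil => simp [d0]
  | cons x l ih =>
    have := ih (fun l' => a (x :: l'))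
    simp only [d0, Pi.smul_apply, smul_eq_mul]
    rw [show (fun l' => r * a (x :: l')) = r • (fun l' => a (x :: l')) from rfl, this]
    ring

def Df (τ : Z → Z → R) (c : List Z → R) : List Z → R
  | x :: y :: l => τ x y * c (y :: l) - d0 (fun l' => c (x :: l')) (y :: l)
  | _ => 0

/-- twisted coboundary -/
def D (τ : Z → Z → R) : (List Z → R) →ₗ[R] (List Z → R) where
  toFun := Df τ
  map_add' a b := by
    funext l
    match l with
    | [] => simp [Df]
    | [_] => simp [Df]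
    | x :: y :: l =>
      simp only [Df, Pi.add_apply]
      rw [show (fun l' => a (x :: l') + b (x :: l'))
        = (fun l' => a (x :: l')) + (fun l' => b (x :: l')) from rfl, d0_add]
      ring
  map_smul' r a := by
    funext l
    match l with
    | [] => simp [Df]
    | [_] => simp [Df]
    | x :: y :: l =>
      simp only [Df, Pi.smul_apply, smul_eq_mul, RingHom.id_apply]
      rw [show (fun l' => r * a (x :: l')) = r • (fun l' => a (x :: l')) from rfl, d0_smul]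
      ring

@[simp] lemma D_nil (τ : Z → Z → R) (c : List Z → R) : D τ c [] = 0 := rfl
@[simp] lemma D_one (τ : Z → Z → R) (c : List Z → R) (x : Z) : D τ c [x] = 0 := rfl
lemma D_cons (τ : Z → Z → R) (c : List Z → R) (x y : Z) (l : List Z) :
    D τ c (x :: y :: l) = τ x y * c (y :: l) - d0 (fun l' => c (x :: l')) (y :: l) := rfl
lemma D_two (τ : Z → Z → R) (c : List Z → R) (x y : Z) :
    D τ c [x, y] = τ x y * c [y] - c [x] := by simp [D_cons, d0]
lemma D_three (τ : Z → Z → R) (c : List Z → R) (x y z : Z) :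
    D τ c [x, y, z] = τ x y * c [y, z] - c [x, z] + c [x, y] := by simp [D_cons, d0]; ring
lemma D_four (τ : Z → Z → R) (c : List Z → R) (x y z w : Z) :
    D τ c [x, y, z, w] = τ x y * c [y, z, w] - c [x, z, w] + c [x, y, w] - c [x, y, z] := by
  simp [D_cons, d0]; ring

/-- pull-back along `f` with gauge `ν` -/
def pull (f : W → Z) (ν : W → R) : (List Z → R) →ₗ[R] (List W → R) where
  toFun c := fun l => match l with
    | [] => 0
    | x :: l => ν x * c (f x :: l.map f)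
  map_add' a b := by
    funext l
    cases l <;> simp [mul_add]
  map_smul' r a := by
    funext l
    cases l <;> simp [mul_left_comm]

@[simp] lemma pull_nil (f : W → Z) (ν : W → R) (c : List Z → R) : pull f ν c [] = 0 := rfl
@[simp] lemma pull_cons (f : W → Z) (ν : W → R) (c : List Z → R) (x : W) (l : List W) :
    pull f ν c (x :: l) = ν x * c (f x :: l.map f) := rfl

/-- cup product, `a` of degree `p`, `τ'` the twisting of `b` -/
def cup (τ' : Z → Z → R) (p : ℕ) (a b : List Z → R) : List Z → R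
  | [] => 0
  | x :: l => a (x :: l.take p) * (τ' x ((x :: l).getD p x) * b ((x :: l).drop p))

/-- change of coefficients -/
def cf (φ : R →+* R') : (List Z → R) →ₛₗ[φ] (List Z → R') where
  toFun c := fun l => φ (c l)
  map_add' a b := by funext l; simp
  map_smul' r a := by funext l; simp

@[simp] lemma cf_apply (φ : R →+* R') (c : List Z → R) (l : List Z) : cf φ c l = φ (c l) := rfl

/-- a function of two points as a cochain of degree one -/
def co1 (n : Z → Z → R) : List Z → R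
  | [a, b] => n a b
  | _ => 0

/-- twisting by powers of a unit -/
def tw (t : Rˣ) (n : Z → Z → ℤ) : Z → Z → R := fun x y => ((t ^ n x y : Rˣ) : R)

/-- `τ` is a cocycle on `U` -/
def CocOn (τ : Z → Z → R) (U : Set Z) : Prop :=
  ∀ a ∈ U, τ a a = 1 ∧ ∀ b ∈ U, ∀ c ∈ U, τ a b * τ b c = τ a c

variable [TopologicalSpace Z] [TopologicalSpace W]

/-- cochains of degree `k` that vanish on small lists near every point of `F` -/
def Null (R : Type) [CommRing R] (k : ℕ) (F : Set Z) : Submodule R (List Z → R) where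
  carrier := {c | ∀ x ∈ F, ∃ U ∈ 𝓝 x, ∀ l : List Z, l.length = k + 1 → (∀ y ∈ l, y ∈ U) → c l = 0}
  zero_mem' := fun _ _ => ⟨univ, univ_mem, fun _ _ _ => rfl⟩
  add_mem' := by
    intro a b ha hb x hx
    obtain ⟨U, hU, h1⟩ := ha x hx
    obtain ⟨V, hV, h2⟩ := hb x hx
    exact ⟨U ∩ V, inter_mem hU hV, fun l hl h => by
      rw [Pi.add_apply, h1 l hl fun y hy => (h y hy).1, h2 l hl fun y hy => (h y hy).2, add_zero]⟩
  smul_mem' := by
    intro r a ha x hx
    obtain ⟨U, hU, h1⟩ := ha x hx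
    exact ⟨U, hU, fun l hl h => by rw [Pi.smul_apply, h1 l hl h, smul_zero]⟩

lemma mem_Null {k : ℕ} {F : Set Z} {c : List Z → R} : c ∈ Null R k F ↔
    ∀ x ∈ F, ∃ U ∈ 𝓝 x, ∀ l : List Z, l.length = k + 1 → (∀ y ∈ l, y ∈ U) → c l = 0 := Iff.rfl

lemma Null_mono (k : ℕ) {F G : Set Z} (h : G ⊆ F) : Null R k F ≤ Null R k G :=
  fun _ hc x hx => hc x (h hx)

@[simp] lemma Null_empty (k : ℕ) : Null R k (∅ : Set Z) = ⊤ :=
  eq_top_iff.2 fun _ _ _ hx => hx.elim

def Coc (τ : Z → Z → R) (F : Set Z) : Prop := ∀ x ∈ F, ∃ U ∈ 𝓝 x, CocOn τ U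

def CocZ (n : Z → Z → ℤ) (F : Set Z) : Prop :=
  ∀ x ∈ F, ∃ U ∈ 𝓝 x, ∀ a ∈ U, ∀ b ∈ U, ∀ c ∈ U, n a b + n b c = n a c

/-- the product of two twistings is `τ''` near the diagonal -/
def Mu (τ τ' τ'' : Z → Z → R) (F : Set Z) : Prop :=
  ∀ x ∈ F, ∃ U ∈ 𝓝 x, ∀ a ∈ U, ∀ b ∈ U, τ a b * τ' a b = τ'' a b

/-- `ν` intertwines `τ₀` with the pull-back of `τ` -/
def Itw (τ₀ : W → W → R) (τ : Z → Z → R) (f : W → Z) (ν : W → R) (F : Set W) : Prop :=
  ∀ x ∈ F, ∃ U ∈ 𝓝 x, ∀ a ∈ U, ∀ b ∈ U, τ₀ a b * ν b = ν a * τ (f a) (f b)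

/-- `τ` has an invertible section near `F` -/
def Triv (τ : Z → Z → R) (F : Set Z) : Prop :=
  ∃ ν ν' : Z → R, ∀ x ∈ F, ∃ U ∈ 𝓝 x, ∀ a ∈ U, ν a * ν' a = 1 ∧ ∀ b ∈ U, τ a b * ν b = ν a

def Zc (τ : Z → Z → R) (k : ℕ) (F F' : Set Z) : Submodule R (List Z → R) :=
  Null R k F' ⊓ (Null R (k + 1) F).comap (D τ)

def Bc (τ : Z → Z → R) (k : ℕ) (F F' : Set Z) : Submodule R (List Z → R) :=
  (Null R (k - 1) F').map (D τ) ⊔ Null R k F

lemma mem_Zc {τ : Z → Z → R} {k : ℕ} {F F' : Set Z} {c : List Z → R} :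
    c ∈ Zc τ k F F' ↔ c ∈ Null R k F' ∧ D τ c ∈ Null R (k + 1) F := Iff.rfl

lemma mem_Bc {τ : Z → Z → R} {k : ℕ} {F F' : Set Z} {c : List Z → R} :
    c ∈ Bc τ k F F' ↔ ∃ b ∈ Null R (k - 1) F', c - D τ b ∈ Null R k F := by
  constructor
  · intro h
    obtain ⟨_, ⟨b, hb, rfl⟩, n, hn, rfl⟩ := Submodule.mem_sup.1 h
    exact ⟨b, hb, by simpa using hn⟩
  · rintro ⟨b, hb, h⟩
    exact Submodule.mem_sup.2 ⟨_, ⟨b, hb, rfl⟩, _, h, by simp⟩

lemma Null_le_Bc (τ : Z → Z → R) (k : ℕ) (F F' : Set Z) : Null R k F ≤ Bc τ k F F' := le_sup_right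

lemma Zc_mono (τ : Z → Z → R) (k : ℕ) {F F' G G' : Set Z} (h : G ⊆ F) (h' : G' ⊆ F') :
    Zc τ k F F' ≤ Zc τ k G G' := fun _ hc => ⟨Null_mono k h' hc.1, Null_mono (k + 1) h hc.2⟩

lemma Bc_mono (τ : Z → Z → R) (k : ℕ) {F F' G G' : Set Z} (h : G ⊆ F) (h' : G' ⊆ F') :
    Bc τ k F F' ≤ Bc τ k G G' :=
  sup_le_sup (Submodule.map_mono (Null_mono _ h')) (Null_mono _ h)

/-- twisted Alexander-Spanier cohomology of germs -/
abbrev H (τ : Z → Z → R) (k : ℕ) (F F' : Set Z) : Type :=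
  Zc τ k F F' ⧸ (Bc τ k F F').submoduleOf (Zc τ k F F')

/-- class of a cocycle -/
def cl {τ : Z → Z → R} {k : ℕ} {F F' : Set Z} (c : List Z → R) (h : c ∈ Zc τ k F F') :
    H τ k F F' := Submodule.Quotient.mk ⟨c, h⟩

lemma cl_eq {τ : Z → Z → R} {k : ℕ} {F F' : Set Z} {a b : List Z → R} (ha : a ∈ Zc τ k F F')
    (hb : b ∈ Zc τ k F F') : cl a ha = cl b hb ↔ a - b ∈ Bc τ k F F' := Submodule.Quotient.eq _

lemma cl_eq_zero {τ : Z → Z → R} {k : ℕ} {F F' : Set Z} {a : List Z → R} (ha : a ∈ Zc τ k F F') :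
    cl a ha = 0 ↔ a ∈ Bc τ k F F' := Submodule.Quotient.mk_eq_zero _

lemma cl_surj {τ : Z → Z → R} {k : ℕ} {F F' : Set Z} (x : H τ k F F') : ∃ a ha, cl a ha = x := by
  obtain ⟨⟨a, ha⟩, h⟩ := Submodule.Quotient.mk_surjective _ x
  exact ⟨a, ha, h⟩

lemma cl_add {τ : Z → Z → R} {k : ℕ} {F F' : Set Z} {a b : List Z → R} (ha : a ∈ Zc τ k F F')
    (hb : b ∈ Zc τ k F F') : cl (a + b) (add_mem ha hb) = cl a ha + cl b hb := rfl

lemma cl_sub {τ : Z → Z → R} {k : ℕ} {F F' : Set Z} {a b : List Z → R} (ha : a ∈ Zc τ k F F')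
    (hb : b ∈ Zc τ k F F') : cl (a - b) (sub_mem ha hb) = cl a ha - cl b hb := rfl

lemma cl_smul {τ : Z → Z → R} {k : ℕ} {F F' : Set Z} (r : R) {a : List Z → R}
    (ha : a ∈ Zc τ k F F') : cl (r • a) (Submodule.smul_mem _ r ha) = r • cl a ha := rfl

/-- map induced by a semilinear map of cochains -/
def hmap {φ : R →+* R'} {τ : Z → Z → R} {τ' : W → W → R'} {k k' : ℕ} {F F' : Set Z}
    {G G' : Set W} (f : (List Z → R) →ₛₗ[φ] (List W → R'))
    (hZ : ∀ c ∈ Zc τ k F F', f c ∈ Zc τ' k' G G')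
    (hB : ∀ c ∈ Zc τ k F F', c ∈ Bc τ k F F' → f c ∈ Bc τ' k' G G') :
    H τ k F F' →ₛₗ[φ] H τ' k' G G' :=
  Submodule.mapQ _ _ ((f.domRestrict _).codRestrict _ fun c => hZ c.1 c.2)
    fun c hc => hB c.1 c.2 hc

lemma hmap_cl {φ : R →+* R'} {τ : Z → Z → R} {τ' : W → W → R'} {k k' : ℕ} {F F' : Set Z}
    {G G' : Set W} (f : (List Z → R) →ₛₗ[φ] (List W → R'))
    (hZ : ∀ c ∈ Zc τ k F F', f c ∈ Zc τ' k' G G')
    (hB : ∀ c ∈ Zc τ k F F', c ∈ Bc τ k F F' → f c ∈ Bc τ' k' G G') (c : List Z → R)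
    (hc : c ∈ Zc τ k F F') : hmap f hZ hB (cl c hc) = cl (f c) (hZ c hc) := rfl

/-- restriction -/
def res (τ : Z → Z → R) (k : ℕ) {F F' G G' : Set Z} (h : G ⊆ F) (h' : G' ⊆ F') :
    H τ k F F' →ₗ[R] H τ k G G' :=
  hmap LinearMap.id (fun _ hc => Zc_mono τ k h h' hc) (fun _ _ hc => Bc_mono τ k h h' hc)

lemma res_cl (τ : Z → Z → R) (k : ℕ) {F F' G G' : Set Z} (h : G ⊆ F) (h' : G' ⊆ F')
    (c : List Z → R) (hc : c ∈ Zc τ k F F') :
    res τ k h h' (cl c hc) = cl c (Zc_mono τ k h h' hc) := rfl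

/-- vanishing of a cohomology group -/
def Van (τ : Z → Z → R) (k : ℕ) (F F' : Set Z) : Prop := Zc τ k F F' ≤ Bc τ k F F'

end Pool.Agent.P.MP_3d25f3_gt
end

-- part Pool.Agent.P.MP_3d25f3_gt.Alg
section

set_option autoImplicit false

open Set Filter Topology

namespace Pool.Agent.P.MP_3d25f3_gt

variable {Z W : Type} {R R' : Type} [CommRing R] [CommRing R']

lemma d0_congr {a b : List Z → R} {U : Set Z} {k : ℕ}
    (h : ∀ l' : List Z, l'.length = k → (∀ y ∈ l', y ∈ U) → a l' = b l') {l : List Z}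
    (hl : l.length = k + 1) (hU : ∀ y ∈ l, y ∈ U) : d0 a l = d0 b l := by
  induction l generalizing a b k with
  | nil => rfl
  | cons x l ih =>
    have hk : l.length = k := by simpa using hl
    have hx : x ∈ U := hU x (by simp)
    have hl' : ∀ y ∈ l, y ∈ U := fun y hy => hU y (by simp [hy])
    simp only [d0]
    rw [h l hk hl']
    congr 1
    cases k with
    | zero => rw [List.length_eq_zero_iff.1 hk]; rfl
    | succ k =>
      refine ih (fun l' h1 h2 => h _ (by simp [h1]) fun y hy => ?_) hk hl'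
      rcases List.mem_cons.1 hy with rfl | hy
      exacts [hx, h2 y hy]

lemma d0_d0 (c : List Z → R) (l : List Z) : d0 (d0 c) l = 0 := by
  induction l generalizing c with
  | nil => rfl
  | cons x l ih =>
    have e : (fun l' => d0 c (x :: l')) = c + (-1 : R) • d0 fun l' => c (x :: l') := by
      funext l'
      simp only [d0, Pi.add_apply, Pi.smul_apply, smul_eq_mul]
      ring
    rw [d0, e, d0_add, d0_smul, ih]
    ring

lemma D_congr (τ : Z → Z → R) {a b : List Z → R} {U : Set Z} {k : ℕ}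
    (h : ∀ l' : List Z, l'.length = k → (∀ y ∈ l', y ∈ U) → a l' = b l') {l : List Z}
    (hl : l.length = k + 1) (hU : ∀ y ∈ l, y ∈ U) : D τ a l = D τ b l := by
  match l, hl, hU with
  | [], _, _ => rfl
  | [_], _, _ => rfl
  | x :: y :: l, hl, hU =>
    have hk : k = l.length + 1 := by simpa using hl.symm
    have hl' : ∀ w ∈ y :: l, w ∈ U := fun w hw => hU w (List.mem_cons_of_mem _ hw)
    rw [D_cons, D_cons, h (y :: l) (by simp [hk]) hl']
    congr 1
    refine d0_congr (k := l.length) (fun l' h1 h2 => h _ (by simp [h1, hk]) fun w hw => ?_) rfl hl'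
    rcases List.mem_cons.1 hw with rfl | hw
    exacts [hU _ (by simp), h2 w hw]

/-- on a set where `τ` is a cocycle the twisted coboundary is the ordinary one -/
lemma D_gauge {τ : Z → Z → R} {U : Set Z} (hτ : CocOn τ U) {z : Z} (hz : z ∈ U) (c : List Z → R)
    (x : Z) (l : List Z) (hl : ∀ w ∈ x :: l, w ∈ U) :
    τ z x * D τ c (x :: l) = d0 (pull id (τ z) c) (x :: l) := by
  cases l with
  | nil => simp [d0]
  | cons y l =>
    have e : (fun l' => pull id (τ z) c (x :: l')) = τ z x • fun l' => c (x :: l') := by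
      funext l'; simp
    have h := (hτ z hz).2 x (hl x (by simp)) y (hl y (by simp))
    have e2 : d0 (pull id (τ z) c) (x :: y :: l) = pull id (τ z) c (y :: l) -
      d0 (fun l' => pull id (τ z) c (x :: l')) (y :: l) := rfl
    rw [D_cons, e2, e, d0_smul, pull_cons, ← h]
    simp only [id, List.map_id]
    ring

lemma DD_eq {τ : Z → Z → R} {U : Set Z} (hτ : CocOn τ U) (c : List Z → R) (l : List Z)
    (hl : ∀ w ∈ l, w ∈ U) : D τ (D τ c) l = 0 := by
  cases l with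
  | nil => rfl
  | cons x l =>
    have hx : x ∈ U := hl x (by simp)
    have h := D_gauge hτ hx (D τ c) x l hl
    rw [(hτ x hx).1, one_mul] at h
    rw [h, ← d0_d0 (pull id (τ x) c) (x :: l)]
    refine d0_congr (k := l.length) (fun l' _ h2 => ?_) rfl hl
    cases l' with
    | nil => rfl
    | cons y l' => simpa using D_gauge hτ hx c y l' h2

lemma alg_cf_d0 (φ : R →+* R') (c : List Z → R) (l : List Z) :
    φ (d0 c l) = d0 (fun l' => φ (c l')) l := by
  induction l generalizing c with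
  | nil => simp [d0]
  | cons x l ih => simp only [d0, map_sub, ih]

lemma alg_d0_map (f : W → Z) (c : List Z → R) (l : List W) :
    d0 (fun l' => c (l'.map f)) l = d0 c (l.map f) := by
  induction l generalizing c with
  | nil => rfl
  | cons x l ih => simp only [d0, List.map_cons, ← ih]

lemma cf_D (φ : R →+* R') {τ : Z → Z → R} {τ' : Z → Z → R'} (h : ∀ x y, φ (τ x y) = τ' x y)
    (c : List Z → R) : cf φ (D τ c) = D τ' (cf φ c) := by
  funext l
  match l with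
  | [] => simp
  | [_] => simp
  | x :: y :: l => simp only [cf_apply, D_cons, map_sub, map_mul, h, alg_cf_d0]

lemma cf_cup (φ : R →+* R') {τ : Z → Z → R} {τ' : Z → Z → R'} (h : ∀ x y, φ (τ x y) = τ' x y)
    (p : ℕ) (a b : List Z → R) : cf φ (cup τ p a b) = cup τ' p (cf φ a) (cf φ b) := by
  funext l
  cases l <;> simp [cup, h]

lemma pull_pull {V : Type} (f : V → W) (g : W → Z) (ν : V → R) (μ : W → R) (c : List Z → R) :
    pull f ν (pull g μ c) = pull (g ∘ f) (fun x => ν x * μ (f x)) c := by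
  funext l
  cases l <;> simp [mul_assoc]

lemma pull_D_eq (τ : Z → Z → R) (f : W → Z) (c : List Z → R) :
    D (fun a b => τ (f a) (f b)) (pull f 1 c) = pull f 1 (D τ c) := by
  funext l
  match l with
  | [] => rfl
  | [_] => simp
  | x :: y :: l =>
    simp only [D_cons, pull_cons, List.map_cons, Pi.one_apply, one_mul]
    rw [alg_d0_map f (fun l' => c (f x :: l')) (y :: l)]
    rfl

lemma pull_cup (τ : Z → Z → R) (f : W → Z) (p : ℕ) (a b : List Z → R) (l : List W)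
    (hl : p < l.length) : pull f 1 (cup τ p a b) l
      = cup (fun x y => τ (f x) (f y)) p (pull f 1 a) (pull f 1 b) l := by
  have e : ∀ l' : List W, l' ≠ [] → pull f 1 b l' = b (l'.map f) := fun l' h => by
    cases l' with
    | nil => exact absurd rfl h
    | cons y l' => simp
  cases l with
  | nil => simp at hl
  | cons x l =>
    simp only [cup, pull_cons, Pi.one_apply, one_mul]
    rw [e _ (by simpa using hl), ← List.map_cons, List.getD_map, List.map_drop, List.map_take]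

lemma tw_one (n : Z → Z → ℤ) : tw (1 : Rˣ) n = 1 := by
  funext x y; simp [tw]

lemma tw_map (φ : R →+* R') {t : Rˣ} {t' : R'ˣ} (h : φ t = t') (n : Z → Z → ℤ) (x y : Z) :
    φ (tw t n x y) = tw t' n x y := by
  have e : Units.map (φ : R →* R') t = t' := Units.ext h
  simp only [tw, ← e, ← map_zpow]
  rfl

variable [TopologicalSpace Z] [TopologicalSpace W]

lemma D_Null (τ : Z → Z → R) {k : ℕ} {F : Set Z} {c : List Z → R} (hc : c ∈ Null R k F) :
    D τ c ∈ Null R (k + 1) F := by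
  intro x hx
  obtain ⟨U, hU, h⟩ := hc x hx
  refine ⟨U, hU, fun l hl h1 => ?_⟩
  rw [D_congr τ (b := 0) h hl h1, map_zero]
  rfl

lemma D_Null_zero (τ : Z → Z → R) (F : Set Z) (c : List Z → R) : D τ c ∈ Null R 0 F := by
  refine fun x _ => ⟨univ, univ_mem, fun l hl _ => ?_⟩
  obtain ⟨y, rfl⟩ := List.length_eq_one_iff.1 hl
  rfl

lemma D_Null' (τ : Z → Z → R) {k : ℕ} {F : Set Z} {c : List Z → R} (hc : c ∈ Null R (k - 1) F) :
    D τ c ∈ Null R k F := by
  cases k with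
  | zero => exact D_Null_zero τ F c
  | succ k => exact D_Null τ hc

lemma DD_Null {τ : Z → Z → R} {k : ℕ} {F F' : Set Z} (hτ : Coc τ (F \ F')) {c : List Z → R}
    (hc : c ∈ Null R (k - 1) F') : D τ (D τ c) ∈ Null R (k + 1) F := by
  intro x hx
  by_cases h : x ∈ F'
  · exact D_Null τ (D_Null' τ hc) x h
  · obtain ⟨U, hU, h1⟩ := hτ x ⟨hx, h⟩
    exact ⟨U, hU, fun l _ h2 => DD_eq h1 c l h2⟩

lemma Bc_le_Zc {τ : Z → Z → R} {k : ℕ} {F F' : Set Z} (hτ : Coc τ (F \ F')) (h : F' ⊆ F) :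
    Bc τ k F F' ≤ Zc τ k F F' := by
  intro c hc
  obtain ⟨b, hb, h1⟩ := mem_Bc.1 hc
  refine ⟨?_, ?_⟩
  · simpa using add_mem (Null_mono k h h1) (D_Null' τ hb)
  · have := add_mem (D_Null τ h1) (DD_Null hτ hb)
    rw [map_sub, sub_add_cancel] at this
    exact this

lemma Bc_zero (τ : Z → Z → R) (F F' : Set Z) : Bc τ 0 F F' = Null R 0 F := by
  refine le_antisymm (sup_le ?_ le_rfl) le_sup_right
  rintro _ ⟨b, -, rfl⟩
  exact D_Null_zero τ F b

lemma Null_union (k : ℕ) (F G : Set Z) : Null R k (F ∪ G) = Null R k F ⊓ Null R k G := by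
  ext c
  exact ⟨fun h => ⟨fun x hx => h x (Or.inl hx), fun x hx => h x (Or.inr hx)⟩,
    fun h x hx => hx.elim (h.1 x) (h.2 x)⟩

lemma Null_inter [NormalSpace Z] {k : ℕ} {F G : Set Z} (hF : IsClosed F) (hG : IsClosed G)
    {c : List Z → R} (hc : c ∈ Null R k (F ∩ G)) : ∃ b ∈ Null R k G, c - b ∈ Null R k F := by
  classical
  let O : Set Z := {x | ∃ U ∈ 𝓝 x, ∀ l : List Z, l.length = k + 1 → (∀ y ∈ l, y ∈ U) → c l = 0}
  have hO : IsOpen O := isOpen_iff_mem_nhds.2 fun x ⟨U, hU, h⟩ =>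
    mem_of_superset (eventually_mem_nhds_iff.2 hU) fun y hy => ⟨U, hy, h⟩
  obtain ⟨A, B, hA, hB, h1, h2, hd⟩ := normal_separation (hF.sdiff hO) (hG.sdiff hO)
    (Set.disjoint_left.2 fun x h1 h2 => h1.2 (hc x ⟨h1.1, h2.1⟩))
  let b : List Z → R := fun l => if ∀ y ∈ l.head?, y ∈ A then c l else 0
  refine ⟨b, fun x hx => ?_, fun x hx => ?_⟩
  · by_cases h : x ∈ O
    · obtain ⟨U, hU, h3⟩ := h
      exact ⟨U, hU, fun l hl h4 => by simp only [b, h3 l hl h4, ite_self]⟩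
    · refine ⟨B, hB.mem_nhds (h2 ⟨hx, h⟩), fun l hl h4 => ?_⟩
      cases l with
      | nil => simp at hl
      | cons y l =>
        exact if_neg fun h5 => Set.disjoint_left.1 hd (h5 y rfl) (h4 y (by simp))
  · by_cases h : x ∈ O
    · obtain ⟨U, hU, h3⟩ := h
      exact ⟨U, hU, fun l hl h4 => by simp only [b, Pi.sub_apply, h3 l hl h4, ite_self, sub_zero]⟩
    · refine ⟨A, hA.mem_nhds (h1 ⟨hx, h⟩), fun l _ h4 => ?_⟩
      have : b l = c l := if_pos fun y hy => h4 y (List.mem_of_mem_head? hy)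
      rw [Pi.sub_apply, this, sub_self]

lemma cf_Null (φ : R →+* R') {k : ℕ} {F : Set Z} {c : List Z → R} (hc : c ∈ Null R k F) :
    cf φ c ∈ Null R' k F := by
  intro x hx
  obtain ⟨U, hU, h⟩ := hc x hx
  exact ⟨U, hU, fun l hl h1 => by rw [cf_apply, h l hl h1, map_zero]⟩

lemma cf_Zc (φ : R →+* R') {τ : Z → Z → R} {τ' : Z → Z → R'} (h : ∀ x y, φ (τ x y) = τ' x y)
    {k : ℕ} {F F' : Set Z} {c : List Z → R} (hc : c ∈ Zc τ k F F') : cf φ c ∈ Zc τ' k F F' := by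
  refine ⟨cf_Null φ hc.1, ?_⟩
  have := cf_Null φ (mem_Zc.1 hc).2
  rwa [cf_D φ h] at this

lemma cf_Bc (φ : R →+* R') {τ : Z → Z → R} {τ' : Z → Z → R'} (h : ∀ x y, φ (τ x y) = τ' x y)
    {k : ℕ} {F F' : Set Z} {c : List Z → R} (hc : c ∈ Bc τ k F F') : cf φ c ∈ Bc τ' k F F' := by
  obtain ⟨b, hb, h1⟩ := mem_Bc.1 hc
  refine mem_Bc.2 ⟨_, cf_Null φ hb, ?_⟩
  have := cf_Null φ h1
  rwa [map_sub, cf_D φ h] at this

lemma pull_Null {f : W → Z} (ν : W → R) {k : ℕ} {F : Set Z} {G : Set W}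
    (hf : ∀ x ∈ G, ContinuousAt f x) (hm : MapsTo f G F) {c : List Z → R} (hc : c ∈ Null R k F) :
    pull f ν c ∈ Null R k G := by
  intro x hx
  obtain ⟨U, hU, h⟩ := hc (f x) (hm hx)
  refine ⟨f ⁻¹' U, hf x hx hU, fun l hl h1 => ?_⟩
  cases l with
  | nil => rfl
  | cons y l =>
    rw [pull_cons, ← List.map_cons, h _ (by simpa using hl), mul_zero]
    intro w hw
    obtain ⟨v, hv, rfl⟩ := List.mem_map.1 hw
    exact h1 v hv

lemma pull_D {τ₀ : W → W → R} {τ : Z → Z → R} {f : W → Z} {ν : W → R} {G : Set W}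
    (h : Itw τ₀ τ f ν G) (k : ℕ) (c : List Z → R) :
    D τ₀ (pull f ν c) - pull f ν (D τ c) ∈ Null R k G := by
  intro x hx
  obtain ⟨U, hU, h1⟩ := h x hx
  refine ⟨U, hU, fun l _ h2 => ?_⟩
  match l, h2 with
  | [], _ => simp
  | [_], _ => simp
  | a :: b :: l, h2 =>
    have e : (fun l' => pull f ν c (a :: l')) = ν a • fun l' : List W => c (f a :: l'.map f) := by
      funext l'; simp
    have h3 := h1 a (h2 a (by simp)) b (h2 b (by simp))
    rw [Pi.sub_apply, D_cons, e, d0_smul, alg_d0_map f (fun l' => c (f a :: l')) (b :: l)]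
    simp only [pull_cons, List.map_cons, D_cons]
    linear_combination c (f b :: l.map f) * h3

lemma pull_Zc {τ₀ : W → W → R} {τ : Z → Z → R} {f : W → Z} {ν : W → R} {k : ℕ} {F F' : Set Z}
    {G G' : Set W} (h : Itw τ₀ τ f ν G) (hf : ∀ x ∈ G, ContinuousAt f x) (hG : G' ⊆ G)
    (hm : MapsTo f G F) (hm' : MapsTo f G' F') {c : List Z → R} (hc : c ∈ Zc τ k F F') :
    pull f ν c ∈ Zc τ₀ k G G' := by
  refine ⟨pull_Null ν (fun x hx => hf x (hG hx)) hm' hc.1, ?_⟩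
  have := add_mem (pull_D h (k + 1) c) (pull_Null ν hf hm (mem_Zc.1 hc).2)
  rwa [sub_add_cancel] at this

lemma pull_Bc {τ₀ : W → W → R} {τ : Z → Z → R} {f : W → Z} {ν : W → R} {k : ℕ} {F F' : Set Z}
    {G G' : Set W} (h : Itw τ₀ τ f ν G) (hf : ∀ x ∈ G, ContinuousAt f x) (hG : G' ⊆ G)
    (hm : MapsTo f G F) (hm' : MapsTo f G' F') {c : List Z → R} (hc : c ∈ Bc τ k F F') :
    pull f ν c ∈ Bc τ₀ k G G' := by
  obtain ⟨b, hb, h1⟩ := mem_Bc.1 hc
  refine mem_Bc.2 ⟨_, pull_Null ν (fun x hx => hf x (hG hx)) hm' hb, ?_⟩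
  have := sub_mem (pull_Null ν hf hm h1) (pull_D h k b)
  rwa [map_sub, sub_sub, add_sub_cancel] at this

lemma pull_id_Null {ν : Z → R} (k : ℕ) {F : Set Z} (h : ∀ x ∈ F, ∀ᶠ a in 𝓝 x, ν a = 1)
    (c : List Z → R) : pull id ν c - c ∈ Null R k F := by
  refine fun x hx => ⟨_, h x hx, fun l hl h1 => ?_⟩
  cases l with
  | nil => simp at hl
  | cons y l =>
    have : ν y = 1 := h1 y (by simp)
    simp [this]

omit [TopologicalSpace Z] in
lemma Itw_comp (τ : Z → Z → R) (f : W → Z) (G : Set W) :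
    Itw (fun a b => τ (f a) (f b)) τ f 1 G :=
  fun _ _ => ⟨univ, univ_mem, fun _ _ _ _ => by simp⟩

lemma Coc_one (F : Set Z) : Coc (1 : Z → Z → R) F :=
  fun _ _ => ⟨univ, univ_mem, fun _ _ => ⟨rfl, fun _ _ _ _ => by simp⟩⟩

lemma Coc.mono {τ : Z → Z → R} {F G : Set Z} (h : Coc τ F) (hG : G ⊆ F) : Coc τ G :=
  fun x hx => h x (hG hx)

lemma CocZ.mono {n : Z → Z → ℤ} {F G : Set Z} (h : CocZ n F) (hG : G ⊆ F) : CocZ n G :=
  fun x hx => h x (hG hx)

lemma Coc.comp {τ : Z → Z → R} {F : Set Z} (h : Coc τ F) {f : W → Z} {G : Set W}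
    (hf : ∀ x ∈ G, ContinuousAt f x) (hm : MapsTo f G F) :
    Coc (fun a b => τ (f a) (f b)) G := by
  intro x hx
  obtain ⟨U, hU, h1⟩ := h (f x) (hm hx)
  exact ⟨f ⁻¹' U, hf x hx hU, fun a ha => ⟨(h1 _ ha).1, fun b hb c hc => (h1 _ ha).2 _ hb _ hc⟩⟩

lemma CocZ.comp {n : Z → Z → ℤ} {F : Set Z} (h : CocZ n F) {f : W → Z} {G : Set W}
    (hf : ∀ x ∈ G, ContinuousAt f x) (hm : MapsTo f G F) :
    CocZ (fun a b => n (f a) (f b)) G := by
  intro x hx
  obtain ⟨U, hU, h1⟩ := h (f x) (hm hx)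
  exact ⟨f ⁻¹' U, hf x hx hU, fun a ha b hb c hc => h1 _ ha _ hb _ hc⟩

lemma CocZ.tw {n : Z → Z → ℤ} {F : Set Z} (h : CocZ n F) (t : Rˣ) : Coc (tw t n) F := by
  intro x hx
  obtain ⟨U, hU, h1⟩ := h x hx
  refine ⟨U, hU, fun a ha => ⟨?_, fun b hb c hc => ?_⟩⟩
  · have : n a a = 0 := by linarith [h1 a ha a ha a ha]
    simp [MP_3d25f3_gt.tw, this]
  · simp only [MP_3d25f3_gt.tw, ← h1 a ha b hb c hc, zpow_add, Units.val_mul]

lemma Mu_tw (t : Rˣ) (n : Z → Z → ℤ) (F : Set Z) : Mu (tw t n) (tw t⁻¹ n) 1 F := by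
  refine fun x _ => ⟨univ, univ_mem, fun a _ b _ => ?_⟩
  simp only [tw, ← Units.val_mul, inv_zpow, mul_inv_cancel, Units.val_one, Pi.one_apply]

lemma CocZ.nbhd {n : Z → Z → ℤ} {F : Set Z} (h : CocZ n F) :
    ∃ N, IsOpen N ∧ F ⊆ N ∧ CocZ n N := by
  refine ⟨{x | ∃ U ∈ 𝓝 x, ∀ a ∈ U, ∀ b ∈ U, ∀ c ∈ U, n a b + n b c = n a c}, ?_, h, fun _ hx => hx⟩
  exact isOpen_iff_mem_nhds.2 fun x ⟨U, hU, h⟩ =>
    mem_of_superset (eventually_mem_nhds_iff.2 hU) fun y hy => ⟨U, hy, h⟩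

lemma CocZ.co1 {n : Z → Z → ℤ} {F : Set Z} (h : CocZ n F) :
    co1 (fun a b => (n a b : R)) ∈ Zc (1 : Z → Z → R) 1 F ∅ := by
  refine ⟨by simp, fun x hx => ?_⟩
  obtain ⟨U, hU, h1⟩ := h x hx
  refine ⟨U, hU, fun l hl h2 => ?_⟩
  obtain ⟨a, b, c, rfl⟩ := List.length_eq_three.1 hl
  rw [D_three]
  simp only [MP_3d25f3_gt.co1, Pi.one_apply, one_mul,
    ← h1 a (h2 a (by simp)) b (h2 b (by simp)) c (h2 c (by simp))]
  push_cast
  ring

lemma CocZ_of_Zc {c : List Z → ℤ} {F : Set Z} (h : c ∈ Zc (1 : Z → Z → ℤ) 1 F ∅) :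
    CocZ (fun a b => c [a, b]) F := by
  intro x hx
  obtain ⟨U, hU, h1⟩ := (mem_Zc.1 h).2 x hx
  refine ⟨U, hU, fun a ha b hb e he => ?_⟩
  have := h1 [a, b, e] rfl (by simp [ha, hb, he])
  rw [D_three] at this
  simp only [Pi.one_apply, one_mul] at this
  linarith

end Pool.Agent.P.MP_3d25f3_gt
end

-- part Pool.Agent.P.MP_3d25f3_gt.Prism
section

set_option autoImplicit false

open Set Filter Topology

namespace Pool.Agent.P.MP_3d25f3_gt

variable {Z W : Type} [TopologicalSpace W] {R : Type} [CommRing R]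

section alg
omit [TopologicalSpace W]

/-- the prism operator -/
def prismP (f g : W → Z) : (List Z → R) → List W → R
  | _, [] => 0
  | c, x :: l => c (f x :: g x :: l.map g) - prismP f g (fun l' => c (f x :: l')) l

lemma prismP_realize : True := by have := @prismP.eq_def; trivial

lemma prism_d0_map (g : W → Z) (c : List Z → R) (l : List W) :
    d0 (fun l' => c (l'.map g)) l = d0 c (l.map g) := by
  induction l generalizing c with
  | nil => rfl
  | cons x l ih => exact congrArg (fun t => c (l.map g) - t) (ih fun l' => c (g x :: l'))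

lemma prism_d0_sub (a b : List W → R) (l : List W) :
    d0 (fun l' => a l' - b l') l = d0 a l - d0 b l := by
  induction l generalizing a b with
  | nil => simp [d0]
  | cons x l ih =>
    simp only [d0]
    rw [ih (fun l' => a (x :: l')) fun l' => b (x :: l')]
    ring

lemma prismP_sub (f g : W → Z) (a b : List Z → R) (l : List W) :
    prismP f g (fun l' => a l' - b l') l = prismP f g a l - prismP f g b l := by
  induction l generalizing a b with
  | nil => simp [prismP]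
  | cons x l ih =>
    simp only [prismP]
    rw [ih (fun l' => a (f x :: l')) fun l' => b (f x :: l')]
    ring

lemma prismP_congr {f g : W → Z} {V : Set Z} (r : R) {a b : List Z → R} {l : List W}
    (h : ∀ l' : List Z, l'.length = l.length + 1 → (∀ y ∈ l', y ∈ V) → a l' = r * b l')
    (hl : ∀ x ∈ l, f x ∈ V ∧ g x ∈ V) : prismP f g a l = r * prismP f g b l := by
  induction l generalizing a b with
  | nil => simp [prismP]
  | cons x l ih =>
    have hx := hl x List.mem_cons_self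
    have hl' : ∀ y ∈ l, f y ∈ V ∧ g y ∈ V := fun y hy => hl y (List.mem_cons_of_mem _ hy)
    simp only [prismP]
    rw [mul_sub, h _ (by simp) (List.forall_mem_cons.2 ⟨hx.1, List.forall_mem_cons.2 ⟨hx.2,
      List.forall_mem_map.2 fun y hy => (hl' y hy).2⟩⟩),
      ih (b := fun l' => b (f x :: l')) (fun l' h1 h2 => h _ (by simp [h1])
        (List.forall_mem_cons.2 ⟨hx.1, h2⟩)) hl']

lemma prismP_d0 (f g : W → Z) (c : List Z → R) (l : List W) :
    d0 (prismP f g c) l + prismP f g (d0 c) l = c (l.map g) - c (l.map f) := by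
  induction l generalizing c with
  | nil => simp [prismP, d0]
  | cons x l ih =>
    have h1 := ih fun l' => c (f x :: l')
    have h2 := prism_d0_map g (fun l' => c (f x :: g x :: l')) l
    simp only [prismP, d0, List.map_cons]
    rw [prism_d0_sub, prismP_sub f g c, h2]
    linear_combination h1

/-- the twisted homotopy -/
def prismH (τ : Z → Z → R) (f g : W → Z) (ν : W → R) (c : List Z → R) : List W → R
  | [] => 0
  | x :: l => ν x * prismP f g (pull id (τ (f x)) c) (x :: l)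

lemma prismH_D {τ₀ : W → W → R} {τ : Z → Z → R} {f g : W → Z} {ν : W → R} {V : Set Z}
    (hτ : CocOn τ V) (c : List Z → R) (x : W) (l : List W)
    (hν : ∀ y ∈ l, τ₀ x y * ν y = ν x * τ (f x) (f y))
    (hl : ∀ y ∈ x :: l, f y ∈ V ∧ g y ∈ V) :
    D τ₀ (prismH τ f g ν c) (x :: l) = ν x * d0 (prismP f g (pull id (τ (f x)) c)) (x :: l) := by
  rcases l with _ | ⟨y, m⟩
  · simp [d0, prismP]
  · have hx := (hl x List.mem_cons_self).1
    have hl' : ∀ z ∈ y :: m, f z ∈ V ∧ g z ∈ V := fun z hz => hl z (List.mem_cons_of_mem _ hz)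
    have hy := (hl' y List.mem_cons_self).1
    have h1 : prismP f g (pull id (τ (f x)) c) (y :: m) =
        τ (f x) (f y) * prismP f g (pull id (τ (f y)) c) (y :: m) := by
      refine prismP_congr _ (fun l' _ h2 => ?_) hl'
      rcases l' with _ | ⟨z, l'⟩
      · simp
      · rw [pull_cons, pull_cons, ← mul_assoc, (hτ _ hx).2 _ hy _ (h2 z List.mem_cons_self)]
    have h2 := d0_smul (ν x) (fun l' => prismP f g (pull id (τ (f x)) c) (x :: l')) (y :: m)
    have h3 : d0 (prismP f g (pull id (τ (f x)) c)) (x :: y :: m) =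
        prismP f g (pull id (τ (f x)) c) (y :: m) -
          d0 (fun l' => prismP f g (pull id (τ (f x)) c) (x :: l')) (y :: m) := rfl
    rw [D_cons, h3, mul_sub, ← h2, h1, prismH, ← mul_assoc, ← mul_assoc, hν y List.mem_cons_self]
    rfl

lemma prism_CocOn {τ : Z → Z → R} {U V : Set Z} (h : CocOn τ U) (hV : V ⊆ U) : CocOn τ V :=
  fun a ha => ⟨(h a (hV ha)).1, fun b hb c hc => (h a (hV ha)).2 b (hV hb) c (hV hc)⟩

end alg

/-- The prism lemma. No continuity of `f`, `g` is assumed. -/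
lemma prism {τ₀ : W → W → R} {τ : Z → Z → R} {f g : W → Z} {ν : W → R} {k : ℕ} {G G' : Set W}
    (c : List Z → R) (hν : Itw τ₀ τ f ν G)
    (h : ∀ x ∈ G, ∃ U ∈ 𝓝 x, ∃ V : Set Z, MapsTo f U V ∧ MapsTo g U V ∧ CocOn τ V ∧
      ∀ l : List Z, l.length = k + 2 → (∀ y ∈ l, y ∈ V) → D τ c l = 0)
    (h' : ∀ x ∈ G', ∃ U ∈ 𝓝 x, ∃ V : Set Z, MapsTo f U V ∧ MapsTo g U V ∧
      ∀ l : List Z, l.length = k + 1 → (∀ y ∈ l, y ∈ V) → c l = 0) :
    pull g (fun a => ν a * τ (f a) (g a)) c - pull f ν c ∈ Bc τ₀ k G G' := by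
  have key : pull g (fun a => ν a * τ (f a) (g a)) c - pull f ν c - D τ₀ (prismH τ f g ν c) ∈
      Null R k G := by
    intro x0 hx0
    obtain ⟨U, hU, V, hf, hg, hτ, hc⟩ := h x0 hx0
    obtain ⟨U', hU', hν'⟩ := hν x0 hx0
    refine ⟨U ∩ U', inter_mem hU hU', fun l hl hm => ?_⟩
    rcases l with _ | ⟨x, l⟩
    · simp at hl
    have hx := hm x List.mem_cons_self
    have hV : ∀ y ∈ x :: l, f y ∈ V ∧ g y ∈ V := fun y hy => ⟨hf (hm y hy).1, hg (hm y hy).1⟩
    have h1 := prismP_d0 f g (pull id (τ (f x)) c) (x :: l)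
    have h2 : prismP f g (d0 (pull id (τ (f x)) c)) (x :: l) = 0 * prismP f g c (x :: l) := by
      refine prismP_congr _ (fun l' h3 h4 => ?_) hV
      rcases l' with _ | ⟨z, l'⟩
      · simp at h3
      · rw [← D_gauge hτ (hf hx.1) c z l' h4, hc _ (by rw [h3, hl]) h4, mul_zero, zero_mul]
    rw [h2, zero_mul, add_zero] at h1
    rw [Pi.sub_apply, Pi.sub_apply, prismH_D hτ c x l
      (fun y hy => hν' x hx.2 y (hm y (List.mem_cons_of_mem _ hy)).2) hV, h1]
    simp only [List.map_cons, pull_cons, id, List.map_id, (hτ _ (hf hx.1)).1]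
    ring
  rcases k with _ | k
  · refine Null_le_Bc _ _ _ _ ?_
    simpa using add_mem key (D_Null_zero τ₀ G (prismH τ f g ν c))
  · refine mem_Bc.2 ⟨_, fun x0 hx0 => ?_, key⟩
    obtain ⟨U, hU, V, hf, hg, hc⟩ := h' x0 hx0
    refine ⟨U, hU, fun l hl hm => ?_⟩
    rcases l with _ | ⟨x, l⟩
    · rfl
    rw [prismH, prismP_congr (V := V) (b := c) 0 (fun l' h3 h4 => ?_)
      fun y hy => ⟨hf (hm y hy), hg (hm y hy)⟩, zero_mul, mul_zero]
    rcases l' with _ | ⟨z, l'⟩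
    · simp
    · rw [pull_cons, List.map_id, id, hc _ (by rw [h3, hl]; rfl) h4, mul_zero, zero_mul]

variable [TopologicalSpace Z]

/-- two maps that agree on `G` induce the same map -/
lemma prism_agree {τ₀ : W → W → R} {τ : Z → Z → R} {f g : W → Z} {ν : W → R} {k : ℕ}
    {F F' : Set Z} {G G' : Set W} (hτ : Coc τ F) (hν : Itw τ₀ τ f ν G) (hG : G' ⊆ G)
    (hf : ∀ x ∈ G, ContinuousAt f x) (hg : ∀ x ∈ G, ContinuousAt g x) (hfg : ∀ x ∈ G, f x = g x)
    (hm : MapsTo f G F) (hm' : MapsTo f G' F') {c : List Z → R} (hc : c ∈ Zc τ k F F') :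
    pull g (fun a => ν a * τ (f a) (g a)) c - pull f ν c ∈ Bc τ₀ k G G' := by
  have key : ∀ x ∈ G, ∀ V ∈ 𝓝 (f x), ∃ U ∈ 𝓝 x, MapsTo f U V ∧ MapsTo g U V := fun x hx V hV =>
    ⟨f ⁻¹' V ∩ g ⁻¹' V, inter_mem (hf x hx hV) (hg x hx (hfg x hx ▸ hV)), fun _ h => h.1,
      fun _ h => h.2⟩
  refine prism c hν (fun x hx => ?_) fun x hx => ?_
  · obtain ⟨V, hV, h1⟩ := hτ _ (hm hx)
    obtain ⟨V', hV', h2⟩ := hc.2 _ (hm hx)
    obtain ⟨U, hU, h3, h4⟩ := key x hx _ (inter_mem hV hV')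
    exact ⟨U, hU, _, h3, h4, prism_CocOn h1 inter_subset_left,
      fun l hl h5 => h2 l hl fun y hy => (h5 y hy).2⟩
  · obtain ⟨V, hV, h1⟩ := hc.1 _ (hm' hx)
    obtain ⟨U, hU, h3, h4⟩ := key x (hG hx) _ hV
    exact ⟨U, hU, V, h3, h4, h1⟩

lemma prism_id (k : ℕ) (F F' : Set Z) (τ : Z → Z → R) (c : List Z → R) :
    pull id 1 c - c ∈ Bc τ k F F' :=
  Null_le_Bc _ _ _ _ (pull_id_Null k (fun _ _ => Eventually.of_forall fun _ => rfl) c)

end Pool.Agent.P.MP_3d25f3_gt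

namespace Pool.Agent.P.MP_3d25f3_gt

variable {Z W : Type} [TopologicalSpace W] [MetricSpace Z] {R : Type} [CommRing R]

/-- a retraction that is continuous at the points of the image -/
lemma near_retr {e : W → Z} {G : Set W} (hG : IsCompact G) (hne : G.Nonempty) (he : Continuous e)
    (hi : InjOn e G) : ∃ r : Z → W, (∀ x ∈ G, r (e x) = x) ∧ ∀ x ∈ G, ContinuousAt r (e x) := by
  have h : ∀ y : Z, ∃ x ∈ G, IsMinOn (fun w => dist y (e w)) G x := fun y =>
    hG.exists_isMinOn hne (continuous_const.dist he).continuousOn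
  choose r hr hmin using h
  have h1 : ∀ x ∈ G, r (e x) = x := fun x hx => by
    have h2 : dist (e x) (e (r (e x))) ≤ dist (e x) (e x) := hmin (e x) hx
    rw [dist_self] at h2
    exact hi (hr _) hx (dist_le_zero.1 h2).symm
  refine ⟨r, h1, fun x hx => ?_⟩
  rw [ContinuousAt, h1 x hx, tendsto_nhds]
  intro N hN hxN
  have h2 : (e '' (G \ N))ᶜ ∈ 𝓝 (e x) := ((hG.diff hN).image he).isClosed.isOpen_compl.mem_nhds (by
    rintro ⟨w, hw, h3⟩
    exact hw.2 (hi hw.1 hx h3 ▸ hxN))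
  obtain ⟨δ, hδ, h3⟩ := Metric.mem_nhds_iff.1 h2
  filter_upwards [Metric.ball_mem_nhds (e x) (half_pos hδ)] with y hy
  by_contra h4
  have h5 : dist y (e (r y)) ≤ dist y (e x) := hmin y hx
  have h6 := dist_triangle_left (e (r y)) (e x) y
  have h7 : dist y (e x) < δ / 2 := hy
  exact h3 (show dist (e (r y)) (e x) < δ by linarith) ⟨r y, ⟨hr y, h4⟩, rfl⟩

lemma prism_Itw {τ : Z → Z → R} {e : W → Z} {r : Z → W} {G : Set W} (he : Continuous e)
    (hτ : Coc τ (e '' G)) (h1 : ∀ x ∈ G, r (e x) = x) (h2 : ∀ x ∈ G, ContinuousAt r (e x)) :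
    Itw τ (fun a b => τ (e a) (e b)) r (fun a => τ a (e (r a))) (e '' G) := by
  rintro _ ⟨x, hx, rfl⟩
  obtain ⟨V, hV, h3⟩ := hτ _ ⟨x, hx, rfl⟩
  have h4 : (e ∘ r) ⁻¹' V ∈ 𝓝 (e x) :=
    (he.continuousAt.comp (h2 x hx)) (by rwa [Function.comp_apply, h1 x hx])
  refine ⟨V ∩ (e ∘ r) ⁻¹' V, inter_mem hV h4, fun a ha b hb => ?_⟩
  exact ((h3 a ha.1).2 b hb.1 _ hb.2).trans ((h3 a ha.1).2 _ ha.2 _ hb.2).symm

omit [TopologicalSpace W] [MetricSpace Z] in
lemma prism_maps {e : W → Z} {r : Z → W} {G G' : Set W} (h1 : ∀ x ∈ G, r (e x) = x)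
    (hG' : G' ⊆ G) : MapsTo r (e '' G') G' := by
  rintro _ ⟨x, hx, rfl⟩
  rwa [h1 x (hG' hx)]

lemma emb_inj {τ : Z → Z → R} {e : W → Z} {k : ℕ} {G G' : Set W} (hG : IsCompact G)
    (hG' : G' ⊆ G) (he : Continuous e) (hi : InjOn e G) (hτ : Coc τ (e '' G)) {c : List Z → R}
    (hc : c ∈ Zc τ k (e '' G) (e '' G'))
    (h : pull e 1 c ∈ Bc (fun a b => τ (e a) (e b)) k G G') : c ∈ Bc τ k (e '' G) (e '' G') := by
  rcases G.eq_empty_or_nonempty with rfl | hne
  · refine Null_le_Bc _ _ _ _ ?_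
    simp
  obtain ⟨r, h1, h2⟩ := near_retr hG hne he hi
  have h2' : ∀ y ∈ e '' G, ContinuousAt r y := forall_mem_image.2 h2
  have h3 := pull_Bc (prism_Itw he hτ h1 h2) h2' (image_mono hG') (prism_maps h1 Subset.rfl)
    (prism_maps h1 hG') h
  rw [pull_pull] at h3
  have h4 := prism_agree (g := e ∘ r) hτ (Itw_comp τ id (e '' G)) (image_mono hG')
    (fun _ _ => continuousAt_id) (fun y hy => he.continuousAt.comp (h2' y hy))
    (forall_mem_image.2 fun x hx => congrArg e (h1 x hx).symm) (mapsTo_id _) (mapsTo_id _) hc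
  have h5 := sub_mem (sub_mem h3 (by simpa using h4)) (prism_id k _ _ τ c)
  simpa using h5

lemma emb_surj {τ : Z → Z → R} {e : W → Z} {k : ℕ} {G G' : Set W} (hG : IsCompact G)
    (hG' : G' ⊆ G) (he : Continuous e) (hi : InjOn e G) (hτ : Coc τ (e '' G)) {c' : List W → R}
    (hc : c' ∈ Zc (fun a b => τ (e a) (e b)) k G G') :
    ∃ c ∈ Zc τ k (e '' G) (e '' G'), pull e 1 c - c' ∈ Bc (fun a b => τ (e a) (e b)) k G G' := by
  rcases G.eq_empty_or_nonempty with rfl | hne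
  · refine ⟨0, zero_mem _, Null_le_Bc _ _ _ _ ?_⟩
    simp
  obtain ⟨r, h1, h2⟩ := near_retr hG hne he hi
  have h2' : ∀ y ∈ e '' G, ContinuousAt r y := forall_mem_image.2 h2
  refine ⟨_, pull_Zc (prism_Itw he hτ h1 h2) h2' (image_mono hG') (prism_maps h1 Subset.rfl)
    (prism_maps h1 hG') hc, ?_⟩
  have h4 := prism_agree (g := r ∘ e)
    (hτ.comp (fun _ _ => he.continuousAt) (mapsTo_image e G))
    (Itw_comp (fun a b => τ (e a) (e b)) id G) hG'
    (fun _ _ => continuousAt_id) (fun x hx => (h2 x hx).comp he.continuousAt)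
    (fun x hx => (h1 x hx).symm) (mapsTo_id _) (mapsTo_id _) hc
  have h5 := add_mem h4 (prism_id k G G' _ c')
  rw [sub_add_sub_cancel] at h5
  rw [pull_pull]
  exact h5

/-- invariance under embeddings of compact sets -/
lemma emb_equiv {τ : Z → Z → R} {τ₀ : W → W → R} {e : W → Z} (k : ℕ) {G G' : Set W}
    {F F' : Set Z} (hG : IsCompact G) (hG' : G' ⊆ G) (he : Continuous e) (hi : InjOn e G)
    (hF : F = e '' G) (hF' : F' = e '' G') (hτ : Coc τ F) (h₀ : ∀ a b, τ₀ a b = τ (e a) (e b)) :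
    ∃ Φ : H τ k F F' ≃ₗ[R] H τ₀ k G G', ∀ c hc, ∃ h', Φ (cl c hc) = cl (pull e 1 c) h' := by
  subst hF hF'
  obtain rfl : τ₀ = fun a b => τ (e a) (e b) := funext₂ h₀
  have hZ : ∀ c ∈ Zc τ k (e '' G) (e '' G'), pull e 1 c ∈ Zc (fun a b => τ (e a) (e b)) k G G' :=
    fun c hc => pull_Zc (Itw_comp τ e G) (fun _ _ => he.continuousAt) hG' (mapsTo_image e G)
      (mapsTo_image e G') hc
  have hB : ∀ c ∈ Zc τ k (e '' G) (e '' G'), c ∈ Bc τ k (e '' G) (e '' G') →
      pull e 1 c ∈ Bc (fun a b => τ (e a) (e b)) k G G' :=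
    fun c _ hc => pull_Bc (Itw_comp τ e G) (fun _ _ => he.continuousAt) hG' (mapsTo_image e G)
      (mapsTo_image e G') hc
  refine ⟨LinearEquiv.ofBijective (hmap (pull e 1) hZ hB) ⟨?_, fun y => ?_⟩,
    fun c hc => ⟨hZ c hc, rfl⟩⟩
  · refine (injective_iff_map_eq_zero _).2 fun x hx => ?_
    obtain ⟨c, hc, rfl⟩ := cl_surj x
    exact (cl_eq_zero hc).2 (emb_inj hG hG' he hi hτ hc ((cl_eq_zero (hZ c hc)).1 hx))
  · obtain ⟨c', hc', rfl⟩ := cl_surj y
    obtain ⟨c, hc, h⟩ := emb_surj hG hG' he hi hτ hc'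
    exact ⟨cl c hc, (cl_eq (hZ c hc) hc').2 h⟩

/-- a cocycle near a compact set is cohomologous to a pull-back along a map with finite range -/
lemma fin_rep {τ : Z → Z → R} {k : ℕ} {F : Set Z} (hF : IsCompact F) (hτ : Coc τ F)
    {c : List Z → R} (hc : c ∈ Zc τ k F ∅) :
    ∃ r : Z → Z, (range r).Finite ∧ pull r (fun a => τ a (r a)) c - c ∈ Bc τ k F ∅ := by
  classical
  rcases isEmpty_or_nonempty Z with hZ | ⟨⟨z0⟩⟩
  · exact ⟨id, toFinite _, Null_le_Bc _ _ _ _ fun x _ => isEmptyElim x⟩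
  have h1 : ∀ x : F, ∃ V ∈ 𝓝 (x : Z), CocOn τ V ∧
      ∀ l : List Z, l.length = k + 2 → (∀ y ∈ l, y ∈ V) → D τ c l = 0 := fun x => by
    obtain ⟨V, hV, h1⟩ := hτ x x.2
    obtain ⟨V', hV', h2⟩ := hc.2 x x.2
    exact ⟨V ∩ V', inter_mem hV hV', prism_CocOn h1 inter_subset_left,
      fun l hl h5 => h2 l hl fun y hy => (h5 y hy).2⟩
  choose V hV h2 h3 using h1
  obtain ⟨δ, hδ, h4⟩ := lebesgue_number_lemma_of_metric (c := fun x => interior (V x)) hF
    (fun _ => isOpen_interior)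
    fun x hx => mem_iUnion.2 ⟨⟨x, hx⟩, mem_interior_iff_mem_nhds.2 (hV ⟨x, hx⟩)⟩
  have hδ3 : 0 < δ / 3 := by positivity
  obtain ⟨t, -, ht, h5⟩ := hF.finite_cover_balls hδ3
  obtain ⟨r, hr1, hr2⟩ : ∃ r : Z → Z, (∀ y, r y ∈ insert z0 t) ∧
      ∀ y, (∃ p ∈ t, dist y p < 2 * δ / 3) → dist y (r y) < 2 * δ / 3 := by
    refine ⟨fun y => if h : ∃ p ∈ t, dist y p < 2 * δ / 3 then h.choose else z0, fun y => ?_,
      fun y h => ?_⟩
    · beta_reduce
      split_ifs with h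
      · exact Or.inr h.choose_spec.1
      · exact Or.inl rfl
    · beta_reduce
      rw [dif_pos h]
      exact h.choose_spec.2
  refine ⟨r, (ht.insert z0).subset (range_subset_iff.2 hr1), ?_⟩
  have h6 := prism (g := r) (k := k) (G' := ∅) c (Itw_comp τ id F) (fun x hx => by
    obtain ⟨i, hi⟩ := h4 x hx
    obtain ⟨p, hp, h7⟩ := mem_iUnion₂.1 (h5 hx)
    refine ⟨Metric.ball x (δ / 3), Metric.ball_mem_nhds x hδ3, V i, fun y hy => ?_,
      fun y hy => ?_, h2 i, h3 i⟩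
    · exact interior_subset (hi (Metric.ball_subset_ball (by linarith) hy))
    · have h8 : dist y x < δ / 3 := hy
      have h9 : dist x p < δ / 3 := h7
      have h10 := hr2 y ⟨p, hp, by linarith [dist_triangle y x p]⟩
      exact interior_subset (hi (show dist (r y) x < δ by
        linarith [dist_triangle_left (r y) x y]))) fun _ hx => hx.elim
  have h7 := add_mem h6 (prism_id k F ∅ _ c)
  simpa using h7

end Pool.Agent.P.MP_3d25f3_gt
end

-- part Pool.Agent.P.MP_3d25f3_gt.Hi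
section

set_option autoImplicit false

open Set Filter Topology

namespace Pool.Agent.P.MP_3d25f3_gt

variable {Z W : Type} [TopologicalSpace W] [TopologicalSpace Z] {R : Type} [CommRing R]

/-- locally constant along a preconnected set -/
lemma const_of_loc {A : Type} {f : Z → A} {K : Set Z} (hK : IsPreconnected K)
    (h : ∀ x ∈ K, ∀ᶠ y in 𝓝[K] x, f y = f x) {x y : Z} (hx : x ∈ K) (hy : y ∈ K) : f x = f y := by
  exact hK.induction₂' (fun a b => f a = f b) (fun x hx => (h x hx).mono fun _ e => ⟨e.symm, e⟩)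
    (fun _ _ _ _ _ _ => Eq.trans) hx hy

lemma hi_unif {G : Set W} (hG : IsCompact G) {s : ℝ} (Q : Set W → Set ℝ → Prop)
    (hQ : ∀ U J J', J' ⊆ J → Q U J → Q U J') (h : ∀ x ∈ G, ∃ U ∈ 𝓝 x, ∃ J ∈ 𝓝 s, Q U J) :
    ∃ J ∈ 𝓝 s, ∀ x ∈ G, ∃ U ∈ 𝓝 x, Q U J := by
  refine hG.induction_on (p := fun K => ∃ J ∈ 𝓝 s, ∀ x ∈ K, ∃ U ∈ 𝓝 x, Q U J)
    ⟨univ, univ_mem, fun _ hx => hx.elim⟩
    (fun _ _ hst ⟨J, hJ, h1⟩ => ⟨J, hJ, fun x hx => h1 x (hst hx)⟩) ?_ fun x hx => ?_
  · rintro K K' ⟨J, hJ, h1⟩ ⟨J', hJ', h2⟩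
    refine ⟨J ∩ J', inter_mem hJ hJ', fun x hx => ?_⟩
    rcases hx with hx | hx
    · exact (h1 x hx).imp fun U hU => ⟨hU.1, hQ _ _ _ inter_subset_left hU.2⟩
    · exact (h2 x hx).imp fun U hU => ⟨hU.1, hQ _ _ _ inter_subset_right hU.2⟩
  · obtain ⟨U, hU, J, hJ, h1⟩ := h x hx
    exact ⟨interior U, mem_nhdsWithin_of_mem_nhds (interior_mem_nhds.2 hU), J, hJ,
      fun y hy => ⟨U, mem_interior_iff_mem_nhds.1 hy, h1⟩⟩

lemma hi_tube {h : W → ℝ → Z} {G : Set W} (hG : IsCompact G) (hh : Continuous (Function.uncurry h))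
    {s : ℝ} (P : Set Z → Prop) (hP : ∀ x ∈ G, ∃ V ∈ 𝓝 (h x s), P V) :
    ∃ J ∈ 𝓝 s, ∀ x ∈ G, ∃ U ∈ 𝓝 x, ∃ V, (∀ r ∈ J, MapsTo (fun a => h a r) U V) ∧ P V := by
  refine hi_unif hG (fun U J => ∃ V, (∀ r ∈ J, MapsTo (fun a => h a r) U V) ∧ P V)
    (fun _ _ _ hJ ⟨V, h1, h2⟩ => ⟨V, fun r hr => h1 r (hJ hr), h2⟩) fun x hx => ?_
  obtain ⟨V, hV, h1⟩ := hP x hx
  obtain ⟨U, hU, J, hJ, h2⟩ := mem_nhds_prod_iff.1 (hh.continuousAt (x := (x, s)) hV)
  exact ⟨U, hU, J, hJ, V, fun r hr a ha => h2 (mk_mem_prod ha hr), h1⟩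

lemma hi_prism {τ : Z → Z → R} {h : W → ℝ → Z} {k : ℕ} {F F' : Set Z} {G G' : Set W}
    (hG : IsCompact G) (hG' : IsCompact G') (hh : Continuous (Function.uncurry h))
    (hτ : Coc τ F) {s : ℝ} (hm : ∀ x ∈ G, h x s ∈ F) (hm' : ∀ x ∈ G', h x s ∈ F')
    {c : List Z → R} (hc : c ∈ Zc τ k F F') :
    ∃ J ∈ 𝓝 s, ∀ r ∈ J, ∀ r' ∈ J,
      (∀ (τ₀ : W → W → R) (ν : W → R), Itw τ₀ τ (fun x => h x r) ν G →
        pull (fun x => h x r') (fun a => ν a * τ (h a r) (h a r')) c - pull (fun x => h x r) ν c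
          ∈ Bc τ₀ k G G') ∧
      Itw (fun a b => τ (h a r) (h b r)) (fun a b => τ (h a r') (h b r')) id
        (fun a => τ (h a r) (h a r')) G := by
  obtain ⟨J, hJ, h1⟩ := hi_tube hG hh (fun V => CocOn τ V ∧
    ∀ l : List Z, l.length = k + 2 → (∀ y ∈ l, y ∈ V) → D τ c l = 0) (s := s) fun x hx => by
      obtain ⟨U, hU, a⟩ := hτ _ (hm x hx)
      obtain ⟨V, hV, b⟩ := hc.2 _ (hm x hx)
      exact ⟨U ∩ V, inter_mem hU hV, fun y hy => ⟨(a y hy.1).1,
        fun z hz w hw => (a y hy.1).2 z hz.1 w hw.1⟩, fun l hl e => b l hl fun y hy => (e y hy).2⟩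
  obtain ⟨J', hJ', h2⟩ := hi_tube hG' hh (fun V =>
    ∀ l : List Z, l.length = k + 1 → (∀ y ∈ l, y ∈ V) → c l = 0) (s := s)
    fun x hx => hc.1 _ (hm' x hx)
  refine ⟨J ∩ J', inter_mem hJ hJ', fun r hr r' hr' => ⟨fun τ₀ ν hν => prism c hν
    (fun x hx => ?_) fun x hx => ?_, fun x hx => ?_⟩⟩
  · obtain ⟨U, hU, V, a, b⟩ := h1 x hx
    exact ⟨U, hU, V, a r hr.1, a r' hr'.1, b⟩
  · obtain ⟨U, hU, V, a, b⟩ := h2 x hx
    exact ⟨U, hU, V, a r hr.2, a r' hr'.2, b⟩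
  · obtain ⟨U, hU, V, a, b, -⟩ := h1 x hx
    exact ⟨U, hU, fun y hy z hz => ((b _ (a r hr.1 hy)).2 _ (a r hr.1 hz) _ (a r' hr'.1 hz)).trans
      ((b _ (a r hr.1 hy)).2 _ (a r' hr'.1 hy) _ (a r' hr'.1 hz)).symm⟩

/-- homotopy invariance, one small step -/
lemma hi_step {τ : Z → Z → R} {h : W → ℝ → Z} {k : ℕ} {F F' : Set Z} {G G' : Set W}
    (hG : IsCompact G) (hG' : IsCompact G') (hh : Continuous (Function.uncurry h))
    (hτ : Coc τ F) {s : ℝ} (hm : ∀ x ∈ G, h x s ∈ F) (hm' : ∀ x ∈ G', h x s ∈ F')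
    {c : List Z → R} (hc : c ∈ Zc τ k F F') :
    ∃ J ∈ 𝓝 s, ∀ r ∈ J, ∀ r' ∈ J,
      pull (fun x => h x r') (fun a => τ (h a r) (h a r')) c - pull (fun x => h x r) 1 c
        ∈ Bc (fun a b => τ (h a r) (h b r)) k G G' ∧
      Itw (fun a b => τ (h a r) (h b r)) (fun a b => τ (h a r') (h b r')) id
        (fun a => τ (h a r) (h a r')) G := by
  obtain ⟨J, hJ, h1⟩ := hi_prism hG hG' hh hτ hm hm' hc
  refine ⟨J, hJ, fun r hr r' hr' => ⟨?_, (h1 r hr r' hr').2⟩⟩
  simpa only [Pi.one_apply, one_mul] using (h1 r hr r' hr').1 _ _ (Itw_comp τ _ G)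

/-- homotopy invariance with a family of gauges -/
lemma hi_gauge {τ₀ : W → W → R} {τ : Z → Z → R} {h : W → ℝ → Z} {ν : W → ℝ → R} {k : ℕ}
    {F F' : Set Z} {G G' : Set W} (hG : IsCompact G) (hG' : IsCompact G') (hGG : G' ⊆ G)
    (hh : Continuous (Function.uncurry h)) (hτ : Coc τ F)
    (hm : ∀ x ∈ G, ∀ s ∈ Icc (0 : ℝ) 1, h x s ∈ F) (hm' : ∀ x ∈ G', ∀ s ∈ Icc (0 : ℝ) 1, h x s ∈ F')
    (hI : ∀ s ∈ Icc (0 : ℝ) 1, Itw τ₀ τ (fun x => h x s) (fun x => ν x s) G)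
    (hν : ∀ x ∈ G, ∀ s ∈ Icc (0 : ℝ) 1, ∃ U ∈ 𝓝 x, ∃ J ∈ 𝓝 s, ∀ a ∈ U, ∀ r ∈ J, ∀ r' ∈ J,
      ν a r * τ (h a r) (h a r') = ν a r')
    {c : List Z → R} (hc : c ∈ Zc τ k F F') :
    pull (fun x => h x 1) (fun x => ν x 1) c - pull (fun x => h x 0) (fun x => ν x 0) c
      ∈ Bc τ₀ k G G' := by
  refine (Submodule.Quotient.eq _).1 (const_of_loc (f := fun s => (Submodule.Quotient.mk
    (pull (fun x => h x s) (fun x => ν x s) c) : _ ⧸ Bc τ₀ k G G')) isPreconnected_Icc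
    (fun s hs => ?_) (right_mem_Icc.2 zero_le_one) (left_mem_Icc.2 zero_le_one))
  obtain ⟨J, hJ, h1⟩ := hi_prism hG hG' hh hτ (fun x hx => hm x hx s hs)
    (fun x hx => hm' x hx s hs) hc
  obtain ⟨J', hJ', h2⟩ := hi_unif hG (fun U J => ∀ a ∈ U, ∀ r ∈ J, ∀ r' ∈ J,
    ν a r * τ (h a r) (h a r') = ν a r') (fun _ _ _ e h a ha r hr r' hr' =>
      h a ha r (e hr) r' (e hr')) fun x hx => hν x hx s hs
  filter_upwards [mem_nhdsWithin_of_mem_nhds hJ, mem_nhdsWithin_of_mem_nhds hJ'] with r hr hr'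
  have h3 := (h1 s (mem_of_mem_nhds hJ) r hr).1 _ _ (hI s hs)
  have h4 : pull (fun x => h x r) (fun x => ν x r) c -
      pull (fun x => h x r) (fun a => ν a s * τ (h a s) (h a r)) c ∈ Null R k G := fun x hx => by
    obtain ⟨U, hU, e⟩ := h2 x hx
    refine ⟨U, hU, fun l hl hl' => ?_⟩
    cases l with
    | nil => simp
    | cons a l => simp [e a (hl' a (by simp)) s (mem_of_mem_nhds hJ') r hr']
  exact (Submodule.Quotient.eq _).2
    (sub_add_sub_cancel (G := List W → R) _ _ _ ▸ add_mem (Null_le_Bc _ _ _ _ h4) h3)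

/-- homotopy invariance of vanishing -/
lemma hi_van {τ : Z → Z → R} {h : W → ℝ → Z} {k : ℕ} {F F' : Set Z} {G G' : Set W}
    (hG : IsCompact G) (hG' : IsCompact G') (hGG : G' ⊆ G) (hh : Continuous (Function.uncurry h))
    (hτ : Coc τ F) (hm : ∀ x ∈ G, ∀ s ∈ Icc (0 : ℝ) 1, h x s ∈ F)
    (hm' : ∀ x ∈ G', ∀ s ∈ Icc (0 : ℝ) 1, h x s ∈ F') {c : List Z → R} (hc : c ∈ Zc τ k F F')
    (h1 : pull (fun x => h x 1) 1 c ∈ Bc (fun a b => τ (h a 1) (h b 1)) k G G') :
    pull (fun x => h x 0) 1 c ∈ Bc (fun a b => τ (h a 0) (h b 0)) k G G' := by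
  refine (const_of_loc (f := fun s => pull (fun x => h x s) 1 c ∈
    Bc (fun a b => τ (h a s) (h b s)) k G G') isPreconnected_Icc
    (fun s hs => ?_) (right_mem_Icc.2 zero_le_one) (left_mem_Icc.2 zero_le_one)).mp h1
  obtain ⟨J, hJ, h2⟩ := hi_step hG hG' hh hτ (fun x hx => hm x hx s hs)
    (fun x hx => hm' x hx s hs) hc
  have h3 : ∀ r ∈ J, ∀ r' ∈ J, pull (fun x => h x r') 1 c ∈
      Bc (fun a b => τ (h a r') (h b r')) k G G' → pull (fun x => h x r) 1 c ∈
      Bc (fun a b => τ (h a r) (h b r)) k G G' := fun r hr r' hr' h4 => by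
    have h5 := pull_Bc (h2 r hr r' hr').2 (fun _ _ => continuousAt_id) hGG (mapsTo_id _)
      (mapsTo_id _) h4
    rw [pull_pull] at h5
    simp only [Pi.one_apply, mul_one] at h5
    exact (Submodule.sub_mem_iff_right _ h5).1 (h2 r hr r' hr').1
  filter_upwards [mem_nhdsWithin_of_mem_nhds hJ] with r hr
  exact propext ⟨h3 _ (mem_of_mem_nhds hJ) _ hr, h3 _ hr _ (mem_of_mem_nhds hJ)⟩

/-- the same for a homotopy that starts at the identity -/
lemma hi_van_id {τ : Z → Z → R} {h : Z → ℝ → Z} {k : ℕ} {F F' G G' : Set Z}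
    (hG : IsCompact G) (hG' : IsCompact G') (hGG : G' ⊆ G) (hh : Continuous (Function.uncurry h))
    (h0 : ∀ x, h x 0 = x) (hτ : Coc τ F) (hm : ∀ x ∈ G, ∀ s ∈ Icc (0 : ℝ) 1, h x s ∈ F)
    (hm' : ∀ x ∈ G', ∀ s ∈ Icc (0 : ℝ) 1, h x s ∈ F') {c : List Z → R} (hc : c ∈ Zc τ k F F')
    (h1 : pull (fun x => h x 1) 1 c ∈ Bc (fun a b => τ (h a 1) (h b 1)) k G G') :
    c ∈ Bc τ k G G' := by
  have h2 := hi_van hG hG' hGG hh hτ hm hm' hc h1
  simp only [h0] at h2
  exact (Submodule.sub_mem_iff_right _ h2).1 (Null_le_Bc _ _ _ _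
    (pull_id_Null (ν := 1) k (fun _ _ => Eventually.of_forall fun _ => rfl) c))

/-- a pair that deforms into its second member -/
lemma van_deform {τ : Z → Z → R} {h : Z → ℝ → Z} (k : ℕ) {G G' : Set Z}
    (hG : IsCompact G) (hG' : IsCompact G') (hGG : G' ⊆ G) (hh : Continuous (Function.uncurry h))
    (h0 : ∀ x, h x 0 = x) (hτ : Coc τ G) (hm : ∀ x ∈ G, ∀ s ∈ Icc (0 : ℝ) 1, h x s ∈ G)
    (hm' : ∀ x ∈ G', ∀ s ∈ Icc (0 : ℝ) 1, h x s ∈ G') (h1 : ∀ x ∈ G, h x 1 ∈ G') :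
    Van τ k G G' := by
  exact fun c hc => hi_van_id hG hG' hGG hh h0 hτ hm hm' hc (Null_le_Bc _ _ _ _
    (pull_Null 1 (fun _ _ => (hh.uncurry_right 1).continuousAt) h1 hc.1))

omit [TopologicalSpace Z] in
lemma hi_d0 (a : R) (p : Z) (l : List Z) :
    d0 (fun _ => a) l = d0 (fun _ => a) (List.replicate l.length p) := by
  induction l with
  | nil => rfl
  | cons x l ih => exact congrArg (a - ·) ih

/-- a compact set that contracts to a point -/
lemma van_contr {τ : Z → Z → R} {h : Z → ℝ → Z} (k : ℕ) {G : Set Z} (hG : IsCompact G)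
    (hh : Continuous (Function.uncurry h)) (h0 : ∀ x, h x 0 = x) (hτ : Coc τ G)
    (hm : ∀ x ∈ G, ∀ s ∈ Icc (0 : ℝ) 1, h x s ∈ G) {p : Z} (h1 : ∀ x, h x 1 = p) :
    Van τ (k + 1) G ∅ := by
  intro c hc
  refine hi_van_id hG isCompact_empty (empty_subset _) hh h0 hτ hm (fun _ hx => hx.elim) hc ?_
  simp only [h1]
  refine mem_Bc.2 ⟨fun _ => c (List.replicate (k + 2) p), by simp, fun x hx => ?_⟩
  have hp : p ∈ G := h1 x ▸ hm x hx 1 (right_mem_Icc.2 zero_le_one)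
  obtain ⟨U, hU, h2⟩ := hτ p hp
  obtain ⟨V, hV, h3⟩ := hc.2 p hp
  have h4 := (h2 p (mem_of_mem_nhds hU)).1
  have h5 := h3 (List.replicate (k + 3) p) (by simp) fun y hy =>
    List.eq_of_mem_replicate hy ▸ mem_of_mem_nhds hV
  rw [D_congr τ (b := fun _ => c (List.replicate (k + 2) p)) (U := {p}) (k := k + 2)
    (fun l hl e => congrArg c (List.eq_replicate_iff.2 ⟨hl, e⟩)) (by simp)
    fun y hy => List.eq_of_mem_replicate hy] at h5
  have h6 : τ p p * c (List.replicate (k + 2) p) - (c (List.replicate (k + 2) p) -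
    d0 (fun _ => c (List.replicate (k + 2) p)) (List.replicate (k + 1) p)) = 0 := h5
  refine ⟨univ, univ_mem, fun l hl _ => ?_⟩
  match l, hl with
  | a :: b :: l, hl =>
    have h7 : (b :: l).length = k + 1 := Nat.succ_injective hl
    rw [Pi.sub_apply, pull_cons, D_cons, hi_d0 _ p, List.map_const', h7, Pi.one_apply,
      ← List.replicate_succ]
    rw [h4] at h6 ⊢
    linear_combination h6

lemma van_convex {E : Type} [NormedAddCommGroup E] [NormedSpace ℝ E] {τ : E → E → R} (k : ℕ)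
    {K : Set E} (hK : IsCompact K) (hc : Convex ℝ K) (hτ : Coc τ K) : Van τ (k + 1) K ∅ := by
  rcases K.eq_empty_or_nonempty with rfl | ⟨p, hp⟩
  · exact fun c _ => Null_le_Bc _ _ _ _ (by simp)
  · exact van_contr (h := fun x s => x + s • (p - x)) (p := p) k hK (by fun_prop) (by simp) hτ
      (fun x hx s hs => hc.add_smul_sub_mem hx hp hs) (by simp)

lemma one_mem_Zc (F : Set Z) : (fun _ => (1 : R)) ∈ Zc (1 : Z → Z → R) 0 F ∅ := by
  refine ⟨by simp, fun _ _ => ⟨univ, univ_mem, fun l hl _ => ?_⟩⟩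
  match l, hl with
  | [a, b], _ => simp [D_two]

lemma h0_const {K : Set Z} (hK : IsPreconnected K) {c : List Z → R}
    (hc : c ∈ Zc (1 : Z → Z → R) 0 K ∅) {x : Z} (hx : x ∈ K) :
    c - (fun _ => c [x]) ∈ Null R 0 K := by
  have h1 : ∀ y ∈ K, ∀ᶠ z in 𝓝 y, c [z] = c [y] := fun y hy => by
    obtain ⟨U, hU, h⟩ := hc.2 y hy
    filter_upwards [hU] with z hz
    have h2 := h [y, z] rfl (by simp [hz, mem_of_mem_nhds hU])
    rwa [D_two, Pi.one_apply, Pi.one_apply, one_mul, sub_eq_zero] at h2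
  refine fun y hy => ⟨_, h1 y hy, fun l hl h => ?_⟩
  match l, hl with
  | [a], _ =>
    exact sub_eq_zero.2 (Eq.trans (h a (by simp)) (const_of_loc (f := fun z => c [z]) hK
      (fun z hz => (h1 z hz).filter_mono nhdsWithin_le_nhds) hy hx))

lemma triv_one (F : Set Z) : Triv (1 : Z → Z → R) F :=
  ⟨1, 1, fun _ _ => ⟨univ, univ_mem, fun _ _ => ⟨by simp, fun _ _ => by simp⟩⟩⟩

lemma triv_tw {E : Type} [NormedAddCommGroup E] [NormedSpace ℝ E] {n : E → E → ℤ} {K : Set E}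
    (hK : IsCompact K) (hc : Convex ℝ K) (hn : CocZ n K) (t : Rˣ) : Triv (tw t n) K := by
  obtain ⟨b, -, h⟩ := mem_Bc.1 (van_convex 0 hK hc (Coc_one K) (hn.co1 (R := ℤ)))
  refine ⟨fun a => (t ^ (-b [a]) : Rˣ), fun a => (t ^ b [a] : Rˣ), fun x hx => ?_⟩
  obtain ⟨U, hU, h1⟩ := h x hx
  refine ⟨U, hU, fun a ha => ⟨by simp, fun a' ha' => ?_⟩⟩
  have h2 := h1 [a, a'] rfl (by simp [ha, ha'])
  rw [Pi.sub_apply, D_two, Pi.one_apply, Pi.one_apply, one_mul, sub_eq_zero] at h2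
  have h3 : n a a' + -b [a'] = -b [a] := by
    have h4 : n a a' = b [a'] - b [a] := h2
    omega
  show ((t ^ n a a' : Rˣ) : R) * (t ^ (-b [a']) : Rˣ) = (t ^ (-b [a]) : Rˣ)
  rw [← Units.val_mul, ← zpow_add, h3]

end Pool.Agent.P.MP_3d25f3_gt
end

-- part Pool.Agent.P.MP_3d25f3_gt.Les
section

set_option autoImplicit false

open Set Filter Topology

namespace Pool.Agent.P.MP_3d25f3_gt

variable {Z : Type} [TopologicalSpace Z] {R : Type} [CommRing R] {τ : Z → Z → R}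
  {F F' F'' : Set Z}

/-- connecting map of the triple `F ⊇ F' ⊇ F''` -/
def del (k : ℕ) (hτ : Coc τ (F \ F'')) : H τ k F' F'' →ₗ[R] H τ (k + 1) F F' :=
  hmap (D τ) (fun _ hc => ⟨hc.2, DD_Null (k := k + 1) hτ hc.1⟩) (fun c _ hc => by
    obtain ⟨b, hb, h⟩ := mem_Bc.1 hc
    refine mem_Bc.2 ⟨c - D τ b, h, ?_⟩
    simpa using DD_Null hτ hb)

lemma del_cl (k : ℕ) (hτ : Coc τ (F \ F'')) (c : List Z → R) (hc : c ∈ Zc τ k F' F'') :
    del k hτ (cl c hc) = cl (D τ c) (⟨hc.2, DD_Null (k := k + 1) hτ hc.1⟩ :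
      D τ c ∈ Zc τ (k + 1) F F') := rfl

lemma exact_res_res (k : ℕ) (hτ : Coc τ (F \ F'')) (h : F' ⊆ F) (h' : F'' ⊆ F') :
    Function.Exact (res τ k (F := F) (F' := F') subset_rfl h')
      (res τ k (F := F) (F' := F'') h subset_rfl) := by
  intro y
  obtain ⟨c, hc, rfl⟩ := cl_surj y
  constructor
  · intro h0
    rw [res_cl, cl_eq_zero] at h0
    obtain ⟨b, hb, h1⟩ := mem_Bc.1 h0
    have h2 : c - D τ b ∈ Zc τ k F F' := by
      refine mem_Zc.2 ⟨h1, ?_⟩
      rw [map_sub]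
      exact sub_mem hc.2 (DD_Null hτ hb)
    refine ⟨cl _ h2, ?_⟩
    rw [res_cl, cl_eq]
    refine mem_Bc.2 ⟨-b, neg_mem hb, ?_⟩
    simp
  · rintro ⟨x, hx⟩
    obtain ⟨a, ha, rfl⟩ := cl_surj x
    rw [← hx, res_cl, res_cl, cl_eq_zero]
    exact Null_le_Bc τ k F' F'' ha.1

lemma exact_res_del (k : ℕ) (hτ : Coc τ (F \ F'')) (h : F' ⊆ F) (h' : F'' ⊆ F') :
    Function.Exact (res τ k (F := F) (F' := F'') h subset_rfl) (del k hτ) := by
  intro y
  obtain ⟨c, hc, rfl⟩ := cl_surj y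
  constructor
  · intro h0
    rw [del_cl] at h0
    obtain ⟨b, hb, h1⟩ := mem_Bc.1 ((cl_eq_zero _).1 h0)
    have hb' : b ∈ Null R k F' := hb
    have h2 : c - b ∈ Zc τ k F F'' := by
      refine mem_Zc.2 ⟨sub_mem hc.1 (Null_mono k h' hb'), ?_⟩
      rw [map_sub]
      exact h1
    refine ⟨cl _ h2, ?_⟩
    rw [res_cl, cl_eq]
    refine Null_le_Bc τ k F' F'' ?_
    simpa using hb'
  · rintro ⟨x, hx⟩
    obtain ⟨a, ha, rfl⟩ := cl_surj x
    rw [← hx, res_cl, del_cl]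
    exact (cl_eq_zero _).2 (Null_le_Bc τ (k + 1) F F' ha.2)

lemma exact_del_res (k : ℕ) (hτ : Coc τ (F \ F'')) (h : F' ⊆ F) (h' : F'' ⊆ F') :
    Function.Exact (del (F' := F') k hτ) (res τ (k + 1) (F := F) (F' := F') subset_rfl h') := by
  intro y
  obtain ⟨c, hc, rfl⟩ := cl_surj y
  constructor
  · intro h0
    rw [res_cl, cl_eq_zero] at h0
    obtain ⟨b, hb, h1⟩ := mem_Bc.1 h0
    have hb' : b ∈ Null R k F'' := hb
    have h2 : b ∈ Zc τ k F' F'' := by
      refine mem_Zc.2 ⟨hb', ?_⟩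
      have h3 := sub_mem hc.1 (Null_mono (k + 1) h h1)
      simpa using h3
    refine ⟨cl _ h2, ?_⟩
    rw [del_cl]
    refine (cl_eq _ _).2 (Null_le_Bc τ (k + 1) F F' ?_)
    have h4 := neg_mem h1
    rwa [neg_sub] at h4
  · rintro ⟨x, hx⟩
    obtain ⟨a, ha, rfl⟩ := cl_surj x
    rw [← hx, del_cl]
    refine (res_cl τ (k + 1) _ _ _ _).trans ((cl_eq_zero _).2 (mem_Bc.2 ⟨a, ha.1, ?_⟩))
    simp

lemma res_zero_inj (h' : F'' ⊆ F') :
    Function.Injective (res τ 0 (F := F) (F' := F') subset_rfl h') := by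
  intro x y hxy
  obtain ⟨a, ha, rfl⟩ := cl_surj x
  obtain ⟨b, hb, rfl⟩ := cl_surj y
  rw [res_cl, res_cl, cl_eq, Bc_zero] at hxy
  rw [cl_eq, Bc_zero]
  exact hxy

lemma van_iff (k : ℕ) : Van τ k F F' ↔ Subsingleton (H τ k F F') := by
  constructor
  · intro hv
    refine ⟨fun x y => ?_⟩
    obtain ⟨a, ha, rfl⟩ := cl_surj x
    obtain ⟨b, hb, rfl⟩ := cl_surj y
    rw [cl_eq]
    exact hv (sub_mem ha hb)
  · intro hs c hc
    exact (cl_eq_zero hc).1 (Subsingleton.elim _ _)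

lemma van_self (k : ℕ) : Van τ k F F := fun _ hc => Null_le_Bc τ k F F hc.1

/-- vanishing in the middle of a triple -/
lemma van_mid (k : ℕ) (h1 : Van τ k F F') (h2 : Van τ k F' F'') (hτ : Coc τ (F \ F''))
    (h : F' ⊆ F) (h' : F'' ⊆ F') : Van τ k F F'' := by
  intro c hc
  obtain ⟨b, hb, h3⟩ := mem_Bc.1 (h2 (Zc_mono τ k h subset_rfl hc))
  have h4 : c - D τ b ∈ Zc τ k F F' := by
    refine mem_Zc.2 ⟨h3, ?_⟩
    rw [map_sub]
    exact sub_mem hc.2 (DD_Null hτ hb)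
  have h5 : c - D τ b ∈ Bc τ k F F'' := Bc_mono τ k subset_rfl h' (h1 h4)
  have h6 : D τ b ∈ Bc τ k F F'' := mem_Bc.2 ⟨b, hb, by simp⟩
  simpa using add_mem h5 h6

lemma van_left (k : ℕ) (h1 : Van τ k F' F'') (h2 : Van τ (k + 1) F F'') (hτ : Coc τ (F \ F''))
    (h : F' ⊆ F) (h' : F'' ⊆ F') : Van τ (k + 1) F F' := by
  intro c hc
  obtain ⟨b, hb, h3⟩ := mem_Bc.1 (h2 (Zc_mono τ (k + 1) subset_rfl h' hc))
  have hb' : b ∈ Null R k F'' := hb
  have h4 : b ∈ Zc τ k F' F'' := by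
    refine mem_Zc.2 ⟨hb', ?_⟩
    have h5 := sub_mem hc.1 (Null_mono (k + 1) h h3)
    simpa using h5
  obtain ⟨b', hb2, h6⟩ := mem_Bc.1 (h1 h4)
  refine mem_Bc.2 ⟨b - D τ b', h6, ?_⟩
  have h7 := add_mem h3 (DD_Null hτ hb2)
  rw [map_sub, ← sub_add]
  exact h7

lemma finite_of_exact [IsNoetherianRing R] {A B C : Type} [AddCommGroup A] [AddCommGroup B]
    [AddCommGroup C] [Module R A] [Module R B] [Module R C] [Module.Finite R A]
    [Module.Finite R C] {f : A →ₗ[R] B} {g : B →ₗ[R] C} (h : Function.Exact f g) :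
    Module.Finite R B := by
  refine ⟨Submodule.fg_of_fg_map_of_fg_inf_ker g (IsNoetherian.noetherian _) ?_⟩
  rw [top_inf_eq, h.linearMap_ker_eq, LinearMap.range_eq_map]
  exact Module.Finite.fg_top.map f

variable [NormalSpace Z] {A B : Set Z}

lemma exc_surj (k : ℕ) (hA : IsClosed A) (hB : IsClosed B) {c : List Z → R}
    (hc : c ∈ Zc τ k A (A ∩ B)) : ∃ c' ∈ Zc τ k (A ∪ B) B, c - c' ∈ Null R k A := by
  obtain ⟨b, hb, h1⟩ := Null_inter hA hB hc.1
  refine ⟨b, mem_Zc.2 ⟨hb, ?_⟩, h1⟩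
  rw [Null_union]
  refine Submodule.mem_inf.2 ⟨?_, D_Null τ hb⟩
  have h2 := sub_mem hc.2 (D_Null τ h1)
  simpa using h2

lemma exc_inj (k : ℕ) (hA : IsClosed A) (hB : IsClosed B) {c : List Z → R}
    (hc : c ∈ Null R k B) (h : c ∈ Bc τ k A (A ∩ B)) : c ∈ Bc τ k (A ∪ B) B := by
  obtain ⟨b, hb, h1⟩ := mem_Bc.1 h
  obtain ⟨b', hb', h2⟩ := Null_inter hA hB hb
  refine mem_Bc.2 ⟨b', hb', ?_⟩
  rw [Null_union]
  refine Submodule.mem_inf.2 ⟨?_, sub_mem hc (D_Null' τ hb')⟩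
  have h3 := add_mem h1 (D_Null' τ h2)
  simpa using h3

/-- excision -/
lemma exc_bij (k : ℕ) (hA : IsClosed A) (hB : IsClosed B) {U I : Set Z} (hU : U = A ∪ B)
    (hI : I = A ∩ B) (h : A ⊆ U) (h' : I ⊆ B) :
    Function.Bijective (res τ k (F := U) (F' := B) h h') := by
  subst hU hI
  constructor
  · intro x y hxy
    obtain ⟨a, ha, rfl⟩ := cl_surj x
    obtain ⟨b, hb, rfl⟩ := cl_surj y
    rw [res_cl, res_cl, cl_eq] at hxy
    rw [cl_eq]
    exact exc_inj k hA hB (sub_mem ha.1 hb.1) hxy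
  · intro y
    obtain ⟨c, hc, rfl⟩ := cl_surj y
    obtain ⟨c', hc', h1⟩ := exc_surj k hA hB hc
    refine ⟨cl c' hc', ?_⟩
    rw [res_cl, cl_eq]
    refine Null_le_Bc τ k _ _ ?_
    have h2 := neg_mem h1
    rwa [neg_sub] at h2

lemma van_exc (k : ℕ) (hA : IsClosed A) (hB : IsClosed B) :
    Van τ k (A ∪ B) B ↔ Van τ k A (A ∩ B) := by
  rw [van_iff, van_iff]
  have h := exc_bij (τ := τ) k hA hB rfl rfl subset_union_left inter_subset_right
  exact ⟨fun _ => h.2.subsingleton, fun _ => h.1.subsingleton⟩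

end Pool.Agent.P.MP_3d25f3_gt
end

-- part Pool.Agent.P.MP_3d25f3_gt.Cube
section

set_option autoImplicit false

open Set Filter Topology

namespace Pool.Agent.P.MP_3d25f3_gt

variable {R : Type} [CommRing R]

/-- outside of the open unit cube -/
def Out (d : ℕ) : Set (Fin d → ℝ) := {x | 1 ≤ ‖x‖}

/-- `o` generates the top cohomology of the pair over every ring -/
def Gen {Z : Type} [TopologicalSpace Z] (o : List Z → ℤ) (k : ℕ) (F F' : Set Z) : Prop :=
  o ∈ Zc (1 : Z → Z → ℤ) k F F' ∧ ∀ (R : Type) [CommRing R],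
    (∀ c ∈ Zc (1 : Z → Z → R) k F F', ∃ r : R, c - r • cf (Int.castRingHom R) o ∈ Bc 1 k F F') ∧
    (∀ r : R, r • cf (Int.castRingHom R) o ∈ Bc (1 : Z → Z → R) k F F' → r = 0) ∧
    ∀ j, j ≠ k → Van (1 : Z → Z → R) j F F'

lemma cube_cast {Z : Type} (R : Type) [CommRing R] (x y : Z) :
    (Int.castRingHom R) ((1 : Z → Z → ℤ) x y) = (1 : Z → Z → R) x y := by simp

lemma gen_exc {Z : Type} [TopologicalSpace Z] [NormalSpace Z] {A B : Set Z} (hA : IsClosed A)
    (hB : IsClosed B) (k : ℕ) :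
    (∃ o, Gen o k (A ∪ B) B) ↔ ∃ o, Gen o k A (A ∩ B) := by
  constructor
  · rintro ⟨o, ho, H⟩
    refine ⟨o, Zc_mono _ _ subset_union_left inter_subset_right ho, fun R _ => ?_⟩
    obtain ⟨h1, h2, h3⟩ := H R
    refine ⟨fun c hc => ?_, fun r hr => h2 r ?_, fun j hj => (van_exc j hA hB).1 (h3 j hj)⟩
    · obtain ⟨c', hc', hcc⟩ := exc_surj k hA hB hc
      obtain ⟨r, hr⟩ := h1 c' hc'
      refine ⟨r, ?_⟩
      have := add_mem (Null_le_Bc 1 k A (A ∩ B) hcc)
        (Bc_mono _ _ subset_union_left inter_subset_right hr)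
      rwa [sub_add_sub_cancel] at this
    · exact exc_inj k hA hB (Submodule.smul_mem _ _ (cf_Null _ ho.1)) hr
  · rintro ⟨o, ho, H⟩
    obtain ⟨o', ho', hoo⟩ := exc_surj k hA hB ho
    refine ⟨o', ho', fun R _ => ?_⟩
    obtain ⟨h1, h2, h3⟩ := H R
    have hd : ∀ r : R, r • cf (Int.castRingHom R) o - r • cf (Int.castRingHom R) o'
        ∈ Bc (1 : Z → Z → R) k A (A ∩ B) := by
      intro r
      rw [← smul_sub, ← map_sub]
      exact Null_le_Bc _ _ _ _ (Submodule.smul_mem _ _ (cf_Null _ hoo))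
    refine ⟨fun c hc => ?_, fun r hr => h2 r ?_, fun j hj => (van_exc j hA hB).2 (h3 j hj)⟩
    · obtain ⟨r, hr⟩ := h1 c (Zc_mono _ _ subset_union_left inter_subset_right hc)
      refine ⟨r, exc_inj k hA hB
        (sub_mem hc.1 (Submodule.smul_mem _ _ (cf_Null _ ho'.1))) ?_⟩
      have := add_mem hr (hd r)
      rwa [sub_add_sub_cancel] at this
    · have := add_mem (hd r) (Bc_mono _ _ subset_union_left inter_subset_right hr)
      rwa [sub_add_cancel] at this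

lemma gen_del {Z : Type} [TopologicalSpace Z] {F F' F'' : Set Z} (h : F' ⊆ F) (h' : F'' ⊆ F')
    (hv : ∀ (R : Type) [CommRing R] (j : ℕ), Van (1 : Z → Z → R) j F F'') {k : ℕ}
    (ho : ∃ o, Gen o k F' F'') : ∃ o, Gen o (k + 1) F F' := by
  obtain ⟨o, ho, H⟩ := ho
  refine ⟨D 1 o, ⟨ho.2, DD_Null (k := k + 1) (Coc_one (F \ F'')) ho.1⟩, fun R _ => ?_⟩
  obtain ⟨h1, h2, h3⟩ := H R
  rw [cf_D _ (cube_cast R)]
  refine ⟨fun c hc => ?_, fun r hr => h2 r ?_, fun j hj => ?_⟩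
  · obtain ⟨b, hb, hcb⟩ := mem_Bc.1 (hv R (k + 1) (Zc_mono _ _ subset_rfl h' hc))
    have hb' : b ∈ Zc (1 : Z → Z → R) k F' F'' := by
      refine ⟨hb, ?_⟩
      have := sub_mem hc.1 (Null_mono _ h hcb)
      rwa [sub_sub_cancel] at this
    obtain ⟨r, hr⟩ := h1 b hb'
    obtain ⟨b0, hb0, hr0⟩ := mem_Bc.1 hr
    refine ⟨r, mem_Bc.2 ⟨_, hr0, ?_⟩⟩
    have := add_mem hcb (DD_Null (Coc_one (R := R) (F \ F'')) hb0)
    rw [map_sub, map_sub, map_smul]
    rwa [show c - D 1 b + D 1 (D 1 b0) = c - r • D 1 (cf (Int.castRingHom R) o) -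
      (D 1 b - r • D 1 (cf (Int.castRingHom R) o) - D 1 (D 1 b0)) by abel] at this
  · obtain ⟨b, hb, hrb⟩ := mem_Bc.1 hr
    have ha : r • cf (Int.castRingHom R) o - b ∈ Zc (1 : Z → Z → R) k F F'' := by
      refine ⟨sub_mem (Submodule.smul_mem _ _ (cf_Null _ ho.1)) (Null_mono _ h' hb), ?_⟩
      rw [← map_smul, ← map_sub] at hrb
      exact hrb
    have := add_mem (Bc_mono _ _ h subset_rfl (hv R k ha)) (Null_le_Bc 1 k F' F'' hb)
    rwa [sub_add_cancel] at this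
  · cases j with
    | zero =>
      intro c hc
      have := hv R 0 (Zc_mono _ _ subset_rfl h' hc)
      rwa [Bc_zero, ← Bc_zero 1 F F'] at this
    | succ j => exact van_left j (h3 j fun e => hj (by rw [e])) (hv R _) (Coc_one _) h h'

lemma gen_emb {Z W : Type} [TopologicalSpace W] [MetricSpace Z] {e : W → Z} {r : Z → W}
    {G G' : Set W} (hG : IsCompact G) (hG' : G' ⊆ G) (he : Continuous e) (hr : Continuous r)
    (hre : ∀ x, r (e x) = x) {k : ℕ} (ho : ∃ o, Gen o k G G') :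
    ∃ o, Gen o k (e '' G) (e '' G') := by
  obtain ⟨o, ho, H⟩ := ho
  have hm : ∀ S : Set W, MapsTo r (e '' S) S := by
    rintro S _ ⟨x, hx, rfl⟩
    rwa [hre]
  have hi : InjOn e G := (Function.LeftInverse.injective hre).injOn
  have hZ : pull r 1 o ∈ Zc (1 : Z → Z → ℤ) k (e '' G) (e '' G') :=
    pull_Zc (Itw_comp (1 : W → W → ℤ) r _) (fun _ _ => hr.continuousAt) (image_mono hG')
      (hm G) (hm G') ho
  refine ⟨pull r 1 o, hZ, fun R _ => ?_⟩
  obtain ⟨h1, h2, h3⟩ := H R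
  have pZ : ∀ {j : ℕ} {c : List Z → R}, c ∈ Zc (1 : Z → Z → R) j (e '' G) (e '' G') →
      pull e 1 c ∈ Zc (1 : W → W → R) j G G' := fun hc =>
    pull_Zc (Itw_comp (1 : Z → Z → R) e _) (fun _ _ => he.continuousAt) hG'
      (mapsTo_image e G) (mapsTo_image e G') hc
  have hd : ∀ s : R, s • cf (Int.castRingHom R) o -
      s • pull e 1 (cf (Int.castRingHom R) (pull r 1 o)) ∈ Bc (1 : W → W → R) k G G' := by
    intro s
    rw [← smul_sub]
    refine Null_le_Bc _ _ _ _ (Submodule.smul_mem _ _ fun x _ => ⟨univ, univ_mem, ?_⟩)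
    rintro (_ | ⟨y, l⟩) hl -
    · simp at hl
    · simp [hre, Function.comp_def]
  refine ⟨fun c hc => ?_, fun s hs => h2 s ?_, fun j hj c hc => ?_⟩
  · obtain ⟨s, hs⟩ := h1 _ (pZ hc)
    refine ⟨s, emb_inj hG hG' he hi (Coc_one _)
      (sub_mem hc (Submodule.smul_mem _ _ (cf_Zc _ (cube_cast R) hZ))) ?_⟩
    have := add_mem hs (hd s)
    rw [sub_add_sub_cancel, ← map_smul, ← map_sub] at this
    exact this
  · have h0 : pull e 1 (s • cf (Int.castRingHom R) (pull r 1 o)) ∈ Bc (1 : W → W → R) k G G' :=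
      pull_Bc (Itw_comp (1 : Z → Z → R) e _) (fun _ _ => he.continuousAt) hG'
        (mapsTo_image e G) (mapsTo_image e G') hs
    rw [map_smul] at h0
    have := add_mem (hd s) h0
    rwa [sub_add_cancel] at this
  · exact emb_inj hG hG' he hi (Coc_one _) hc (h3 j hj (pZ hc))

lemma cube_norm {d : ℕ} (x : Fin (d + 1) → ℝ) : ‖x‖ = max |x 0| ‖Fin.tail x‖ := by
  refine le_antisymm ?_ (max_le (norm_le_pi_norm x 0) ?_)
  · refine (pi_norm_le_iff_of_nonneg (le_max_of_le_left (abs_nonneg _))).2 fun i => ?_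
    refine Fin.cases (le_max_left _ _) (fun j => le_max_of_le_right ?_) i
    exact norm_le_pi_norm (Fin.tail x) j
  · exact (pi_norm_le_iff_of_nonneg (norm_nonneg _)).2 fun j => norm_le_pi_norm x j.succ

lemma cube_norm_cons {d : ℕ} (a : ℝ) (y : Fin d → ℝ) :
    ‖(Fin.cons a y : Fin (d + 1) → ℝ)‖ = max |a| ‖y‖ := by
  rw [cube_norm]
  simp

lemma cube_iff (d k : ℕ) : (∃ o, Gen o k univ (Out d)) ↔
    ∃ o, Gen o k (Metric.closedBall (0 : Fin d → ℝ) 1) (Metric.sphere 0 1) := by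
  have hO : IsClosed (Out d) := isClosed_le continuous_const continuous_norm
  have h1 : Metric.closedBall (0 : Fin d → ℝ) 1 ∪ Out d = univ := by
    refine eq_univ_of_forall fun x => ?_
    simp only [mem_union, mem_closedBall_zero_iff, Out, mem_ofPred_eq]
    exact le_total _ _
  have h2 : Metric.closedBall (0 : Fin d → ℝ) 1 ∩ Out d = Metric.sphere 0 1 := by
    ext x
    simp only [mem_inter_iff, mem_closedBall_zero_iff, Out, mem_ofPred_eq,
      mem_sphere_zero_iff_norm]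
    exact le_antisymm_iff.symm
  rw [← h1, ← h2]
  exact gen_exc Metric.isClosed_closedBall hO k

/-- bottom and walls of the cube -/
def cubeJ (d : ℕ) : Set (Fin (d + 1) → ℝ) := {x | ‖x‖ ≤ 1 ∧ (x 0 = -1 ∨ ‖Fin.tail x‖ = 1)}

lemma cube_tail_cont (d : ℕ) : Continuous fun x : Fin (d + 1) → ℝ => Fin.tail x :=
  continuous_pi fun j => continuous_apply j.succ

lemma cube_J_closed (d : ℕ) : IsClosed (cubeJ d) :=
  (isClosed_le continuous_norm continuous_const).inter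
    ((isClosed_eq (continuous_apply 0) continuous_const).union
      (isClosed_eq (cube_tail_cont d).norm continuous_const))

lemma cube_J_sub (d : ℕ) : cubeJ d ⊆ Metric.sphere 0 1 := by
  rintro x ⟨h1, h2⟩
  rw [mem_sphere_zero_iff_norm]
  refine le_antisymm h1 ?_
  rw [cube_norm]
  rcases h2 with h | h
  · rw [h]
    simp
  · rw [h]
    exact le_max_right _ _

lemma cube_van (d : ℕ) (R : Type) [CommRing R] (j : ℕ) :
    Van (1 : (Fin (d + 1) → ℝ) → (Fin (d + 1) → ℝ) → R) j (Metric.closedBall 0 1) (cubeJ d) := by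
  have hK : IsCompact (Metric.closedBall (0 : Fin (d + 1) → ℝ) 1) := isCompact_closedBall _ _
  have hJK : cubeJ d ⊆ Metric.closedBall 0 1 := fun x hx => mem_closedBall_zero_iff.2 hx.1
  have hb : ∀ x : Fin (d + 1) → ℝ, ‖x‖ ≤ 1 → ∀ s ∈ Icc (0 : ℝ) 1,
      ‖(Fin.cons ((1 - s) * x 0 - s) (Fin.tail x) : Fin (d + 1) → ℝ)‖ ≤ 1 := by
    intro x hx s hs
    rw [cube_norm, max_le_iff, abs_le] at hx
    rw [cube_norm_cons, max_le_iff, abs_le]
    obtain ⟨⟨h1, h2⟩, h3⟩ := hx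
    obtain ⟨h4, h5⟩ := hs
    exact ⟨⟨by nlinarith, by nlinarith⟩, h3⟩
  refine van_deform (h := fun x s => Fin.cons ((1 - s) * x 0 - s) (Fin.tail x)) j hK
    (hK.of_isClosed_subset (cube_J_closed d) hJK) hJK ?_ ?_ (Coc_one _) ?_ ?_ ?_
  · refine continuous_pi fun i => ?_
    refine Fin.cases ?_ (fun j => ?_) i
    · simp only [Function.uncurry, Fin.cons_zero]
      fun_prop
    · simp only [Function.uncurry, Fin.cons_succ, Fin.tail]
      fun_prop
  · intro x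
    simp
  · intro x hx s hs
    exact mem_closedBall_zero_iff.2 (hb x (mem_closedBall_zero_iff.1 hx) s hs)
  · rintro x ⟨h1, h2⟩ s hs
    refine ⟨hb x h1 s hs, h2.imp (fun h => ?_) fun h => ?_⟩
    · simp only [Fin.cons_zero, h]
      ring
    · simpa using h
  · intro x hx
    exact ⟨hb x (mem_closedBall_zero_iff.1 hx) 1 ⟨zero_le_one, le_rfl⟩, Or.inl (by simp)⟩

theorem exists_gen (d : ℕ) : ∃ o, Gen o d univ (Out d) := by
  induction d with
  | zero =>
    have hO : Out 0 = ∅ := by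
      refine eq_empty_of_forall_notMem fun x hx => ?_
      rw [Subsingleton.elim x 0] at hx
      simp only [Out, mem_ofPred_eq, norm_zero] at hx
      linarith
    rw [hO]
    refine ⟨fun _ => 1, one_mem_Zc _, fun R _ => ⟨fun c hc => ⟨c [0], ?_⟩, fun r hr => ?_, ?_⟩⟩
    · have := h0_const isPreconnected_univ hc (mem_univ 0)
      refine Null_le_Bc _ _ _ _ ?_
      rwa [show (c [0] • cf (Int.castRingHom R) (fun _ => 1) : List (Fin 0 → ℝ) → R)
        = fun _ => c [0] from funext fun _ => by simp]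
    · rw [Bc_zero] at hr
      obtain ⟨U, hU, h⟩ := hr 0 (mem_univ _)
      simpa using h [0] rfl (by simpa using mem_of_mem_nhds hU)
    · intro j hj
      obtain ⟨j, rfl⟩ := Nat.exists_eq_succ_of_ne_zero hj
      exact van_convex j (Set.toFinite _).isCompact convex_univ (Coc_one _)
  | succ d ih =>
    rw [cube_iff] at ih ⊢
    have he : Continuous fun y : Fin d → ℝ => (Fin.cons 1 y : Fin (d + 1) → ℝ) := by
      refine continuous_pi fun i => ?_
      refine Fin.cases ?_ (fun j => ?_) i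
      · simp only [Fin.cons_zero]
        fun_prop
      · simp only [Fin.cons_succ]
        fun_prop
    have h1 := gen_emb (isCompact_closedBall _ _) Metric.sphere_subset_closedBall he
      (cube_tail_cont d) (fun y => Fin.tail_cons _ _) ih
    set T := (fun y : Fin d → ℝ => (Fin.cons 1 y : Fin (d + 1) → ℝ)) '' Metric.closedBall 0 1
      with hT
    have hTc : IsClosed T := ((isCompact_closedBall _ _).image he).isClosed
    have e1 : (fun y : Fin d → ℝ => (Fin.cons 1 y : Fin (d + 1) → ℝ)) '' Metric.sphere 0 1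
        = T ∩ cubeJ d := by
      apply Subset.antisymm
      · rintro _ ⟨y, hy, rfl⟩
        refine ⟨⟨y, Metric.sphere_subset_closedBall hy, rfl⟩, ?_⟩
        rw [mem_sphere_zero_iff_norm] at hy
        refine ⟨?_, Or.inr (by simpa using hy)⟩
        rw [cube_norm_cons, hy]
        simp
      · rintro _ ⟨⟨y, -, rfl⟩, -, h | h⟩
        · simp only [Fin.cons_zero] at h
          linarith
        · exact ⟨y, mem_sphere_zero_iff_norm.2 (by simpa using h), rfl⟩
    have e2 : T ∪ cubeJ d = Metric.sphere 0 1 := by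
      apply Subset.antisymm
      · refine union_subset ?_ (cube_J_sub d)
        rintro _ ⟨y, hy, rfl⟩
        rw [mem_sphere_zero_iff_norm, cube_norm_cons, abs_one]
        exact max_eq_left (mem_closedBall_zero_iff.1 hy)
      · intro x hx
        rw [mem_sphere_zero_iff_norm] at hx
        have hn := cube_norm x
        rw [hx] at hn
        rcases max_choice |x 0| ‖Fin.tail x‖ with h | h
        · rcases eq_or_eq_neg_of_abs_eq (h.symm.trans hn.symm) with h0 | h0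
          · refine Or.inl ⟨Fin.tail x, mem_closedBall_zero_iff.2 (hn ▸ le_max_right _ _), ?_⟩
            simp only [← h0]
            exact Fin.cons_self_tail x
          · exact Or.inr ⟨hx.le, Or.inl h0⟩
        · exact Or.inr ⟨hx.le, Or.inr (h.symm.trans hn.symm)⟩
    rw [e1, ← gen_exc hTc (cube_J_closed d), e2] at h1
    exact gen_del Metric.sphere_subset_closedBall (cube_J_sub d) (cube_van d) h1

end Pool.Agent.P.MP_3d25f3_gt
end

-- part Pool.Agent.P.MP_3d25f3_gt.Cup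
section

set_option autoImplicit false

open Set Filter Topology

namespace Pool.Agent.P.MP_3d25f3_gt

variable {Z : Type} {R : Type} [CommRing R]

lemma cup_add_left (τ' : Z → Z → R) (p : ℕ) (a a' b : List Z → R) :
    cup τ' p (a + a') b = cup τ' p a b + cup τ' p a' b := by
  funext l; cases l <;> simp [cup, add_mul]

lemma cup_add_right (τ' : Z → Z → R) (p : ℕ) (a b b' : List Z → R) :
    cup τ' p a (b + b') = cup τ' p a b + cup τ' p a b' := by
  funext l; cases l <;> simp [cup, mul_add]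

lemma cup_smul_left (τ' : Z → Z → R) (p : ℕ) (r : R) (a b : List Z → R) :
    cup τ' p (r • a) b = r • cup τ' p a b := by
  funext l; cases l <;> simp [cup, mul_assoc]

lemma cup_smul_right (τ' : Z → Z → R) (p : ℕ) (r : R) (a b : List Z → R) :
    cup τ' p a (r • b) = r • cup τ' p a b := by
  funext l; cases l <;> simp [cup, mul_left_comm]

/-- the cup product as a bilinear map -/
def cupL (τ' : Z → Z → R) (p : ℕ) : (List Z → R) →ₗ[R] (List Z → R) →ₗ[R] (List Z → R) :=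
  LinearMap.mk₂ R (cup τ' p) (cup_add_left τ' p) (cup_smul_left τ' p) (cup_add_right τ' p)
    (cup_smul_right τ' p)

@[simp] lemma cupL_apply (τ' : Z → Z → R) (p : ℕ) (a b : List Z → R) :
    cupL τ' p a b = cup τ' p a b := rfl

lemma cup_sub_left (τ' : Z → Z → R) (p : ℕ) (a a' b : List Z → R) :
    cup τ' p (a - a') b = cup τ' p a b - cup τ' p a' b := by
  funext l; cases l <;> simp [cup, sub_mul]

lemma cup_sub_right (τ' : Z → Z → R) (p : ℕ) (a b b' : List Z → R) :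
    cup τ' p a (b - b') = cup τ' p a b - cup τ' p a b' := by
  funext l; cases l <;> simp [cup, mul_sub]

lemma cup_d0 (p : ℕ) (a b : List Z → R) (l : List Z) (hl : p + 2 ≤ l.length) :
    d0 (fun m => a (m.take (p + 1)) * b (m.drop p)) l = d0 a (l.take (p + 2)) * b (l.drop (p + 1))
      + (-1) ^ p * (a (l.take (p + 1)) * d0 b (l.drop p)) := by
  induction p generalizing a l with
  | zero =>
    match l, hl with
    | x :: y :: l, _ =>
      have e := d0_smul (a [x]) (fun m => b (x :: m)) (y :: l)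
      have e1 : d0 (fun m => a (m.take (0 + 1)) * b (m.drop 0)) (x :: y :: l) =
          a [y] * b (y :: l) - d0 (a [x] • fun m => b (x :: m)) (y :: l) := rfl
      have e2 : d0 a ((x :: y :: l).take (0 + 2)) = a [y] - (a [x] - 0) := rfl
      have e3 : d0 b ((x :: y :: l).drop 0) = b (y :: l) - d0 (fun m => b (x :: m)) (y :: l) := rfl
      rw [e1, e, e2, e3]
      simp only [zero_add, List.drop_succ_cons, List.drop_zero, List.take_succ_cons, List.take_zero]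
      ring
  | succ p ih =>
    match l, hl with
    | x :: l, hl =>
      have e := ih (fun m => a (x :: m)) l (by simpa using hl)
      have e1 : d0 (fun m => a (m.take (p + 1 + 1)) * b (m.drop (p + 1))) (x :: l) =
          a (l.take (p + 2)) * b (l.drop (p + 1)) -
            d0 (fun m => a (x :: m.take (p + 1)) * b (m.drop p)) l := rfl
      have e2 : d0 a ((x :: l).take (p + 1 + 2)) =
          a (l.take (p + 2)) - d0 (fun m => a (x :: m)) (l.take (p + 2)) := rfl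
      rw [e1, e, e2]
      simp only [List.drop_succ_cons, List.take_succ_cons]
      ring

lemma cup_drop (l : List Z) {p : ℕ} (hp : p < l.length) (x : Z) :
    l.drop p = l.getD p x :: l.drop (p + 1) := by
  rw [List.getD_eq_getElem _ _ hp, List.drop_eq_getElem_cons hp]

lemma cup_pull_drop (ν : Z → R) (c : List Z → R) (l : List Z) {p : ℕ} (hp : p < l.length) (x : Z) :
    pull id ν c (l.drop p) = ν (l.getD p x) * c (l.drop p) := by
  rw [cup_drop l hp x, pull_cons, List.map_id, id]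

lemma cup_getD_mem (l : List Z) {p : ℕ} (hp : p < l.length) (x : Z) : l.getD p x ∈ l := by
  rw [List.getD_eq_getElem _ _ hp]; exact List.getElem_mem hp

lemma cup_D_five (τ : Z → Z → R) (c : List Z → R) (x y z w v : Z) :
    D τ c [x, y, z, w, v] = τ x y * c [y, z, w, v] - c [x, z, w, v] + c [x, y, w, v]
      - c [x, y, z, v] + c [x, y, z, w] := by
  simp [D_cons, d0]; ring

lemma cup_ring {t t' t2 t2' s a012 a013 a014 a023 a024 a034 a124 a134 a234 b012 b013 b014 b023 b024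
    b034 b123 b124 b134 b234 : R} (h1 : t * t' = 1) (h2 : t' * s = t2')
    (e1 : t * a134 - a034 + a014 - a013 = 0) (e2 : t * a124 - a024 + a014 - a012 = 0)
    (e3 : t2 * a234 - a034 + a024 - a023 = 0) (f1 : t' * b123 - b023 + b013 - b012 = 0)
    (f2 : t' * b124 - b024 + b014 - b012 = 0) (f3 : t' * b134 - b034 + b014 - b013 = 0)
    (f4 : t2' * b234 - b034 + b024 - b023 = 0) :
    a012 * (t2' * b234) - b012 * (t2 * a234) -
      (1 * (a124 * (s * b234) - a134 * b123) - (a024 * (t2' * b234) - a034 * b023) +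
        (a014 * (t' * b134) - a034 * b013) - (a014 * (t' * b124) - a024 * b012) +
        (a013 * (t' * b123) - a023 * b012)) = 0 := by
  have k1 : a134 * b123 = (t * a134) * (t' * b123) := by
    linear_combination (-(a134 * b123)) * h1
  have k2 : a124 * (s * b234) = (t * a124) * (t2' * b234) := by
    rw [← h2]; linear_combination (-(a124 * s * b234)) * h1
  rw [k1, k2, show t * a134 = a034 - a014 + a013 by linear_combination e1,
    show t * a124 = a024 - a014 + a012 by linear_combination e2,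
    show t2 * a234 = a034 - a024 + a023 by linear_combination e3,
    show t' * b123 = b023 - b013 + b012 by linear_combination f1,
    show t' * b124 = b024 - b014 + b012 by linear_combination f2,
    show t' * b134 = b034 - b014 + b013 by linear_combination f3,
    show t2' * b234 = b034 - b024 + b023 by linear_combination f4]
  ring

lemma cup_alg_left (τ τ' τ'' : Z → Z → R) (p : ℕ) (a b c : List Z → R) :
    cup τ' (p + 1) a b - D τ'' (cup τ' p c b) = cup τ' (p + 1) (a - D τ c) b -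
      (D τ'' (cup τ' p c b) - (cup τ' (p + 1) (D τ c) b + (-1 : R) ^ p • cup τ' p c (D τ' b))) -
      (-1 : R) ^ p • cup τ' p c (D τ' b) := by
  rw [cup_sub_left]
  abel

lemma cup_alg_right (τ τ' τ'' : Z → Z → R) (p : ℕ) (a b c : List Z → R) :
    cup τ' p a b - D τ'' ((-1 : R) ^ p • cup τ' p a c) = cup τ' p a (b - D τ' c) - (-1 : R) ^ p •
      (D τ'' (cup τ' p a c) - (cup τ' (p + 1) (D τ a) c + (-1 : R) ^ p • cup τ' p a (D τ' c))) -
      (-1 : R) ^ p • cup τ' (p + 1) (D τ a) c := by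
  have e : (-1 : R) ^ p * (-1) ^ p = 1 := by rw [← mul_pow]; simp
  rw [cup_sub_right, map_smul, smul_sub, smul_add, smul_smul, e, one_smul]
  abel

/-- Leibniz rule -/
lemma leibniz {τ τ' τ'' : Z → Z → R} {U : Set Z} (h : CocOn τ U) (h' : CocOn τ' U)
    (hm : ∀ a ∈ U, ∀ b ∈ U, τ a b * τ' a b = τ'' a b) (p : ℕ) (a b : List Z → R) (l : List Z)
    (hl : p + 2 ≤ l.length) (hU : ∀ y ∈ l, y ∈ U) :
    D τ'' (cup τ' p a b) l = cup τ' (p + 1) (D τ a) b l + (-1) ^ p * cup τ' p a (D τ' b) l := by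
  have h'' : CocOn τ'' U := fun u hu => ⟨by rw [← hm u hu u hu, (h u hu).1, (h' u hu).1, one_mul],
    fun v hv w hw => by
      rw [← hm u hu v hv, ← hm v hv w hw, ← hm u hu w hw, ← (h u hu).2 v hv w hw,
        ← (h' u hu).2 v hv w hw]
      ring⟩
  match l, hl, hU with
  | x :: l, hl, hU =>
    have hx : x ∈ U := hU x List.mem_cons_self
    have hl' : p + 1 ≤ l.length := by simpa using hl
    have e1 := D_gauge h'' hx (cup τ' p a b) x l hU
    have e2 : d0 (pull id (τ'' x) (cup τ' p a b)) (x :: l) = d0 (fun m =>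
        pull id (τ x) a (m.take (p + 1)) * pull id (τ' x) b (m.drop p)) (x :: l) := by
      refine d0_congr (U := U) (k := l.length) (fun m hm1 hm2 => ?_) rfl hU
      match m, hm1, hm2 with
      | [], hm1, _ => exact absurd hm1 (by simp only [List.length_nil]; omega)
      | y :: m, hm1, hm2 =>
        have hp : p < (y :: m).length := by omega
        have hy : y ∈ U := hm2 y List.mem_cons_self
        rw [cup_pull_drop _ _ _ hp y, List.take_succ_cons, pull_cons, pull_cons, List.map_id,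
          List.map_id, id, cup, ← hm x hx y hy,
          ← (h' x hx).2 y hy _ (hm2 _ (cup_getD_mem _ hp y))]
        ring
    have e3 := D_gauge h hx a x (l.take (p + 1)) fun w hw =>
      hU w (List.mem_of_mem_take (i := p + 2) hw)
    have hp : p < (x :: l).length := by omega
    have e4 := D_gauge h' hx b ((x :: l).getD p x) ((x :: l).drop (p + 1)) fun w hw =>
      hU w (List.mem_of_mem_drop (i := p) (by rwa [cup_drop _ hp x]))
    rw [← cup_drop _ hp x] at e4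
    rw [(h'' x hx).1, one_mul] at e1
    rw [(h x hx).1, one_mul] at e3
    rw [e1, e2, cup_d0 p _ _ _ hl, ← e4, cup_pull_drop _ _ _ (by omega) x, List.take_succ_cons,
      List.take_succ_cons, ← e3, pull_cons, List.map_id, id, (h x hx).1, one_mul, cup, cup]

variable [TopologicalSpace Z]

lemma cup_Null_left (τ' : Z → Z → R) {p k : ℕ} (hk : p ≤ k) {F : Set Z} {a : List Z → R}
    (ha : a ∈ Null R p F) (b : List Z → R) : cup τ' p a b ∈ Null R k F := by
  intro x hx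
  obtain ⟨U, hU, h⟩ := ha x hx
  refine ⟨U, hU, fun l hl hl' => ?_⟩
  match l, hl, hl' with
  | y :: l, hl, hl' =>
    have e : a (y :: l.take p) = 0 := h _ (by simp at hl ⊢; omega)
      fun w hw => hl' w (List.mem_of_mem_take (i := p + 1) hw)
    rw [cup, e, zero_mul]

lemma cup_Null_right (τ' : Z → Z → R) {p q k : ℕ} (hk : p + q = k) {F : Set Z} (a : List Z → R)
    {b : List Z → R} (hb : b ∈ Null R q F) : cup τ' p a b ∈ Null R k F := by
  intro x hx
  obtain ⟨U, hU, h⟩ := hb x hx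
  refine ⟨U, hU, fun l hl hl' => ?_⟩
  match l, hl, hl' with
  | y :: l, hl, hl' =>
    have e : b ((y :: l).drop p) = 0 := h _ (by rw [List.length_drop]; omega)
      fun w hw => hl' w (List.mem_of_mem_drop hw)
    rw [cup, e, mul_zero, mul_zero]

lemma leibniz_Null {τ τ' τ'' : Z → Z → R} {F : Set Z} (h : Coc τ F) (h' : Coc τ' F)
    (hm : Mu τ τ' τ'' F) {p k : ℕ} (hk : p + 1 ≤ k) (a b : List Z → R) :
    D τ'' (cup τ' p a b) - (cup τ' (p + 1) (D τ a) b + (-1 : R) ^ p • cup τ' p a (D τ' b))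
      ∈ Null R k F := by
  intro x hx
  obtain ⟨U, hU, g⟩ := h x hx
  obtain ⟨V, hV, g'⟩ := h' x hx
  obtain ⟨W, hW, gm⟩ := hm x hx
  refine ⟨U ∩ V ∩ W, inter_mem (inter_mem hU hV) hW, fun l hl hl' => ?_⟩
  have := leibniz (U := U ∩ V ∩ W) (τ := τ) (τ' := τ') (τ'' := τ'')
    (fun u hu => ⟨(g u hu.1.1).1, fun v hv w hw => (g u hu.1.1).2 v hv.1.1 w hw.1.1⟩)
    (fun u hu => ⟨(g' u hu.1.2).1, fun v hv w hw => (g' u hu.1.2).2 v hv.1.2 w hw.1.2⟩)
    (fun u hu v hv => gm u hu.2 v hv.2) p a b l (by omega) hl'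
  rw [Pi.sub_apply, Pi.add_apply, Pi.smul_apply, smul_eq_mul, this, sub_self]

/-- product of two absolute cocycles -/
lemma cup_Zc_abs {τ τ' τ'' : Z → Z → R} {F : Set Z} (h : Coc τ F) (h' : Coc τ' F)
    (hm : Mu τ τ' τ'' F) {p q k : ℕ} (hk : p + q = k) {a b : List Z → R} (ha : a ∈ Zc τ p F ∅)
    (hb : b ∈ Zc τ' q F ∅) : cup τ' p a b ∈ Zc τ'' k F ∅ := by
  refine ⟨by simp, ?_⟩
  have h1 := leibniz_Null h h' hm (p := p) (k := k + 1) (by omega) a b
  exact (Submodule.sub_mem_iff_left _ (add_mem (cup_Null_left τ' (by omega) ha.2 b)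
    (Submodule.smul_mem _ _ (cup_Null_right τ' (by omega) a hb.2)))).1 h1

lemma cup_Bc_abs_left {τ τ' τ'' : Z → Z → R} {F : Set Z} (h : Coc τ F) (h' : Coc τ' F)
    (hm : Mu τ τ' τ'' F) {p q k : ℕ} (hk : p + q = k) {a b : List Z → R} (ha : a ∈ Bc τ p F ∅)
    (hb : b ∈ Zc τ' q F ∅) : cup τ' p a b ∈ Bc τ'' k F ∅ := by
  rcases p with _ | p
  · rw [Bc_zero] at ha
    exact Null_le_Bc _ _ _ _ (cup_Null_left τ' (by omega) ha b)
  · obtain ⟨c, -, hc⟩ := mem_Bc.1 ha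
    refine mem_Bc.2 ⟨cup τ' p c b, by simp, ?_⟩
    rw [cup_alg_left τ]
    exact sub_mem (sub_mem (cup_Null_left τ' (by omega) hc b) (leibniz_Null h h' hm (by omega) c b))
      (Submodule.smul_mem _ _ (cup_Null_right τ' (by omega) c hb.2))

lemma cup_Bc_abs_right {τ τ' τ'' : Z → Z → R} {F : Set Z} (h : Coc τ F) (h' : Coc τ' F)
    (hm : Mu τ τ' τ'' F) {p q k : ℕ} (hk : p + q = k) {a b : List Z → R} (ha : a ∈ Zc τ p F ∅)
    (hb : b ∈ Bc τ' q F ∅) : cup τ' p a b ∈ Bc τ'' k F ∅ := by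
  rcases q with _ | q
  · rw [Bc_zero] at hb
    exact Null_le_Bc _ _ _ _ (cup_Null_right τ' hk a hb)
  · obtain ⟨c, -, hc⟩ := mem_Bc.1 hb
    refine mem_Bc.2 ⟨(-1 : R) ^ p • cup τ' p a c, by simp, ?_⟩
    rw [cup_alg_right τ]
    exact sub_mem (sub_mem (cup_Null_right τ' hk a hc)
      (Submodule.smul_mem _ _ (leibniz_Null h h' hm (by omega) a c)))
      (Submodule.smul_mem _ _ (cup_Null_left τ' (by omega) ha.2 c))

/-- the data under which `H(A, A') × H(K, K') → H(univ, O)` is defined -/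
structure POK (τ τ' : Z → Z → R) (O A A' K K' : Set Z) : Prop where
  out : O ⊆ A'
  c1 : A ∪ K' = univ
  c2 : A' ∪ K = univ
  coc : Coc τ K
  coc' : Coc τ' K
  mu : Mu τ τ' 1 K

variable {τ τ' : Z → Z → R} {O A A' K K' : Set Z}

lemma cup_univ {k : ℕ} {F G : Set Z} (h : F ∪ G = univ) {c : List Z → R} (h1 : c ∈ Null R k F)
    (h2 : c ∈ Null R k G) : c ∈ Null R k (univ : Set Z) := by
  rw [← h, Null_union]
  exact ⟨h1, h2⟩

lemma cup_leib (ok : POK τ τ' O A A' K K') {i k : ℕ} (hk : i + 1 ≤ k) {a : List Z → R}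
    (ha : a ∈ Null R i A') (b : List Z → R) :
    D 1 (cup τ' i a b) - (cup τ' (i + 1) (D τ a) b + (-1 : R) ^ i • cup τ' i a (D τ' b))
      ∈ Null R k (univ : Set Z) :=
  cup_univ ok.c2 (sub_mem (D_Null' _ (cup_Null_left τ' (by omega) ha b))
    (add_mem (cup_Null_left τ' hk (D_Null τ ha) b)
      (Submodule.smul_mem _ _ (cup_Null_left τ' (by omega) ha _))))
    (leibniz_Null ok.coc ok.coc' ok.mu hk a b)

lemma cup_Zc (ok : POK τ τ' O A A' K K') {i j k : ℕ} (hk : i + j = k) {a b : List Z → R}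
    (ha : a ∈ Zc τ i A A') (hb : b ∈ Zc τ' j K K') : cup τ' i a b ∈ Zc 1 k univ O := by
  refine ⟨Null_mono k ok.out (cup_Null_left τ' (by omega) ha.1 b), ?_⟩
  have h1 := cup_leib ok (k := k + 1) (by omega) ha.1 b
  exact (Submodule.sub_mem_iff_left _ (add_mem
    (cup_univ ok.c1 (cup_Null_left τ' (by omega) ha.2 b) (cup_Null_right τ' (by omega) _ hb.1))
    (Submodule.smul_mem _ _ (cup_univ ok.c2 (cup_Null_left τ' (by omega) ha.1 _)
      (cup_Null_right τ' (by omega) a hb.2))))).1 h1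

lemma cup_Bc_left (ok : POK τ τ' O A A' K K') {i j k : ℕ} (hk : i + j = k) {a b : List Z → R}
    (ha : a ∈ Zc τ i A A') (ha' : a ∈ Bc τ i A A') (hb : b ∈ Zc τ' j K K') :
    cup τ' i a b ∈ Bc 1 k univ O := by
  rcases i with _ | i
  · rw [Bc_zero] at ha'
    exact Null_le_Bc _ _ _ _ (cup_univ ok.c1 (cup_Null_left τ' (by omega) ha' b)
      (cup_Null_right τ' hk a hb.1))
  · obtain ⟨c, hc', hc⟩ := mem_Bc.1 ha'
    have hc0 : c ∈ Null R i A' := hc'
    refine mem_Bc.2 ⟨cup τ' i c b, Null_mono _ ok.out (cup_Null_left τ' (by omega) hc0 b), ?_⟩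
    rw [cup_alg_left τ]
    exact sub_mem (sub_mem (cup_univ ok.c1 (cup_Null_left τ' (by omega) hc b)
      (cup_Null_right τ' hk _ hb.1)) (cup_leib ok (by omega) hc0 b))
      (Submodule.smul_mem _ _ (cup_univ ok.c2 (cup_Null_left τ' (by omega) hc0 _)
        (cup_Null_right τ' (by omega) c hb.2)))

lemma cup_Bc_right (ok : POK τ τ' O A A' K K') {i j k : ℕ} (hk : i + j = k) {a b : List Z → R}
    (ha : a ∈ Zc τ i A A') (hb : b ∈ Zc τ' j K K') (hb' : b ∈ Bc τ' j K K') :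
    cup τ' i a b ∈ Bc 1 k univ O := by
  rcases j with _ | j
  · rw [Bc_zero] at hb'
    exact Null_le_Bc _ _ _ _ (cup_univ ok.c2 (cup_Null_left τ' (by omega) ha.1 b)
      (cup_Null_right τ' hk a hb'))
  · obtain ⟨c, hc', hc⟩ := mem_Bc.1 hb'
    have hc0 : c ∈ Null R j K' := hc'
    refine mem_Bc.2 ⟨(-1 : R) ^ i • cup τ' i a c, Submodule.smul_mem _ _
      (Null_mono _ ok.out (cup_Null_left τ' (by omega) ha.1 c)), ?_⟩
    rw [cup_alg_right τ]
    exact sub_mem (sub_mem (cup_univ ok.c2 (cup_Null_left τ' (by omega) ha.1 _)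
      (cup_Null_right τ' hk a hc)) (Submodule.smul_mem _ _ (cup_leib ok (by omega) ha.1 c)))
      (Submodule.smul_mem _ _ (cup_univ ok.c1 (cup_Null_left τ' (by omega) ha.2 c)
        (cup_Null_right τ' (by omega) _ hc0)))

/-- the connecting maps are adjoint up to sign -/
lemma cup_del (ok : POK τ τ' O A A' K K') {i j k : ℕ} (hk : i + j + 1 = k) {a b : List Z → R}
    (ha : a ∈ Null R i A') :
    cup τ' (i + 1) (D τ a) b + (-1 : R) ^ i • cup τ' i a (D τ' b) ∈ Bc 1 k univ O := by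
  refine mem_Bc.2 ⟨cup τ' i a b, Null_mono _ ok.out (cup_Null_left τ' (by omega) ha b), ?_⟩
  rw [← neg_sub]
  exact neg_mem (cup_leib ok (by omega) ha b)

/-- commutativity in degrees two and two -/
lemma cup_comm (ok : POK τ τ' O univ A' K ∅) {a b : List Z → R} (ha : a ∈ Zc τ 2 univ A')
    (hb : b ∈ Zc τ' 2 univ A') : cup τ' 2 a b - cup τ 2 b a ∈ Bc 1 4 univ O := by
  obtain ⟨c, hc⟩ : ∃ c : List Z → R, ∀ x0 x1 x2 x3, c [x0, x1, x2, x3] =
      a [x0, x1, x3] * (τ' x0 x1 * b [x1, x2, x3]) - a [x0, x2, x3] * b [x0, x1, x2] :=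
    ⟨fun l => match l with
      | [x0, x1, x2, x3] =>
        a [x0, x1, x3] * (τ' x0 x1 * b [x1, x2, x3]) - a [x0, x2, x3] * b [x0, x1, x2]
      | _ => 0, fun _ _ _ _ => rfl⟩
  have hcn : c ∈ Null R 3 A' := fun x hx => by
    obtain ⟨U, hU, h⟩ := ha.1 x hx
    refine ⟨U, hU, fun l hl hl' => ?_⟩
    match l, hl, hl' with
    | [x0, x1, x2, x3], _, hl' =>
      simp only [List.mem_cons, List.not_mem_nil, or_false, forall_eq_or_imp, forall_eq] at hl'
      rw [hc, h [x0, x1, x3] rfl (by simp [hl']), h [x0, x2, x3] rfl (by simp [hl'])]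
      ring
  refine mem_Bc.2 ⟨c, Null_mono _ ok.out hcn, cup_univ ok.c2 (sub_mem (sub_mem
    (cup_Null_left τ' (by omega) ha.1 b) (cup_Null_left τ (by omega) hb.1 a)) (D_Null 1 hcn))
    fun x hx => ?_⟩
  obtain ⟨U1, hU1, g1⟩ := ha.2 x trivial
  obtain ⟨U2, hU2, g2⟩ := hb.2 x trivial
  obtain ⟨U3, hU3, g3⟩ := ok.coc' x hx
  obtain ⟨U4, hU4, g4⟩ := ok.mu x hx
  refine ⟨U1 ∩ U2 ∩ (U3 ∩ U4), inter_mem (inter_mem hU1 hU2) (inter_mem hU3 hU4),
    fun l hl hl' => ?_⟩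
  match l, hl, hl' with
  | [x0, x1, x2, x3, x4], _, hl' =>
    simp only [List.mem_cons, List.not_mem_nil, or_false, forall_eq_or_imp, forall_eq,
      mem_inter_iff] at hl'
    have ea : ∀ u v w, u ∈ U1 → v ∈ U1 → w ∈ U1 → τ x0 u * a [u, v, w] - a [x0, v, w] +
        a [x0, u, w] - a [x0, u, v] = 0 := fun u v w hu hv hw => by
      rw [← D_four]; exact g1 _ rfl (by simp [hl', hu, hv, hw])
    have eb : ∀ u v w, u ∈ U2 → v ∈ U2 → w ∈ U2 → τ' x0 u * b [u, v, w] - b [x0, v, w] +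
        b [x0, u, w] - b [x0, u, v] = 0 := fun u v w hu hv hw => by
      rw [← D_four]; exact g2 _ rfl (by simp [hl', hu, hv, hw])
    obtain ⟨⟨⟨-, -⟩, p0, q0⟩, ⟨⟨m1, n1⟩, p1, q1⟩, ⟨⟨m2, n2⟩, p2, -⟩, ⟨⟨m3, n3⟩, -⟩, ⟨m4, n4⟩, -⟩ := hl'
    rw [Pi.sub_apply, Pi.sub_apply, cup_D_five, hc, hc, hc, hc, hc]
    exact cup_ring (g4 x0 q0 x1 q1) ((g3 x0 p0).2 x1 p1 x2 p2) (ea x1 x3 x4 m1 m3 m4)
      (ea x1 x2 x4 m1 m2 m4) (ea x2 x3 x4 m2 m3 m4) (eb x1 x2 x3 n1 n2 n3) (eb x1 x2 x4 n1 n2 n4)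
      (eb x1 x3 x4 n1 n3 n4) (eb x2 x3 x4 n2 n3 n4)

end Pool.Agent.P.MP_3d25f3_gt
end

-- part Pool.Agent.P.MP_3d25f3_gt.Coef
section

set_option autoImplicit false

open Set Filter Topology

namespace Pool.Agent.P.MP_3d25f3_gt

variable {Z : Type} [TopologicalSpace Z] {R R' : Type} [CommRing R] [CommRing R']

/-- change of coefficients in cohomology -/
def cmap (φ : R →+* R') {τ : Z → Z → R} {τ' : Z → Z → R'} (h : ∀ x y, φ (τ x y) = τ' x y) (k : ℕ)
    (F F' : Set Z) : H τ k F F' →ₛₗ[φ] H τ' k F F' :=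
  hmap (cf φ) (fun _ hc => cf_Zc φ h hc) (fun _ _ hc => cf_Bc φ h hc)

lemma cmap_cl (φ : R →+* R') {τ : Z → Z → R} {τ' : Z → Z → R'} (h : ∀ x y, φ (τ x y) = τ' x y)
    {k : ℕ} {F F' : Set Z} (c : List Z → R) (hc : c ∈ Zc τ k F F') :
    cmap φ h k F F' (cl c hc) = cl (cf φ c) (cf_Zc φ h hc) := rfl

lemma cmap_bij {φ : R →+* R'} (hφ : Function.Bijective φ) {τ : Z → Z → R} {τ' : Z → Z → R'}
    (h : ∀ x y, φ (τ x y) = τ' x y) (k : ℕ) (F F' : Set Z) :
    Function.Bijective (cmap φ h k F F') := by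
  let e : R ≃+* R' := RingEquiv.ofBijective φ hφ
  let ψ : R' →+* R := e.symm
  have h1 : ∀ r, ψ (φ r) = r := fun r => e.symm_apply_apply r
  have h2 : ∀ r, φ (ψ r) = r := fun r => e.apply_symm_apply r
  have h' : ∀ x y, ψ (τ' x y) = τ x y := fun x y => by rw [← h, h1]
  refine Function.bijective_iff_has_inverse.2 ⟨cmap ψ h' k F F', fun x => ?_, fun x => ?_⟩
  · obtain ⟨c, hc, rfl⟩ := cl_surj x
    rw [cmap_cl, cmap_cl, cl_eq]
    have : cf ψ (cf φ c) - c = 0 := by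
      funext l
      simp only [Pi.sub_apply, cf_apply, h1, sub_self, Pi.zero_apply]
    rw [this]
    exact zero_mem _
  · obtain ⟨c, hc, rfl⟩ := cl_surj x
    rw [cmap_cl, cmap_cl, cl_eq]
    have : cf φ (cf ψ c) - c = 0 := by
      funext l
      simp only [Pi.sub_apply, cf_apply, h2, sub_self, Pi.zero_apply]
    rw [this]
    exact zero_mem _

/-- reduction modulo a non zero divisor -/
structure Red (φ : R →+* R') (ε : R) : Prop where
  surj : Function.Surjective φ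
  ker : ∀ r, φ r = 0 ↔ ε ∣ r
  reg : ∀ r, ε * r = 0 → r = 0

variable {φ : R →+* R'} {ε : R} {τ : Z → Z → R} {τ' : Z → Z → R'}

lemma red_lift (hr : Red φ ε) (c : List Z → R') :
    ∃ b : List Z → R, cf φ b = c ∧ ∀ (k : ℕ) (F : Set Z), c ∈ Null R' k F → b ∈ Null R k F := by
  classical
  have hs : ∀ r : R', ∃ a : R, φ a = r ∧ (r = 0 → a = 0) := fun r => by
    by_cases h0 : r = 0
    · exact ⟨0, by rw [h0, map_zero], fun _ => rfl⟩
    · obtain ⟨a, ha⟩ := hr.surj r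
      exact ⟨a, ha, fun h => (h0 h).elim⟩
  choose s hs1 hs2 using hs
  refine ⟨fun l => s (c l), funext fun l => hs1 _, fun k F hc x hx => ?_⟩
  obtain ⟨U, hU, h1⟩ := hc x hx
  exact ⟨U, hU, fun l hl hy => hs2 _ (h1 l hl hy)⟩

lemma red_div (hr : Red φ ε) (c : List Z → R) :
    ∃ y : List Z → R, (∀ (k : ℕ) (F : Set Z), cf φ c ∈ Null R' k F → c - ε • y ∈ Null R k F) ∧
      ∀ (k : ℕ) (F : Set Z), c ∈ Null R k F → y ∈ Null R k F := by
  classical
  have hs : ∀ r : R, ∃ a : R, (φ r = 0 → r - ε * a = 0) ∧ (r = 0 → a = 0) := fun r => by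
    by_cases h0 : φ r = 0
    · obtain ⟨a, ha⟩ := (hr.ker r).1 h0
      exact ⟨a, fun _ => by rw [ha, sub_self], fun h => hr.reg a (by rw [← ha, h])⟩
    · exact ⟨0, fun h => (h0 h).elim, fun _ => rfl⟩
  choose s hs1 hs2 using hs
  refine ⟨fun l => s (c l), fun k F hc x hx => ?_, fun k F hc x hx => ?_⟩
  · obtain ⟨U, hU, h1⟩ := hc x hx
    exact ⟨U, hU, fun l hl hy => hs1 _ (h1 l hl hy)⟩
  · obtain ⟨U, hU, h1⟩ := hc x hx
    exact ⟨U, hU, fun l hl hy => hs2 _ (h1 l hl hy)⟩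

lemma red_cancel (hr : Red φ ε) {k : ℕ} {F : Set Z} {c : List Z → R} (h : ε • c ∈ Null R k F) :
    c ∈ Null R k F := by
  intro x hx
  obtain ⟨U, hU, h1⟩ := h x hx
  exact ⟨U, hU, fun l hl hy => hr.reg _ (h1 l hl hy)⟩

lemma coef_eps (hr : Red φ ε) : φ ε = 0 := (hr.ker ε).2 dvd_rfl

omit [TopologicalSpace Z] in
lemma coef_cf_eps (hr : Red φ ε) (c : List Z → R) : cf φ (ε • c) = 0 := by
  rw [map_smulₛₗ, coef_eps hr, zero_smul]

/-- a cochain whose reduction is a coboundary -/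
lemma coef_split (hr : Red φ ε) (h : ∀ x y, φ (τ x y) = τ' x y) {k : ℕ} {F F' : Set Z}
    {c : List Z → R} (hc : c ∈ Null R k F') (hB : cf φ c ∈ Bc τ' k F F') :
    ∃ b ∈ Null R (k - 1) F', ∃ z ∈ Null R k F', c - D τ b - ε • z ∈ Null R k F := by
  obtain ⟨b', hb', h1⟩ := mem_Bc.1 hB
  obtain ⟨b, rfl, hb⟩ := red_lift hr b'
  obtain ⟨z, hz1, hz2⟩ := red_div hr (c - D τ b)
  have hb0 := hb _ _ hb'
  refine ⟨b, hb0, z, hz2 _ _ (sub_mem hc (D_Null' τ hb0)), hz1 _ _ ?_⟩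
  rw [map_sub, cf_D φ h]
  exact h1

lemma cmap_eq_zero (hr : Red φ ε) (h : ∀ x y, φ (τ x y) = τ' x y) {k : ℕ} {F F' : Set Z}
    (hτ : Coc τ (F \ F')) (hF : F' ⊆ F) (x : H τ k F F') :
    cmap φ h k F F' x = 0 ↔ ∃ y, x = ε • y := by
  constructor
  · intro hx
    obtain ⟨c, hc, rfl⟩ := cl_surj x
    rw [cmap_cl, cl_eq_zero] at hx
    obtain ⟨b, hb, z, hz, h1⟩ := coef_split hr h hc.1 hx
    have hzc : z ∈ Zc τ k F F' := by
      refine ⟨hz, red_cancel hr ?_⟩
      have h2 : D τ (c - D τ b - ε • z) ∈ Null R (k + 1) F := D_Null τ h1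
      have h3 : D τ c ∈ Null R (k + 1) F := hc.2
      have h4 := sub_mem (sub_mem h3 (DD_Null hτ hb)) h2
      have e : D τ c - D τ (D τ b) - D τ (c - D τ b - ε • z) = ε • D τ z := by
        simp only [map_sub, map_smul]
        abel
      rwa [e] at h4
    refine ⟨cl z hzc, ?_⟩
    rw [← cl_smul, cl_eq]
    refine mem_Bc.2 ⟨b, hb, ?_⟩
    have e : c - ε • z - D τ b = c - D τ b - ε • z := by abel
    rwa [e]
  · rintro ⟨y, rfl⟩
    rw [map_smulₛₗ, coef_eps hr, zero_smul]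

/-- the Bockstein homomorphism -/
structure IsBock (φ : R →+* R') (ε : R) (h : ∀ x y, φ (τ x y) = τ' x y) (k : ℕ) (F F' : Set Z)
    (β : H τ' k F F' →+ H τ (k + 1) F F') : Prop where
  spec : ∀ (c y : List Z → R) (hc : cf φ c ∈ Zc τ' k F F') (hy : y ∈ Zc τ (k + 1) F F'),
    c ∈ Null R k F' → D τ c - ε • y ∈ Null R (k + 1) F → β (cl _ hc) = cl y hy
  rep : ∀ x, ∃ (c y : List Z → R) (hc : cf φ c ∈ Zc τ' k F F') (hy : y ∈ Zc τ (k + 1) F F'),
    c ∈ Null R k F' ∧ D τ c - ε • y ∈ Null R (k + 1) F ∧ x = cl _ hc ∧ β x = cl y hy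
  smul : ∀ r x, β (φ r • x) = r • β x
  ker : ∀ x, β x = 0 ↔ ∃ y, x = cmap φ h k F F' y
  range : ∀ y, ε • y = 0 ↔ ∃ x, y = β x

/-- the graph of the Bockstein homomorphism -/
def coef_Rel (φ : R →+* R') (ε : R) (τ : Z → Z → R) (τ' : Z → Z → R') (k : ℕ) (F F' : Set Z)
    (x : H τ' k F F') (w : H τ (k + 1) F F') : Prop :=
  ∃ (c y : List Z → R) (hc : cf φ c ∈ Zc τ' k F F') (hy : y ∈ Zc τ (k + 1) F F'),
    c ∈ Null R k F' ∧ D τ c - ε • y ∈ Null R (k + 1) F ∧ x = cl _ hc ∧ w = cl y hy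

lemma coef_rel_ex (hr : Red φ ε) (h : ∀ x y, φ (τ x y) = τ' x y) (k : ℕ) {F F' : Set Z}
    (hτ : Coc τ (F \ F')) (x : H τ' k F F') : ∃ w, coef_Rel φ ε τ τ' k F F' x w := by
  obtain ⟨c', hc', rfl⟩ := cl_surj x
  obtain ⟨c, rfl, hc⟩ := red_lift hr c'
  have h1 : c ∈ Null R k F' := hc _ _ hc'.1
  obtain ⟨y, hy1, hy2⟩ := red_div hr (D τ c)
  have h2 : D τ c - ε • y ∈ Null R (k + 1) F := hy1 _ _ (by
    rw [cf_D φ h]
    exact hc'.2)
  have hy : y ∈ Zc τ (k + 1) F F' := by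
    refine ⟨hy2 _ _ (D_Null τ h1), red_cancel hr ?_⟩
    have h4 := sub_mem (DD_Null (k := k + 1) hτ h1) (D_Null τ h2)
    have e : D τ (D τ c) - D τ (D τ c - ε • y) = ε • D τ y := by
      simp only [map_sub, map_smul]
      abel
    rwa [e] at h4
  exact ⟨cl y hy, c, y, hc', hy, h1, h2, rfl, rfl⟩

lemma coef_rel_add {k : ℕ} {F F' : Set Z} {x x' : H τ' k F F'} {w w' : H τ (k + 1) F F'}
    (h1 : coef_Rel φ ε τ τ' k F F' x w) (h2 : coef_Rel φ ε τ τ' k F F' x' w') :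
    coef_Rel φ ε τ τ' k F F' (x + x') (w + w') := by
  obtain ⟨c, y, hc, hy, a1, a2, rfl, rfl⟩ := h1
  obtain ⟨c', y', hc', hy', b1, b2, rfl, rfl⟩ := h2
  have e : cf φ (c + c') = cf φ c + cf φ c' := map_add _ _ _
  refine ⟨c + c', y + y', e ▸ add_mem hc hc', add_mem hy hy', add_mem a1 b1, ?_, ?_, rfl⟩
  · have e2 : D τ (c + c') - ε • (y + y') = D τ c - ε • y + (D τ c' - ε • y') := by
      simp only [map_add, smul_add]
      abel
    rw [e2]
    exact add_mem a2 b2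
  · rw [← cl_add, cl_eq, e, sub_self]
    exact zero_mem _

lemma coef_rel_smul {k : ℕ} {F F' : Set Z} (r : R) {x : H τ' k F F'} {w : H τ (k + 1) F F'}
    (h1 : coef_Rel φ ε τ τ' k F F' x w) : coef_Rel φ ε τ τ' k F F' (φ r • x) (r • w) := by
  obtain ⟨c, y, hc, hy, a1, a2, rfl, rfl⟩ := h1
  have e : cf φ (r • c) = φ r • cf φ c := map_smulₛₗ _ _ _
  refine ⟨r • c, r • y, e ▸ Submodule.smul_mem _ _ hc, Submodule.smul_mem _ _ hy,
    Submodule.smul_mem _ _ a1, ?_, ?_, rfl⟩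
  · have e2 : D τ (r • c) - ε • r • y = r • (D τ c - ε • y) := by
      rw [map_smul, smul_sub, smul_comm]
    rw [e2]
    exact Submodule.smul_mem _ _ a2
  · rw [← cl_smul, cl_eq, e, sub_self]
    exact zero_mem _

lemma coef_rel_uniq (hr : Red φ ε) (h : ∀ x y, φ (τ x y) = τ' x y) {k : ℕ} {F F' : Set Z}
    (hτ : Coc τ (F \ F')) {x : H τ' k F F'} {w w' : H τ (k + 1) F F'}
    (h1 : coef_Rel φ ε τ τ' k F F' x w) (h2 : coef_Rel φ ε τ τ' k F F' x w') : w = w' := by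
  obtain ⟨c, y, hc, hy, a1, a2, rfl, rfl⟩ := h1
  obtain ⟨c', y', hc', hy', b1, b2, b3, rfl⟩ := h2
  rw [cl_eq, ← map_sub] at b3
  obtain ⟨b, hb, z, hz, h3⟩ := coef_split hr h (sub_mem a1 b1) b3
  rw [cl_eq]
  refine mem_Bc.2 ⟨z, hz, red_cancel hr ?_⟩
  have h4 := add_mem (sub_mem (add_mem (D_Null τ h3) (DD_Null hτ hb)) a2) b2
  have e : D τ (c - c' - D τ b - ε • z) + D τ (D τ b) - (D τ c - ε • y) + (D τ c' - ε • y') =
      ε • (y - y' - D τ z) := by
    simp only [map_sub, map_smul, smul_sub]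
    abel
  rwa [e] at h4

lemma exists_bock (hr : Red φ ε) (h : ∀ x y, φ (τ x y) = τ' x y) (k : ℕ) {F F' : Set Z}
    (hτ : Coc τ (F \ F')) (hF : F' ⊆ F) : ∃ β, IsBock φ ε h k F F' β := by
  have hex := coef_rel_ex hr h k hτ
  choose β hβ using hex
  have hu : ∀ x w, coef_Rel φ ε τ τ' k F F' x w → β x = w := fun x w hw =>
    coef_rel_uniq hr h hτ (hβ x) hw
  let B : H τ' k F F' →+ H τ (k + 1) F F' :=
    AddMonoidHom.mk' β fun x x' => hu _ _ (coef_rel_add (hβ x) (hβ x'))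
  have hB : ∀ x, B x = β x := fun _ => rfl
  refine ⟨B, fun c y hc hy h1 h2 => hu _ _ ⟨c, y, hc, hy, h1, h2, rfl, rfl⟩, fun x => hβ x,
    fun r x => hu _ _ (coef_rel_smul r (hβ x)), fun x => ⟨fun hx => ?_, ?_⟩,
    fun y => ⟨fun hy => ?_, ?_⟩⟩
  · obtain ⟨c, y, hc, hy, h1, h2, rfl, h4⟩ := hβ x
    rw [hB, h4, cl_eq_zero] at hx
    obtain ⟨b, hb, h5⟩ := mem_Bc.1 hx
    have hb' : b ∈ Null R k F' := hb
    have hz : c - ε • b ∈ Zc τ k F F' := by
      refine ⟨sub_mem h1 (Submodule.smul_mem _ ε hb'), ?_⟩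
      have h6 := add_mem h2 (Submodule.smul_mem _ ε h5)
      have e : D τ c - ε • y + ε • (y - D τ b) = D τ (c - ε • b) := by
        simp only [map_sub, map_smul, smul_sub]
        abel
      rw [e] at h6
      exact h6
    refine ⟨cl _ hz, ?_⟩
    rw [cmap_cl, cl_eq, map_sub, coef_cf_eps hr, sub_zero, sub_self]
    exact zero_mem _
  · rintro ⟨y, rfl⟩
    obtain ⟨c, hc, rfl⟩ := cl_surj y
    refine hu _ _ ⟨c, 0, cf_Zc φ h hc, zero_mem _, hc.1, ?_, rfl, ?_⟩
    · rw [smul_zero, sub_zero]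
      exact hc.2
    · exact ((cl_eq_zero _).2 (zero_mem _)).symm
  · obtain ⟨y0, hy0, rfl⟩ := cl_surj y
    rw [← cl_smul, cl_eq_zero] at hy
    obtain ⟨b, hb, h5⟩ := mem_Bc.1 hy
    have hb' : b ∈ Null R k F' := hb
    have h6 : D τ b - ε • y0 ∈ Null R (k + 1) F := by
      have := neg_mem h5
      rwa [neg_sub] at this
    have hz : cf φ b ∈ Zc τ' k F F' := by
      refine ⟨cf_Null φ hb', ?_⟩
      have h7 := cf_Null φ h6
      rw [map_sub, coef_cf_eps hr, sub_zero, cf_D φ h] at h7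
      exact h7
    exact ⟨cl _ hz, (hu _ _ ⟨b, y0, hz, hy0, hb', h6, rfl, rfl⟩).symm⟩
  · rintro ⟨x, rfl⟩
    obtain ⟨c, y, hc, hy, h1, h2, rfl, h4⟩ := hβ x
    rw [hB, h4, ← cl_smul, cl_eq_zero]
    refine mem_Bc.2 ⟨c, h1, ?_⟩
    have := neg_mem h2
    rwa [neg_sub] at this

end Pool.Agent.P.MP_3d25f3_gt
end

-- part Pool.Agent.P.MP_3d25f3_gt.Intg
section

set_option autoImplicit false

open Set Filter Topology

namespace Pool.Agent.P.MP_3d25f3_gt

variable {R R' : Type} [CommRing R] [CommRing R']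

abbrev E4 : Type := Fin 4 → ℝ

noncomputable def orn : List E4 → ℤ := (exists_gen 4).choose

lemma orn_gen : Gen orn 4 univ (Out 4) := (exists_gen 4).choose_spec

lemma orn_mem (R : Type) [CommRing R] :
    cf (Int.castRingHom R) orn ∈ Zc (1 : E4 → E4 → R) 4 univ (Out 4) :=
  cf_Zc _ (fun _ _ => by simp) orn_gen.1

lemma orn_bij (R : Type) [CommRing R] :
    Function.Bijective (LinearMap.toSpanSingleton R _ (cl _ (orn_mem R))) := by
  constructor
  · rw [injective_iff_map_eq_zero]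
    intro r hr
    rw [LinearMap.toSpanSingleton_apply, ← cl_smul, cl_eq_zero] at hr
    exact (orn_gen.2 R).2.1 r hr
  · intro x
    obtain ⟨c, hc, rfl⟩ := cl_surj x
    obtain ⟨r, hr⟩ := (orn_gen.2 R).1 c hc
    refine ⟨r, Eq.symm ?_⟩
    rw [LinearMap.toSpanSingleton_apply, ← cl_smul, cl_eq]
    exact hr

/-- integration of compactly supported classes of top degree -/
noncomputable def intg (R : Type) [CommRing R] : H (1 : E4 → E4 → R) 4 univ (Out 4) ≃ₗ[R] R :=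
  (LinearEquiv.ofBijective _ (orn_bij R)).symm

lemma intg_eq {c : List E4 → R} (hc : c ∈ Zc (1 : E4 → E4 → R) 4 univ (Out 4)) (r : R) :
    intg R (cl c hc) = r ↔ c - r • cf (Int.castRingHom R) orn ∈ Bc 1 4 univ (Out 4) := by
  rw [intg, LinearEquiv.symm_apply_eq, LinearEquiv.ofBijective_apply,
    LinearMap.toSpanSingleton_apply, ← cl_smul, cl_eq]

lemma intg_cf (φ : R →+* R') {c : List E4 → R} (hc : c ∈ Zc (1 : E4 → E4 → R) 4 univ (Out 4))
    (hc' : cf φ c ∈ Zc (1 : E4 → E4 → R') 4 univ (Out 4)) :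
    intg R' (cl _ hc') = φ (intg R (cl c hc)) := by
  rw [intg_eq]
  have h := cf_Bc φ (τ' := 1) (fun _ _ => by simp) ((intg_eq hc _).1 rfl)
  rw [map_sub, LinearMap.map_smulₛₗ] at h
  convert h using 3
  funext l
  simp

variable {τ τ' : E4 → E4 → R} {A A' K K' : Set E4} {i j : ℕ}

noncomputable def pairZ (ok : POK τ τ' (Out 4) A A' K K') (h : i + j = 4) :
    Zc τ i A A' →ₗ[R] H τ' j K K' →ₗ[R] R where
  toFun a := (intg R).toLinearMap ∘ₗ hmap (cupL τ' i a.1) (fun _ hc => cup_Zc ok h a.2 hc)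
    (fun _ hc hb => cup_Bc_right ok h a.2 hc hb)
  map_add' a a' := by
    ext ⟨b, hb⟩
    change intg R (cl _ (cup_Zc ok h (a + a').2 hb))
      = intg R (cl _ (cup_Zc ok h a.2 hb)) + intg R (cl _ (cup_Zc ok h a'.2 hb))
    rw [← map_add, ← cl_add]
    simp only [Submodule.coe_add, cup_add_left]
  map_smul' r a := by
    ext ⟨b, hb⟩
    change intg R (cl _ (cup_Zc ok h (r • a).2 hb)) = r • intg R (cl _ (cup_Zc ok h a.2 hb))
    rw [← map_smul, ← cl_smul]
    simp only [Submodule.coe_smul, cup_smul_left]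

/-- the duality pairing -/
noncomputable def pair (ok : POK τ τ' (Out 4) A A' K K') (h : i + j = 4) :
    H τ i A A' →ₗ[R] H τ' j K K' →ₗ[R] R :=
  Submodule.liftQ _ (pairZ ok h) (by
    intro a ha
    rw [LinearMap.mem_ker]
    ext ⟨b, hb⟩
    change intg R (cl _ (cup_Zc ok h a.2 hb)) = 0
    rw [(cl_eq_zero _).2 (cup_Bc_left ok h a.2 ha hb), map_zero])

lemma pair_cl (ok : POK τ τ' (Out 4) A A' K K') (h : i + j = 4) (a b : List E4 → R)
    (ha : a ∈ Zc τ i A A') (hb : b ∈ Zc τ' j K K') :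
    pair ok h (cl a ha) (cl b hb) = intg R (cl (cup τ' i a b) (cup_Zc ok h ha hb)) := rfl

lemma pair_cmap (φ : R →+* R') {σ σ' : E4 → E4 → R'} (hφ : ∀ x y, φ (τ x y) = σ x y)
    (hφ' : ∀ x y, φ (τ' x y) = σ' x y) (ok : POK τ τ' (Out 4) A A' K K')
    (ok' : POK σ σ' (Out 4) A A' K K') (h : i + j = 4) (a : H τ i A A') (b : H τ' j K K') :
    pair ok' h (cmap φ hφ i A A' a) (cmap φ hφ' j K K' b) = φ (pair ok h a b) := by
  obtain ⟨a, ha, rfl⟩ := cl_surj a
  obtain ⟨b, hb, rfl⟩ := cl_surj b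
  rw [cmap_cl, cmap_cl, pair_cl, pair_cl, ← intg_cf φ]
  · simp only [cf_cup φ hφ']
  · rw [cf_cup φ hφ']
    exact cup_Zc ok' h (cf_Zc φ hφ ha) (cf_Zc φ hφ' hb)

/-- duality over a field -/
structure Dual {k : Type} [Field k] {τ τ' : E4 → E4 → k} {A A' K K' : Set E4}
    (ok : POK τ τ' (Out 4) A A' K K') : Prop where
  bij : ∀ i j (h : i + j = 4), Function.Bijective (pair ok h)
  van : ∀ i, 4 < i → Van τ i A A'
  van' : ∀ j, 4 < j → Van τ' j K K'

end Pool.Agent.P.MP_3d25f3_gt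
end

-- part Pool.Agent.P.MP_3d25f3_gt.Five
section

set_option autoImplicit false

open Set Filter Topology

namespace Pool.Agent.P.MP_3d25f3_gt

variable {k : Type} [Field k] {τ τ' : E4 → E4 → k} {A A' K K' : Set E4}

lemma Dual.congr {B B' L L' : Set E4} {ok : POK τ τ' (Out 4) A A' K K'}
    (ok' : POK τ τ' (Out 4) B B' L L') (h1 : A = B) (h2 : A' = B') (h3 : K = L) (h4 : K' = L')
    (h : Dual ok) : Dual ok' := by
  subst h1 h2 h3 h4; exact h

lemma pair_res_res {i j : ℕ} (h : i + j = 4) {B B' L L' : Set E4} (ok : POK τ τ' (Out 4) A A' K K')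
    (ok' : POK τ τ' (Out 4) B B' L L') (h1 : B ⊆ A) (h2 : B' ⊆ A') (h3 : K ⊆ L) (h4 : K' ⊆ L')
    (a : H τ i A A') (b : H τ' j L L') :
    pair ok' h (res τ i h1 h2 a) b = pair ok h a (res τ' j h3 h4 b) := by
  obtain ⟨a, ha, rfl⟩ := cl_surj a
  obtain ⟨b, hb, rfl⟩ := cl_surj b
  rfl

lemma pair_del_del {i j : ℕ} (h : i + 1 + j = 4) (h' : i + (j + 1) = 4)
    (ok1 : POK τ τ' (Out 4) univ A K' ∅) (ok3 : POK τ τ' (Out 4) A A' K K')
    (hτ : Coc τ (univ \ A')) (hτ' : Coc τ' (K \ ∅)) (a : H τ i A A') (b : H τ' j K' ∅) :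
    pair ok1 h (del i hτ a) b = (-1) ^ (i + 1) * pair ok3 h' a (del j hτ' b) := by
  obtain ⟨a, ha, rfl⟩ := cl_surj a
  obtain ⟨b, hb, rfl⟩ := cl_surj b
  have ha' : D τ a ∈ Zc τ (i + 1) univ A := ⟨ha.2, DD_Null (k := i + 1) hτ ha.1⟩
  have hb' : D τ' b ∈ Zc τ' (j + 1) K K' := ⟨hb.2, DD_Null (k := j + 1) hτ' hb.1⟩
  change intg k (cl _ (cup_Zc ok1 h ha' hb)) = (-1) ^ (i + 1) * intg k (cl _ (cup_Zc ok3 h' ha hb'))
  rw [← smul_eq_mul, ← map_smul, ← cl_smul]
  refine congrArg _ ((cl_eq _ _).2 ?_)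
  have := cup_del ok3 (i := i) (j := j) (k := 4) (by omega) (b := b) ha.1
  rwa [pow_succ, mul_neg_one, neg_smul, sub_neg_eq_add]

section alg
variable {V1 V2 V3 V4 W1 W2 W3 W4 : Type} [AddCommGroup V1] [AddCommGroup V2] [AddCommGroup V3]
  [AddCommGroup V4] [AddCommGroup W1] [AddCommGroup W2] [AddCommGroup W3] [AddCommGroup W4]
  [Module k V1] [Module k V2] [Module k V3] [Module k V4] [Module k W1] [Module k W2]
  [Module k W3] [Module k W4]

lemma five_dual {g2 : W3 →ₗ[k] W2} {g1 : W2 →ₗ[k] W1} (h : Function.Exact g2 g1) {s1 s2 : k}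
    (h1 : s1 ≠ 0) (h2 : s2 ≠ 0) : Function.Exact (s1 • g1).dualMap (s2 • g2).dualMap := by
  rw [LinearMap.exact_iff] at h ⊢
  rw [LinearMap.ker_dualMap_eq_dualAnnihilator_range,
    LinearMap.range_dualMap_eq_dualAnnihilator_ker, LinearMap.range_smul _ _ h2,
    LinearMap.ker_smul _ _ h1, h]

lemma five_sq {f : V1 →ₗ[k] V2} {g : W2 →ₗ[k] W1} {p1 : V1 →ₗ[k] W1 →ₗ[k] k}
    {p2 : V2 →ₗ[k] W2 →ₗ[k] k} {s : k} (c : ∀ x y, p2 (f x) y = s * p1 x (g y)) :
    (s • g).dualMap.comp p1 = p2.comp f := by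
  ext x y
  simp [c]

lemma five_inj {f1 : V1 →ₗ[k] V2} {f2 : V2 →ₗ[k] V3} {f3 : V3 →ₗ[k] V4} {g1 : W2 →ₗ[k] W1}
    {g2 : W3 →ₗ[k] W2} {g3 : W4 →ₗ[k] W3} {p1 : V1 →ₗ[k] W1 →ₗ[k] k} {p2 : V2 →ₗ[k] W2 →ₗ[k] k}
    {p3 : V3 →ₗ[k] W3 →ₗ[k] k} {p4 : V4 →ₗ[k] W4 →ₗ[k] k} {s1 s2 s3 : k} (h1 : s1 ≠ 0)
    (h2 : s2 ≠ 0) (c1 : ∀ x y, p2 (f1 x) y = s1 * p1 x (g1 y))
    (c2 : ∀ x y, p3 (f2 x) y = s2 * p2 x (g2 y)) (c3 : ∀ x y, p4 (f3 x) y = s3 * p3 x (g3 y))
    (e1 : Function.Exact f1 f2) (e2 : Function.Exact f2 f3) (e : Function.Exact g2 g1)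
    (b1 : Function.Surjective p1) (b2 : Function.Injective p2) (b4 : Function.Injective p4) :
    Function.Injective p3 :=
  LinearMap.injective_of_surjective_of_injective_of_injective f1 f2 f3 (s1 • g1).dualMap
    (s2 • g2).dualMap (s3 • g3).dualMap p1 p2 p3 p4 (five_sq c1) (five_sq c2) (five_sq c3) e1 e2
    (five_dual e h1 h2) b1 b2 b4

lemma five_surj {f1 : V1 →ₗ[k] V2} {f2 : V2 →ₗ[k] V3} {f3 : V3 →ₗ[k] V4} {g1 : W2 →ₗ[k] W1}
    {g2 : W3 →ₗ[k] W2} {g3 : W4 →ₗ[k] W3} {p1 : V1 →ₗ[k] W1 →ₗ[k] k} {p2 : V2 →ₗ[k] W2 →ₗ[k] k}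
    {p3 : V3 →ₗ[k] W3 →ₗ[k] k} {p4 : V4 →ₗ[k] W4 →ₗ[k] k} {s1 s2 s3 : k} (h1 : s1 ≠ 0)
    (h2 : s2 ≠ 0) (h3 : s3 ≠ 0) (c1 : ∀ x y, p2 (f1 x) y = s1 * p1 x (g1 y))
    (c2 : ∀ x y, p3 (f2 x) y = s2 * p2 x (g2 y)) (c3 : ∀ x y, p4 (f3 x) y = s3 * p3 x (g3 y))
    (e2 : Function.Exact f2 f3) (e : Function.Exact g2 g1) (e' : Function.Exact g3 g2)
    (b1 : Function.Surjective p1) (b3 : Function.Surjective p3) (b4 : Function.Injective p4) :
    Function.Surjective p2 :=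
  LinearMap.surjective_of_surjective_of_surjective_of_injective f1 f2 f3 (s1 • g1).dualMap
    (s2 • g2).dualMap (s3 • g3).dualMap p1 p2 p3 p4 (five_sq c1) (five_sq c2) (five_sq c3) e2
    (five_dual e h1 h2) (five_dual e' h2 h3) b1 b3 b4

lemma five_zero {f : V2 →ₗ[k] V3} (h : Function.Injective f) :
    Function.Exact (0 : PUnit →ₗ[k] V2) f := by
  rw [LinearMap.exact_iff, LinearMap.range_zero, LinearMap.ker_eq_bot.2 h]

lemma five_surj_sub [Subsingleton W1] (p : V1 →ₗ[k] W1 →ₗ[k] k) : Function.Surjective p :=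
  fun q => ⟨0, LinearMap.ext fun y => by rw [Subsingleton.elim y 0, map_zero, map_zero]⟩

lemma five_inj_sub [Subsingleton V1] (p : V1 →ₗ[k] W1 →ₗ[k] k) : Function.Injective p :=
  fun _ _ _ => Subsingleton.elim _ _

end alg

lemma five_sign (n : ℕ) : ((-1 : k) ^ n) ≠ 0 := pow_ne_zero _ (neg_ne_zero.2 one_ne_zero)

lemma five_coc (ok : POK τ τ' (Out 4) A A' K K') : Coc τ (univ \ A') :=
  ok.coc.mono fun x hx => ((ok.c2 ▸ mem_univ x : x ∈ A' ∪ K)).resolve_left hx.2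

lemma five_coc' (ok : POK τ τ' (Out 4) A A' K K') : Coc τ' (K \ ∅) :=
  ok.coc'.mono sdiff_subset

lemma five_c12 {i j : ℕ} (h : i + j = 4) (hA : A' ⊆ A) (hK : K' ⊆ K)
    (ok1 : POK τ τ' (Out 4) univ A K' ∅) (ok2 : POK τ τ' (Out 4) univ A' K ∅)
    (x : H τ i univ A) (y : H τ' j K ∅) :
    pair ok2 h (res τ i subset_rfl hA x) y = 1 * pair ok1 h x (res τ' j hK subset_rfl y) := by
  rw [one_mul]
  exact pair_res_res h ok1 ok2 _ _ _ _ x y

lemma five_c23 {i j : ℕ} (h : i + j = 4) (ok2 : POK τ τ' (Out 4) univ A' K ∅)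
    (ok3 : POK τ τ' (Out 4) A A' K K') (x : H τ i univ A') (y : H τ' j K K') :
    pair ok3 h (res τ i (subset_univ A) subset_rfl x) y =
      1 * pair ok2 h x (res τ' j subset_rfl (empty_subset K') y) := by
  rw [one_mul]
  exact pair_res_res h ok2 ok3 _ _ _ _ x y

theorem dual_mid (hA : A' ⊆ A) (hK : K' ⊆ K) {ok1 : POK τ τ' (Out 4) univ A K' ∅}
    (ok2 : POK τ τ' (Out 4) univ A' K ∅) {ok3 : POK τ τ' (Out 4) A A' K K'} (h1 : Dual ok1)
    (h3 : Dual ok3) : Dual ok2 := by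
  have hτ := five_coc ok3
  have hτ' := five_coc' ok3
  refine ⟨fun i j h => ⟨?_, ?_⟩,
    fun i hi => van_mid i (h1.van i hi) (h3.van i hi) hτ (subset_univ A) hA,
    fun j hj => van_mid j (h3.van' j hj) (h1.van' j hj) hτ' hK (empty_subset K')⟩
  · rcases i with _ | i
    · have := (van_iff _).1 (h3.van' (j + 1) (by omega))
      exact five_inj (f1 := (0 : PUnit →ₗ[k] _)) (g1 := del j hτ') (p1 := 0) one_ne_zero one_ne_zero
        (fun x y => by simp) (five_c12 h hA hK ok1 ok2) (five_c23 h ok2 ok3)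
        (five_zero (res_zero_inj hA)) (exact_res_res 0 hτ (subset_univ A) hA)
        (exact_res_del j hτ' hK (empty_subset K')) (five_surj_sub _) (h1.bij 0 j h).1
        (h3.bij 0 j h).1
    · exact five_inj (five_sign _) one_ne_zero
        (pair_del_del h (by omega) ok1 ok3 hτ hτ') (five_c12 h hA hK ok1 ok2) (five_c23 h ok2 ok3)
        (exact_del_res i hτ (subset_univ A) hA) (exact_res_res (i + 1) hτ (subset_univ A) hA)
        (exact_res_del j hτ' hK (empty_subset K')) (h3.bij i (j + 1) (by omega)).2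
        (h1.bij (i + 1) j h).1 (h3.bij (i + 1) j h).1
  · rcases j with _ | j
    · have := (van_iff _).1 (h1.van (i + 1) (by omega))
      exact five_surj (f3 := del i hτ) (g3 := (0 : PUnit →ₗ[k] _)) (p4 := 0) one_ne_zero one_ne_zero
        one_ne_zero (five_c12 h hA hK ok1 ok2) (five_c23 h ok2 ok3) (fun x y => by simp)
        (exact_res_del i hτ (subset_univ A) hA) (exact_res_res 0 hτ' hK (empty_subset K'))
        (five_zero (res_zero_inj (empty_subset K'))) (h1.bij i 0 h).2 (h3.bij i 0 h).2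
        (five_inj_sub _)
    · exact five_surj one_ne_zero one_ne_zero (five_sign _) (five_c12 h hA hK ok1 ok2)
        (five_c23 h ok2 ok3) (pair_del_del (by omega) h ok1 ok3 hτ hτ')
        (exact_res_del i hτ (subset_univ A) hA) (exact_res_res (j + 1) hτ' hK (empty_subset K'))
        (exact_del_res j hτ' hK (empty_subset K')) (h1.bij i (j + 1) h).2 (h3.bij i (j + 1) h).2
        (h1.bij (i + 1) j (by omega)).1

theorem dual_rel (hA : A' ⊆ A) (hK : K' ⊆ K) {ok1 : POK τ τ' (Out 4) univ A K' ∅}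
    {ok2 : POK τ τ' (Out 4) univ A' K ∅} (ok3 : POK τ τ' (Out 4) A A' K K') (h1 : Dual ok1)
    (h2 : Dual ok2) : Dual ok3 := by
  have hτ := five_coc ok3
  have hτ' := five_coc' ok3
  refine ⟨fun i j h => ?_, fun i hi => ?_, fun j hj => ?_⟩
  · rcases j with _ | j
    · have s1 := (van_iff _).1 (h1.van (i + 1) (by omega))
      have s2 := (van_iff _).1 (h2.van (i + 1) (by omega))
      refine ⟨?_, ?_⟩
      · exact five_inj (f3 := del i hτ) (g3 := (0 : PUnit →ₗ[k] _)) (p4 := 0) (s3 := 1)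
          one_ne_zero one_ne_zero (five_c12 h hA hK ok1 ok2) (five_c23 h ok2 ok3)
          (fun x y => by simp) (exact_res_res i hτ (subset_univ A) hA)
          (exact_res_del i hτ (subset_univ A) hA) (exact_res_res 0 hτ' hK (empty_subset K'))
          (h1.bij i 0 h).2 (h2.bij i 0 h).1 (five_inj_sub _)
      · exact five_surj (f2 := del i hτ) (f3 := res τ (i + 1) subset_rfl hA)
          (g2 := (0 : PUnit →ₗ[k] _)) (g3 := (0 : PUnit →ₗ[k] _)) (p3 := 0) (p4 := 0)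
          one_ne_zero one_ne_zero one_ne_zero (five_c23 h ok2 ok3) (fun x y => by simp)
          (fun x y => by simp) (exact_del_res i hτ (subset_univ A) hA)
          (five_zero (res_zero_inj (empty_subset K')))
          (five_zero fun _ _ _ => Subsingleton.elim _ _) (h2.bij i 0 h).2 (five_surj_sub _)
          (five_inj_sub _)
    · have h' : i + 1 + j = 4 := by omega
      refine ⟨?_, ?_⟩
      · exact five_inj one_ne_zero one_ne_zero (five_c12 h hA hK ok1 ok2) (five_c23 h ok2 ok3)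
          (pair_del_del h' h ok1 ok3 hτ hτ') (exact_res_res i hτ (subset_univ A) hA)
          (exact_res_del i hτ (subset_univ A) hA)
          (exact_res_res (j + 1) hτ' hK (empty_subset K')) (h1.bij i _ h).2 (h2.bij i _ h).1
          (h1.bij _ j h').1
      · exact five_surj one_ne_zero (five_sign _) one_ne_zero (five_c23 h ok2 ok3)
          (pair_del_del h' h ok1 ok3 hτ hτ') (five_c12 h' hA hK ok1 ok2)
          (exact_del_res i hτ (subset_univ A) hA) (exact_del_res j hτ' hK (empty_subset K'))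
          (exact_res_del j hτ' hK (empty_subset K')) (h2.bij i _ h).2 (h1.bij _ j h').2
          (h2.bij _ j h').1
  · have s1 := (van_iff _).1 (h1.van (i + 1) (by omega))
    have s2 := (van_iff _).1 (h2.van i hi)
    refine (van_iff _).2 (subsingleton_of_forall_eq 0 fun x => ?_)
    obtain ⟨y, rfl⟩ := (exact_res_del i hτ (subset_univ A) hA x).1 (Subsingleton.elim _ _)
    rw [Subsingleton.elim y 0, map_zero]
  · obtain ⟨m, rfl⟩ : ∃ m, j = m + 1 := ⟨j - 1, by omega⟩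
    have s2 := (van_iff _).1 (h2.van' (m + 1) hj)
    have hs : Function.Surjective (res τ' m (F := K) (F' := ∅) hK subset_rfl) := by
      by_cases hm : m = 4
      · subst hm
        rw [← LinearMap.dualMap_injective_iff, ← one_smul k (res τ' 4 hK subset_rfl)]
        have e := five_sq (five_c12 (i := 0) (j := 4) rfl hA hK ok1 ok2)
        have hi : Function.Injective (((1 : k) • res τ' 4 (F := K) (F' := ∅) hK
            subset_rfl).dualMap.comp (pair ok1 (i := 0) (j := 4) rfl)) := by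
          rw [e]
          exact (h2.bij 0 4 rfl).1.comp (res_zero_inj hA)
        exact Function.Injective.of_comp_right hi (h1.bij 0 4 rfl).2
      · have s1 := (van_iff _).1 (h1.van' m (by omega))
        exact fun y => ⟨0, Subsingleton.elim _ _⟩
    refine (van_iff _).2 (subsingleton_of_forall_eq 0 fun x => ?_)
    obtain ⟨y, rfl⟩ := (exact_del_res m hτ' hK (empty_subset K') x).1 (Subsingleton.elim _ _)
    obtain ⟨z, rfl⟩ := hs y
    exact (exact_res_del m hτ' hK (empty_subset K')).apply_apply_eq_zero z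

theorem dual_exc {B : Set E4} (hA : IsClosed A) (hB : IsClosed B) (hK : IsClosed K)
    (hK' : IsClosed K') {ok : POK τ τ' (Out 4) (A ∪ B) B K (K ∩ K')}
    (ok' : POK τ τ' (Out 4) A (A ∩ B) (K ∪ K') K') (h : Dual ok) : Dual ok' := by
  refine ⟨fun i j hij => ?_, fun i hi => (van_exc i hA hB).1 (h.van i hi),
    fun j hj => (van_exc j hK hK').2 (h.van' j hj)⟩
  have r1 := exc_bij (τ := τ) i hA hB rfl rfl subset_union_left inter_subset_right
  have r2 := exc_bij (τ := τ') j hK hK' rfl rfl subset_union_left inter_subset_right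
  have e : (res τ' j (F := K ∪ K') (F' := K') subset_union_left inter_subset_right).dualMap.comp
      (pair ok hij) = (pair ok' hij).comp
        (res τ i (F := A ∪ B) (F' := B) subset_union_left inter_subset_right) :=
    LinearMap.ext fun x => LinearMap.ext fun y => (pair_res_res hij ok ok' _ _ _ _ x y).symm
  have hb : Function.Bijective ((pair ok' hij).comp
      (res τ i (F := A ∪ B) (F' := B) subset_union_left inter_subset_right)) := by
    rw [← e]
    exact (LinearMap.dualMap_bijective_iff.2 r2).comp (h.bij i j hij)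
  exact (Function.Bijective.of_comp_iff _ r1).1 hb

end Pool.Agent.P.MP_3d25f3_gt
end

-- part Pool.Agent.P.MP_3d25f3_gt.Box
section

set_option autoImplicit false

open Set Filter Topology

namespace Pool.Agent.P.MP_3d25f3_gt

variable {R : Type} [CommRing R]

def Ub (b : E4 × E4) : Set E4 := {x | ∀ i, b.1 i < x i ∧ x i < b.2 i}

def Kb (b : E4 × E4) : Set E4 := Icc b.1 b.2

/-- finite generation in all degrees -/
def FG (τ : E4 → E4 → R) (F F' : Set E4) : Prop := ∀ k, Module.Finite R (H τ k F F')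

lemma box_sub (b : E4 × E4) : Ub b ⊆ Kb b := fun _ hx => ⟨fun i => (hx i).1.le, fun i => (hx i).2.le⟩

lemma box_cover (b : E4 × E4) : univ ⊆ (Ub b)ᶜ ∪ Kb b := fun x _ => by
  by_cases h : x ∈ Ub b
  · exact Or.inr (box_sub b h)
  · exact Or.inl h

lemma box_open (b : E4 × E4) : IsOpen (Ub b) := by
  have : Ub b = ⋂ i, (fun x : E4 => x i) ⁻¹' Ioo (b.1 i) (b.2 i) := by
    ext x; simp [Ub]
  rw [this]
  exact isOpen_iInter_of_finite fun i => isOpen_Ioo.preimage (continuous_apply i)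

lemma box_not_mem {b : E4 × E4} {x : E4} : x ∉ Ub b ↔ ∃ i, x i ≤ b.1 i ∨ b.2 i ≤ x i := by
  simp only [Ub, mem_ofPred_eq, not_forall, not_and_or, not_lt]

lemma box_mem_out {x : E4} : x ∈ Out 4 ↔ ∃ i, 1 ≤ |x i| := by
  rw [Out, mem_ofPred_eq, ← not_lt, pi_norm_lt_iff zero_lt_one]
  simp only [not_forall, not_lt, Real.norm_eq_abs]

lemma box_mem_ball {x : E4} : x ∈ Metric.closedBall (0 : E4) 1 ↔ ∀ i, |x i| ≤ 1 := by
  rw [mem_closedBall_zero_iff, pi_norm_le_iff_of_nonneg zero_le_one]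
  simp only [Real.norm_eq_abs]

lemma box_out_sub {b : E4 × E4} (h1 : Kb b ⊆ Metric.ball 0 1) : Out 4 ⊆ (Ub b)ᶜ :=
  fun _ hx h => not_lt.2 hx (mem_ball_zero_iff.1 (h1 (box_sub b h)))

/-- the stretching of a coordinate -/
noncomputable def box_st (u v t : ℝ) : ℝ := max (-1) (min 1 ((2 * t - u - v) / (v - u)))

lemma box_st_abs (u v t : ℝ) : |box_st u v t| ≤ 1 :=
  abs_le.2 ⟨le_max_left _ _, max_le (by norm_num) (min_le_left _ _)⟩

lemma box_st_lo {u v t : ℝ} (h : u < v) (ht : t ≤ u) : box_st u v t = -1 :=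
  max_eq_left ((min_le_right _ _).trans ((div_le_iff₀ (sub_pos.2 h)).2 (by linarith)))

lemma box_st_hi {u v t : ℝ} (h : u < v) (ht : v ≤ t) : box_st u v t = 1 := by
  rw [box_st, min_eq_left ((le_div_iff₀ (sub_pos.2 h)).2 (by linarith))]
  norm_num

/-- the deformation -/
noncomputable def box_h (b : E4 × E4) (x : E4) (s : ℝ) : E4 :=
  fun i => (1 - s) * x i + s * box_st (b.1 i) (b.2 i) (x i)

lemma box_h_cont (b : E4 × E4) : Continuous (Function.uncurry (box_h b)) := by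
  refine continuous_pi fun i => ?_
  have h1 : Continuous fun p : E4 × ℝ => p.1 i := (continuous_apply i).comp continuous_fst
  exact ((continuous_const.sub continuous_snd).mul h1).add (continuous_snd.mul
    (continuous_const.max (continuous_const.min
      ((((continuous_const.mul h1).sub continuous_const).sub continuous_const).div_const _))))

lemma box_h_lo {b : E4 × E4} (hb : ∀ i, b.1 i < b.2 i) {x : E4} {i : Fin 4} (h : x i ≤ b.1 i)
    (s : ℝ) : box_h b x s i = x i - s * (x i + 1) := by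
  rw [box_h, box_st_lo (hb i) h]; ring

lemma box_h_hi {b : E4 × E4} (hb : ∀ i, b.1 i < b.2 i) {x : E4} {i : Fin 4} (h : b.2 i ≤ x i)
    (s : ℝ) : box_h b x s i = x i + s * (1 - x i) := by
  rw [box_h, box_st_hi (hb i) h]; ring

lemma box_conv {s u v : ℝ} (h0 : 0 ≤ s) (h1 : s ≤ 1) (hu : |u| ≤ 1) (hv : |v| ≤ 1) :
    |(1 - s) * u + s * v| ≤ 1 := by
  have e1 := abs_le.1 hu
  have e2 := abs_le.1 hv
  exact abs_le.2 ⟨by nlinarith [e1.1, e2.1], by nlinarith [e1.2, e2.2]⟩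

lemma box_h_mem {b : E4 × E4} (hb : ∀ i, b.1 i < b.2 i) :
    ∀ x ∈ Metric.closedBall (0 : E4) 1 \ Ub b, ∀ s ∈ Icc (0 : ℝ) 1,
      box_h b x s ∈ Metric.closedBall (0 : E4) 1 \ Ub b := by
  rintro x ⟨hx, hx'⟩ s ⟨h0, h0'⟩
  rw [box_mem_ball] at hx
  obtain ⟨i, hi⟩ := box_not_mem.1 hx'
  refine ⟨box_mem_ball.2 fun j => box_conv h0 h0' (hx j) (box_st_abs _ _ _),
    box_not_mem.2 ⟨i, ?_⟩⟩
  have e1 := abs_le.1 (hx i)
  refine hi.imp (fun h => ?_) fun h => ?_
  · rw [box_h_lo hb h]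
    have := mul_nonneg h0 (show 0 ≤ x i + 1 by linarith [e1.1])
    linarith
  · rw [box_h_hi hb h]
    have := mul_nonneg h0 (show 0 ≤ 1 - x i by linarith [e1.2])
    linarith

lemma box_van {b : E4 × E4} (hb : ∀ i, b.1 i < b.2 i) (h1 : Kb b ⊆ Metric.ball 0 1) (k : ℕ) :
    Van (1 : E4 → E4 → R) k (Ub b)ᶜ (Out 4) := by
  have hO : IsClosed (Out 4) := isClosed_le continuous_const continuous_norm
  have hA : IsCompact (Metric.closedBall (0 : E4) 1 \ Ub b) :=
    (isCompact_closedBall _ _).diff (box_open b)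
  have e : (Ub b)ᶜ = (Metric.closedBall (0 : E4) 1 \ Ub b) ∪ Out 4 := by
    refine Subset.antisymm (fun x hx => ?_) (union_subset (fun _ hx => hx.2) (box_out_sub h1))
    rcases le_total ‖x‖ 1 with h | h
    · exact Or.inl ⟨mem_closedBall_zero_iff.2 h, hx⟩
    · exact Or.inr h
  have hb' : b.1 ≤ b.2 := fun i => (hb i).le
  have hl : ∀ i, -1 < b.1 i := fun i => (abs_lt.1 ((norm_le_pi_norm b.1 i).trans_lt
    (mem_ball_zero_iff.1 (h1 ⟨le_rfl, hb'⟩)))).1
  have hr : ∀ i, b.2 i < 1 := fun i => (abs_lt.1 ((norm_le_pi_norm b.2 i).trans_lt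
    (mem_ball_zero_iff.1 (h1 ⟨hb', le_rfl⟩)))).2
  rw [e, van_exc k hA.isClosed hO]
  refine van_deform (h := box_h b) k hA (hA.inter_right hO) inter_subset_left (box_h_cont b)
    (fun x => funext fun i => by simp [box_h]) (Coc_one _) (box_h_mem hb)
    (fun x hx s hs => ⟨box_h_mem hb x hx.1 s hs, ?_⟩)
    fun x hx => ⟨box_h_mem hb x hx 1 ⟨zero_le_one, le_rfl⟩, ?_⟩
  · obtain ⟨i, hi⟩ := box_mem_out.1 hx.2
    have e1 := abs_le.1 (box_mem_ball.1 hx.1.1 i)
    refine box_mem_out.2 ⟨i, le_abs.2 ((le_abs.1 hi).imp (fun h => ?_) fun h => ?_)⟩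
    · rw [box_h_hi hb ((hr i).le.trans h), le_antisymm e1.2 h]
      simp
    · rw [box_h_lo hb (show x i ≤ b.1 i by linarith [hl i]),
        show x i = -1 by linarith [e1.1]]
      simp
  · obtain ⟨i, hi⟩ := box_not_mem.1 hx.2
    refine box_mem_out.2 ⟨i, ?_⟩
    rcases hi with h | h
    · simp [box_h_lo hb h]
    · simp [box_h_hi hb h]

lemma box_res_bij {b : E4 × E4} (hb : ∀ i, b.1 i < b.2 i) (h1 : Kb b ⊆ Metric.ball 0 1) (k : ℕ)
    (h : Out 4 ⊆ (Ub b)ᶜ) :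
    Function.Bijective (res (1 : E4 → E4 → R) k (F := univ) (F' := (Ub b)ᶜ) subset_rfl h) := by
  have hv := fun k => (van_iff k).1 (box_van (R := R) hb h1 k)
  constructor
  · rcases k with _ | k
    · exact res_zero_inj h
    · rw [injective_iff_map_eq_zero]
      intro x hx
      obtain ⟨y, rfl⟩ := (exact_del_res k (Coc_one _) (subset_univ _) h x).1 hx
      rw [(hv k).elim y 0, map_zero]
  · intro y
    exact (exact_res_res k (Coc_one _) (subset_univ _) h y).1 ((hv k).elim _ _)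

lemma box_null {K F F' : Set E4} (hF : F ⊆ F' ∪ K) {k : ℕ} {c : List E4 → R}
    (h : c ∈ Null R k F') (h' : c ∈ Null R k (F ∩ K)) : c ∈ Null R k F := fun x hx =>
  (hF hx).elim (h x) fun e => h' x ⟨hx, e⟩

lemma box_pull_null (ν : E4 → R) {k : ℕ} {F : Set E4} {c : List E4 → R} (h : c ∈ Null R k F) :
    pull id ν c ∈ Null R k F := pull_Null ν (fun _ _ => continuousAt_id) (mapsTo_id _) h

lemma box_pull_Zc {τ₀ τ : E4 → E4 → R} {ν : E4 → R} {K F F' : Set E4} (h : Itw τ₀ τ id ν K)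
    (hF : F ⊆ F' ∪ K) {k : ℕ} (c : List E4 → R) (hc : c ∈ Zc τ k F F') :
    pull id ν c ∈ Zc τ₀ k F F' := by
  have h1 := box_pull_null ν hc.1
  refine ⟨h1, box_null hF (D_Null τ₀ h1) ?_⟩
  have h2 := add_mem (Null_mono _ (inter_subset_right (s := F)) (pull_D h (k + 1) c))
    (Null_mono _ inter_subset_left (box_pull_null ν hc.2))
  rwa [sub_add_cancel] at h2

lemma box_pull_Bc {τ₀ τ : E4 → E4 → R} {ν : E4 → R} {K F F' : Set E4} (h : Itw τ₀ τ id ν K)
    (hF : F ⊆ F' ∪ K) {k : ℕ} (c : List E4 → R) (hc : c ∈ Zc τ k F F') (hc' : c ∈ Bc τ k F F') :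
    pull id ν c ∈ Bc τ₀ k F F' := by
  obtain ⟨a, ha, e⟩ := mem_Bc.1 hc'
  have h1 := box_pull_null ν ha
  refine mem_Bc.2 ⟨_, h1, box_null hF (sub_mem (box_pull_null ν hc.1) (D_Null' τ₀ h1)) ?_⟩
  have h2 := sub_mem (Null_mono _ inter_subset_left (box_pull_null ν e))
    (Null_mono _ (inter_subset_right (s := F)) (pull_D h k a))
  rwa [map_sub, sub_sub_sub_cancel_right] at h2

lemma box_pull_pull {τ : E4 → E4 → R} {ν ν' : E4 → R} {K F F' : Set E4}
    (h : ∀ x ∈ K, ∀ᶠ a in 𝓝 x, ν a * ν' a = 1) (hF : F ⊆ F' ∪ K) {k : ℕ} {c : List E4 → R}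
    (hc : c ∈ Zc τ k F F') : pull id ν (pull id ν' c) - c ∈ Bc τ k F F' := by
  refine Null_le_Bc _ _ _ _ (box_null hF
    (sub_mem (box_pull_null ν (box_pull_null ν' hc.1)) hc.1) ?_)
  rw [pull_pull]
  exact pull_id_Null k (fun x hx => h x hx.2) c

/-- change of gauge -/
lemma gauge_equiv {τ : E4 → E4 → R} {K : Set E4} {ν ν' : E4 → R}
    (h : ∀ x ∈ K, ∃ U ∈ 𝓝 x, ∀ a ∈ U, ν a * ν' a = 1 ∧ ∀ b ∈ U, τ a b * ν b = ν a) (k : ℕ)
    {F F' : Set E4} (hF : F ⊆ F' ∪ K) :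
    ∃ Φ : H (1 : E4 → E4 → R) k F F' ≃ₗ[R] H τ k F F',
      ∀ c hc, ∃ h', Φ (cl c hc) = cl (pull id ν c) h' := by
  have h1 : Itw τ 1 id ν K := fun x hx => (h x hx).imp fun U hU =>
    ⟨hU.1, fun a ha b hb => by simpa using (hU.2 a ha).2 b hb⟩
  have h2 : Itw 1 τ id ν' K := fun x hx => (h x hx).imp fun U hU =>
    ⟨hU.1, fun a ha b hb => by
      have e1 := (hU.2 a ha).1
      have e2 := (hU.2 b hb).1
      have e3 := (hU.2 a ha).2 b hb
      show 1 * ν' b = ν' a * τ a b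
      linear_combination (-ν' b) * e1 + (ν' a * τ a b) * e2 - ν' a * ν' b * e3⟩
  have h3 : ∀ x ∈ K, ∀ᶠ a in 𝓝 x, ν a * ν' a = 1 := fun x hx => by
    obtain ⟨U, hU, e⟩ := h x hx
    exact mem_of_superset hU fun a ha => (e a ha).1
  refine ⟨LinearEquiv.ofLinearMap (hmap (pull id ν) (box_pull_Zc h1 hF) (box_pull_Bc h1 hF))
    (hmap (pull id ν') (box_pull_Zc h2 hF) (box_pull_Bc h2 hF)) (LinearMap.ext fun x => ?_)
    (LinearMap.ext fun x => ?_), fun c hc => ⟨box_pull_Zc h1 hF c hc, rfl⟩⟩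
  · obtain ⟨c, hc, rfl⟩ := cl_surj x
    exact (cl_eq _ hc).2 (box_pull_pull h3 hF hc)
  · obtain ⟨c, hc, rfl⟩ := cl_surj x
    exact (cl_eq _ hc).2 (box_pull_pull
      (fun x hx => (h3 x hx).mono fun a ha => (mul_comm _ _).trans ha) hF hc)

lemma box_empty {b : E4 × E4} (h : ¬ b.1 ≤ b.2) (τ : E4 → E4 → R) (k : ℕ) :
    Van τ k univ (Ub b)ᶜ ∧ Van τ k (Kb b) ∅ := by
  have e : Kb b = ∅ := Icc_eq_empty h
  have e' : Ub b = ∅ := subset_eq_empty (box_sub b) e
  rw [e, e', compl_empty]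
  exact ⟨van_self k, van_self k⟩

lemma box_rel_sub {b : E4 × E4} (hb : ∀ i, b.1 i < b.2 i) (h1 : Kb b ⊆ Metric.ball 0 1) {k : ℕ}
    (hk : k ≠ 4) : Subsingleton (H (1 : E4 → E4 → R) k univ (Ub b)ᶜ) :=
  haveI := (van_iff k).1 ((orn_gen.2 R).2.2 k hk)
  (box_res_bij hb h1 k (box_out_sub h1)).1.subsingleton

lemma box_span {b : E4 × E4} (hb : b.1 ≤ b.2) (x : H (1 : E4 → E4 → R) 0 (Kb b) ∅) :
    ∃ r : R, r • cl _ (one_mem_Zc (Kb b)) = x := by
  obtain ⟨c, hc, rfl⟩ := cl_surj x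
  refine ⟨c [b.1], Eq.symm ?_⟩
  rw [← cl_smul, cl_eq]
  have e : (c [b.1] • fun _ : List E4 => (1 : R)) = fun _ => c [b.1] := by
    funext l; simp
  rw [e]
  exact Null_le_Bc _ _ _ _ (h0_const (convex_Icc b.1 b.2).isPreconnected hc ⟨le_rfl, hb⟩)

theorem box_fg {τ : E4 → E4 → R} {b : E4 × E4} (hb : b.1 ≤ b.2 → ∀ i, b.1 i < b.2 i)
    (h1 : Kb b ⊆ Metric.ball 0 1) (hT : Triv τ (Kb b)) :
    FG τ univ (Ub b)ᶜ ∧ FG τ (Kb b) ∅ := by
  by_cases h : b.1 ≤ b.2
  · obtain ⟨ν, ν', hν⟩ := hT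
    refine ⟨fun k => ?_, fun k => ?_⟩
    · obtain ⟨Φ, -⟩ := gauge_equiv hν k (box_cover b)
      refine @Module.Finite.equiv _ _ _ _ _ _ _ _ ?_ Φ
      by_cases hk : k = 4
      · subst hk
        exact Module.Finite.equiv ((LinearEquiv.ofBijective _
          (box_res_bij (hb h) h1 4 (box_out_sub h1))).trans (intg R)).symm
      · have := box_rel_sub (R := R) (hb h) h1 hk
        exact Module.Finite.of_finite
    · obtain ⟨Φ, -⟩ := gauge_equiv hν k (F := Kb b) (F' := ∅) subset_union_right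
      refine @Module.Finite.equiv _ _ _ _ _ _ _ _ ?_ Φ
      rcases k with _ | k
      · exact Module.Finite.of_surjective (LinearMap.toSpanSingleton R _ _) (box_span h)
      · have := (van_iff _).1 (van_convex (τ := (1 : E4 → E4 → R)) k isCompact_Icc
          (convex_Icc b.1 b.2) (Coc_one _))
        exact @Module.Finite.of_finite _ _ _ _ _ (@Finite.of_subsingleton _ this)
  · refine ⟨fun k => ?_, fun k => ?_⟩
    · have := (van_iff _).1 (box_empty h τ k).1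
      exact Module.Finite.of_finite
    · have := (van_iff _).1 (box_empty h τ k).2
      exact Module.Finite.of_finite

lemma box_bij_triv {τ τ' : E4 → E4 → R} {A A' K K' : Set E4} (ok : POK τ τ' (Out 4) A A' K K')
    {i j : ℕ} (h : i + j = 4) (h1 : Subsingleton (H τ i A A')) (h2 : Subsingleton (H τ' j K K')) :
    Function.Bijective (pair ok h) :=
  ⟨fun _ _ _ => h1.elim _ _, fun f => ⟨0, LinearMap.ext fun y => by
    rw [h2.elim y 0, map_zero, map_zero]⟩⟩

lemma box_bij_one {b : E4 × E4} (hb : ∀ i, b.1 i < b.2 i) (h1 : Kb b ⊆ Metric.ball 0 1)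
    (ok : POK (1 : E4 → E4 → R) 1 (Out 4) univ (Ub b)ᶜ (Kb b) ∅) {i j : ℕ} (h : i + j = 4) :
    Function.Bijective (pair ok h) := by
  rcases j with _ | j
  · have hi : i = 4 := h
    subst hi
    have e : ∀ x, pair ok h x (cl _ (one_mem_Zc (Kb b))) =
        intg R (res (1 : E4 → E4 → R) 4 (F := univ) (F' := (Ub b)ᶜ) subset_rfl ok.out x) := fun x => by
      obtain ⟨a, ha, rfl⟩ := cl_surj x
      rw [pair_cl, res_cl]
      refine congrArg _ ((cl_eq _ _).2 (Null_le_Bc _ _ _ _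
        fun _ _ => ⟨univ, univ_mem, fun l hl _ => ?_⟩))
      rcases l with _ | ⟨x, l⟩
      · simp at hl
      · have : l.take 4 = l := List.take_of_length_le (by simp at hl; omega)
        simp [cup, this]
    have hB := (intg R).bijective.comp (box_res_bij (R := R) hb h1 4 ok.out)
    refine ⟨fun x y hxy => hB.1 ?_, fun f => ?_⟩
    · show intg R _ = intg R _
      rw [← e, ← e, hxy]
    · obtain ⟨x, hx⟩ := hB.2 (f (cl _ (one_mem_Zc (Kb b))))
      refine ⟨x, LinearMap.ext fun y => ?_⟩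
      obtain ⟨r, rfl⟩ := box_span (fun i => (hb i).le) y
      rw [map_smul, map_smul, e]
      exact congrArg _ hx
  · exact box_bij_triv ok h (box_rel_sub hb h1 (by omega))
      ((van_iff _).1 (van_convex j isCompact_Icc (convex_Icc b.1 b.2) (Coc_one _)))

lemma box_cup {τ' : E4 → E4 → R} {ν ν' : E4 → R} {K A : Set E4} (hA : univ ⊆ A ∪ K)
    (h : ∀ x ∈ K, ∃ U ∈ 𝓝 x, ∀ a ∈ U, ν' a * ν a = 1 ∧ ∀ b ∈ U, τ' a b * ν' b = ν' a) {i : ℕ}
    (hi : i ≤ 4) {a : List E4 → R} (ha : a ∈ Null R i A) (c : List E4 → R) :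
    cup τ' i (pull id ν a) (pull id ν' c) - cup 1 i a c ∈ Null R 4 univ := by
  refine box_null hA (sub_mem (cup_Null_left _ hi (box_pull_null ν ha) _)
    (cup_Null_left _ hi ha _)) fun x hx => ?_
  obtain ⟨U, hU, e⟩ := h x hx.2
  refine ⟨U, hU, fun l hl hm => ?_⟩
  rcases l with _ | ⟨y, l⟩
  · simp at hl
  · have hi' : i < (y :: l).length := by omega
    have e1 := e y (hm y List.mem_cons_self)
    have e2 := e1.2 _ (hm _ (List.getElem_mem hi'))
    simp only [Pi.sub_apply, cup, List.drop_eq_getElem_cons hi', List.getD_eq_getElem _ _ hi',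
      pull_cons, id, List.map_id, Pi.one_apply]
    linear_combination (ν y * a (y :: l.take i) * c ((y :: l)[i] :: (y :: l).drop (i + 1))) * e2 +
      (a (y :: l.take i) * c ((y :: l)[i] :: (y :: l).drop (i + 1))) * e1.1

theorem box_dual {k : Type} [Field k] {τ τ' : E4 → E4 → k} {b : E4 × E4}
    (hb : b.1 ≤ b.2 → ∀ i, b.1 i < b.2 i) (h1 : Kb b ⊆ Metric.ball 0 1) (hT : Triv τ (Kb b))
    (ok : POK τ τ' (Out 4) univ (Ub b)ᶜ (Kb b) ∅) : Dual ok := by
  by_cases h : b.1 ≤ b.2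
  · obtain ⟨ν, ν', hν⟩ := hT
    have hν' : ∀ x ∈ Kb b, ∃ U ∈ 𝓝 x, ∀ a ∈ U, ν' a * ν a = 1 ∧
        ∀ c ∈ U, τ' a c * ν' c = ν' a := fun x hx => by
      obtain ⟨U, hU, e⟩ := hν x hx
      obtain ⟨V, hV, e'⟩ := ok.mu x hx
      refine ⟨U ∩ V, inter_mem hU hV, fun a ha =>
        ⟨(mul_comm _ _).trans (e a ha.1).1, fun c hc => ?_⟩⟩
      have e1 := (e a ha.1).1
      have e2 := (e c hc.1).1
      have e3 := (e a ha.1).2 c hc.1
      have e4 : τ a c * τ' a c = 1 := e' a ha.2 c hc.2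
      linear_combination (-(τ' a c * ν' c)) * e1 + ν' a * e2 - ν' a * τ' a c * ν' c * e3 +
        ν' a * ν c * ν' c * e4
    have ok1 : POK (1 : E4 → E4 → k) 1 (Out 4) univ (Ub b)ᶜ (Kb b) ∅ :=
      ⟨ok.out, ok.c1, ok.c2, Coc_one _, Coc_one _,
        fun _ _ => ⟨univ, univ_mem, fun _ _ _ _ => mul_one _⟩⟩
    refine ⟨fun i j hij => ?_, fun i hi => ?_, fun j hj => ?_⟩
    · obtain ⟨Φ, hΦ⟩ := gauge_equiv hν i (box_cover b)
      obtain ⟨Ψ, hΨ⟩ := gauge_equiv hν' j (F := Kb b) (F' := ∅) subset_union_right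
      have e : Ψ.dualMap ∘ pair ok hij ∘ Φ = pair ok1 hij := by
        funext x
        refine LinearMap.ext fun y => ?_
        obtain ⟨a, ha, rfl⟩ := cl_surj x
        obtain ⟨c, hc, rfl⟩ := cl_surj y
        obtain ⟨ha', e1⟩ := hΦ a ha
        obtain ⟨hc', e2⟩ := hΨ c hc
        show pair ok hij (Φ (cl a ha)) (Ψ (cl c hc)) = _
        rw [e1, e2, pair_cl, pair_cl]
        exact congrArg _ ((cl_eq _ _).2 (Null_le_Bc _ _ _ _
          (box_cup (box_cover b) hν' (by omega) ha.1 c)))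
      have hB := box_bij_one (hb h) h1 ok1 hij
      rw [← e, Ψ.dualMap.bijective.of_comp_iff'] at hB
      exact (Function.Bijective.of_comp_iff _ Φ.bijective).1 hB
    · obtain ⟨Φ, -⟩ := gauge_equiv hν i (box_cover b)
      have := box_rel_sub (R := k) (hb h) h1 hi.ne'
      exact (van_iff _).2 Φ.symm.injective.subsingleton
    · obtain ⟨j, rfl⟩ : ∃ j', j = j' + 1 := ⟨j - 1, by omega⟩
      exact van_convex j isCompact_Icc (convex_Icc b.1 b.2) ok.coc'
  · exact ⟨fun i j hij => box_bij_triv ok hij ((van_iff _).1 (box_empty h τ i).1)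
      ((van_iff _).1 (box_empty h τ' j).2), fun i _ => (box_empty h τ i).1,
      fun j _ => (box_empty h τ' j).2⟩

end Pool.Agent.P.MP_3d25f3_gt
end

-- part Pool.Agent.P.MP_3d25f3_gt.BoxL
section

set_option autoImplicit false

open Set Filter Topology

namespace Pool.Agent.P.MP_3d25f3_gt

variable {R : Type} [CommRing R]

def UL (L : List (E4 × E4)) : Set E4 := {x | ∃ b ∈ L, x ∈ Ub b}

def KL (L : List (E4 × E4)) : Set E4 := {x | ∃ b ∈ L, x ∈ Kb b}

def Fam (δ : ℝ) (b : E4 × E4) : Prop :=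
  ∀ i, ∃ p q : ℤ, b.1 i = δ * p - δ / 3 ∧ b.2 i = δ * q + δ / 3

/-- a pair of inverse twistings on an open set -/
structure Good (τ τ' : E4 → E4 → R) (N : Set E4) : Prop where
  op : IsOpen N
  coc : Coc τ N
  coc' : Coc τ' N
  mu : Mu τ τ' 1 N
  triv : ∀ K ⊆ N, IsCompact K → Convex ℝ K → Triv τ K

lemma Good.symm {τ τ' : E4 → E4 → R} {N : Set E4} (h : Good τ τ' N) : Good τ' τ N := by
  refine ⟨h.op, h.coc', h.coc, fun x hx => ?_, fun K hK h1 h2 => ?_⟩
  · obtain ⟨U, hU, h1⟩ := h.mu x hx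
    exact ⟨U, hU, fun a ha b hb => by rw [mul_comm]; exact h1 a ha b hb⟩
  · obtain ⟨ν, ν', h3⟩ := h.triv K hK h1 h2
    refine ⟨ν', ν, fun x hx => ?_⟩
    obtain ⟨U, hU, h4⟩ := h3 x hx
    obtain ⟨V, hV, h5⟩ := h.mu x (hK hx)
    refine ⟨U ∩ V, inter_mem hU hV, fun a ha => ⟨by rw [mul_comm]; exact (h4 a ha.1).1,
      fun b hb => ?_⟩⟩
    have e1 := (h4 a ha.1).1
    have e2 := (h4 b hb.1).1
    have e3 := (h4 a ha.1).2 b hb.1
    have e4 : τ a b * τ' a b = 1 := h5 a ha.2 b hb.2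
    linear_combination (-(τ' a b * ν' b)) * e1 - (τ' a b * ν' b * ν' a) * e3 +
      (τ a b * τ' a b * ν' a) * e2 + ν' a * e4

lemma Good.mono {τ τ' : E4 → E4 → R} {N N' : Set E4} (h : Good τ τ' N) (ho : IsOpen N')
    (hN : N' ⊆ N) : Good τ τ' N' :=
  ⟨ho, h.coc.mono hN, h.coc'.mono hN, fun x hx => h.mu x (hN hx),
    fun K hK => h.triv K (hK.trans hN)⟩

lemma good_tw {n : E4 → E4 → ℤ} {N : Set E4} (ho : IsOpen N) (hn : CocZ n N) (t : Rˣ) :
    Good (tw t n) (tw t⁻¹ n) N :=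
  ⟨ho, hn.tw t, hn.tw t⁻¹, Mu_tw t n N, fun _ hK h1 h2 => triv_tw h1 h2 (hn.mono hK) t⟩

lemma boxl_open (b : E4 × E4) : IsOpen (Ub b) := by
  rw [Ub, Set.ofPred_forall]
  exact isOpen_iInter_of_finite fun i => (isOpen_lt continuous_const (continuous_apply i)).inter
    (isOpen_lt (continuous_apply i) continuous_const)

lemma boxl_sub (b : E4 × E4) : Ub b ⊆ Kb b :=
  fun _ hx => ⟨fun i => (hx i).1.le, fun i => (hx i).2.le⟩

lemma boxl_UL_nil : UL [] = ∅ := by simp [UL]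

lemma boxl_KL_nil : KL [] = ∅ := by simp [KL]

lemma boxl_UL_cons (b : E4 × E4) (L : List (E4 × E4)) : UL (b :: L) = Ub b ∪ UL L := by
  ext x; simp [UL]

lemma boxl_KL_cons (b : E4 × E4) (L : List (E4 × E4)) : KL (b :: L) = Kb b ∪ KL L := by
  ext x; simp [KL]

lemma isOpen_UL (L : List (E4 × E4)) : IsOpen (UL L) := by
  induction L with
  | nil => rw [boxl_UL_nil]; exact isOpen_empty
  | cons b L ih => rw [boxl_UL_cons]; exact (boxl_open b).union ih

lemma isCompact_KL (L : List (E4 × E4)) : IsCompact (KL L) := by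
  induction L with
  | nil => rw [boxl_KL_nil]; exact isCompact_empty
  | cons b L ih => rw [boxl_KL_cons]; exact isCompact_Icc.union ih

lemma UL_subset (L : List (E4 × E4)) : UL L ⊆ KL L := by
  rintro x ⟨b, hb, hx⟩
  exact ⟨b, hb, boxl_sub b hx⟩

lemma exists_boxes {C N : Set E4} (hC : IsCompact C) (hN : IsOpen N) (h : C ⊆ N) :
    ∃ δ > 0, ∃ L : List (E4 × E4), (∀ b ∈ L, Fam δ b) ∧ C ⊆ UL L ∧ KL L ⊆ N := by
  obtain ⟨ε, hε, h1⟩ := hC.exists_cthickening_subset_open hN h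
  obtain ⟨δ, hδ, rfl⟩ : ∃ δ > 0, ε = 2 * δ := ⟨ε / 2, by positivity, by ring⟩
  obtain ⟨B, hB⟩ : ∃ B : E4 → E4 × E4, ∀ x, B x = (fun i => δ * ⌊x i / δ⌋ - δ / 3,
    fun i => δ * ((⌊x i / δ⌋ + 1 : ℤ) : ℝ) + δ / 3) := ⟨_, fun _ => rfl⟩
  have h2 : ∀ (x : E4) i, (B x).1 i + δ / 3 ≤ x i ∧ x i < (B x).1 i + 4 * δ / 3 ∧
      (B x).2 i = (B x).1 i + 5 * δ / 3 := by
    intro x i
    have a1 := (le_div_iff₀ hδ).1 (Int.floor_le (x i / δ))
    have a2 := (div_lt_iff₀ hδ).1 (Int.lt_floor_add_one (x i / δ))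
    rw [hB]
    push_cast
    refine ⟨by linarith, by linarith, by ring⟩
  obtain ⟨t, ht, h3⟩ := hC.elim_nhds_subcover (fun x => Ub (B x)) fun x _ =>
    (boxl_open _).mem_nhds fun i => by
      obtain ⟨a1, a2, a3⟩ := h2 x i
      exact ⟨by linarith, by linarith⟩
  refine ⟨δ, hδ, t.toList.map B, fun b hb i => ?_, fun x hx => ?_, ?_⟩
  · obtain ⟨x, _, rfl⟩ := List.mem_map.1 hb
    exact ⟨_, _, by rw [hB], by rw [hB]⟩
  · obtain ⟨y, hy, hxy⟩ := mem_iUnion₂.1 (h3 hx)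
    exact ⟨B y, List.mem_map_of_mem (Finset.mem_toList.2 hy), hxy⟩
  · rintro y ⟨b, hb, hy⟩
    obtain ⟨x, hx, rfl⟩ := List.mem_map.1 hb
    refine h1 (Metric.mem_cthickening_of_dist_le y x _ _ (ht x (Finset.mem_toList.1 hx)) ?_)
    refine (dist_pi_le_iff hε.le).2 fun i => ?_
    obtain ⟨a1, a2, a3⟩ := h2 x i
    have a4 := hy.1 i
    have a5 := hy.2 i
    rw [Real.dist_eq, abs_le]
    exact ⟨by linarith, by linarith⟩

lemma boxl_ok {τ τ' : E4 → E4 → R} {N : Set E4} (hg : Good τ τ' N) (hN : N ⊆ Metric.ball 0 1)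
    {A A' K K' : Set E4} (hK : K ⊆ N) (h1 : Aᶜ ⊆ K') (h2 : A'ᶜ ⊆ K) :
    POK τ τ' (Out 4) A A' K K' := by
  refine ⟨fun x hx => ?_, compl_subset_iff_union.1 h1, compl_subset_iff_union.1 h2,
    hg.coc.mono hK, hg.coc'.mono hK, fun x hx => hg.mu x (hK hx)⟩
  by_contra hx'
  exact absurd (mem_ball_zero_iff.1 (hN (hK (h2 hx')))) (not_lt.2 hx)

lemma ok_list {τ τ' : E4 → E4 → R} {N : Set E4} (hg : Good τ τ' N) (hN : N ⊆ Metric.ball 0 1)
    {L : List (E4 × E4)} (hL : KL L ⊆ N) : POK τ τ' (Out 4) univ (UL L)ᶜ (KL L) ∅ := by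
  exact boxl_ok hg hN hL (by simp) (by rw [compl_compl]; exact UL_subset L)

/-- intersection of two boxes -/
def boxl_meet (b c : E4 × E4) : E4 × E4 := (b.1 ⊔ c.1, b.2 ⊓ c.2)

lemma boxl_UL_meet (b : E4 × E4) (L : List (E4 × E4)) :
    UL (L.map (boxl_meet b)) = Ub b ∩ UL L := by
  induction L with
  | nil => rw [List.map_nil, boxl_UL_nil, inter_empty]
  | cons c L ih =>
    rw [List.map_cons, boxl_UL_cons, boxl_UL_cons, ih, inter_union_distrib_left]
    congr 1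
    ext x
    simp only [Ub, boxl_meet, mem_ofPred_eq, mem_inter_iff, Pi.sup_apply, Pi.inf_apply,
      sup_lt_iff, lt_inf_iff, forall_and]
    tauto

lemma boxl_KL_meet (b : E4 × E4) (L : List (E4 × E4)) :
    KL (L.map (boxl_meet b)) = Kb b ∩ KL L := by
  induction L with
  | nil => rw [List.map_nil, boxl_KL_nil, inter_empty]
  | cons c L ih =>
    rw [List.map_cons, boxl_KL_cons, boxl_KL_cons, ih, inter_union_distrib_left]
    congr 1
    exact Icc_inter_Icc.symm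

lemma boxl_fam_meet {δ : ℝ} {b c : E4 × E4} (hb : Fam δ b) (hc : Fam δ c) :
    Fam δ (boxl_meet b c) := by
  intro i
  obtain ⟨p, q, h1, h2⟩ := hb i
  obtain ⟨p', q', h3, h4⟩ := hc i
  have e1 : ∃ r : ℤ, b.1 i ⊔ c.1 i = δ * r - δ / 3 := by
    rcases max_choice (b.1 i) (c.1 i) with h | h
    · exact ⟨p, h.trans h1⟩
    · exact ⟨p', h.trans h3⟩
  have e2 : ∃ r : ℤ, b.2 i ⊓ c.2 i = δ * r + δ / 3 := by
    rcases min_choice (b.2 i) (c.2 i) with h | h
    · exact ⟨q, h.trans h2⟩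
    · exact ⟨q', h.trans h4⟩
  obtain ⟨r, hr⟩ := e1
  obtain ⟨r', hr'⟩ := e2
  exact ⟨r, r', hr, hr'⟩

lemma boxl_strict {δ : ℝ} (hδ : 0 < δ) {b : E4 × E4} (hb : Fam δ b) (h : b.1 ≤ b.2) (i : Fin 4) :
    b.1 i < b.2 i := by
  obtain ⟨p, q, h1, h2⟩ := hb i
  refine lt_of_le_of_ne (h i) fun e => ?_
  have e1 : ((3 * p : ℤ) : ℝ) = ((3 * q + 2 : ℤ) : ℝ) := by
    refine mul_left_cancel₀ hδ.ne' ?_
    push_cast
    linarith
  have e2 := Int.cast_injective e1
  omega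

lemma boxl_ind {N : Set E4} {δ : ℝ} (hδ : 0 < δ) {P : Set E4 → Set E4 → Prop}
    (box : ∀ b : E4 × E4, (b.1 ≤ b.2 → ∀ i, b.1 i < b.2 i) → Kb b ⊆ N → P (Ub b) (Kb b))
    (step : ∀ U K U' K' : Set E4, IsOpen U → IsOpen U' → IsClosed K → IsClosed K' → U ⊆ K →
      U' ⊆ K' → K ⊆ N → K' ⊆ N → P U K → P U' K' → P (U ∩ U') (K ∩ K') → P (U ∪ U') (K ∪ K'))
    (n : ℕ) : ∀ L : List (E4 × E4), L.length = n → (∀ b ∈ L, Fam δ b) → KL L ⊆ N →
      P (UL L) (KL L) := by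
  induction n with
  | zero =>
    intro L hL _ _
    obtain rfl := List.length_eq_zero_iff.1 hL
    have h1 : ¬ (1 : E4) ≤ 0 := fun h => absurd (h 0) (by norm_num)
    have h2 : Kb (1, 0) = ∅ := Icc_eq_empty h1
    have h3 : Ub (1, 0) = ∅ := subset_empty_iff.1 (h2 ▸ boxl_sub _)
    have h4 := box (1, 0) (fun h => absurd h h1) (h2 ▸ empty_subset _)
    rw [boxl_UL_nil, boxl_KL_nil]
    rwa [h2, h3] at h4
  | succ n ih =>
    intro L hL hF hK
    obtain ⟨b, L, rfl⟩ := List.exists_cons_of_length_eq_add_one hL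
    rw [boxl_KL_cons, union_subset_iff] at hK
    have hL' : L.length = n := by simpa using hL
    have hb := hF b List.mem_cons_self
    have hF' : ∀ c ∈ L, Fam δ c := fun c hc => hF c (List.mem_cons_of_mem _ hc)
    rw [boxl_UL_cons, boxl_KL_cons]
    refine step _ _ _ _ (boxl_open b) (isOpen_UL L) isClosed_Icc (isCompact_KL L).isClosed
      (boxl_sub b) (UL_subset L) hK.1 hK.2 (box b (boxl_strict hδ hb) hK.1) (ih L hL' hF' hK.2) ?_
    rw [← boxl_UL_meet, ← boxl_KL_meet]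
    refine ih _ (by rw [List.length_map, hL']) (fun c hc => ?_) ?_
    · obtain ⟨c', hc', rfl⟩ := List.mem_map.1 hc
      exact boxl_fam_meet hb (hF' c' hc')
    · rw [boxl_KL_meet]
      exact inter_subset_left.trans hK.1

section
variable [IsNoetherianRing R] {τ : E4 → E4 → R} {F F' F'' : Set E4}

lemma boxl_mid (hτ : Coc τ (F \ F'')) (h : F' ⊆ F) (h' : F'' ⊆ F') (h1 : FG τ F F')
    (h2 : FG τ F' F'') : FG τ F F'' := fun k => by
  have := h1 k
  have := h2 k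
  exact finite_of_exact (exact_res_res k hτ h h')

lemma boxl_right (hτ : Coc τ (F \ F'')) (h : F' ⊆ F) (h' : F'' ⊆ F') (h1 : FG τ F F'')
    (h2 : FG τ F F') : FG τ F' F'' := fun k => by
  have := h1 k
  have := h2 (k + 1)
  exact finite_of_exact (exact_res_del k hτ h h')

lemma boxl_left (hτ : Coc τ (F \ F'')) (h : F' ⊆ F) (h' : F'' ⊆ F') (h1 : FG τ F' F'')
    (h2 : FG τ F F'') : FG τ F F' := fun k => by
  cases k with
  | zero =>
    have := h2 0
    exact Module.Finite.of_injective _ (res_zero_inj h')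
  | succ k =>
    have := h1 k
    have := h2 (k + 1)
    exact finite_of_exact (exact_del_res k hτ h h')

omit [IsNoetherianRing R] in
lemma boxl_exc {A B U I : Set E4} (hA : IsClosed A) (hB : IsClosed B) (hU : U = A ∪ B)
    (hI : I = A ∩ B) : FG τ U B ↔ FG τ A I :=
  forall_congr' fun k => Module.Finite.equiv_iff (LinearEquiv.ofBijective _
    (exc_bij k hA hB hU hI (hU ▸ subset_union_left) (hI ▸ inter_subset_right)))

end

theorem list_fg [IsNoetherianRing R] {τ τ' : E4 → E4 → R} {N : Set E4} (hg : Good τ τ' N)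
    (hN : N ⊆ Metric.ball 0 1) {δ : ℝ} (hδ : 0 < δ) (L : List (E4 × E4)) (hF : ∀ b ∈ L, Fam δ b)
    (hL : KL L ⊆ N) : FG τ univ (UL L)ᶜ ∧ FG τ (KL L) ∅ := by
  refine boxl_ind (P := fun U K => FG τ univ Uᶜ ∧ FG τ K ∅) hδ (fun b h1 h2 => ?_)
    (fun U K U' K' oU oU' cK cK' s s' hK hK' p1 p2 p3 => ⟨?_, ?_⟩) _ L rfl hF hL
  · exact box_fg h1 (h2.trans hN) (hg.triv _ h2 isCompact_Icc (convex_Icc _ _))
  · refine boxl_mid (hg.coc.mono fun x hx => ?_) (subset_univ _)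
      (compl_subset_compl.2 subset_union_right) p2.1 ?_
    · exact union_subset (s.trans hK) (s'.trans hK') (not_not.1 hx.2)
    · refine (boxl_exc (U := (U ∩ U')ᶜ) oU'.isClosed_compl oU.isClosed_compl
        (by rw [compl_inter, union_comm]) (by rw [compl_union, inter_comm])).1 ?_
      exact boxl_right (hg.coc.mono fun x hx => hK (s (not_not.1 hx.2))) (subset_univ _)
        (compl_subset_compl.2 inter_subset_left) p1.1 p3.1
  · refine boxl_mid (hg.coc.mono fun x hx => union_subset hK hK' hx.1) subset_union_right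
      (empty_subset _) ?_ p2.2
    exact (boxl_exc cK cK' rfl rfl).2 (boxl_left (hg.coc.mono fun x hx => hK hx.1)
      inter_subset_left (empty_subset _) p3.2 p1.2)

theorem list_dual {k : Type} [Field k] {τ τ' : E4 → E4 → k} {N : Set E4} (hg : Good τ τ' N)
    (hN : N ⊆ Metric.ball 0 1) {δ : ℝ} (hδ : 0 < δ) (L : List (E4 × E4)) (hF : ∀ b ∈ L, Fam δ b)
    (hL : KL L ⊆ N) : Dual (ok_list hg hN hL) := by
  refine boxl_ind (P := fun U K => ∀ ok : POK τ τ' (Out 4) univ Uᶜ K ∅, Dual ok) hδ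
    (fun b h1 h2 ok => ?_) (fun U K U' K' oU oU' cK cK' s s' hK hK' p1 p2 p3 ok => ?_)
    _ L rfl hF hL _
  · exact box_dual h1 (h2.trans hN) (hg.triv _ h2 isCompact_Icc (convex_Icc _ _)) ok
  · have e : ∀ {V W : Set E4}, V ⊆ W → Vᶜᶜ ⊆ W := fun h => by rwa [compl_compl]
    have e0 : (univ : Set E4)ᶜ ⊆ ∅ := by simp
    have d1 := dual_rel (compl_subset_compl.2 inter_subset_left) inter_subset_left
      (boxl_ok hg hN hK (e (inter_subset_inter s s')) (e s))
      (p3 (boxl_ok hg hN (inter_subset_left.trans hK) e0 (e (inter_subset_inter s s'))))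
      (p1 (boxl_ok hg hN hK e0 (e s)))
    have e1 : (U ∩ U')ᶜ = U'ᶜ ∪ Uᶜ := by rw [compl_inter, union_comm]
    have e2 : U'ᶜ ∩ Uᶜ = (U ∪ U')ᶜ := by rw [compl_union, inter_comm]
    have d2 := dual_exc oU'.isClosed_compl oU.isClosed_compl cK cK'
      (boxl_ok hg hN (union_subset hK hK') (e s') (by rw [e2]; exact e (union_subset_union s s')))
      (d1.congr (boxl_ok hg hN hK (by rw [← e1]; exact e (inter_subset_inter s s')) (e s))
        e1 rfl rfl rfl)
    exact dual_mid (compl_subset_compl.2 subset_union_right) subset_union_right ok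
      (p2 (boxl_ok hg hN hK' e0 (e s')))
      (d2.congr (boxl_ok hg hN (union_subset hK hK') (e s') (e (union_subset_union s s')))
        rfl e2 rfl rfl)

end Pool.Agent.P.MP_3d25f3_gt
end

-- part Pool.Agent.P.MP_3d25f3_gt.Push
section

set_option autoImplicit false

open Set Filter Topology

namespace Pool.Agent.P.MP_3d25f3_gt

/-- `X` and `Y` are opposite half spaces near each common point -/
def Sided {Z : Type} [TopologicalSpace Z] (X Y : Set Z) : Prop :=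
  ∀ x ∈ X ∩ Y, ∃ φ : OpenPartialHomeomorph Z E4, x ∈ φ.source ∧
    ∀ y ∈ φ.source, (y ∈ X ↔ 0 ≤ φ y 0) ∧ (y ∈ Y ↔ φ y 0 ≤ 0)

lemma Sided.symm {Z : Type} [TopologicalSpace Z] {X Y : Set Z} (h : Sided X Y) : Sided Y X := by
  intro x hx
  obtain ⟨φ, hφ, h'⟩ := h x ⟨hx.2, hx.1⟩
  refine ⟨φ.transHomeomorph (Homeomorph.neg E4), hφ, fun y hy => ?_⟩
  have h1 := h' y hy
  have h2 : (φ.transHomeomorph (Homeomorph.neg E4)) y 0 = - φ y 0 := rfl
  rw [h2, neg_nonneg, neg_nonpos]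
  exact ⟨h1.2, h1.1⟩

/-- one local push -/
lemma push_loc {X Y : Set E4} (hs : Sided X Y) {x : E4} (hx : x ∈ X ∩ Y) :
    ∃ h : E4 → ℝ → E4, Continuous (Function.uncurry h) ∧ (∀ y, h y 0 = y) ∧
      (∀ y ∈ X, ∀ s ∈ Icc (0 : ℝ) 1, h y s = y ∨ (h y s ∈ X ∧ h y s ∉ Y)) ∧
      ∀ᶠ y in 𝓝 x, y ∈ X → ∀ s ∈ Ioc (0 : ℝ) 1, h y s ∉ Y := by
  classical
  obtain ⟨φ, hφ, h'⟩ := hs x hx
  obtain ⟨r, hr, hb⟩ : ∃ r > 0, Metric.closedBall (φ x) r ⊆ φ.target :=
    Metric.nhds_basis_closedBall.mem_iff.1 (φ.open_target.mem_nhds (φ.map_source hφ))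
  obtain ⟨c, hc⟩ : ∃ c : E4 → ℝ → ℝ, ∀ z s, c z s = max 0 (min s 1) * max 0 (r - dist z (φ x)) :=
    ⟨_, fun _ _ => rfl⟩
  have c0 : ∀ z s, 0 ≤ c z s := fun z s => by
    rw [hc]
    exact mul_nonneg (le_max_left _ _) (le_max_left _ _)
  have cfar : ∀ z s, r ≤ dist z (φ x) → c z s = 0 := fun z s h => by
    rw [hc, max_eq_left (show r - dist z (φ x) ≤ 0 by linarith), mul_zero]
  have ccont : Continuous fun q : E4 × ℝ => c q.1 q.2 := by
    simp only [hc]
    fun_prop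
  obtain ⟨g, hg⟩ : ∃ g : E4 → ℝ → E4, ∀ z s, g z s = z + c z s • (Pi.single 0 1 : E4) :=
    ⟨_, fun _ _ => rfl⟩
  have gcont : Continuous fun q : E4 × ℝ => g q.1 q.2 := by
    simp only [hg]
    exact continuous_fst.add (ccont.smul continuous_const)
  have gz : ∀ z s, c z s = 0 → g z s = z := fun z s h => by rw [hg, h, zero_smul, add_zero]
  have g0 : ∀ z s, g z s 0 = z 0 + c z s := fun z s => by
    rw [hg]
    simp
  have gt : ∀ z ∈ φ.target, ∀ s, g z s ∈ φ.target := by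
    intro z hz s
    by_cases h : r ≤ dist z (φ x)
    · rw [gz z s (cfar z s h)]
      exact hz
    · apply hb
      have h1 : c z s ≤ r - dist z (φ x) := by
        rw [hc, max_eq_right (show 0 ≤ r - dist z (φ x) by linarith [not_le.1 h])]
        refine mul_le_of_le_one_left (by linarith [not_le.1 h]) ?_
        exact max_le zero_le_one (min_le_right _ _)
      have h2 : dist (g z s) z = c z s := by
        rw [hg, dist_eq_norm, add_sub_cancel_left, norm_smul, Pi.norm_single, norm_one, mul_one,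
          Real.norm_of_nonneg (c0 z s)]
      rw [Metric.mem_closedBall]
      linarith [dist_triangle (g z s) z (φ x)]
  obtain ⟨h, hh⟩ : ∃ h : E4 → ℝ → E4, ∀ y s,
      h y s = if y ∈ φ.source then φ.symm (g (φ y) s) else y := ⟨_, fun _ _ => rfl⟩
  have hfix : ∀ y s, (y ∈ φ.source → c (φ y) s = 0) → h y s = y := by
    intro y s hy
    rw [hh]
    split_ifs with h1
    · rw [gz _ _ (hy h1), φ.left_inv h1]
    · rfl
  have hmov : ∀ y ∈ X, y ∈ φ.source → ∀ s, c (φ y) s ≠ 0 → h y s ∈ X ∧ h y s ∉ Y := by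
    intro y hy h1 s h2
    have h3 := gt _ (φ.map_source h1) s
    have h4 := h' _ (φ.map_target h3)
    have h5 := (h' y h1).1.1 hy
    have h6 := lt_of_le_of_ne (c0 (φ y) s) (Ne.symm h2)
    rw [φ.right_inv h3, g0] at h4
    rw [hh, if_pos h1, h4.1, h4.2]
    constructor
    · linarith
    · rw [not_le]
      linarith
  refine ⟨h, ?_, fun y => hfix y 0 fun _ => by rw [hc]; simp, ?_, ?_⟩
  · rw [continuous_iff_continuousAt]
    rintro ⟨y, s⟩
    by_cases hy : y ∈ φ.source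
    · have h1 : ContinuousAt (fun q : E4 × ℝ => (φ q.1, q.2)) (y, s) :=
        (ContinuousAt.comp (f := Prod.fst) (x := (y, s)) (φ.continuousAt hy)
          continuousAt_fst).prodMk continuousAt_snd
      have h2 : ContinuousAt (fun q : E4 × ℝ => g (φ q.1) q.2) (y, s) :=
        ContinuousAt.comp (f := fun q : E4 × ℝ => (φ q.1, q.2)) gcont.continuousAt h1
      have h3 : ContinuousAt (fun q : E4 × ℝ => φ.symm (g (φ q.1) q.2)) (y, s) :=
        ContinuousAt.comp (f := fun q : E4 × ℝ => g (φ q.1) q.2)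
          (φ.continuousAt_symm (gt _ (φ.map_source hy) s)) h2
      refine h3.congr ?_
      have h4 : ∀ᶠ q : E4 × ℝ in 𝓝 (y, s), q.1 ∈ φ.source :=
        continuousAt_fst.eventually (φ.open_source.mem_nhds hy)
      filter_upwards [h4] with q hq
      show _ = h q.1 q.2
      rw [hh, if_pos hq]
    · have hK : IsCompact (φ.symm '' Metric.closedBall (φ x) r) :=
        (isCompact_closedBall _ _).image_of_continuousOn (φ.continuousOn_symm.mono hb)
      have h1 : y ∈ (φ.symm '' Metric.closedBall (φ x) r)ᶜ := by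
        rintro ⟨z, hz, rfl⟩
        exact hy (φ.map_target (hb hz))
      have h4 : ∀ᶠ q : E4 × ℝ in 𝓝 (y, s), q.1 ∈ (φ.symm '' Metric.closedBall (φ x) r)ᶜ :=
        continuousAt_fst.eventually (hK.isClosed.isOpen_compl.mem_nhds h1)
      refine continuousAt_fst.congr ?_
      filter_upwards [h4] with q hq
      show _ = h q.1 q.2
      refine (hfix _ _ fun h2 => cfar _ _ ?_).symm
      by_contra h3
      exact hq ⟨φ q.1, Metric.mem_closedBall.2 (not_le.1 h3).le, φ.left_inv h2⟩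
  · intro y hy s _
    by_cases h1 : y ∈ φ.source
    · by_cases h2 : c (φ y) s = 0
      · exact Or.inl (hfix y s fun _ => h2)
      · exact Or.inr (hmov y hy h1 s h2)
    · exact Or.inl (hfix y s fun h => absurd h h1)
  · have h1 : ∀ᶠ y in 𝓝 x, φ y ∈ Metric.ball (φ x) r :=
      (φ.continuousAt hφ).eventually (Metric.ball_mem_nhds _ hr)
    filter_upwards [h1, φ.open_source.mem_nhds hφ] with y h2 h3 hy s hs'
    refine (hmov y hy h3 s ?_).2
    rw [hc]
    refine (mul_pos ?_ ?_).ne'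
    · exact lt_max_of_lt_right (lt_min hs'.1 one_pos)
    · exact lt_max_of_lt_right (sub_pos.2 (Metric.mem_ball.1 h2))

theorem push {X Y : Set E4} (hc : IsCompact (X ∩ Y)) (hs : Sided X Y) {C N : Set E4}
    (hC : IsCompact C) (hN : IsOpen N) (hCN : C ⊆ N) :
    ∃ h : E4 → ℝ → E4, Continuous (Function.uncurry h) ∧ (∀ y, h y 0 = y) ∧
      (∀ y ∈ X, ∀ s ∈ Icc (0 : ℝ) 1, h y s ∈ X) ∧ (∀ y ∈ X, h y 1 ∉ Y) ∧
      ∀ y ∈ C, ∀ s ∈ Icc (0 : ℝ) 1, h y s ∈ N := by
  have key : ∃ h : E4 → ℝ → E4, Continuous (Function.uncurry h) ∧ (∀ y, h y 0 = y) ∧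
      (∀ y ∈ X, ∀ s ∈ Icc (0 : ℝ) 1, h y s = y ∨ (h y s ∈ X ∧ h y s ∉ Y)) ∧
      ∀ y ∈ X ∩ Y, y ∈ X → ∀ s ∈ Ioc (0 : ℝ) 1, h y s ∉ Y := by
    refine hc.induction_on (p := fun S => ∃ h : E4 → ℝ → E4, Continuous (Function.uncurry h) ∧
      (∀ y, h y 0 = y) ∧
      (∀ y ∈ X, ∀ s ∈ Icc (0 : ℝ) 1, h y s = y ∨ (h y s ∈ X ∧ h y s ∉ Y)) ∧
      ∀ y ∈ S, y ∈ X → ∀ s ∈ Ioc (0 : ℝ) 1, h y s ∉ Y) ?_ ?_ ?_ ?_
    · exact ⟨fun y _ => y, continuous_fst, fun _ => rfl, fun _ _ _ _ => Or.inl rfl,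
        fun _ h => absurd h (notMem_empty _)⟩
    · rintro S T hST ⟨h, h1, h2, h3, h4⟩
      exact ⟨h, h1, h2, h3, fun y hy => h4 y (hST hy)⟩
    · rintro S T ⟨h, h1, h2, h3, h4⟩ ⟨k, k1, k2, k3, k4⟩
      have hk : ∀ z ∈ X, z ∉ Y → ∀ s ∈ Icc (0 : ℝ) 1, k z s ∈ X ∧ k z s ∉ Y := by
        intro z hz hz' s hs'
        rcases k3 z hz s hs' with h5 | h5
        · rw [h5]
          exact ⟨hz, hz'⟩
        · exact h5
      refine ⟨fun y s => k (h y s) s, k1.comp (h1.prodMk continuous_snd), fun y => ?_, ?_, ?_⟩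
      · show k (h y 0) 0 = y
        rw [k2, h2]
      · intro y hy s hs'
        show k (h y s) s = y ∨ (k (h y s) s ∈ X ∧ k (h y s) s ∉ Y)
        rcases h3 y hy s hs' with h5 | h5
        · rw [h5]
          exact k3 y hy s hs'
        · exact Or.inr (hk _ h5.1 h5.2 s hs')
      · intro y hy hX s hs'
        show k (h y s) s ∉ Y
        have hs2 : s ∈ Icc (0 : ℝ) 1 := Ioc_subset_Icc_self hs'
        rcases h3 y hX s hs2 with h5 | h5
        · rcases hy with hy | hy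
          · have h6 := h4 y hy hX s hs'
            rw [h5] at h6 ⊢
            exact (hk y hX h6 s hs2).2
          · rw [h5]
            exact k4 y hy hX s hs'
        · exact (hk _ h5.1 h5.2 s hs2).2
    · intro x hx
      obtain ⟨h, h1, h2, h3, h4⟩ := push_loc hs hx
      exact ⟨_, mem_nhdsWithin_of_mem_nhds h4, h, h1, h2, h3, fun y hy => hy⟩
  obtain ⟨h, h1, h2, h3, h4⟩ := key
  obtain ⟨u, v, _, hv, hu', hv', huv⟩ := generalized_tube_lemma hC
    (isCompact_singleton (x := (0 : ℝ))) (hN.preimage h1) (by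
      rintro ⟨y, s⟩ ⟨hy, rfl⟩
      show h y 0 ∈ N
      rw [h2]
      exact hCN hy)
  obtain ⟨ε, hε, hb⟩ := Metric.nhds_basis_closedBall.mem_iff.1 (hv.mem_nhds (hv' rfl))
  have a0 : 0 < min ε 1 := lt_min hε one_pos
  have hm : ∀ s ∈ Icc (0 : ℝ) 1, 0 ≤ min ε 1 * s ∧ min ε 1 * s ≤ min ε 1 := fun s hs' =>
    ⟨mul_nonneg a0.le hs'.1, mul_le_of_le_one_right a0.le hs'.2⟩
  refine ⟨fun y s => h y (min ε 1 * s),
    h1.comp (continuous_fst.prodMk (continuous_const.mul continuous_snd)), fun y => ?_, ?_, ?_, ?_⟩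
  · show h y (min ε 1 * 0) = y
    rw [mul_zero, h2]
  · intro y hy s hs'
    show h y (min ε 1 * s) ∈ X
    rcases h3 y hy _ ⟨(hm s hs').1, (hm s hs').2.trans (min_le_right _ _)⟩ with h5 | h5
    · rw [h5]
      exact hy
    · exact h5.1
  · intro y hy
    show h y (min ε 1 * 1) ∉ Y
    rw [mul_one]
    by_cases hY : y ∈ Y
    · exact h4 y ⟨hy, hY⟩ hy _ ⟨a0, min_le_right _ _⟩
    · rcases h3 y hy _ ⟨a0.le, min_le_right _ _⟩ with h5 | h5
      · rw [h5]
        exact hY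
      · exact h5.2
  · intro y hy s hs'
    have h5 : (y, min ε 1 * s) ∈ u ×ˢ v := by
      refine ⟨hu' hy, hb ?_⟩
      rw [mem_closedBall_zero_iff, Real.norm_of_nonneg (hm s hs').1]
      exact (hm s hs').2.trans (min_le_left _ _)
    exact huv h5

/-- a compact side `X` and its closed complement `Y` -/
structure XY (X Y : Set E4) : Prop where
  cX : IsClosed X
  cY : IsClosed Y
  cover : X ∪ Y = univ
  ball : X ⊆ Metric.ball 0 1
  sided : Sided X Y

lemma XY.compact {X Y : Set E4} (h : XY X Y) : IsCompact X :=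
  Metric.isCompact_of_isClosed_isBounded h.cX (Metric.isBounded_ball.subset h.ball)

lemma XY.out {X Y : Set E4} (h : XY X Y) : Out 4 ⊆ Y := fun x hx =>
  (h.cover.ge (mem_univ x)).resolve_left fun hX =>
    absurd (mem_ball_zero_iff.1 (h.ball hX)) (not_lt.2 hx)

end Pool.Agent.P.MP_3d25f3_gt
end

-- part Pool.Agent.P.MP_3d25f3_gt.Dua
section

set_option autoImplicit false

open Set Filter Topology

namespace Pool.Agent.P.MP_3d25f3_gt

variable {R : Type} [CommRing R] {τ τ' : E4 → E4 → R} {X Y N : Set E4}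

lemma XY.ok (h : XY X Y) (hg : Good τ τ' N) (hN : X ⊆ N) : POK τ τ' (Out 4) univ Y X ∅ :=
  ⟨h.out, by simp, by rw [union_comm, h.cover], hg.coc.mono hN, hg.coc'.mono hN,
    fun x hx => hg.mu x (hN hx)⟩

/-- inner approximation -/
lemma XY.inner (h : XY X Y) : ∃ δ > 0, ∃ L : List (E4 × E4), (∀ b ∈ L, Fam δ b) ∧ KL L ⊆ Yᶜ ∧
    ∀ (R : Type) [CommRing R] (τ : E4 → E4 → R), Coc τ X →
      ∀ k, ∀ c ∈ Zc τ k X ∅, c ∈ Bc τ k (KL L) ∅ → c ∈ Bc τ k X ∅ := by
  obtain ⟨g, hg, h0, h1, h2, -⟩ := push (h.compact.inter_right h.cY) h.sided (C := ∅) (N := univ)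
    isCompact_empty isOpen_univ (empty_subset _)
  have hf : Continuous fun x => g x 1 := hg.comp (continuous_id.prodMk continuous_const)
  obtain ⟨δ, hδ, L, hF, hU, hK⟩ := exists_boxes (h.compact.image hf) h.cY.isOpen_compl
    (by rintro _ ⟨x, hx, rfl⟩; exact h2 x hx)
  refine ⟨δ, hδ, L, hF, hK, fun R _ τ hτ k c hc hb => ?_⟩
  refine hi_van_id h.compact isCompact_empty (empty_subset _) hg h0 hτ h1
    (fun _ hx => hx.elim) hc ?_
  exact pull_Bc (Itw_comp τ _ X) (fun _ _ => hf.continuousAt) (empty_subset _)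
    (fun x hx => UL_subset L (hU ⟨x, hx, rfl⟩)) (mapsTo_empty _ _) hb

/-- outer approximation -/
lemma XY.outer (h : XY X Y) (ho : IsOpen N) (hN : X ⊆ N) : ∃ δ > 0, ∃ L : List (E4 × E4),
    (∀ b ∈ L, Fam δ b) ∧ X ⊆ UL L ∧ KL L ⊆ N ∧
    ∀ (R : Type) [CommRing R] (τ : E4 → E4 → R), Coc τ N →
      ∀ k, ∀ c ∈ Zc τ k univ Y, c ∈ Bc τ k univ (UL L)ᶜ → c ∈ Bc τ k univ Y := by
  obtain ⟨g, hg, h0, h1, h2, h3⟩ := push (h.compact.inter_left h.cY) h.sided.symm (C := X) (N := N)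
    h.compact ho hN
  have hf : Continuous fun x => g x 1 := hg.comp (continuous_id.prodMk continuous_const)
  have hc : IsCompact (X ∩ Y) := h.compact.inter_right h.cY
  obtain ⟨δ, hδ, L, hF, hU, hK⟩ := exists_boxes h.compact (ho.sdiff (hc.image hf).isClosed)
    (fun x hx => ⟨hN hx, by rintro ⟨y, hy, rfl⟩; exact h2 y hy.2 hx⟩)
  refine ⟨δ, hδ, L, hF, hU, fun x hx => (hK hx).1, fun R _ τ hτ k c hc' hb => ?_⟩
  rw [← h.cover]
  refine exc_inj k h.cX h.cY hc'.1 ?_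
  refine hi_van_id (F := N) (F' := Y) h.compact hc inter_subset_left hg h0 hτ h3
    (fun x hx => h1 x hx.2) (Zc_mono τ k (subset_univ _) subset_rfl hc') ?_
  exact pull_Bc (F' := (UL L)ᶜ) (Itw_comp τ _ X) (fun _ _ => hf.continuousAt) inter_subset_left
    (mapsTo_univ _ _) (fun x hx hx' => (hK (UL_subset L hx')).2 ⟨x, hx, rfl⟩) hb

lemma dua_inj {F F' G G' : Set E4} {k : ℕ} (h : G ⊆ F) (h' : G' ⊆ F')
    (hb : ∀ c ∈ Zc τ k F F', c ∈ Bc τ k G G' → c ∈ Bc τ k F F') :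
    Function.Injective (res τ k h h') := by
  rw [injective_iff_map_eq_zero]
  intro x hx
  obtain ⟨c, hc, rfl⟩ := cl_surj x
  rw [res_cl, cl_eq_zero] at hx
  exact (cl_eq_zero hc).2 (hb c hc hx)

lemma dua_compl (h : XY X Y) : Yᶜ ⊆ X := fun x hx =>
  (h.cover.ge (mem_univ x)).resolve_right hx

lemma dua_compl' (h : XY X Y) {U : Set E4} (hU : X ⊆ U) : Uᶜ ⊆ Y := fun x hx =>
  (h.cover.ge (mem_univ x)).resolve_left fun hX => hx (hU hX)

theorem XY.fg [IsNoetherianRing R] (h : XY X Y) (hg : Good τ τ' N) (hN : X ⊆ N) :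
    FG τ univ Y ∧ FG τ X ∅ := by
  have ho : IsOpen (N ∩ Metric.ball 0 1) := hg.op.inter Metric.isOpen_ball
  have hg' := hg.mono ho inter_subset_left
  have hX : X ⊆ N ∩ Metric.ball 0 1 := subset_inter hN h.ball
  constructor
  · obtain ⟨δ, hδ, L, hF, hU, hK, hb⟩ := h.outer ho hX
    intro k
    have := (list_fg hg' inter_subset_right hδ L hF hK).1 k
    exact Module.Finite.of_injective _
      (dua_inj subset_rfl (dua_compl' h hU) (hb R τ hg'.coc k))
  · obtain ⟨δ, hδ, L, hF, hK, hb⟩ := h.inner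
    intro k
    have := (list_fg hg' inter_subset_right hδ L hF ((hK.trans (dua_compl h)).trans hX)).2 k
    exact Module.Finite.of_injective _
      (dua_inj (hK.trans (dua_compl h)) subset_rfl (hb R τ (hg.coc.mono hN) k))

theorem XY.dual {k : Type} [Field k] {τ τ' : E4 → E4 → k} (h : XY X Y) (hg : Good τ τ' N)
    (hN : X ⊆ N) {i j : ℕ} (hij : i + j = 4) : Function.Bijective (pair (h.ok hg hN) hij) := by
  have ho : IsOpen (N ∩ Metric.ball 0 1) := hg.op.inter Metric.isOpen_ball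
  have hg' := hg.mono ho inter_subset_left
  have hX : X ⊆ N ∩ Metric.ball 0 1 := subset_inter hN h.ball
  have h1 : Function.Injective (pair (h.ok hg hN) hij) := by
    obtain ⟨δ, hδ, L, hF, hU, hK, hb⟩ := h.outer ho hX
    have hd := (list_dual hg' inter_subset_right hδ L hF hK).bij i j hij
    rw [injective_iff_map_eq_zero]
    intro a ha
    refine (injective_iff_map_eq_zero _).1
      (dua_inj subset_rfl (dua_compl' h hU) (hb k τ hg'.coc i)) a ?_
    refine (injective_iff_map_eq_zero _).1 hd.1 _ (LinearMap.ext fun b => ?_)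
    rw [pair_res_res hij (h.ok hg hN) _ subset_rfl (dua_compl' h hU) (hU.trans (UL_subset L))
      subset_rfl, ha]
    rfl
  have h2 : Function.Injective (pair (h.ok hg hN) hij).flip := by
    obtain ⟨δ, hδ, L, hF, hK, hb⟩ := h.inner
    have hKX : KL L ⊆ X := hK.trans (dua_compl h)
    have hd := (list_dual hg' inter_subset_right hδ L hF (hKX.trans hX)).bij i j hij
    rw [injective_iff_map_eq_zero]
    intro b hb'
    refine (injective_iff_map_eq_zero _).1
      (dua_inj hKX subset_rfl (hb k τ' (hg.coc'.mono hN) j)) b ?_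
    refine (Module.forall_dual_apply_eq_zero_iff k _).1 fun φ => ?_
    obtain ⟨a, rfl⟩ := hd.2 φ
    have hY : Y ⊆ (UL L)ᶜ := fun x hx hx' => hK (UL_subset L hx') hx
    rw [← pair_res_res hij _ (h.ok hg hN) subset_rfl hY hKX subset_rfl]
    exact LinearMap.congr_fun hb' _
  have f1 := (h.fg hg hN).1 i
  have f2 := (h.fg hg.symm hN).2 j
  have e1 := LinearMap.finrank_le_finrank_of_injective h1
  have e2 := LinearMap.finrank_le_finrank_of_injective h2
  have e3 : Module.finrank k (H τ' j X ∅ →ₗ[k] k) = Module.finrank k (H τ' j X ∅) :=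
    Subspace.dual_finrank_eq
  have e4 : Module.finrank k (H τ i univ Y →ₗ[k] k) = Module.finrank k (H τ i univ Y) :=
    Subspace.dual_finrank_eq
  exact ⟨h1, (LinearMap.injective_iff_surjective_of_finrank_eq_finrank (by omega)).1 h1⟩

end Pool.Agent.P.MP_3d25f3_gt
end

-- part Pool.Agent.P.MP_3d25f3_gt.XL
section

set_option autoImplicit false

open Set Filter Topology

namespace Pool.Agent.P.MP_3d25f3_gt

open Module

variable {R : Type} [CommRing R] {τ τ' : E4 → E4 → R} {X Y N : Set E4}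

def jm (τ : E4 → E4 → R) (k : ℕ) (X Y : Set E4) : H τ k univ Y →ₗ[R] H τ k X ∅ :=
  res τ k (subset_univ X) (empty_subset Y)

def rm (τ : E4 → E4 → R) (k : ℕ) (X Y : Set E4) : H τ k X ∅ →ₗ[R] H τ k (X ∩ Y) ∅ :=
  res τ k inter_subset_left subset_rfl

/-- connecting map -/
noncomputable def dl (h : XY X Y) (hτ : Coc τ X) (k : ℕ) :
    H τ k (X ∩ Y) ∅ →ₗ[R] H τ (k + 1) univ Y :=
  (LinearEquiv.ofBijective _ (exc_bij (τ := τ) (k + 1) h.cX h.cY h.cover.symm rfl (subset_univ X)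
    inter_subset_right)).symm.toLinearMap ∘ₗ del k (hτ.mono sdiff_subset)

/-- integration over the hypersurface -/
noncomputable def intM (R : Type) [CommRing R] {X Y : Set E4} (h : XY X Y) :
    H (1 : E4 → E4 → R) 3 (X ∩ Y) ∅ →ₗ[R] R :=
  (intg R).toLinearMap ∘ₗ res 1 4 subset_rfl h.out ∘ₗ dl h (Coc_one X) 3

lemma dl_eq (h : XY X Y) (hτ : Coc τ X) {k : ℕ} {v a : List E4 → R} (hv : v ∈ Zc τ k (X ∩ Y) ∅)
    (ha : a ∈ Zc τ (k + 1) univ Y) :
    dl h hτ k (cl v hv) = cl a ha ↔ a - D τ v ∈ Bc τ (k + 1) X (X ∩ Y) := by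
  unfold dl
  rw [LinearMap.comp_apply, LinearEquiv.coe_coe, LinearEquiv.symm_apply_eq,
    LinearEquiv.ofBijective_apply, del_cl, res_cl, eq_comm, cl_eq]

lemma dl_rep (h : XY X Y) (hτ : Coc τ X) {k : ℕ} {v : List E4 → R} (hv : v ∈ Zc τ k (X ∩ Y) ∅) :
    ∃ a ha, a - D τ v ∈ Null R (k + 1) X ∧ dl h hτ k (cl v hv) = cl a ha := by
  have hD : D τ v ∈ Zc τ (k + 1) X (X ∩ Y) :=
    ⟨hv.2, DD_Null (k := k + 1) (F' := ∅) (hτ.mono sdiff_subset) hv.1⟩
  obtain ⟨a, ha, hn⟩ := exc_surj (k + 1) h.cX h.cY hD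
  rw [h.cover] at ha
  have hn' : a - D τ v ∈ Null R (k + 1) X := by
    have := neg_mem hn
    rwa [neg_sub] at this
  exact ⟨a, ha, hn', (dl_eq h hτ hv ha).2 (Null_le_Bc _ _ _ _ hn')⟩

lemma xl_jm_eq (k : ℕ) (z : H τ k univ Y) : jm τ k X Y z
    = res τ k (F := X) (F' := X ∩ Y) subset_rfl (empty_subset _)
      (res τ k (F := univ) (F' := Y) (subset_univ X) inter_subset_right z) := by
  obtain ⟨c, hc, rfl⟩ := cl_surj z
  rfl

lemma exact_jm_rm (h : XY X Y) (hτ : Coc τ X) (k : ℕ) :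
    Function.Exact (jm τ k X Y) (rm τ k X Y) := by
  intro y
  have h1 := exact_res_res (τ := τ) (F := X) (F' := X ∩ Y) (F'' := ∅) k (hτ.mono sdiff_subset)
    inter_subset_left (empty_subset _) y
  refine h1.trans ⟨?_, ?_⟩
  · rintro ⟨x, rfl⟩
    obtain ⟨z, rfl⟩ := (exc_bij (τ := τ) k h.cX h.cY h.cover.symm rfl (subset_univ X)
      inter_subset_right).2 x
    exact ⟨z, xl_jm_eq k z⟩
  · rintro ⟨z, rfl⟩
    exact ⟨_, (xl_jm_eq k z).symm⟩

lemma exact_rm_dl (h : XY X Y) (hτ : Coc τ X) (k : ℕ) :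
    Function.Exact (rm τ k X Y) (dl h hτ k) := by
  intro y
  have h1 := exact_res_del (τ := τ) (F := X) (F' := X ∩ Y) (F'' := ∅) k (hτ.mono sdiff_subset)
    inter_subset_left (empty_subset _) y
  refine Iff.trans ?_ h1
  unfold dl
  rw [LinearMap.comp_apply, LinearEquiv.coe_coe, LinearEquiv.map_eq_zero_iff]

lemma exact_dl_jm (h : XY X Y) (hτ : Coc τ X) (k : ℕ) :
    Function.Exact (dl h hτ k) (jm τ (k + 1) X Y) := by
  intro y
  have h1 := exact_del_res (τ := τ) (F := X) (F' := X ∩ Y) (F'' := ∅) k (hτ.mono sdiff_subset)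
    inter_subset_left (empty_subset _)
    (res τ (k + 1) (F := univ) (F' := Y) (subset_univ X) inter_subset_right y)
  rw [xl_jm_eq]
  refine h1.trans (exists_congr fun x => ?_)
  unfold dl
  rw [LinearMap.comp_apply, LinearEquiv.coe_coe, LinearEquiv.symm_apply_eq,
    LinearEquiv.ofBijective_apply]

lemma fg_inter [IsNoetherianRing R] (h : XY X Y) (hg : Good τ τ' N) (hN : X ⊆ N) :
    FG τ (X ∩ Y) ∅ := by
  intro k
  obtain ⟨h1, h2⟩ := h.fg hg hN
  have := h1 (k + 1)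
  have := h2 k
  exact finite_of_exact (exact_rm_dl h (hg.coc.mono hN) k)

lemma jm_one (h : XY X Y) (k : ℕ) : jm (1 : E4 → E4 → R) (k + 1) X Y = 0 := by
  refine LinearMap.ext fun x => ?_
  obtain ⟨c, hc, rfl⟩ := cl_surj x
  rw [LinearMap.zero_apply, jm, res_cl, cl_eq_zero]
  have h1 := van_convex (τ := (1 : E4 → E4 → R)) k (isCompact_closedBall (0 : E4) 1)
    (convex_closedBall 0 1) (Coc_one _) (Zc_mono _ _ (subset_univ _) (empty_subset Y) hc)
  exact Bc_mono _ _ (h.ball.trans Metric.ball_subset_closedBall) subset_rfl h1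

lemma pair_dl (h : XY X Y) (hg : Good τ τ' N) (hN : X ⊆ N) {i j : ℕ} (hij : i + 1 + j = 4)
    {v b : List E4 → R} (hv : v ∈ Zc τ i (X ∩ Y) ∅) (hb : b ∈ Zc τ' j X ∅)
    (hw : cup τ' i v b ∈ Zc (1 : E4 → E4 → R) 3 (X ∩ Y) ∅) :
    pair (h.ok hg hN) hij (dl h (hg.coc.mono hN) i (cl v hv)) (cl b hb) = intM R h (cl _ hw) := by
  have hτ := hg.coc.mono hN
  have hτ' := hg.coc'.mono hN
  have hm : Mu τ τ' 1 X := fun x hx => hg.mu x (hN hx)
  obtain ⟨a, ha, hn, he⟩ := dl_rep h hτ hv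
  have ok : POK τ τ' Y univ Y X ∅ := ⟨subset_rfl, by simp, by rw [union_comm, h.cover], hτ, hτ', hm⟩
  have hz : cup τ' (i + 1) a b ∈ Zc (1 : E4 → E4 → R) (3 + 1) univ Y := cup_Zc ok hij ha hb
  have h1 := leibniz_Null hτ hτ' hm (p := i) (k := 4) (by omega) v b
  have h2 : cup τ' (i + 1) (a - D τ v) b ∈ Null R 4 X := cup_Null_left τ' (by omega) hn b
  have h3 : cup τ' i v (D τ' b) ∈ Null R 4 X := cup_Null_right τ' (by omega) v hb.2
  have h4 : cup τ' (i + 1) a b = cup τ' (i + 1) (a - D τ v) b + cup τ' (i + 1) (D τ v) b := by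
    rw [← cup_add_left, sub_add_cancel]
  have h5 : cup τ' (i + 1) a b - D 1 (cup τ' i v b) ∈ Null R 4 X := by
    have h6 := sub_mem (sub_mem h2 h1) (Submodule.smul_mem _ ((-1 : R) ^ i) h3)
    have h7 : cup τ' (i + 1) a b - D 1 (cup τ' i v b) = cup τ' (i + 1) (a - D τ v) b
        - (D 1 (cup τ' i v b) - (cup τ' (i + 1) (D τ v) b + (-1 : R) ^ i • cup τ' i v (D τ' b)))
        - (-1 : R) ^ i • cup τ' i v (D τ' b) := by
      rw [h4]
      abel
    rw [h7]
    exact h6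
  have h8 := (dl_eq h (Coc_one X) hw hz).2 (Null_le_Bc _ _ _ _ h5)
  have h9 : pair (h.ok hg hN) hij (dl h (hg.coc.mono hN) i (cl v hv)) (cl b hb)
      = pair (h.ok hg hN) hij (cl a ha) (cl b hb) := by rw [he]
  rw [h9, pair_cl]
  unfold intM
  rw [LinearMap.comp_apply, LinearMap.comp_apply, h8]
  rfl

lemma pair_comm (h : XY X Y) (hg : Good τ τ' N) (hN : X ⊆ N) (a : H τ 2 univ Y)
    (b : H τ' 2 univ Y) : pair (h.ok hg hN) (i := 2) (j := 2) rfl a (jm τ' 2 X Y b)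
      = pair (h.ok hg.symm hN) (i := 2) (j := 2) rfl b (jm τ 2 X Y a) := by
  obtain ⟨a, ha, rfl⟩ := cl_surj a
  obtain ⟨b, hb, rfl⟩ := cl_surj b
  rw [jm, jm, res_cl, res_cl, pair_cl, pair_cl]
  exact congrArg _ ((cl_eq _ _).2 (cup_comm (h.ok hg hN) ha hb))

lemma good_one : Good (1 : E4 → E4 → R) 1 univ :=
  ⟨isOpen_univ, Coc_one _, Coc_one _, fun _ _ => ⟨univ, univ_mem, fun _ _ _ _ => by simp⟩,
    fun K _ _ _ => triv_one K⟩

/-- a class that vanishes on the hypersurface vanishes -/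
lemma rm_one_inj (h : XY X Y) : Function.Injective (rm (1 : E4 → E4 → R) 1 X Y) := by
  rw [injective_iff_map_eq_zero]
  intro y hy
  obtain ⟨x, rfl⟩ := (exact_jm_rm h (Coc_one X) 1 y).1 hy
  have := jm_one (R := R) h 0
  rw [show jm (1 : E4 → E4 → R) 1 X Y = 0 from this, LinearMap.zero_apply]

end Pool.Agent.P.MP_3d25f3_gt
end

-- part Pool.Agent.P.MP_3d25f3_gt.XM
section

set_option autoImplicit false

open Set Filter Topology

namespace Pool.Agent.P.MP_3d25f3_gt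

open Module

variable {X Y N : Set E4} {k : Type} [Field k]

lemma finrank_dual {τ τ' : E4 → E4 → k} (h : XY X Y) (hg : Good τ τ' N) (hN : X ⊆ N) {i j : ℕ}
    (hij : i + j = 4) : finrank k (H τ i univ Y) = finrank k (H τ' j X ∅) := by
  have e := LinearEquiv.ofBijective _ (h.dual hg hN hij)
  rw [e.finrank_eq]
  exact Subspace.dual_finrank_eq

theorem betti_sum (h : XY X Y) : finrank k (H (1 : E4 → E4 → k) 1 X ∅)
    + finrank k (H (1 : E4 → E4 → k) 2 X ∅) = finrank k (H (1 : E4 → E4 → k) 1 (X ∩ Y) ∅) := by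
  have hN : X ⊆ univ := subset_univ X
  have hτ : Coc (1 : E4 → E4 → k) X := Coc_one X
  have := fg_inter h (good_one (R := k)) hN 1
  have h1 := LinearMap.finrank_range_add_finrank_ker (dl h hτ 1)
  have h2 : LinearMap.range (dl h hτ 1) = ⊤ := by
    rw [← (exact_dl_jm h hτ 1).linearMap_ker_eq, jm_one h 1, LinearMap.ker_zero]
  rw [h2, finrank_top, (exact_rm_dl h hτ 1).linearMap_ker_eq,
    LinearMap.finrank_range_of_inj (rm_one_inj h),
    finrank_dual h (good_one (R := k)) hN (i := 1 + 1) (j := 2) rfl] at h1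
  rw [← h1, add_comm]

theorem rank_jm {τ τ' : E4 → E4 → k} (h : XY X Y) (hg : Good τ τ' N) (hN : X ⊆ N) :
    finrank k (LinearMap.range (jm τ 2 X Y)) + finrank k (H τ 1 (X ∩ Y) ∅)
      ≤ finrank k (H τ 1 X ∅) + finrank k (H τ' 2 X ∅) := by
  have hτ : Coc τ X := hg.coc.mono hN
  have := fg_inter h hg hN 1
  have := (h.fg hg hN).1 2
  have := (h.fg hg hN).2 1
  have h1 := LinearMap.finrank_range_add_finrank_ker (dl h hτ 1)
  have h2 := LinearMap.finrank_range_add_finrank_ker (jm τ 2 X Y)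
  have h3 : LinearMap.ker (jm τ 2 X Y) = LinearMap.range (dl h hτ 1) :=
    (exact_dl_jm h hτ 1).linearMap_ker_eq
  rw [(exact_rm_dl h hτ 1).linearMap_ker_eq] at h1
  rw [h3, finrank_dual h hg hN (i := 2) (j := 2) rfl] at h2
  have h4 : finrank k (LinearMap.range (rm τ 1 X Y)) ≤ finrank k (H τ 1 X ∅) :=
    LinearMap.finrank_range_le _
  rw [← h1, ← h2, ← add_assoc, add_comm]
  exact Nat.add_le_add_right h4 _

lemma xm_h0 {Z R : Type} [TopologicalSpace Z] [CommRing R] {K : Set Z} (hK : IsPreconnected K)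
    {c : List Z → R} (hc : c ∈ Zc (1 : Z → Z → R) 0 K ∅) :
    ∃ r : R, c - (fun _ => r) ∈ Null R 0 K := by
  rcases K.eq_empty_or_nonempty with rfl | ⟨x, hx⟩
  · exact ⟨0, by rw [Null_empty]; exact Submodule.mem_top⟩
  · exact ⟨_, h0_const hK hc hx⟩

lemma xm_cup {Z R : Type} [TopologicalSpace Z] [CommRing R] {K : Set Z} {p : ℕ} (v : List Z → R)
    {b : List Z → R} {r : R} (hr : b - (fun _ => r) ∈ Null R 0 K) :
    cup (1 : Z → Z → R) p v b - r • v ∈ Null R p K := by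
  have h1 := cup_Null_right (1 : Z → Z → R) (p := p) (q := 0) (k := p) rfl v hr
  intro x hx
  obtain ⟨U, hU, h2⟩ := h1 x hx
  refine ⟨U, hU, fun l hl hlU => ?_⟩
  have h3 := h2 l hl hlU
  cases l with
  | nil => simp at hl
  | cons y l =>
    have h4 : l.take p = l := List.take_of_length_le (by simpa using hl.le)
    simp only [cup, h4, Pi.sub_apply, Pi.one_apply, one_mul, Pi.smul_apply, smul_eq_mul] at h3 ⊢
    rw [← h3]; ring

lemma xm_h1 (h : XY X Y) (hc : IsPreconnected (X ∩ Y)) (y : H (1 : E4 → E4 → k) 1 univ Y) :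
    y = 0 := by
  have hτ : Coc (1 : E4 → E4 → k) X := Coc_one X
  obtain ⟨w, rfl⟩ := (exact_dl_jm h hτ 0 y).1 (by rw [jm_one h 0, LinearMap.zero_apply])
  refine (exact_rm_dl h hτ 0 w).2 ?_
  obtain ⟨c, hc', rfl⟩ := cl_surj w
  obtain ⟨r, hr⟩ := xm_h0 hc hc'
  refine ⟨cl _ (Submodule.smul_mem _ r (one_mem_Zc X)), ?_⟩
  refine (res_cl 1 0 _ _ _ _).trans ((cl_eq _ _).2 (Null_le_Bc _ _ _ _ ?_))
  have e : (r • fun _ : List E4 => (1 : k)) = fun _ => r := by
    funext l; simp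
  have h2 := neg_mem hr
  rwa [neg_sub, ← e] at h2

lemma xm_h3 (h : XY X Y) (hc : IsPreconnected (X ∩ Y)) (y : H (1 : E4 → E4 → k) 3 X ∅) :
    y = 0 := by
  refine (Module.forall_dual_apply_eq_zero_iff k y).1 fun f => ?_
  obtain ⟨a, rfl⟩ := (h.dual (good_one (R := k)) (subset_univ X) (i := 1) (j := 3) rfl).2 f
  rw [xm_h1 h hc a, map_zero, LinearMap.zero_apply]

theorem intM_inj (h : XY X Y) (hc : IsPreconnected (X ∩ Y)) :
    Function.Injective (intM k h) := by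
  have hN : X ⊆ univ := subset_univ X
  have hτ : Coc (1 : E4 → E4 → k) X := Coc_one X
  have hg := good_one (R := k)
  rw [injective_iff_map_eq_zero]
  intro w hw0
  obtain ⟨v, hv, rfl⟩ := cl_surj w
  have hd : dl h hτ 3 (cl v hv) = 0 := by
    refine (h.dual hg hN (i := 3 + 1) (j := 0) rfl).1 ?_
    rw [map_zero]
    refine LinearMap.ext fun s => ?_
    obtain ⟨b, hb, rfl⟩ := cl_surj s
    have hb' : b ∈ Zc (1 : E4 → E4 → k) 0 (X ∩ Y) ∅ :=
      Zc_mono 1 0 inter_subset_left subset_rfl hb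
    have hm : Mu (1 : E4 → E4 → k) 1 1 (X ∩ Y) := fun x _ => hg.mu x (mem_univ x)
    have hw : cup (1 : E4 → E4 → k) 3 v b ∈ Zc (1 : E4 → E4 → k) 3 (X ∩ Y) ∅ :=
      cup_Zc_abs (Coc_one _) (Coc_one _) hm (p := 3) (q := 0) rfl hv hb'
    obtain ⟨r, hr⟩ := xm_h0 hc hb'
    have e : cl _ hw = r • cl v hv := by
      rw [← cl_smul, cl_eq]
      exact Null_le_Bc _ _ _ _ (xm_cup v hr)
    rw [LinearMap.zero_apply]
    refine (pair_dl h hg hN (i := 3) (j := 0) rfl hv hb hw).trans ?_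
    rw [e, map_smul, hw0, smul_zero]
  obtain ⟨y, hy⟩ := (exact_rm_dl h hτ 3 _).1 hd
  rw [← hy, xm_h3 h hc y, map_zero]

end Pool.Agent.P.MP_3d25f3_gt
end

-- part Pool.Agent.P.MP_3d25f3_gt.Rings
section

set_option autoImplicit false

open Set Filter Topology

namespace Pool.Agent.P.MP_3d25f3_gt

abbrev La : Type := LaurentPolynomial ℂ

instance : IsPrincipalIdealRing La := by
  refine ⟨fun I => ?_⟩
  obtain ⟨f, hf⟩ := (IsPrincipalIdealRing.principal
    (I.under (Polynomial ℂ))).principal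
  refine ⟨algebraMap (Polynomial ℂ) La f, ?_⟩
  rw [← IsLocalization.map_under (Submonoid.powers (Polynomial.X : Polynomial ℂ)) La I, hf]
  exact (Ideal.map_span _ _).trans (by rw [Set.image_singleton])

/-- the variable as a unit -/
noncomputable def tL : Laˣ where
  val := LaurentPolynomial.T 1
  inv := LaurentPolynomial.T (-1)
  val_inv := by rw [← LaurentPolynomial.T_add]; simp
  inv_val := by rw [← LaurentPolynomial.T_add]; simp

noncomputable def evL (ω : ℂˣ) : La →+* ℂ := LaurentPolynomial.eval₂ (RingHom.id ℂ) ω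

noncomputable def sgL : La →+* La :=
  LaurentPolynomial.eval₂ (LaurentPolynomial.C.comp (starRingEnd ℂ)) tL⁻¹

noncomputable def epL (ω : ℂˣ) : La := (tL : La) - LaurentPolynomial.C (ω : ℂ)

/-- the point of the unit circle with angle `θ` -/
noncomputable def cu (θ : ℝ) : ℂˣ :=
  Units.mk0 (Complex.exp (θ * Complex.I)) (Complex.exp_ne_zero _)

lemma norm_cu (θ : ℝ) : ‖(cu θ : ℂ)‖ = 1 := Complex.norm_exp_ofReal_mul_I θ

lemma rings_zpow (n : ℤ) : ((tL ^ n : Laˣ) : La) = LaurentPolynomial.T n := by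
  induction n using Int.induction_on with
  | zero => simp
  | succ k ih => rw [zpow_add_one, Units.val_mul, ih, LaurentPolynomial.T_add]; rfl
  | pred k ih => rw [zpow_sub_one, Units.val_mul, ih, LaurentPolynomial.T_sub]; rfl

lemma rings_evT (ω : ℂˣ) (n : ℤ) : evL ω (LaurentPolynomial.T n) = ((ω ^ n : ℂˣ) : ℂ) :=
  LaurentPolynomial.eval₂_T _ _ n

lemma rings_sgT (n : ℤ) : sgL (LaurentPolynomial.T n) = LaurentPolynomial.T (-n) := by
  rw [sgL, LaurentPolynomial.eval₂_T, inv_zpow', rings_zpow]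

lemma evL_t (ω : ℂˣ) : evL ω tL = ω := by
  exact (rings_evT ω 1).trans (by rw [zpow_one])

lemma evL_t_inv (ω : ℂˣ) : evL ω (tL⁻¹ : Laˣ) = (ω⁻¹ : ℂˣ) := by
  exact (rings_evT ω (-1)).trans (by rw [zpow_neg_one])

lemma evL_C (ω : ℂˣ) (z : ℂ) : evL ω (LaurentPolynomial.C z) = z := by
  exact LaurentPolynomial.eval₂_C _ _ z

lemma sgL_t : sgL tL = (tL⁻¹ : Laˣ) := by
  exact rings_sgT 1

lemma sgL_t_inv : sgL (tL⁻¹ : Laˣ) = tL := by
  exact (rings_sgT (-1)).trans (by rw [neg_neg]; rfl)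

lemma sgL_C (z : ℂ) : sgL (LaurentPolynomial.C z) = LaurentPolynomial.C (starRingEnd ℂ z) := by
  exact LaurentPolynomial.eval₂_C _ _ z

lemma sgL_sgL (r : La) : sgL (sgL r) = r := by
  induction r using LaurentPolynomial.induction_on' with
  | add p q hp hq => rw [map_add, map_add, hp, hq]
  | C_mul_T n a =>
    rw [map_mul, map_mul, sgL_C, sgL_C, rings_sgT, rings_sgT, neg_neg, Complex.conj_conj]

lemma conj_unit {ω : ℂˣ} (h : ‖(ω : ℂ)‖ = 1) : starRingEnd ℂ ω = (ω⁻¹ : ℂˣ) := by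
  rw [Units.val_inv_eq_inv_val, Complex.inv_eq_conj h]

lemma evL_sgL {ω : ℂˣ} (h : ‖(ω : ℂ)‖ = 1) (r : La) : evL ω (sgL r) = starRingEnd ℂ (evL ω r) := by
  induction r using LaurentPolynomial.induction_on' with
  | add p q hp hq => rw [map_add, map_add, hp, hq, map_add, map_add]
  | C_mul_T n a =>
    rw [map_mul, map_mul, sgL_C, rings_sgT, map_mul, map_mul, evL_C, evL_C, rings_evT, rings_evT,
      Units.val_zpow_eq_zpow_val, Units.val_zpow_eq_zpow_val, map_zpow₀, conj_unit h,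
      Units.val_inv_eq_inv_val, inv_zpow']

lemma rings_pow_sub (ω : ℂˣ) (m : ℤ) : ∃ q : La,
    ((tL ^ m : Laˣ) : La) - LaurentPolynomial.C ((ω ^ m : ℂˣ) : ℂ) = epL ω * q ∧
      evL ω q = m * ((ω ^ (m - 1) : ℂˣ) : ℂ) := by
  induction m using Int.induction_on with
  | zero => exact ⟨0, by simp, by simp⟩
  | succ k ih =>
    obtain ⟨q, h1, h2⟩ := ih
    refine ⟨tL * q + LaurentPolynomial.C ((ω ^ (k : ℤ) : ℂˣ) : ℂ), ?_, ?_⟩
    · rw [zpow_add_one, zpow_add_one, Units.val_mul, Units.val_mul, map_mul]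
      rw [epL] at h1 ⊢
      linear_combination (tL : La) * h1
    · rw [map_add, map_mul, h2, evL_t, evL_C, add_sub_cancel_right, zpow_sub_one, Units.val_mul,
        Int.cast_add, Int.cast_one]
      linear_combination (((k : ℤ) : ℂ) * ((ω ^ (k : ℤ) : ℂˣ) : ℂ)) * ω.mul_inv
  | pred k ih =>
    obtain ⟨q, h1, h2⟩ := ih
    refine ⟨(tL⁻¹ : Laˣ) * (q - LaurentPolynomial.C ((ω ^ (-(k : ℤ) - 1) : ℂˣ) : ℂ)), ?_, ?_⟩
    · have e1 : (tL : La) * (tL⁻¹ : Laˣ) = 1 := tL.mul_inv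
      have e2 : LaurentPolynomial.C (ω : ℂ) * LaurentPolynomial.C ((ω⁻¹ : ℂˣ) : ℂ) = (1 : La) := by
        rw [← map_mul, ω.mul_inv, map_one]
      rw [zpow_sub_one, zpow_sub_one, Units.val_mul, Units.val_mul, map_mul]
      rw [epL] at h1 ⊢
      linear_combination ((tL⁻¹ : Laˣ) : La) * h1 +
        (LaurentPolynomial.C ((ω ^ (-(k : ℤ)) : ℂˣ) : ℂ) *
          LaurentPolynomial.C ((ω⁻¹ : ℂˣ) : ℂ)) * e1 -
        (LaurentPolynomial.C ((ω ^ (-(k : ℤ)) : ℂˣ) : ℂ) * ((tL⁻¹ : Laˣ) : La)) * e2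
    · rw [map_mul, map_sub, h2, evL_t_inv, evL_C, zpow_sub_one ω (-(k : ℤ) - 1), Units.val_mul,
        Int.cast_sub, Int.cast_one]
      ring

lemma rings_ev_ep (ω ω' : ℂˣ) : evL ω (epL ω') = ω - ω' := by
  rw [epL, map_sub, evL_t, evL_C]

lemma red_evL (ω : ℂˣ) : Red (evL ω) (epL ω) := by
  have key : ∀ r, epL ω ∣ r - LaurentPolynomial.C (evL ω r) := by
    intro r
    induction r using LaurentPolynomial.induction_on' with
    | add p q hp hq =>
      rw [map_add, map_add, add_sub_add_comm]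
      exact dvd_add hp hq
    | C_mul_T n a =>
      obtain ⟨q, h1, -⟩ := rings_pow_sub ω n
      rw [map_mul, evL_C, rings_evT, map_mul, ← mul_sub, ← rings_zpow, h1]
      exact Dvd.dvd.mul_left (dvd_mul_right _ _) _
  refine ⟨fun z => ⟨_, evL_C ω z⟩, fun r => ⟨fun h => ?_, ?_⟩, fun r h => ?_⟩
  · have := key r
    rwa [h, map_zero, sub_zero] at this
  · rintro ⟨q, rfl⟩
    rw [map_mul, rings_ev_ep, sub_self, zero_mul]
  · refine (mul_eq_zero.1 h).resolve_left fun h0 => ?_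
    have h1 := rings_ev_ep (-ω) ω
    rw [h0, map_zero, Units.val_neg] at h1
    exact ω.ne_zero (by linear_combination (1 / 2 : ℂ) * h1)

lemma sgL_epL {ω : ℂˣ} (h : ‖(ω : ℂ)‖ = 1) :
    sgL (epL ω) = -((tL⁻¹ : Laˣ) * LaurentPolynomial.C ((ω⁻¹ : ℂˣ) : ℂ)) * epL ω := by
  have e1 : (tL : La) * (tL⁻¹ : Laˣ) = 1 := tL.mul_inv
  have e2 : LaurentPolynomial.C (ω : ℂ) * LaurentPolynomial.C ((ω⁻¹ : ℂˣ) : ℂ) = (1 : La) := by
    rw [← map_mul, ω.mul_inv, map_one]
  rw [epL, map_sub, sgL_t, sgL_C, conj_unit h]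
  linear_combination (LaurentPolynomial.C ((ω⁻¹ : ℂˣ) : ℂ)) * e1 - ((tL⁻¹ : Laˣ) : La) * e2

lemma pow_sub_eq (ω : ℂˣ) (m : ℤ) : ∃ q : La,
    ((tL ^ m : Laˣ) : La) - LaurentPolynomial.C ((ω ^ m : ℂˣ) : ℂ) = epL ω * q ∧
      evL ω q = m * ((ω ^ (m - 1) : ℂˣ) : ℂ) := by
  exact rings_pow_sub ω m

lemma rings_cu (θ : ℝ) : HasDerivAt (fun u : ℝ => (cu u : ℂ)) (Complex.I * cu θ) θ := by
  have h1 := ((hasDerivAt_id (θ : ℂ)).mul_const Complex.I).cexp.comp_ofReal
  simp only [id, one_mul] at h1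
  rw [mul_comm]
  exact h1

lemma differentiable_evL (r : La) : Differentiable ℝ fun θ => evL (cu θ) r := by
  induction r using LaurentPolynomial.induction_on' with
  | add p q hp hq =>
    simp only [map_add]
    exact hp.add hq
  | C_mul_T n a =>
    simp only [map_mul, evL_C, rings_evT, Units.val_zpow_eq_zpow_val]
    exact fun θ => (((differentiableAt_zpow.2 (Or.inl (cu θ).ne_zero)).restrictScalars ℝ).comp θ
      (rings_cu θ).differentiableAt).const_mul a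

lemma hasDerivAt_epL (θ : ℝ) (r : La) : HasDerivAt (fun u => evL (cu u) (epL (cu θ) * r))
    (Complex.I * cu θ * evL (cu θ) r) θ := by
  simp only [map_mul, rings_ev_ep]
  have h1 := ((rings_cu θ).sub_const (cu θ : ℂ)).fun_mul (differentiable_evL r θ).hasDerivAt
  rwa [sub_self, zero_mul, add_zero] at h1

lemma cu_pow_eq_one {N : ℕ} (hN : 0 < N) (θ : ℝ) :
    cu θ ^ (N : ℤ) = 1 ↔ ∃ k : ℤ, θ = 2 * Real.pi * k / N := by
  have hN' : (N : ℂ) ≠ 0 := by exact_mod_cast hN.ne'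
  have e : ((cu θ ^ (N : ℤ) : ℂˣ) : ℂ) = Complex.exp (N * (θ * Complex.I)) := by
    rw [zpow_natCast, Units.val_pow_eq_pow_val, Complex.exp_nat_mul]
    rfl
  rw [Units.ext_iff, e, Units.val_one, Complex.exp_eq_one_iff]
  refine exists_congr fun k => ?_
  rw [← Complex.ofReal_inj]
  push_cast
  rw [eq_div_iff hN']
  constructor
  · intro h
    apply mul_right_cancel₀ Complex.I_ne_zero
    linear_combination h
  · intro h
    linear_combination Complex.I * h

/-- a discrete valuation ring inside `ℂ` in which `ω` is congruent to one -/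
theorem exists_ploc {p : ℕ} (hp : p.Prime) {a : ℕ} {ω : ℂˣ} (h : ω ^ p ^ a = 1) :
    ∃ (O κ : Type) (_ : CommRing O) (_ : IsDomain O) (_ : IsPrincipalIdealRing O) (_ : Field κ)
      (φ : O →+* ℂ) (ev : O →+* κ) (w : Oˣ) (π : O), Function.Injective φ ∧ φ w = ω ∧ ev w = 1 ∧
      Red ev π ∧ CharP κ p := by
  have hn : p ^ a ≠ 0 := pow_ne_zero _ hp.ne_zero
  have h' : (ω : ℂ) ^ p ^ a = 1 := by rw [← Units.val_pow_eq_pow_val, h, Units.val_one]
  have hi : IsIntegral ℤ (ω : ℂ) := IsIntegral.of_pow (Nat.pos_of_ne_zero hn)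
    (h' ▸ isIntegral_one)
  let K := IntermediateField.adjoin ℚ {(ω : ℂ)}
  have : FiniteDimensional ℚ K := IntermediateField.adjoin.finiteDimensional hi.tower_top
  have : NumberField K := {}
  let x : K := ⟨ω, IntermediateField.mem_adjoin_simple_self ℚ _⟩
  have hx : x ^ p ^ a = 1 := Subtype.ext h'
  let y : NumberField.RingOfIntegers K :=
    ⟨x, IsIntegral.of_pow (Nat.pos_of_ne_zero hn) (hx ▸ isIntegral_one)⟩
  have hy : y ^ p ^ a = 1 := NumberField.RingOfIntegers.ext hx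
  have : Fact p.Prime := ⟨hp⟩
  have hm : (Ideal.span {(p : ℤ)}).IsMaximal := Int.ideal_span_isMaximal_of_prime p
  obtain ⟨P, hP, hP'⟩ := Ideal.exists_ideal_over_maximal_of_isIntegral
    (S := NumberField.RingOfIntegers K) (Ideal.span {(p : ℤ)})
    (by rw [(RingHom.injective_iff_ker_eq_bot (algebraMap ℤ (NumberField.RingOfIntegers K))).1
          (RingHom.injective_int _)]; exact bot_le)
  have hpP : (p : NumberField.RingOfIntegers K) ∈ P := by
    have h1 : (p : ℤ) ∈ P.comap (algebraMap ℤ _) := hP' ▸ Ideal.mem_span_singleton_self _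
    simpa using h1
  have hP0 : P ≠ ⊥ := fun h0 => by
    rw [h0, Ideal.mem_bot] at hpP
    exact hp.ne_zero (by exact_mod_cast hpP)
  have hD := IsLocalization.AtPrime.isDiscreteValuationRing_of_dedekind_domain
    (NumberField.RingOfIntegers K) hP0 (Localization.AtPrime P)
  let f : NumberField.RingOfIntegers K →+* ℂ := (algebraMap K ℂ).comp (algebraMap _ K)
  have hf : Function.Injective f :=
    (algebraMap K ℂ).injective.comp (NumberField.RingOfIntegers.coe_injective)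
  have hu : ∀ s : P.primeCompl, IsUnit (f s) := fun s => by
    refine IsUnit.mk0 _ fun h0 => s.2 ?_
    rw [(injective_iff_map_eq_zero f).1 hf _ h0]
    exact P.zero_mem
  obtain ⟨π, hπ⟩ := IsDiscreteValuationRing.exists_irreducible (Localization.AtPrime P)
  have hw : algebraMap _ (Localization.AtPrime P) y ^ p ^ a = 1 := by rw [← map_pow, hy, map_one]
  have hc : CharP (IsLocalRing.ResidueField (Localization.AtPrime P)) p := by
    refine (CharP.charP_iff_prime_eq_zero hp).2 ?_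
    rw [← map_natCast (IsLocalRing.residue (Localization.AtPrime P)),
      IsLocalRing.residue_eq_zero_iff,
      ← map_natCast (algebraMap (NumberField.RingOfIntegers K) (Localization.AtPrime P))]
    exact (IsLocalization.AtPrime.to_map_mem_maximal_iff _ P _).2 hpP
  refine ⟨Localization.AtPrime P, IsLocalRing.ResidueField (Localization.AtPrime P), inferInstance,
    inferInstance, inferInstance, inferInstance, IsLocalization.lift hu, IsLocalRing.residue _,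
    Units.ofPowEqOne _ _ hw hn, π, ?_, ?_, ?_, ⟨IsLocalRing.residue_surjective, fun r => ?_,
      fun r hr => (mul_eq_zero.1 hr).resolve_left hπ.ne_zero⟩, hc⟩
  · rw [IsLocalization.lift_injective_iff]
    intro u v
    rw [hf.eq_iff]
    exact (IsLocalization.injective _ P.primeCompl_le_nonZeroDivisors).eq_iff
  · exact IsLocalization.lift_eq hu y
  · rw [← sub_eq_zero, ← pow_eq_zero_iff hn, sub_pow_char_pow, one_pow, ← map_pow]
    rw [Units.val_ofPowEqOne, hw, map_one, sub_self]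
  · rw [IsLocalRing.residue_eq_zero_iff, hπ.maximalIdeal_eq, Ideal.mem_span_singleton]

end Pool.Agent.P.MP_3d25f3_gt
end

-- part Pool.Agent.P.MP_3d25f3_gt.Tc
section

set_option autoImplicit false

open Set Filter Topology

namespace Pool.Agent.P.MP_3d25f3_gt

open Module

variable {R k : Type} [CommRing R] [IsDomain R] [IsPrincipalIdealRing R] [Field k] {ev : R →+* k}
  {ε : R}

/-- image of a semilinear map -/
def imI {R k A a : Type} [CommRing R] [Field k] {ev : R →+* k} [AddCommGroup A] [Module R A]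
    [AddCommGroup a] [Module k a] (red : A →ₛₗ[ev] a) : Submodule k a :=
  Submodule.span k (range red)

/-- image of the torsion -/
def imT {R k A a : Type} [CommRing R] [Field k] {ev : R →+* k} [AddCommGroup A] [Module R A]
    [AddCommGroup a] [Module k a] (red : A →ₛₗ[ev] a) : Submodule k a :=
  Submodule.span k (red '' Submodule.torsion R A)

variable {A A' a a' : Type} [AddCommGroup A] [Module R A] [AddCommGroup A'] [Module R A']
  [AddCommGroup a] [Module k a] [AddCommGroup a'] [Module k a']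

omit [IsDomain R] [IsPrincipalIdealRing R] in
lemma tc_mem_span (hs : Function.Surjective ev) (red : A →ₛₗ[ev] a) (N : Submodule R A) (x : a) :
    x ∈ Submodule.span k (red '' N) ↔ ∃ y ∈ N, x = red y := by
  constructor
  · intro hx
    induction hx using Submodule.span_induction with
    | mem x hx => obtain ⟨y, hy, rfl⟩ := hx; exact ⟨y, hy, rfl⟩
    | zero => exact ⟨0, N.zero_mem, (map_zero red).symm⟩
    | add x y _ _ hx hy =>
      obtain ⟨x, hx, rfl⟩ := hx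
      obtain ⟨y, hy, rfl⟩ := hy
      exact ⟨x + y, N.add_mem hx hy, (map_add red x y).symm⟩
    | smul c x _ hx =>
      obtain ⟨x, hx, rfl⟩ := hx
      obtain ⟨r, rfl⟩ := hs c
      exact ⟨r • x, N.smul_mem r hx, (map_smulₛₗ red r x).symm⟩
  · rintro ⟨y, hy, rfl⟩
    exact Submodule.subset_span ⟨y, hy, rfl⟩

omit [IsDomain R] [IsPrincipalIdealRing R] in
lemma mem_imI (hs : Function.Surjective ev) (red : A →ₛₗ[ev] a) (x : a) :
    x ∈ imI red ↔ ∃ y, x = red y := by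
  have := tc_mem_span hs red ⊤ x
  simpa [imI] using this

omit [IsDomain R] [IsPrincipalIdealRing R] in
lemma mem_imT (hs : Function.Surjective ev) (red : A →ₛₗ[ev] a) (x : a) :
    x ∈ imT red ↔ ∃ y ∈ Submodule.torsion R A, x = red y :=
  tc_mem_span hs red _ x

lemma tc_art {M : Type} [AddCommGroup M] [Module R M] [Module.Finite R M]
    (h : Module.IsTorsion R M) : IsArtinian R M := by
  obtain ⟨d, hd, hd0⟩ := Submodule.annihilator_top_inter_nonZeroDivisors h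
  have ht : Module.IsTorsionBySet R M (Ideal.span {d}) := by
    rw [← Module.isTorsionBySet_iff_is_torsion_by_span, Module.isTorsionBySet_singleton_iff]
    exact fun x => Submodule.mem_annihilator.1 hd x trivial
  let := ht.module
  have : IsScalarTower R (R ⧸ Ideal.span {d}) M := ht.isScalarTower
  have : IsArtinian R (R ⧸ Ideal.span {d}) :=
    (isFiniteLength_iff_isNoetherian_isArtinian.1 (isFiniteLength_quotient_span_singleton R hd0)).2
  have : IsArtinianRing (R ⧸ Ideal.span {d}) := isArtinian_of_tower R inferInstance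
  have : Module.Finite (R ⧸ Ideal.span {d}) M := Module.Finite.of_restrictScalars_finite R _ _
  exact isArtinian_of_surjective_algebraMap (R := R ⧸ Ideal.span {d})
    (Ideal.Quotient.mk_surjective (I := Ideal.span {d}))

omit [IsDomain R] [IsPrincipalIdealRing R] in
lemma tc_len {M P : Type} [AddCommGroup M] [Module R M] [IsArtinian R M] [IsNoetherian R M]
    [AddCommGroup P] [Module R P] (f : M →ₗ[R] M) (g : M →ₗ[R] P) (hg : Function.Surjective g)
    (h : Function.Exact f g) : Module.length R (LinearMap.ker f) = Module.length R P := by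
  have h1 := Module.length_eq_add_of_exact (LinearMap.ker f).subtype f.rangeRestrict
    (Submodule.subtype_injective _) f.surjective_rangeRestrict
    (by rw [LinearMap.exact_iff, LinearMap.ker_rangeRestrict, Submodule.range_subtype])
  have h2 := Module.length_eq_add_of_exact (LinearMap.range f).subtype g
    (Submodule.subtype_injective _) hg
    (by rw [LinearMap.exact_iff, Submodule.range_subtype]; exact LinearMap.exact_iff.1 h)
  rw [h1, add_comm] at h2
  exact WithTop.add_left_cancel Module.length_ne_top h2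

omit [IsDomain R] [IsPrincipalIdealRing R] in
lemma tc_tors_of_smul (hr : Red ev ε) {z : A} (h : ε • z ∈ Submodule.torsion R A) :
    z ∈ Submodule.torsion R A := by
  obtain ⟨c, hc⟩ := h
  have hε : ε ∈ nonZeroDivisors R :=
    mem_nonZeroDivisors_iff.2 ⟨hr.reg, fun r h => hr.reg r (by rw [mul_comm]; exact h)⟩
  refine ⟨c * ⟨ε, hε⟩, ?_⟩
  rw [mul_smul]
  exact hc

/-- torsion count -/
theorem tc (hr : Red ev ε) [Module.Finite R A'] [FiniteDimensional k a] (red : A →ₛₗ[ev] a)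
    (red' : A' →ₛₗ[ev] a') (β : a →+ A') (hs : ∀ r x, β (ev r • x) = r • β x)
    (hk : ∀ x, β x = 0 ↔ ∃ y, x = red y) (hr' : ∀ y, ε • y = 0 ↔ ∃ x, y = β x)
    (hk' : ∀ y, red' y = 0 ↔ ∃ z, y = ε • z) :
    finrank k (imT red') + finrank k (imI red) = finrank k a := by
  let : Algebra R k := ev.toAlgebra
  let : Module R a := Module.compHom a ev
  let : Module R a' := Module.compHom a' ev
  have : IsScalarTower R k a := ⟨fun r c x => mul_smul (ev r) c x⟩
  have : IsScalarTower R k a' := ⟨fun r c x => mul_smul (ev r) c x⟩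
  have hsu : Function.Surjective (algebraMap R k) := hr.surj
  set T := Submodule.torsion R A' with hT
  have : IsNoetherian R T := inferInstance
  have : IsArtinian R T := tc_art Submodule.torsion_isTorsion
  let f : T →ₗ[R] T := ε • LinearMap.id
  let g : T →ₗ[R] imT red' :=
    { toFun := fun t => ⟨red' t, (mem_imT hr.surj red' _).2 ⟨t, t.2, rfl⟩⟩
      map_add' := fun x y => Subtype.ext (map_add red' _ _)
      map_smul' := fun r x => Subtype.ext (map_smulₛₗ red' r _) }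
  have hg : Function.Surjective g := fun x => by
    obtain ⟨y, hy, e⟩ := (mem_imT hr.surj red' _).1 x.2
    exact ⟨⟨y, hy⟩, Subtype.ext e.symm⟩
  have hfg : Function.Exact f g := fun t => by
    constructor
    · intro h
      obtain ⟨z, hz⟩ := (hk' t).1 (congrArg Subtype.val h)
      exact ⟨⟨z, tc_tors_of_smul hr (hz ▸ t.2)⟩, Subtype.ext hz.symm⟩
    · rintro ⟨z, rfl⟩
      exact Subtype.ext ((hk' _).2 ⟨z, rfl⟩)
  have h1 := tc_len f g hg hfg
  have hβ : ∀ x, ε • β x = 0 := fun x => (hr' _).2 ⟨x, rfl⟩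
  let b : a →ₗ[R] LinearMap.ker f :=
    { toFun := fun x => ⟨⟨β x, tc_tors_of_smul hr (by rw [hβ]; exact zero_mem _)⟩,
        Subtype.ext (hβ x)⟩
      map_add' := fun x y => Subtype.ext (Subtype.ext (map_add β x y))
      map_smul' := fun r x => Subtype.ext (Subtype.ext (hs r x)) }
  have hb : Function.Surjective b := fun y => by
    obtain ⟨x, e⟩ := (hr' y.1.1).1 (congrArg Subtype.val y.2)
    exact ⟨x, Subtype.ext (Subtype.ext e.symm)⟩
  have hex : Function.Exact ((imI red).subtype.restrictScalars R) b := fun x => by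
    constructor
    · intro h
      have : β x = 0 := congrArg (fun y : LinearMap.ker f => y.1.1) h
      exact ⟨⟨x, (mem_imI hr.surj red x).2 ((hk x).1 this)⟩, rfl⟩
    · rintro ⟨y, rfl⟩
      exact Subtype.ext (Subtype.ext ((hk _).2 ((mem_imI hr.surj red _).1 y.2)))
  have h2 := Module.length_eq_add_of_exact _ b (Submodule.subtype_injective (imI red)) hb hex
  have : Module.Finite R (imT red') := Module.Finite.of_surjective g hg
  have : Module.Finite k (imT red') := Module.Finite.of_restrictScalars_finite R _ _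
  rw [h1, Module.length_eq_of_surjective hsu, Module.length_eq_of_surjective hsu,
    Module.length_eq_of_surjective hsu, Module.length_eq_finrank, Module.length_eq_finrank,
    Module.length_eq_finrank] at h2
  have h3 : finrank k a = finrank k (imI red) + finrank k (imT red') := by exact_mod_cast h2
  omega

theorem tc_tbasis (R A : Type) [CommRing R] [IsDomain R] [IsPrincipalIdealRing R]
    [AddCommGroup A] [Module R A] [Module.Finite R A] : ∃ (ρ : ℕ) (e : Fin ρ → A),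
    (∀ x, ∃ c : Fin ρ → R, x - ∑ i, c i • e i ∈ Submodule.torsion R A) ∧
    ∀ c : Fin ρ → R, ∑ i, c i • e i ∈ Submodule.torsion R A → c = 0 := by
  set T := Submodule.torsion R A with hT
  let b := Module.finBasis R (A ⧸ T)
  choose e he using fun i => T.mkQ_surjective (b i)
  have hsum : ∀ c : Fin _ → R, T.mkQ (∑ i, c i • e i) = ∑ i, c i • b i := fun c => by
    simp only [map_sum, map_smul, he]
  refine ⟨_, e, fun x => ⟨fun i => b.repr (T.mkQ x) i, ?_⟩, fun c hc => ?_⟩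
  · rw [← Submodule.Quotient.mk_eq_zero, ← Submodule.mkQ_apply, map_sub, hsum, b.sum_repr,
      sub_self]
  · rw [← Submodule.Quotient.mk_eq_zero, ← Submodule.mkQ_apply, hsum] at hc
    exact funext (Fintype.linearIndependent_iff.1 b.linearIndependent c hc)

/-- rank count -/
theorem rk (hr : Red ev ε) [Module.Finite R A] (red : A →ₛₗ[ev] a)
    (hk : ∀ y, red y = 0 ↔ ∃ z, y = ε • z) {φ : R →+* ℂ} (hφ : Function.Injective φ) {x : Type}
    [AddCommGroup x] [Module ℂ x] (u : A →ₛₗ[φ] x) (hu : Submodule.span ℂ (range u) = ⊤) :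
    finrank ℂ x + finrank k (imT red) ≤ finrank k (imI red) := by
  obtain ⟨ρ, e, h1, h2⟩ := tc_tbasis R A
  have hut : ∀ t ∈ Submodule.torsion R A, u t = 0 := by
    rintro t ⟨c, hc⟩
    have h3 : φ c • u t = 0 := by
      rw [← map_smulₛₗ]
      exact (congrArg u hc).trans (map_zero u)
    refine (smul_eq_zero.1 h3).resolve_left fun h4 => ?_
    exact nonZeroDivisors.coe_ne_zero c (hφ (h4.trans (map_zero φ).symm))
  have hx : finrank ℂ x ≤ ρ := by
    have hsp : Submodule.span ℂ (range fun i => u (e i)) = ⊤ := by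
      rw [eq_top_iff, ← hu, Submodule.span_le]
      rintro _ ⟨y, rfl⟩
      obtain ⟨c, hc⟩ := h1 y
      have h3 := hut _ hc
      rw [map_sub, sub_eq_zero, map_sum] at h3
      rw [h3]
      refine Submodule.sum_mem _ fun i _ => ?_
      rw [map_smulₛₗ]
      exact Submodule.smul_mem _ _ (Submodule.subset_span ⟨i, rfl⟩)
    simpa using finrank_le_of_span_eq_top hsp
  have : RingHomSurjective ev := ⟨hr.surj⟩
  let r' : A →ₛₗ[ev] imI red := red.codRestrict _ fun y => (mem_imI hr.surj red _).2 ⟨y, rfl⟩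
  have hr's : Function.Surjective r' := fun y => by
    obtain ⟨z, hz⟩ := (mem_imI hr.surj red _).1 y.2
    exact ⟨z, Subtype.ext hz.symm⟩
  have : Module.Finite k (imI red) := Module.Finite.of_surjective r' hr's
  have hle : imT red ≤ imI red := Submodule.span_mono (image_subset_range _ _)
  have : Module.Finite k (imT red) :=
    Module.Finite.of_injective (Submodule.inclusion hle) (Submodule.inclusion_injective hle)
  let g : (Fin ρ → k) × imT red →ₗ[k] imI red :=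
    (Fintype.linearCombination k fun i => r' (e i)).coprod (Submodule.inclusion hle)
  have hg : Function.Injective g := by
    rw [injective_iff_map_eq_zero]
    rintro ⟨c, t⟩ h
    choose c' hc' using fun i => hr.surj (c i)
    obtain ⟨t', ht', et⟩ := (mem_imT hr.surj red _).1 t.2
    have h3 : ∑ i, c i • red (e i) + t.1 = 0 := by
      have := congrArg Subtype.val h
      simpa [g, r', Fintype.linearCombination_apply] using this
    have h4 : red (∑ i, c' i • e i + t') = 0 := by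
      rw [map_add, map_sum, ← et, ← h3]
      simp only [map_smulₛₗ, hc']
    obtain ⟨z, hz⟩ := (hk _).1 h4
    obtain ⟨d, hd⟩ := h1 z
    have h5 : ∑ i, (c' i - ε * d i) • e i ∈ Submodule.torsion R A := by
      have e5 : ∑ i, (c' i - ε * d i) • e i = ε • (z - ∑ i, d i • e i) - t' := by
        simp only [sub_smul, Finset.sum_sub_distrib, smul_sub, ← hz, Finset.smul_sum, mul_smul]
        abel
      rw [e5]
      exact sub_mem (Submodule.smul_mem _ _ hd) ht'
    have h6 : c = 0 := funext fun i => by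
      have h7 : c' i - ε * d i = 0 := congrFun (h2 _ h5) i
      rw [← hc' i]
      exact (hr.ker _).2 ⟨d i, sub_eq_zero.1 h7⟩
    subst h6
    have h8 : t.1 = 0 := by simpa using h3
    exact Prod.ext rfl (Subtype.ext h8)
  have h9 := LinearMap.finrank_le_finrank_of_injective hg
  rw [Module.finrank_prod, Module.finrank_fin_fun] at h9
  omega

/-- a basis modulo torsion -/
theorem exists_tbasis (R A : Type) [CommRing R] [IsDomain R] [IsPrincipalIdealRing R]
    [AddCommGroup A] [Module R A] [Module.Finite R A] : ∃ (ρ : ℕ) (e : Fin ρ → A),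
    (∀ x, ∃ c : Fin ρ → R, x - ∑ i, c i • e i ∈ Submodule.torsion R A) ∧
    ∀ c : Fin ρ → R, ∑ i, c i • e i ∈ Submodule.torsion R A → c = 0 :=
  tc_tbasis R A

/-- the annihilator is as small as it can be -/
theorem ti {a₁ a₂ b₂ b₃ : Type} [AddCommGroup a₁] [Module k a₁] [AddCommGroup a₂] [Module k a₂]
    [AddCommGroup b₂] [Module k b₂] [AddCommGroup b₃] [Module k b₃] [FiniteDimensional k a₁]
    [FiniteDimensional k a₂] [FiniteDimensional k b₂] [FiniteDimensional k b₃]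
    {p₂ : a₂ →ₗ[k] b₂ →ₗ[k] k} {p₁ : a₁ →ₗ[k] b₃ →ₗ[k] k} (h₂ : Function.Bijective p₂)
    (h₁ : Function.Bijective p₁) {I₁ : Submodule k a₁} {T₂ : Submodule k a₂} {I₂ : Submodule k b₂}
    {T₃ : Submodule k b₃} (o₂ : ∀ x ∈ T₂, ∀ y ∈ I₂, p₂ x y = 0)
    (o₁ : ∀ x ∈ I₁, ∀ y ∈ T₃, p₁ x y = 0) (d₁ : finrank k T₂ + finrank k I₁ = finrank k a₁)
    (d₂ : finrank k T₃ + finrank k I₂ = finrank k b₂) (x : a₂) (hx : ∀ y ∈ I₂, p₂ x y = 0) :
    x ∈ T₂ := by
  let e₂ := LinearEquiv.ofBijective p₂ h₂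
  let e₁ := LinearEquiv.ofBijective p₁ h₁
  have l₂ : T₂.map (e₂ : a₂ →ₗ[k] Module.Dual k b₂) ≤ I₂.dualAnnihilator := by
    rintro _ ⟨y, hy, rfl⟩
    exact (Submodule.mem_dualAnnihilator _).2 (o₂ y hy)
  have l₁ : I₁.map (e₁ : a₁ →ₗ[k] Module.Dual k b₃) ≤ T₃.dualAnnihilator := by
    rintro _ ⟨y, hy, rfl⟩
    exact (Submodule.mem_dualAnnihilator _).2 (o₁ y hy)
  have f₂ := Subspace.finrank_add_finrank_dualAnnihilator_eq I₂
  have f₁ := Subspace.finrank_add_finrank_dualAnnihilator_eq T₃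
  have g₁ : finrank k I₁ ≤ finrank k T₃.dualAnnihilator :=
    (LinearEquiv.finrank_map_eq e₁ I₁).symm.trans_le (Submodule.finrank_mono l₁)
  have g₂ : finrank k a₁ = finrank k b₃ := e₁.finrank_eq.trans Subspace.dual_finrank_eq
  have g₃ : finrank k I₂.dualAnnihilator ≤ finrank k T₂ := by linarith
  have heq := Submodule.eq_of_le_of_finrank_le l₂
    (g₃.trans_eq (LinearEquiv.finrank_map_eq e₂ T₂).symm)
  have hx' : p₂ x ∈ I₂.dualAnnihilator := (Submodule.mem_dualAnnihilator _).2 hx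
  rw [← heq] at hx'
  obtain ⟨y, hy, e⟩ := hx'
  exact h₂.1 e ▸ hy

end Pool.Agent.P.MP_3d25f3_gt
end

-- part Pool.Agent.P.MP_3d25f3_gt.Sig
section

set_option autoImplicit false

open Set Filter Topology

namespace Pool.Agent.P.MP_3d25f3_gt

open Module

variable {V W : Type} [AddCommGroup V] [Module ℂ V] [AddCommGroup W] [Module ℂ W]

/-- sesquilinear forms -/
abbrev SF (V : Type) [AddCommGroup V] [Module ℂ V] : Type :=
  V →ₗ[ℂ] V →ₛₗ[starRingEnd ℂ] ℂ

def Herm (B : SF V) : Prop := ∀ x y, B y x = starRingEnd ℂ (B x y)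

/-- pull-back of a form -/
def cmp (B : SF V) (f : W →ₗ[ℂ] V) : SF W := (B.comp f).compl₂ f

@[simp] lemma cmp_apply (B : SF V) (f : W →ₗ[ℂ] V) (x y : W) : cmp B f x y = B (f x) (f y) := rfl

def PosOn (B : SF V) (P : Submodule ℂ V) : Prop := ∀ x ∈ P, x ≠ 0 → 0 < (B x x).re

noncomputable def npos (B : SF V) : ℕ := sSup {r | ∃ P : Submodule ℂ V, finrank ℂ P = r ∧ PosOn B P}

/-- signature -/
noncomputable def sgn (B : SF V) : ℤ := (npos B : ℤ) - npos (-B)

/-- form with given Gram matrix -/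
noncomputable def gram {ι : Type} [Fintype ι] (M : ι → ι → ℂ) : SF (ι → ℂ) :=
  LinearMap.mk₂'ₛₗ (RingHom.id ℂ) (starRingEnd ℂ)
    (fun x y => ∑ i, ∑ j, x i * starRingEnd ℂ (y j) * M i j)
    (fun x x' y => by simp [add_mul, Finset.sum_add_distrib])
    (fun r x y => by simp [Finset.mul_sum, mul_assoc])
    (fun x y y' => by simp [add_mul, mul_add, Finset.sum_add_distrib])
    (fun r x y => by simp [Finset.mul_sum, mul_assoc, mul_left_comm])

lemma gram_apply {ι : Type} [Fintype ι] (M : ι → ι → ℂ) (x y : ι → ℂ) :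
    gram M x y = ∑ i, ∑ j, x i * starRingEnd ℂ (y j) * M i j := rfl

variable [FiniteDimensional ℂ V] [FiniteDimensional ℂ W] {B : SF V}

lemma sig_bdd (B : SF V) : BddAbove {r | ∃ P : Submodule ℂ V, finrank ℂ P = r ∧ PosOn B P} :=
  ⟨finrank ℂ V, by rintro r ⟨P, rfl, -⟩; exact Submodule.finrank_le P⟩

lemma le_npos {P : Submodule ℂ V} (h : PosOn B P) : finrank ℂ P ≤ npos B := by
  exact le_csSup (sig_bdd B) ⟨P, rfl, h⟩

lemma exists_npos (B : SF V) : ∃ P : Submodule ℂ V, finrank ℂ P = npos B ∧ PosOn B P := by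
  exact Nat.sSup_mem (s := {r | ∃ P : Submodule ℂ V, finrank ℂ P = r ∧ PosOn B P})
    ⟨_, ⊥, rfl, fun x hx hx0 => absurd ((Submodule.mem_bot ℂ).1 hx) hx0⟩ (sig_bdd B)

/-- the left orthogonal of a subspace -/
def sigOrth (B : SF V) (P : Submodule ℂ V) : Submodule ℂ V where
  carrier := {v | ∀ p ∈ P, B v p = 0}
  add_mem' := fun {a b} ha hb p hp => by
    rw [map_add, LinearMap.add_apply, ha p hp, hb p hp, add_zero]
  zero_mem' := fun p _ => by simp
  smul_mem' := fun c v hv p hp => by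
    rw [map_smul, LinearMap.smul_apply, hv p hp, smul_zero]

omit [FiniteDimensional ℂ V] in
lemma sig_mem_orth {P : Submodule ℂ V} {v : V} : v ∈ sigOrth B P ↔ ∀ p ∈ P, B v p = 0 := Iff.rfl

lemma sig_orth_dim (B : SF V) (P : Submodule ℂ V) :
    finrank ℂ V ≤ finrank ℂ (sigOrth B P) + finrank ℂ P := by
  let b := Module.finBasis ℂ P
  let φ : V →ₗ[ℂ] (Fin (finrank ℂ P) → ℂ) := LinearMap.pi fun i => B.flip (b i : V)
  have h1 : LinearMap.ker φ ≤ sigOrth B P := by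
    intro v hv p hp
    have h2 : ∀ i, B v (b i : V) = 0 := fun i => congrFun (LinearMap.mem_ker.1 hv) i
    have h3 : p = ∑ i, b.repr ⟨p, hp⟩ i • (b i : V) := by
      have := congrArg P.subtype (b.sum_repr ⟨p, hp⟩)
      rw [map_sum] at this
      exact this.symm
    rw [h3, map_sum]
    exact Finset.sum_eq_zero fun i _ => by rw [LinearMap.map_smulₛₗ, h2, smul_zero]
  have h4 := LinearMap.finrank_range_add_finrank_ker φ
  have h5 := Submodule.finrank_le (LinearMap.range φ)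
  have h6 := Submodule.finrank_mono h1
  rw [Module.finrank_fin_fun] at h5
  omega

lemma sig_compl {K S : Submodule ℂ V} (h : K ≤ S) : ∃ N : Submodule ℂ V, N ≤ S ∧ K ⊓ N = ⊥ ∧
    K ⊔ N = S ∧ finrank ℂ K + finrank ℂ N = finrank ℂ S := by
  obtain ⟨C, hC⟩ := K.exists_isCompl
  have h1 : K ⊓ (C ⊓ S) = ⊥ := by rw [← inf_assoc, hC.inf_eq_bot, bot_inf_eq]
  have h2 : K ⊔ C ⊓ S = S := by rw [← sup_inf_assoc_of_le C h, hC.sup_eq_top, top_inf_eq]
  refine ⟨C ⊓ S, inf_le_right, h1, h2, ?_⟩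
  rw [← Submodule.finrank_sup_add_finrank_inf_eq, h1, h2, finrank_bot, add_zero]

omit [FiniteDimensional ℂ V] in
lemma sig_herm_zero (hB : Herm B) {x y : V} (h : B x y = 0) : B y x = 0 := by
  rw [hB x y, h, map_zero]

omit [FiniteDimensional ℂ V] in
lemma sig_herm_neg (hB : Herm B) : Herm (-B) := fun x y => by
  simp only [LinearMap.neg_apply, map_neg, hB x y]

omit [FiniteDimensional ℂ V] in
lemma sig_expand (hB : Herm B) (x y : V) (t : ℂ) : (B (x + t • y) (x + t • y)).re =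
    (B x x).re + 2 * (t * B y x).re + Complex.normSq t * (B y y).re := by
  have h1 : (B y y).im = 0 := by
    have := congrArg Complex.im (hB y y)
    rw [Complex.conj_im] at this
    linarith
  simp only [map_add, map_smul, LinearMap.add_apply, LinearMap.smul_apply, LinearMap.map_smulₛₗ,
    smul_eq_mul, hB y x, Complex.add_re, Complex.mul_re, Complex.mul_im, Complex.conj_re,
    Complex.conj_im, Complex.normSq_apply, h1, Complex.add_im]
  ring

omit [FiniteDimensional ℂ V] in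
lemma sig_semidef (hB : Herm B) {S : Submodule ℂ V} (h : ∀ y ∈ S, (B y y).re ≤ 0) {x y : V}
    (hx : x ∈ S) (hy : y ∈ S) (h0 : (B x x).re = 0) : B y x = 0 := by
  have hb := h y hy
  set b := (B y y).re with hbd
  set ε : ℝ := (1 - b)⁻¹ with hε
  have hε0 : 0 < ε := inv_pos.2 (by linarith)
  have hε1 : ε * (1 - b) = 1 := inv_mul_cancel₀ (by linarith)
  have h1 := h _ (S.add_mem hx (S.smul_mem ((ε : ℂ) * starRingEnd ℂ (B y x)) hy))
  rw [sig_expand hB, h0, mul_assoc, ← Complex.normSq_eq_conj_mul_self, ← Complex.ofReal_mul,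
    Complex.ofReal_re, map_mul, Complex.normSq_ofReal, Complex.normSq_conj, ← hbd] at h1
  have h2 := Complex.normSq_nonneg (B y x)
  have h3 : ε * Complex.normSq (B y x) * (1 + ε) ≤ 0 := by
    have : ε * b = ε - 1 := by linarith
    calc ε * Complex.normSq (B y x) * (1 + ε)
        = 0 + 2 * (ε * Complex.normSq (B y x)) + ε * (ε * b) * Complex.normSq (B y x) := by
          rw [this]; ring
      _ = 0 + 2 * (ε * Complex.normSq (B y x)) + ε * ε * Complex.normSq (B y x) * b := by ring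
      _ ≤ 0 := h1
  have h4 : Complex.normSq (B y x) ≤ 0 := by
    by_contra h5
    have h6 : 0 < ε * Complex.normSq (B y x) * (1 + ε) := by
      have := lt_of_not_ge h5
      positivity
    linarith
  exact Complex.normSq_eq_zero.1 (le_antisymm h4 h2)

omit [FiniteDimensional ℂ V] in
lemma sig_pos_sup (hB : Herm B) {P : Submodule ℂ V} (hP : PosOn B P) {x : V}
    (hx : ∀ p ∈ P, B x p = 0) (h0 : 0 < (B x x).re) : PosOn B (P ⊔ ℂ ∙ x) ∧ P < P ⊔ ℂ ∙ x := by
  constructor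
  · intro v hv hv0
    obtain ⟨p, hp, w, hw, rfl⟩ := Submodule.mem_sup.1 hv
    obtain ⟨t, rfl⟩ := Submodule.mem_span_singleton.1 hw
    rw [sig_expand hB, hx p hp, mul_zero, Complex.zero_re, mul_zero, add_zero]
    by_cases ht : t = 0
    · subst ht
      simpa using hP p hp (by simpa using hv0)
    · have h1 : 0 < Complex.normSq t * (B x x).re := mul_pos (Complex.normSq_pos.2 ht) h0
      by_cases hp0 : p = 0
      · subst hp0; simpa using h1
      · linarith [hP p hp hp0]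
  · refine lt_of_le_of_ne le_sup_left fun e => ?_
    have h1 : x ∈ P := e ▸ Submodule.mem_sup_right (Submodule.mem_span_singleton_self x)
    rw [hx x h1] at h0
    simp at h0

lemma sig_upper (hB : Herm B) {P N : Submodule ℂ V} (hP : PosOn B P) (hN : PosOn (-B) N) :
    finrank ℂ P + finrank ℂ N + finrank ℂ (LinearMap.ker B) ≤ finrank ℂ V := by
  have h1 : N ⊓ LinearMap.ker B = ⊥ := by
    refine (Submodule.eq_bot_iff _).2 fun x hx => ?_
    by_contra h0
    have := hN x hx.1 h0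
    rw [LinearMap.neg_apply, LinearMap.mem_ker.1 hx.2] at this
    simp at this
  have h2 : P ⊓ (N ⊔ LinearMap.ker B) = ⊥ := by
    refine (Submodule.eq_bot_iff _).2 fun x hx => ?_
    by_contra h0
    have h3 := hP x hx.1 h0
    obtain ⟨n, hn, k, hk, rfl⟩ := Submodule.mem_sup.1 hx.2
    have hk0 : B k = 0 := LinearMap.mem_ker.1 hk
    have h4 := sig_expand hB n k 1
    rw [one_smul, hk0] at h4
    simp only [LinearMap.zero_apply, mul_zero, Complex.zero_re, add_zero] at h4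
    rw [h4] at h3
    by_cases hn0 : n = 0
    · subst hn0; simp at h3
    · have := hN n hn hn0
      simp only [LinearMap.neg_apply, Complex.neg_re] at this
      linarith
  have h5 := Submodule.finrank_sup_add_finrank_inf_eq N (LinearMap.ker B)
  have h6 := Submodule.finrank_sup_add_finrank_inf_eq P (N ⊔ LinearMap.ker B)
  have h7 := Submodule.finrank_le (P ⊔ (N ⊔ LinearMap.ker B))
  rw [h1, finrank_bot] at h5
  rw [h2, finrank_bot] at h6
  omega

/-- Sylvester -/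
lemma npos_add (hB : Herm B) :
    npos B + npos (-B) + finrank ℂ (LinearMap.ker B) = finrank ℂ V := by
  obtain ⟨P, hPr, hP⟩ := exists_npos B
  obtain ⟨N₀, hNr, hN₀⟩ := exists_npos (-B)
  have hup := sig_upper hB hP hN₀
  have h1 : ∀ y ∈ sigOrth B P, (B y y).re ≤ 0 := by
    intro y hy
    by_contra h0
    obtain ⟨h2, h3⟩ := sig_pos_sup hB hP hy (lt_of_not_ge h0)
    have h4 := le_npos h2
    have h5 := Submodule.finrank_lt_finrank_of_lt h3
    omega
  have h2 : P ⊓ sigOrth B P = ⊥ := by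
    refine (Submodule.eq_bot_iff _).2 fun x hx => ?_
    by_contra h0
    linarith [hP x hx.1 h0, h1 x hx.2]
  have h3 := sig_orth_dim B P
  have h4 : P ⊔ sigOrth B P = ⊤ := by
    refine Submodule.eq_top_of_finrank_eq (le_antisymm (Submodule.finrank_le _) ?_)
    have := Submodule.finrank_sup_add_finrank_inf_eq P (sigOrth B P)
    rw [h2, finrank_bot] at this
    omega
  obtain ⟨N, hN1, hN2, -, hN4⟩ := sig_compl (K := LinearMap.ker B) (S := sigOrth B P)
    fun v hv p _ => by rw [LinearMap.mem_ker.1 hv, LinearMap.zero_apply]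
  have h5 : PosOn (-B) N := by
    intro x hx hx0
    simp only [LinearMap.neg_apply, Complex.neg_re]
    rcases (h1 x (hN1 hx)).lt_or_eq with h6 | h6
    · linarith
    · exfalso
      refine hx0 ((Submodule.eq_bot_iff _).1 hN2 x ⟨LinearMap.mem_ker.2 (LinearMap.ext fun v => ?_),
        hx⟩)
      obtain ⟨p, hp, w, hw, rfl⟩ := Submodule.mem_sup.1 (h4 ▸ Submodule.mem_top : v ∈ P ⊔ sigOrth B P)
      rw [map_add, hN1 hx p hp, sig_herm_zero hB (sig_semidef hB h1 (hN1 hx) hw h6), add_zero,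
        LinearMap.zero_apply]
  have h6 := le_npos h5
  omega

lemma sgn_eq (hB : Herm B) {P N : Submodule ℂ V} (hP : PosOn B P) (hN : PosOn (-B) N)
    (h : finrank ℂ V ≤ finrank ℂ P + finrank ℂ N + finrank ℂ (LinearMap.ker B)) :
    sgn B = (finrank ℂ P : ℤ) - finrank ℂ N := by
  have h1 := le_npos hP
  have h2 := le_npos hN
  have h3 := npos_add hB
  unfold sgn
  omega

omit [FiniteDimensional ℂ V] [FiniteDimensional ℂ W] in
lemma sig_map {f : W →ₗ[ℂ] V} {P : Submodule ℂ W} (hP : PosOn (cmp B f) P) :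
    PosOn B (P.map f) ∧ finrank ℂ (P.map f) = finrank ℂ P := by
  constructor
  · rintro _ ⟨x, hx, rfl⟩ h0
    exact hP x hx fun e => h0 (by rw [e, map_zero])
  · rw [← LinearMap.range_domRestrict]
    refine LinearMap.finrank_range_of_inj ((injective_iff_map_eq_zero _).2 fun x hx => ?_)
    by_contra h0
    have h1 := hP x.1 x.2 fun e => h0 (Subtype.ext e)
    have h2 : f x.1 = 0 := hx
    rw [cmp_apply, h2] at h1
    simp at h1

lemma sig_cmp_le (B : SF V) (f : W →ₗ[ℂ] V) : npos (cmp B f) ≤ npos B := by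
  obtain ⟨P, hr, hP⟩ := exists_npos (cmp B f)
  obtain ⟨h1, h2⟩ := sig_map hP
  rw [← hr, ← h2]
  exact le_npos h1

omit [FiniteDimensional ℂ V] [FiniteDimensional ℂ W] in
lemma sig_cmp_neg (B : SF V) (f : W →ₗ[ℂ] V) : -cmp B f = cmp (-B) f := by
  ext x y; rfl

lemma sig_cmp_surj (B : SF V) {f : W →ₗ[ℂ] V} (hf : Function.Surjective f) :
    npos (cmp B f) = npos B := by
  refine le_antisymm (sig_cmp_le B f) ?_
  obtain ⟨g, hg⟩ := f.exists_rightInverse_of_surjective (LinearMap.range_eq_top.2 hf)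
  have h1 : ∀ x, f (g x) = x := fun x => LinearMap.congr_fun hg x
  have h2 : cmp (cmp B f) g = B := by
    ext x y
    rw [cmp_apply, cmp_apply, h1, h1]
  have := sig_cmp_le (cmp B f) g
  rwa [h2] at this

lemma sgn_cmp_surj (B : SF V) {f : W →ₗ[ℂ] V} (hf : Function.Surjective f) :
    sgn (cmp B f) = sgn B := by
  rw [sgn, sgn, sig_cmp_neg, sig_cmp_surj B hf, sig_cmp_surj (-B) hf]

lemma sig_restr (B : SF V) (Q : Submodule ℂ V) :
    npos B + finrank ℂ Q ≤ npos (cmp B Q.subtype) + finrank ℂ V := by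
  obtain ⟨P, hr, hP⟩ := exists_npos B
  have h1 : PosOn (cmp B Q.subtype) ((P ⊓ Q).comap Q.subtype) := fun x hx h0 =>
    hP x.1 hx.1 fun e => h0 (Subtype.ext e)
  have h2 := le_npos h1
  have h3 := (Submodule.comapSubtypeEquivOfLe (inf_le_right : P ⊓ Q ≤ Q)).finrank_eq
  have h4 := Submodule.finrank_sup_add_finrank_inf_eq P Q
  have h5 := Submodule.finrank_le (P ⊔ Q)
  omega

omit [FiniteDimensional ℂ V] [FiniteDimensional ℂ W] in
lemma sig_herm_cmp (hB : Herm B) (f : W →ₗ[ℂ] V) : Herm (cmp B f) := fun _ _ => hB _ _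

/-- restriction to a subspace that contains its orthogonal -/
lemma sgn_coiso (hB : Herm B) {Q : Submodule ℂ V} (h : ∀ v, (∀ q ∈ Q, B v q = 0) → v ∈ Q) :
    sgn (cmp B Q.subtype) = sgn B := by
  have hK : LinearMap.ker B ≤ Q := fun v hv =>
    h v fun q _ => by rw [LinearMap.mem_ker.1 hv, LinearMap.zero_apply]
  obtain ⟨Q', h1, -, h3, h4⟩ := sig_compl hK
  have h5 : sigOrth B Q' ≤ sigOrth B Q := by
    intro v hv q hq
    obtain ⟨k, hk, w, hw, rfl⟩ := Submodule.mem_sup.1 (h3 ▸ hq : q ∈ LinearMap.ker B ⊔ Q')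
    have hk0 : B k v = 0 := by rw [LinearMap.mem_ker.1 hk, LinearMap.zero_apply]
    rw [map_add, hv w hw, sig_herm_zero hB hk0, add_zero]
  have h6 := Submodule.finrank_mono h5
  have h7 := sig_orth_dim B Q'
  have h8 := (Submodule.comapSubtypeEquivOfLe (show sigOrth B Q ≤ Q from h)).finrank_eq
  have h9 : (sigOrth B Q).comap Q.subtype ≤ LinearMap.ker (cmp B Q.subtype) := fun x hx =>
    LinearMap.mem_ker.2 (LinearMap.ext fun q => hx q.1 q.2)
  have h10 := Submodule.finrank_mono h9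
  have h11 := npos_add hB
  have h12 := npos_add (sig_herm_cmp hB Q.subtype)
  have h13 := sig_restr B Q
  have h14 := sig_restr (-B) Q
  rw [← sig_cmp_neg] at h14
  unfold sgn
  omega

lemma abs_sgn_le (hB : Herm B) :
    |sgn B| + finrank ℂ (LinearMap.ker B) ≤ finrank ℂ V := by
  have h1 := npos_add hB
  unfold sgn
  rcases abs_cases ((npos B : ℤ) - npos (-B)) with h | h <;> omega

lemma sig_npos_zero (h : ∀ x, (B x x).re = 0) : npos B = 0 := by
  obtain ⟨P, hr, hP⟩ := exists_npos B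
  have : P = ⊥ := (Submodule.eq_bot_iff _).2 fun x hx => by
    by_contra h0
    exact (hP x hx h0).ne' (h x)
  rw [← hr, this, finrank_bot]

lemma sgn_of_zero (h : ∀ x, (B x x).re = 0) : sgn B = 0 := by
  rw [sgn, sig_npos_zero h, sig_npos_zero (B := -B) fun x => by simp [h x]]
  simp

omit [FiniteDimensional ℂ V] in
lemma sig_npos_scale {B' : SF V} {c : ℝ} (hc : 0 < c) (h : ∀ x, (B' x x).re = c * (B x x).re) :
    npos B' = npos B := by
  have : ∀ P, PosOn B' P ↔ PosOn B P := fun P =>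
    forall_congr' fun x => forall_congr' fun _ => forall_congr' fun _ => by
      rw [h x, mul_pos_iff_of_pos_left hc]
  simp only [npos, this]

lemma sgn_of_scale {B' : SF V} {c : ℝ} (hc : 0 < c) (h : ∀ x, (B' x x).re = c * (B x x).re) :
    sgn B' = sgn B := by
  rw [sgn, sgn, sig_npos_scale hc h, sig_npos_scale (B := -B) (B' := -B') hc fun x => by
    simp [h x]]

lemma sgn_of_scale_neg {B' : SF V} {c : ℝ} (hc : c < 0) (h : ∀ x, (B' x x).re = c * (B x x).re) :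
    sgn B' = -sgn B := by
  rw [sgn, sgn, sig_npos_scale (B := -B) (B' := B') (neg_pos.2 hc) fun x => by simp [h x],
    sig_npos_scale (B := B) (B' := -B') (neg_pos.2 hc) fun x => by simp [h x]]
  ring

omit [FiniteDimensional ℂ V] in
lemma sig_sgn_neg (B : SF V) : sgn (-B) = -sgn B := by
  rw [sgn, sgn, neg_neg]; ring

lemma sig_perp_pos (hB : Herm B) (ξ : V) {Q : Submodule ℂ V} (hQ : ∀ v, v ∈ Q ↔ B ξ v = 0)
    (h0 : 0 < (B ξ ξ).re) : sgn B = sgn (cmp B Q.subtype) + 1 := by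
  obtain ⟨P, hPr, hP⟩ := exists_npos (cmp B Q.subtype)
  obtain ⟨N, hNr, hN⟩ := exists_npos (-cmp B Q.subtype)
  rw [sig_cmp_neg] at hN
  obtain ⟨hP1, hP2⟩ := sig_map hP
  obtain ⟨hN1, hN2⟩ := sig_map hN
  obtain ⟨h1, h2⟩ := sig_pos_sup hB hP1 (x := ξ) (by rintro _ ⟨q, -, rfl⟩; exact (hQ _).1 q.2) h0
  have h3 := Submodule.finrank_lt_finrank_of_lt h2
  have hξ : B ξ ξ ≠ 0 := fun e => by rw [e] at h0; simp at h0
  have hξ0 : ξ ≠ 0 := fun e => hξ (by rw [e]; simp)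
  have h4 : sigOrth B (ℂ ∙ ξ) ≤ Q := fun v hv =>
    (hQ v).2 (sig_herm_zero hB (hv ξ (Submodule.mem_span_singleton_self ξ)))
  have h5 := Submodule.finrank_mono h4
  have h6 := sig_orth_dim B (ℂ ∙ ξ)
  rw [finrank_span_singleton hξ0] at h6
  have h7 : (LinearMap.ker (cmp B Q.subtype)).map Q.subtype ≤ LinearMap.ker B := by
    rintro _ ⟨z, hz, rfl⟩
    refine LinearMap.mem_ker.2 (LinearMap.ext fun v => ?_)
    have hv : v - starRingEnd ℂ (B ξ v / B ξ ξ) • ξ ∈ Q := by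
      rw [hQ, map_sub, LinearMap.map_smulₛₗ, Complex.conj_conj, smul_eq_mul,
        div_mul_cancel₀ _ hξ, sub_self]
    have h8 : B z.1 (v - starRingEnd ℂ (B ξ v / B ξ ξ) • ξ) = 0 :=
      LinearMap.congr_fun (LinearMap.mem_ker.1 hz) ⟨_, hv⟩
    rw [map_sub, LinearMap.map_smulₛₗ, sig_herm_zero hB ((hQ _).1 z.2), smul_zero, sub_zero] at h8
    exact h8
  have h8 := Submodule.finrank_mono h7
  rw [Submodule.finrank_map_subtype_eq] at h8
  have h9 := npos_add (sig_herm_cmp hB Q.subtype)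
  have h10 := npos_add hB
  have h11 := le_npos h1
  have h12 := le_npos hN1
  have h13 := sig_restr B Q
  have h14 : Q < ⊤ := lt_top_iff_ne_top.2 fun e => hξ ((hQ ξ).1 (e ▸ Submodule.mem_top))
  have h15 := Submodule.finrank_lt_finrank_of_lt h14
  rw [finrank_top] at h15
  unfold sgn
  omega

/-- removing one vector -/
lemma sgn_perp (hB : Herm B) (ξ : V) {Q : Submodule ℂ V} (hQ : ∀ v, v ∈ Q ↔ B ξ v = 0) :
    sgn B = sgn (cmp B Q.subtype) + SignType.sign (B ξ ξ).re := by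
  rcases lt_trichotomy 0 (B ξ ξ).re with h | h | h
  · rw [sign_pos h, sig_perp_pos hB ξ hQ h]; rfl
  · have h1 : B ξ ξ = 0 := by
      have := congrArg Complex.im (hB ξ ξ)
      rw [Complex.conj_im] at this
      exact Complex.ext h.symm (by rw [Complex.zero_im]; linarith)
    rw [← h, sign_zero, sgn_coiso hB fun v hv =>
      (hQ v).2 (sig_herm_zero hB (hv ξ ((hQ ξ).2 h1)))]
    simp
  · have h1 := sig_perp_pos (sig_herm_neg hB) ξ (Q := Q) (fun v => by simp [hQ v])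
      (by simpa using h)
    rw [← sig_cmp_neg, sig_sgn_neg, sig_sgn_neg] at h1
    rw [sign_neg h]
    simp only [SignType.coe_neg_one]
    omega

end Pool.Agent.P.MP_3d25f3_gt
end

-- part Pool.Agent.P.MP_3d25f3_gt.Res
section

set_option autoImplicit false
set_option linter.unusedSectionVars false

open Set Filter Topology

namespace Pool.Agent.P.MP_3d25f3_gt

open Module

/-- the algebraic data of the residue computation at one point of the circle -/
structure ResD {R : Type} [CommRing R] (σ : R →+* R) (ev : R →+* ℂ) (C : ℂ →+* R) (ε μ s : R)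
    {A B M a V ι : Type} [AddCommGroup A] [Module R A] [AddCommGroup B] [Module R B]
    [AddCommGroup M] [Module R M] [AddCommGroup a] [Module ℂ a] [AddCommGroup V] [Module ℂ V]
    [Fintype ι] (j : A →ₗ[R] B) (r : B →ₗ[R] M) (lam : A →ₗ[R] B →ₛₗ[σ] R) (red : A →ₛₗ[ev] a)
    (pb : a →ₗ[ℂ] B →+ ℂ) (δ : V →ₗ[ℂ] a) (β : V →+ M) (ψ : SF V) (e : ι → A) (G : SF (ι → ℂ)) :
    Prop where
  σσ : ∀ x, σ (σ x) = x
  evσ : ∀ x, ev (σ x) = starRingEnd ℂ (ev x)
  evC : ∀ z, ev (C z) = z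
  ker : ∀ x, ev x = 0 ↔ ε ∣ x
  ε0 : ε ≠ 0
  σε : σ ε = μ * ε
  ex : Function.Exact j r
  kill : ∀ x : M, s • x = 0
  herm : ∀ x y, lam y (j x) = σ (lam x (j y))
  pbred : ∀ x b, pb (red x) b = ev (lam x b)
  pbsmul : ∀ x c b, pb x (c • b) = starRingEnd ℂ (ev c) * pb x b
  perp : ∀ x, (∀ b, pb x b = 0) → ∃ y ∈ Submodule.torsion R A, x = red y
  kerred : ∀ x, red x = 0 → ∃ y, x = ε • y
  βsmul : ∀ c v, β (ev c • v) = c • β v
  βrange : ∀ y : M, ε • y = 0 → ∃ v, β v = y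
  lift : ∀ v b, β v = r b → ∃ x, j x = ε • (-b) ∧ red x = δ v
  back : ∀ v x, δ v = red x → ∃ b, β v = r b
  ψeq : ∀ v v' b, β v' = r b → ψ v v' = pb (δ v) b
  span : ∀ x, ∃ c : ι → R, x - ∑ i, c i • e i ∈ Submodule.torsion R A
  ind : ∀ c : ι → R, ∑ i, c i • e i ∈ Submodule.torsion R A → c = 0
  Geq : ∀ x y, G x y = ev (lam (∑ i, C (x i) • e i) (j (∑ i, C (y i) • e i)))

variable {R : Type} [CommRing R] [IsDomain R] {σ : R →+* R} {ev : R →+* ℂ} {C : ℂ →+* R}
  {ε μ s : R} {A B M a V ι : Type} [AddCommGroup A] [Module R A] [AddCommGroup B] [Module R B]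
  [AddCommGroup M] [Module R M] [AddCommGroup a] [Module ℂ a] [AddCommGroup V] [Module ℂ V]
  [Fintype ι] {j : A →ₗ[R] B} {r : B →ₗ[R] M} {lam : A →ₗ[R] B →ₛₗ[σ] R} {red : A →ₛₗ[ev] a}
  {pb : a →ₗ[ℂ] B →+ ℂ} {δ : V →ₗ[ℂ] a} {β : V →+ M} {ψ : SF V} {e : ι → A} {G : SF (ι → ℂ)}

lemma res_sub (C : ℂ →+* R) (e : ι → A) (x y : ι → ℂ) :
    ∑ i, C ((x - y) i) • e i = ∑ i, C (x i) • e i - ∑ i, C (y i) • e i := by
  simp [sub_smul, Finset.sum_sub_distrib]

lemma res_add (C : ℂ →+* R) (e : ι → A) (x y : ι → ℂ) :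
    ∑ i, C ((x + y) i) • e i = ∑ i, C (x i) • e i + ∑ i, C (y i) • e i := by
  simp [add_smul, Finset.sum_add_distrib]

lemma res_smul (C : ℂ →+* R) (e : ι → A) (z : ℂ) (x : ι → ℂ) :
    ∑ i, C ((z • x) i) • e i = C z • ∑ i, C (x i) • e i := by
  simp [Finset.smul_sum, mul_smul]

lemma res_tor (lam : A →ₗ[R] B →ₛₗ[σ] R) {t : A} (ht : t ∈ Submodule.torsion R A) (b : B) :
    lam t b = 0 := by
  obtain ⟨c, hc⟩ := (Submodule.mem_torsion_iff t).1 ht
  have h1 : lam ((c : R) • t) b = 0 := by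
    have : (c : R) • t = 0 := hc
    rw [this]; simp
  rw [map_smul, LinearMap.smul_apply, smul_eq_mul] at h1
  exact (mul_eq_zero.1 h1).resolve_left (nonZeroDivisors.coe_ne_zero c)

lemma res_top {W : Type} [AddCommGroup W] [Module ℂ W] [FiniteDimensional ℂ W] (G₁ : SF W)
    (K : Submodule ℂ W) (L : Submodule ℂ K)
    (h : ∀ x ∈ K, (∀ y ∈ L, G₁ x y.1 = 0) → x = 0) : L = ⊤ := by
  let bs := finBasis ℂ L
  let φ : K →ₗ[ℂ] (Fin (finrank ℂ L) → ℂ) :=
    LinearMap.pi fun i => (G₁.flip (bs i).1.1).comp K.subtype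
  have hφ : Function.Injective φ := by
    refine (injective_iff_map_eq_zero φ).2 fun x hx => Subtype.ext (h x.1 x.2 fun v hv => ?_)
    have h3 : ((G₁ x.1).comp K.subtype).comp L.subtype = 0 := bs.ext fun i => congrFun hx i
    exact LinearMap.congr_fun h3 ⟨v, hv⟩
  have h3 := LinearMap.finrank_le_finrank_of_injective hφ
  rw [finrank_fin_fun] at h3
  exact Submodule.eq_top_of_finrank_eq (le_antisymm (Submodule.finrank_le _) h3)

namespace ResD

variable (h : ResD σ ev C ε μ s j r lam red pb δ β ψ e G)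
include h

lemma res_evε : ev ε = 0 := (h.ker ε).2 dvd_rfl

lemma res_evμ : ev μ ≠ 0 := by
  have h1 : σ μ * μ * ε = 1 * ε := by
    rw [mul_assoc, ← h.σε, ← map_mul, ← h.σε, h.σσ, one_mul]
  have h2 := congrArg ev (mul_right_cancel₀ h.ε0 h1)
  rw [map_mul, map_one] at h2
  exact right_ne_zero_of_mul_eq_one h2

lemma res_tor' (x : A) {t : A} (ht : t ∈ Submodule.torsion R A) : lam x (j t) = 0 := by
  rw [h.herm, res_tor lam ht, map_zero]

lemma res_dec (y : A) : ∃ (x : ι → ℂ) (y₁ : A), ∃ t ∈ Submodule.torsion R A,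
    y = ∑ i, C (x i) • e i + ε • y₁ + t := by
  obtain ⟨c, hc⟩ := h.span y
  have h1 : ∀ i, ∃ d, c i - C (ev (c i)) = ε * d := fun i =>
    (h.ker _).1 (by rw [map_sub, h.evC, sub_self])
  choose d hd using h1
  refine ⟨fun i => ev (c i), ∑ i, d i • e i, _, hc, ?_⟩
  have h2 : ∑ i, c i • e i = ∑ i, C (ev (c i)) • e i + ε • ∑ i, d i • e i := by
    rw [Finset.smul_sum, ← Finset.sum_add_distrib]
    refine Finset.sum_congr rfl fun i _ => ?_
    rw [smul_smul, ← hd, ← add_smul, add_sub_cancel]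
  rw [← h2, add_sub_cancel]

lemma res_uniq {x : ι → ℂ} {t : A} (ht : t ∈ Submodule.torsion R A)
    (hx : red (∑ i, C (x i) • e i + t) = 0) : x = 0 := by
  obtain ⟨y, hy⟩ := h.kerred _ hx
  obtain ⟨d, hd⟩ := h.span y
  have h1 : ∑ i, (C (x i) - ε * d i) • e i = ε • (y - ∑ i, d i • e i) - t := by
    rw [smul_sub, ← hy, Finset.smul_sum]
    simp only [sub_smul, Finset.sum_sub_distrib, mul_smul]
    abel
  have h2 := h.ind _ (h1 ▸ sub_mem (Submodule.smul_mem _ ε hd) ht)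
  funext i
  have h3 := congrArg ev (congrFun h2 i)
  simpa [h.evC, h.res_evε] using h3

lemma res_zero {x : ι → ℂ} (hx : ∀ b, ev (lam (∑ i, C (x i) • e i) b) = 0) : x = 0 := by
  obtain ⟨t, ht, e1⟩ := h.perp (red (∑ i, C (x i) • e i)) fun b => by rw [h.pbred, hx]
  exact h.res_uniq (neg_mem ht) (by rw [map_add, map_neg, e1, add_neg_cancel])

lemma res_ker {x : ι → ℂ} (hx : x ∈ LinearMap.ker G) (y : A) :
    ev (lam (∑ i, C (x i) • e i) (j y)) = 0 := by
  obtain ⟨y₀, y₁, t, ht, rfl⟩ := h.res_dec y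
  have h1 : G x y₀ = 0 := by rw [LinearMap.mem_ker.1 hx]; rfl
  rw [j.map_add, j.map_add, LinearMap.map_add, LinearMap.map_add, h.res_tor' _ ht, j.map_smul,
    LinearMap.map_smulₛₗ, h.σε, add_zero, map_add, ← h.Geq, h1, smul_eq_mul, map_mul, map_mul,
    h.res_evε]
  simp

lemma res_lift {v : V} {b : B} (hb : β v = r b) : ∃ (x : ι → ℂ) (y₁ : A),
    ∃ t ∈ Submodule.torsion R A, j (∑ i, C (x i) • e i + ε • y₁ + t) = ε • (-b) ∧
      red (∑ i, C (x i) • e i + t) = δ v := by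
  obtain ⟨y, h1, h2⟩ := h.lift v b hb
  obtain ⟨x, y₁, t, ht, rfl⟩ := h.res_dec y
  refine ⟨x, y₁, t, ht, h1, ?_⟩
  rw [← h2]
  simp only [map_add, LinearMap.map_smulₛₗ, h.res_evε, zero_smul, add_zero]

lemma res_eq {v : V} {x x' : ι → ℂ} {t t' : A} (ht : t ∈ Submodule.torsion R A)
    (ht' : t' ∈ Submodule.torsion R A) (hx : red (∑ i, C (x i) • e i + t) = δ v)
    (hx' : red (∑ i, C (x' i) • e i + t') = δ v) : x = x' := by
  refine sub_eq_zero.1 (h.res_uniq (sub_mem ht ht') ?_)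
  rw [res_sub, ← add_sub_add_comm, map_sub, hx, hx', sub_self]

lemma res_mem {x : ι → ℂ} {y₁ t : A} {b : B} (ht : t ∈ Submodule.torsion R A)
    (h1 : j (∑ i, C (x i) • e i + ε • y₁ + t) = ε • (-b)) : x ∈ LinearMap.ker G := by
  rw [LinearMap.mem_ker]
  ext1 y
  have h2 := h.herm (∑ i, C (y i) • e i) (∑ i, C (x i) • e i + ε • y₁ + t)
  rw [h1, LinearMap.map_smulₛₗ, smul_eq_mul, map_mul, h.σσ, map_add, map_add, LinearMap.add_apply,
    LinearMap.add_apply, res_tor lam ht, map_smul, LinearMap.smul_apply, smul_eq_mul] at h2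
  have h3 := congrArg ev h2
  rw [map_add, map_add, ← h.Geq, map_mul, map_mul, h.res_evε] at h3
  simpa using h3

lemma res_val {G₁ : SF (ι → ℂ)} {c : ℂ}
    (hG₁ : ∀ x y q, lam (∑ i, C (x i) • e i) (j (∑ i, C (y i) • e i)) = ε * q → G₁ x y = c * ev q)
    {x : ι → ℂ} (hx : x ∈ LinearMap.ker G) {y : ι → ℂ} {y₁ t : A} {b : B}
    (ht : t ∈ Submodule.torsion R A) (h1 : j (∑ i, C (y i) • e i + ε • y₁ + t) = ε • (-b)) :
    G₁ x y = -(c * ev μ) * ev (lam (∑ i, C (x i) • e i) b) := by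
  have h2 := congrArg (lam (∑ i, C (x i) • e i)) h1
  rw [map_add, map_add, map_add, map_add, h.res_tor' _ ht, map_smul, LinearMap.map_smulₛₗ,
    LinearMap.map_smulₛₗ, h.σε, map_neg, smul_eq_mul, smul_eq_mul] at h2
  rw [hG₁ x y (-μ * (lam (∑ i, C (x i) • e i) b + lam (∑ i, C (x i) • e i) (j y₁)))
    (by linear_combination h2), map_mul, map_add, h.res_ker hx, map_neg]
  ring

end ResD

theorem ResD.card_le [FiniteDimensional ℂ a] (h : ResD σ ev C ε μ s j r lam red pb δ β ψ e G) :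
    Fintype.card ι ≤ finrank ℂ a := by
  refine LinearIndependent.fintype_card_le_finrank (b := fun i => red (e i)) ?_
  refine Fintype.linearIndependent_iff.2 fun x hx => ?_
  have := h.res_uniq (x := x) (zero_mem _) (by
    rw [add_zero, map_sum, ← hx]
    simp only [LinearMap.map_smulₛₗ, h.evC])
  exact congrFun this

theorem ResD.nondeg (h : ResD σ ev C ε μ s j r lam red pb δ β ψ e G) (hs : ev s ≠ 0) :
    LinearMap.ker G = ⊥ := by
  refine (Submodule.eq_bot_iff _).2 fun x hx => h.res_zero fun b => ?_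
  obtain ⟨y, hy⟩ := (h.ex (s • b)).1 (by rw [map_smul, h.kill])
  have h1 := h.res_ker hx y
  rw [hy, LinearMap.map_smulₛₗ, smul_eq_mul, map_mul, h.evσ] at h1
  exact (mul_eq_zero.1 h1).resolve_left (by simpa using hs)

theorem ResD.residue (h : ResD σ ev C ε μ s j r lam red pb δ β ψ e G) {s' : R} (hs : s = ε * s')
    (hs' : ev s' ≠ 0) {G₁ : SF (ι → ℂ)} {c : ℂ} (hc : c ≠ 0)
    (hG₁ : ∀ x y q, lam (∑ i, C (x i) • e i) (j (∑ i, C (y i) • e i)) = ε * q → G₁ x y = c * ev q) :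
    (∀ x ∈ LinearMap.ker G, (∀ y ∈ LinearMap.ker G, G₁ x y = 0) → x = 0) ∧
    ∃ (Q : Submodule ℂ V) (π : Q →ₗ[ℂ] LinearMap.ker G), Function.Surjective π ∧
      (∀ v v' : Q, G₁ (π v) (π v') = -(c * ev μ) * ψ v v') ∧
      ∀ v, (∀ q ∈ Q, ψ v q = 0) → v ∈ Q := by
  let Q : Submodule ℂ V :=
    { carrier := {v | ∃ b, β v = r b}
      add_mem' := by
        rintro v v' ⟨b, hb⟩ ⟨b', hb'⟩
        exact ⟨b + b', by rw [map_add, map_add, hb, hb']⟩
      zero_mem' := ⟨0, by rw [map_zero, map_zero]⟩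
      smul_mem' := by
        rintro z v ⟨b, hb⟩
        exact ⟨C z • b, by rw [r.map_smul, ← hb, ← h.βsmul, h.evC]⟩ }
  have hQ : ∀ v : Q, ∃ (b : B) (x : ι → ℂ) (y₁ t : A), β v = r b ∧ t ∈ Submodule.torsion R A ∧
      j (∑ i, C (x i) • e i + ε • y₁ + t) = ε • (-b) ∧ red (∑ i, C (x i) • e i + t) = δ v := by
    rintro ⟨v, b, hb⟩
    obtain ⟨x, y₁, t, ht, h1, h2⟩ := h.res_lift hb
    exact ⟨b, x, y₁, t, hb, ht, h1, h2⟩
  choose b p y₁ t hb ht h1 h2 using hQ
  let π : Q →ₗ[ℂ] LinearMap.ker G :=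
    { toFun := fun v => ⟨p v, h.res_mem (ht v) (h1 v)⟩
      map_add' := fun v v' => Subtype.ext <|
        h.res_eq (ht _) (add_mem (ht v) (ht v')) (h2 _) (by
          show red (∑ i, C ((p v + p v') i) • e i + (t v + t v')) = _
          rw [res_add, add_add_add_comm, map_add, h2, h2, Submodule.coe_add, map_add])
      map_smul' := fun z v => Subtype.ext <|
        h.res_eq (ht _) (Submodule.smul_mem _ (C z) (ht v)) (h2 _) (by
          show red (∑ i, C ((z • p v) i) • e i + C z • t v) = _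
          rw [res_smul, ← smul_add, LinearMap.map_smulₛₗ, h2, h.evC, Submodule.coe_smul,
            map_smul]) }
  have hq : ∀ b : B, ∃ q, β q = r (s' • b) := fun b =>
    h.βrange _ (by rw [map_smul, smul_smul, ← hs, h.kill])
  have key : ∀ x ∈ LinearMap.ker G, (∀ v, G₁ x (π v) = 0) → x = 0 := by
    intro x hx h0
    refine h.res_zero fun b' => ?_
    obtain ⟨q, hq⟩ := hq b'
    obtain ⟨y, y', t', ht', h3, h4⟩ := h.res_lift hq
    have h5 : p ⟨q, _, hq⟩ = y := h.res_eq (ht _) ht' (h2 _) h4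
    have h6 : G₁ x (p ⟨q, _, hq⟩) = 0 := h0 ⟨q, _, hq⟩
    rw [h5, h.res_val hG₁ hx ht' h3, LinearMap.map_smulₛₗ, smul_eq_mul, map_mul, h.evσ] at h6
    have h7 := (mul_eq_zero.1 h6).resolve_left (neg_ne_zero.2 (mul_ne_zero hc h.res_evμ))
    exact (mul_eq_zero.1 h7).resolve_left (by simpa using hs')
  refine ⟨fun x hx h0 => key x hx fun v => h0 _ (π v).2, Q, π, ?_, fun v v' => ?_, fun v hv => ?_⟩
  · exact LinearMap.range_eq_top.1 (res_top G₁ _ _ fun x hx h0 =>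
      key x hx fun v => h0 _ (LinearMap.mem_range_self π v))
  · show G₁ (p v) (p v') = _
    rw [h.res_val hG₁ (h.res_mem (ht v) (h1 v)) (ht v') (h1 v'), h.ψeq _ _ _ (hb v'), ← h2, h.pbred, map_add,
      LinearMap.add_apply, res_tor lam (ht v), add_zero]
  · obtain ⟨y, -, hy⟩ := h.perp (δ v) fun b' => by
      obtain ⟨q, hq⟩ := hq b'
      have h3 := hv q ⟨_, hq⟩
      rw [h.ψeq _ _ _ hq, h.pbsmul] at h3
      exact (mul_eq_zero.1 h3).resolve_left (by simpa using hs')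
    exact h.back v y hy

end Pool.Agent.P.MP_3d25f3_gt
end

-- part Pool.Agent.P.MP_3d25f3_gt.ModD
section

set_option autoImplicit false

open Set Filter Topology

namespace Pool.Agent.P.MP_3d25f3_gt

/-- number of unit arcs -/
def LL (g : ℕ) (S : List (ℕ × ℤ)) : ℕ := 4 * g + 2 * (S.length + 1)

instance (g : ℕ) (S : List (ℕ × ℤ)) : NeZero (LL g S) := ⟨by unfold LL; omega⟩

/-- number of glued pairs of arcs -/
def NE (g : ℕ) (S : List (ℕ × ℤ)) : ℕ := 2 * g + (S.length + 1)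

def st (g e : ℕ) : ℕ := if e < 2 * g then 4 * (e / 2) + e % 2 else 4 * g + 2 * (e - 2 * g)

def wd (g e : ℕ) : ℕ := if e < 2 * g then 3 else 2

def pr (g : ℕ) (S : List (ℕ × ℤ)) (e : ℕ) : ℕ × ℤ :=
  if e < 2 * g then (1, 0) else S.getD (e - 2 * g) (1, 0)

noncomputable def sh (g : ℕ) (S : List (ℕ × ℤ)) (e : ℕ) : ℝ := (pr g S e).2 / (pr g S e).1

abbrev Disc : Type := Metric.closedBall (0 : ℂ) 1

abbrev Cov : Type := Disc × ℝ

lemma norm_bd (L : ℕ) (x : ℝ) : ‖bd L x‖ = 1 := by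
  rw [bd, show (2 * Real.pi * Complex.I * x / L : ℂ) = ((2 * Real.pi * x / L : ℝ) : ℂ) * Complex.I
    by push_cast; ring]
  exact Complex.norm_exp_ofReal_mul_I _

noncomputable def bp (L : ℕ) (x : ℝ) : Disc := ⟨bd L x, by simp [norm_bd]⟩

def pc (y : Cov) : Solid := (y.1, (y.2 : AddCircle (1 : ℝ)))

def pm (g : ℕ) (S : List (ℕ × ℤ)) : Solid → Seifert g S := Quot.mk _

def pp (g : ℕ) (S : List (ℕ × ℤ)) (y : Cov) : Seifert g S := pm g S (pc y)

noncomputable def ga (g : ℕ) (S : List (ℕ × ℤ)) (e : ℕ) (s z : ℝ) : Cov :=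
  (bp (LL g S) (st g e + s), z)

noncomputable def gb (g : ℕ) (S : List (ℕ × ℤ)) (e : ℕ) (s z : ℝ) : Cov :=
  (bp (LL g S) (st g e + wd g e - s), z + s * sh g S e)

/-- primitive and periods of an integer cocycle -/
structure Per (g : ℕ) (S : List (ℕ × ℤ)) (n : Seifert g S → Seifert g S → ℤ) (A : Cov → ℤ) (N : ℤ)
    (ne : ℕ → ℤ) : Prop where
  prim : ∀ y, ∃ U ∈ 𝓝 y, ∀ a ∈ U, ∀ b ∈ U, n (pp g S a) (pp g S b) = A b - A a
  per : ∀ y z, A (y, z + 1) = A (y, z) + N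
  arc : ∀ e < NE g S, ∀ s ∈ Icc (0 : ℝ) 1, ∀ z, A (gb g S e s z) = A (ga g S e s z) + ne e

/-- primitive of a twisted cocycle -/
def Prim (g : ℕ) (S : List (ℕ × ℤ)) {R : Type} [CommRing R] (t : Rˣ) (A : Cov → ℤ)
    (v : List (Seifert g S) → R) (E : Cov → R) : Prop :=
  ∀ y, ∃ U ∈ 𝓝 y, ∀ a ∈ U, ∀ b ∈ U, ((t ^ A a : Rˣ) : R) * v [pp g S a, pp g S b] = E b - E a

/-- jump of vertex data across an arc -/
def vv (g : ℕ) {L : ℕ} (ρ : ℕ → ℂ) (x : ZMod L → ℂ) (e : ℕ) : ℂ :=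
  x ((st g e + wd g e : ℕ) : ZMod L) - ρ e * x ((st g e : ℕ) : ZMod L)

/-- vertex data -/
def Pol (g : ℕ) (S : List (ℕ × ℤ)) (ρ : ℕ → ℂ) : Submodule ℂ (ZMod (LL g S) → ℂ) where
  carrier := {x | ∀ e < NE g S,
    vv g ρ x e = x ((st g e + wd g e - 1 : ℕ) : ZMod _) - ρ e * x ((st g e + 1 : ℕ) : ZMod _)}
  zero_mem' := fun _ _ => by simp [vv]
  add_mem' := fun {a b} ha hb e he => by
    have h1 := ha e he
    have h2 := hb e he
    simp only [vv, Pi.add_apply] at *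
    linear_combination h1 + h2
  smul_mem' := fun r a ha e he => by
    have h1 := ha e he
    simp only [vv, Pi.smul_apply, smul_eq_mul] at *
    linear_combination r * h1

/-- `v` is a cocycle with vertex data `x` -/
structure IsRep (g : ℕ) (S : List (ℕ × ℤ)) (ω : ℂˣ) (A : Cov → ℤ) (ne : ℕ → ℤ)
    (x : ZMod (LL g S) → ℂ) (v : List (Seifert g S) → ℂ) (E : Disc → ℂ) : Prop where
  prim : Prim g S ω A v (fun y => E y.1)
  vert : ∀ j : ℕ, E (bp (LL g S) j) = x j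
  arc : ∀ e < NE g S, ∀ s ∈ Icc (0 : ℝ) 1, E (bp (LL g S) (st g e + wd g e - s))
    = ((ω ^ ne e : ℂˣ) : ℂ) * E (bp (LL g S) (st g e + s)) + vv g (fun e => ((ω ^ ne e : ℂˣ) : ℂ)) x e

end Pool.Agent.P.MP_3d25f3_gt
end

-- part Pool.Agent.P.MP_3d25f3_gt.ModA
section

set_option autoImplicit false

open Set Filter Topology

namespace Pool.Agent.P.MP_3d25f3_gt

variable {g : ℕ} {S : List (ℕ × ℤ)}

lemma moda_st_lo {k e : ℕ} (hk : k < g) (he : e < 2) : st g (2 * k + e) = 4 * k + e := by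
  unfold st; split_ifs <;> omega

lemma moda_wd_lo {k e : ℕ} (hk : k < g) (he : e < 2) : wd g (2 * k + e) = 3 := by
  unfold wd; split_ifs <;> omega

lemma moda_pr_lo {k e : ℕ} (hk : k < g) (he : e < 2) : pr g S (2 * k + e) = (1, 0) := by
  unfold pr; rw [if_pos (by omega)]

lemma moda_st_hi (i : ℕ) : st g (2 * g + i) = 4 * g + 2 * i := by
  unfold st; split_ifs <;> omega

lemma moda_wd_hi (i : ℕ) : wd g (2 * g + i) = 2 := by
  unfold wd; split_ifs <;> omega

lemma moda_pr_hi (i : ℕ) : pr g S (2 * g + i) = S.getD i (1, 0) := by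
  unfold pr; rw [if_neg (by omega), Nat.add_sub_cancel_left]

lemma moda_bp_iff (x : Disc) (L : ℕ) (r : ℝ) : x = bp L r ↔ (x : ℂ) = bd L r :=
  Subtype.ext_iff

lemma moda_lo (x y : Solid) (s : ℝ) {k e : ℕ} (hk : k < g) (he : e < 2) :
    (x.1 = bp (LL g S) (st g (2 * k + e) + s) ∧
      y.1 = bp (LL g S) (st g (2 * k + e) + wd g (2 * k + e) - s) ∧
      y.2 = x.2 + ((s * sh g S (2 * k + e) : ℝ) : AddCircle (1 : ℝ))) ↔
    ((x.1 : ℂ) = bd (4 * g + 2 * (S.length + 1)) (4 * k + e + s) ∧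
      (y.1 : ℂ) = bd (4 * g + 2 * (S.length + 1)) (4 * k + e + 3 - s) ∧ y.2 = x.2) := by
  rw [moda_bp_iff, moda_bp_iff, moda_st_lo hk he, moda_wd_lo hk he, sh, moda_pr_lo hk he, LL]
  simp only [Nat.cast_add, Nat.cast_mul, Nat.cast_ofNat, Int.cast_zero, zero_div, mul_zero,
    QuotientAddGroup.mk_zero, add_zero]

lemma moda_hi (x y : Solid) (s : ℝ) (i : ℕ) :
    (x.1 = bp (LL g S) (st g (2 * g + i) + s) ∧
      y.1 = bp (LL g S) (st g (2 * g + i) + wd g (2 * g + i) - s) ∧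
      y.2 = x.2 + ((s * sh g S (2 * g + i) : ℝ) : AddCircle (1 : ℝ))) ↔
    ((x.1 : ℂ) = bd (4 * g + 2 * (S.length + 1)) (4 * g + 2 * i + s) ∧
      (y.1 : ℂ) = bd (4 * g + 2 * (S.length + 1)) (4 * g + 2 * i + 2 - s) ∧
      y.2 = x.2 + ((s * (S.getD i (1, 0)).2 / (S.getD i (1, 0)).1 : ℝ) : AddCircle (1 : ℝ))) := by
  rw [moda_bp_iff, moda_bp_iff, moda_st_hi, moda_wd_hi, sh, moda_pr_hi, LL, mul_div_assoc]
  simp only [Nat.cast_add, Nat.cast_mul, Nat.cast_ofNat]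

lemma glue_iff (x y : Solid) : Glue g S x y ↔ ∃ e < NE g S, ∃ s ∈ Icc (0 : ℝ) 1,
    x.1 = bp (LL g S) (st g e + s) ∧ y.1 = bp (LL g S) (st g e + wd g e - s) ∧
      y.2 = x.2 + ((s * sh g S e : ℝ) : AddCircle (1 : ℝ)) := by
  constructor
  · rintro ⟨s, hs, ⟨k, hk, e, he, h⟩ | ⟨i, hi, h⟩⟩
    · exact ⟨2 * k + e, by unfold NE; omega, s, hs, (moda_lo x y s hk he).2 h⟩
    · exact ⟨2 * g + i, by unfold NE; omega, s, hs, (moda_hi x y s i).2 h⟩
  · rintro ⟨e, he, s, hs, h⟩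
    refine ⟨s, hs, ?_⟩
    by_cases h2 : e < 2 * g
    · obtain ⟨k, e', he', rfl⟩ : ∃ k e', e' < 2 ∧ e = 2 * k + e' :=
        ⟨e / 2, e % 2, by omega, by omega⟩
      have hk : k < g := by omega
      exact Or.inl ⟨k, hk, e', he', (moda_lo x y s hk he').1 h⟩
    · obtain ⟨i, rfl⟩ : ∃ i, e = 2 * g + i := ⟨e - 2 * g, by omega⟩
      exact Or.inr ⟨i, by unfold NE at he; omega, (moda_hi x y s i).1 h⟩

lemma st_le {e : ℕ} (he : e < NE g S) : st g e + wd g e ≤ LL g S := by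
  unfold NE at he
  unfold st wd LL
  split_ifs <;> omega

lemma wd_ge (e : ℕ) : 2 ≤ wd g e := by
  unfold wd; split_ifs <;> omega

lemma st_inj {e e' : ℕ} (h : st g e = st g e') : e = e' := by
  unfold st at h
  split_ifs at h <;> omega

lemma st_inj' {e e' : ℕ} (h : st g e + wd g e = st g e' + wd g e') : e = e' := by
  unfold st wd at h
  split_ifs at h <;> omega

lemma st_ne (e e' : ℕ) : st g e + 1 ≠ st g e' + wd g e' := by
  unfold st wd
  split_ifs <;> omega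

lemma st_surj {j : ℕ} (hj : j < LL g S) :
    ∃ e < NE g S, j = st g e ∨ j + 1 = st g e + wd g e := by
  unfold LL at hj
  by_cases h : j < 4 * g
  · refine ⟨2 * (j / 4) + j % 2, by unfold NE; omega, ?_⟩
    rw [moda_st_lo (by omega) (by omega), moda_wd_lo (by omega) (by omega)]
    omega
  · refine ⟨2 * g + (j - 4 * g) / 2, by unfold NE; omega, ?_⟩
    rw [moda_st_hi, moda_wd_hi]
    omega

lemma moda_sum_two {A : Type} [AddCommMonoid A] (f : ℕ → A) (n : ℕ) :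
    ∑ e ∈ Finset.range (2 * n), f e = ∑ k ∈ Finset.range n, (f (2 * k) + f (2 * k + 1)) := by
  induction n with
  | zero => simp
  | succ n ih =>
    rw [show 2 * (n + 1) = 2 * n + 1 + 1 by ring, Finset.sum_range_succ, Finset.sum_range_succ,
      Finset.sum_range_succ, ih, add_assoc]

lemma moda_sum_arcs {A : Type} [AddCommMonoid A] (f : ℕ → A) :
    ∑ e ∈ Finset.range (NE g S), f e = ∑ k ∈ Finset.range g, (f (2 * k) + f (2 * k + 1))
      + ∑ i ∈ Finset.range (S.length + 1), f (2 * g + i) := by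
  rw [NE, Finset.sum_range_add, moda_sum_two]

/-- the arcs go once around the circle -/
lemma tel {A : Type} [AddCommGroup A] (f : ℕ → A) :
    ∑ e ∈ Finset.range (NE g S),
      (f (st g e + 1) - f (st g e) + (f (st g e + wd g e) - f (st g e + wd g e - 1)))
      = f (LL g S) - f 0 := by
  rw [moda_sum_arcs]
  have h1 : ∀ k ∈ Finset.range g,
      (f (st g (2 * k) + 1) - f (st g (2 * k)) + (f (st g (2 * k) + wd g (2 * k))
        - f (st g (2 * k) + wd g (2 * k) - 1))) +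
      (f (st g (2 * k + 1) + 1) - f (st g (2 * k + 1)) + (f (st g (2 * k + 1) + wd g (2 * k + 1))
        - f (st g (2 * k + 1) + wd g (2 * k + 1) - 1))) = f (4 * (k + 1)) - f (4 * k) := by
    intro k hk
    have hk' := Finset.mem_range.1 hk
    have a1 : st g (2 * k) = 4 * k := moda_st_lo (e := 0) hk' (by omega)
    have a2 : wd g (2 * k) = 3 := moda_wd_lo (e := 0) hk' (by omega)
    rw [a1, a2, moda_st_lo hk' (by omega), moda_wd_lo hk' (by omega),
      show 4 * k + 3 - 1 = 4 * k + 1 + 1 by omega, show 4 * k + 1 + 3 - 1 = 4 * k + 3 by omega,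
      show 4 * k + 1 + 3 = 4 * (k + 1) by omega]
    abel
  have h2 : ∀ i ∈ Finset.range (S.length + 1),
      f (st g (2 * g + i) + 1) - f (st g (2 * g + i)) + (f (st g (2 * g + i) + wd g (2 * g + i))
        - f (st g (2 * g + i) + wd g (2 * g + i) - 1))
      = f (4 * g + 2 * (i + 1)) - f (4 * g + 2 * i) := by
    intro i _
    rw [moda_st_hi, moda_wd_hi, show 4 * g + 2 * i + 2 - 1 = 4 * g + 2 * i + 1 by omega,
      show 4 * g + 2 * i + 2 = 4 * g + 2 * (i + 1) by omega]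
    abel
  rw [Finset.sum_congr rfl h1, Finset.sum_congr rfl h2,
    Finset.sum_range_sub (fun k => f (4 * k)), Finset.sum_range_sub (fun i => f (4 * g + 2 * i)),
    LL]
  simp only [mul_zero, add_zero]
  abel

lemma sum_arcs {A : Type} [AddCommMonoid A] (f : ℕ → A) :
    ∑ e ∈ Finset.range (NE g S), f e = ∑ k ∈ Finset.range g, (f (2 * k) + f (2 * k + 1))
      + ∑ i ∈ Finset.range (S.length + 1), f (2 * g + i) := moda_sum_arcs f

lemma moda_sum_getD {A : Type} [AddCommMonoid A] (f : ℕ × ℤ → A) (T : List (ℕ × ℤ)) :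
    ∑ i ∈ Finset.range (T.length + 1), f (T.getD i (1, 0)) = (T.map f).sum + f (1, 0) := by
  induction T with
  | nil => simp
  | cons a T ih =>
    rw [List.length_cons, Finset.sum_range_succ']
    simp only [List.getD_cons_succ, List.getD_cons_zero, List.map_cons, List.sum_cons]
    rw [ih]
    abel

lemma sum_getD {A : Type} [AddCommMonoid A] (f : ℕ × ℤ → A) :
    ∑ i ∈ Finset.range (S.length + 1), f (pr g S (2 * g + i)) = (S.map f).sum + f (1, 0) := by
  simp only [moda_pr_hi]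
  exact moda_sum_getD f S

lemma pr_data (h : Data S) (e : ℕ) : 1 ≤ (pr g S e).1 ∧ Int.gcd (pr g S e).1 (pr g S e).2 = 1 := by
  unfold pr
  split_ifs
  · simp
  · by_cases h2 : e - 2 * g < S.length
    · rw [List.getD_eq_getElem _ _ h2]
      exact h.1 _ (List.getElem_mem h2)
    · rw [List.getD_eq_default _ _ (not_lt.1 h2)]
      simp

end Pool.Agent.P.MP_3d25f3_gt
end

-- part Pool.Agent.P.MP_3d25f3_gt.Gl
section

set_option autoImplicit false

open Set Filter Topology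

namespace Pool.Agent.P.MP_3d25f3_gt

variable {Z W : Type} [TopologicalSpace Z] [TopologicalSpace W] {R : Type} [CommRing R]

/-- local cochains that agree near common points glue -/
lemma glue_co [T2Space Z] [NormalSpace Z] {F : Set Z} (hF : IsCompact F) (k : ℕ) (U : Z → Set Z)
    (hU : ∀ x ∈ F, U x ∈ 𝓝 x) (v : Z → List Z → R)
    (h : ∀ x ∈ F, ∀ x' ∈ F, v x - v x' ∈ Null R k (F ∩ U x ∩ U x')) :
    ∃ c : List Z → R, ∀ x ∈ F, c - v x ∈ Null R k (F ∩ U x) := by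
  classical
  have hK : ∀ x, ∃ K : Set Z, x ∈ F → K ∈ 𝓝 x ∧ IsClosed K ∧ K ⊆ U x := fun x => by
    by_cases hx : x ∈ F
    · obtain ⟨K, h1, h2, h3⟩ := exists_mem_nhds_isClosed_subset (hU x hx)
      exact ⟨K, fun _ => ⟨h1, h2, h3⟩⟩
    · exact ⟨∅, fun h => absurd h hx⟩
  choose K hK using hK
  obtain ⟨t, ht, hcov⟩ := hF.elim_nhds_subcover (fun x => interior (K x))
    fun x hx => interior_mem_nhds.2 (hK x hx).1
  have hi : ∀ a : Z, ∃ j : Z, (∃ j' ∈ t, a ∈ K j') → j ∈ t ∧ a ∈ K j := fun a => by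
    by_cases ha : ∃ j' ∈ t, a ∈ K j'
    · obtain ⟨j, hj⟩ := ha
      exact ⟨j, fun _ => hj⟩
    · exact ⟨a, fun h => absurd h ha⟩
  choose i hi using hi
  refine ⟨fun l => match l with
    | [] => 0
    | a :: l => v (i a) (a :: l), fun x hx z hz => ?_⟩
  obtain ⟨j0, hj0, hz0⟩ := mem_iUnion₂.1 (hcov hz.1)
  have hV : ∀ j, ∃ V ∈ 𝓝 z, j ∈ t → ∀ (a : Z) (l : List Z), (a :: l).length = k + 1 →
      (∀ y ∈ a :: l, y ∈ V) → a ∈ K j → v j (a :: l) - v x (a :: l) = 0 := fun j => by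
    by_cases hj : j ∈ t
    · by_cases hzj : z ∈ K j
      · obtain ⟨V, h1, h2⟩ := h j (ht j hj) x hx z ⟨⟨hz.1, (hK j (ht j hj)).2.2 hzj⟩, hz.2⟩
        exact ⟨V, h1, fun _ a l hl hm _ => h2 _ hl hm⟩
      · exact ⟨(K j)ᶜ, (hK j (ht j hj)).2.1.isOpen_compl.mem_nhds hzj,
          fun _ a l _ hm ha => absurd ha (hm a List.mem_cons_self)⟩
    · exact ⟨univ, univ_mem, fun h => absurd h hj⟩
  choose V hV1 hV2 using hV
  refine ⟨K j0 ∩ ⋂ j ∈ t, V j, inter_mem (mem_interior_iff_mem_nhds.1 hz0)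
    ((biInter_finset_mem t).2 fun j _ => hV1 j), fun l hl hm => ?_⟩
  cases l with
  | nil => simp at hl
  | cons a l =>
    obtain ⟨h1, h2⟩ := hi a ⟨j0, hj0, (hm a List.mem_cons_self).1⟩
    exact hV2 _ h1 a l hl (fun y hy => mem_iInter₂.1 (hm y hy).2 _ h1) h2

/-- neighbourhoods of a fibre of a closed map -/
lemma loc_closed {π : W → Z} (hπ : IsClosedMap π) {x : Z} {P : W → Prop}
    (h : ∀ y, π y = x → ∀ᶠ y' in 𝓝 y, P y') : ∀ᶠ x' in 𝓝 x, ∀ y', π y' = x' → P y' :=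
  hπ.eventually_nhds_fiber x h

omit [TopologicalSpace Z] in
lemma gl_two {l : List Z} (hl : l.length = 1 + 1) : ∃ a b, l = [a, b] :=
  List.length_eq_two.1 hl

omit [TopologicalSpace Z] in
lemma gl_three {l : List Z} (hl : l.length = 2 + 1) : ∃ a b c, l = [a, b, c] :=
  List.length_eq_three.1 hl

/-- a cocycle of degree one that vanishes upstairs vanishes -/
lemma null_of_pull {π : W → Z} (hπ : IsClosedMap π) (hs : Function.Surjective π) {τ : Z → Z → R}
    {F : Set Z} (hτ : Coc τ F) {v : List Z → R} (hv : D τ v ∈ Null R 2 F)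
    (h : ∀ y, π y ∈ F → ∀ᶠ y' in 𝓝 y, v [π y, π y'] = 0) : v ∈ Null R 1 F := by
  intro x hx
  have h1 : ∀ᶠ x' in 𝓝 x, v [x, x'] = 0 := by
    refine (loc_closed hπ (x := x) (P := fun y' => v [x, π y'] = 0) fun y hy => ?_).mono
      fun x' hx' => ?_
    · subst hy
      exact h y hx
    · obtain ⟨y', rfl⟩ := hs x'
      exact hx' y' rfl
  obtain ⟨U1, hU1, c1⟩ := hτ x hx
  obtain ⟨U2, hU2, c2⟩ := hv x hx
  refine ⟨U1 ∩ U2 ∩ {x' | v [x, x'] = 0}, inter_mem (inter_mem hU1 hU2) h1, fun l hl hm => ?_⟩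
  obtain ⟨a, b, rfl⟩ := gl_two hl
  have ha := hm a (by simp)
  have hb := hm b (by simp)
  have h2 := c2 [x, a, b] rfl (by
    intro y hy
    simp only [List.mem_cons, List.not_mem_nil, or_false] at hy
    rcases hy with rfl | rfl | rfl
    exacts [mem_of_mem_nhds hU2, ha.1.2, hb.1.2])
  have h3 := (c1 a ha.1.1).2 x (mem_of_mem_nhds hU1) a ha.1.1
  rw [(c1 a ha.1.1).1] at h3
  rw [D_three, show v [x, a] = 0 from ha.2, show v [x, b] = 0 from hb.2] at h2
  linear_combination τ a x * h2 - v [a, b] * h3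

/-- descent of a cocycle with prescribed primitive along a closed surjection -/
lemma descend [T2Space Z] [CompactSpace Z] {π : W → Z} (hπ : IsClosedMap π) (hc : Continuous π)
    (hs : Function.Surjective π) {τ : Z → Z → R} (hτ : Coc τ univ) {γ γ' E : W → R}
    (hγ : ∀ y, γ y * γ' y = 1)
    (hγτ : ∀ y, ∃ U ∈ 𝓝 y, ∀ a ∈ U, ∀ b ∈ U, γ a * τ (π a) (π b) = γ b)
    (hE : ∀ x, ∃ b : Z → R, ∀ y, π y = x → ∀ᶠ y' in 𝓝 y, b (π y') = γ' y * (E y' - E y)) :
    ∃ v ∈ Zc τ 1 univ ∅, ∀ y, ∃ U ∈ 𝓝 y, ∀ a ∈ U, ∀ b ∈ U, γ a * v [π a, π b] = E b - E a := by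
  choose B hB using hE
  choose C hC1 hC2 using fun x => hτ x (mem_univ x)
  let v : Z → List Z → R := fun x => co1 fun a b => τ a x * (B x b - B x a)
  let U : Z → Set Z := fun x => interior (C x) ∩ {x' | ∀ y', π y' = x' →
    ∃ V ∈ 𝓝 y', ∀ a ∈ V, ∀ b ∈ V, γ a * v x [π a, π b] = E b - E a}
  have hU : ∀ x, U x ∈ 𝓝 x := fun x => by
    refine inter_mem (interior_mem_nhds.2 (hC1 x)) (loc_closed hπ fun y hy => ?_)
    obtain ⟨V, hV, h1⟩ := hγτ y
    refine (eventually_eventually_nhds.2 ((hB x y hy).and hV)).mono fun y' hy' =>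
      ⟨_, hy', fun a ha b hb => ?_⟩
    have h2 := h1 a ha.2 y (mem_of_mem_nhds hV)
    rw [hy] at h2
    show γ a * (τ (π a) x * (B x (π b) - B x (π a))) = E b - E a
    rw [ha.1, hb.1, ← mul_assoc, h2]
    linear_combination (E b - E a) * hγ y
  have hD : ∀ x, D τ (v x) ∈ Null R 2 (U x) := fun x z hz => by
    refine ⟨C x, mem_interior_iff_mem_nhds.1 hz.1, fun l hl hm => ?_⟩
    obtain ⟨a, b, c, rfl⟩ := gl_three hl
    have h1 := (hC2 x a (hm a (by simp))).2 b (hm b (by simp)) x (mem_of_mem_nhds (hC1 x))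
    rw [D_three]
    show τ a b * (τ b x * (B x c - B x b)) - τ a x * (B x c - B x a) +
      τ a x * (B x b - B x a) = 0
    linear_combination (B x c - B x b) * h1
  obtain ⟨c, hc'⟩ := glue_co isCompact_univ 1 U (fun x _ => hU x) v fun x _ x' _ => by
    refine null_of_pull hπ hs (hτ.mono (subset_univ _)) ?_ fun y hy => ?_
    · rw [map_sub]
      exact sub_mem (Null_mono 2 (fun z hz => hz.1.2) (hD x))
        (Null_mono 2 (fun z hz => hz.2) (hD x'))
    · obtain ⟨V, hV, h1⟩ := hy.1.2.2 y rfl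
      obtain ⟨V', hV', h2⟩ := hy.2.2 y rfl
      filter_upwards [hV, hV'] with y' h3 h4
      have h5 := h1 y (mem_of_mem_nhds hV) y' h3
      have h6 := h2 y (mem_of_mem_nhds hV') y' h4
      rw [Pi.sub_apply]
      linear_combination γ' y * h5 - γ' y * h6 - (v x [π y, π y'] - v x' [π y, π y']) * hγ y
  refine ⟨c, ⟨by simp, fun x _ => ?_⟩, fun y => ?_⟩
  · have h1 : D τ c ∈ Null R 2 (univ ∩ U x) := by
      have := add_mem (D_Null τ (hc' x (mem_univ x))) (Null_mono 2 inter_subset_right (hD x))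
      rwa [map_sub, sub_add_cancel] at this
    exact h1 x ⟨mem_univ x, mem_of_mem_nhds (hU x)⟩
  · have hy := mem_of_mem_nhds (hU (π y))
    obtain ⟨V, hV, h1⟩ := hy.2 y rfl
    obtain ⟨V', hV', h2⟩ := hc' (π y) (mem_univ _) (π y) ⟨mem_univ _, hy⟩
    refine ⟨V ∩ π ⁻¹' V', inter_mem hV (hc.continuousAt.preimage_mem_nhds hV'),
      fun a ha b hb => ?_⟩
    have h3 := h2 [π a, π b] rfl (by
      intro z hz
      simp only [List.mem_cons, List.not_mem_nil, or_false] at hz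
      rcases hz with rfl | rfl
      exacts [ha.2, hb.2])
    rw [Pi.sub_apply, sub_eq_zero] at h3
    rw [h3, h1 a ha.1 b hb.1]

end Pool.Agent.P.MP_3d25f3_gt
end

-- part Pool.Agent.P.MP_3d25f3_gt.Mod
section

set_option autoImplicit false

open Set Filter Topology

namespace Pool.Agent.P.MP_3d25f3_gt

variable {g : ℕ} {S : List (ℕ × ℤ)}

lemma continuous_bp (L : ℕ) : Continuous (bp L) := by
  refine Continuous.subtype_mk ?_ _
  unfold bd
  fun_prop

lemma bp_eq_iff {L : ℕ} (hL : L ≠ 0) (u u' : ℝ) : bp L u = bp L u' ↔ ∃ k : ℤ, u' = u + k * L := by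
  have hL' : (L : ℂ) ≠ 0 := by exact_mod_cast hL
  have hpi : (2 * Real.pi * Complex.I : ℂ) ≠ 0 := Complex.two_pi_I_ne_zero
  rw [Subtype.ext_iff]
  change bd L u = bd L u' ↔ _
  unfold bd
  rw [eq_comm, Complex.exp_eq_exp_iff_exists_int]
  refine exists_congr fun k => ?_
  constructor
  · intro h
    have h2 : (2 * Real.pi * Complex.I : ℂ) * (u' : ℂ) =
        (2 * Real.pi * Complex.I : ℂ) * ((u : ℂ) + k * L) := by
      field_simp at h
      linear_combination (2 * Real.pi * Complex.I : ℂ) * h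
    have h3 := mul_left_cancel₀ hpi h2
    exact_mod_cast h3
  · intro h
    rw [h]
    push_cast
    field_simp

lemma exists_ang {L : ℕ} (hL : L ≠ 0) : ∃ ang : Disc → AddCircle (L : ℝ),
    (∀ u, ContinuousAt ang (bp L u)) ∧ ∀ u, ang (bp L u) = u := by
  have hL' : (L : ℝ) ≠ 0 := by exact_mod_cast hL
  have hpi : (2 * Real.pi : ℝ) ≠ 0 := Real.two_pi_pos.ne'
  refine ⟨fun y => AddCircle.homeomorphAddCircle (2 * Real.pi) (L : ℝ) hpi hL'
    (((y : ℂ).arg : ℝ) : Real.Angle), fun u => ?_, fun u => ?_⟩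
  · refine (Homeomorph.continuous _).continuousAt.comp ?_
    have h0 : ((bp L u : Disc) : ℂ) ≠ 0 := by
      intro h
      have := norm_bd L u
      change ‖((bp L u : Disc) : ℂ)‖ = 1 at this
      rw [h] at this
      simp at this
    exact ContinuousAt.comp (f := fun y : Disc => (y : ℂ))
      (Complex.continuousAt_arg_coe_angle h0) continuous_subtype_val.continuousAt
  · have h1 : ((bp L u : Disc) : ℂ) = Complex.exp (((2 * Real.pi * u / L : ℝ) : ℂ) * Complex.I) := by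
      change bd L u = _
      unfold bd
      congr 1
      push_cast
      ring
    have h2 : ((((bp L u : Disc) : ℂ).arg : ℝ) : Real.Angle) =
        ((2 * Real.pi * u / L : ℝ) : Real.Angle) := by
      rw [h1, Complex.arg_exp_mul_I]
      exact Real.Angle.coe_toIocMod _ _
    change AddCircle.homeomorphAddCircle (2 * Real.pi) (L : ℝ) hpi hL'
      ((((bp L u : Disc) : ℂ).arg : ℝ) : Real.Angle) = _
    rw [h2]
    refine (AddCircle.homeomorphAddCircle_apply_mk (2 * Real.pi) (L : ℝ) hpi hL'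
      (2 * Real.pi * u / L)).trans ?_
    congr 1
    field_simp

lemma exists_bp {L : ℕ} (hL : L ≠ 0) {y : Disc} (hy : ‖(y : ℂ)‖ = 1) :
    ∃ u ∈ Ico (0 : ℝ) L, y = bp L u := by
  have hL' : (0 : ℝ) < L := by exact_mod_cast Nat.pos_of_ne_zero hL
  have hLc : (L : ℂ) ≠ 0 := by exact_mod_cast hL
  have hpi : (Real.pi : ℂ) ≠ 0 := by exact_mod_cast Real.pi_ne_zero
  have h1 : y = bp L ((y : ℂ).arg * L / (2 * Real.pi)) := by
    apply Subtype.ext
    change (y : ℂ) = bd L _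
    unfold bd
    have h2 := Complex.norm_mul_exp_arg_mul_I (y : ℂ)
    rw [hy] at h2
    rw [show (2 * Real.pi * Complex.I * (((y : ℂ).arg * L / (2 * Real.pi) : ℝ) : ℂ) / L : ℂ) =
      ((y : ℂ).arg : ℂ) * Complex.I by push_cast; field_simp]
    simpa using h2.symm
  refine ⟨toIcoMod hL' 0 ((y : ℂ).arg * L / (2 * Real.pi)), by
    simpa using toIcoMod_mem_Ico hL' 0 ((y : ℂ).arg * L / (2 * Real.pi)), h1.trans ?_⟩
  rw [bp_eq_iff hL]
  refine ⟨-toIcoDiv hL' 0 ((y : ℂ).arg * L / (2 * Real.pi)), ?_⟩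
  rw [toIcoMod, zsmul_eq_mul]
  push_cast
  ring

lemma continuous_pc : Continuous pc := by
  exact continuous_fst.prodMk ((AddCircle.continuous_mk' (1 : ℝ)).comp continuous_snd)

lemma isOpenMap_pc : IsOpenMap pc := by
  exact IsOpenMap.prodMap (f := (id : Disc → Disc))
    (g := fun z : ℝ => (z : AddCircle (1 : ℝ))) IsOpenMap.id QuotientAddGroup.isOpenMap_coe

lemma pc_surj : Function.Surjective pc := by
  rintro ⟨y, z⟩
  obtain ⟨z, rfl⟩ := QuotientAddGroup.mk_surjective z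
  exact ⟨(y, z), rfl⟩

lemma pc_eq_iff (a b : Cov) : pc a = pc b ↔ a.1 = b.1 ∧ ∃ k : ℤ, b.2 = a.2 + k := by
  unfold pc
  rw [Prod.ext_iff]
  refine and_congr Iff.rfl ?_
  change ((a.2 : ℝ) : AddCircle (1 : ℝ)) = (b.2 : AddCircle (1 : ℝ)) ↔ _
  rw [QuotientAddGroup.eq, AddSubgroup.mem_zmultiples_iff]
  refine exists_congr fun k => ?_
  rw [zsmul_eq_mul, mul_one]
  constructor <;> intro h <;> linarith

lemma continuous_pm : Continuous (pm g S) := continuous_quot_mk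

lemma pm_surj : Function.Surjective (pm g S) := Quot.mk_surjective

lemma continuous_pp : Continuous (pp g S) := continuous_pm.comp continuous_pc

lemma pp_surj : Function.Surjective (pp g S) := pm_surj.comp pc_surj

lemma continuous_ga (e : ℕ) : Continuous (fun p : ℝ × ℝ => ga g S e p.1 p.2) := by
  unfold ga
  exact ((continuous_bp _).comp (by fun_prop)).prodMk continuous_snd

lemma continuous_gb (e : ℕ) : Continuous (fun p : ℝ × ℝ => gb g S e p.1 p.2) := by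
  unfold gb
  exact ((continuous_bp _).comp (by fun_prop)).prodMk (by fun_prop)

lemma pp_per (y : Disc) (z : ℝ) (k : ℤ) : pp g S (y, z + k) = pp g S (y, z) := by
  unfold pp
  rw [(pc_eq_iff (y, z) (y, z + k)).2 ⟨rfl, k, rfl⟩]

lemma pp_glue {e : ℕ} (he : e < NE g S) {s : ℝ} (hs : s ∈ Icc (0 : ℝ) 1) (z : ℝ) :
    pp g S (gb g S e s z) = pp g S (ga g S e s z) := by
  refine (Quot.sound ?_).symm
  exact (glue_iff _ _).2 ⟨e, he, s, hs, rfl, rfl, rfl⟩

lemma desc_solid {A : Type} (f : Solid → A)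
    (h : ∀ e < NE g S, ∀ s ∈ Icc (0 : ℝ) 1, ∀ z, f (pc (gb g S e s z)) = f (pc (ga g S e s z))) :
    ∃ f' : Seifert g S → A, ∀ y, f' (pm g S y) = f y := by
  refine ⟨Quot.lift f ?_, fun _ => rfl⟩
  rintro ⟨x, z⟩ ⟨y, w⟩ hxy
  obtain ⟨e, he, s, hs, h1, h2, h3⟩ := (glue_iff _ _).1 hxy
  obtain ⟨z, rfl⟩ := QuotientAddGroup.mk_surjective z
  dsimp only at h1 h2 h3
  subst h1 h2 h3
  exact (h e he s hs z).symm

lemma desc_pc {A : Type} (f : Cov → A) (h : ∀ y z, f (y, z + 1) = f (y, z)) :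
    ∃ f' : Solid → A, ∀ y, f' (pc y) = f y := by
  have hk : ∀ (k : ℤ) y z, f (y, z + k) = f (y, z) := by
    intro k
    induction k using Int.induction_on with
    | zero => intro y z; simp
    | succ k ih =>
      intro y z
      rw [show z + (((k : ℤ) + 1 : ℤ) : ℝ) = (z + ((k : ℤ) : ℝ)) + 1 by push_cast; ring, h, ih]
    | pred k ih =>
      intro y z
      rw [← h, show z + ((-(k : ℤ) - 1 : ℤ) : ℝ) + 1 = z + ((-(k : ℤ) : ℤ) : ℝ) by push_cast; ring,
        ih]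
  refine ⟨fun x => f (Function.surjInv pc_surj x), fun y => ?_⟩
  obtain ⟨h1, k, h2⟩ := (pc_eq_iff _ _).1 (Function.surjInv_eq pc_surj (pc y)).symm
  have h3 : Function.surjInv pc_surj (pc y) = (y.1, y.2 + k) := Prod.ext h1.symm h2
  change f (Function.surjInv pc_surj (pc y)) = f y
  rw [h3, hk]

lemma desc_cov {A : Type} (f : Cov → A) (h1 : ∀ y z, f (y, z + 1) = f (y, z))
    (h : ∀ e < NE g S, ∀ s ∈ Icc (0 : ℝ) 1, ∀ z, f (gb g S e s z) = f (ga g S e s z)) :
    ∃ f' : Seifert g S → A, ∀ y, f' (pp g S y) = f y := by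
  obtain ⟨f1, hf1⟩ := desc_pc f h1
  obtain ⟨f2, hf2⟩ := desc_solid (g := g) (S := S) f1 (fun e he s hs z => by
    rw [hf1, hf1, h e he s hs z])
  exact ⟨f2, fun y => (hf2 _).trans (hf1 y)⟩

instance : CompactSpace (Seifert g S) := Quot.compactSpace

instance : ConnectedSpace Disc :=
  isConnected_iff_connectedSpace.1 ((convex_closedBall (0 : ℂ) 1).isConnected ⟨0, by simp⟩)

instance : ConnectedSpace (Seifert g S) := pp_surj.connectedSpace continuous_pp

lemma isClosedMap_pm [T2Space (Seifert g S)] : IsClosedMap (pm g S) := continuous_pm.isClosedMap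

/-- the circle action -/
lemma exists_flow [T2Space (Seifert g S)] : ∃ φ : Seifert g S → ℝ → Seifert g S,
    Continuous (Function.uncurry φ) ∧ ∀ y z r, φ (pp g S (y, z)) r = pp g S (y, z + r) := by
  obtain ⟨φ, hφ⟩ := desc_solid (g := g) (S := S)
    (fun (y : Solid) (r : ℝ) => pm g S (y.1, y.2 + (r : AddCircle (1 : ℝ)))) (fun e he s hs z => by
      funext r
      have h1 := pp_glue (g := g) (S := S) he hs (z + r)
      refine Eq.trans ?_ (h1.trans rfl)
      unfold pp pc gb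
      dsimp only
      rw [← AddCircle.coe_add, add_right_comm])
  refine ⟨φ, ?_, fun y z r => ?_⟩
  · have hq : IsQuotientMap (Prod.map (pm g S) (id : ℝ → ℝ)) :=
      IsClosedMap.isQuotientMap
        ((continuous_pm.isProperMap.prodMap isProperMap_id).isClosedMap)
        (continuous_pm.prodMap continuous_id) (pm_surj.prodMap Function.surjective_id)
    rw [hq.continuous_iff]
    have h2 : Function.uncurry φ ∘ Prod.map (pm g S) (id : ℝ → ℝ) =
        fun p : Solid × ℝ => pm g S (p.1.1, p.1.2 + (p.2 : AddCircle (1 : ℝ))) := by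
      funext p
      exact congrFun (hφ p.1) p.2
    rw [h2]
    exact continuous_pm.comp (continuous_fst.fst.prodMk
      (continuous_fst.snd.add ((AddCircle.continuous_mk' (1 : ℝ)).comp continuous_snd)))
  · exact congrFun (hφ (pc (y, z))) r

end Pool.Agent.P.MP_3d25f3_gt
end

-- part Pool.Agent.P.MP_3d25f3_gt.PolD
section

set_option autoImplicit false

open Set Filter Topology

namespace Pool.Agent.P.MP_3d25f3_gt

open Module

/-- the area form of vertex data -/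
noncomputable def area (g : ℕ) (S : List (ℕ × ℤ)) (ρ : ℕ → ℂ) : SF (ZMod (LL g S) → ℂ) :=
  LinearMap.mk₂'ₛₗ (RingHom.id ℂ) (starRingEnd ℂ)
    (fun x y => Complex.I * ∑ e ∈ Finset.range (NE g S), vv g ρ x e * starRingEnd ℂ (ρ e) *
      starRingEnd ℂ (y ((st g e + 1 : ℕ) : ZMod _) - y ((st g e : ℕ) : ZMod _)))
    (fun x x' y => by
      rw [← mul_add, ← Finset.sum_add_distrib]
      congr 1
      exact Finset.sum_congr rfl fun e _ => by simp only [vv, Pi.add_apply]; ring)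
    (fun r x y => by
      simp only [RingHom.id_apply, smul_eq_mul, Finset.mul_sum]
      exact Finset.sum_congr rfl fun e _ => by simp only [vv, Pi.smul_apply, smul_eq_mul]; ring)
    (fun x y y' => by
      rw [← mul_add, ← Finset.sum_add_distrib]
      congr 1
      exact Finset.sum_congr rfl fun e _ => by simp only [Pi.add_apply, map_add, map_sub]; ring)
    (fun r x y => by
      simp only [smul_eq_mul, Finset.mul_sum]
      exact Finset.sum_congr rfl fun e _ => by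
        simp only [Pi.smul_apply, smul_eq_mul, map_sub, map_mul]; ring)

lemma area_apply (g : ℕ) (S : List (ℕ × ℤ)) (ρ : ℕ → ℂ) (x y : ZMod (LL g S) → ℂ) :
    area g S ρ x y = Complex.I * ∑ e ∈ Finset.range (NE g S), vv g ρ x e * starRingEnd ℂ (ρ e) *
      starRingEnd ℂ (y ((st g e + 1 : ℕ) : ZMod _) - y ((st g e : ℕ) : ZMod _)) := rfl

/-- the form of a chain of slits, in the variables `D i` -/
noncomputable def chain (n : ℕ) (ρ : Fin n → ℂ) : SF (Fin n → ℂ) :=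
  gram fun i j => -Complex.I * ((if i < j then 1 - ρ i else if i = j then 1 else 0)
    * starRingEnd ℂ (1 - ρ j))

/-- closed chains -/
noncomputable def clos (n : ℕ) (ρ : Fin n → ℂ) : Submodule ℂ (Fin n → ℂ) :=
  LinearMap.ker (∑ i, (1 - ρ i) • (LinearMap.proj i : (Fin n → ℂ) →ₗ[ℂ] ℂ))

lemma mem_clos (n : ℕ) (ρ : Fin n → ℂ) (D : Fin n → ℂ) :
    D ∈ clos n ρ ↔ ∑ i, (1 - ρ i) * D i = 0 := by
  simp [clos, LinearMap.sum_apply]

/-- the root of unity of a rational angle -/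
noncomputable def rt (μ : ℚ) : ℂ := Complex.exp (2 * Real.pi * Complex.I * μ)

end Pool.Agent.P.MP_3d25f3_gt
end

-- part Pool.Agent.P.MP_3d25f3_gt.Per
section

set_option autoImplicit false

open Set Filter Topology

namespace Pool.Agent.P.MP_3d25f3_gt

variable {g : ℕ} {S : List (ℕ × ℤ)} {R : Type} [CommRing R] {n : Seifert g S → Seifert g S → ℤ}
  {A : Cov → ℤ} {N : ℤ} {ne : ℕ → ℤ} {t : Rˣ} {v : List (Seifert g S) → R} {E : Cov → R}

lemma cov_prim {c : List Cov → R} (hc : c ∈ Zc (1 : Cov → Cov → R) 1 univ ∅) :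
    ∃ E : Cov → R, ∀ y, ∃ U ∈ 𝓝 y, ∀ a ∈ U, ∀ b ∈ U, c [a, b] = E b - E a := by
  let r : ℝ → ℝ := fun s => max 0 (min 1 (1 - s))
  have hr0 : ∀ s, 0 ≤ r s := fun s => le_max_left _ _
  have hr1 : ∀ s, r s ≤ 1 := fun s => max_le zero_le_one (min_le_left _ _)
  have hrc : Continuous r := by fun_prop
  have hmem : ∀ (y : Disc) (s : ℝ), ((r s : ℝ) : ℂ) * (y : ℂ) ∈ Metric.closedBall (0 : ℂ) 1 := by
    intro y s
    have hy := y.2
    simp only [Metric.mem_closedBall, dist_zero_right] at hy ⊢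
    rw [norm_mul, Complex.norm_real, Real.norm_eq_abs, abs_of_nonneg (hr0 s)]
    exact mul_le_one₀ (hr1 s) (norm_nonneg _) hy
  let h : Cov → ℝ → Cov := fun y s => (⟨((r s : ℝ) : ℂ) * (y.1 : ℂ), hmem y.1 s⟩, r s * y.2)
  have hh : Continuous (Function.uncurry h) := by
    refine Continuous.prodMk (Continuous.subtype_mk ?_ _) ?_
    · exact (Complex.continuous_ofReal.comp (hrc.comp continuous_snd)).mul
        (continuous_subtype_val.comp (continuous_fst.comp continuous_fst))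
    · exact (hrc.comp continuous_snd).mul (continuous_snd.comp continuous_fst)
  have h0 : ∀ x, h x 0 = x := by
    intro x
    have : r 0 = 1 := by simp [r]
    ext <;> simp [h, this]
  let p : Cov := (⟨0, by simp⟩, 0)
  have h1 : ∀ x, h x 1 = p := by
    intro x
    have : r 1 = 0 := by simp [r]
    ext <;> simp [h, p, this]
  let K : ℕ → Set Cov := fun m => univ ×ˢ Icc (-(m : ℝ)) m
  have hKm : ∀ m (y : Cov), y ∈ K m ↔ |y.2| ≤ m := fun m y => by simp [K, abs_le]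
  have hex : ∀ m, ∃ b : List Cov → R, c - D 1 b ∈ Null R 1 (K m) := by
    intro m
    have hv : Van (1 : Cov → Cov → R) (0 + 1) (K m) ∅ := by
      refine van_contr 0 (isCompact_univ.prod isCompact_Icc) hh h0 (Coc_one _) ?_ h1
      intro x hx s _
      rw [hKm] at hx ⊢
      show |r s * x.2| ≤ m
      rw [abs_mul, abs_of_nonneg (hr0 s)]
      exact (mul_le_of_le_one_left (abs_nonneg _) (hr1 s)).trans hx
    obtain ⟨b, -, hb⟩ := mem_Bc.1 (hv (Zc_mono _ _ (subset_univ _) subset_rfl hc))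
    exact ⟨b, hb⟩
  choose b hb using hex
  have hloc : ∀ m, ∀ x ∈ K m, ∃ U ∈ 𝓝 x, ∀ a ∈ U, ∀ a' ∈ U, c [a, a'] = b m [a'] - b m [a] := by
    intro m x hx
    obtain ⟨U, hU, hUb⟩ := hb m x hx
    refine ⟨U, hU, fun a ha a' ha' => ?_⟩
    have := hUb [a, a'] rfl (by simp [ha, ha'])
    rw [Pi.sub_apply, D_two, sub_eq_zero] at this
    simpa using this
  have hagree : ∀ m m', m ≤ m' → ∀ x ∈ K m, b m [x] - b m [p] = b m' [x] - b m' [p] := by
    intro m m' hm x hx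
    have hp : p ∈ K m := by rw [hKm]; simp [p]
    have := const_of_loc (f := fun y => b m [y] - b m' [y]) (K := K m)
      (isPreconnected_univ.prod isPreconnected_Icc) (fun y hy => ?_) hx hp
    · linear_combination this
    · obtain ⟨U, hU, h1⟩ := hloc m y hy
      have hy' : y ∈ K m' := by
        rw [hKm] at hy ⊢
        exact hy.trans (by exact_mod_cast hm)
      obtain ⟨U', hU', h2⟩ := hloc m' y hy'
      filter_upwards [mem_nhdsWithin_of_mem_nhds (inter_mem hU hU')] with a ha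
      have e1 := h1 y (mem_of_mem_nhds hU) a ha.1
      have e2 := h2 y (mem_of_mem_nhds hU') a ha.2
      linear_combination e2 - e1
  refine ⟨fun y => b ⌈|y.2|⌉₊ [y] - b ⌈|y.2|⌉₊ [p], fun y => ?_⟩
  obtain ⟨m, hm⟩ := exists_nat_gt |y.2|
  obtain ⟨U, hU, hUb⟩ := hloc m y ((hKm _ _).2 hm.le)
  have hV : {a : Cov | |a.2| < m} ∈ 𝓝 y :=
    (isOpen_lt (continuous_abs.comp continuous_snd) continuous_const).mem_nhds hm
  refine ⟨_, inter_mem hU hV, fun a ha a' ha' => ?_⟩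
  have e1 := hagree _ m (Nat.ceil_le.2 (le_of_lt ha.2)) a ((hKm _ _).2 (Nat.le_ceil _))
  have e2 := hagree _ m (Nat.ceil_le.2 (le_of_lt ha'.2)) a' ((hKm _ _).2 (Nat.le_ceil _))
  have e3 := hUb a ha.1 a' ha'.1
  linear_combination e3 + e1 - e2

/-- a locally constant function on a preconnected space -/
lemma const_of_nhds {Z B : Type} [TopologicalSpace Z] [PreconnectedSpace Z] {f : Z → B}
    (h : ∀ y, ∃ U ∈ 𝓝 y, ∀ a ∈ U, ∀ b ∈ U, f a = f b) (a b : Z) : f a = f b := by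
  refine IsLocallyConstant.apply_eq_of_preconnectedSpace
    ((IsLocallyConstant.iff_eventually_eq f).2 fun y => ?_) a b
  obtain ⟨U, hU, hf⟩ := h y
  filter_upwards [hU] with x hx
  exact hf x hx y (mem_of_mem_nhds hU)

/-- two lifts of one map change a primitive by a constant -/
lemma per_two {X B : Type} [TopologicalSpace X] [PreconnectedSpace X] {f f' : X → Cov}
    (hf : Continuous f) (hf' : Continuous f') {P : Cov → Cov → Prop}
    (hP : ∀ y, ∃ U ∈ 𝓝 y, ∀ a ∈ U, ∀ b ∈ U, P a b) {u : X → B}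
    (hu : ∀ a b, P (f a) (f b) → P (f' a) (f' b) → u a = u b) (a b : X) : u a = u b := by
  refine const_of_nhds (fun x => ?_) a b
  obtain ⟨U, hU, h1⟩ := hP (f x)
  obtain ⟨U', hU', h2⟩ := hP (f' x)
  exact ⟨_, inter_mem (hf.continuousAt hU) (hf'.continuousAt hU'), fun a ha b hb =>
    hu a b (h1 _ ha.1 _ hb.1) (h2 _ ha.2 _ hb.2)⟩

lemma per_shift : Continuous (fun y : Cov => ((y.1, y.2 + 1) : Cov)) := by fun_prop

lemma per_pp (y : Disc) (z : ℝ) : pp g S (y, z + 1) = pp g S (y, z) := by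
  simpa using pp_per (g := g) (S := S) y z 1

lemma per_ga (e : ℕ) : Continuous (fun p : Icc (0 : ℝ) 1 × ℝ => ga g S e p.1 p.2) :=
  (continuous_ga e).comp ((continuous_subtype_val.comp continuous_fst).prodMk continuous_snd)

lemma per_gb (e : ℕ) : Continuous (fun p : Icc (0 : ℝ) 1 × ℝ => gb g S e p.1 p.2) :=
  (continuous_gb e).comp ((continuous_subtype_val.comp continuous_fst).prodMk continuous_snd)

lemma per_conn : PreconnectedSpace (Icc (0 : ℝ) 1) :=
  isPreconnected_iff_preconnectedSpace.1 isPreconnected_Icc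

/-- pull back a local property of pairs -/
lemma per_pull {P : Seifert g S → Seifert g S → Prop}
    (hP : ∀ x, ∃ U ∈ 𝓝 x, ∀ a ∈ U, ∀ b ∈ U, P a b) (y : Cov) :
    ∃ U ∈ 𝓝 y, ∀ a ∈ U, ∀ b ∈ U, P (pp g S a) (pp g S b) := by
  obtain ⟨U, hU, h⟩ := hP (pp g S y)
  exact ⟨_, continuous_pp.continuousAt hU, fun a ha b hb => h _ ha _ hb⟩

lemma per_and {X : Type} [TopologicalSpace X] {P Q : X → X → Prop}
    (hP : ∀ x, ∃ U ∈ 𝓝 x, ∀ a ∈ U, ∀ b ∈ U, P a b) (hQ : ∀ x, ∃ U ∈ 𝓝 x, ∀ a ∈ U, ∀ b ∈ U, Q a b)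
    (x : X) : ∃ U ∈ 𝓝 x, ∀ a ∈ U, ∀ b ∈ U, P a b ∧ Q a b := by
  obtain ⟨U, hU, h1⟩ := hP x
  obtain ⟨U', hU', h2⟩ := hQ x
  exact ⟨_, inter_mem hU hU', fun a ha b hb => ⟨h1 a ha.1 b hb.1, h2 a ha.2 b hb.2⟩⟩

lemma per_null {X : Type} [TopologicalSpace X] {c : List X → R} (hc : c ∈ Null R 1 univ) (x : X) :
    ∃ U ∈ 𝓝 x, ∀ a ∈ U, ∀ b ∈ U, c [a, b] = 0 := by
  obtain ⟨U, hU, h⟩ := hc x (mem_univ _)
  exact ⟨U, hU, fun a ha b hb => h [a, b] rfl (by simp [ha, hb])⟩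

lemma per_zpow (t : Rˣ) (a b : ℤ) :
    ((t ^ (a + b) : Rˣ) : R) = ((t ^ a : Rˣ) : R) * ((t ^ b : Rˣ) : R) := by
  rw [zpow_add, Units.val_mul]

theorem exists_per (hn : CocZ n univ) : ∃ A N ne, Per g S n A N ne := by
  have h1 : CocZ (fun a b => n (pp g S a) (pp g S b)) univ :=
    hn.comp (fun _ _ => continuous_pp.continuousAt) (mapsTo_univ _ _)
  obtain ⟨A, hA⟩ := cov_prim (h1.co1 (R := ℤ))
  have hA' : ∀ y, ∃ U ∈ 𝓝 y, ∀ a ∈ U, ∀ b ∈ U, n (pp g S a) (pp g S b) = A b - A a := by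
    intro y
    obtain ⟨U, hU, h⟩ := hA y
    exact ⟨U, hU, fun a ha b hb => by simpa [co1] using h a ha b hb⟩
  have := per_conn
  let p : Cov := (⟨0, by simp⟩, 0)
  refine ⟨A, A (p.1, p.2 + 1) - A p, fun e => A (gb g S e 0 0) - A (ga g S e 0 0), hA',
    fun y z => ?_, fun e he s hs z => ?_⟩
  · have := per_two continuous_id per_shift hA' (u := fun y => A (y.1, y.2 + 1) - A y)
      (fun a b h1 h2 => by
        rw [per_pp, per_pp] at h2
        simp only [id] at h1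
        linear_combination h2 - h1) (y, z) p
    linear_combination this
  · have := per_two (per_ga e) (per_gb e) hA'
      (u := fun q => A (gb g S e q.1 q.2) - A (ga g S e q.1 q.2))
      (fun a b h1 h2 => by
        rw [pp_glue he a.1.2, pp_glue he b.1.2] at h2
        linear_combination h2 - h1) (⟨s, hs⟩, z) (⟨0, by simp⟩, 0)
    linear_combination this

lemma Per.per_int (h : Per g S n A N ne) (y : Disc) (z : ℝ) (k : ℤ) :
    A (y, z + k) = A (y, z) + k * N := by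
  induction k using Int.induction_on with
  | zero => simp
  | succ k ih =>
    have := h.per y (z + ((k : ℤ) : ℝ))
    rw [show z + (((k : ℤ) + 1 : ℤ) : ℝ) = z + ((k : ℤ) : ℝ) + 1 by push_cast; ring, this, ih]
    ring
  | pred k ih =>
    have := h.per y (z + ((-(k : ℤ) - 1 : ℤ) : ℝ))
    rw [show z + ((-(k : ℤ) - 1 : ℤ) : ℝ) + 1 = z + ((-(k : ℤ) : ℤ) : ℝ) by push_cast; ring,
      ih] at this
    linear_combination -this

lemma Per.slit (h : Per g S n A N ne) (hS : Data S) {e : ℕ} (h1 : 2 * g ≤ e) (h2 : e < NE g S) :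
    (pr g S e).1 * ne e = (pr g S e).2 * N := by
  have hw : wd g e = 2 := by simp [wd, not_lt.2 h1]
  have key : ∀ z, A (bp (LL g S) (st g e + 1), z + sh g S e)
      = A (bp (LL g S) (st g e + 1), z) + ne e := by
    intro z
    have := h.arc e h2 1 (by simp) z
    simp only [ga, gb, hw, one_mul] at this
    rwa [show ((st g e : ℝ) + ((2 : ℕ) : ℝ) - 1) = st g e + 1 by push_cast; ring] at this
  have it : ∀ k : ℕ, A (bp (LL g S) (st g e + 1), k * sh g S e)
      = A (bp (LL g S) (st g e + 1), 0) + k * ne e := by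
    intro k
    induction k with
    | zero => simp
    | succ k ih =>
      rw [show ((k + 1 : ℕ) : ℝ) * sh g S e = k * sh g S e + sh g S e by push_cast; ring, key, ih]
      push_cast
      ring
  have hα : ((pr g S e).1 : ℝ) ≠ 0 := by
    have := (pr_data (g := g) hS e).1
    positivity
  have e1 := it (pr g S e).1
  have e2 := h.per_int (bp (LL g S) (st g e + 1)) 0 (pr g S e).2
  rw [show ((pr g S e).1 : ℝ) * sh g S e = 0 + ((pr g S e).2 : ℝ) by
    rw [sh]; field_simp; ring, e2] at e1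
  linear_combination -e1

lemma Per.dvd (h : Per g S n A N ne) (hS : Data S) {p : ℕ × ℤ} (hp : p ∈ S) : (p.1 : ℤ) ∣ N := by
  obtain ⟨i, hi, rfl⟩ := List.getElem_of_mem hp
  have hs := h.slit hS (e := 2 * g + i) (by omega) (by unfold NE; omega)
  have hpr : pr g S (2 * g + i) = S[i] := by
    simp [pr, List.getD_eq_getElem?_getD, hi]
  rw [hpr] at hs
  have hc : IsCoprime ((S[i]).1 : ℤ) (S[i]).2 := Int.isCoprime_iff_gcd_eq_one.2 (hS.1 _ hp).2
  exact hc.dvd_of_dvd_mul_left ⟨_, hs.symm⟩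

/-- periods are linear in the class -/
lemma Per.lin {n₁ n₂ : Seifert g S → Seifert g S → ℤ} {A₁ A₂ : Cov → ℤ} {N₁ N₂ : ℤ}
    {ne₁ ne₂ : ℕ → ℤ} (h : Per g S n A N ne) (h₁ : Per g S n₁ A₁ N₁ ne₁) (h₂ : Per g S n₂ A₂ N₂ ne₂)
    {c₁ c₂ : ℤ} {a : Seifert g S → ℤ}
    (he : ∀ x, ∃ U ∈ 𝓝 x, ∀ y ∈ U, ∀ z ∈ U, n y z = c₁ * n₁ y z + c₂ * n₂ y z + (a z - a y)) :
    N = c₁ * N₁ + c₂ * N₂ ∧ ∀ e < NE g S, ne e = c₁ * ne₁ e + c₂ * ne₂ e := by
  have hc := const_of_nhds (f := fun y => A y - c₁ * A₁ y - c₂ * A₂ y - a (pp g S y)) fun y => by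
    obtain ⟨U, hU, hh⟩ := per_and (per_and h.prim h₁.prim) (per_and h₂.prim (per_pull he)) y
    refine ⟨U, hU, fun x hx x' hx' => ?_⟩
    obtain ⟨⟨e1, e2⟩, e3, e4⟩ := hh x hx x' hx'
    rw [e1, e2, e3] at e4
    linear_combination -e4
  refine ⟨?_, fun e he' => ?_⟩
  · have := hc (⟨0, by simp⟩, 0 + 1) (⟨0, by simp⟩, 0)
    simp only [h.per, h₁.per, h₂.per, per_pp] at this
    linear_combination this
  · have h0 : (0 : ℝ) ∈ Icc (0 : ℝ) 1 := by simp
    have := hc (gb g S e 0 0) (ga g S e 0 0)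
    simp only [h.arc e he' 0 h0, h₁.arc e he' 0 h0, h₂.arc e he' 0 h0, pp_glue he' h0] at this
    linear_combination this

theorem exists_prim (h : Per g S n A N ne) (hv : v ∈ Zc (tw t n) 1 univ ∅) :
    ∃ E, Prim g S t A v E := by
  have hI : Itw (1 : Cov → Cov → R) (tw t n) (pp g S) (fun y => ((t ^ A y : Rˣ) : R)) univ := by
    intro y _
    obtain ⟨U, hU, hh⟩ := h.prim y
    refine ⟨U, hU, fun a ha b hb => ?_⟩
    simp only [tw, hh a ha b hb, ← per_zpow, Pi.one_apply, one_mul, add_sub_cancel]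
  obtain ⟨E, hE⟩ := cov_prim (pull_Zc hI (fun _ _ => continuous_pp.continuousAt)
    (empty_subset _) (mapsTo_univ _ _) (mapsTo_empty _ _) hv)
  exact ⟨E, fun y => by simpa using hE y⟩

lemma Prim.data (h : Per g S n A N ne) (hE : Prim g S t A v E) : ∃ (vh : R) (ve : ℕ → R),
    (∀ y z, E (y, z + 1) = ((t ^ N : Rˣ) : R) * E (y, z) + vh) ∧
    ∀ e < NE g S, ∀ s ∈ Icc (0 : ℝ) 1, ∀ z,
      E (gb g S e s z) = ((t ^ ne e : Rˣ) : R) * E (ga g S e s z) + ve e := by
  have := per_conn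
  let p : Cov := (⟨0, by simp⟩, 0)
  refine ⟨E (p.1, p.2 + 1) - ((t ^ N : Rˣ) : R) * E p,
    fun e => E (gb g S e 0 0) - ((t ^ ne e : Rˣ) : R) * E (ga g S e 0 0),
    fun y z => ?_, fun e he s hs z => ?_⟩
  · have := per_two continuous_id per_shift hE
      (u := fun y => E (y.1, y.2 + 1) - ((t ^ N : Rˣ) : R) * E y)
      (fun a b h1 h2 => by
        rw [per_pp, per_pp, h.per, per_zpow] at h2
        simp only [id] at h1
        linear_combination h2 - ((t ^ N : Rˣ) : R) * h1) (y, z) p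
    linear_combination this
  · have := per_two (per_ga e) (per_gb e) hE
      (u := fun q => E (gb g S e q.1 q.2) - ((t ^ ne e : Rˣ) : R) * E (ga g S e q.1 q.2))
      (fun a b h1 h2 => by
        rw [pp_glue he a.1.2, pp_glue he b.1.2, h.arc e he _ a.1.2, per_zpow] at h2
        linear_combination h2 - ((t ^ ne e : Rˣ) : R) * h1) (⟨s, hs⟩, z) (⟨0, by simp⟩, 0)
    linear_combination this

lemma Prim.sub {v' : List (Seifert g S) → R} {E' : Cov → R} (hE : Prim g S t A v E)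
    (hE' : Prim g S t A v' E') (a b : R) :
    Prim g S t A (a • v + b • v') (fun y => a * E y + b * E' y) := by
  intro y
  obtain ⟨U, hU, hh⟩ := per_and hE hE' y
  refine ⟨U, hU, fun x hx x' hx' => ?_⟩
  obtain ⟨e1, e2⟩ := hh x hx x' hx'
  simp only [Pi.add_apply, Pi.smul_apply, smul_eq_mul]
  linear_combination a * e1 + b * e2

/-- a cocycle without periods is a coboundary -/
theorem Prim.mem_Bc [T2Space (Seifert g S)] (hn : CocZ n univ) (h : Per g S n A N ne)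
    (hv : v ∈ Zc (tw t n) 1 univ ∅) (hE : Prim g S t A v E)
    (h1 : ∀ y z, E (y, z + 1) = ((t ^ N : Rˣ) : R) * E (y, z))
    (h2 : ∀ e < NE g S, ∀ s ∈ Icc (0 : ℝ) 1, ∀ z,
      E (gb g S e s z) = ((t ^ ne e : Rˣ) : R) * E (ga g S e s z)) : v ∈ Bc (tw t n) 1 univ ∅ := by
  obtain ⟨b, hb⟩ := desc_cov (g := g) (S := S) (fun y => ((t ^ (-A y) : Rˣ) : R) * E y)
    (fun y z => by
      rw [h1, h.per, ← mul_assoc, ← per_zpow]
      congr 4
      ring)
    (fun e he s hs z => by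
      rw [h2 e he s hs, h.arc e he s hs, ← mul_assoc, ← per_zpow]
      congr 4
      ring)
  let B : List (Seifert g S) → R := fun l => match l with
    | [x] => b x
    | _ => 0
  have hτ : Coc (tw t n) univ := hn.tw t
  refine MP_3d25f3_gt.mem_Bc.2 ⟨B, by simp, null_of_pull isClosedMap_pm pm_surj hτ ?_ fun y _ => ?_⟩
  · rw [map_sub]
    exact sub_mem hv.2 (DD_Null (k := 1) (F' := ∅) (hτ.mono sdiff_subset) (by simp))
  · obtain ⟨a, rfl⟩ := pc_surj y
    rw [← isOpenMap_pc.map_nhds_eq continuous_pc.continuousAt, eventually_map]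
    obtain ⟨U, hU, hh⟩ := per_and h.prim hE a
    filter_upwards [hU] with a' ha'
    obtain ⟨e1, e2⟩ := hh a (mem_of_mem_nhds hU) a' ha'
    show (v - D (tw t n) B) [pp g S a, pp g S a'] = 0
    rw [Pi.sub_apply, D_two]
    show v [pp g S a, pp g S a'] - (tw t n (pp g S a) (pp g S a') * b (pp g S a') - b (pp g S a)) = 0
    rw [hb, hb, tw, e1, ← mul_assoc, ← per_zpow, show A a' - A a + -A a' = -A a by ring, ← mul_sub,
      ← e2, ← mul_assoc, ← per_zpow]
    simp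

theorem Prim.of_Bc (h : Per g S n A N ne) (hv : v ∈ Bc (tw t n) 1 univ ∅) (hE : Prim g S t A v E) :
    ∃ C : R, (∀ y z, E (y, z + 1) - C = ((t ^ N : Rˣ) : R) * (E (y, z) - C)) ∧
      ∀ e < NE g S, ∀ s ∈ Icc (0 : ℝ) 1, ∀ z,
        E (gb g S e s z) - C = ((t ^ ne e : Rˣ) : R) * (E (ga g S e s z) - C) := by
  obtain ⟨B, -, hB⟩ := MP_3d25f3_gt.mem_Bc.1 hv
  have hc := const_of_nhds (f := fun y => E y - ((t ^ A y : Rˣ) : R) * B [pp g S y]) fun y => by
    obtain ⟨U, hU, hh⟩ := per_and (per_and h.prim hE) (per_pull (per_null hB)) y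
    refine ⟨U, hU, fun x hx x' hx' => ?_⟩
    obtain ⟨⟨e1, e2⟩, e3⟩ := hh x hx x' hx'
    rw [Pi.sub_apply, D_two, tw, e1] at e3
    have e4 := per_zpow t (A x) (A x' - A x)
    rw [add_sub_cancel] at e4
    rw [e4]
    linear_combination e2 - ((t ^ A x : Rˣ) : R) * e3
  let p : Cov := (⟨0, by simp⟩, 0)
  refine ⟨E p - ((t ^ A p : Rˣ) : R) * B [pp g S p], fun y z => ?_, fun e he s hs z => ?_⟩
  · have e1 := hc (y, z + 1) p
    have e2 := hc (y, z) p
    simp only [h.per, per_pp, per_zpow] at e1 e2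
    linear_combination e1 - ((t ^ N : Rˣ) : R) * e2
  · have e1 := hc (gb g S e s z) p
    have e2 := hc (ga g S e s z) p
    simp only [h.arc e he s hs, pp_glue he hs, per_zpow] at e1 e2
    linear_combination e1 - ((t ^ ne e : Rˣ) : R) * e2

lemma Per.h0 [IsDomain R] (h : Per g S n A N ne) {e : ℕ} (he : e < NE g S) (ht : t ^ ne e ≠ 1)
    {c : List (Seifert g S) → R} (hc : c ∈ Zc (tw t n) 0 univ ∅) (x : Seifert g S) : c [x] = 0 := by
  have hk := const_of_nhds (f := fun y => ((t ^ A y : Rˣ) : R) * c [pp g S y]) fun y => by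
    obtain ⟨U, hU, hh⟩ := per_and h.prim (per_pull (per_null hc.2)) y
    refine ⟨U, hU, fun x hx x' hx' => ?_⟩
    obtain ⟨e1, e3⟩ := hh x hx x' hx'
    rw [D_two, tw, e1] at e3
    have e4 := per_zpow t (A x) (A x' - A x)
    rw [add_sub_cancel] at e4
    rw [e4]
    linear_combination -((t ^ A x : Rˣ) : R) * e3
  have h0 : (0 : ℝ) ∈ Icc (0 : ℝ) 1 := by simp
  obtain ⟨y, rfl⟩ := pp_surj x
  have e1 := hk (gb g S e 0 0) y
  have e2 := hk (ga g S e 0 0) y
  simp only [h.arc e he 0 h0, pp_glue he h0, per_zpow] at e1 e2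
  have e3 : (((t ^ ne e : Rˣ) : R) - 1) * (((t ^ A y : Rˣ) : R) * c [pp g S y]) = 0 := by
    linear_combination e1 - ((t ^ ne e : Rˣ) : R) * e2
  rcases mul_eq_zero.1 e3 with e4 | e4
  · exact absurd (Units.ext (sub_eq_zero.1 e4)) ht
  · exact (mul_eq_zero.1 e4).resolve_left (Units.ne_zero _)

lemma per_cast (h : Per g S n A N ne) :
    Prim g S (1 : Rˣ) A (co1 fun a b => (n a b : R)) (fun y => (A y : R)) := by
  intro y
  obtain ⟨U, hU, hh⟩ := h.prim y
  exact ⟨U, hU, fun a ha b hb => by simp [co1, hh a ha b hb]⟩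

lemma Per.cast_eq_zero (h : Per g S n A N ne)
    (hB : co1 (fun a b => (n a b : R)) ∈ Bc (1 : Seifert g S → Seifert g S → R) 1 univ ∅) :
    (N : R) = 0 := by
  rw [← tw_one n] at hB
  obtain ⟨C, hC, -⟩ := Prim.of_Bc h hB (per_cast h)
  have := hC ⟨0, by simp⟩ 0
  rw [h.per] at this
  simpa using this

lemma Per.cast_mem_Bc [T2Space (Seifert g S)] (hn : CocZ n univ) (h : Per g S n A N ne)
    (h1 : (N : R) = 0) (h2 : ∀ e < NE g S, (ne e : R) = 0) :
    co1 (fun a b => (n a b : R)) ∈ Bc (1 : Seifert g S → Seifert g S → R) 1 univ ∅ := by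
  have hZ := hn.co1 (R := R)
  rw [← tw_one n] at hZ ⊢
  refine Prim.mem_Bc hn h hZ (per_cast h) (fun y z => ?_) (fun e he s hs z => ?_)
  · simp [h.per, h1]
  · simp [h.arc e he s hs, h2 e he]

end Pool.Agent.P.MP_3d25f3_gt
end

-- part Pool.Agent.P.MP_3d25f3_gt.AnnA
section

set_option autoImplicit false

open Set Filter Topology

namespace Pool.Agent.P.MP_3d25f3_gt

variable {g : ℕ} {S : List (ℕ × ℤ)}

def sqr {Z : Type} (b : List Z → ℂ) (u : ℕ → ℕ → Z) (a c : ℕ) : ℂ :=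
  b [u a c, u (a + 1) c, u (a + 1) (c + 1)] - b [u a c, u a (c + 1), u (a + 1) (c + 1)]

noncomputable def uA (g : ℕ) (S : List (ℕ × ℤ)) (e m a c : ℕ) : Cov := ga g S e (a / m) (c / m)

noncomputable def uB (g : ℕ) (S : List (ℕ × ℤ)) (e m a c : ℕ) : Cov := gb g S e (a / m) (c / m)

/-- value of a cochain on a fine triangulation of the boundary torus -/
noncomputable def evT (g : ℕ) (S : List (ℕ × ℤ)) (b : List Solid → ℂ) (m : ℕ) : ℂ :=
  ∑ e ∈ Finset.range (NE g S), ∑ a ∈ Finset.range m, ∑ c ∈ Finset.range m,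
    (sqr b (fun a c => pc (uA g S e m a c)) a c - sqr b (fun a c => pc (uB g S e m a c)) a c)

def Ev (g : ℕ) (S : List (ℕ × ℤ)) (w : List (Seifert g S) → ℂ) (s : ℂ) : Prop :=
  ∃ b : List Solid → ℂ, D 1 b - pull (pm g S) 1 w ∈ Null ℂ 3 univ ∧
    ∃ m₀, ∀ m ≥ m₀, (∀ e < NE g S, (pr g S e).1 ∣ m) → evT g S b m = s

/-- the triple product of `v`, `n` and the conjugate of `v'` -/
noncomputable def wf {Z : Type} (ω : ℂˣ) (n : Z → Z → ℤ) (v v' : List Z → ℂ) : List Z → ℂ :=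
  cup (tw ω⁻¹ n) 1 v (cf (starRingEnd ℂ) (cup (tw ω n) 1 (co1 fun a b => (n a b : ℂ)) v'))

lemma anna_fine {P : Set Cov → Prop} (h : ∀ y, ∃ U ∈ 𝓝 y, P U) {f : ℝ × ℝ → Cov}
    (hf : Continuous f) : ∀ᶠ m : ℕ in atTop, ∀ a ≤ m, ∀ c ≤ m,
      ∃ U, P U ∧ ∀ i ≤ 1, ∀ j ≤ 1, f (((a + i : ℕ) : ℝ) / m, ((c + j : ℕ) : ℝ) / m) ∈ U := by
  choose U hU hP using h
  obtain ⟨δ, hδ, h1⟩ := lebesgue_number_lemma_of_metric
    (s := Icc ((0 : ℝ), (0 : ℝ)) (1, 1)) (c := fun x => interior (f ⁻¹' U (f x))) isCompact_Icc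
    (fun _ => isOpen_interior) (fun x _ => mem_iUnion.2
      ⟨x, mem_interior_iff_mem_nhds.2 (hf.continuousAt.preimage_mem_nhds (hU _))⟩)
  obtain ⟨n, hn⟩ := exists_nat_one_div_lt hδ
  filter_upwards [eventually_ge_atTop (n + 1)] with m hm a ha c hc
  have hm0 : (0 : ℝ) < m := by exact_mod_cast (show 0 < m by omega)
  have key : ∀ a ≤ m, (0 : ℝ) ≤ (a : ℝ) / m ∧ (a : ℝ) / m ≤ 1 := fun a ha =>
    ⟨by positivity, (div_le_one hm0).2 (by exact_mod_cast ha)⟩
  have key2 : ∀ a i : ℕ, i ≤ 1 → dist (((a + i : ℕ) : ℝ) / m) ((a : ℝ) / m) < δ := by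
    intro a i hi
    rw [Real.dist_eq, show ((a + i : ℕ) : ℝ) / m - a / m = i / m by push_cast; ring,
      abs_of_nonneg (by positivity)]
    refine lt_of_le_of_lt ?_ hn
    have h2 : (i : ℝ) ≤ 1 := by exact_mod_cast hi
    have h3 : (n : ℝ) + 1 ≤ m := by exact_mod_cast hm
    exact div_le_div₀ zero_le_one h2 (by positivity) h3
  obtain ⟨y, hy⟩ := h1 ((a : ℝ) / m, (c : ℝ) / m)
    ⟨⟨(key a ha).1, (key c hc).1⟩, ⟨(key a ha).2, (key c hc).2⟩⟩
  refine ⟨_, hP (f y), fun i hi j hj => (hy.trans interior_subset) ?_⟩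
  rw [Metric.mem_ball, Prod.dist_eq]
  exact max_lt (key2 a i hi) (key2 c j hj)

lemma anna_shift {G : ℤ → ℂ} {m : ℕ} (h : ∀ c, G (c + m) = G c) (k : ℤ) :
    ∑ c ∈ Finset.range m, G (c + k) = ∑ c ∈ Finset.range m, G c := by
  have step : ∀ k : ℤ, ∑ c ∈ Finset.range m, G (c + (k + 1)) =
      ∑ c ∈ Finset.range m, G (c + k) := by
    intro k
    rw [← sub_eq_zero, ← Finset.sum_sub_distrib]
    have h1 := Finset.sum_range_sub (fun c : ℕ => G (c + k)) m
    simp only [Nat.cast_add, Nat.cast_one, Nat.cast_zero, zero_add] at h1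
    rw [add_comm (m : ℤ) k, h, sub_self] at h1
    rw [← h1]
    refine Finset.sum_congr rfl fun c _ => ?_
    rw [show (c : ℤ) + (k + 1) = c + 1 + k by ring]
  induction k using Int.induction_on with
  | zero => simp
  | succ k ih => rw [step, ih]
  | pred k ih => rw [← ih, ← step, sub_add_cancel]

lemma anna_pc (y : Disc) (z : ℝ) (k : ℤ) : pc (y, z + k) = pc (y, z) :=
  ((pc_eq_iff (y, z) (y, z + k)).2 ⟨rfl, k, rfl⟩).symm

lemma anna_pc1 (y : Disc) (z : ℝ) : pc (y, 1 + z) = pc (y, 0 + z) := by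
  have := anna_pc y z 1
  rw [Int.cast_one] at this
  rw [add_comm, zero_add, this]

/-- sum over a fibre -/
noncomputable def annaF (a₁ : List Solid → ℂ) (m : ℕ) (y : Disc) (z : ℝ) : ℂ :=
  ∑ c ∈ Finset.range m, a₁ [pc (y, (c : ℝ) / m + z), pc (y, ((c + 1 : ℕ) : ℝ) / m + z)]

lemma annaF_shift (a₁ : List Solid → ℂ) {m : ℕ} (hm : 0 < m) (y : Disc) (k : ℤ) :
    annaF a₁ m y (k / m) = annaF a₁ m y 0 := by
  have hm0 : (m : ℝ) ≠ 0 := by exact_mod_cast hm.ne'
  have h1 := anna_shift (m := m)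
    (G := fun c => a₁ [pc (y, (c : ℝ) / m), pc (y, ((c : ℝ) + 1) / m)]) (fun c => by
      have e1 : (((c + m : ℤ) : ℝ)) / m = c / m + (1 : ℤ) := by push_cast; field_simp
      have e2 : (((c + m : ℤ) : ℝ) + 1) / m = (c + 1) / m + (1 : ℤ) := by
        push_cast; field_simp; ring
      rw [e1, e2, anna_pc, anna_pc]) k
  unfold annaF
  refine Eq.trans ?_ (h1.trans ?_)
  · refine Finset.sum_congr rfl fun c _ => ?_
    have e1 : (c : ℝ) / m + k / m = (((c : ℤ) + k : ℤ) : ℝ) / m := by push_cast; ring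
    have e2 : ((c + 1 : ℕ) : ℝ) / m + k / m = ((((c : ℤ) + k : ℤ) : ℝ) + 1) / m := by
      push_cast; ring
    rw [e1, e2]
  · refine Finset.sum_congr rfl fun c _ => ?_
    simp

lemma fine {P : Set Cov → Prop} (h : ∀ y, ∃ U ∈ 𝓝 y, P U) : ∃ m₀, ∀ m ≥ m₀, ∀ e < NE g S,
    ∀ a ≤ m, ∀ c ≤ m,
      (∃ U, P U ∧ ∀ i ≤ 1, ∀ j ≤ 1, uA g S e m (a + i) (c + j) ∈ U) ∧
      ∃ U, P U ∧ ∀ i ≤ 1, ∀ j ≤ 1, uB g S e m (a + i) (c + j) ∈ U := by
  have h1 : ∀ᶠ m : ℕ in atTop, ∀ e ∈ Finset.range (NE g S), (∀ a ≤ m, ∀ c ≤ m,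
      ∃ U, P U ∧ ∀ i ≤ 1, ∀ j ≤ 1, uA g S e m (a + i) (c + j) ∈ U) ∧ ∀ a ≤ m, ∀ c ≤ m,
      ∃ U, P U ∧ ∀ i ≤ 1, ∀ j ≤ 1, uB g S e m (a + i) (c + j) ∈ U :=
    (eventually_all_finset _).2 fun e _ =>
      (anna_fine h (continuous_ga e)).and (anna_fine h (continuous_gb e))
  obtain ⟨m₀, h2⟩ := eventually_atTop.1 h1
  exact ⟨m₀, fun m hm e he a ha c hc => ⟨(h2 m hm e (Finset.mem_range.2 he)).1 a ha c hc,
    (h2 m hm e (Finset.mem_range.2 he)).2 a ha c hc⟩⟩

lemma sum_sqr_D {Z : Type} (a₁ : List Z → ℂ) (u : ℕ → ℕ → Z) (m : ℕ) (hu : ∀ a, u a m = u a 0) :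
    ∑ a ∈ Finset.range m, ∑ c ∈ Finset.range m, sqr (D 1 a₁) u a c
      = ∑ c ∈ Finset.range m, a₁ [u m c, u m (c + 1)]
        - ∑ c ∈ Finset.range m, a₁ [u 0 c, u 0 (c + 1)] := by
  rw [← Finset.sum_range_sub (fun a => ∑ c ∈ Finset.range m, a₁ [u a c, u a (c + 1)])]
  refine Finset.sum_congr rfl fun a _ => ?_
  have h1 := Finset.sum_range_sub (fun c => a₁ [u a c, u (a + 1) c]) m
  simp only [hu, sub_self] at h1
  rw [← Finset.sum_sub_distrib, ← sub_zero (∑ c ∈ Finset.range m, (_ - _)), ← h1,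
    ← Finset.sum_sub_distrib]
  refine Finset.sum_congr rfl fun c _ => ?_
  simp only [sqr, D_three, Pi.one_apply]
  ring

lemma evT_D (hS : Data S) (a₁ : List Solid → ℂ) {m : ℕ} (hm : 0 < m)
    (h : ∀ e < NE g S, (pr g S e).1 ∣ m) : evT g S (D 1 a₁) m = 0 := by
  have hm0 : (m : ℝ) ≠ 0 := by exact_mod_cast hm.ne'
  have h0 : annaF a₁ m (bp (LL g S) ((LL g S : ℕ) : ℝ)) 0 = annaF a₁ m (bp (LL g S) ((0 : ℕ) : ℝ)) 0 := by
    rw [(bp_eq_iff (NeZero.ne _) ((0 : ℕ) : ℝ) ((LL g S : ℕ) : ℝ)).2 ⟨1, by simp⟩]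
  have h1 := tel (g := g) (S := S) fun j : ℕ => annaF a₁ m (bp (LL g S) j) 0
  simp only [h0, sub_self] at h1
  rw [← h1, evT]
  refine Finset.sum_congr rfl fun e he => ?_
  simp only [Finset.sum_sub_distrib]
  rw [sum_sqr_D a₁ (fun a c => pc (uA g S e m a c)) m, sum_sqr_D a₁ (fun a c => pc (uB g S e m a c)) m]
  · obtain ⟨k, hk⟩ := h e (Finset.mem_range.1 he)
    have hα : (((pr g S e).1 : ℕ) : ℝ) ≠ 0 := by
      intro h2
      have h3 : (pr g S e).1 = 0 := by exact_mod_cast h2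
      rw [h3, zero_mul] at hk
      omega
    have hk0 : (k : ℝ) ≠ 0 := by
      intro h2
      have h3 : k = 0 := by exact_mod_cast h2
      rw [h3, mul_zero] at hk
      omega
    have hsh : sh g S e = (((pr g S e).2 * k : ℤ) : ℝ) / m := by
      have h2 : (m : ℝ) = (pr g S e).1 * k := by exact_mod_cast hk
      rw [sh, h2]
      push_cast
      field_simp
    have hw : ((st g e + wd g e - 1 : ℕ) : ℝ) = st g e + wd g e - 1 := by
      have := wd_ge (g := g) e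
      rw [Nat.cast_sub (by omega)]
      push_cast
      ring
    have h2 := annaF_shift a₁ hm (bp (LL g S) (st g e + wd g e - 1)) ((pr g S e).2 * k)
    rw [← hsh] at h2
    rw [hw, ← h2]
    simp only [annaF, uA, uB, ga, gb, div_self hm0, Nat.cast_zero, zero_div, add_zero, sub_zero,
      zero_mul, one_mul, Nat.cast_add, Nat.cast_one]
    ring
  · intro a
    simp only [uB, gb, div_self hm0, Nat.cast_zero, zero_div, anna_pc1]
  · intro a
    have := anna_pc1 (bp (LL g S) (st g e + a / m)) 0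
    simp only [uA, ga, div_self hm0, Nat.cast_zero, zero_div]
    simpa using this

lemma evT_pull (c : List (Seifert g S) → ℂ) (m : ℕ) : evT g S (pull (pm g S) 1 c) m = 0 := by
  refine Finset.sum_eq_zero fun e he => Finset.sum_eq_zero fun a ha =>
    Finset.sum_eq_zero fun c' _ => ?_
  have ha' := Finset.mem_range.1 ha
  have hm0 : (0 : ℝ) < m := by exact_mod_cast (show 0 < m by omega)
  have key : ∀ a ≤ m, ∀ c', pm g S (pc (uB g S e m a c')) = pm g S (pc (uA g S e m a c')) :=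
    fun a ha c' => pp_glue (Finset.mem_range.1 he)
      ⟨by positivity, (div_le_one hm0).2 (by exact_mod_cast ha)⟩ _
  simp only [sqr, pull_cons, List.map_cons, List.map_nil, key a ha'.le, key (a + 1) ha',
    Pi.one_apply, sub_self]

lemma evT_lin (a b : ℂ) (c c' : List Solid → ℂ) (m : ℕ) :
    evT g S (a • c + b • c') m = a * evT g S c m + b * evT g S c' m := by
  simp only [evT, Finset.mul_sum, ← Finset.sum_add_distrib]
  refine Finset.sum_congr rfl fun e _ => Finset.sum_congr rfl fun i _ =>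
    Finset.sum_congr rfl fun j _ => ?_
  simp only [sqr, Pi.add_apply, Pi.smul_apply, smul_eq_mul]
  ring

lemma evT_Null {c : List Solid → ℂ} (hc : c ∈ Null ℂ 2 (univ : Set Solid)) :
    ∃ m₀, ∀ m ≥ m₀, evT g S c m = 0 := by
  obtain ⟨m₀, h⟩ := fine (g := g) (S := S) (P := fun U => ∀ x ∈ U, ∀ y ∈ U, ∀ z ∈ U,
      c [pc x, pc y, pc z] = 0) fun y => by
    obtain ⟨U, hU, h⟩ := hc (pc y) (mem_univ _)
    refine ⟨pc ⁻¹' U, continuous_pc.continuousAt.preimage_mem_nhds hU,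
      fun x hx y hy z hz => h _ rfl ?_⟩
    simp only [List.mem_cons, List.not_mem_nil, or_false]
    rintro _ (rfl | rfl | rfl)
    exacts [hx, hy, hz]
  refine ⟨m₀, fun m hm => Finset.sum_eq_zero fun e he => Finset.sum_eq_zero fun a ha =>
    Finset.sum_eq_zero fun c' hc' => ?_⟩
  obtain ⟨⟨U, hU, h1⟩, V, hV, h2⟩ := h m hm e (Finset.mem_range.1 he) a
    (Finset.mem_range.1 ha).le c' (Finset.mem_range.1 hc').le
  have a1 := hU _ (h1 0 zero_le_one 0 zero_le_one) _ (h1 1 le_rfl 0 zero_le_one) _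
    (h1 1 le_rfl 1 le_rfl)
  have a2 := hU _ (h1 0 zero_le_one 0 zero_le_one) _ (h1 0 zero_le_one 1 le_rfl) _
    (h1 1 le_rfl 1 le_rfl)
  have a3 := hV _ (h2 0 zero_le_one 0 zero_le_one) _ (h2 1 le_rfl 0 zero_le_one) _
    (h2 1 le_rfl 1 le_rfl)
  have a4 := hV _ (h2 0 zero_le_one 0 zero_le_one) _ (h2 0 zero_le_one 1 le_rfl) _
    (h2 1 le_rfl 1 le_rfl)
  simp only [add_zero] at a1 a2 a3 a4
  simp only [sqr, a1, a2, a3, a4, sub_self]

lemma Ev.lin {w w' : List (Seifert g S) → ℂ} {s s' : ℂ} (h : Ev g S w s) (h' : Ev g S w' s')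
    (a b : ℂ) : Ev g S (a • w + b • w') (a * s + b * s') := by
  obtain ⟨c, hc, m, hm⟩ := h
  obtain ⟨c', hc', m', hm'⟩ := h'
  refine ⟨a • c + b • c', ?_, max m m', fun n hn hd => ?_⟩
  · have := add_mem (Submodule.smul_mem _ a hc) (Submodule.smul_mem _ b hc')
    rw [map_add, map_add, map_smul, map_smul, map_smul, map_smul]
    rw [smul_sub, smul_sub] at this
    rwa [add_sub_add_comm]
  · rw [evT_lin, hm n (le_of_max_le_left hn) hd, hm' n (le_of_max_le_right hn) hd]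

lemma Ev.congr {w w' : List (Seifert g S) → ℂ} {s : ℂ} (h : Ev g S w s)
    (hw : w - w' ∈ Bc (1 : Seifert g S → Seifert g S → ℂ) 3 univ ∅) : Ev g S w' s := by
  obtain ⟨c, hc, m, hm⟩ := h
  obtain ⟨d, -, hd⟩ := mem_Bc.1 hw
  have h1 := pull_Null (f := pm g S) (1 : Solid → ℂ) (G := univ)
    (fun _ _ => continuous_pm.continuousAt) (mapsTo_univ _ _) hd
  have h2 : D 1 (pull (pm g S) 1 d) = pull (pm g S) 1 (D 1 d) :=
    pull_D_eq (1 : Seifert g S → Seifert g S → ℂ) (pm g S) d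
  refine ⟨(1 : ℂ) • c + (-1 : ℂ) • pull (pm g S) 1 d, ?_, m, fun n hn hd => ?_⟩
  · have h3 := add_mem hc h1
    rw [map_sub, map_sub] at h3
    rw [map_add, map_smul, map_smul, h2, one_smul, neg_one_smul]
    have e : ∀ x y z t : List Solid → ℂ, x + -t - z = x - y + (y - z - t) := fun x y z t => by abel
    rwa [e _ (pull (pm g S) 1 w)]
  · rw [evT_lin, hm n hn hd, evT_pull]
    ring

end Pool.Agent.P.MP_3d25f3_gt
end

-- part Pool.Agent.P.MP_3d25f3_gt.FacD
section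

set_option autoImplicit false

open Set Filter Topology

namespace Pool.Agent.P.MP_3d25f3_gt

open Module

variable {X Y N : Set E4} {n : E4 → E4 → ℤ}

lemma hev (ω : ℂˣ) (n : E4 → E4 → ℤ) : ∀ x y, evL ω (tw tL n x y) = tw ω n x y :=
  tw_map _ (evL_t ω) n

lemma hev' (ω : ℂˣ) (n : E4 → E4 → ℤ) : ∀ x y, evL ω (tw tL⁻¹ n x y) = tw ω⁻¹ n x y :=
  tw_map _ (evL_t_inv ω) n

lemma hsg (n : E4 → E4 → ℤ) : ∀ x y, sgL (tw tL n x y) = tw tL⁻¹ n x y := tw_map _ sgL_t n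

lemma hsg' (n : E4 → E4 → ℤ) : ∀ x y, sgL (tw tL⁻¹ n x y) = tw tL n x y := tw_map _ sgL_t_inv n

lemma hcj {Z : Type} {ω : ℂˣ} (hω : ‖(ω : ℂ)‖ = 1) (n : Z → Z → ℤ) :
    ∀ x y, starRingEnd ℂ (tw ω n x y) = tw ω⁻¹ n x y := tw_map _ (conj_unit hω) n

/-- a side with an integer cocycle on an open neighbourhood -/
structure XN (X Y N : Set E4) (n : E4 → E4 → ℤ) : Prop where
  xy : XY X Y
  op : IsOpen N
  sub : X ⊆ N
  coc : CocZ n N

lemma XN.good (h : XN X Y N n) {R : Type} [CommRing R] (t : Rˣ) : Good (tw t n) (tw t⁻¹ n) N :=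
  good_tw h.op h.coc t

lemma XN.cocX (h : XN X Y N n) {R : Type} [CommRing R] (t : Rˣ) : Coc (tw t n) X :=
  (h.good t).coc.mono h.sub

lemma XN.ok (h : XN X Y N n) {R : Type} [CommRing R] (t : Rˣ) :
    POK (tw t n) (tw t⁻¹ n) (Out 4) univ Y X ∅ := h.xy.ok (h.good t) h.sub

/-- the sesquilinear pairing over the Laurent ring -/
noncomputable def lamL (h : XN X Y N n) :
    H (tw tL n) 2 univ Y →ₗ[La] H (tw tL n) 2 X ∅ →ₛₗ[sgL] La :=
  (pair (h.ok tL) (i := 2) (j := 2) rfl).compl₂ (cmap sgL (hsg n) 2 X ∅)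

noncomputable def pbL (h : XN X Y N n) {ω : ℂˣ} (hω : ‖(ω : ℂ)‖ = 1) :
    H (tw ω n) 2 univ Y →ₗ[ℂ] H (tw tL n) 2 X ∅ →+ ℂ where
  toFun x := ((pair (h.ok ω) (i := 2) (j := 2) rfl x).toAddMonoidHom.comp
    (cmap (starRingEnd ℂ) (hcj hω n) 2 X ∅).toAddMonoidHom).comp
      (cmap (evL ω) (hev ω n) 2 X ∅).toAddMonoidHom
  map_add' x y := by ext b; simp
  map_smul' c x := by ext b; simp

lemma pbL_apply (h : XN X Y N n) {ω : ℂˣ} (hω : ‖(ω : ℂ)‖ = 1) (x : H (tw ω n) 2 univ Y)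
    (b : H (tw tL n) 2 X ∅) : pbL h hω x b = pair (h.ok ω) (i := 2) (j := 2) rfl x
      (cmap (starRingEnd ℂ) (hcj hω n) 2 X ∅ (cmap (evL ω) (hev ω n) 2 X ∅ b)) := rfl

/-- `W` is the triple product form on the hypersurface -/
def IsW (h : XY X Y) (ω : ℂˣ) (n : E4 → E4 → ℤ) (W : SF (H (tw ω n) 1 (X ∩ Y) ∅)) : Prop :=
  ∀ v hv v' hv', ∃ hw, W (cl v hv) (cl v' hv') = intM ℂ h (cl (wf ω n v v') hw)

end Pool.Agent.P.MP_3d25f3_gt
end

-- part Pool.Agent.P.MP_3d25f3_gt.SdA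
section

set_option autoImplicit false

open Set Filter Topology

namespace Pool.Agent.P.MP_3d25f3_gt

/-- locally flat hypersurface -/
def Flat {Z : Type} [TopologicalSpace Z] (M : Set Z) : Prop :=
  ∀ x ∈ M, ∃ φ : OpenPartialHomeomorph Z E4, x ∈ φ.source ∧ ∀ y ∈ φ.source, (y ∈ M ↔ φ y 0 = 0)

lemma sda_both {Z : Type} [TopologicalSpace Z] {φ : OpenPartialHomeomorph Z E4} {x : Z}
    (h1 : x ∈ φ.source) (h0 : φ x 0 = 0) :
    (∃ᶠ y in 𝓝 x, 0 < φ y 0) ∧ ∃ᶠ y in 𝓝 x, φ y 0 < 0 := by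
  have h2 : map (fun q : E4 => q 0) (𝓝 (φ x)) = 𝓝 (φ x 0) :=
    (isOpenMap_eval (0 : Fin 4)).map_nhds_eq (continuous_apply (0 : Fin 4)).continuousAt
  have h3 : map (fun y => φ y 0) (𝓝 x) = 𝓝 (0 : ℝ) := by
    rw [← h0, ← h2, ← φ.map_nhds_eq h1, map_map]
    rfl
  constructor
  · have h4 := frequently_gt_nhds (0 : ℝ)
    rw [← h3, frequently_map] at h4
    exact h4
  · have h4 := frequently_lt_nhds (0 : ℝ)
    rw [← h3, frequently_map] at h4
    exact h4

lemma sda_sign {X : Type} [TopologicalSpace X] {S : Set X} (hS : IsPreconnected S) {g : X → ℝ}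
    (hg : ContinuousOn g S) (h : ∀ q ∈ S, g q ≠ 0) :
    (∀ q ∈ S, 0 < g q) ∨ ∀ q ∈ S, g q < 0 := by
  by_contra hc
  rw [not_or] at hc
  obtain ⟨h1, h2⟩ := hc
  push Not at h1 h2
  obtain ⟨a, ha, ha'⟩ := h1
  obtain ⟨b, hb, hb'⟩ := h2
  obtain ⟨q, hq, hq'⟩ := hS.intermediate_value ha hb hg ⟨ha', hb'⟩
  exact h q hq hq'

lemma two_charts {Z : Type} [TopologicalSpace Z] {M : Set Z} {φ ψ : OpenPartialHomeomorph Z E4}
    (hφ : ∀ y ∈ φ.source, (y ∈ M ↔ φ y 0 = 0)) (hψ : ∀ y ∈ ψ.source, (y ∈ M ↔ ψ y 0 = 0)) {x : Z}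
    (hx : x ∈ M) (h1 : x ∈ φ.source) (h2 : x ∈ ψ.source) :
    (∀ᶠ y in 𝓝 x, (0 < φ y 0 ↔ 0 < ψ y 0)) ∨ (∀ᶠ y in 𝓝 x, (0 < φ y 0 ↔ ψ y 0 < 0)) := by
  have hO : IsOpen (φ.target ∩ φ.symm ⁻¹' ψ.source) := φ.isOpen_inter_preimage_symm ψ.open_source
  have hp : φ x ∈ φ.target ∩ φ.symm ⁻¹' ψ.source :=
    ⟨φ.map_source h1, by rw [mem_preimage, φ.left_inv h1]; exact h2⟩
  obtain ⟨r, hr, hB⟩ := Metric.isOpen_iff.1 hO _ hp
  have hg : ContinuousOn (fun q => ψ (φ.symm q) 0) (Metric.ball (φ x) r) :=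
    (continuous_apply (0 : Fin 4)).comp_continuousOn
      (ψ.continuousOn.comp (φ.continuousOn_symm.mono fun q hq => (hB hq).1) fun q hq => (hB hq).2)
  have hne : ∀ q ∈ Metric.ball (φ x) r, q 0 ≠ 0 → ψ (φ.symm q) 0 ≠ 0 := by
    intro q hq h0 h
    have h3 := (hφ _ (φ.map_target (hB hq).1)).1 ((hψ _ (hB hq).2).2 h)
    rw [φ.right_inv (hB hq).1] at h3
    exact h0 h3
  have hl : IsLinearMap ℝ (fun q : E4 => q 0) := ⟨fun _ _ => rfl, fun _ _ => rfl⟩
  have hP := sda_sign ((convex_ball (φ x) r).inter (convex_halfSpace_gt hl 0)).isPreconnected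
    (hg.mono inter_subset_left) fun q hq => hne q hq.1 (ne_of_gt hq.2)
  have hN := sda_sign ((convex_ball (φ x) r).inter (convex_halfSpace_lt hl 0)).isPreconnected
    (hg.mono inter_subset_left) fun q hq => hne q hq.1 (ne_of_lt hq.2)
  have hev : ∀ᶠ y in 𝓝 x, φ y ∈ Metric.ball (φ x) r ∧ φ.symm (φ y) = y ∧
      (φ y 0 = 0 → ψ y 0 = 0) := by
    filter_upwards [(φ.continuousAt h1).eventually (Metric.ball_mem_nhds _ hr),
      φ.open_source.mem_nhds h1, ψ.open_source.mem_nhds h2] with y a b c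
    exact ⟨a, φ.left_inv b, fun h => (hψ y c).1 ((hφ y b).2 h)⟩
  obtain ⟨hb1, hb2⟩ := sda_both h2 ((hψ x h2).1 hx)
  rcases hP with hP | hP <;> rcases hN with hN | hN
  · exfalso
    obtain ⟨y, hy, a, b, c⟩ := (hb2.and_eventually hev).exists
    rcases lt_trichotomy (φ y 0) 0 with h | h | h
    · have := hN _ ⟨a, h⟩
      rw [b] at this; linarith
    · have := c h
      linarith
    · have := hP _ ⟨a, h⟩
      rw [b] at this; linarith
  · left
    filter_upwards [hev] with y ⟨a, b, c⟩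
    refine ⟨fun h => by have := hP _ ⟨a, h⟩; rwa [b] at this, fun hy => ?_⟩
    rcases lt_trichotomy (φ y 0) 0 with h | h | h
    · have := hN _ ⟨a, h⟩
      rw [b] at this; linarith
    · have := c h
      linarith
    · exact h
  · right
    filter_upwards [hev] with y ⟨a, b, c⟩
    refine ⟨fun h => by have := hP _ ⟨a, h⟩; rwa [b] at this, fun hy => ?_⟩
    rcases lt_trichotomy (φ y 0) 0 with h | h | h
    · have := hN _ ⟨a, h⟩
      rw [b] at this; linarith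
    · have := c h
      linarith
    · exact h
  · exfalso
    obtain ⟨y, hy, a, b, c⟩ := (hb1.and_eventually hev).exists
    rcases lt_trichotomy (φ y 0) 0 with h | h | h
    · have := hN _ ⟨a, h⟩
      rw [b] at this; linarith
    · have := c h
      linarith
    · have := hP _ ⟨a, h⟩
      rw [b] at this; linarith

lemma chart_both {Z : Type} [TopologicalSpace Z] {φ : OpenPartialHomeomorph Z E4} {x : Z}
    (h1 : x ∈ φ.source) (h0 : φ x 0 = 0) :
    (∃ᶠ y in 𝓝 x, 0 < φ y 0) ∧ ∃ᶠ y in 𝓝 x, φ y 0 < 0 := sda_both h1 h0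

/-- local functions given off a nowhere dense set extend over it compatibly -/
lemma sda_ext {Z R : Type} [TopologicalSpace Z] [CommRing R] {M : Set Z}
    (hM : ∀ y, ∃ᶠ w in 𝓝 y, w ∉ M) (U : Z → Set Z) (hU : ∀ x, IsOpen (U x)) (hx : ∀ x, x ∈ U x)
    (σ : Z → Z → R)
    (h : ∀ x x' y, y ∈ U x → y ∈ U x' → ∃ c, ∀ᶠ w in 𝓝 y, w ∉ M → σ x w - σ x' w = c) :
    ∃ b : Z → Z → R,
      (∀ x x' y, y ∈ U x → y ∈ U x' → ∀ᶠ z in 𝓝 y, b x z - b x' z = b x y - b x' y) ∧
      ∀ x z, z ∈ U x → ∀ᶠ w in 𝓝 z, w ∉ M → σ x w - σ z w = b x z := by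
  choose! e he using h
  have h2 : ∀ x x' z, z ∈ U x → z ∈ U x' →
      ∀ᶠ w in 𝓝 z, w ∉ M → σ x w - σ x' w = e x z z - e x' z z := by
    intro x x' z a b
    filter_upwards [he x z z a (hx z), he x' z z b (hx z)] with w p q hw
    rw [← p hw, ← q hw]
    ring
  refine ⟨fun x z => e x z z, fun x x' y a b => ?_, fun x z a => he x z z a (hx z)⟩
  filter_upwards [(h2 x x' y a b).eventually_nhds, (hU x).mem_nhds a, (hU x').mem_nhds b]
    with z p a' b'
  obtain ⟨w, hw, p1, p2⟩ := ((hM z).and_eventually (p.and (h2 x x' z a' b'))).exists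
  rw [← p1 hw, ← p2 hw]

/-- local functions with locally constant differences come from one function -/
lemma sda_glue {R : Type} [CommRing R] {K : Set E4} (hK : IsCompact K) (hc : Convex ℝ K)
    (U : E4 → Set E4) (hU : ∀ x, U x ∈ 𝓝 x) (b : E4 → E4 → R)
    (h : ∀ x x' y, y ∈ U x → y ∈ U x' → ∀ᶠ z in 𝓝 y, b x z - b x' z = b x y - b x' y) :
    ∃ β : E4 → R, ∀ x ∈ K, ∀ᶠ z in 𝓝 x, β z - b x z = β x - b x x := by
  have hlen : ∀ l : List E4, l.length = 1 + 1 → ∃ p q, l = [p, q] := fun l hl =>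
    List.length_eq_two.1 hl
  obtain ⟨c, hc1⟩ := glue_co hK 1 U (fun x _ => hU x)
    (fun x => D (1 : E4 → E4 → R) fun l => b x (l.headD 0)) (by
      intro x _ x' _ y hy
      refine ⟨_, h x x' y hy.1.2 hy.2, fun l hl hl' => ?_⟩
      obtain ⟨p, q, rfl⟩ := hlen l hl
      have hp : b x p - b x' p = b x y - b x' y := hl' p (by simp)
      have hq : b x q - b x' q = b x y - b x' y := hl' q (by simp)
      simp only [Pi.sub_apply, D_two, Pi.one_apply, one_mul, List.headD_cons]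
      linear_combination hq - hp)
  have hZ : c ∈ Zc (1 : E4 → E4 → R) 1 K ∅ := by
    refine ⟨by simp, fun x hx => ?_⟩
    have h1 := D_Null (1 : E4 → E4 → R) (hc1 x hx)
    have h2 : D (1 : E4 → E4 → R) (D (1 : E4 → E4 → R) fun l => b x (l.headD 0)) ∈
        Null R (1 + 1) (K ∩ U x) :=
      DD_Null (k := 1) (F' := ∅) (Coc_one _) (by simp)
    have h3 := add_mem h1 h2
    rw [map_sub, sub_add_cancel] at h3
    exact h3 x ⟨hx, mem_of_mem_nhds (hU x)⟩
  obtain ⟨β, -, hβ⟩ := mem_Bc.1 (van_convex 0 hK hc (Coc_one K) hZ)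
  refine ⟨fun z => β [z], fun x hx => ?_⟩
  have h1 := sub_mem (Null_mono _ (inter_subset_left (t := U x)) hβ) (hc1 x hx)
  obtain ⟨W, hW, h2⟩ := h1 x ⟨hx, mem_of_mem_nhds (hU x)⟩
  filter_upwards [hW] with z hz
  have h3 := h2 [x, z] rfl (by
    intro y hy
    simp only [List.mem_cons, List.not_mem_nil, or_false] at hy
    rcases hy with rfl | rfl
    · exact mem_of_mem_nhds hW
    · exact hz)
  simp only [Pi.sub_apply, D_two, Pi.one_apply, one_mul, List.headD_cons] at h3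
  linear_combination -h3

/-- a side function -/
lemma sda_fun {M : Set E4} (hM : IsCompact M) (hf : Flat M) {K : Set E4} (hK : IsCompact K)
    (hc : Convex ℝ K) :
    ∃ β : E4 → ZMod 2, (∀ x ∈ K, x ∉ M → ∀ᶠ z in 𝓝 x, β z = β x) ∧
      ∀ x ∈ K, x ∈ M → ∃ φ : OpenPartialHomeomorph E4 E4, x ∈ φ.source ∧
        (∀ y ∈ φ.source, (y ∈ M ↔ φ y 0 = 0)) ∧
        ∃ c, ∀ᶠ z in 𝓝 x, z ∉ M → β z = (if 0 < φ z 0 then 1 else 0) + c := by
  classical
  have : Nonempty (OpenPartialHomeomorph E4 E4) := ⟨OpenPartialHomeomorph.refl _⟩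
  choose! φ h1 h2 using hf
  have hMc : IsOpen Mᶜ := hM.isClosed.isOpen_compl
  let U : E4 → Set E4 := fun x => if x ∈ M then (φ x).source else Mᶜ
  let σ : E4 → E4 → ZMod 2 := fun x w => if x ∈ M then (if 0 < φ x w 0 then 1 else 0) else 0
  have hU : ∀ x, IsOpen (U x) := by
    intro x
    by_cases hx : x ∈ M
    · simp only [U, if_pos hx]; exact (φ x).open_source
    · simp only [U, if_neg hx]; exact hMc
  have hxU : ∀ x, x ∈ U x := by
    intro x
    by_cases hx : x ∈ M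
    · simp only [U, if_pos hx]; exact h1 x hx
    · simp only [U, if_neg hx]; exact hx
  have hnd : ∀ y, ∃ᶠ w in 𝓝 y, w ∉ M := by
    intro y
    by_cases hy : y ∈ M
    · refine ((sda_both (h1 y hy) ((h2 y hy y (h1 y hy)).1 hy)).1.and_eventually
        ((φ y).open_source.mem_nhds (h1 y hy))).mono fun w hw hw' => ?_
      exact hw.1.ne' ((h2 y hy w hw.2).1 hw')
    · exact (hMc.eventually_mem hy).frequently
  have hloc : ∀ x y, y ∈ U x → y ∉ M → ∀ᶠ w in 𝓝 y, σ x w = σ x y := by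
    intro x y hy hyM
    by_cases hx : x ∈ M
    · simp only [U, if_pos hx] at hy
      simp only [σ, if_pos hx]
      have hcont : ContinuousAt (fun w => φ x w 0) y :=
        (continuous_apply (0 : Fin 4)).continuousAt.comp ((φ x).continuousAt hy)
      rcases lt_or_gt_of_ne (fun h => hyM ((h2 x hx y hy).2 h)) with h | h
      · filter_upwards [hcont.eventually (gt_mem_nhds h)] with w hw
        rw [if_neg (not_lt.2 hw.le), if_neg (not_lt.2 h.le)]
      · filter_upwards [hcont.eventually (lt_mem_nhds h)] with w hw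
        rw [if_pos hw, if_pos h]
    · simp only [σ, if_neg hx]
      exact Eventually.of_forall fun _ => trivial
  obtain ⟨b, hb1, hb2⟩ := sda_ext hnd U hU hxU σ (by
    intro x x' y hy hy'
    by_cases hyM : y ∈ M
    · have hx : x ∈ M := by
        by_contra hx
        simp only [U, if_neg hx] at hy
        exact hy hyM
      have hx' : x' ∈ M := by
        by_contra hx'
        simp only [U, if_neg hx'] at hy'
        exact hy' hyM
      simp only [U, if_pos hx] at hy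
      simp only [U, if_pos hx'] at hy'
      simp only [σ, if_pos hx, if_pos hx']
      rcases two_charts (h2 x hx) (h2 x' hx') hyM hy hy' with h | h
      · refine ⟨0, h.mono fun w hw _ => ?_⟩
        simp only [hw, sub_self]
      · refine ⟨1, ?_⟩
        filter_upwards [h, (φ x').open_source.mem_nhds hy'] with w hw hw' hwM
        rcases lt_or_gt_of_ne (fun h => hwM ((h2 x' hx' w hw').2 h)) with h | h
        · rw [if_pos (hw.2 h), if_neg (not_lt.2 h.le)]; decide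
        · rw [if_neg (fun h' => absurd (hw.1 h') (not_lt.2 h.le)), if_pos h]; decide
    · refine ⟨σ x y - σ x' y, ?_⟩
      filter_upwards [hloc x y hy hyM, hloc x' y hy' hyM] with w p q _
      rw [p, q])
  have hb3 : ∀ x z, z ∈ U x → z ∉ M → b x z = σ x z := by
    intro x z hz hzM
    have h := (hb2 x z hz).self_of_nhds hzM
    rw [← h]
    simp only [σ, if_neg hzM, sub_zero]
  obtain ⟨β, hβ⟩ := sda_glue hK hc U (fun x => (hU x).mem_nhds (hxU x)) b hb1
  refine ⟨β, fun x hx hxM => ?_, fun x hx hxM => ⟨φ x, h1 x hxM, h2 x hxM, β x - b x x, ?_⟩⟩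
  · filter_upwards [hβ x hx, (hU x).mem_nhds (hxU x), hMc.mem_nhds hxM] with z p q r
    rw [hb3 x z q r, hb3 x x (hxU x) hxM] at p
    simpa only [σ, if_neg hxM, sub_zero] using p
  · filter_upwards [hβ x hx, (hU x).mem_nhds (hxU x)] with z p q r
    rw [hb3 x z q r] at p
    simp only [σ, if_pos hxM] at p
    rw [← p]
    ring

/-- a compact locally flat hypersurface of `ℝ⁴` has two sides -/
theorem sides {M : Set E4} (hM : IsCompact M) (hb : M ⊆ Metric.ball 0 1) (hf : Flat M) :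
    ∃ X Y, XY X Y ∧ X ∩ Y = M := by
  classical
  obtain ⟨β, hβ1, hβ2⟩ := sda_fun hM hf (isCompact_closedBall (0 : E4) 1) (convex_closedBall 0 1)
  have hMc : IsOpen Mᶜ := hM.isClosed.isOpen_compl
  have hS : IsPreconnected (Metric.sphere (0 : E4) 1) :=
    isPreconnected_sphere (by rw [← Module.finrank_eq_rank]; simp) 0 1
  have hSM : ∀ x ∈ Metric.sphere (0 : E4) 1, x ∉ M := fun x hx hx' =>
    (Metric.mem_ball.1 (hb hx')).ne (Metric.mem_sphere.1 hx)
  obtain ⟨c0, hc0⟩ : ∃ c0, ∀ x ∈ Metric.sphere (0 : E4) 1, β x = c0 := by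
    rcases (Metric.sphere (0 : E4) 1).eq_empty_or_nonempty with h | ⟨p, hp⟩
    · exact ⟨0, fun x hx => by rw [h] at hx; exact hx.elim⟩
    · exact ⟨β p, fun x hx => const_of_loc hS (fun y hy => mem_nhdsWithin_of_mem_nhds
        (hβ1 y (Metric.sphere_subset_closedBall hy) (hSM y hy))) hx hp⟩
  let s : E4 → ZMod 2 := fun z => if z ∈ Metric.ball (0 : E4) 1 then β z - c0 else 0
  have hs1 : ∀ x, x ∉ M → ∀ᶠ z in 𝓝 x, s z = s x := by
    intro x hx
    rcases lt_trichotomy (dist x 0) 1 with h | h | h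
    · have h' : x ∈ Metric.ball (0 : E4) 1 := h
      filter_upwards [hβ1 x (Metric.ball_subset_closedBall h') hx,
        Metric.isOpen_ball.mem_nhds h'] with z p q
      simp only [s, if_pos q, if_pos h', p]
    · have h' : x ∉ Metric.ball (0 : E4) 1 := fun h' => (Metric.mem_ball.1 h').ne h
      filter_upwards [hβ1 x (Metric.sphere_subset_closedBall h) hx] with z p
      simp only [s, if_neg h', p, hc0 x h, sub_self, ite_self]
    · have h' : x ∈ (Metric.closedBall (0 : E4) 1)ᶜ := fun h' => absurd h (not_lt.2 h')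
      filter_upwards [Metric.isClosed_closedBall.isOpen_compl.mem_nhds h'] with z p
      simp only [s, if_neg (fun q => p (Metric.ball_subset_closedBall q)),
        if_neg (fun q => h' (Metric.ball_subset_closedBall q))]
  have hcl : ∀ a : ZMod 2, IsClosed (M ∪ {z | s z = a}) := by
    intro a
    rw [← isOpen_compl_iff, isOpen_iff_mem_nhds]
    intro x hx
    rw [mem_compl_iff, mem_union, not_or] at hx
    filter_upwards [hs1 x hx.1, hMc.mem_nhds hx.1] with z p q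
    rintro (h | h)
    · exact q h
    · exact hx.2 (p.symm.trans h)
  have h01 : ∀ a : ZMod 2, a = 1 ∨ a = 0 := by decide
  have hI : (M ∪ {z | s z = 1}) ∩ (M ∪ {z | s z = 0}) = M := by
    rw [← union_inter_distrib_left]
    refine union_eq_left.2 fun z hz => ?_
    exact absurd (hz.1.symm.trans hz.2) (by decide)
  have key : ∀ (φ : OpenPartialHomeomorph E4 E4) (x : E4), x ∈ φ.source →
      (∀ y ∈ φ.source, (y ∈ M ↔ φ y 0 = 0)) →
      (∀ᶠ z in 𝓝 x, z ∉ M → s z = if 0 < φ z 0 then 1 else 0) →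
      ∃ φ : OpenPartialHomeomorph E4 E4, x ∈ φ.source ∧ ∀ y ∈ φ.source,
        (y ∈ M ∪ {z | s z = 1} ↔ 0 ≤ φ y 0) ∧ (y ∈ M ∪ {z | s z = 0} ↔ φ y 0 ≤ 0) := by
    intro φ x h1 h2 h3
    obtain ⟨W, hW, hWo, hxW⟩ := eventually_nhds_iff.1 h3
    refine ⟨φ.restrOpen W hWo, ⟨h1, hxW⟩, fun y hy => ?_⟩
    have hy1 : y ∈ φ.source := hy.1
    show (y ∈ M ∨ s y = 1 ↔ 0 ≤ φ y 0) ∧ (y ∈ M ∨ s y = 0 ↔ φ y 0 ≤ 0)
    by_cases hyM : y ∈ M
    · have h := (h2 y hy1).1 hyM
      exact ⟨⟨fun _ => h.ge, fun _ => Or.inl hyM⟩, ⟨fun _ => h.le, fun _ => Or.inl hyM⟩⟩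
    · have h4 := hW y hy.2 hyM
      rcases lt_or_gt_of_ne (fun h => hyM ((h2 y hy1).2 h)) with h | h
      · rw [if_neg (not_lt.2 h.le)] at h4
        refine ⟨⟨fun h5 => ?_, fun h5 => absurd h (not_lt.2 h5)⟩,
          ⟨fun _ => h.le, fun _ => Or.inr h4⟩⟩
        exact absurd (h4.symm.trans (h5.resolve_left hyM)) (by decide)
      · rw [if_pos h] at h4
        refine ⟨⟨fun _ => h.le, fun _ => Or.inr h4⟩,
          ⟨fun h5 => ?_, fun h5 => absurd h (not_lt.2 h5)⟩⟩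
        exact absurd (h4.symm.trans (h5.resolve_left hyM)) (by decide)
  refine ⟨M ∪ {z | s z = 1}, M ∪ {z | s z = 0}, ⟨hcl 1, hcl 0, ?_, ?_, ?_⟩, hI⟩
  · refine eq_univ_of_forall fun z => ?_
    rcases h01 (s z) with h | h
    · exact Or.inl (Or.inr h)
    · exact Or.inr (Or.inr h)
  · rintro z (h | h)
    · exact hb h
    · by_contra h'
      have h2 : s z = 1 := h
      simp only [s, if_neg h'] at h2
      exact absurd h2 (by decide)
  · intro x hx
    rw [hI] at hx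
    obtain ⟨φ, h1, h2, c, h3⟩ := hβ2 x (Metric.ball_subset_closedBall (hb hx)) hx
    have h4 : ∀ᶠ z in 𝓝 x, z ∉ M → s z = (if 0 < φ z 0 then 1 else 0) + (c - c0) := by
      filter_upwards [h3, Metric.isOpen_ball.mem_nhds (hb hx)] with z p q hz
      simp only [s, if_pos q, p hz]
      ring
    rcases h01 (c - c0) with h | h
    · refine key (φ.transHomeomorph (Homeomorph.neg E4)) x h1 (fun y hy => ?_) ?_
      · show y ∈ M ↔ -(φ y 0) = 0
        rw [neg_eq_zero]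
        exact h2 y hy
      · filter_upwards [h4, φ.open_source.mem_nhds h1] with z p q hz
        show s z = if 0 < -(φ z 0) then 1 else 0
        rw [p hz, h]
        rcases lt_or_gt_of_ne (fun h => hz ((h2 z q).2 h)) with h' | h'
        · rw [if_neg (not_lt.2 h'.le), if_pos (neg_pos.2 h')]; decide
        · rw [if_pos h', if_neg (not_lt.2 (neg_nonpos.2 h'.le))]; decide
    · refine key φ x h1 h2 (h4.mono fun z p hz => ?_)
      rw [p hz, h, add_zero]

end Pool.Agent.P.MP_3d25f3_gt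
end

-- part Pool.Agent.P.MP_3d25f3_gt.SdB
section

set_option autoImplicit false

open Set Filter Topology

namespace Pool.Agent.P.MP_3d25f3_gt

lemma sdb_congr {Z : Type} [TopologicalSpace Z] {m n : Z → Z → ℤ} {F : Set Z} (h : CocZ m F)
    (hmn : ∀ x, ∃ U ∈ 𝓝 x, ∀ a ∈ U, ∀ b ∈ U, n a b = m a b) : CocZ n F := by
  intro x hx
  obtain ⟨U, hU, h1⟩ := h x hx
  obtain ⟨V, hV, h2⟩ := hmn x
  refine ⟨U ∩ V, inter_mem hU hV, fun a ha b hb c hc => ?_⟩
  rw [h2 a ha.2 b hb.2, h2 b hb.2 c hc.2, h2 a ha.2 c hc.2]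
  exact h1 a ha.1 b hb.1 c hc.1

lemma split_coc {X Y : Set E4} (h : XY X Y) {f : E4 → E4 → ℤ} (hf : CocZ f (X ∩ Y)) :
    ∃ n : E4 → E4 → ℤ, CocZ (fun a b => f a b - n a b) X ∧ CocZ n Y ∧
      ∀ a b, 1 < ‖a‖ → 1 < ‖b‖ → n a b = 0 := by
  classical
  have h0 : D (1 : E4 → E4 → ℤ) (co1 f) ∈ Null ℤ 2 (X ∩ Y) := by
    have := (mem_Zc.1 (hf.co1 (R := ℤ))).2
    exact this
  obtain ⟨b, hbY, hbX⟩ := Null_inter h.cX h.cY h0
  have hDD : D (1 : E4 → E4 → ℤ) (D (1 : E4 → E4 → ℤ) (co1 f)) ∈ Null ℤ 3 (univ : Set E4) :=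
    DD_Null (k := 2) (F' := ∅) (Coc_one _) (by simp)
  have hbZ : b ∈ Zc (1 : E4 → E4 → ℤ) 2 univ (Out 4) := by
    refine ⟨Null_mono 2 h.out hbY, ?_⟩
    change D (1 : E4 → E4 → ℤ) b ∈ Null ℤ 3 univ
    rw [← h.cover, Null_union]
    refine ⟨?_, D_Null _ hbY⟩
    have h1 := D_Null (1 : E4 → E4 → ℤ) hbX
    have h2 := Null_mono 3 (subset_univ X) hDD
    have h3 := sub_mem h2 h1
    rw [map_sub, sub_sub_cancel] at h3
    exact h3
  obtain ⟨g, hg, hbg⟩ := mem_Bc.1 ((orn_gen.2 ℤ).2.2 2 (by norm_num) hbZ)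
  have hY : CocZ (fun a b => g [a, b]) Y := by
    refine CocZ_of_Zc ⟨by simp, ?_⟩
    have h3 := sub_mem hbY (Null_mono 2 (subset_univ Y) hbg)
    rw [sub_sub_cancel] at h3
    exact h3
  have hX : CocZ (fun a b => (co1 f - g) [a, b]) X := by
    refine CocZ_of_Zc ⟨by simp, ?_⟩
    have h3 := add_mem hbX (Null_mono 2 (subset_univ X) hbg)
    rw [sub_add_sub_cancel, ← map_sub] at h3
    exact h3
  have hag : ∀ x : E4, ∃ U ∈ 𝓝 x, ∀ a ∈ U, ∀ b ∈ U,
      (if 1 < ‖a‖ ∧ 1 < ‖b‖ then 0 else g [a, b]) = g [a, b] := by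
    intro x
    by_cases hx : ‖x‖ < 1
    · refine ⟨Metric.ball 0 1, Metric.isOpen_ball.mem_nhds (mem_ball_zero_iff.2 hx),
        fun a ha b _ => ?_⟩
      rw [if_neg fun hh => absurd (mem_ball_zero_iff.1 ha) (not_lt.2 hh.1.le)]
    · obtain ⟨U, hU, h1⟩ := hg x (not_lt.1 hx)
      refine ⟨U, hU, fun a ha b hb => ?_⟩
      have : g [a, b] = 0 := h1 [a, b] rfl (by
        intro y hy
        rcases List.mem_cons.1 hy with rfl | hy
        · exact ha
        · rw [List.mem_singleton.1 hy]; exact hb)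
      rw [this, ite_self]
  refine ⟨fun a b => if 1 < ‖a‖ ∧ 1 < ‖b‖ then 0 else g [a, b], ?_, sdb_congr hY hag,
    fun a b ha hb => if_pos ⟨ha, hb⟩⟩
  refine sdb_congr hX fun x => ?_
  obtain ⟨U, hU, h1⟩ := hag x
  refine ⟨U, hU, fun a ha b hb => ?_⟩
  change f a b - (if 1 < ‖a‖ ∧ 1 < ‖b‖ then 0 else g [a, b]) = f a b - g [a, b]
  rw [h1 a ha b hb]

lemma stereo (p : Metric.sphere (0 : EuclideanSpace ℝ (Fin 5)) 1)
    {C : Set (Metric.sphere (0 : EuclideanSpace ℝ (Fin 5)) 1)} (hC : IsCompact C) (hp : p ∉ C) :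
    ∃ ι : E4 → Metric.sphere (0 : EuclideanSpace ℝ (Fin 5)) 1, IsOpenEmbedding ι ∧
      range ι = {p}ᶜ ∧ C ⊆ ι '' Metric.ball 0 1 := by
  have : Fact (Module.finrank ℝ (EuclideanSpace ℝ (Fin 5)) = 4 + 1) := ⟨by simp⟩
  set φ := stereographic' 4 p with hφ
  have hs : φ.source = {p}ᶜ := stereographic'_source p
  have ht : φ.target = univ := stereographic'_target p
  have hemb : IsOpenEmbedding φ.symm := φ.symm.isOpenEmbedding ht
  have hrange : range φ.symm = {p}ᶜ := by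
    rw [← image_univ, ← ht, φ.symm_image_target_eq_source, hs]
  have hCs : C ⊆ φ.source := fun x hx => by
    rw [hs]
    rintro rfl
    exact hp hx
  let e : EuclideanSpace ℝ (Fin 4) ≃L[ℝ] E4 := EuclideanSpace.equiv (Fin 4) ℝ
  have hK : IsCompact (e '' (φ '' C)) :=
    (hC.image_of_continuousOn (φ.continuousOn.mono hCs)).image e.continuous
  obtain ⟨r, hr0, hr⟩ := hK.isBounded.subset_ball_lt 0 (0 : E4)
  let sc : E4 ≃ₜ E4 := Homeomorph.smulOfNeZero r hr0.ne'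
  let ψ : E4 ≃ₜ EuclideanSpace ℝ (Fin 4) := sc.trans e.symm.toHomeomorph
  refine ⟨φ.symm ∘ ψ, hemb.comp ψ.isOpenEmbedding, ?_, fun x hx => ?_⟩
  · rw [range_comp, ψ.surjective.range_eq, image_univ, hrange]
  · refine ⟨r⁻¹ • e (φ x), ?_, ?_⟩
    · have h1 := mem_ball_zero_iff.1 (hr ⟨φ x, ⟨x, hx, rfl⟩, rfl⟩)
      rw [mem_ball_zero_iff, norm_smul, norm_inv, Real.norm_of_nonneg hr0.le,
        inv_mul_lt_iff₀ hr0, mul_one]
      exact h1
    · have h2 : ψ (r⁻¹ • e (φ x)) = φ x := by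
        change e.symm (r • r⁻¹ • e (φ x)) = φ x
        rw [smul_smul, mul_inv_cancel₀ hr0.ne', one_smul, e.symm_apply_apply]
      rw [Function.comp_apply, h2, φ.left_inv (hCs hx)]

lemma Flat.preimage {Z W : Type} [TopologicalSpace Z] [TopologicalSpace W] {M : Set Z}
    (h : Flat M) {ι : W → Z} (hι : IsOpenEmbedding ι) : Flat (ι ⁻¹' M) := by
  intro x hx
  have : Nonempty W := ⟨x⟩
  obtain ⟨φ, h1, h2⟩ := h (ι x) hx
  refine ⟨(hι.toOpenPartialHomeomorph ι).trans φ, by simpa using h1, fun y hy => ?_⟩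
  have hy' : ι y ∈ φ.source := by simpa using hy
  simpa using h2 (ι y) hy'

lemma Sided.preimage {Z W : Type} [TopologicalSpace Z] [TopologicalSpace W] {X Y : Set Z}
    (h : Sided X Y) {ι : W → Z} (hι : IsOpenEmbedding ι) : Sided (ι ⁻¹' X) (ι ⁻¹' Y) := by
  intro x hx
  have : Nonempty W := ⟨x⟩
  obtain ⟨φ, h1, h2⟩ := h (ι x) hx
  refine ⟨(hι.toOpenPartialHomeomorph ι).trans φ, by simpa using h1, fun y hy => ?_⟩
  have hy' : ι y ∈ φ.source := by simpa using hy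
  simpa using h2 (ι y) hy'

lemma Sided.of_preimage {Z W : Type} [TopologicalSpace Z] [TopologicalSpace W] {X Y : Set Z}
    {ι : W → Z} (hι : IsOpenEmbedding ι) (hr : X ∩ Y ⊆ range ι)
    (h : Sided (ι ⁻¹' X) (ι ⁻¹' Y)) : Sided X Y := by
  intro x hx
  obtain ⟨w, rfl⟩ := hr hx
  have : Nonempty W := ⟨w⟩
  obtain ⟨φ, h1, h2⟩ := h w hx
  refine ⟨(hι.toOpenPartialHomeomorph ι).symm.trans φ, ?_, fun y hy => ?_⟩
  · rw [OpenPartialHomeomorph.trans_source]
    refine ⟨by simp, ?_⟩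
    rw [mem_preimage, hι.toOpenPartialHomeomorph_left_inv]
    exact h1
  · rw [OpenPartialHomeomorph.trans_source] at hy
    obtain ⟨hy1, hy2⟩ := hy
    obtain ⟨v, rfl⟩ : y ∈ range ι := by simpa using hy1
    rw [mem_preimage, hι.toOpenPartialHomeomorph_left_inv] at hy2
    rw [OpenPartialHomeomorph.trans_apply, hι.toOpenPartialHomeomorph_left_inv]
    exact h2 v hy2

/-- one side of an embedding, with an integer cocycle on it -/
structure Side (M : Type) [TopologicalSpace M] where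
  e : M → E4
  X : Set E4
  Y : Set E4
  n : E4 → E4 → ℤ
  cont : Continuous e
  inj : Function.Injective e
  xy : XY X Y
  inter : X ∩ Y = range e
  coc : CocZ n X

/-- the cocycle restricted to `M` -/
def Side.nM {M : Type} [TopologicalSpace M] (s : Side M) : M → M → ℤ := fun a b => s.n (s.e a) (s.e b)

lemma Side.cocM {M : Type} [TopologicalSpace M] (s : Side M) : CocZ s.nM univ :=
  s.coc.comp (fun _ _ => s.cont.continuousAt) fun x _ => (s.inter.ge (mem_range_self x)).1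

lemma Side.t2 {M : Type} [TopologicalSpace M] (s : Side M) : T2Space M :=
  T2Space.of_injective_continuous s.inj s.cont

lemma EmbedsFlat.t2 {M : Type} [TopologicalSpace M] (h : EmbedsFlat M) : T2Space M :=
  let ⟨_, he, _⟩ := h; he.t2Space

end Pool.Agent.P.MP_3d25f3_gt
end

-- part Pool.Agent.P.MP_3d25f3_gt.Prm
section

set_option autoImplicit false

open Set Filter Topology

namespace Pool.Agent.P.MP_3d25f3_gt

open Module

variable {g : ℕ} {S : List (ℕ × ℤ)}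

lemma Side.xn {M : Type} [TopologicalSpace M] (s : Side M) : ∃ N, XN s.X s.Y N s.n :=
  let ⟨N, h1, h2, h3⟩ := s.coc.nbhd; ⟨N, s.xy, h1, h2, h3⟩

/-- cohomology of the image -/
lemma Side.equiv {M : Type} [TopologicalSpace M] [CompactSpace M] (s : Side M) {R : Type}
    [CommRing R] (t : Rˣ) (k : ℕ) :
    ∃ Φ : H (tw t s.n) k (s.X ∩ s.Y) ∅ ≃ₗ[R] H (tw t s.nM) k univ ∅,
      ∀ c hc, ∃ h', Φ (cl c hc) = cl (pull s.e 1 c) h' :=
  emb_equiv k isCompact_univ (empty_subset _) s.cont s.inj.injOn (by rw [s.inter, image_univ])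
    (by simp) ((s.coc.tw t).mono inter_subset_left) fun _ _ => rfl

lemma Side.equiv_one {M : Type} [TopologicalSpace M] [CompactSpace M] (s : Side M) (R : Type)
    [CommRing R] (k : ℕ) :
    ∃ Φ : H (1 : E4 → E4 → R) k (s.X ∩ s.Y) ∅ ≃ₗ[R] H (1 : M → M → R) k univ ∅,
      ∀ c hc, ∃ h', Φ (cl c hc) = cl (pull s.e 1 c) h' :=
  emb_equiv k isCompact_univ (empty_subset _) s.cont s.inj.injOn (by rw [s.inter, image_univ])
    (by simp) (Coc_one _) fun _ _ => rfl

/-- the holonomy detects the root of unity -/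
def Primi (g : ℕ) (S : List (ℕ × ℤ)) (N : ℤ) (ne : ℕ → ℤ) : Prop :=
  ∀ ω : ℂˣ, ω ^ N = 1 → (∀ e < NE g S, ω ^ ne e = 1) → ω = 1

lemma prm_pull {Z W R : Type} [CommRing R] (e : W → Z) (n : Z → Z → R) :
    pull e 1 (co1 n) = co1 fun a b => n (e a) (e b) := by
  funext l
  rcases l with _ | ⟨a, _ | ⟨b, _ | ⟨c, l⟩⟩⟩ <;> simp [co1]

lemma prm_cf {Z R R' : Type} [CommRing R] [CommRing R'] (φ : R →+* R') (n : Z → Z → R) :
    cf φ (co1 n) = co1 fun a b => φ (n a b) := by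
  funext l
  rcases l with _ | ⟨a, _ | ⟨b, _ | ⟨c, l⟩⟩⟩ <;> simp [co1]

lemma prm_red {d : ℤ} (hd : d ≠ 0) : Red (Int.castRingHom (ZMod d.natAbs)) d :=
  ⟨ZMod.intCast_surjective, fun r =>
    (ZMod.intCast_zmod_eq_zero_iff_dvd r d.natAbs).trans Int.natAbs_dvd,
    fun _ h => (mul_eq_zero.1 h).resolve_left hd⟩

lemma Side.div (s : Side (Seifert g S)) {A : Cov → ℤ} {N : ℤ} {ne : ℕ → ℤ}
    (h : Per g S s.nM A N ne) {d : ℤ} (hd : d ≠ 0) (h1 : d ∣ N) (h2 : ∀ e < NE g S, d ∣ ne e) :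
    ∃ (s' : Side (Seifert g S)) (A' : Cov → ℤ) (N' : ℤ) (ne' : ℕ → ℤ),
      Per g S s'.nM A' N' ne' ∧ N = d * N' := by
  have := s.t2
  have hr := prm_red hd
  have hB := h.cast_mem_Bc (R := ZMod d.natAbs) s.cocM ((hr.ker N).2 h1)
    fun e he => (hr.ker _).2 (h2 e he)
  have hc := s.coc.co1 (R := ZMod d.natAbs)
  have hc0 := s.coc.co1 (R := ℤ)
  obtain ⟨Φ, hΦ⟩ := s.equiv_one (ZMod d.natAbs) 1
  obtain ⟨h', e1⟩ := hΦ _ (Zc_mono _ 1 inter_subset_left subset_rfl hc)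
  have e2 : cl _ h' = 0 := (cl_eq_zero h').2 (by rw [prm_pull]; exact hB)
  have e3 : cl _ hc = 0 := rm_one_inj s.xy
    ((Φ.injective ((e1.trans e2).trans (map_zero Φ).symm)).trans (map_zero _).symm)
  have e4 : cmap (Int.castRingHom (ZMod d.natAbs)) (τ := (1 : E4 → E4 → ℤ))
      (τ' := (1 : E4 → E4 → ZMod d.natAbs)) (fun _ _ => map_one _) 1 s.X ∅ (cl _ hc0) = 0 := by
    rw [cmap_cl, cl_eq_zero, prm_cf]
    exact (cl_eq_zero hc).1 e3
  obtain ⟨y, hy⟩ := (cmap_eq_zero hr _ (Coc_one _) (empty_subset _) _).1 e4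
  obtain ⟨c, hc1, rfl⟩ := cl_surj y
  rw [← cl_smul, cl_eq] at hy
  obtain ⟨b, -, hb⟩ := mem_Bc.1 hy
  let s' : Side (Seifert g S) := ⟨s.e, s.X, s.Y, fun a b => c [a, b], s.cont, s.inj, s.xy, s.inter,
    CocZ_of_Zc hc1⟩
  obtain ⟨A', N', ne', h'⟩ := exists_per s'.cocM
  refine ⟨s', A', N', ne', h', ?_⟩
  have := (h.lin h' h' (c₁ := d) (c₂ := 0) (a := fun x => b [s.e x]) fun x => by
    obtain ⟨U, hU, hz⟩ := hb (s.e x) (s.inter.ge (mem_range_self x)).1
    refine ⟨s.e ⁻¹' U, s.cont.continuousAt hU, fun u hu v hv => ?_⟩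
    have e5 : s.n (s.e u) (s.e v) - d * c [s.e u, s.e v] - D 1 b [s.e u, s.e v] = 0 :=
      hz [s.e u, s.e v] rfl (by simpa using ⟨hu, hv⟩)
    rw [D_two, Pi.one_apply, Pi.one_apply] at e5
    show s.n (s.e u) (s.e v) = d * c [s.e u, s.e v] + 0 * c [s.e u, s.e v] + (b [s.e v] - b [s.e u])
    linear_combination e5).1
  rw [this, zero_mul, add_zero]

lemma prm_pos (s : Side (Seifert g S)) {A : Cov → ℤ} {N : ℤ} {ne : ℕ → ℤ}
    (h : Per g S s.nM A N ne) : ∃ (s' : Side (Seifert g S)) (A' : Cov → ℤ) (ne' : ℕ → ℤ),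
      Per g S s'.nM A' N.natAbs ne' := by
  rcases Int.natAbs_eq N with e | e
  · exact ⟨s, A, ne, e ▸ h⟩
  · obtain ⟨s', A', N', ne', h1, h2⟩ := s.div h (d := -1) (by norm_num) (neg_dvd.2 (one_dvd _))
      fun _ _ => neg_dvd.2 (one_dvd _)
    exact ⟨s', A', ne', (show N' = N.natAbs by omega) ▸ h1⟩

theorem exists_primi (s : Side (Seifert g S)) {A : Cov → ℤ} {N : ℤ} {ne : ℕ → ℤ}
    (h : Per g S s.nM A N ne) (hN : N ≠ 0) :
    ∃ (s' : Side (Seifert g S)) (A' : Cov → ℤ) (N' : ℕ) (ne' : ℕ → ℤ), 0 < N' ∧ (N' : ℤ) ∣ N ∧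
      Per g S s'.nM A' N' ne' ∧ Primi g S N' ne' := by
  induction hm : N.natAbs using Nat.strong_induction_on generalizing s A N ne with
  | _ m ih =>
    obtain ⟨s1, A1, ne1, h1⟩ := prm_pos s h
    by_cases hp : Primi g S N.natAbs ne1
    · exact ⟨s1, A1, N.natAbs, ne1, Int.natAbs_pos.2 hN, Int.natAbs_dvd.2 dvd_rfl, h1, hp⟩
    · simp only [Primi, not_forall] at hp
      obtain ⟨ω, w1, w2, w3⟩ := hp
      have d1 : (orderOf ω : ℤ) ∣ N.natAbs := orderOf_dvd_iff_zpow_eq_one.2 w1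
      have d0 : (orderOf ω : ℤ) ≠ 0 := fun e => by
        rw [e, zero_dvd_iff] at d1
        omega
      have d2 : orderOf ω ≠ 1 := mt orderOf_eq_one_iff.1 w3
      obtain ⟨s2, A2, N2, ne2, h2, e2⟩ := s1.div h1 d0 d1
        fun e he => orderOf_dvd_iff_zpow_eq_one.2 (w2 e he)
      have hN2 : N2 ≠ 0 := fun e => by
        rw [e, mul_zero] at e2
        omega
      have e3 : N.natAbs = orderOf ω * N2.natAbs := by
        simpa only [Int.natAbs_mul, Int.natAbs_natCast] using congrArg Int.natAbs e2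
      have e4 : N2.natAbs < m := by
        rw [← hm, e3]
        exact lt_mul_of_one_lt_left (Int.natAbs_pos.2 hN2) (by omega)
      obtain ⟨s3, A3, N3, ne3, k1, k2, k3⟩ := ih _ e4 s2 h2 hN2 rfl
      exact ⟨s3, A3, N3, ne3, k1, k2.trans (Int.natAbs_dvd_natAbs.1 ⟨_, e3.trans (mul_comm _ _)⟩), k3⟩

/-- the special angles -/
noncomputable def th (N : ℕ) (k : ℤ) : ℝ := 2 * Real.pi * k / N

lemma prm_rt (a : ℤ) {b : ℕ} (hb : 0 < b) : rt (a / b) = 1 ↔ (b : ℤ) ∣ a := by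
  have h1 : (b : ℂ) ≠ 0 := Nat.cast_ne_zero.2 hb.ne'
  rw [rt, Complex.exp_eq_one_iff]
  refine exists_congr fun m => ?_
  rw [mul_comm, mul_left_inj' Complex.two_pi_I_ne_zero]
  push_cast
  rw [div_eq_iff h1, mul_comm]
  exact_mod_cast Iff.rfl

lemma cu_th_slit {n : Seifert g S → Seifert g S → ℤ} {A : Cov → ℤ} {N : ℕ} {ne : ℕ → ℤ}
    (hS : Data S) (h : Per g S n A N ne) (hN : 0 < N) (k : ℤ) {i : ℕ} (hi : i ≤ S.length) :
    ((cu (th N k) ^ ne (2 * g + i) : ℂˣ) : ℂ)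
      = rt (k * (pr g S (2 * g + i)).2 / (pr g S (2 * g + i)).1) := by
  have h1 : (N : ℂ) ≠ 0 := Nat.cast_ne_zero.2 hN.ne'
  have h2 : ((pr g S (2 * g + i)).1 : ℂ) ≠ 0 :=
    Nat.cast_ne_zero.2 (Nat.one_le_iff_ne_zero.1 (pr_data hS _).1)
  have h3 : ((pr g S (2 * g + i)).1 : ℂ) * ne (2 * g + i) = (pr g S (2 * g + i)).2 * N := by
    exact_mod_cast h.slit hS (e := 2 * g + i) (by omega) (by unfold NE; omega)
  rw [Units.val_zpow_eq_zpow_val, cu, Units.val_mk0, ← Complex.exp_int_mul, rt, th]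
  congr 1
  push_cast
  field_simp
  linear_combination k * h3

lemma cu_th_slit_eq_one {n : Seifert g S → Seifert g S → ℤ} {A : Cov → ℤ} {N : ℕ} {ne : ℕ → ℤ}
    (hS : Data S) (h : Per g S n A N ne) (hN : 0 < N) (k : ℤ) {i : ℕ} (hi : i ≤ S.length) :
    cu (th N k) ^ ne (2 * g + i) = 1 ↔ ((pr g S (2 * g + i)).1 : ℤ) ∣ k := by
  rw [Units.ext_iff, cu_th_slit hS h hN k hi, Units.val_one, ← Int.cast_mul,
    prm_rt _ (pr_data hS _).1]
  exact ⟨fun h1 => Int.dvd_of_dvd_mul_left_of_gcd_one h1 (pr_data hS _).2, fun h1 => h1.mul_right _⟩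

lemma cu_th_eq_one {N : ℕ} (hN : 0 < N) (k : ℤ) : cu (th N k) = 1 ↔ (N : ℤ) ∣ k := by
  rw [Units.ext_iff, Units.val_one, ← prm_rt k hN, cu, Units.val_mk0, rt, th]
  push_cast
  rw [show (2 * Real.pi * k / N * Complex.I : ℂ) = 2 * Real.pi * Complex.I * (k / N) by ring]

end Pool.Agent.P.MP_3d25f3_gt
end

-- part Pool.Agent.P.MP_3d25f3_gt.Spn
section

set_option autoImplicit false

open Set Filter Topology

namespace Pool.Agent.P.MP_3d25f3_gt

lemma spn_cl_sum {Z R ι : Type} [TopologicalSpace Z] [CommRing R] [Fintype ι] {τ : Z → Z → R}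
    {k : ℕ} {F F' : Set Z} (w : ι → R) {f : ι → List Z → R} (hf : ∀ i, f i ∈ Zc τ k F F')
    (h : ∑ i, w i • f i ∈ Zc τ k F F') : cl _ h = ∑ i, w i • cl (f i) (hf i) := by
  have e : (⟨_, h⟩ : Zc τ k F F') = ∑ i, w i • (⟨f i, hf i⟩ : Zc τ k F F') :=
    Subtype.ext (by simp)
  change Submodule.mkQ _ (⟨_, h⟩ : Zc τ k F F') = _
  rw [e, map_sum]
  rfl

lemma spn_finite {Z : Type} {S : Set Z} (hS : S.Finite) (n : ℕ) :
    {l : List Z | l.length = n ∧ ∀ y ∈ l, y ∈ S}.Finite := by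
  have : Finite S := hS
  refine ((List.finite_length_eq S n).image (List.map Subtype.val)).subset ?_
  rintro l ⟨hl, h⟩
  refine ⟨l.attach.map fun y => ⟨y.1, h y.1 y.2⟩, by simpa using hl, ?_⟩
  rw [List.map_map]
  exact List.attach_map_subtype_val l

/-- finitely many complex numbers have coordinates in an independent family -/
lemma spn_coord {O : Type} [CommRing O] [IsDomain O] [IsPrincipalIdealRing O] {φ : O →+* ℂ}
    (hφ : Function.Injective φ) {S : Set ℂ} (hS : S.Finite) :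
    ∃ (ι : Type) (_ : Fintype ι) (b : ι → ℂ) (co : ι → ℂ → O),
      (∀ v ∈ S, v = ∑ j, b j * φ (co j v)) ∧
      ∀ a : ι → O, ∑ j, b j * φ (a j) = 0 → ∀ j, a j = 0 := by
  classical
  let : Algebra O ℂ := φ.toAlgebra
  have hs : ∀ (a : O) (v : ℂ), a • v = φ a * v := fun _ _ => rfl
  have : FaithfulSMul O ℂ := (faithfulSMul_iff_algebraMap_injective O ℂ).2 hφ
  have : Module.Finite O (Submodule.span O S) := Module.Finite.span_of_finite O hS
  have : Module.Free O (Submodule.span O S) := Module.free_of_finite_type_torsion_free'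
  let b := Module.Free.chooseBasis O (Submodule.span O S)
  refine ⟨_, inferInstance, fun j => (b j : ℂ),
    fun j v => if h : v ∈ Submodule.span O S then b.repr ⟨v, h⟩ j else 0, fun v hv => ?_,
    fun a ha => ?_⟩
  · have hv' : v ∈ Submodule.span O S := Submodule.subset_span hv
    have h1 := congrArg Subtype.val (b.sum_repr ⟨v, hv'⟩)
    simp only [AddSubmonoidClass.coe_finsetSum, SetLike.val_smul, hs] at h1
    simp only [dif_pos hv', mul_comm]
    exact h1.symm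
  · refine Fintype.linearIndependent_iff.1 b.linearIndependent a (Subtype.ext ?_)
    simp only [AddSubmonoidClass.coe_finsetSum, SetLike.val_smul, hs]
    simp only [mul_comm] at ha
    exact ha

/-- classes with coefficients in a principal subring span -/
lemma span_cmap {Z : Type} [MetricSpace Z] {O : Type} [CommRing O] [IsDomain O]
    [IsPrincipalIdealRing O] {φ : O →+* ℂ} (hφ : Function.Injective φ) {τ : Z → Z → O}
    {τ' : Z → Z → ℂ} (h : ∀ x y, φ (τ x y) = τ' x y) (k : ℕ) {F : Set Z} (hF : IsCompact F)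
    (hτ : Coc τ' F) : Submodule.span ℂ (range (cmap φ h k F ∅)) = ⊤ := by
  refine eq_top_iff.2 fun x _ => ?_
  obtain ⟨c, hc, rfl⟩ := cl_surj x
  obtain ⟨r, hr, hB⟩ := fin_rep hF hτ hc
  have hZ : pull r (fun a => τ' a (r a)) c ∈ Zc τ' k F ∅ := by
    have h1 := add_mem (Bc_le_Zc (hτ.mono sdiff_subset) (empty_subset F) hB) hc
    rwa [sub_add_cancel] at h1
  obtain ⟨ι, _, b, co, h1, h2⟩ := spn_coord hφ ((spn_finite hr (k + 1)).image c)
  set cj : ι → List Z → O := fun j => pull r (fun a => τ a (r a)) fun l => co j (c l) with hcj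
  have h3 : ∀ l : List Z, l.length = k + 1 →
      pull r (fun a => τ' a (r a)) c l = (∑ j, b j • cf φ (cj j)) l := by
    intro l hl
    cases l with
    | nil => simp at hl
    | cons y l =>
      have h4 := h1 (c (r y :: l.map r)) ⟨_, ⟨by simpa using hl, fun z hz => ?_⟩, rfl⟩
      · rw [pull_cons, h4, Finset.sum_apply, Finset.mul_sum]
        refine Finset.sum_congr rfl fun j _ => ?_
        simp only [hcj, Pi.smul_apply, cf_apply, pull_cons, map_mul, h, smul_eq_mul]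
        ring
      · rw [← List.map_cons, List.mem_map] at hz
        obtain ⟨w, -, rfl⟩ := hz
        exact mem_range_self w
  have h5 : ∀ j, cj j ∈ Zc τ k F ∅ := by
    intro j
    refine ⟨by simp, fun y hy => ?_⟩
    obtain ⟨U, hU, h6⟩ := hZ.2 y hy
    refine ⟨U, hU, fun l hl hlU => h2 (fun j => D τ (cj j) l) ?_ j⟩
    have h7 := D_congr τ' (U := univ) (fun l' hl' _ => h3 l' hl') hl fun _ _ => mem_univ _
    rw [h6 l hl hlU, map_sum, Finset.sum_apply] at h7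
    rw [h7]
    refine Finset.sum_congr rfl fun j _ => ?_
    rw [map_smul, ← cf_D φ h]
    rfl
  have h8 : ∑ j, b j • cf φ (cj j) ∈ Zc τ' k F ∅ :=
    sum_mem fun j _ => Submodule.smul_mem _ _ (cf_Zc φ h (h5 j))
  have h9 : cl c hc = cl _ h8 := by
    rw [← (cl_eq hZ hc).2 hB, cl_eq]
    refine Null_le_Bc _ _ _ _ fun y _ => ⟨univ, univ_mem, fun l hl _ => ?_⟩
    rw [Pi.sub_apply, h3 l hl, sub_self]
  rw [h9, spn_cl_sum b fun j => cf_Zc φ h (h5 j)]
  exact sum_mem fun j _ => Submodule.smul_mem _ _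
    (Submodule.subset_span ⟨cl (cj j) (h5 j), rfl⟩)

end Pool.Agent.P.MP_3d25f3_gt
end

-- part Pool.Agent.P.MP_3d25f3_gt.FacA
section

set_option autoImplicit false

open Set Filter Topology

namespace Pool.Agent.P.MP_3d25f3_gt

open Module

variable {X Y N : Set E4} {n : E4 → E4 → ℤ}

/-- torsion count in cohomology -/
lemma tcH {Z : Type} [TopologicalSpace Z] {R k : Type} [CommRing R] [IsDomain R]
    [IsPrincipalIdealRing R] [Field k] {ev : R →+* k} {ε : R} (hr : Red ev ε) {τ : Z → Z → R}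
    {τ' : Z → Z → k} (h : ∀ x y, ev (τ x y) = τ' x y) (i : ℕ) {F F' : Set Z} (hτ : Coc τ (F \ F'))
    (hF : F' ⊆ F) [Module.Finite R (H τ (i + 1) F F')] [FiniteDimensional k (H τ' i F F')] :
    finrank k (imT (cmap ev h (i + 1) F F')) + finrank k (imI (cmap ev h i F F'))
      = finrank k (H τ' i F F') := by
  obtain ⟨β, hβ⟩ := exists_bock hr h i hτ hF
  exact tc hr (cmap ev h i F F') (cmap ev h (i + 1) F F') β hβ.smul hβ.ker hβ.range
    (cmap_eq_zero hr h hτ hF)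

lemma faca_sg_sg (k : ℕ) (F F' : Set E4) (z : H (tw tL n) k F F') :
    cmap sgL (hsg' n) k F F' (cmap sgL (hsg n) k F F' z) = z := by
  obtain ⟨c, hc, rfl⟩ := cl_surj z
  rw [cmap_cl, cmap_cl]
  have e : cf sgL (cf sgL c) = c := by funext l; simp [sgL_sgL]
  simp only [e]

lemma faca_sg_sg' (k : ℕ) (F F' : Set E4) (z : H (tw tL⁻¹ n) k F F') :
    cmap sgL (hsg n) k F F' (cmap sgL (hsg' n) k F F' z) = z := by
  obtain ⟨c, hc, rfl⟩ := cl_surj z
  rw [cmap_cl, cmap_cl]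
  have e : cf sgL (cf sgL c) = c := by funext l; simp [sgL_sgL]
  simp only [e]

lemma faca_cmap_jm {R R' : Type} [CommRing R] [CommRing R'] (φ : R →+* R') {τ : E4 → E4 → R}
    {τ' : E4 → E4 → R'} (h : ∀ x y, φ (τ x y) = τ' x y) (k : ℕ) (x : H τ k univ Y) :
    cmap φ h k X ∅ (jm τ k X Y x) = jm τ' k X Y (cmap φ h k univ Y x) := by
  obtain ⟨c, hc, rfl⟩ := cl_surj x
  unfold jm
  rw [res_cl, cmap_cl, cmap_cl, res_cl]

lemma faca_sg_jm (x : H (tw tL n) 2 univ Y) :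
    cmap sgL (hsg n) 2 X ∅ (jm (tw tL n) 2 X Y x)
      = jm (tw tL⁻¹ n) 2 X Y (cmap sgL (hsg n) 2 univ Y x) := faca_cmap_jm sgL (hsg n) 2 x

lemma faca_lam (h : XN X Y N n) (x : H (tw tL n) 2 univ Y) (b : H (tw tL n) 2 X ∅) :
    lamL h x b = pair (h.ok tL) (i := 2) (j := 2) rfl x (cmap sgL (hsg n) 2 X ∅ b) := rfl

lemma faca_conj_ev {ω : ℂˣ} (hω : ‖(ω : ℂ)‖ = 1) (b : H (tw tL n) 2 X ∅) :
    cmap (starRingEnd ℂ) (hcj hω n) 2 X ∅ (cmap (evL ω) (hev ω n) 2 X ∅ b)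
      = cmap (evL ω) (hev' ω n) 2 X ∅ (cmap sgL (hsg n) 2 X ∅ b) := by
  obtain ⟨c, hc, rfl⟩ := cl_surj b
  rw [cmap_cl, cmap_cl, cmap_cl, cmap_cl]
  have e : cf (starRingEnd ℂ) (cf (evL ω) c) = cf (evL ω) (cf sgL c) := by
    funext l; simp only [cf_apply, evL_sgL hω]
  simp only [e]

lemma lamL_herm (h : XN X Y N n) (x y : H (tw tL n) 2 univ Y) :
    lamL h y (jm (tw tL n) 2 X Y x) = sgL (lamL h x (jm (tw tL n) 2 X Y y)) := by
  rw [faca_lam, faca_lam, faca_sg_jm,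
    ← pair_cmap sgL (hsg n) (hsg' n) (h.ok tL) (h.xy.ok (h.good tL).symm h.sub), faca_sg_sg]
  exact pair_comm h.xy (h.good tL) h.sub y _

lemma pbL_red (h : XN X Y N n) {ω : ℂˣ} (hω : ‖(ω : ℂ)‖ = 1) (x : H (tw tL n) 2 univ Y)
    (b : H (tw tL n) 2 X ∅) :
    pbL h hω (cmap (evL ω) (hev ω n) 2 univ Y x) b = evL ω (lamL h x b) := by
  rw [pbL_apply, faca_lam, faca_conj_ev hω]
  exact pair_cmap (evL ω) (hev ω n) (hev' ω n) (h.ok tL) (h.ok ω) rfl x _

lemma pbL_smul (h : XN X Y N n) {ω : ℂˣ} (hω : ‖(ω : ℂ)‖ = 1) (x : H (tw ω n) 2 univ Y) (c : La)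
    (b : H (tw tL n) 2 X ∅) : pbL h hω x (c • b) = starRingEnd ℂ (evL ω c) * pbL h hω x b := by
  rw [pbL_apply, pbL_apply, LinearMap.map_smulₛₗ, LinearMap.map_smulₛₗ, map_smul, smul_eq_mul]

lemma faca_tors {R A B : Type} [CommRing R] [AddCommGroup A] [Module R A] [AddCommGroup B]
    [Module R B] (p : A →ₗ[R] B →ₗ[R] R) (a : A) (b : B)
    (h : a ∈ Submodule.torsion R A ∨ b ∈ Submodule.torsion R B) : p a b = 0 := by
  rcases h with h | h
  · obtain ⟨r, hr⟩ := (Submodule.mem_torsion_iff a).1 h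
    have e : (r : R) * p a b = 0 := by
      have := congrArg (fun z => p z b) hr
      simpa [Submonoid.smul_def] using this
    exact (mem_nonZeroDivisors_iff.1 r.2).1 _ e
  · obtain ⟨r, hr⟩ := (Submodule.mem_torsion_iff b).1 h
    have e : (r : R) * p a b = 0 := by
      have := congrArg (fun z => p a z) hr
      simpa [Submonoid.smul_def] using this
    exact (mem_nonZeroDivisors_iff.1 r.2).1 _ e

lemma faca_coc (h : XN X Y N n) {R : Type} [CommRing R] (t : Rˣ) : Coc (tw t n) (univ \ Y) := by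
  refine (h.cocX t).mono fun z hz => ?_
  have : z ∈ X ∪ Y := by rw [h.xy.cover]; trivial
  exact this.resolve_right hz.2

theorem pbL_perp (h : XN X Y N n) {ω : ℂˣ} (hω : ‖(ω : ℂ)‖ = 1) (x : H (tw ω n) 2 univ Y)
    (hx : ∀ b, pbL h hω x b = 0) :
    ∃ y ∈ Submodule.torsion La (H (tw tL n) 2 univ Y), x = cmap (evL ω) (hev ω n) 2 univ Y y := by
  have hr := red_evL ω
  have f1 := (h.xy.fg (h.good ω) h.sub).1
  have f2 := (h.xy.fg (h.good ω).symm h.sub).2
  have f3 := (h.xy.fg (h.good tL) h.sub).1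
  have f4 := (h.xy.fg (h.good tL).symm h.sub).2
  have := f1 1
  have := f1 2
  have := f2 2
  have := f2 3
  have := f3 2
  have := f4 3
  rw [← mem_imT hr.surj]
  refine ti (p₂ := pair (h.ok ω) (i := 2) (j := 2) rfl) (p₁ := pair (h.ok ω) (i := 1) (j := 3) rfl)
    (h.xy.dual (h.good ω) h.sub rfl) (h.xy.dual (h.good ω) h.sub rfl)
    (I₁ := imI (cmap (evL ω) (hev ω n) 1 univ Y)) (I₂ := imI (cmap (evL ω) (hev' ω n) 2 X ∅))
    (T₃ := imT (cmap (evL ω) (hev' ω n) 3 X ∅)) ?_ ?_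
    (tcH hr (hev ω n) 1 (faca_coc h tL) (subset_univ Y))
    (tcH hr (hev' ω n) 2 ((h.cocX tL⁻¹).mono sdiff_subset) (empty_subset X)) x ?_
  · intro a ha b hb
    obtain ⟨a, ht, rfl⟩ := (mem_imT hr.surj _ _).1 ha
    obtain ⟨b, rfl⟩ := (mem_imI hr.surj _ _).1 hb
    rw [pair_cmap (evL ω) (hev ω n) (hev' ω n) (h.ok tL) (h.ok ω), faca_tors _ a b (Or.inl ht),
      map_zero]
  · intro a ha b hb
    obtain ⟨a, rfl⟩ := (mem_imI hr.surj _ _).1 ha
    obtain ⟨b, ht, rfl⟩ := (mem_imT hr.surj _ _).1 hb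
    rw [pair_cmap (evL ω) (hev ω n) (hev' ω n) (h.ok tL) (h.ok ω), faca_tors _ a b (Or.inr ht),
      map_zero]
  · intro b hb
    obtain ⟨b, rfl⟩ := (mem_imI hr.surj _ _).1 hb
    have := hx (cmap sgL (hsg' n) 2 X ∅ b)
    rwa [pbL_apply, faca_conj_ev hω, faca_sg_sg'] at this

lemma faca_inv {O S : Type} [CommRing O] [CommRing S] (φ : O →+* S) {w : Oˣ} {u : Sˣ}
    (h : φ w = u) : φ (w⁻¹ : Oˣ) = (u⁻¹ : Sˣ) := by
  apply Units.eq_inv_of_mul_eq_one_left
  rw [← h, ← map_mul, Units.mul_inv, map_one]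

/-- the bound at a root of unity of prime power order -/
theorem betti_tw (h : XN X Y N n) {O κ : Type} [CommRing O] [IsDomain O] [IsPrincipalIdealRing O]
    [Field κ] {φ : O →+* ℂ} {ev : O →+* κ} {w : Oˣ} {π : O} {ω : ℂˣ} (hφ : Function.Injective φ)
    (hw : φ w = ω) (hw' : ev w = 1) (hr : Red ev π) {x : E4} (hx : x ∈ X)
    (h0 : ∀ c ∈ Zc (tw w n) 0 X ∅, c [x] = 0) :
    finrank ℂ (H (tw ω n) 1 X ∅) + finrank ℂ (H (tw ω⁻¹ n) 2 X ∅) + 1
      ≤ finrank κ (H (1 : E4 → E4 → κ) 1 (X ∩ Y) ∅) := by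
  have hw1 : ev w = ((1 : κˣ) : κ) := hw'
  have e1 : ∀ a b, ev (tw w n a b) = (1 : E4 → E4 → κ) a b := fun a b => by
    rw [tw_map ev hw1 n a b, tw_one]
  have e2 : ∀ a b, ev (tw w⁻¹ n a b) = (1 : E4 → E4 → κ) a b := fun a b => by
    rw [tw_map ev (faca_inv ev hw1) n a b, inv_one, tw_one]
  have f1 := (h.xy.fg (h.good w) h.sub).2
  have f2 := (h.xy.fg (h.good w).symm h.sub).2
  have f3 := (h.xy.fg (good_one (R := κ)) (subset_univ X)).2
  have := f1 1
  have := f2 2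
  have := f3 0
  have := f3 1
  have := f3 2
  have c1 : Coc (tw w n) (X \ ∅) := (h.cocX w).mono sdiff_subset
  have c2 : Coc (tw w⁻¹ n) (X \ ∅) := (h.cocX w⁻¹).mono sdiff_subset
  have r1 := rk hr (cmap ev e1 1 X ∅) (cmap_eq_zero hr e1 c1 (empty_subset X)) hφ
    (cmap φ (tw_map φ hw n) 1 X ∅)
    (span_cmap hφ (tw_map φ hw n) 1 h.xy.compact (h.cocX ω))
  have r2 := rk hr (cmap ev e2 2 X ∅) (cmap_eq_zero hr e2 c2 (empty_subset X)) hφ
    (cmap φ (tw_map φ (faca_inv φ hw) n) 2 X ∅)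
    (span_cmap hφ (tw_map φ (faca_inv φ hw) n) 2 h.xy.compact (h.cocX ω⁻¹))
  have t0 := tcH hr e1 0 c1 (empty_subset X)
  have l1 := Submodule.finrank_le (imI (cmap ev e1 1 X ∅))
  have l2 := Submodule.finrank_le (imI (cmap ev e2 2 X ∅))
  have bs := betti_sum (k := κ) h.xy
  have hone : (fun _ => 1 : List E4 → κ) ∈ Zc (1 : E4 → E4 → κ) 0 X ∅ := by
    refine ⟨by simp, fun z _ => ⟨univ, univ_mem, fun l hl _ => ?_⟩⟩
    match l, hl with
    | [a, b], _ => rw [D_two]; simp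
  have hlt : imI (cmap ev e1 0 X ∅) ≠ ⊤ := by
    intro ht
    have hm : cl _ hone ∈ imI (cmap ev e1 0 X ∅) := by rw [ht]; trivial
    obtain ⟨y, hy⟩ := (mem_imI hr.surj _ _).1 hm
    obtain ⟨c, hc, rfl⟩ := cl_surj y
    rw [cmap_cl, cl_eq, Bc_zero] at hy
    obtain ⟨U, hU, hU'⟩ := hy x hx
    have := hU' [x] rfl (by simpa using mem_of_mem_nhds hU)
    rw [Pi.sub_apply, cf_apply, h0 c hc, map_zero, sub_zero] at this
    exact one_ne_zero this
  have l0 := Submodule.finrank_lt hlt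
  have t1 : finrank κ (imT (cmap ev e1 1 X ∅)) + finrank κ (imI (cmap ev e1 0 X ∅))
      = finrank κ (H (1 : E4 → E4 → κ) 0 X ∅) := t0
  omega

end Pool.Agent.P.MP_3d25f3_gt
end

-- part Pool.Agent.P.MP_3d25f3_gt.FacB
section

set_option autoImplicit false

open Set Filter Topology

namespace Pool.Agent.P.MP_3d25f3_gt

open Module

variable {X Y N : Set E4} {n : E4 → E4 → ℤ} {ω : ℂˣ}

lemma facb_mu {Z : Type} [TopologicalSpace Z] (τ : Z → Z → ℂ) (F : Set Z) : Mu 1 τ τ F :=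
  fun _ _ => ⟨univ, univ_mem, fun _ _ _ _ => one_mul _⟩

/-- the second factor of the triple product -/
noncomputable def facb_in {Z : Type} (ω : ℂˣ) (n : Z → Z → ℤ) :
    (List Z → ℂ) →ₛₗ[starRingEnd ℂ] (List Z → ℂ) :=
  (cf (starRingEnd ℂ)).comp (cupL (tw ω n) 1 (co1 fun a b => (n a b : ℂ)))

lemma facb_wf {Z : Type} (ω : ℂˣ) (n : Z → Z → ℤ) (v v' : List Z → ℂ) :
    wf ω n v v' = cupL (tw ω⁻¹ n) 1 v (facb_in ω n v') := rfl

lemma facb_in_Zc {Z : Type} [TopologicalSpace Z] {n : Z → Z → ℤ} {F : Set Z} (hn : CocZ n F)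
    (hω : ‖(ω : ℂ)‖ = 1) {v : List Z → ℂ} (hv : v ∈ Zc (tw ω n) 1 F ∅) :
    facb_in ω n v ∈ Zc (tw ω⁻¹ n) 2 F ∅ :=
  cf_Zc _ (hcj hω n) (cup_Zc_abs (Coc_one F) (hn.tw ω) (facb_mu _ F) (p := 1) (q := 1) rfl
    hn.co1 hv)

lemma facb_in_Bc {Z : Type} [TopologicalSpace Z] {n : Z → Z → ℤ} {F : Set Z} (hn : CocZ n F)
    (hω : ‖(ω : ℂ)‖ = 1) {v : List Z → ℂ} (hv : v ∈ Bc (tw ω n) 1 F ∅) :
    facb_in ω n v ∈ Bc (tw ω⁻¹ n) 2 F ∅ :=
  cf_Bc _ (hcj hω n) (cup_Bc_abs_right (Coc_one F) (hn.tw ω) (facb_mu _ F) (p := 1) (q := 1) rfl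
    hn.co1 hv)

lemma wf_Zc {Z : Type} [TopologicalSpace Z] {n : Z → Z → ℤ} {F : Set Z} (hn : CocZ n F)
    (hω : ‖(ω : ℂ)‖ = 1) {v v' : List Z → ℂ} (hv : v ∈ Zc (tw ω n) 1 F ∅)
    (hv' : v' ∈ Zc (tw ω n) 1 F ∅) : wf ω n v v' ∈ Zc (1 : Z → Z → ℂ) 3 F ∅ := by
  exact cup_Zc_abs (hn.tw ω) (hn.tw ω⁻¹) (Mu_tw ω n F) (p := 1) (q := 2) rfl hv
    (facb_in_Zc hn hω hv')

lemma wf_Bc {Z : Type} [TopologicalSpace Z] {n : Z → Z → ℤ} {F : Set Z} (hn : CocZ n F)
    (hω : ‖(ω : ℂ)‖ = 1) {v v' u u' : List Z → ℂ} (hv : v ∈ Zc (tw ω n) 1 F ∅)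
    (hv' : v' ∈ Zc (tw ω n) 1 F ∅) (hu : v - u ∈ Bc (tw ω n) 1 F ∅)
    (hu' : v' - u' ∈ Bc (tw ω n) 1 F ∅) :
    wf ω n v v' - wf ω n u u' ∈ Bc (1 : Z → Z → ℂ) 3 F ∅ := by
  have hz : v - u ∈ Zc (tw ω n) 1 F ∅ :=
    Bc_le_Zc ((hn.tw ω).mono sdiff_subset) (empty_subset F) hu
  have hu0 : u ∈ Zc (tw ω n) 1 F ∅ := by
    have := sub_mem hv hz
    rwa [sub_sub_cancel] at this
  have h1 := cup_Bc_abs_left (hn.tw ω) (hn.tw ω⁻¹) (Mu_tw ω n F) (p := 1) (q := 2) (k := 3) rfl hu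
    (facb_in_Zc hn hω hv')
  have h2 := cup_Bc_abs_right (hn.tw ω) (hn.tw ω⁻¹) (Mu_tw ω n F) (p := 1) (q := 2) (k := 3) rfl
    hu0 (facb_in_Bc hn hω hu')
  have h3 : wf ω n v v' - wf ω n u u' = cupL (tw ω⁻¹ n) 1 (v - u) (facb_in ω n v')
      + cupL (tw ω⁻¹ n) 1 u (facb_in ω n (v' - u')) := by
    rw [facb_wf, facb_wf, map_sub, map_sub, map_sub, LinearMap.sub_apply]
    abel
  rw [h3]
  exact add_mem h1 h2

lemma facb_coc (h : XN X Y N n) : CocZ n (X ∩ Y) := h.coc.mono (inter_subset_left.trans h.sub)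

lemma facb_wf_right (h : XN X Y N n) (hω : ‖(ω : ℂ)‖ = 1) {v v' : List E4 → ℂ}
    (hv : v ∈ Zc (tw ω n) 1 (X ∩ Y) ∅) (hv' : v' ∈ Bc (tw ω n) 1 (X ∩ Y) ∅) :
    wf ω n v v' ∈ Bc (1 : E4 → E4 → ℂ) 3 (X ∩ Y) ∅ :=
  cup_Bc_abs_right ((facb_coc h).tw ω) ((facb_coc h).tw ω⁻¹) (Mu_tw ω n _) (p := 1) (q := 2) rfl
    hv (facb_in_Bc (facb_coc h) hω hv')

noncomputable def facb_WZ (h : XN X Y N n) (hω : ‖(ω : ℂ)‖ = 1) :
    Zc (tw ω n) 1 (X ∩ Y) ∅ →ₗ[ℂ] H (tw ω n) 1 (X ∩ Y) ∅ →ₛₗ[starRingEnd ℂ] ℂ where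
  toFun a := (intM ℂ h.xy).comp (hmap ((cupL (tw ω⁻¹ n) 1 a.1).comp (facb_in ω n))
    (fun _ hc => wf_Zc (facb_coc h) hω a.2 hc) (fun _ _ hb => facb_wf_right h hω a.2 hb))
  map_add' a a' := by
    refine LinearMap.ext fun b => ?_
    obtain ⟨b, hb, rfl⟩ := cl_surj b
    change intM ℂ h.xy (cl _ (wf_Zc (facb_coc h) hω (a + a').2 hb))
      = intM ℂ h.xy (cl _ (wf_Zc (facb_coc h) hω a.2 hb))
        + intM ℂ h.xy (cl _ (wf_Zc (facb_coc h) hω a'.2 hb))
    rw [← map_add, ← cl_add]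
    simp only [Submodule.coe_add, wf, cup_add_left]
  map_smul' r a := by
    refine LinearMap.ext fun b => ?_
    obtain ⟨b, hb, rfl⟩ := cl_surj b
    change intM ℂ h.xy (cl _ (wf_Zc (facb_coc h) hω (r • a).2 hb))
      = r • intM ℂ h.xy (cl _ (wf_Zc (facb_coc h) hω a.2 hb))
    rw [← map_smul, ← cl_smul]
    simp only [Submodule.coe_smul, wf, cup_smul_left]

lemma exists_W (h : XN X Y N n) (hω : ‖(ω : ℂ)‖ = 1) : ∃ W, IsW h.xy ω n W := by
  refine ⟨Submodule.liftQ _ (facb_WZ h hω) ?_, fun v hv v' hv' =>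
    ⟨wf_Zc (facb_coc h) hω hv hv', rfl⟩⟩
  intro a ha
  rw [LinearMap.mem_ker]
  refine LinearMap.ext fun b => ?_
  obtain ⟨b, hb, rfl⟩ := cl_surj b
  change intM ℂ h.xy (cl _ (wf_Zc (facb_coc h) hω a.2 hb)) = 0
  have h1 : wf ω n a.1 b ∈ Bc (1 : E4 → E4 → ℂ) 3 (X ∩ Y) ∅ :=
    cup_Bc_abs_left ((facb_coc h).tw ω) ((facb_coc h).tw ω⁻¹) (Mu_tw ω n _) (p := 1) (q := 2) rfl
      ha (facb_in_Zc (facb_coc h) hω hb)
  rw [(cl_eq_zero _).2 h1, map_zero]

variable {β : H (tw ω n) 1 (X ∩ Y) ∅ →+ H (tw tL n) 2 (X ∩ Y) ∅}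

lemma facb_ev (ω : ℂˣ) : evL ω (epL ω) = 0 := ((red_evL ω).ker _).2 dvd_rfl

lemma facb_DD {R : Type} [CommRing R] {τ : E4 → E4 → R} {F : Set E4} (hτ : Coc τ F) (k : ℕ)
    (c : List E4 → R) : D τ (D τ c) ∈ Null R (k + 1) F :=
  DD_Null (F' := ∅) (hτ.mono sdiff_subset) (by simp)

lemma facb_quot {τ : E4 → E4 → La} {F : Set E4} (hτ : Coc τ F) {c a y : List E4 → La}
    (ha : D τ a ∈ Null La 3 F) (h : D τ c - a - epL ω • y ∈ Null La 2 F) : y ∈ Zc τ 2 F ∅ := by
  refine mem_Zc.2 ⟨by simp, red_cancel (red_evL ω) ?_⟩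
  have h1 := sub_mem (sub_mem (facb_DD hτ 2 c) ha) (D_Null τ h)
  rwa [map_sub, map_sub, map_smul, sub_sub_cancel] at h1

lemma bock_lift (h : XN X Y N n) (hβ : IsBock (evL ω) (epL ω) (hev ω n) 1 (X ∩ Y) ∅ β)
    (v : H (tw ω n) 1 (X ∩ Y) ∅) (b : H (tw tL n) 2 X ∅) (hb : β v = rm (tw tL n) 2 X Y b) :
    ∃ x, jm (tw tL n) 2 X Y x = epL ω • (-b) ∧
      cmap (evL ω) (hev ω n) 2 univ Y x = dl h.xy (h.cocX ω) 1 v := by
  obtain ⟨c, y, hc, hy, -, h1, rfl, h2⟩ := hβ.rep v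
  obtain ⟨b, hb0, rfl⟩ := cl_surj b
  rw [h2] at hb
  obtain ⟨c', -, h3⟩ := mem_Bc.1 ((cl_eq hy _).1 hb)
  have ha0 : D (tw tL n) (c - epL ω • c') - epL ω • b ∈ Zc (tw tL n) 2 X (X ∩ Y) := by
    refine mem_Zc.2 ⟨?_, ?_⟩
    · have h4 := add_mem h1 (Submodule.smul_mem _ (epL ω) h3)
      have h5 : D (tw tL n) (c - epL ω • c') - epL ω • b = D (tw tL n) c - epL ω • y
          + epL ω • (y - b - D (tw tL n) c') := by
        rw [map_sub, map_smul, smul_sub, smul_sub]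
        abel
      rw [h5]
      exact h4
    · rw [map_sub, map_smul]
      exact sub_mem (facb_DD (h.cocX tL) 2 _) (Submodule.smul_mem _ _ hb0.2)
  obtain ⟨a, ha, h4⟩ := exc_surj 2 h.xy.cX h.xy.cY ha0
  rw [h.xy.cover] at ha
  refine ⟨cl a ha, ?_, ?_⟩
  · change cl a _ = cl (epL ω • (-b)) (Submodule.smul_mem _ _ (neg_mem hb0))
    rw [cl_eq]
    refine mem_Bc.2 ⟨c - epL ω • c', by simp, ?_⟩
    have h5 : a - epL ω • (-b) - D (tw tL n) (c - epL ω • c')
        = -(D (tw tL n) (c - epL ω • c') - epL ω • b - a) := by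
      rw [smul_neg]
      abel
    rw [h5]
    exact neg_mem h4
  · rw [cmap_cl, eq_comm, dl_eq]
    refine Null_le_Bc _ _ _ _ ?_
    have h5 : cf (evL ω) a - D (tw ω n) (cf (evL ω) c)
        = -cf (evL ω) (D (tw tL n) (c - epL ω • c') - epL ω • b - a) := by
      rw [← cf_D _ (hev ω n)]
      simp only [map_sub, map_smul, LinearMap.map_smulₛₗ, facb_ev, zero_smul]
      abel
    rw [h5]
    exact neg_mem (cf_Null _ h4)

lemma bock_back (h : XN X Y N n) (hβ : IsBock (evL ω) (epL ω) (hev ω n) 1 (X ∩ Y) ∅ β)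
    (v : H (tw ω n) 1 (X ∩ Y) ∅) (x : H (tw tL n) 2 univ Y)
    (hx : dl h.xy (h.cocX ω) 1 v = cmap (evL ω) (hev ω n) 2 univ Y x) :
    ∃ b, β v = rm (tw tL n) 2 X Y b := by
  obtain ⟨v, hv, rfl⟩ := cl_surj v
  obtain ⟨a, ha, rfl⟩ := cl_surj x
  rw [cmap_cl, dl_eq] at hx
  obtain ⟨p, hp, h1⟩ := mem_Bc.1 hx
  obtain ⟨c, rfl, -⟩ := red_lift (red_evL ω) v
  obtain ⟨p, rfl, hp'⟩ := red_lift (red_evL ω) p
  obtain ⟨y, hy, -⟩ := red_div (red_evL ω) (D (tw tL n) (c + p) - a)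
  have h2 : D (tw tL n) (c + p) - a - epL ω • y ∈ Null La 2 X := by
    refine hy _ _ ?_
    have h3 : cf (evL ω) (D (tw tL n) (c + p) - a)
        = -(cf (evL ω) a - D (tw ω n) (cf (evL ω) c) - D (tw ω n) (cf (evL ω) p)) := by
      rw [map_sub, cf_D _ (hev ω n), map_add, map_add]
      abel
    rw [h3]
    exact neg_mem h1
  have hy0 : y ∈ Zc (tw tL n) 2 X ∅ :=
    facb_quot (h.cocX tL) (Null_mono _ (subset_univ X) ha.2) h2
  have hc : cf (evL ω) (c + p) ∈ Zc (tw ω n) 1 (X ∩ Y) ∅ := by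
    rw [map_add]
    exact add_mem hv (mem_Zc.2 ⟨by simp, D_Null _ hp⟩)
  have h4 : cl _ hv = cl _ hc := by
    rw [eq_comm, cl_eq, map_add, add_sub_cancel_left]
    exact Null_le_Bc _ _ _ _ hp
  refine ⟨cl y hy0, ?_⟩
  rw [h4]
  refine hβ.spec (c + p) y hc (Zc_mono _ _ inter_subset_left subset_rfl hy0) (by simp) ?_
  have h5 := add_mem (Null_mono _ (inter_subset_left (t := Y)) h2)
    (Null_mono _ (inter_subset_right (s := X)) ha.1)
  have h6 : D (tw tL n) (c + p) - epL ω • y = D (tw tL n) (c + p) - a - epL ω • y + a := by abel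
  rw [h6]
  exact h5

/-- the Bockstein cochain of a constant lift -/
noncomputable def facb_y (ω : ℂˣ) (n : E4 → E4 → ℤ) (v : List E4 → ℂ) : List E4 → La
  | a :: b :: l => (pow_sub_eq ω (n a b)).choose * LaurentPolynomial.C (v (b :: l))
  | _ => 0

lemma facb_len3 {R : Type} [CommRing R] {F : Set E4} {a b : List E4 → R}
    (h : ∀ x y z, a [x, y, z] = b [x, y, z]) (hb : b ∈ Null R 2 F) : a ∈ Null R 2 F := by
  intro x hx
  obtain ⟨U, hU, h1⟩ := hb x hx
  refine ⟨U, hU, fun l hl hl' => ?_⟩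
  obtain ⟨x, y, z, rfl⟩ := List.length_eq_three.1 hl
  rw [h, h1 _ hl hl']

lemma facb_y_spec {F : Set E4} {v : List E4 → ℂ} (hv : D (tw ω n) v ∈ Null ℂ 2 F) :
    D (tw tL n) (cf LaurentPolynomial.C v) - epL ω • facb_y ω n v ∈ Null La 2 F := by
  refine facb_len3 (fun x y z => ?_) (cf_Null LaurentPolynomial.C hv)
  have h1 := (pow_sub_eq ω (n x y)).choose_spec.1
  simp only [Pi.sub_apply, Pi.smul_apply, smul_eq_mul, D_three, cf_apply, facb_y, tw, map_add,
    map_sub, map_mul]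
  linear_combination (LaurentPolynomial.C (v [y, z]) : La) * h1

lemma facb_y_ev (F : Set E4) (v : List E4 → ℂ) :
    ((ω⁻¹ : ℂˣ) : ℂ) • cup (tw ω n) 1 (co1 fun a b => (n a b : ℂ)) v - cf (evL ω) (facb_y ω n v)
      ∈ Null ℂ 2 F := by
  refine facb_len3 (fun x y z => ?_) (zero_mem _)
  have h1 := (pow_sub_eq ω (n x y)).choose_spec.2
  simp only [Pi.sub_apply, Pi.smul_apply, smul_eq_mul, cf_apply, facb_y, map_mul, h1, evL_C,
    Pi.zero_apply]
  simp only [cup, co1, tw, List.take, List.drop, List.getD_cons_succ, List.getD_cons_zero,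
    zpow_sub_one, Units.val_mul]
  ring

lemma bock_psi (h : XN X Y N n) (hω : ‖(ω : ℂ)‖ = 1)
    (hβ : IsBock (evL ω) (epL ω) (hev ω n) 1 (X ∩ Y) ∅ β) {W : SF (H (tw ω n) 1 (X ∩ Y) ∅)}
    (hW : IsW h.xy ω n W) (v v' : H (tw ω n) 1 (X ∩ Y) ∅) (b : H (tw tL n) 2 X ∅)
    (hb : β v' = rm (tw tL n) 2 X Y b) : (ω : ℂ) * W v v' = pbL h hω (dl h.xy (h.cocX ω) 1 v) b := by
  obtain ⟨v, hv, rfl⟩ := cl_surj v
  obtain ⟨v', hv', rfl⟩ := cl_surj v'
  obtain ⟨b, hb0, rfl⟩ := cl_surj b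
  obtain ⟨hw, h1⟩ := hW v hv v' hv'
  have hn := facb_coc h
  have he : cf (evL ω) (cf LaurentPolynomial.C v') = v' := by
    funext l
    exact evL_C ω _
  have hc : cf (evL ω) (cf LaurentPolynomial.C v') ∈ Zc (tw ω n) 1 (X ∩ Y) ∅ := by
    rw [he]
    exact hv'
  have h2 := facb_y_spec (ω := ω) (n := n) hv'.2
  have hy : facb_y ω n v' ∈ Zc (tw tL n) 2 (X ∩ Y) ∅ :=
    facb_quot (ω := ω) (hn.tw tL) (c := cf LaurentPolynomial.C v') (a := 0) (by simp)
      (by rwa [sub_zero])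
  have h3 := hβ.spec _ _ hc hy (by simp) h2
  have h4 : cl _ hc = cl v' hv' := by simp only [he]
  rw [h4, hb] at h3
  have h5 := cf_Bc _ (hev ω n) ((cl_eq hy _).1 h3.symm)
  have h6 := add_mem (Null_le_Bc (tw ω n) 2 (X ∩ Y) ∅ (facb_y_ev (ω := ω) (n := n) _ v')) h5
  rw [map_sub, sub_add_sub_cancel] at h6
  have h7 := cf_Bc _ (hcj hω n) h6
  have h8 : starRingEnd ℂ ((ω⁻¹ : ℂˣ) : ℂ) = ω := by
    rw [← conj_unit hω, Complex.conj_conj]
  rw [map_sub, LinearMap.map_smulₛₗ, h8] at h7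
  have h9 := cup_Bc_abs_right (hn.tw ω) (hn.tw ω⁻¹) (Mu_tw ω n _) (p := 1) (q := 2) (k := 3) rfl
    hv h7
  have hb1 : cf (starRingEnd ℂ) (cf (evL ω) b) ∈ Zc (tw ω⁻¹ n) 2 X ∅ :=
    cf_Zc _ (hcj hω n) (cf_Zc _ (hev ω n) hb0)
  have hw' := cup_Zc_abs (hn.tw ω) (hn.tw ω⁻¹) (Mu_tw ω n _) (p := 1) (q := 2) (k := 3) rfl hv
    (Zc_mono _ _ inter_subset_left subset_rfl hb1)
  have h10 := pair_dl h.xy (h.good ω) h.sub (i := 1) (j := 2) rfl hv hb1 hw'
  refine Eq.trans ?_ h10.symm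
  rw [h1, ← smul_eq_mul, ← map_smul, ← cl_smul]
  congr 1
  rw [cl_eq]
  rw [← cupL_apply, map_sub, map_smul] at h9
  exact h9

end Pool.Agent.P.MP_3d25f3_gt
end

-- part Pool.Agent.P.MP_3d25f3_gt.FacC
section

set_option autoImplicit false

open Set Filter Topology

namespace Pool.Agent.P.MP_3d25f3_gt

open Module

variable {X Y N : Set E4} {n : E4 → E4 → ℤ}

/-- the family of hermitian forms -/
structure Family (h : XN X Y N n) (m : ℤ) (ρ : ℕ) (G G₁ : ℝ → SF (Fin ρ → ℂ)) : Prop where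
  herm : ∀ θ, Herm (G θ)
  der : ∀ θ x y, HasDerivAt (fun u => G u x y) (G₁ θ x y) θ
  card : ∀ θ, ρ ≤ finrank ℂ (H (tw (cu θ) n) 2 univ Y)
  rank : ∀ θ, ρ ≤ finrank ℂ (LinearMap.ker (G θ))
    + finrank ℂ (LinearMap.range (jm (tw (cu θ) n) 2 X Y))
  gen : ∀ θ, cu θ ^ m ≠ 1 → LinearMap.ker (G θ) = ⊥
  nd : ∀ θ, ∀ x ∈ LinearMap.ker (G θ), (∀ y ∈ LinearMap.ker (G θ), G₁ θ x y = 0) → x = 0
  res : ∀ θ, cu θ ^ m = 1 → ∀ W, IsW h.xy (cu θ) n W →
    ∃ (Q : Submodule ℂ (H (tw (cu θ) n) 1 (X ∩ Y) ∅)) (π : Q →ₗ[ℂ] LinearMap.ker (G θ)),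
      Function.Surjective π ∧ (∀ v v' : Q, G₁ θ (π v) (π v') = Complex.I * W v v') ∧
      ∀ v, (∀ q ∈ Q, W v q = 0) → v ∈ Q

/-- the Gram matrix over the Laurent ring -/
noncomputable def facc_M (h : XN X Y N n) {ρ : ℕ} (e : Fin ρ → H (tw tL n) 2 univ Y)
    (i j : Fin ρ) : La := lamL h (e i) (jm (tw tL n) 2 X Y (e j))

noncomputable def facc_G (h : XN X Y N n) {ρ : ℕ} (e : Fin ρ → H (tw tL n) 2 univ Y) (θ : ℝ) :
    SF (Fin ρ → ℂ) := gram fun i j => evL (cu θ) (facc_M h e i j)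

noncomputable def facc_G1 (h : XN X Y N n) {ρ : ℕ} (e : Fin ρ → H (tw tL n) 2 univ Y) (θ : ℝ) :
    SF (Fin ρ → ℂ) := gram fun i j => deriv (fun u => evL (cu u) (facc_M h e i j)) θ

lemma facc_lam (h : XN X Y N n) {ρ : ℕ} (e : Fin ρ → H (tw tL n) 2 univ Y) (x y : Fin ρ → ℂ) :
    lamL h (∑ i, (LaurentPolynomial.C (x i) : La) • e i)
        (jm (tw tL n) 2 X Y (∑ i, (LaurentPolynomial.C (y i) : La) • e i))
      = ∑ i, ∑ j, LaurentPolynomial.C (x i) * LaurentPolynomial.C (starRingEnd ℂ (y j))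
        * facc_M h e i j := by
  rw [map_sum (lamL h), LinearMap.sum_apply]
  refine Finset.sum_congr rfl fun i _ => ?_
  rw [map_smul, LinearMap.smul_apply, map_sum, map_sum, Finset.smul_sum]
  refine Finset.sum_congr rfl fun j _ => ?_
  rw [map_smul, LinearMap.map_smulₛₗ, sgL_C, smul_eq_mul, smul_eq_mul, facc_M, mul_assoc]

lemma facc_Geq (h : XN X Y N n) {ρ : ℕ} (e : Fin ρ → H (tw tL n) 2 univ Y) (θ : ℝ)
    (x y : Fin ρ → ℂ) : facc_G h e θ x y
      = evL (cu θ) (lamL h (∑ i, (LaurentPolynomial.C (x i) : La) • e i)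
        (jm (tw tL n) 2 X Y (∑ i, (LaurentPolynomial.C (y i) : La) • e i))) := by
  rw [facc_lam, facc_G, gram_apply, map_sum]
  refine Finset.sum_congr rfl fun i _ => ?_
  rw [map_sum]
  refine Finset.sum_congr rfl fun j _ => ?_
  rw [map_mul, map_mul, evL_C, evL_C]

lemma facc_der (h : XN X Y N n) {ρ : ℕ} (e : Fin ρ → H (tw tL n) 2 univ Y) (θ : ℝ)
    (x y : Fin ρ → ℂ) : HasDerivAt (fun u => facc_G h e u x y) (facc_G1 h e θ x y) θ := by
  simp only [facc_G, facc_G1, gram_apply]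
  refine HasDerivAt.fun_sum fun i _ => HasDerivAt.fun_sum fun j _ => ?_
  exact (differentiable_evL (facc_M h e i j) θ).hasDerivAt.const_mul _

lemma facc_herm (h : XN X Y N n) {ρ : ℕ} (e : Fin ρ → H (tw tL n) 2 univ Y) (θ : ℝ) :
    Herm (facc_G h e θ) := by
  intro x y
  rw [facc_Geq, facc_Geq, lamL_herm, evL_sgL (norm_cu θ)]

lemma facc_comm (ω : ℂˣ) (x : H (tw tL n) 2 univ Y) :
    cmap (evL ω) (hev ω n) 2 X ∅ (jm (tw tL n) 2 X Y x)
      = jm (tw ω n) 2 X Y (cmap (evL ω) (hev ω n) 2 univ Y x) := by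
  obtain ⟨a, ha, rfl⟩ := cl_surj x
  rfl

lemma facc_rank (h : XN X Y N n) {ρ : ℕ} (e : Fin ρ → H (tw tL n) 2 univ Y) (θ : ℝ) :
    ρ ≤ finrank ℂ (LinearMap.ker (facc_G h e θ))
      + finrank ℂ (LinearMap.range (jm (tw (cu θ) n) 2 X Y)) := by
  have : Module.Finite ℂ (H (tw (cu θ) n) 2 X ∅) := (h.xy.fg (h.good (cu θ)) h.sub).2 2
  let L : (Fin ρ → ℂ) →ₗ[ℂ] H (tw (cu θ) n) 2 X ∅ := jm (tw (cu θ) n) 2 X Y ∘ₗ
    Fintype.linearCombination ℂ fun i => cmap (evL (cu θ)) (hev (cu θ) n) 2 univ Y (e i)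
  have h1 : LinearMap.ker L ≤ LinearMap.ker (facc_G h e θ) := by
    intro y hy
    rw [LinearMap.mem_ker] at hy ⊢
    ext1 x
    have h2 : cmap (evL (cu θ)) (hev (cu θ) n) 2 X ∅
        (jm (tw tL n) 2 X Y (∑ i, (LaurentPolynomial.C (y i) : La) • e i)) = 0 := by
      rw [facc_comm, ← hy, map_sum]
      simp only [L, LinearMap.comp_apply, Fintype.linearCombination_apply,
        LinearMap.map_smulₛₗ, evL_C]
    rw [facc_herm h e θ x y, facc_Geq, ← pbL_red h (norm_cu θ), pbL_apply, h2, map_zero,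
      map_zero, map_zero, LinearMap.zero_apply]
  have h3 : LinearMap.range L ≤ LinearMap.range (jm (tw (cu θ) n) 2 X Y) :=
    LinearMap.range_comp_le_range _ _
  have h4 := L.finrank_range_add_finrank_ker
  have h5 := Submodule.finrank_mono h1
  have h6 := Submodule.finrank_mono h3
  rw [Module.finrank_fin_fun] at h4
  omega

lemma facc_res (h : XN X Y N n) {m : ℤ}
    (hk : ∀ x : H (tw tL n) 2 (X ∩ Y) ∅, (((tL ^ m : Laˣ) : La) - 1) • x = 0) {ρ : ℕ}
    {e : Fin ρ → H (tw tL n) 2 univ Y}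
    (h1 : ∀ x, ∃ c : Fin ρ → La, x - ∑ i, c i • e i ∈ Submodule.torsion La (H (tw tL n) 2 univ Y))
    (h2 : ∀ c : Fin ρ → La, ∑ i, c i • e i ∈ Submodule.torsion La (H (tw tL n) 2 univ Y) → c = 0)
    (θ : ℝ) {W : SF (H (tw (cu θ) n) 1 (X ∩ Y) ∅)} (hW : IsW h.xy (cu θ) n W) :
    ∃ β : H (tw (cu θ) n) 1 (X ∩ Y) ∅ →+ H (tw tL n) 2 (X ∩ Y) ∅,
      ResD sgL (evL (cu θ)) LaurentPolynomial.C (epL (cu θ))
        (-((tL⁻¹ : Laˣ) * LaurentPolynomial.C (((cu θ)⁻¹ : ℂˣ) : ℂ))) (((tL ^ m : Laˣ) : La) - 1)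
        (jm (tw tL n) 2 X Y) (rm (tw tL n) 2 X Y) (lamL h)
        (cmap (evL (cu θ)) (hev (cu θ) n) 2 univ Y) (pbL h (norm_cu θ))
        (dl h.xy (h.cocX (cu θ)) 1) β ((cu θ : ℂ) • W) e (facc_G h e θ) := by
  obtain ⟨β, hβ⟩ := exists_bock (red_evL (cu θ)) (hev (cu θ) n) 1 (F := X ∩ Y) (F' := ∅)
    ((h.cocX tL).mono (sdiff_subset.trans inter_subset_left)) (empty_subset _)
  have hc : Coc (tw tL n) (univ \ Y) := (h.cocX tL).mono fun x hx =>
    (h.xy.cover.ge (mem_univ x)).resolve_right hx.2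
  refine ⟨β, sgL_sgL, evL_sgL (norm_cu θ), evL_C _, (red_evL _).ker, fun h0 => ?_,
    sgL_epL (norm_cu θ), exact_jm_rm h.xy (h.cocX tL) 2, hk, lamL_herm h, pbL_red h _,
    pbL_smul h _, pbL_perp h _, fun x hx => ?_, hβ.smul, fun y hy => ?_, bock_lift h hβ,
    bock_back h hβ, fun v v' b hb => ?_, h1, h2, facc_Geq h e θ⟩
  · exact one_ne_zero ((red_evL (cu θ)).reg 1 (by rw [h0, zero_mul]))
  · exact (cmap_eq_zero (red_evL _) (hev _ n) hc (subset_univ _) x).1 hx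
  · obtain ⟨v, hv⟩ := (hβ.range y).1 hy
    exact ⟨v, hv.symm⟩
  · rw [← bock_psi h (norm_cu θ) hβ hW v v' b hb]
    rfl

lemma facc_ev_s (ω : ℂˣ) (m : ℤ) :
    evL ω (((tL ^ m : Laˣ) : La) - 1) = ((ω ^ m : ℂˣ) : ℂ) - 1 := by
  obtain ⟨q, hq, -⟩ := pow_sub_eq ω m
  have h1 : evL ω (epL ω) = 0 := ((red_evL ω).ker _).2 dvd_rfl
  have h2 := congrArg (evL ω) hq
  rw [map_sub, map_mul, h1, zero_mul, evL_C, sub_eq_zero] at h2
  rw [map_sub, h2, map_one]

lemma facc_G1_eq (h : XN X Y N n) {ρ : ℕ} (e : Fin ρ → H (tw tL n) 2 univ Y) (θ : ℝ)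
    (x y : Fin ρ → ℂ) (q : La)
    (hq : lamL h (∑ i, (LaurentPolynomial.C (x i) : La) • e i)
        (jm (tw tL n) 2 X Y (∑ i, (LaurentPolynomial.C (y i) : La) • e i)) = epL (cu θ) * q) :
    facc_G1 h e θ x y = Complex.I * cu θ * evL (cu θ) q := by
  have h1 := facc_der h e θ x y
  simp only [facc_Geq, hq] at h1
  exact h1.unique (hasDerivAt_epL θ q)

lemma facc_root (h : XN X Y N n) {m : ℤ} (hm : m ≠ 0)
    (hk : ∀ x : H (tw tL n) 2 (X ∩ Y) ∅, (((tL ^ m : Laˣ) : La) - 1) • x = 0) {ρ : ℕ}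
    {e : Fin ρ → H (tw tL n) 2 univ Y}
    (h1 : ∀ x, ∃ c : Fin ρ → La, x - ∑ i, c i • e i ∈ Submodule.torsion La (H (tw tL n) 2 univ Y))
    (h2 : ∀ c : Fin ρ → La, ∑ i, c i • e i ∈ Submodule.torsion La (H (tw tL n) 2 univ Y) → c = 0)
    (θ : ℝ) (hθ : cu θ ^ m = 1) {W : SF (H (tw (cu θ) n) 1 (X ∩ Y) ∅)}
    (hW : IsW h.xy (cu θ) n W) :
    (∀ x ∈ LinearMap.ker (facc_G h e θ),
      (∀ y ∈ LinearMap.ker (facc_G h e θ), facc_G1 h e θ x y = 0) → x = 0) ∧
    ∃ (Q : Submodule ℂ (H (tw (cu θ) n) 1 (X ∩ Y) ∅))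
      (π : Q →ₗ[ℂ] LinearMap.ker (facc_G h e θ)), Function.Surjective π ∧
      (∀ v v' : Q, facc_G1 h e θ (π v) (π v') = Complex.I * W v v') ∧
      ∀ v, (∀ q ∈ Q, W v q = 0) → v ∈ Q := by
  obtain ⟨β, hR⟩ := facc_res h hk h1 h2 θ hW
  obtain ⟨q, hq, hq'⟩ := pow_sub_eq (cu θ) m
  rw [hθ, Units.val_one, map_one] at hq
  have hq0 : evL (cu θ) q ≠ 0 := by
    rw [hq']
    exact mul_ne_zero (Int.cast_ne_zero.2 hm) (Units.ne_zero _)
  obtain ⟨a1, Q, π, a2, a3, a4⟩ := hR.residue hq hq0 (G₁ := facc_G1 h e θ)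
    (c := Complex.I * cu θ) (mul_ne_zero Complex.I_ne_zero (Units.ne_zero _)) (facc_G1_eq h e θ)
  refine ⟨a1, Q, π, a2, fun v v' => ?_, fun v hv => a4 v fun q hq => ?_⟩
  · rw [a3, map_neg, map_mul, evL_t_inv, evL_C, LinearMap.smul_apply, LinearMap.smul_apply,
      smul_eq_mul, Units.val_inv_eq_inv_val]
    have := Units.ne_zero (cu θ)
    field_simp
  · rw [LinearMap.smul_apply, LinearMap.smul_apply, hv q hq, smul_zero]

theorem exists_family (h : XN X Y N n) {m : ℤ} (hm : m ≠ 0)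
    (hk : ∀ x : H (tw tL n) 2 (X ∩ Y) ∅, (((tL ^ m : Laˣ) : La) - 1) • x = 0) :
    ∃ ρ G G₁, Family h m ρ G G₁ := by
  have : Module.Finite La (H (tw tL n) 2 univ Y) := (h.xy.fg (h.good tL) h.sub).1 2
  obtain ⟨ρ, e, h1, h2⟩ := exists_tbasis La (H (tw tL n) 2 univ Y)
  have hgen : ∀ θ, cu θ ^ m ≠ 1 → LinearMap.ker (facc_G h e θ) = ⊥ := by
    intro θ hθ
    obtain ⟨W, hW⟩ := exists_W h (norm_cu θ)
    obtain ⟨β, hR⟩ := facc_res h hk h1 h2 θ hW
    refine hR.nondeg ?_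
    rw [facc_ev_s, sub_ne_zero]
    exact fun h3 => hθ (Units.val_eq_one.1 h3)
  refine ⟨ρ, facc_G h e, facc_G1 h e, facc_herm h e, facc_der h e, fun θ => ?_, facc_rank h e,
    hgen, fun θ => ?_, fun θ hθ W hW => (facc_root h hm hk h1 h2 θ hθ hW).2⟩
  · have : Module.Finite ℂ (H (tw (cu θ) n) 2 univ Y) := (h.xy.fg (h.good (cu θ)) h.sub).1 2
    obtain ⟨W, hW⟩ := exists_W h (norm_cu θ)
    obtain ⟨β, hR⟩ := facc_res h hk h1 h2 θ hW
    simpa using hR.card_le
  · by_cases hθ : cu θ ^ m = 1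
    · obtain ⟨W, hW⟩ := exists_W h (norm_cu θ)
      exact (facc_root h hm hk h1 h2 θ hθ hW).1
    · intro x hx _
      rwa [hgen θ hθ, Submodule.mem_bot] at hx

end Pool.Agent.P.MP_3d25f3_gt
end

-- part Pool.Agent.P.MP_3d25f3_gt.Fib
section

set_option autoImplicit false

open Set Filter Topology

namespace Pool.Agent.P.MP_3d25f3_gt

variable {g : ℕ} {S : List (ℕ × ℤ)}

lemma fib_nhds (L : ℕ) (u : ℝ) :
    𝓝 (u : AddCircle (L : ℝ)) = map (fun w : ℝ => (w : AddCircle (L : ℝ))) (𝓝 u) :=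
  (QuotientAddGroup.isOpenMap_coe.map_nhds_eq (AddCircle.continuous_mk' _).continuousAt).symm

lemma fib_key {L : ℕ} {j j' : ℕ} (hj : j < L) (hj' : j' < L) {s s' : ℝ} (hs : s ∈ Ioo (0 : ℝ) 1)
    (hs' : s' ∈ Icc (0 : ℝ) 1) {k : ℤ} (h : (j' : ℝ) + s' = j + s + k * L) : j = j' ∧ s = s' := by
  have h1 : ((j + k * L - j' : ℤ) : ℝ) = s' - s := by push_cast; linarith
  have h2 : (j + k * L - j' : ℤ) < 1 := by
    have : ((j + k * L - j' : ℤ) : ℝ) < 1 := by rw [h1]; linarith [hs.1, hs'.2]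
    exact_mod_cast this
  have h3 : (-1 : ℤ) < j + k * L - j' := by
    have : (-1 : ℝ) < ((j + k * L - j' : ℤ) : ℝ) := by rw [h1]; linarith [hs.2, hs'.1]
    exact_mod_cast this
  have h4 : (j + k * L - j' : ℤ) = 0 := by omega
  have h5 : (j : ℤ) < L := by exact_mod_cast hj
  have h6 : (j' : ℤ) < L := by exact_mod_cast hj'
  have h7 : k = 0 := by
    rcases lt_trichotomy k 0 with hk | hk | hk
    · nlinarith
    · exact hk
    · nlinarith
  rw [h4] at h1
  rw [h7] at h4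
  exact ⟨by omega, by simpa [eq_comm, sub_eq_zero] using h1⟩

lemma fib_key' {j j' : ℕ} (hj : j < LL g S) (hj' : j' < LL g S) {s s' : ℝ}
    (hs : s ∈ Ioo (0 : ℝ) 1) (hs' : s' ∈ Icc (0 : ℝ) 1)
    (h : bp (LL g S) (j' + s') = bp (LL g S) (j + s)) : j = j' ∧ s = s' := by
  obtain ⟨k, hk⟩ := (bp_eq_iff (NeZero.ne _) _ _).1 h.symm
  exact fib_key hj hj' hs hs' hk

lemma fib_lt {e : ℕ} (he : e < NE g S) : st g e < LL g S := by
  have := st_le (g := g) (S := S) he
  have := wd_ge (g := g) e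
  omega

lemma fib_lt' {e : ℕ} (he : e < NE g S) : st g e + wd g e - 1 < LL g S := by
  have := st_le (g := g) (S := S) he
  have := wd_ge (g := g) e
  omega

lemma fib_cast (e : ℕ) (s : ℝ) :
    (st g e : ℝ) + wd g e - s = ((st g e + wd g e - 1 : ℕ) : ℝ) + (1 - s) := by
  have := wd_ge (g := g) e
  rw [Nat.cast_sub (by omega)]
  push_cast
  ring

/-- rounding, downwards at the midpoints of the first arcs -/
lemma fib_round (g : ℕ) (S : List (ℕ × ℤ)) : ∃ r : ℝ → ℤ, (∀ u, r (u + LL g S) = r u + LL g S) ∧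
    (∀ (k : ℤ) (u : ℝ), k - 1 / 2 < u → u < k + 1 / 2 → r u = k) ∧
    (∀ e < NE g S, r (st g e + 1 / 2) = st g e) ∧
    ∀ e < NE g S, r (st g e + wd g e - 1 / 2) = st g e + wd g e := by
  classical
  let p : ℝ → Prop := fun u => ∃ e < NE g S, ∃ k : ℤ, u = st g e + 1 / 2 + k * LL g S
  refine ⟨fun u => if p u then ⌈u - 1 / 2⌉ else ⌊u + 1 / 2⌋, fun u => ?_, fun k u h1 h2 => ?_,
    fun e he => ?_, fun e he => ?_⟩
  · have hp : p (u + LL g S) ↔ p u := by
      constructor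
      · rintro ⟨e, he, k, hk⟩
        exact ⟨e, he, k - 1, by push_cast; linarith⟩
      · rintro ⟨e, he, k, hk⟩
        exact ⟨e, he, k + 1, by push_cast; linarith⟩
    simp only [hp]
    split_ifs
    · rw [add_sub_right_comm, Int.ceil_add_natCast]
    · rw [add_right_comm, Int.floor_add_natCast]
  · simp only
    split_ifs
    · rw [Int.ceil_eq_iff]; constructor <;> linarith
    · rw [Int.floor_eq_iff]; constructor <;> linarith
  · simp only
    rw [if_pos ⟨e, he, 0, by simp⟩]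
    simp
  · simp only
    rw [if_neg]
    · rw [sub_add_cancel, Int.floor_eq_iff]; constructor <;> push_cast <;> linarith
    · rintro ⟨e', he', k, hk⟩
      rw [fib_cast] at hk
      have := (fib_key (fib_lt he') (fib_lt' he) ⟨by norm_num, by norm_num⟩
        ⟨by norm_num, by norm_num⟩ hk).1
      have h2 := wd_ge (g := g) e
      exact st_ne (g := g) e' e (by omega)

/-- a step function on the disc with given vertex values -/
lemma exists_step {ρ : ℕ → ℂ} {x : ZMod (LL g S) → ℂ} (hx : x ∈ Pol g S ρ) : ∃ E : Disc → ℂ,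
    (∀ j : ℕ, E (bp (LL g S) j) = x j) ∧
    (∀ e < NE g S, ∀ s ∈ Icc (0 : ℝ) 1, E (bp (LL g S) (st g e + wd g e - s))
      = ρ e * E (bp (LL g S) (st g e + s)) + vv g ρ x e) ∧
    ∀ u : ℝ, (∀ k : ℤ, u ≠ k + 1 / 2) → ∀ᶠ y in 𝓝 (bp (LL g S) u), E y = E (bp (LL g S) u) := by
  obtain ⟨r, r1, r2, r3, r4⟩ := fib_round g S
  obtain ⟨ang, a1, a2⟩ := exists_ang (L := LL g S) (NeZero.ne _)
  have hper : Function.Periodic (fun u => x (r u : ZMod (LL g S))) (LL g S : ℝ) := fun u => by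
    simp [r1]
  have hE : ∀ u, hper.lift (ang (bp (LL g S) u)) = x (r u) := fun u => by
    rw [a2]; exact hper.lift_coe u
  refine ⟨fun y => hper.lift (ang y), fun j => ?_, fun e he s hs => ?_, fun u hu => ?_⟩
  · simp only [hE]
    rw [r2 j j (by push_cast; linarith) (by push_cast; linarith)]
    simp
  · simp only [hE]
    have hw := wd_ge (g := g) e
    rcases lt_trichotomy s (1 / 2) with h | rfl | h
    · rw [r2 (st g e + wd g e) _ (by push_cast; linarith) (by push_cast; linarith [hs.1]),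
        r2 (st g e) _ (by push_cast; linarith [hs.1]) (by push_cast; linarith), vv]
      push_cast
      ring
    · rw [r3 e he, r4 e he, vv]
      push_cast
      ring
    · rw [r2 (st g e + wd g e - 1) _ (by push_cast; linarith [hs.2]) (by push_cast; linarith),
        r2 (st g e + 1) _ (by push_cast; linarith) (by push_cast; linarith [hs.2]), hx e he,
        Nat.cast_sub (by omega)]
      push_cast
      ring
  · have h1 : ∀ᶠ a in 𝓝 (u : AddCircle (LL g S : ℝ)), hper.lift a = x (r u) := by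
      rw [fib_nhds, eventually_map]
      have l1 : (⌊u + 1 / 2⌋ : ℝ) - 1 / 2 < u := by
        refine lt_of_le_of_ne (by linarith [Int.floor_le (u + 1 / 2)]) fun h => ?_
        exact hu (⌊u + 1 / 2⌋ - 1) (by push_cast; linarith)
      have l2 : u < (⌊u + 1 / 2⌋ : ℝ) + 1 / 2 := by linarith [Int.lt_floor_add_one (u + 1 / 2)]
      filter_upwards [Ioo_mem_nhds l1 l2] with w hw
      rw [r2 _ u l1 l2, ← r2 _ w hw.1 hw.2]
      exact hper.lift_coe w
    rw [← a2] at h1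
    simpa only [hE] using (a1 u).eventually h1

lemma fib_int {a b : Solid} (h : pm g S a = pm g S b) (ha : ‖(a.1 : ℂ)‖ < 1) : a = b := by
  have hb : ∀ (y : Solid) (u : ℝ), y.1 = bp (LL g S) u → ¬ a = y := by
    rintro y u hy rfl
    rw [hy] at ha
    exact ha.ne (norm_bd _ _)
  obtain ⟨f, hf⟩ := desc_solid (g := g) (S := S) (fun y => a = y) fun e _ s _ z =>
    propext (iff_of_false (hb _ _ rfl) (hb _ _ rfl))
  rw [← hf, ← h, hf]

lemma fib_bd {a b : Solid} (h : pm g S a = pm g S b) {u : ℝ} (hu : ∀ k : ℤ, u ≠ k + 1 / 2)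
    (ha : a.1 = bp (LL g S) u) : ∃ u' : ℝ, (∀ k : ℤ, u' ≠ k + 1 / 2) ∧ b.1 = bp (LL g S) u' := by
  have hb : ∀ w : ℝ, (∃ u' : ℝ, (∀ k : ℤ, u' ≠ k + 1 / 2) ∧ bp (LL g S) w = bp (LL g S) u') ↔
      ∀ k : ℤ, w ≠ k + 1 / 2 := by
    refine fun w => ⟨?_, fun h => ⟨w, h, rfl⟩⟩
    rintro ⟨u', h1, h2⟩ k hk
    obtain ⟨m, hm⟩ := (bp_eq_iff (NeZero.ne _) _ _).1 h2
    exact h1 (k + m * LL g S) (by push_cast; linarith)
  obtain ⟨f, hf⟩ := desc_solid (g := g) (S := S)
    (fun y => ∃ u' : ℝ, (∀ k : ℤ, u' ≠ k + 1 / 2) ∧ y.1 = bp (LL g S) u') fun e _ s _ z => by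
      refine propext (((hb _).trans ?_).trans (hb _).symm)
      constructor
      · intro h k hk
        exact h (2 * st g e + wd g e - k - 1) (by push_cast; linarith)
      · intro h k hk
        exact h (2 * st g e + wd g e - k - 1) (by push_cast; linarith)
  rw [← hf, ← h, hf]
  exact ⟨u, hu, ha⟩

lemma fib_arc {e : ℕ} (he : e < NE g S) {s : ℝ} (hs : s ∈ Ioo (0 : ℝ) 1) (z : ℝ) {b : Solid}
    (h : pm g S b = pp g S (ga g S e s z)) : b = pc (ga g S e s z) ∨ b = pc (gb g S e s z) := by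
  have hs1 : 1 - s ∈ Ioo (0 : ℝ) 1 := ⟨by linarith [hs.2], by linarith [hs.1]⟩
  have hw := wd_ge (g := g) e
  obtain ⟨f, hf⟩ := desc_solid (g := g) (S := S)
    (fun y => y = pc (ga g S e s z) ∨ y = pc (gb g S e s z)) fun e' he' s' hs' z' => by
      have hs1' : 1 - s' ∈ Icc (0 : ℝ) 1 := ⟨by linarith [hs'.2], by linarith [hs'.1]⟩
      have hw' := wd_ge (g := g) e'
      simp only [pc_eq_iff, ga, gb, fib_cast, eq_iff_iff]
      constructor
      · rintro (⟨h1, -⟩ | ⟨h1, k, hk⟩)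
        · have := (fib_key' (fib_lt he) (fib_lt' he') hs hs1' h1).1
          exact absurd (by omega) (st_ne (g := g) e e')
        · obtain ⟨h2, h3⟩ := fib_key' (fib_lt' he) (fib_lt' he') hs1 hs1' h1
          obtain rfl : e = e' := st_inj' (g := g) (by omega)
          obtain rfl : s = s' := by linarith
          exact Or.inl ⟨rfl, k, by linarith⟩
      · rintro (⟨h1, k, hk⟩ | ⟨h1, -⟩)
        · obtain ⟨h2, rfl⟩ := fib_key' (fib_lt he) (fib_lt he') hs hs' h1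
          obtain rfl : e = e' := st_inj (g := g) h2
          exact Or.inr ⟨rfl, k, by linarith⟩
        · have := (fib_key' (fib_lt' he) (fib_lt he') hs1 hs' h1).1
          exact absurd (by omega) (st_ne (g := g) e' e)
  rw [← hf, h, pp, hf]
  exact Or.inl rfl

/-- near the middle of an arc the boundary points lie on that arc -/
lemma near_mid (j : ℕ) {J : Set ℝ} (hJ : J ∈ 𝓝 (1 / 2 : ℝ)) :
    ∀ᶠ y : Disc in 𝓝 (bp (LL g S) (j + 1 / 2)),
      ‖(y : ℂ)‖ < 1 ∨ ∃ s ∈ J ∩ Ioo (0 : ℝ) 1, y = bp (LL g S) (j + s) := by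
  obtain ⟨ang, a1, a2⟩ := exists_ang (L := LL g S) (NeZero.ne _)
  have h1 : ∀ᶠ a in 𝓝 (((j + 1 / 2 : ℝ)) : AddCircle (LL g S : ℝ)),
      ∃ s ∈ J ∩ Ioo (0 : ℝ) 1, a = ((j + s : ℝ) : AddCircle (LL g S : ℝ)) := by
    rw [fib_nhds, eventually_map]
    have h2 : (fun w : ℝ => w - j) ⁻¹' (J ∩ Ioo (0 : ℝ) 1) ∈ 𝓝 ((j : ℝ) + 1 / 2) := by
      refine ContinuousAt.preimage_mem_nhds (by fun_prop) ?_
      rw [add_sub_cancel_left]
      exact inter_mem hJ (Ioo_mem_nhds (by norm_num) (by norm_num))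
    filter_upwards [h2] with w hw
    exact ⟨w - j, hw, by rw [add_sub_cancel]⟩
  rw [← a2] at h1
  filter_upwards [(a1 _).eventually h1] with y hy
  have hy1 : ‖(y : ℂ)‖ ≤ 1 := mem_closedBall_zero_iff.1 y.2
  refine hy1.lt_or_eq.imp id fun hy2 => ?_
  obtain ⟨w, -, rfl⟩ := exists_bp (L := LL g S) (NeZero.ne _) hy2
  obtain ⟨s, hs, h3⟩ := hy
  refine ⟨s, hs, (bp_eq_iff (NeZero.ne _) _ _).2 ?_⟩
  rw [a2] at h3
  obtain ⟨k, hk⟩ := AddSubgroup.mem_zmultiples_iff.1 (QuotientAddGroup.eq.1 h3)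
  exact ⟨k, by rw [zsmul_eq_mul] at hk; linarith⟩

end Pool.Agent.P.MP_3d25f3_gt
end

-- part Pool.Agent.P.MP_3d25f3_gt.Exi
section

set_option autoImplicit false

open Set Filter Topology

namespace Pool.Agent.P.MP_3d25f3_gt

variable {g : ℕ} {S : List (ℕ × ℤ)} {n : Seifert g S → Seifert g S → ℤ}
  {A : Cov → ℤ} {N : ℤ} {ne : ℕ → ℤ}

lemma exi_lift (y : Solid) : ∃ z : ℝ, pc (y.1, z) = y := by
  obtain ⟨a, ha⟩ := pc_surj y
  refine ⟨a.2, ?_⟩
  rw [← ha]
  rfl

lemma exi_mid_ne {e : ℕ} (he : e < NE g S) :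
    bp (LL g S) (st g e + 1 / 2) ≠ bp (LL g S) (st g e + wd g e - 1 / 2) := by
  intro h
  obtain ⟨k, hk⟩ := (bp_eq_iff (NeZero.ne _) _ _).1 h
  have h1 := st_le (g := g) (S := S) he
  have h2 := wd_ge (g := g) e
  have h3 : (wd g e : ℤ) - 1 = k * LL g S := by
    have : (wd g e : ℝ) - 1 = k * LL g S := by linarith
    exact_mod_cast this
  have h4 : (wd g e : ℤ) ≤ LL g S := by exact_mod_cast le_trans (Nat.le_add_left _ _) h1
  have h5 : (2 : ℤ) ≤ wd g e := by exact_mod_cast h2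
  rcases le_or_gt k 0 with hk0 | hk0
  · nlinarith
  · nlinarith

/-- every point is interior, or on the boundary away from the midpoints, or a midpoint -/
lemma exi_cases (x : Seifert g S) : (∃ P : Solid, pm g S P = x ∧ ‖(P.1 : ℂ)‖ < 1) ∨
    (∃ (P : Solid) (u : ℝ), pm g S P = x ∧ (∀ k : ℤ, u ≠ k + 1 / 2) ∧ P.1 = bp (LL g S) u) ∨
    ∃ e < NE g S, ∃ z, pp g S (ga g S e (1 / 2) z) = x := by
  obtain ⟨P, rfl⟩ := pm_surj x
  have hP : ‖(P.1 : ℂ)‖ ≤ 1 := mem_closedBall_zero_iff.1 P.1.2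
  rcases hP.lt_or_eq with hP | hP
  · exact Or.inl ⟨P, rfl, hP⟩
  obtain ⟨u, hu, hPu⟩ := exists_bp (L := LL g S) (NeZero.ne _) hP
  by_cases hk : ∀ k : ℤ, u ≠ k + 1 / 2
  · exact Or.inr (Or.inl ⟨P, u, rfl, hk, hPu⟩)
  refine Or.inr (Or.inr ?_)
  push Not at hk
  obtain ⟨k, hk⟩ := hk
  have hk0 : 0 ≤ k := by
    have : (-1 : ℝ) < k := by linarith [hu.1]
    have : (-1 : ℤ) < k := by exact_mod_cast this
    omega
  obtain ⟨j, rfl⟩ := Int.eq_ofNat_of_zero_le hk0
  have hj : j < LL g S := by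
    have : (j : ℝ) < LL g S := by
      have := hu.2
      push_cast at hk
      linarith
    exact_mod_cast this
  push_cast at hk
  obtain ⟨z, hz⟩ := exi_lift P
  obtain ⟨e, he, hj | hj⟩ := st_surj hj
  · refine ⟨e, he, z, ?_⟩
    rw [← hz, hPu, hk, hj]
    rfl
  · refine ⟨e, he, z - 1 / 2 * sh g S e, ?_⟩
    rw [← pp_glue he ⟨by norm_num, by norm_num⟩, ← hz, hPu, hk]
    have h1 : (j : ℝ) + 1 / 2 = st g e + wd g e - 1 / 2 := by
      have : (j : ℝ) + 1 = st g e + wd g e := by exact_mod_cast hj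
      linarith
    rw [h1]
    simp only [pp, gb, sub_add_cancel]

/-- the local section at the midpoint of an arc -/
lemma exi_mid {E : Disc → ℂ} {γ' : Solid → ℂ} {e : ℕ} (he : e < NE g S) (z : ℝ) {ρ c : ℂ}
    (hE : ∀ s ∈ Icc (0 : ℝ) 1, E (bp (LL g S) (st g e + wd g e - s))
      = ρ * E (bp (LL g S) (st g e + s)) + c)
    (hγ : γ' (pc (gb g S e (1 / 2) z)) * ρ = γ' (pc (ga g S e (1 / 2) z))) :
    ∃ b : Seifert g S → ℂ, ∀ y, pm g S y = pp g S (ga g S e (1 / 2) z) →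
      ∀ᶠ y' in 𝓝 y, b (pm g S y') = γ' y * (E y'.1 - E y.1) := by
  classical
  obtain ⟨σ, hσ⟩ := (pm_surj (g := g) (S := S)).hasRightInverse
  obtain ⟨O, O', hO, hO', h1, h2, hd⟩ := t2_separation (exi_mid_ne he)
  have hdis : ∀ w, w ∈ O → w ∉ O' := fun w a b => Set.disjoint_left.1 hd a b
  set P := pc (ga g S e (1 / 2) z) with hP
  set P' := pc (gb g S e (1 / 2) z) with hP'
  have hP1 : P.1 = bp (LL g S) (st g e + 1 / 2) := rfl
  have hP1' : P'.1 = bp (LL g S) (st g e + wd g e - 1 / 2) := rfl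
  let b : Seifert g S → ℂ := fun x =>
    if (σ x).1 ∈ O' then γ' P' * (E (σ x).1 - E P'.1) else γ' P * (E (σ x).1 - E P.1)
  let J : Set ℝ := {s | bp (LL g S) (st g e + s) ∈ O ∧ bp (LL g S) (st g e + wd g e - s) ∈ O'}
  have hJ : J ∈ 𝓝 (1 / 2 : ℝ) := by
    have c1 : Continuous fun s : ℝ => bp (LL g S) (st g e + s) :=
      (continuous_bp _).comp (by fun_prop)
    have c2 : Continuous fun s : ℝ => bp (LL g S) (st g e + wd g e - s) :=
      (continuous_bp _).comp (by fun_prop)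
    exact inter_mem (c1.continuousAt.preimage_mem_nhds (hO.mem_nhds h1))
      (c2.continuousAt.preimage_mem_nhds (hO'.mem_nhds h2))
  have hrel : ∀ s ∈ Icc (0 : ℝ) 1, γ' P' * (E (bp (LL g S) (st g e + wd g e - s)) - E P'.1)
      = γ' P * (E (bp (LL g S) (st g e + s)) - E P.1) := by
    intro s hs
    rw [hP1, hP1', hE s hs, hE (1 / 2) ⟨by norm_num, by norm_num⟩, ← hγ]
    ring
  have harc : ∀ s ∈ J ∩ Ioo (0 : ℝ) 1, ∀ z', b (pp g S (ga g S e s z'))
      = γ' P * (E (bp (LL g S) (st g e + s)) - E P.1) := by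
    intro s hs z'
    rcases fib_arc he hs.2 z' (hσ (pp g S (ga g S e s z'))) with h | h
    · have h' : (σ (pp g S (ga g S e s z'))).1 = bp (LL g S) (st g e + s) := by rw [h]; rfl
      simp only [b, h']
      rw [if_neg (hdis _ hs.1.1)]
    · have h' : (σ (pp g S (ga g S e s z'))).1 = bp (LL g S) (st g e + wd g e - s) := by
        rw [h]; rfl
      simp only [b, h']
      rw [if_pos hs.1.2, hrel s (Ioo_subset_Icc_self hs.2)]
  have hint : ∀ y' : Solid, ‖(y'.1 : ℂ)‖ < 1 → σ (pm g S y') = y' := fun y' hy' =>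
    (fib_int (hσ (pm g S y')).symm hy').symm
  refine ⟨b, fun y hy => ?_⟩
  rcases fib_arc he (s := 1 / 2) ⟨by norm_num, by norm_num⟩ z hy with rfl | rfl
  · have t1 : Tendsto (fun y' : Solid => y'.1) (𝓝 P) (𝓝 (bp (LL g S) (st g e + 1 / 2))) :=
      continuous_fst.continuousAt
    filter_upwards [t1.eventually (near_mid (g := g) (S := S) (st g e) hJ),
      t1.eventually (hO.mem_nhds h1)] with y' hy' hy''
    rcases hy' with hy' | ⟨s, hs, hy'⟩
    · simp only [b, hint y' hy']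
      rw [if_neg (hdis _ hy'')]
    · obtain ⟨z', hz'⟩ := exi_lift y'
      have : pm g S y' = pp g S (ga g S e s z') := by
        rw [← hz', hy']; rfl
      rw [this, harc s hs z', hy']
  · have hw := wd_ge (g := g) e
    have hc : ((st g e + wd g e - 1 : ℕ) : ℝ) = st g e + wd g e - 1 := by
      rw [Nat.cast_sub (by omega)]; push_cast; ring
    have t1 : Tendsto (fun y' : Solid => y'.1) (𝓝 P')
        (𝓝 (bp (LL g S) (st g e + wd g e - 1 / 2))) := continuous_fst.continuousAt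
    have hJ' : (fun s : ℝ => 1 - s) ⁻¹' J ∈ 𝓝 (1 / 2 : ℝ) := by
      refine ContinuousAt.preimage_mem_nhds (by fun_prop) ?_
      rwa [show (1 : ℝ) - 1 / 2 = 1 / 2 by norm_num]
    have hn := near_mid (g := g) (S := S) (st g e + wd g e - 1) hJ'
    rw [hc, show (st g e : ℝ) + wd g e - 1 + 1 / 2 = st g e + wd g e - 1 / 2 by ring] at hn
    filter_upwards [t1.eventually hn, t1.eventually (hO'.mem_nhds h2)] with y' hy' hy''
    rcases hy' with hy' | ⟨s, hs, hy'⟩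
    · simp only [b, hint y' hy']
      rw [if_pos (show y'.1 ∈ O' from hy'')]
    · obtain ⟨z', hz'⟩ := exi_lift y'
      have hs' : 1 - s ∈ J ∩ Ioo (0 : ℝ) 1 := ⟨hs.1, by linarith [hs.2.2], by linarith [hs.2.1]⟩
      rw [show (st g e : ℝ) + wd g e - 1 + s = st g e + wd g e - (1 - s) by ring] at hy'
      have : pm g S y' = pp g S (ga g S e (1 - s) (z' - (1 - s) * sh g S e)) := by
        rw [← pp_glue he (Ioo_subset_Icc_self hs'.2), ← hz', hy']
        simp only [pp, gb, sub_add_cancel]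
      rw [this, harc _ hs', hy', hrel _ (Ioo_subset_Icc_self hs'.2)]

theorem exists_rep [T2Space (Seifert g S)] (hn : CocZ n univ) (h : Per g S n A N ne) {ω : ℂˣ}
    (hω : ω ^ N = 1) {x : ZMod (LL g S) → ℂ} (hx : x ∈ Pol g S fun e => ((ω ^ ne e : ℂˣ) : ℂ)) :
    ∃ v ∈ Zc (tw ω n) 1 univ ∅, ∃ E, IsRep g S ω A ne x v E := by
  obtain ⟨E, hE1, hE2, hE3⟩ := exists_step hx
  obtain ⟨γ, hγ⟩ := desc_pc (fun y => ω ^ A y) fun y z => by
    simp only [h.per, zpow_add, hω, mul_one]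
  obtain ⟨σ, hσ⟩ := (pm_surj (g := g) (S := S)).hasRightInverse
  obtain ⟨v, hv, hp⟩ := descend (π := pm g S) isClosedMap_pm continuous_pm pm_surj (hn.tw ω)
    (γ := fun y => ((γ y : ℂˣ) : ℂ)) (γ' := fun y => (((γ y)⁻¹ : ℂˣ) : ℂ)) (E := fun y => E y.1)
    (fun y => Units.mul_inv _) (fun y => by
      obtain ⟨y, rfl⟩ := pc_surj y
      obtain ⟨U, hU, hU'⟩ := h.prim y
      refine ⟨pc '' U, isOpenMap_pc.image_mem_nhds hU, ?_⟩
      rintro _ ⟨a, ha, rfl⟩ _ ⟨b, hb, rfl⟩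
      have := hU' a ha b hb
      simp only [pp] at this
      simp only [tw, hγ, this]
      rw [← Units.val_mul, ← zpow_add, add_sub_cancel]) (fun x' => by
      rcases exi_cases x' with ⟨P, rfl, hP⟩ | ⟨P, u, rfl, hu, hP⟩ | ⟨e, he, z, rfl⟩
      · refine ⟨fun x' => (((γ P)⁻¹ : ℂˣ) : ℂ) * (E (σ x').1 - E P.1), fun y hy => ?_⟩
        obtain rfl := fib_int hy.symm hP
        have ho : IsOpen {y' : Solid | ‖(y'.1 : ℂ)‖ < 1} := isOpen_lt (by fun_prop) (by fun_prop)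
        filter_upwards [ho.mem_nhds hP] with y' hy'
        rw [← fib_int (hσ (pm g S y')).symm hy']
      · refine ⟨0, fun y hy => ?_⟩
        obtain ⟨u', hu', hy'⟩ := fib_bd hy.symm hu hP
        have t1 : Tendsto (fun y' : Solid => y'.1) (𝓝 y) (𝓝 (bp (LL g S) u')) := by
          rw [← hy']; exact continuous_fst.continuousAt
        filter_upwards [t1.eventually (hE3 u' hu')] with y'' hy''
        simp [hy'', hy']
      · refine exi_mid (γ' := fun y => (((γ y)⁻¹ : ℂˣ) : ℂ)) he z (hE2 e he) ?_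
        simp only [hγ, h.arc e he (1 / 2) ⟨by norm_num, by norm_num⟩ z]
        rw [← Units.val_mul, zpow_add, mul_inv_rev, mul_comm (ω ^ ne e)⁻¹, mul_assoc,
          inv_mul_cancel, mul_one])
  refine ⟨v, hv, E, fun y => ?_, hE1, hE2⟩
  obtain ⟨U, hU, hU'⟩ := hp (pc y)
  refine ⟨pc ⁻¹' U, continuous_pc.continuousAt.preimage_mem_nhds hU, fun a ha b hb => ?_⟩
  have := hU' _ ha _ hb
  rw [hγ] at this
  exact this

end Pool.Agent.P.MP_3d25f3_gt
end
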