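import Pool.Agent.K.MP_3d25f3_gt.C0
import Pool.Agent.P.MP_3d25f3_gt.Stmt
import Mathlib

-- part Pool.Agent.P.MP_3d25f3_gt.The
section

set_option autoImplicit false

open Set Filter Topology

namespace Pool.Agent.P.MP_3d25f3_gt

open Module

variable {g : ℕ} {S : List (ℕ × ℤ)} {n : Seifert g S → Seifert g S → ℤ}
  {A : Cov → ℤ} {N : ℤ} {ne : ℕ → ℤ}

lemma the_eq [T2Space (Seifert g S)] (hn : CocZ n univ) (h : Per g S n A N ne) {ω : ℂˣ}
    (hω : ω ^ N = 1) {v v' : List (Seifert g S) → ℂ} (hv : v ∈ Zc (tw ω n) 1 univ ∅)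
    (hv' : v' ∈ Zc (tw ω n) 1 univ ∅) {E E' : Cov → ℂ} (hE : Prim g S ω A v E)
    (hE' : Prim g S ω A v' E') (h1 : ∀ y z, E (y, z + 1) = E (y, z))
    (h1' : ∀ y z, E' (y, z + 1) = E' (y, z)) (ve : ℕ → ℂ)
    (h2 : ∀ e < NE g S, ∀ s ∈ Icc (0 : ℝ) 1, ∀ z,
      E (gb g S e s z) = ((ω ^ ne e : ℂˣ) : ℂ) * E (ga g S e s z) + ve e)
    (h2' : ∀ e < NE g S, ∀ s ∈ Icc (0 : ℝ) 1, ∀ z,
      E' (gb g S e s z) = ((ω ^ ne e : ℂˣ) : ℂ) * E' (ga g S e s z) + ve e) :
    cl v hv = cl v' hv' := by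
  rw [cl_eq]
  have e : v - v' = (1 : ℂ) • v + (-1 : ℂ) • v' := by simp [sub_eq_add_neg]
  have hz : (1 : ℂ) • v + (-1 : ℂ) • v' ∈ Zc (tw ω n) 1 univ ∅ := e ▸ sub_mem hv hv'
  rw [e]
  refine Prim.mem_Bc hn h hz (hE.sub hE' 1 (-1)) (fun y z => ?_) fun e he s hs z => ?_
  · rw [h1, h1', hω]; simp
  · rw [h2 e he s hs, h2' e he s hs]; ring

lemma the_val {j : ℕ} (hj : j < LL g S) : ((j : ℕ) : ZMod (LL g S)).val = j :=
  ZMod.val_cast_of_lt hj

lemma the_data (hS : Data S) (h : Per g S n A N ne) {ω : ℂˣ} (hω : ω ^ N = 1)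
    (hne : ∃ e < NE g S, ω ^ ne e ≠ 1) {v : List (Seifert g S) → ℂ} {E : Cov → ℂ}
    (hE : Prim g S ω A v E) : (∀ y z, E (y, z + 1) = E (y, z)) ∧
      ∃ x ∈ Pol g S (fun e => ((ω ^ ne e : ℂˣ) : ℂ)), ∀ e < NE g S, ∀ s ∈ Icc (0 : ℝ) 1, ∀ z,
        E (gb g S e s z) = ((ω ^ ne e : ℂˣ) : ℂ) * E (ga g S e s z) +
          vv g (fun e => ((ω ^ ne e : ℂˣ) : ℂ)) x e := by
  obtain ⟨vh, ve, h1, h2⟩ := hE.data h
  simp only [hω, Units.val_one, one_mul] at h1
  set ρ : ℕ → ℂ := fun e => ((ω ^ ne e : ℂˣ) : ℂ) with hρ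
  have h0 : (0 : ℝ) ∈ Icc (0 : ℝ) 1 := ⟨le_rfl, zero_le_one⟩
  have h01 : (1 : ℝ) ∈ Icc (0 : ℝ) 1 := ⟨zero_le_one, le_rfl⟩
  have hvh : vh = 0 := by
    obtain ⟨e, he, hne⟩ := hne
    have a1 := h2 e he 0 h0 (0 + 1)
    have a2 := h2 e he 0 h0 0
    simp only [ga, gb, zero_mul, add_zero] at a1 a2
    rw [h1, h1, a2] at a1
    have a3 : (ρ e - 1) * vh = 0 := by simp only [hρ]; linear_combination -a1
    refine (mul_eq_zero.1 a3).resolve_left fun a4 => hne (Units.ext ?_)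
    exact sub_eq_zero.1 a4
  simp only [hvh, add_zero] at h1
  have hint : ∀ (y : Disc) (z : ℝ) (k : ℤ), E (y, z + k) = E (y, z) := by
    intro y z k
    induction k using Int.induction_on with
    | zero => simp
    | succ k ih => rw [← ih, ← h1 y (z + (k : ℤ))]; congr 2; push_cast; ring
    | pred k ih => rw [← ih, ← h1 y (z + (-k - 1 : ℤ))]; congr 2; push_cast; ring
  let X : ℕ → ℂ := fun k => if 4 * g ≤ k ∧ k % 2 = 1 then
    ve (2 * g + (k - 4 * g) / 2) / (1 - ρ (2 * g + (k - 4 * g) / 2)) else E (bp (LL g S) k, 0)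
  let x : ZMod (LL g S) → ℂ := fun j => X j.val
  have hx : ∀ j ≤ LL g S, ¬ (4 * g ≤ j ∧ j % 2 = 1) → x j = E (bp (LL g S) j, 0) := by
    intro j hj hj'
    rcases hj.eq_or_lt with rfl | hj
    · have e1 : bp (LL g S) ((0 : ℕ) : ℝ) = bp (LL g S) (LL g S) :=
        (bp_eq_iff (NeZero.ne _) _ _).2 ⟨1, by simp⟩
      simp only [x, X, ZMod.natCast_self, ZMod.val_zero]
      rw [if_neg (by omega), e1]
    · simp only [x, X, the_val hj]
      rw [if_neg hj']
  have hv1 : ∀ e < NE g S, vv g ρ x e = ve e := by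
    intro e he
    have a1 := h2 e he 0 h0 0
    have a2 := st_le he
    simp only [ga, gb, zero_mul, add_zero, sub_zero] at a1
    rw [vv, hx _ a2 (by unfold st wd; split_ifs <;> omega),
      hx _ (by omega) (by unfold st; split_ifs <;> omega)]
    push_cast
    rw [a1]
    simp only [hρ]
    push_cast
    ring
  refine ⟨h1, x, fun e he => ?_, fun e he s hs z => by rw [hv1 e he]; exact h2 e he s hs z⟩
  rw [hv1 e he]
  have a2 := st_le he
  have a3 := wd_ge (g := g) e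
  by_cases hg : e < 2 * g
  · have a1 := h2 e he 1 h01 0
    have a4 : sh g S e = 0 := by simp [sh, pr, hg]
    simp only [ga, gb, a4, mul_zero, add_zero] at a1
    rw [hx _ (by omega) (by unfold st wd; split_ifs; omega),
      hx _ (by omega) (by unfold st; split_ifs; omega), Nat.cast_sub (by omega)]
    push_cast
    rw [a1]
    simp only [hρ]
    push_cast
    ring
  · have a4 : wd g e = 2 := by simp [wd, hg]
    have a5 : st g e = 4 * g + 2 * (e - 2 * g) := by simp [st, hg]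
    have a6 : st g e + wd g e - 1 = st g e + 1 := by omega
    have a7 : x ((st g e + 1 : ℕ) : ZMod _) = ve e / (1 - ρ e) := by
      have a8 : 2 * g + (st g e + 1 - 4 * g) / 2 = e := by omega
      simp only [x, X, the_val (show st g e + 1 < LL g S by omega)]
      rw [if_pos (by omega), a8]
    rw [a6, a7]
    by_cases h1ρ : ρ e = 1
    · have b1 : ∀ z, E (bp (LL g S) (st g e + 1), z + sh g S e) =
          E (bp (LL g S) (st g e + 1), z) + ve e := by
        intro z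
        have a1 := h2 e he 1 h01 z
        have a9 : ((ω ^ ne e : ℂˣ) : ℂ) = 1 := h1ρ
        simp only [ga, gb, a4, one_mul, a9] at a1
        rw [← a1]
        congr 3
        push_cast
        ring
      have b2 : ∀ m : ℕ, E (bp (LL g S) (st g e + 1), m * sh g S e) =
          E (bp (LL g S) (st g e + 1), 0) + m * ve e := by
        intro m
        induction m with
        | zero => simp
        | succ m ih => push_cast; rw [add_mul, one_mul, b1, ih]; ring
      have b3 := (pr_data (g := g) hS e).1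
      have b4 : (((pr g S e).1 : ℕ) : ℝ) * sh g S e = 0 + ((pr g S e).2 : ℤ) := by
        have : (((pr g S e).1 : ℕ) : ℝ) ≠ 0 := by exact_mod_cast (by omega : (pr g S e).1 ≠ 0)
        rw [sh]; field_simp; simp
      have b5 := b2 (pr g S e).1
      rw [b4, hint] at b5
      have b6 : (((pr g S e).1 : ℕ) : ℂ) ≠ 0 := by exact_mod_cast (by omega : (pr g S e).1 ≠ 0)
      have b7 : ve e = 0 := (mul_eq_zero.1 (by linear_combination -b5)).resolve_left b6
      rw [b7, h1ρ]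
      simp
    · have b1 : 1 - ρ e ≠ 0 := sub_ne_zero.2 (Ne.symm h1ρ)
      field_simp

lemma the_arc {ω : ℂˣ} {x : ZMod (LL g S) → ℂ} {v : List (Seifert g S) → ℂ} {E : Disc → ℂ}
    (h : IsRep g S ω A ne x v E) : ∀ e < NE g S, ∀ s ∈ Icc (0 : ℝ) 1, ∀ z,
      (fun y : Cov => E y.1) (gb g S e s z) =
        ((ω ^ ne e : ℂˣ) : ℂ) * (fun y : Cov => E y.1) (ga g S e s z) +
          vv g (fun e => ((ω ^ ne e : ℂˣ) : ℂ)) x e :=
  fun e he s hs _ => h.arc e he s hs

/-- the first twisted cohomology is a quotient of the vertex data -/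
theorem exists_theta [T2Space (Seifert g S)] (hS : Data S) (hn : CocZ n univ)
    (h : Per g S n A N ne) {ω : ℂˣ} (hω : ω ^ N = 1) (hne : ∃ e < NE g S, ω ^ ne e ≠ 1) :
    ∃ Θ : Pol g S (fun e => ((ω ^ ne e : ℂˣ) : ℂ)) →ₗ[ℂ] H (tw ω n) 1 univ ∅,
      Function.Surjective Θ ∧ ∀ x, ∃ v hv E, IsRep g S ω A ne x.1 v E ∧ Θ x = cl v hv := by
  choose v hv E hE using fun x : Pol g S (fun e => ((ω ^ ne e : ℂˣ) : ℂ)) =>
    exists_rep hn h hω x.2
  have lin : ∀ (a b : ℂ) (x y : Pol g S (fun e => ((ω ^ ne e : ℂˣ) : ℂ))),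
      cl (v (a • x + b • y)) (hv _) = a • cl (v x) (hv x) + b • cl (v y) (hv y) := by
    intro a b x y
    rw [← cl_smul, ← cl_smul, ← cl_add]
    refine the_eq hn h hω _ _ (hE _).prim ((hE x).prim.sub (hE y).prim a b) (fun _ _ => rfl)
      (fun _ _ => rfl) _ (the_arc (hE _)) fun e he s hs z => ?_
    have a1 := the_arc (hE x) e he s hs z
    have a2 := the_arc (hE y) e he s hs z
    simp only at a1 a2 ⊢
    rw [a1, a2]
    simp only [vv, Submodule.coe_add, Submodule.coe_smul, Pi.add_apply, Pi.smul_apply,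
      smul_eq_mul]
    ring
  refine ⟨{ toFun := fun x => cl (v x) (hv x)
            map_add' := fun x y => by simpa using lin 1 1 x y
            map_smul' := fun a x => by simpa using lin a 0 x x }, fun c => ?_,
    fun x => ⟨v x, hv x, E x, hE x, rfl⟩⟩
  obtain ⟨w, hw, rfl⟩ := cl_surj c
  obtain ⟨F, hF⟩ := exists_prim h hw
  obtain ⟨h1, x, hx, h2⟩ := the_data hS h hω hne hF
  exact ⟨⟨x, hx⟩, the_eq hn h hω _ _ (hE _).prim hF (fun _ _ => rfl) h1 _ (the_arc (hE _)) h2⟩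

lemma finrank_Pol (ρ : ℕ → ℂ) : NE g S ≤ finrank ℂ (Pol g S ρ) := by
  let f : (ZMod (LL g S) → ℂ) →ₗ[ℂ] (Fin (NE g S) → ℂ) :=
    { toFun := fun x e => vv g ρ x e - (x ((st g e + wd g e - 1 : ℕ) : ZMod _) -
        ρ e * x ((st g e + 1 : ℕ) : ZMod _))
      map_add' := fun x y => by
        funext e
        simp only [vv, Pi.add_apply]
        ring
      map_smul' := fun a x => by
        funext e
        simp only [vv, Pi.smul_apply, smul_eq_mul, RingHom.id_apply]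
        ring }
  have h1 : LinearMap.ker f ≤ Pol g S ρ := fun x hx e he =>
    sub_eq_zero.1 (congrFun (LinearMap.mem_ker.1 hx) ⟨e, he⟩)
  have h2 := Submodule.finrank_mono h1
  have h3 := LinearMap.finrank_range_add_finrank_ker f
  have h4 := (LinearMap.range f).finrank_le
  rw [finrank_fintype_fun_eq_card, ZMod.card] at h3
  rw [finrank_fintype_fun_eq_card, Fintype.card_fin] at h4
  have h5 : LL g S = 2 * NE g S := by unfold LL NE; omega
  omega

open Classical in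
/-- vertex data without jumps -/
lemma finrank_nojump {ρ : ℕ → ℂ} (hρ : ∀ e, ρ e ≠ 0) (K : Submodule ℂ (ZMod (LL g S) → ℂ))
    (hK : ∀ x ∈ K, x ∈ Pol g S ρ ∧ ∃ C : ℂ, ∀ e < NE g S, vv g ρ x e = (1 - ρ e) * C) :
    finrank ℂ K ≤ 2 + ((Finset.range (S.length + 1)).filter fun i => ρ (2 * g + i) = 1).card := by
  set T := (Finset.range (S.length + 1)).filter fun i => ρ (2 * g + i) = 1 with hT
  let K0 : Submodule ℂ (ZMod (LL g S) → ℂ) :=
    { carrier := {y | ∀ e < NE g S,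
        y ((st g e + wd g e : ℕ) : ZMod _) = ρ e * y ((st g e : ℕ) : ZMod _) ∧
        y ((st g e + wd g e - 1 : ℕ) : ZMod _) = ρ e * y ((st g e + 1 : ℕ) : ZMod _)}
      zero_mem' := fun _ _ => by simp
      add_mem' := fun {a b} ha hb e he => by
        simp only [Pi.add_apply, (ha e he).1, (ha e he).2, (hb e he).1, (hb e he).2, mul_add,
          and_self]
      smul_mem' := fun r a ha e he => by
        simp only [Pi.smul_apply, smul_eq_mul, (ha e he).1, (ha e he).2, mul_left_comm,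
          and_self] }
  have h1 : K ≤ Submodule.span ℂ {(1 : ZMod (LL g S) → ℂ)} ⊔ K0 := by
    intro x hx
    obtain ⟨hp, C, hC⟩ := hK x hx
    refine Submodule.mem_sup.2 ⟨C • 1, Submodule.smul_mem _ _ (Submodule.mem_span_singleton_self _),
      x - C • 1, fun e he => ?_, by simp⟩
    have a1 := hp e he
    have a2 := hC e he
    rw [a2] at a1
    simp only [vv] at a2
    simp only [Pi.sub_apply, Pi.smul_apply, Pi.one_apply, smul_eq_mul, mul_one]
    exact ⟨by linear_combination a2, by linear_combination -a1⟩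
  let f : K0 →ₗ[ℂ] (Option T → ℂ) :=
    { toFun := fun y o => y.1 ((o.elim 0 fun i => 4 * g + 2 * i.1 + 1 : ℕ) : ZMod _)
      map_add' := fun _ _ => rfl
      map_smul' := fun _ _ => rfl }
  have hf : Function.Injective f := by
    rw [injective_iff_map_eq_zero]
    rintro ⟨y, hy⟩ h0
    have y0 : y ((0 : ℕ) : ZMod _) = 0 := congrFun h0 none
    have hd : ∀ k < g, y ((4 * k : ℕ) : ZMod _) = 0 → y ((4 * k + 1 : ℕ) : ZMod _) = 0 ∧
        y ((4 * k + 2 : ℕ) : ZMod _) = 0 ∧ y ((4 * k + 3 : ℕ) : ZMod _) = 0 ∧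
        y ((4 * k + 4 : ℕ) : ZMod _) = 0 := by
      intro k hk hy0
      have a := hy (2 * k) (by unfold NE; omega)
      have b := hy (2 * k + 1) (by unfold NE; omega)
      have s1 : st g (2 * k) = 4 * k := by unfold st; split_ifs <;> omega
      have s2 : st g (2 * k + 1) = 4 * k + 1 := by unfold st; split_ifs <;> omega
      have w1 : wd g (2 * k) = 3 := by unfold wd; split_ifs <;> omega
      have w2 : wd g (2 * k + 1) = 3 := by unfold wd; split_ifs <;> omega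
      rw [s1, w1, show 4 * k + 3 - 1 = 4 * k + 2 by omega] at a
      rw [s2, w2, show 4 * k + 1 + 3 - 1 = 4 * k + 3 by omega] at b
      have c3 : y ((4 * k + 3 : ℕ) : ZMod _) = 0 := by rw [a.1, hy0, mul_zero]
      have c2 : y ((4 * k + 2 : ℕ) : ZMod _) = 0 :=
        (mul_eq_zero.1 (b.2.symm.trans c3)).resolve_left (hρ _)
      have c1 : y ((4 * k + 1 : ℕ) : ZMod _) = 0 :=
        (mul_eq_zero.1 (a.2.symm.trans c2)).resolve_left (hρ _)
      exact ⟨c1, c2, c3, by rw [show 4 * k + 4 = 4 * k + 1 + 3 by omega, b.1, c1, mul_zero]⟩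
    have h4 : ∀ k ≤ g, y ((4 * k : ℕ) : ZMod _) = 0 := by
      intro k
      induction k with
      | zero => exact fun _ => y0
      | succ k ih => exact fun hk => (hd k hk (ih (by omega))).2.2.2
    have hs : ∀ i ≤ S.length, (y ((4 * g + 2 * i + 2 : ℕ) : ZMod _) =
        ρ (2 * g + i) * y ((4 * g + 2 * i : ℕ) : ZMod _)) ∧
        y ((4 * g + 2 * i + 1 : ℕ) : ZMod _) = 0 := by
      intro i hi
      have a := hy (2 * g + i) (by unfold NE; omega)
      have s1 : st g (2 * g + i) = 4 * g + 2 * i := by unfold st; split_ifs <;> omega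
      have w1 : wd g (2 * g + i) = 2 := by unfold wd; split_ifs <;> omega
      rw [s1, w1, show 4 * g + 2 * i + 2 - 1 = 4 * g + 2 * i + 1 by omega] at a
      refine ⟨a.1, ?_⟩
      by_cases h1 : ρ (2 * g + i) = 1
      · exact congrFun h0 (some ⟨i, Finset.mem_filter.2 ⟨Finset.mem_range.2 (by omega), h1⟩⟩)
      · exact (mul_eq_zero.1 (show (1 - ρ (2 * g + i)) * _ = 0 by
          linear_combination a.2)).resolve_left (sub_ne_zero.2 (Ne.symm h1))
    have h5 : ∀ i ≤ S.length + 1, y ((4 * g + 2 * i : ℕ) : ZMod _) = 0 := by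
      intro i
      induction i with
      | zero => exact fun _ => h4 g le_rfl
      | succ i ih =>
        intro hi
        rw [show 4 * g + 2 * (i + 1) = 4 * g + 2 * i + 2 by omega, (hs i (by omega)).1,
          ih (by omega), mul_zero]
    refine Subtype.ext (funext fun j => ?_)
    obtain ⟨m, hm, rfl⟩ : ∃ m < LL g S, (m : ZMod (LL g S)) = j :=
      ⟨j.val, ZMod.val_lt j, ZMod.natCast_zmod_val j⟩
    show y m = 0
    unfold LL at hm
    by_cases hg : m < 4 * g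
    · have a := h4 (m / 4) (by omega)
      have b := hd (m / 4) (by omega) a
      have : m = 4 * (m / 4) ∨ m = 4 * (m / 4) + 1 ∨ m = 4 * (m / 4) + 2 ∨
          m = 4 * (m / 4) + 3 := by omega
      rcases this with e | e | e | e <;> rw [e]
      exacts [a, b.1, b.2.1, b.2.2.1]
    · have : m = 4 * g + 2 * ((m - 4 * g) / 2) ∨ m = 4 * g + 2 * ((m - 4 * g) / 2) + 1 := by omega
      rcases this with e | e <;> rw [e]
      exacts [h5 _ (by omega), (hs _ (by omega)).2]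
  have h2 := LinearMap.finrank_le_finrank_of_injective hf
  rw [finrank_fintype_fun_eq_card, Fintype.card_option, Fintype.card_coe] at h2
  have h3 := Submodule.finrank_add_le_finrank_add_finrank
    (Submodule.span ℂ {(1 : ZMod (LL g S) → ℂ)}) K0
  have h4 := finrank_span_singleton (K := ℂ) (v := (1 : ZMod (LL g S) → ℂ)) one_ne_zero
  have h5 := Submodule.finrank_mono h1
  omega

open Classical in
theorem finrank_tw [T2Space (Seifert g S)] (hS : Data S) (hn : CocZ n univ)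
    (h : Per g S n A N ne) {ω : ℂˣ} (hω : ω ^ N = 1) (hne : ∃ e < NE g S, ω ^ ne e ≠ 1) :
    2 * g + ((Finset.range (S.length + 1)).filter fun i => ω ^ ne (2 * g + i) ≠ 1).card
      ≤ finrank ℂ (H (tw ω n) 1 univ ∅) + 2 := by
  obtain ⟨Θ, hΘ, hrep⟩ := exists_theta hS hn h hω hne
  have h1 := LinearMap.finrank_range_add_finrank_ker Θ
  rw [LinearMap.range_eq_top.2 hΘ, finrank_top] at h1
  have h2 := finrank_Pol (g := g) (S := S) fun e => ((ω ^ ne e : ℂˣ) : ℂ)
  have h3 := finrank_nojump (g := g) (S := S) (ρ := fun e => ((ω ^ ne e : ℂˣ) : ℂ))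
    (fun e => Units.ne_zero _) ((LinearMap.ker Θ).map (Submodule.subtype _)) (by
      rintro _ ⟨x, hx, rfl⟩
      obtain ⟨v, hv, E, hE, e1⟩ := hrep x
      have hB : v ∈ Bc (tw ω n) 1 univ ∅ := (cl_eq_zero hv).1 (e1 ▸ LinearMap.mem_ker.1 hx)
      obtain ⟨C, -, hC⟩ := hE.prim.of_Bc h hB
      refine ⟨x.2, C, fun e he => ?_⟩
      have a1 := hC e he 0 ⟨le_rfl, zero_le_one⟩ 0
      have a2 := the_arc hE e he 0 ⟨le_rfl, zero_le_one⟩ 0
      simp only at a1 a2
      rw [a2] at a1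
      show vv g _ x.1 e = _
      linear_combination a1)
  rw [Submodule.finrank_map_subtype_eq] at h3
  have h4 := Finset.card_filter_add_card_filter_not (s := Finset.range (S.length + 1))
    fun i => ω ^ ne (2 * g + i) = 1
  have h5 : ((Finset.range (S.length + 1)).filter
      fun i => ((ω ^ ne (2 * g + i) : ℂˣ) : ℂ) = 1).card =
      ((Finset.range (S.length + 1)).filter fun i => ω ^ ne (2 * g + i) = 1).card := by
    congr 1
    exact Finset.filter_congr fun i _ => Units.val_eq_one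
  rw [Finset.card_range] at h4
  unfold NE at h2
  simp only [ne_eq] at h4 ⊢
  omega

end Pool.Agent.P.MP_3d25f3_gt
end

-- part Pool.Agent.P.MP_3d25f3_gt.Chain
section

set_option autoImplicit false

open Set Filter Topology

namespace Pool.Agent.P.MP_3d25f3_gt

open Module

lemma chain_unit {r : ℂ} (h : ‖r‖ = 1) : r * starRingEnd ℂ r = 1 := by
  rw [Complex.mul_conj, Complex.normSq_eq_norm_sq, h]; simp

lemma chain_skew (n : ℕ) {ρ : Fin n → ℂ} (h : ∀ i, ‖ρ i‖ = 1) (x y : Fin n → ℂ) :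
    chain n ρ y x = starRingEnd ℂ (chain n ρ x y) -
      Complex.I * ((∑ i, (1 - ρ i) * y i) * starRingEnd ℂ (∑ j, (1 - ρ j) * x j)) := by
  simp only [chain, gram_apply, map_sum]
  rw [Finset.sum_comm (f := fun i j => starRingEnd ℂ _), Finset.sum_mul_sum, Finset.mul_sum,
    ← Finset.sum_sub_distrib]
  refine Finset.sum_congr rfl fun i _ => ?_
  rw [Finset.mul_sum, ← Finset.sum_sub_distrib]
  refine Finset.sum_congr rfl fun j _ => ?_
  rcases lt_trichotomy i j with hij | rfl | hij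
  · simp only [if_pos hij, if_neg hij.not_gt, if_neg hij.ne', map_mul, map_zero]
    ring
  · simp only [lt_irrefl, if_false, if_true, map_mul, map_neg, Complex.conj_I, Complex.conj_conj,
      map_one, map_sub]
    linear_combination (Complex.I * y i * starRingEnd ℂ (x i)) * chain_unit (h i)
  · simp only [if_pos hij, if_neg hij.not_gt, if_neg hij.ne', map_mul, map_neg, Complex.conj_I,
      Complex.conj_conj]
    ring

lemma chain_herm (n : ℕ) {ρ : Fin n → ℂ} (h : ∀ i, ‖ρ i‖ = 1) :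
    Herm (cmp (chain n ρ) (clos n ρ).subtype) := by
  intro x y
  have hy := (mem_clos n ρ y.1).1 y.2
  simp only [cmp_apply, Submodule.subtype_apply]
  rw [chain_skew n h, hy, zero_mul, mul_zero, sub_zero]

lemma chain_rt_add (a b : ℚ) : rt (a + b) = rt a * rt b := by
  simp only [rt, Rat.cast_add, mul_add, Complex.exp_add]

lemma chain_rt_int (k : ℤ) : rt k = 1 := by
  rw [rt, ← Complex.exp_int_mul_two_pi_mul_I k]
  congr 1
  push_cast
  ring

lemma chain_rt_fract (a : ℚ) : rt (Int.fract a) = rt a := by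
  conv_rhs => rw [← Int.floor_add_fract a, chain_rt_add, chain_rt_int, one_mul]

lemma chain_rt_norm (a : ℚ) : ‖rt a‖ = 1 := by
  rw [← Complex.norm_exp_ofReal_mul_I (2 * Real.pi * a), rt]
  congr 2
  push_cast
  ring

lemma chain_rt_one {a : ℚ} (h : rt a = 1) : ∃ k : ℤ, a = k := by
  obtain ⟨k, hk⟩ := Complex.exp_eq_one_iff.1 h
  refine ⟨k, ?_⟩
  have h2 : (a : ℂ) = k := by
    refine mul_left_cancel₀ Complex.two_pi_I_ne_zero ?_
    rw [hk, mul_comm]
  exact_mod_cast h2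

lemma chain_saw_int (k : ℤ) : saw k = 0 := by simp [saw]

lemma chain_saw_add (k : ℤ) (b : ℚ) : saw (k + b) = saw b := by
  simp only [saw, Int.fract_intCast_add]

lemma chain_one_sub (a : ℚ) : 1 - rt a =
    -2 * Complex.I * Complex.exp (Real.pi * a * Complex.I) * (Real.sin (Real.pi * a) : ℝ) := by
  have e1 : rt a = Complex.exp (Real.pi * a * Complex.I) * Complex.exp (Real.pi * a * Complex.I) := by
    rw [rt, ← Complex.exp_add]
    congr 1
    ring
  have e2 : Complex.exp (Real.pi * a * Complex.I) * Complex.exp (-(Real.pi * a) * Complex.I) = 1 := by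
    rw [← Complex.exp_add, ← Complex.exp_zero]
    congr 1
    ring
  rw [e1, Complex.ofReal_sin, Complex.sin]
  push_cast
  linear_combination (-1 : ℂ) * e2 + (Complex.exp (Real.pi * a * Complex.I) *
    (Complex.exp (-(Real.pi * a) * Complex.I) - Complex.exp (Real.pi * a * Complex.I))) *
      Complex.I_mul_I

lemma chain_val {a b : ℚ} (ha : Real.sin (Real.pi * a) ≠ 0) (hb : Real.sin (Real.pi * b) ≠ 0) :
    (-Complex.I * ((1 - rt a * rt b) / ((1 - rt a) * (1 - rt b)))).re =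
      Real.sin (Real.pi * (a + b : ℚ)) / (2 * (Real.sin (Real.pi * a) * Real.sin (Real.pi * b))) := by
  rw [← chain_rt_add, chain_one_sub, chain_one_sub, chain_one_sub, ← Complex.ofReal_re (_ / _)]
  congr 1
  have e : Complex.exp (Real.pi * (a + b : ℚ) * Complex.I) =
      Complex.exp (Real.pi * a * Complex.I) * Complex.exp (Real.pi * b * Complex.I) := by
    rw [← Complex.exp_add]
    congr 1
    push_cast
    ring
  have ha' : ((Real.sin (Real.pi * a) : ℝ) : ℂ) ≠ 0 := Complex.ofReal_ne_zero.2 ha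
  have hb' : ((Real.sin (Real.pi * b) : ℝ) : ℂ) ≠ 0 := Complex.ofReal_ne_zero.2 hb
  have h1 := Complex.exp_ne_zero (Real.pi * a * Complex.I)
  have h2 := Complex.exp_ne_zero (Real.pi * b * Complex.I)
  have h3 := Complex.I_ne_zero
  rw [e, Complex.ofReal_div, Complex.ofReal_mul, Complex.ofReal_mul]
  generalize ((Real.sin (Real.pi * a) : ℝ) : ℂ) = s at ha' ⊢
  generalize ((Real.sin (Real.pi * b) : ℝ) : ℂ) = t at hb' ⊢
  generalize ((Real.sin (Real.pi * (a + b : ℚ)) : ℝ) : ℂ) = u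
  generalize Complex.exp (Real.pi * a * Complex.I) = E at h1 ⊢
  generalize Complex.exp (Real.pi * b * Complex.I) = E' at h2 ⊢
  push_cast
  field_simp

lemma chain_sin_pos {a : ℚ} (h0 : 0 < a) (h1 : a < 1) : 0 < Real.sin (Real.pi * a) := by
  have a0 : (0 : ℝ) < a := by exact_mod_cast h0
  have a1 : (a : ℝ) < 1 := by exact_mod_cast h1
  exact Real.sin_pos_of_pos_of_lt_pi (mul_pos Real.pi_pos a0) (mul_lt_of_lt_one_right Real.pi_pos a1)

lemma chain_merge {a b : ℚ} (a0 : 0 < a) (a1 : a < 1) (b0 : 0 < b) (b1 : b < 1) :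
    ((SignType.sign (-Complex.I * ((1 - rt a * rt b) / ((1 - rt a) * (1 - rt b)))).re : ℤ) : ℚ)
      = 2 * saw (a + b) - 2 * (a - 1 / 2) - 2 * (b - 1 / 2) := by
  have sa := chain_sin_pos a0 a1
  have sb := chain_sin_pos b0 b1
  have hd : 0 < 2 * (Real.sin (Real.pi * a) * Real.sin (Real.pi * b)) := by positivity
  rw [chain_val sa.ne' sb.ne']
  rcases lt_trichotomy (a + b) 1 with h | h | h
  · have hf : Int.fract (a + b) = a + b := Int.fract_eq_self.2 ⟨by linarith, h⟩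
    rw [sign_pos (div_pos (chain_sin_pos (by linarith) h) hd), saw, hf, if_neg (by linarith)]
    simp only [SignType.coe_one, Int.cast_one]
    ring
  · rw [h, saw, Int.fract_one, if_pos rfl]
    simp only [Rat.cast_one, mul_one, Real.sin_pi, zero_div, sign_zero, SignType.coe_zero,
      Int.cast_zero]
    linarith
  · have hf : Int.fract (a + b) = a + b - 1 := by
      rw [← Int.fract_sub_one]
      exact Int.fract_eq_self.2 ⟨by linarith, by linarith⟩
    have hs : Real.sin (Real.pi * (a + b : ℚ)) = -Real.sin (Real.pi * (a + b - 1 : ℚ)) := by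
      rw [← Real.sin_add_pi]
      congr 1
      push_cast
      ring
    have hp := chain_sin_pos (a := a + b - 1) (by linarith) (by linarith)
    rw [hs, sign_neg (div_neg_of_neg_of_pos (neg_neg_of_pos hp) hd), saw, hf,
      if_neg (by linarith)]
    simp only [SignType.coe_neg_one, Int.reduceNeg, Int.cast_neg, Int.cast_one]
    ring

lemma merge_sign {a b : ℚ} (ha : rt a ≠ 1) (hb : rt b ≠ 1) :
    ((SignType.sign (-Complex.I * ((1 - rt a * rt b) / ((1 - rt a) * (1 - rt b)))).re : ℤ) : ℚ)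
      = 2 * saw (a + b) - 2 * saw a - 2 * saw b := by
  have f0 : ∀ {a : ℚ}, rt a ≠ 1 → Int.fract a ≠ 0 := fun {a} h h0 =>
    h (by rw [← chain_rt_fract, h0]; exact_mod_cast chain_rt_int 0)
  have e : saw (a + b) = saw (Int.fract a + Int.fract b) := by
    rw [← chain_saw_add (⌊a⌋ + ⌊b⌋) (Int.fract a + Int.fract b)]
    congr 1
    push_cast
    linarith [Int.floor_add_fract a, Int.floor_add_fract b]
  rw [e, saw.eq_1 a, saw.eq_1 b, if_neg (f0 ha), if_neg (f0 hb), ← chain_rt_fract a,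
    ← chain_rt_fract b]
  exact chain_merge ((Int.fract_nonneg a).lt_of_ne' (f0 ha)) (Int.fract_lt_one a)
    ((Int.fract_nonneg b).lt_of_ne' (f0 hb)) (Int.fract_lt_one b)

lemma chain_succ (n : ℕ) (ρ x y : Fin (n + 1) → ℂ) :
    chain (n + 1) ρ x y = -Complex.I * (x 0 * starRingEnd ℂ ((1 - ρ 0) * y 0) +
        (1 - ρ 0) * x 0 * starRingEnd ℂ (∑ j : Fin n, (1 - ρ j.succ) * y j.succ)) +
      chain n (fun i => ρ i.succ) (fun i => x i.succ) (fun i => y i.succ) := by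
  simp only [chain, gram_apply, Fin.sum_univ_succ, if_false, if_true, Fin.succ_pos,
    Fin.not_lt_zero, Fin.succ_ne_zero, Fin.succ_lt_succ_iff, Fin.succ_inj, map_sum, map_mul,
    zero_mul, mul_zero, zero_add, mul_add, Finset.mul_sum]
  congr 2
  · ring
  · exact Finset.sum_congr rfl fun j _ => by ring

lemma chain_tr {U V : Type} [AddCommGroup U] [Module ℂ U] [AddCommGroup V] [Module ℂ V]
    [FiniteDimensional ℂ U] [FiniteDimensional ℂ V] (B : SF U) (B' : SF V) (Q : Submodule ℂ V)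
    (f : U →ₗ[ℂ] V) (hm : ∀ u, f u ∈ Q) (hs : ∀ w ∈ Q, ∃ u, f u = w)
    (h : ∀ u u', B u u' = B' (f u) (f u')) : sgn B = sgn (cmp B' Q.subtype) := by
  have hf : Function.Surjective (f.codRestrict Q hm) := fun w => by
    obtain ⟨u, hu⟩ := hs w.1 w.2
    exact ⟨u, Subtype.ext hu⟩
  rw [← sgn_cmp_surj _ hf]
  congr 1
  ext u u'
  exact h u u'

/-- forget one of the first two coordinates -/
noncomputable def chainP (n : ℕ) (k : Fin (n + 2)) : (Fin (n + 2) → ℂ) →ₗ[ℂ] (Fin (n + 1) → ℂ) :=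
  LinearMap.funLeft ℂ ℂ (Fin.cons k fun j : Fin n => j.succ.succ)

@[simp] lemma chainP_zero (n : ℕ) (k : Fin (n + 2)) (x : Fin (n + 2) → ℂ) :
    chainP n k x 0 = x k := rfl

@[simp] lemma chainP_succ (n : ℕ) (k : Fin (n + 2)) (x : Fin (n + 2) → ℂ) (j : Fin n) :
    chainP n k x j.succ = x j.succ.succ := rfl

section step
variable {n : ℕ} {ρ : Fin (n + 2) → ℂ} {ρ' : Fin (n + 1) → ℂ}

lemma chain_case0 (h0 : ρ 0 = 1) (e0 : ρ' 0 = ρ 0 * ρ 1) (es : ∀ j : Fin n, ρ' j.succ = ρ j.succ.succ) :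
    sgn (cmp (chain (n + 2) ρ) (clos (n + 2) ρ).subtype) =
      sgn (cmp (chain (n + 1) ρ') (clos (n + 1) ρ').subtype) := by
  refine chain_tr _ _ _ ((chainP n 1).comp (clos (n + 2) ρ).subtype) (fun u => ?_)
    (fun w hw => ⟨⟨Fin.cons 0 w, ?_⟩, ?_⟩) fun u u' => ?_
  · have hu := (mem_clos _ _ _).1 u.2
    rw [mem_clos]
    simp only [Fin.sum_univ_succ, Fin.succ_zero_eq_one, LinearMap.comp_apply,
      Submodule.subtype_apply, chainP_zero, chainP_succ, e0, es, h0] at hu ⊢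
    linear_combination hu
  · rw [mem_clos] at hw ⊢
    simp only [Fin.sum_univ_succ, Fin.cons_zero, Fin.cons_succ, e0, es, h0] at hw ⊢
    rw [Fin.succ_zero_eq_one]
    linear_combination hw
  · funext j
    refine Fin.cases rfl (fun j => rfl) j
  · simp only [cmp_apply, LinearMap.comp_apply, Submodule.subtype_apply, chain_succ (n + 1),
      chain_succ n, chainP_zero, chainP_succ, e0, es, h0, Fin.succ_zero_eq_one, sub_self, zero_mul,
      map_zero, mul_zero, one_mul, zero_add]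

lemma chain_case1 (h1 : ρ 1 = 1) (e0 : ρ' 0 = ρ 0 * ρ 1) (es : ∀ j : Fin n, ρ' j.succ = ρ j.succ.succ) :
    sgn (cmp (chain (n + 2) ρ) (clos (n + 2) ρ).subtype) =
      sgn (cmp (chain (n + 1) ρ') (clos (n + 1) ρ').subtype) := by
  refine chain_tr _ _ _ ((chainP n 0).comp (clos (n + 2) ρ).subtype) (fun u => ?_)
    (fun w hw => ⟨⟨Fin.cons (w 0) (Fin.cons 0 fun j => w j.succ), ?_⟩, ?_⟩) fun u u' => ?_
  · have hu := (mem_clos _ _ _).1 u.2
    rw [mem_clos]
    simp only [Fin.sum_univ_succ, Fin.succ_zero_eq_one, LinearMap.comp_apply,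
      Submodule.subtype_apply, chainP_zero, chainP_succ, e0, es, h1] at hu ⊢
    linear_combination hu
  · rw [mem_clos] at hw ⊢
    simp only [Fin.sum_univ_succ, Fin.cons_zero, Fin.cons_succ, e0, es, h1] at hw ⊢
    linear_combination hw
  · funext j
    refine Fin.cases rfl (fun j => rfl) j
  · simp only [cmp_apply, LinearMap.comp_apply, Submodule.subtype_apply, chain_succ (n + 1),
      chain_succ n, chainP_zero, chainP_succ, e0, es, h1, Fin.succ_zero_eq_one, sub_self, zero_mul,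
      map_zero, mul_zero, mul_one, zero_add, Fin.sum_univ_succ]

lemma chain_case2 (h : ∀ i, ‖ρ i‖ = 1) (h0 : ρ 0 ≠ 1) (h1 : ρ 1 ≠ 1) (e0 : ρ' 0 = ρ 0 * ρ 1)
    (es : ∀ j : Fin n, ρ' j.succ = ρ j.succ.succ) :
    sgn (cmp (chain (n + 2) ρ) (clos (n + 2) ρ).subtype) =
      sgn (cmp (chain (n + 1) ρ') (clos (n + 1) ρ').subtype) +
        SignType.sign (-Complex.I * ((1 - ρ 0 * ρ 1) / ((1 - ρ 0) * (1 - ρ 1)))).re := by
  have a0 : 1 - ρ 0 ≠ 0 := sub_ne_zero.2 h0.symm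
  have a1 : 1 - ρ 1 ≠ 0 := sub_ne_zero.2 h1.symm
  have u0 := chain_unit (h 0)
  have u1 := chain_unit (h 1)
  have i0 := inv_mul_cancel₀ a0
  have i1 := inv_mul_cancel₀ a1
  obtain ⟨ξ, x0, x1, xs⟩ : ∃ ξ : Fin (n + 2) → ℂ, ξ 0 = (1 - ρ 0)⁻¹ ∧ ξ 1 = -(1 - ρ 1)⁻¹ ∧
      ∀ j : Fin n, ξ j.succ.succ = 0 :=
    ⟨Fin.cons (1 - ρ 0)⁻¹ (Fin.cons (-(1 - ρ 1)⁻¹) 0), rfl, rfl, fun _ => rfl⟩
  have hξ : ξ ∈ clos (n + 2) ρ := by
    rw [mem_clos]
    simp only [Fin.sum_univ_succ, Fin.succ_zero_eq_one, x0, x1, xs, mul_zero,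
      Finset.sum_const_zero]
    linear_combination i0 - i1
  have hB : ∀ v, chain (n + 2) ρ ξ v = -Complex.I * starRingEnd ℂ (v 1 - ρ 0 * v 0) := by
    intro v
    have z : (fun i : Fin n => ξ i.succ.succ) = 0 := funext xs
    simp only [chain_succ (n + 1), chain_succ n, Fin.sum_univ_succ, Fin.succ_zero_eq_one, x0, x1, z,
      map_zero, LinearMap.zero_apply, map_add, map_mul, map_sub, map_one]
    generalize starRingEnd ℂ (∑ j : Fin n, (1 - ρ j.succ.succ) * v j.succ.succ) = T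
    generalize (1 - ρ 0)⁻¹ = s at i0
    generalize (1 - ρ 1)⁻¹ = t at i1
    linear_combination (-Complex.I * (T + (1 - starRingEnd ℂ (ρ 1)) * starRingEnd ℂ (v 1) -
        starRingEnd ℂ (ρ 0) * starRingEnd ℂ (v 0))) * i0 +
      (Complex.I * (T - starRingEnd ℂ (ρ 1) * starRingEnd ℂ (v 1))) * i1 +
      (Complex.I * s * starRingEnd ℂ (v 0)) * u0 - (Complex.I * t * starRingEnd ℂ (v 1)) * u1
  let Q : Submodule ℂ (clos (n + 2) ρ) := LinearMap.ker
    (((LinearMap.proj 1 : (Fin (n + 2) → ℂ) →ₗ[ℂ] ℂ) - ρ 0 • LinearMap.proj 0).comp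
      (clos (n + 2) ρ).subtype)
  have hQ : ∀ v : clos (n + 2) ρ, v ∈ Q ↔ v.1 1 = ρ 0 * v.1 0 := fun v =>
    (show v ∈ Q ↔ v.1 1 - ρ 0 * v.1 0 = 0 from Iff.rfl).trans sub_eq_zero
  rw [sgn_perp (chain_herm _ h) ⟨ξ, hξ⟩ (Q := Q) fun v => by
    rw [hQ, cmp_apply, Submodule.subtype_apply, Submodule.subtype_apply, hB, mul_eq_zero,
      map_eq_zero, sub_eq_zero, neg_eq_zero, or_iff_right Complex.I_ne_zero]]
  congr 1
  · refine chain_tr _ _ _ ((chainP n 0).comp ((clos (n + 2) ρ).subtype.comp Q.subtype))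
      (fun u => ?_) (fun w hw => ⟨⟨⟨Fin.cons (w 0) (Fin.cons (ρ 0 * w 0) fun j => w j.succ), ?_⟩,
        (hQ _).2 rfl⟩, ?_⟩) fun u u' => ?_
    · have hu := (mem_clos _ _ _).1 u.1.2
      have hq := (hQ _).1 u.2
      rw [mem_clos]
      simp only [Fin.sum_univ_succ, Fin.succ_zero_eq_one, LinearMap.comp_apply,
        Submodule.subtype_apply, chainP_zero, chainP_succ, e0, es, hq] at hu ⊢
      linear_combination hu
    · rw [mem_clos] at hw ⊢
      simp only [Fin.sum_univ_succ, Fin.cons_zero, Fin.cons_succ, e0, es] at hw ⊢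
      rw [Fin.succ_zero_eq_one]
      linear_combination hw
    · funext j
      refine Fin.cases rfl (fun j => rfl) j
    · have hq := (hQ _).1 u.2
      have hq' := (hQ _).1 u'.2
      simp only [cmp_apply, LinearMap.comp_apply, Submodule.subtype_apply, chain_succ (n + 1),
        chain_succ n, chainP_zero, chainP_succ, e0, es, Fin.succ_zero_eq_one, Fin.sum_univ_succ,
        hq, hq', map_add, map_mul, map_sub, map_one]
      ring
  · have e : (chain (n + 2) ρ ξ ξ).re =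
        (-Complex.I * ((1 - ρ 0 * ρ 1) / ((1 - ρ 0) * (1 - ρ 1)))).re := by
      rw [hB, x0, x1, ← Complex.conj_re, map_mul, Complex.conj_conj, map_neg, Complex.conj_I]
      congr 1
      field_simp
      ring
    rw [← e]
    rfl

end step

theorem chain_sgn (n : ℕ) (μ : Fin (n + 1) → ℚ) :
    (sgn (cmp (chain (n + 1) fun i => rt (μ i)) (clos (n + 1) fun i => rt (μ i)).subtype) : ℚ)
      = 2 * saw (∑ i, μ i) - 2 * ∑ i, saw (μ i) := by
  induction n with
  | zero =>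
    rw [sgn_of_zero]
    · simp
    · intro x
      have hx := (mem_clos _ _ _).1 x.2
      simp only [Fin.sum_univ_succ, Finset.univ_eq_empty, Finset.sum_empty, add_zero] at hx
      simp only [cmp_apply, Submodule.subtype_apply, chain_succ 0, hx]
      simp [chain, gram_apply]
  | succ n ih =>
    obtain ⟨ν, n0, ns⟩ : ∃ ν : Fin (n + 1) → ℚ, ν 0 = μ 0 + μ 1 ∧
        ∀ j : Fin n, ν j.succ = μ j.succ.succ :=
      ⟨Fin.cons (μ 0 + μ 1) fun j => μ j.succ.succ, rfl, fun _ => rfl⟩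
    have ih' := ih ν
    have e0 : rt (ν 0) = rt (μ 0) * rt (μ 1) := by rw [n0, chain_rt_add]
    have es : ∀ j : Fin n, rt (ν j.succ) = rt (μ j.succ.succ) := fun j => by rw [ns]
    have s1 : ∑ i, μ i = μ 0 + μ 1 + ∑ j : Fin n, μ j.succ.succ := by
      rw [Fin.sum_univ_succ, Fin.sum_univ_succ, ← add_assoc (μ 0)]; rfl
    have s2 : ∑ i, saw (μ i) = saw (μ 0) + saw (μ 1) + ∑ j : Fin n, saw (μ j.succ.succ) := by
      rw [Fin.sum_univ_succ, Fin.sum_univ_succ, ← add_assoc (saw (μ 0))]; rfl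
    rw [Fin.sum_univ_succ, Fin.sum_univ_succ] at ih'
    simp only [n0, ns] at ih'
    rw [s1, s2]
    by_cases h0 : rt (μ 0) = 1
    · rw [chain_case0 (ρ := fun i => rt (μ i)) (ρ' := fun i => rt (ν i)) h0 e0 es, ih']
      obtain ⟨k, hk⟩ := chain_rt_one h0
      rw [hk, chain_saw_add k (μ 1), chain_saw_int]
      ring
    by_cases h1 : rt (μ 1) = 1
    · rw [chain_case1 (ρ := fun i => rt (μ i)) (ρ' := fun i => rt (ν i)) h1 e0 es, ih']
      obtain ⟨k, hk⟩ := chain_rt_one h1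
      rw [hk, add_comm (μ 0), chain_saw_add k (μ 0), chain_saw_int]
      ring
    rw [chain_case2 (ρ := fun i => rt (μ i)) (ρ' := fun i => rt (ν i))
      (fun i => chain_rt_norm _) h0 h1 e0 es, Int.cast_add, ih', merge_sign h0 h1]
    ring

end Pool.Agent.P.MP_3d25f3_gt
end

-- part Pool.Agent.P.MP_3d25f3_gt.Poly
section

set_option autoImplicit false

open Set Filter Topology

namespace Pool.Agent.P.MP_3d25f3_gt

open Module

variable {g : ℕ} {S : List (ℕ × ℤ)} {ρ : ℕ → ℂ}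

/-- value at the vertex number `n` -/
def polyX {L : ℕ} (x : ZMod L → ℂ) (n : ℕ) : ℂ := x (n : ZMod L)

lemma poly_L (x : ZMod (LL g S) → ℂ) : polyX x (LL g S) = polyX x 0 := by
  simp [polyX]

lemma poly_ext (φ : ℕ → ℂ) (h : φ (LL g S) = φ 0) :
    ∃ x : ZMod (LL g S) → ℂ, ∀ n ≤ LL g S, polyX x n = φ n := by
  refine ⟨fun j => φ j.val, fun n hn => ?_⟩
  rcases hn.eq_or_lt with rfl | hn
  · simp [polyX, h]
  · simp [polyX, ZMod.val_cast_of_lt hn]

lemma poly_conj (h : ∀ e, ‖ρ e‖ = 1) (e : ℕ) : ρ e * starRingEnd ℂ (ρ e) = 1 := by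
  rw [Complex.mul_conj, Complex.normSq_eq_norm_sq, h]; simp

lemma poly_st0 {k : ℕ} (hk : k < g) : st g (2 * k) = 4 * k ∧ wd g (2 * k) = 3 := by
  unfold st wd; rw [if_pos (by omega), if_pos (by omega)]; omega

lemma poly_st1 {k : ℕ} (hk : k < g) : st g (2 * k + 1) = 4 * k + 1 ∧ wd g (2 * k + 1) = 3 := by
  unfold st wd; rw [if_pos (by omega), if_pos (by omega)]; omega

lemma poly_st2 (i : ℕ) : st g (2 * g + i) = 4 * g + 2 * i ∧ wd g (2 * g + i) = 2 := by
  unfold st wd; rw [if_neg (by omega), if_neg (by omega)]; omega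

lemma poly_mem' {x : ZMod (LL g S) → ℂ} : x ∈ Pol g S ρ ↔ ∀ e < NE g S,
    polyX x (st g e + wd g e) - ρ e * polyX x (st g e)
      = polyX x (st g e + wd g e - 1) - ρ e * polyX x (st g e + 1) := Iff.rfl

lemma poly_mem {x : ZMod (LL g S) → ℂ} : x ∈ Pol g S ρ ↔
    (∀ k < g, polyX x (4 * k + 3) - ρ (2 * k) * polyX x (4 * k)
        = polyX x (4 * k + 2) - ρ (2 * k) * polyX x (4 * k + 1) ∧
      polyX x (4 * k + 4) - ρ (2 * k + 1) * polyX x (4 * k + 1)
        = polyX x (4 * k + 3) - ρ (2 * k + 1) * polyX x (4 * k + 2)) ∧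
    ∀ i ≤ S.length, polyX x (4 * g + 2 * i + 2) - ρ (2 * g + i) * polyX x (4 * g + 2 * i)
      = polyX x (4 * g + 2 * i + 1) - ρ (2 * g + i) * polyX x (4 * g + 2 * i + 1) := by
  rw [poly_mem']
  constructor
  · intro h
    refine ⟨fun k hk => ⟨?_, ?_⟩, fun i hi => ?_⟩
    · have := h (2 * k) (by unfold NE; omega)
      rwa [(poly_st0 hk).1, (poly_st0 hk).2] at this
    · have := h (2 * k + 1) (by unfold NE; omega)
      rwa [(poly_st1 hk).1, (poly_st1 hk).2] at this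
    · have := h (2 * g + i) (by unfold NE; omega)
      rwa [(poly_st2 i).1, (poly_st2 i).2] at this
  · rintro ⟨h1, h2⟩ e he
    by_cases hg : e < 2 * g
    · obtain ⟨k, rfl | rfl⟩ := Nat.even_or_odd' e
      · rw [(poly_st0 (by omega)).1, (poly_st0 (by omega)).2]
        exact (h1 k (by omega)).1
      · rw [(poly_st1 (by omega)).1, (poly_st1 (by omega)).2]
        exact (h1 k (by omega)).2
    · obtain ⟨i, rfl⟩ := Nat.exists_eq_add_of_le (not_lt.1 hg)
      rw [(poly_st2 i).1, (poly_st2 i).2]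
      exact h2 i (by unfold NE at he; omega)

lemma poly_area' (x y : ZMod (LL g S) → ℂ) : area g S ρ x y =
    Complex.I * ∑ e ∈ Finset.range (NE g S), (polyX x (st g e + wd g e) - ρ e * polyX x (st g e)) *
      starRingEnd ℂ (ρ e) * starRingEnd ℂ (polyX y (st g e + 1) - polyX y (st g e)) := rfl

lemma poly_area (x y : ZMod (LL g S) → ℂ) : area g S ρ x y = Complex.I *
    (∑ k ∈ Finset.range g,
      ((polyX x (4 * k + 3) - ρ (2 * k) * polyX x (4 * k)) * starRingEnd ℂ (ρ (2 * k)) *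
          starRingEnd ℂ (polyX y (4 * k + 1) - polyX y (4 * k)) +
        (polyX x (4 * k + 4) - ρ (2 * k + 1) * polyX x (4 * k + 1)) *
          starRingEnd ℂ (ρ (2 * k + 1)) *
          starRingEnd ℂ (polyX y (4 * k + 2) - polyX y (4 * k + 1))) +
    ∑ i ∈ Finset.range (S.length + 1),
      (polyX x (4 * g + 2 * i + 2) - ρ (2 * g + i) * polyX x (4 * g + 2 * i)) *
        starRingEnd ℂ (ρ (2 * g + i)) *
        starRingEnd ℂ (polyX y (4 * g + 2 * i + 1) - polyX y (4 * g + 2 * i))) := by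
  rw [poly_area', sum_arcs]
  congr 2
  · refine Finset.sum_congr rfl fun k hk => ?_
    have hk := Finset.mem_range.1 hk
    rw [(poly_st0 hk).1, (poly_st0 hk).2, (poly_st1 hk).1, (poly_st1 hk).2]
  · refine Finset.sum_congr rfl fun i _ => ?_
    rw [(poly_st2 i).1, (poly_st2 i).2]

lemma area_herm (h : ∀ e, ‖ρ e‖ = 1) : Herm (cmp (area g S ρ) (Pol g S ρ).subtype) := by
  rintro ⟨x, hx⟩ ⟨y, hy⟩
  simp only [cmp_apply, Submodule.subtype_apply, poly_area']
  have t := tel (g := g) (S := S) fun n => polyX y n * starRingEnd ℂ (polyX x n)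
  rw [poly_L, poly_L, sub_self] at t
  rw [map_mul, Complex.conj_I, map_sum, neg_mul, eq_neg_iff_add_eq_zero, ← mul_add,
    ← Finset.sum_add_distrib]
  refine mul_eq_zero_of_right _ ?_
  rw [← neg_eq_zero, ← Finset.sum_neg_distrib, ← t]
  refine Finset.sum_congr rfl fun e he => ?_
  have h1 := congrArg (starRingEnd ℂ) (poly_mem'.1 hx e (Finset.mem_range.1 he))
  have h2 := poly_mem'.1 hy e (Finset.mem_range.1 he)
  have h3 := poly_conj h e
  simp only [map_mul, map_sub, Complex.conj_conj] at h1 ⊢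
  linear_combination
    (polyX y (st g e) * (starRingEnd ℂ (polyX x (st g e + 1)) - starRingEnd ℂ (polyX x (st g e))) +
      starRingEnd ℂ (polyX x (st g e + 1)) * (polyX y (st g e + 1) - polyX y (st g e))) * h3 -
    (polyX y (st g e + wd g e) + ρ e * (polyX y (st g e + 1) - polyX y (st g e))) * h1 -
    starRingEnd ℂ (polyX x (st g e + wd g e - 1)) * h2

/-- vertex data that are closed at every handle -/
def polyQ (g : ℕ) (S : List (ℕ × ℤ)) (ρ : ℕ → ℂ) : Submodule ℂ (Pol g S ρ) where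
  carrier := {x | ∀ k < g, polyX x.1 (4 * k + 4) = polyX x.1 (4 * k) ∧
    (ρ (2 * k) = 1 → ρ (2 * k + 1) = 1 → polyX x.1 (4 * k + 2) = polyX x.1 (4 * k + 1))}
  zero_mem' := fun _ _ => ⟨rfl, fun _ _ => rfl⟩
  add_mem' := fun ha hb k hk =>
    ⟨congrArg₂ (· + ·) (ha k hk).1 (hb k hk).1,
      fun h1 h2 => congrArg₂ (· + ·) ((ha k hk).2 h1 h2) ((hb k hk).2 h1 h2)⟩
  smul_mem' := fun r _ ha k hk =>
    ⟨congrArg (r * ·) (ha k hk).1, fun h1 h2 => congrArg (r * ·) ((ha k hk).2 h1 h2)⟩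

lemma poly_bump {k : ℕ} (hk : k < g) (p q r : ℂ) (h1 : r = q - ρ (2 * k) * p)
    (h2 : -(ρ (2 * k + 1) * p) = r - ρ (2 * k + 1) * q) (h3 : ρ (2 * k) = 1 → q = p) :
    ∃ x ∈ polyQ g S ρ, ∀ y, area g S ρ x.1 y = Complex.I *
      (r * starRingEnd ℂ (ρ (2 * k)) * starRingEnd ℂ (polyX y (4 * k + 1) - polyX y (4 * k)) -
        ρ (2 * k + 1) * p * starRingEnd ℂ (ρ (2 * k + 1)) *
          starRingEnd ℂ (polyX y (4 * k + 2) - polyX y (4 * k + 1))) := by
  obtain ⟨x, hx⟩ := poly_ext (g := g) (S := S) (fun n => if n = 4 * k + 1 then p else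
    if n = 4 * k + 2 then q else if n = 4 * k + 3 then r else 0) (by
      have hL : LL g S = 4 * g + 2 * (S.length + 1) := rfl
      rw [if_neg (by omega), if_neg (by omega), if_neg (by omega), if_neg (by omega),
        if_neg (by omega), if_neg (by omega)])
  have z : ∀ n ≤ LL g S, n ≠ 4 * k + 1 → n ≠ 4 * k + 2 → n ≠ 4 * k + 3 → polyX x n = 0 :=
    fun n hn a b c => by rw [hx n hn, if_neg a, if_neg b, if_neg c]
  have x1 : polyX x (4 * k + 1) = p := by rw [hx _ (by unfold LL; omega), if_pos rfl]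
  have x2 : polyX x (4 * k + 2) = q := by
    rw [hx _ (by unfold LL; omega), if_neg (by omega), if_pos rfl]
  have x3 : polyX x (4 * k + 3) = r := by
    rw [hx _ (by unfold LL; omega), if_neg (by omega), if_neg (by omega), if_pos rfl]
  have z0 : ∀ j ≤ g, polyX x (4 * j) = 0 := fun j hj =>
    z _ (by unfold LL; omega) (by omega) (by omega) (by omega)
  have z4 : ∀ j < g, polyX x (4 * j + 4) = 0 := fun j hj => z0 (j + 1) hj
  have zj : ∀ j < g, j ≠ k → ∀ c ≤ 4, polyX x (4 * j + c) = 0 := fun j hj hjk c hc =>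
    z _ (by unfold LL; omega) (by omega) (by omega) (by omega)
  have zs : ∀ i ≤ S.length, ∀ c ≤ 2, polyX x (4 * g + 2 * i + c) = 0 := fun i hi c hc =>
    z _ (by unfold LL; omega) (by omega) (by omega) (by omega)
  have hP : x ∈ Pol g S ρ := by
    refine poly_mem.2 ⟨fun j hj => ?_, fun i hi => ?_⟩
    · by_cases e : j = k
      · subst e
        rw [x1, x2, x3, z0 j hj.le, z4 j hj]
        exact ⟨by linear_combination h1, by linear_combination h2⟩
      · simp [zj j hj e, z0 j hj.le]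
    · have := zs i hi 0 (by omega)
      rw [add_zero] at this
      simp [zs i hi, this]
  refine ⟨⟨x, hP⟩, fun j hj => ⟨(z4 j hj).trans (z0 j hj.le).symm, fun a _ => ?_⟩, fun y => ?_⟩
  · by_cases e : j = k
    · subst e
      exact x2.trans ((h3 a).trans x1.symm)
    · exact (zj j hj e 2 (by omega)).trans (zj j hj e 1 (by omega)).symm
  · rw [poly_area, Finset.sum_eq_single_of_mem k (Finset.mem_range.2 hk), Finset.sum_eq_zero,
      x1, x3, z0 k hk.le, z4 k hk]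
    · ring
    · intro i hi
      have hi := Nat.lt_succ_iff.1 (Finset.mem_range.1 hi)
      have := zs i hi 0 (by omega)
      rw [add_zero] at this
      simp [zs i hi, this]
    · intro j hj e
      have hj := Finset.mem_range.1 hj
      simp [zj j hj e, z0 j hj.le]

lemma poly_coiso (h : ∀ e, ‖ρ e‖ = 1) (v : Pol g S ρ)
    (hv : ∀ q ∈ polyQ g S ρ, cmp (area g S ρ) (Pol g S ρ).subtype v q = 0) : v ∈ polyQ g S ρ := by
  have key : ∀ q ∈ polyQ g S ρ, area g S ρ q.1 v.1 = 0 := fun q hq => by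
    have := area_herm h v q
    rw [hv q hq, map_zero] at this
    exact this
  intro k hk
  have a := poly_conj h (2 * k)
  have b := poly_conj h (2 * k + 1)
  obtain ⟨v1, v2⟩ := (poly_mem.1 v.2).1 k hk
  constructor
  · obtain ⟨x, hx, e⟩ := poly_bump (S := S) (ρ := ρ) hk (1 - ρ (2 * k + 1)) (ρ (2 * k) - ρ (2 * k + 1))
      (ρ (2 * k) * ρ (2 * k + 1) - ρ (2 * k + 1)) (by ring) (by ring) (fun a => by rw [a])
    have := congrArg (starRingEnd ℂ) ((mul_eq_zero.1 ((e v.1).symm.trans (key x hx))).resolve_left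
      Complex.I_ne_zero)
    simp only [map_mul, map_sub, Complex.conj_conj, map_one, map_zero] at this
    linear_combination v1 + v2 + ρ (2 * k + 1) * this -
      ρ (2 * k + 1) * starRingEnd ℂ (ρ (2 * k + 1)) *
        (polyX v.1 (4 * k + 1) - polyX v.1 (4 * k)) * a -
      ((1 - ρ (2 * k)) * (polyX v.1 (4 * k + 1) - polyX v.1 (4 * k)) +
        (1 + ρ (2 * k + 1) * starRingEnd ℂ (ρ (2 * k + 1)) - ρ (2 * k + 1)) *
        (polyX v.1 (4 * k + 2) - polyX v.1 (4 * k + 1))) * b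
  · intro a1 b1
    obtain ⟨x, hx, e⟩ := poly_bump (S := S) (ρ := ρ) hk 1 1 0 (by rw [a1]; ring) (by ring) fun _ => rfl
    have := congrArg (starRingEnd ℂ) ((mul_eq_zero.1 ((e v.1).symm.trans (key x hx))).resolve_left
      Complex.I_ne_zero)
    simp only [b1, map_mul, map_sub, Complex.conj_conj, map_one, map_zero] at this
    linear_combination -this

lemma poly_handle {a b a' b' E u w u' w' : ℂ} (ha : a * a' = 1) (hb : b * b' = 1)
    (h : (1 - a) * u + (1 - b) * w = 0) (h' : (1 - a') * u' + (1 - b') * w' = 0)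
    (h1 : a = 1 → b = 1 → w = 0 ∧ w' = 0) :
    (E + u + w - a * u - a * E) * a' * u' + (E - b * (E + u)) * b' * w' = 0 := by
  have T : b * a' * w * u' - u * w' = 0 := by
    by_cases ea : a = 1
    · by_cases eb : b = 1
      · simp [h1 ea eb]
      · refine (mul_eq_zero.1 ?_).resolve_left (sub_ne_zero.2 (Ne.symm eb))
        linear_combination b * a' * u' * h + b * u * h' + b * u * u' * ha + u * w' * hb
    · refine (mul_eq_zero.1 ?_).resolve_left (sub_ne_zero.2 (Ne.symm ea))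
      linear_combination -w' * h - b * w * h' - b * w * u' * ha - w * w' * hb
  linear_combination T + a' * u' * h - E * h' - E * u' * ha - (E + u) * w' * hb

lemma poly_start {x : Pol g S ρ} (hx : x ∈ polyQ g S ρ) : polyX x.1 (4 * g) = polyX x.1 0 := by
  have : ∀ j ≤ g, polyX x.1 (4 * j) = polyX x.1 0 := by
    intro j hj
    induction j with
    | zero => rfl
    | succ j ih => exact ((hx j hj).1).trans (ih (by omega))
  exact this g le_rfl

lemma poly_slit {x : ZMod (LL g S) → ℂ} (hx : x ∈ Pol g S ρ) {i : ℕ} (hi : i ≤ S.length + 1) :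
    polyX x (4 * g + 2 * i) = polyX x (4 * g) + ∑ j ∈ Finset.range i,
      (1 - ρ (2 * g + j)) * (polyX x (4 * g + 2 * j + 1) - polyX x (4 * g + 2 * j)) := by
  induction i with
  | zero => simp
  | succ i ih =>
    have h1 := (poly_mem.1 hx).2 i (by omega)
    rw [Finset.sum_range_succ, show 4 * g + 2 * (i + 1) = 4 * g + 2 * i + 2 by ring]
    linear_combination ih (by omega) + h1

lemma poly_closed {x : Pol g S ρ} (hx : x ∈ polyQ g S ρ) : ∑ j ∈ Finset.range (S.length + 1),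
    (1 - ρ (2 * g + j)) * (polyX x.1 (4 * g + 2 * j + 1) - polyX x.1 (4 * g + 2 * j)) = 0 := by
  have h1 := poly_slit x.2 le_rfl
  have h2 : polyX x.1 (4 * g + 2 * (S.length + 1)) = polyX x.1 0 := poly_L x.1
  linear_combination h2 - h1 - poly_start hx

/-- the slit vectors -/
noncomputable def polyD (g : ℕ) (S : List (ℕ × ℤ)) (ρ : ℕ → ℂ) :
    polyQ g S ρ →ₗ[ℂ] clos (S.length + 1) fun i => ρ (2 * g + i) where
  toFun x := ⟨fun i => polyX x.1.1 (4 * g + 2 * i + 1) - polyX x.1.1 (4 * g + 2 * i), by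
    rw [mem_clos, ← poly_closed x.2, Finset.sum_range]⟩
  map_add' x y := by
    ext i
    simp only [polyX, Submodule.coe_add, Pi.add_apply]
    ring
  map_smul' r x := by
    ext i
    simp only [polyX, Submodule.coe_smul, Pi.smul_apply, smul_eq_mul, RingHom.id_apply]
    ring

lemma polyD_surj : Function.Surjective (polyD g S ρ) := by
  rintro ⟨D, hD⟩
  rw [mem_clos] at hD
  set D' : ℕ → ℂ := fun j => if h : j < S.length + 1 then D ⟨j, h⟩ else 0 with hD'
  set P : ℕ → ℂ := fun i => ∑ j ∈ Finset.range i, (1 - ρ (2 * g + j)) * D' j with hP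
  have P0 : P 0 = 0 := rfl
  have PL : P (S.length + 1) = 0 := by
    rw [← hD, hP]
    simp only [Finset.sum_range, hD', Fin.is_lt, dif_pos]
  obtain ⟨x, hx⟩ := poly_ext (g := g) (S := S) (fun n => P ((n - 4 * g) / 2) +
    if (n - 4 * g) % 2 = 1 then D' ((n - 4 * g) / 2) else 0) (by
      have hL : LL g S = 4 * g + 2 * (S.length + 1) := rfl
      rw [if_neg (by omega), if_neg (by omega), show (LL g S - 4 * g) / 2
        = S.length + 1 by omega, show (0 - 4 * g) / 2 = 0 by omega, PL, P0])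
  have z : ∀ n ≤ 4 * g, polyX x n = 0 := fun n hn => by
    rw [hx n (by unfold LL; omega), if_neg (by omega), show (n - 4 * g) / 2 = 0 by omega, P0,
      add_zero]
  have zc : ∀ k < g, ∀ c ≤ 4, polyX x (4 * k + c) = 0 := fun k hk c hc => z _ (by omega)
  have x0 : ∀ i ≤ S.length + 1, polyX x (4 * g + 2 * i) = P i := fun i hi => by
    rw [hx _ (by unfold LL; omega), if_neg (by omega),
      show (4 * g + 2 * i - 4 * g) / 2 = i by omega, add_zero]
  have x1 : ∀ i ≤ S.length, polyX x (4 * g + 2 * i + 1) = P i + D' i := fun i hi => by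
    rw [hx _ (by unfold LL; omega), if_pos (by omega),
      show (4 * g + 2 * i + 1 - 4 * g) / 2 = i by omega]
  have hPol : x ∈ Pol g S ρ := by
    refine poly_mem.2 ⟨fun k hk => by simp [zc k hk, z (4 * k) (by omega)], fun i hi => ?_⟩
    have e : P (i + 1) = P i + (1 - ρ (2 * g + i)) * D' i := Finset.sum_range_succ _ i
    rw [show 4 * g + 2 * i + 2 = 4 * g + 2 * (i + 1) by ring, x0 _ (by omega), x0 i (by omega),
      x1 i hi, e]
    ring
  refine ⟨⟨⟨x, hPol⟩, fun k hk => ⟨(zc k hk 4 le_rfl).trans (z _ (by omega)).symm,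
    fun _ _ => (zc k hk 2 (by omega)).trans (zc k hk 1 (by omega)).symm⟩⟩, ?_⟩
  ext i
  change polyX x (4 * g + 2 * i + 1) - polyX x (4 * g + 2 * i) = D i
  rw [x1 i (by omega), x0 i (by omega), add_sub_cancel_left, hD']
  simp only [Fin.is_lt, dif_pos]

lemma poly_chain (n : ℕ) (r D D' : ℕ → ℂ) :
    chain n (fun i => r i) (fun i => D i) (fun i => D' i) = Complex.I * ∑ i ∈ Finset.range n,
      -((∑ j ∈ Finset.range i, (1 - r j) * D j + D i) * starRingEnd ℂ ((1 - r i) * D' i)) := by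
  rw [chain, gram_apply, Finset.sum_comm, Finset.mul_sum, Finset.sum_range]
  refine Finset.sum_congr rfl fun i _ => ?_
  have e : ∑ j ∈ Finset.range i, (1 - r j) * D j + D i =
      ∑ j : Fin n, (if j < i then 1 - r j else if j = i then 1 else 0) * D j := by
    simp only [Fin.lt_def, Fin.ext_iff]
    rw [← Finset.sum_range (fun j => (if j < i.1 then 1 - r j else if j = i.1 then 1 else 0) * D j),
      ← Finset.sum_subset (Finset.range_subset_range.2 (Nat.succ_le_of_lt i.2)),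
      Finset.sum_range_succ, if_neg (lt_irrefl _), if_pos rfl, one_mul]
    · exact congrArg (· + _) (Finset.sum_congr rfl fun j hj => by
        rw [if_pos (Finset.mem_range.1 hj)])
    · intro j _ hj
      rw [Finset.mem_range] at hj
      rw [if_neg (by omega), if_neg (by omega), zero_mul]
  rw [e, Finset.sum_mul, ← Finset.sum_neg_distrib, Finset.mul_sum]
  refine Finset.sum_congr rfl fun j _ => ?_
  rw [map_mul]
  ring

lemma poly_eq (h : ∀ e, ‖ρ e‖ = 1) (x y : polyQ g S ρ) : area g S ρ x.1.1 y.1.1 =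
    chain (S.length + 1) (fun i => ρ (2 * g + i)) (polyD g S ρ x).1 (polyD g S ρ y).1 := by
  refine Eq.trans ?_ (poly_chain (S.length + 1) (fun i => ρ (2 * g + i))
    (fun i => polyX x.1.1 (4 * g + 2 * i + 1) - polyX x.1.1 (4 * g + 2 * i))
    (fun i => polyX y.1.1 (4 * g + 2 * i + 1) - polyX y.1.1 (4 * g + 2 * i))).symm
  rw [poly_area, Finset.sum_eq_zero, zero_add]
  · have c := congrArg (fun z => polyX x.1.1 (4 * g) * starRingEnd ℂ z) (poly_closed y.2)
    simp only [map_zero, mul_zero, map_sum, Finset.mul_sum] at c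
    congr 1
    rw [← sub_eq_zero, ← neg_eq_zero, neg_sub, ← Finset.sum_sub_distrib, ← c]
    refine Finset.sum_congr rfl fun i hi => ?_
    have hi := Finset.mem_range.1 hi
    have h1 := poly_slit x.1.2 hi.le
    have h2 := (poly_mem.1 x.1.2).2 i (by omega)
    have h3 := poly_conj h (2 * g + i)
    simp only [map_mul, map_sub, map_one]
    rw [h2, ← sub_eq_iff_eq_add'.2 h1]
    linear_combination (polyX x.1.1 (4 * g + 2 * i + 1) *
      (starRingEnd ℂ (polyX y.1.1 (4 * g + 2 * i + 1)) -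
        starRingEnd ℂ (polyX y.1.1 (4 * g + 2 * i)))) * h3
  · intro k hk
    have hk := Finset.mem_range.1 hk
    obtain ⟨x1, x2⟩ := (poly_mem.1 x.1.2).1 k hk
    obtain ⟨y1, y2⟩ := (poly_mem.1 y.1.2).1 k hk
    obtain ⟨x3, x4⟩ := x.2 k hk
    obtain ⟨y3, y4⟩ := y.2 k hk
    have hy : (1 - ρ (2 * k)) * (polyX y.1.1 (4 * k + 1) - polyX y.1.1 (4 * k)) +
        (1 - ρ (2 * k + 1)) * (polyX y.1.1 (4 * k + 2) - polyX y.1.1 (4 * k + 1)) = 0 := by
      linear_combination y3 - y1 - y2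
    have hy' := congrArg (starRingEnd ℂ) hy
    simp only [map_add, map_mul, map_sub (starRingEnd ℂ) 1, map_one, map_zero] at hy'
    have := poly_handle (E := polyX x.1.1 (4 * k))
      (u := polyX x.1.1 (4 * k + 1) - polyX x.1.1 (4 * k))
      (w := polyX x.1.1 (4 * k + 2) - polyX x.1.1 (4 * k + 1)) (poly_conj h (2 * k))
      (poly_conj h (2 * k + 1)) (by linear_combination x3 - x1 - x2) hy'
      (fun a b => ⟨sub_eq_zero.2 (x4 a b), by rw [y4 a b, sub_self, map_zero]⟩)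
    rw [x3]
    linear_combination this + starRingEnd ℂ (ρ (2 * k)) *
      starRingEnd ℂ (polyX y.1.1 (4 * k + 1) - polyX y.1.1 (4 * k)) * x1

/-- the handles do not contribute -/
lemma area_sgn_chain (h : ∀ e, ‖ρ e‖ = 1) :
    sgn (cmp (area g S ρ) (Pol g S ρ).subtype)
      = sgn (cmp (chain (S.length + 1) fun i => ρ (2 * g + i))
        (clos (S.length + 1) fun i => ρ (2 * g + i)).subtype) := by
  have e1 := sgn_coiso (Q := polyQ g S ρ) (area_herm h) (poly_coiso h)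
  have e2 := sgn_cmp_surj (W := polyQ g S ρ) (cmp (chain (S.length + 1) fun i => ρ (2 * g + i))
    (clos (S.length + 1) fun i => ρ (2 * g + i)).subtype) (f := polyD g S ρ) polyD_surj
  rw [← e1, ← e2]
  congr 1
  exact LinearMap.ext₂ fun x y => poly_eq h x y

theorem area_sgn (hS : Data S) (h : ∀ e, ‖ρ e‖ = 1) (k : ℤ)
    (hk : ∀ i ≤ S.length, ρ (2 * g + i) = rt (k * (pr g S (2 * g + i)).2 / (pr g S (2 * g + i)).1)) :
    (sgn (cmp (area g S ρ) (Pol g S ρ).subtype) : ℚ) = -jmp S k := by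
  have e : (fun i : Fin (S.length + 1) => ρ (2 * g + i)) =
      fun i : Fin (S.length + 1) => rt (k * (pr g S (2 * g + i)).2 / (pr g S (2 * g + i)).1) :=
    funext fun i => hk i (Nat.lt_succ_iff.1 i.2)
  have s1 := sum_getD (g := g) (S := S) fun p => (p.2 : ℚ) / p.1
  have s2 := sum_getD (g := g) (S := S) fun p => saw (k * p.2 / p.1)
  rw [hS.2, Finset.sum_range] at s1
  rw [Finset.sum_range] at s2
  have s0 : saw 0 = 0 := by simp [saw]
  have s3 : ∑ i : Fin (S.length + 1), (k * (pr g S (2 * g + i)).2 / (pr g S (2 * g + i)).1 : ℚ)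
      = 0 := by
    simp only [mul_div_assoc, ← Finset.mul_sum, s1]
    simp
  rw [area_sgn_chain h, e, chain_sgn, s2, s3, jmp]
  simp [s0]

end Pool.Agent.P.MP_3d25f3_gt
end

-- part Pool.Agent.P.MP_3d25f3_gt.SolH
section

set_option autoImplicit false

open Set Filter Topology

namespace Pool.Agent.P.MP_3d25f3_gt

/-- a slab of the solid torus -/
def solhS (a b : ℝ) : Set Solid := pc '' (univ ×ˢ Icc a b)

lemma solh_compact (a b : ℝ) : IsCompact (univ ×ˢ Icc a b : Set Cov) :=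
  isCompact_univ.prod isCompact_Icc

lemma solh_closed (a b : ℝ) : IsClosed (solhS a b) :=
  ((solh_compact a b).image continuous_pc).isClosed

lemma solh_cov (k : ℕ) (a b : ℝ) :
    Van (1 : Cov → Cov → ℂ) (k + 1) (univ ×ˢ Icc a b) ∅ := by
  let σ : ℝ → ℝ := fun s => max 0 (min 1 (1 - s))
  have h0 : ∀ s, 0 ≤ σ s := fun s => le_max_left _ _
  have h1 : ∀ s, σ s ≤ 1 := fun s => max_le zero_le_one (min_le_left _ _)
  have hσ : Continuous σ := by fun_prop
  have hm : ∀ (y : Disc) (s : ℝ), ((σ s : ℂ) * y) ∈ Metric.closedBall (0 : ℂ) 1 := by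
    intro y s
    rw [mem_closedBall_zero_iff, norm_mul, Complex.norm_real, Real.norm_of_nonneg (h0 s)]
    exact mul_le_one₀ (h1 s) (norm_nonneg _) (mem_closedBall_zero_iff.1 y.2)
  refine van_contr (h := fun x s => (⟨_, hm x.1 s⟩, a + σ s * (x.2 - a))) k (solh_compact a b)
    ?_ ?_ (Coc_one _) ?_ (p := (⟨0, by simp⟩, a)) ?_
  · refine Continuous.prodMk (Continuous.subtype_mk ?_ _) ?_
    · fun_prop
    · fun_prop
  · intro x
    simp [σ]
  · rintro x ⟨-, h2, h3⟩ s -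
    have := h0 s
    have := h1 s
    exact ⟨trivial, by nlinarith, by nlinarith⟩
  · intro x
    simp [σ]

lemma solh_van (k : ℕ) {a b : ℝ} (hab : b - a < 1) :
    Van (1 : Solid → Solid → ℂ) (k + 1) (solhS a b) ∅ := by
  intro c hc
  rw [← image_empty pc] at hc ⊢
  refine emb_inj (solh_compact a b) (empty_subset _) continuous_pc ?_ (Coc_one _) hc
    (solh_cov k a b (pull_Zc (Itw_comp (1 : Solid → Solid → ℂ) pc _)
      (fun _ _ => continuous_pc.continuousAt) (empty_subset _) (mapsTo_image _ _)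
      (mapsTo_image _ _) hc))
  rintro x ⟨-, h1, h2⟩ y ⟨-, h3, h4⟩ e
  obtain ⟨e1, n, e2⟩ := (pc_eq_iff x y).1 e
  have h5 : (n : ℝ) < 1 := by linarith
  have h6 : (-1 : ℝ) < n := by linarith
  have h7 : n = 0 := by
    have : n < 1 := by exact_mod_cast h5
    have : -1 < n := by exact_mod_cast h6
    omega
  exact Prod.ext e1 (by rw [e2, h7]; simp)

lemma solh_union : solhS 0 (1 / 2) ∪ solhS (1 / 2) 1 = univ := by
  refine eq_univ_of_forall fun x => ?_
  obtain ⟨⟨y, z⟩, rfl⟩ := pc_surj x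
  have e : pc (y, Int.fract z) = pc (y, z) :=
    (pc_eq_iff _ _).2 ⟨rfl, ⌊z⌋, (Int.fract_add_floor z).symm⟩
  rcases le_total (Int.fract z) (1 / 2) with h | h
  · exact Or.inl ⟨_, ⟨trivial, Int.fract_nonneg z, h⟩, e⟩
  · exact Or.inr ⟨_, ⟨trivial, h, (Int.fract_lt_one z).le⟩, e⟩

lemma solh_inter : solhS 0 (1 / 2) ∩ solhS (1 / 2) 1 = solhS 0 0 ∪ solhS (1 / 2) (1 / 2) := by
  apply Subset.antisymm
  · rintro _ ⟨⟨x, ⟨-, h1, h2⟩, rfl⟩, y, ⟨-, h3, h4⟩, e⟩
    obtain ⟨-, n, e2⟩ := (pc_eq_iff y x).1 e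
    rcases le_or_gt 0 n with h | h
    · have : (0 : ℝ) ≤ n := by exact_mod_cast h
      exact Or.inr ⟨x, ⟨trivial, by linarith, h2⟩, rfl⟩
    · have : (n : ℝ) ≤ -1 := by exact_mod_cast (show n ≤ -1 by omega)
      exact Or.inl ⟨x, ⟨trivial, h1, by linarith⟩, rfl⟩
  · rintro _ (⟨x, ⟨-, h1, h2⟩, rfl⟩ | ⟨x, ⟨-, h1, h2⟩, rfl⟩)
    · refine ⟨⟨x, ⟨trivial, h1, by linarith⟩, rfl⟩, (x.1, 1), ⟨trivial, by norm_num, le_rfl⟩,
        (pc_eq_iff _ _).2 ⟨rfl, -1, ?_⟩⟩
      rw [le_antisymm h2 h1]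
      simp
    · exact ⟨⟨x, ⟨trivial, by linarith, h2⟩, rfl⟩, x, ⟨trivial, h1, by linarith⟩, rfl⟩

lemma solh_disj : solhS 0 0 ∩ solhS (1 / 2) (1 / 2) = ∅ := by
  refine eq_empty_of_forall_notMem ?_
  rintro _ ⟨⟨x, ⟨-, h1, h2⟩, rfl⟩, y, ⟨-, h3, h4⟩, e⟩
  obtain ⟨-, n, e2⟩ := (pc_eq_iff y x).1 e
  have h5 : (2 * n : ℝ) = -1 := by linarith
  have : 2 * n = -1 := by exact_mod_cast h5
  omega

theorem van_solid : Van (1 : Solid → Solid → ℂ) 2 univ ∅ := by
  have h1 : Van (1 : Solid → Solid → ℂ) 1 (solhS 0 0 ∪ solhS (1 / 2) (1 / 2)) ∅ := by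
    refine van_mid 1 ((van_exc 1 (solh_closed _ _) (solh_closed _ _)).2 ?_)
      (solh_van 0 (by norm_num)) (Coc_one _) subset_union_right (empty_subset _)
    rw [solh_disj]
    exact solh_van 0 (by norm_num)
  rw [← solh_inter] at h1
  rw [← solh_union]
  exact van_mid 2 ((van_exc 2 (solh_closed _ _) (solh_closed _ _)).2
    (van_left 1 h1 (solh_van 1 (by norm_num)) (Coc_one _) inter_subset_left (empty_subset _)))
    (solh_van 1 (by norm_num)) (Coc_one _) subset_union_right (empty_subset _)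

end Pool.Agent.P.MP_3d25f3_gt
end

-- part Pool.Agent.P.MP_3d25f3_gt.AnnB
section

set_option autoImplicit false

open Set Filter Topology

namespace Pool.Agent.P.MP_3d25f3_gt

variable {g : ℕ} {S : List (ℕ × ℤ)}

lemma annb_pullD (c : List (Seifert g S) → ℂ) :
    D (1 : Solid → Solid → ℂ) (pull (pm g S) 1 c) = pull (pm g S) 1 (D 1 c) :=
  pull_D_eq (1 : Seifert g S → Seifert g S → ℂ) (pm g S) c

lemma annb_exists_m (hS : Data S) (m₀ : ℕ) :
    ∃ m ≥ m₀, 0 < m ∧ ∀ e < NE g S, (pr g S e).1 ∣ m := by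
  have hp : 0 < ∏ e ∈ Finset.range (NE g S), (pr g S e).1 :=
    Finset.prod_pos fun e _ => (pr_data hS e).1
  refine ⟨(m₀ + 1) * ∏ e ∈ Finset.range (NE g S), (pr g S e).1, ?_, by positivity, ?_⟩
  · calc m₀ ≤ (m₀ + 1) * 1 := by omega
      _ ≤ _ := Nat.mul_le_mul_left _ hp
  · intro e he
    exact Dvd.dvd.mul_left (Finset.dvd_prod_of_mem _ (Finset.mem_range.2 he)) _

theorem Ev.zero (hS : Data S) {w : List (Seifert g S) → ℂ} {s : ℂ} (h : Ev g S w s)
    (hw : w ∈ Bc (1 : Seifert g S → Seifert g S → ℂ) 3 univ ∅) : s = 0 := by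
  obtain ⟨b, hb, m₀, hm₀⟩ := h
  obtain ⟨c, -, hc⟩ := mem_Bc.1 hw
  have h1 : pull (pm g S) 1 (w - D 1 c) ∈ Null ℂ 3 (univ : Set Solid) :=
    pull_Null 1 (fun x _ => continuous_pm.continuousAt) (mapsTo_univ _ _) hc
  have h2 : b - pull (pm g S) 1 c ∈ Zc (1 : Solid → Solid → ℂ) 2 univ ∅ := by
    refine mem_Zc.2 ⟨by simp, ?_⟩
    have h3 := add_mem hb h1
    have h4 : D 1 (b - pull (pm g S) 1 c)
        = D 1 b - pull (pm g S) 1 w + pull (pm g S) 1 (w - D 1 c) := by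
      rw [map_sub, map_sub, annb_pullD]
      abel
    rw [h4]
    exact h3
  obtain ⟨a, -, ha⟩ := mem_Bc.1 (van_solid h2)
  obtain ⟨m₁, hm₁⟩ := evT_Null (g := g) (S := S) ha
  obtain ⟨m, hm, hpos, hd⟩ := annb_exists_m (g := g) hS (max m₀ m₁)
  have e1 := hm₀ m (le_trans (le_max_left _ _) hm) hd
  have e2 := hm₁ m (le_trans (le_max_right _ _) hm)
  have e3 := evT_D hS a hpos hd
  have e4 := evT_pull (g := g) (S := S) c m
  have e5 := evT_lin (g := g) (S := S) 1 (-1) b (pull (pm g S) 1 c) m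
  have e6 := evT_lin (g := g) (S := S) 1 (-1) (b - pull (pm g S) 1 c) (D 1 a) m
  have r5 : (1 : ℂ) • b + (-1 : ℂ) • pull (pm g S) 1 c = b - pull (pm g S) 1 c := by
    rw [one_smul, neg_one_smul, sub_eq_add_neg]
  have r6 : (1 : ℂ) • (b - pull (pm g S) 1 c) + (-1 : ℂ) • D 1 a
      = b - pull (pm g S) 1 c - D 1 a := by
    rw [one_smul, neg_one_smul, ← sub_eq_add_neg]
  rw [r5] at e5
  rw [r6, e2, e3, e5, e4, e1] at e6
  linear_combination -e6

/-- the primitive of the triple product -/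
noncomputable def annb_b (g : ℕ) (S : List (ℕ × ℤ)) (n : Seifert g S → Seifert g S → ℤ)
    (E E' : Disc → ℂ) : List Solid → ℂ
  | [y0, y1, y2] => E y0.1 * (n (pm g S y0) (pm g S y1) : ℂ) * starRingEnd ℂ (E' y2.1 - E' y1.1)
  | _ => 0

lemma annb_b_apply (n : Seifert g S → Seifert g S → ℤ) (E E' : Disc → ℂ) (y0 y1 y2 : Solid) :
    annb_b g S n E E' [y0, y1, y2]
      = E y0.1 * (n (pm g S y0) (pm g S y1) : ℂ) * starRingEnd ℂ (E' y2.1 - E' y1.1) := rfl

lemma annb_unit {ω : ℂˣ} (hω : ‖(ω : ℂ)‖ = 1) (k : ℤ) :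
    ((ω ^ k : ℂˣ) : ℂ) * starRingEnd ℂ ((ω ^ k : ℂˣ) : ℂ) = 1 := by
  rw [Complex.mul_conj, Complex.normSq_eq_norm_sq, Units.val_zpow_eq_zpow_val, norm_zpow, hω]
  simp

lemma annb_wf {Z : Type} (ω : ℂˣ) (n : Z → Z → ℤ) (v v' : List Z → ℂ) (x0 x1 x2 x3 : Z) :
    wf ω n v v' [x0, x1, x2, x3] = v [x0, x1] * (((ω⁻¹ ^ n x0 x1 : ℂˣ) : ℂ) *
      starRingEnd ℂ ((n x1 x2 : ℂ) * (((ω ^ n x1 x2 : ℂˣ) : ℂ) * v' [x2, x3]))) := rfl

lemma annb_key {ω : ℂˣ} (hω : ‖(ω : ℂ)‖ = 1) {A0 A1 A2 : ℤ} {p q P Q : ℂ}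
    (hp : ((ω ^ A0 : ℂˣ) : ℂ) * p = P) (hq : ((ω ^ A2 : ℂˣ) : ℂ) * q = Q) (r : ℤ) :
    p * (((ω⁻¹ ^ (A1 - A0) : ℂˣ) : ℂ) *
      starRingEnd ℂ ((r : ℂ) * (((ω ^ (A2 - A1) : ℂˣ) : ℂ) * q))) = P * r * starRingEnd ℂ Q := by
  have h1 : ((ω⁻¹ ^ (A1 - A0) : ℂˣ) : ℂ) = ((ω ^ A0 : ℂˣ) : ℂ) * ((ω ^ (-A1) : ℂˣ) : ℂ) := by
    rw [← Units.val_mul, ← zpow_add, inv_zpow', neg_sub, sub_eq_add_neg]
  have h2 : ((ω ^ (A2 - A1) : ℂˣ) : ℂ) = ((ω ^ A2 : ℂˣ) : ℂ) * ((ω ^ (-A1) : ℂˣ) : ℂ) := by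
    rw [← Units.val_mul, ← zpow_add, sub_eq_add_neg]
  have h3 := annb_unit hω (-A1)
  rw [h1, h2, ← hp, ← hq]
  simp only [map_mul, map_intCast]
  linear_combination (p * ((ω ^ A0 : ℂˣ) : ℂ) * (r : ℂ) * starRingEnd ℂ ((ω ^ A2 : ℂˣ) : ℂ)
    * starRingEnd ℂ q) * h3

lemma annb_null {n : Seifert g S → Seifert g S → ℤ} {A : Cov → ℤ} {N : ℤ} {ne : ℕ → ℤ}
    (h : Per g S n A N ne) {ω : ℂˣ} (hω : ‖(ω : ℂ)‖ = 1)
    {v v' : List (Seifert g S) → ℂ} {E E' : Disc → ℂ} (hr : Prim g S ω A v fun y => E y.1)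
    (hr' : Prim g S ω A v' fun y => E' y.1) :
    D 1 (annb_b g S n E E') - pull (pm g S) 1 (wf ω n v v') ∈ Null ℂ 3 (univ : Set Solid) := by
  intro y _
  obtain ⟨z, rfl⟩ := pc_surj y
  obtain ⟨U1, hU1, h1⟩ := h.prim z
  obtain ⟨U2, hU2, h2⟩ := hr z
  obtain ⟨U3, hU3, h3⟩ := hr' z
  refine ⟨pc '' (U1 ∩ U2 ∩ U3), isOpenMap_pc.image_mem_nhds (inter_mem (inter_mem hU1 hU2) hU3), ?_⟩
  intro l hl hU
  match l, hl, hU with
  | [y0, y1, y2, y3], _, hU =>
    obtain ⟨a0, ha0, rfl⟩ := hU y0 (by simp)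
    obtain ⟨a1, ha1, rfl⟩ := hU y1 (by simp)
    obtain ⟨a2, ha2, rfl⟩ := hU y2 (by simp)
    obtain ⟨a3, ha3, rfl⟩ := hU y3 (by simp)
    have n01 : n (pm g S (pc a0)) (pm g S (pc a1)) = A a1 - A a0 := h1 a0 ha0.1.1 a1 ha1.1.1
    have n12 : n (pm g S (pc a1)) (pm g S (pc a2)) = A a2 - A a1 := h1 a1 ha1.1.1 a2 ha2.1.1
    have n02 : n (pm g S (pc a0)) (pm g S (pc a2)) = A a2 - A a0 := h1 a0 ha0.1.1 a2 ha2.1.1
    have p01 := h2 a0 ha0.1.2 a1 ha1.1.2
    have q23 := h3 a2 ha2.2 a3 ha3.2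
    have hw : pull (pm g S) 1 (wf ω n v v') [pc a0, pc a1, pc a2, pc a3]
        = (E a1.1 - E a0.1) * ((A a2 - A a1 : ℤ) : ℂ) * starRingEnd ℂ (E' a3.1 - E' a2.1) := by
      rw [pull_cons, Pi.one_apply, one_mul]
      show wf ω n v v' [pm g S (pc a0), pm g S (pc a1), pm g S (pc a2), pm g S (pc a3)] = _
      rw [annb_wf, n01, n12]
      exact annb_key hω p01 q23 _
    rw [Pi.sub_apply, hw, D_four, annb_b_apply, annb_b_apply, annb_b_apply, annb_b_apply,
      n01, n12, n02]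
    simp only [pc, Pi.one_apply, map_sub]
    push_cast
    ring

lemma annb_mem {a m : ℕ} (ha : a ≤ m) : (a : ℝ) / m ∈ Icc (0 : ℝ) 1 :=
  ⟨by positivity, div_le_one_of_le₀ (by exact_mod_cast ha) (by positivity)⟩

lemma annb_sq {n : Seifert g S → Seifert g S → ℤ} {A : Cov → ℤ} {ne : ℕ → ℤ}
    {ω : ℂˣ} (hω : ‖(ω : ℂ)‖ = 1) {x x' : ZMod (LL g S) → ℂ}
    {v v' : List (Seifert g S) → ℂ} {E E' : Disc → ℂ} (hr : IsRep g S ω A ne x v E)
    (hr' : IsRep g S ω A ne x' v' E') {e m a c : ℕ} (he : e < NE g S) (ha : a < m) :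
    sqr (annb_b g S n E E') (fun a c => pc (uA g S e m a c)) a c
      - sqr (annb_b g S n E E') (fun a c => pc (uB g S e m a c)) a c
      = vv g (fun e => ((ω ^ ne e : ℂˣ) : ℂ)) x e * starRingEnd ℂ ((ω ^ ne e : ℂˣ) : ℂ) *
        ((n (pp g S (uA g S e m a c)) (pp g S (uA g S e m a (c + 1))) : ℂ) *
          starRingEnd ℂ (E' (bp (LL g S) (st g e + ((a + 1 : ℕ) : ℝ) / m))
            - E' (bp (LL g S) (st g e + (a : ℝ) / m)))) := by
  have m0 := annb_mem ha.le
  have m1 : ((a + 1 : ℕ) : ℝ) / m ∈ Icc (0 : ℝ) 1 := annb_mem ha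
  have gl : ∀ c' : ℕ, pm g S (pc (uB g S e m a c')) = pp g S (uA g S e m a c') :=
    fun c' => pp_glue he m0 _
  have gA : ∀ c' : ℕ, pm g S (pc (uA g S e m a c')) = pp g S (uA g S e m a c') := fun _ => rfl
  have fA : ∀ a' c' : ℕ, (pc (uA g S e m a' c')).1 = bp (LL g S) (st g e + (a' : ℝ) / m) :=
    fun _ _ => rfl
  have fB : ∀ a' c' : ℕ,
      (pc (uB g S e m a' c')).1 = bp (LL g S) (st g e + wd g e - (a' : ℝ) / m) := fun _ _ => rfl
  have hu := annb_unit hω (ne e)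
  simp only [sqr, annb_b_apply, fA, fB, gl, gA, sub_self, map_zero, mul_zero]
  rw [hr.arc e he _ m0, hr'.arc e he _ m0, hr'.arc e he _ m1]
  simp only [map_sub, map_add, map_mul]
  linear_combination (E (bp (LL g S) (st g e + (a : ℝ) / m)) *
    (n (pp g S (uA g S e m a c)) (pp g S (uA g S e m a (c + 1))) : ℂ) *
    (starRingEnd ℂ (E' (bp (LL g S) (st g e + ((a + 1 : ℕ) : ℝ) / m)))
      - starRingEnd ℂ (E' (bp (LL g S) (st g e + (a : ℝ) / m))))) * hu

theorem ev_wf {n : Seifert g S → Seifert g S → ℤ} {A : Cov → ℤ} {N : ℤ} {ne : ℕ → ℤ}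
    (h : Per g S n A N ne) {ω : ℂˣ} (hω : ‖(ω : ℂ)‖ = 1) {x x' : ZMod (LL g S) → ℂ}
    {v v' : List (Seifert g S) → ℂ} {E E' : Disc → ℂ} (hr : IsRep g S ω A ne x v E)
    (hr' : IsRep g S ω A ne x' v' E') :
    Ev g S (wf ω n v v') (-Complex.I * N * area g S (fun e => ((ω ^ ne e : ℂˣ) : ℂ)) x x') := by
  refine ⟨annb_b g S n E E', annb_null h hω hr.prim hr'.prim, ?_⟩
  obtain ⟨m₀, hm₀⟩ := fine (g := g) (S := S)
    (P := fun U => ∀ a ∈ U, ∀ b ∈ U, n (pp g S a) (pp g S b) = A b - A a) h.prim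
  refine ⟨max m₀ 1, fun m hm _ => ?_⟩
  have hm1 : 0 < m := le_trans (le_max_right _ _) hm
  have hmR : (m : ℝ) ≠ 0 := by positivity
  have hcol : ∀ e < NE g S, ∀ a < m, ∑ c ∈ Finset.range m,
      (n (pp g S (uA g S e m a c)) (pp g S (uA g S e m a (c + 1))) : ℂ) = N := by
    intro e he a ha
    have h1 : ∀ c ∈ Finset.range m,
        (n (pp g S (uA g S e m a c)) (pp g S (uA g S e m a (c + 1))) : ℂ)
          = (A (uA g S e m a (c + 1)) : ℂ) - A (uA g S e m a c) := by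
      intro c hc
      obtain ⟨⟨U, hU, hmem⟩, -⟩ := hm₀ m (le_trans (le_max_left _ _) hm) e he a ha.le c
        (Finset.mem_range.1 hc).le
      have := hU _ (hmem 0 (by omega) 0 (by omega)) _ (hmem 0 (by omega) 1 (by omega))
      simp only [add_zero] at this
      rw [this]
      push_cast
      ring
    rw [Finset.sum_congr rfl h1, Finset.sum_range_sub (fun c => (A (uA g S e m a c) : ℂ))]
    have h2 := h.per (bp (LL g S) (st g e + (a : ℝ) / m)) 0
    have h3 : uA g S e m a m = (bp (LL g S) (st g e + (a : ℝ) / m), 0 + 1) := by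
      simp [uA, ga, div_self hmR]
    have h4 : uA g S e m a 0 = (bp (LL g S) (st g e + (a : ℝ) / m), 0) := by
      simp [uA, ga]
    rw [h3, h4, h2]
    push_cast
    ring
  have harc : ∀ e ∈ Finset.range (NE g S), ∑ a ∈ Finset.range m, ∑ c ∈ Finset.range m,
      (sqr (annb_b g S n E E') (fun a c => pc (uA g S e m a c)) a c
        - sqr (annb_b g S n E E') (fun a c => pc (uB g S e m a c)) a c)
      = N * (vv g (fun e => ((ω ^ ne e : ℂˣ) : ℂ)) x e * starRingEnd ℂ ((ω ^ ne e : ℂˣ) : ℂ) *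
        starRingEnd ℂ (x' ((st g e + 1 : ℕ) : ZMod _) - x' ((st g e : ℕ) : ZMod _))) := by
    intro e he
    have he' := Finset.mem_range.1 he
    have h1 : ∀ a ∈ Finset.range m, ∑ c ∈ Finset.range m,
        (sqr (annb_b g S n E E') (fun a c => pc (uA g S e m a c)) a c
          - sqr (annb_b g S n E E') (fun a c => pc (uB g S e m a c)) a c)
        = N * (vv g (fun e => ((ω ^ ne e : ℂˣ) : ℂ)) x e * starRingEnd ℂ ((ω ^ ne e : ℂˣ) : ℂ)) *
          (starRingEnd ℂ (E' (bp (LL g S) (st g e + ((a + 1 : ℕ) : ℝ) / m)))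
            - starRingEnd ℂ (E' (bp (LL g S) (st g e + (a : ℝ) / m)))) := by
      intro a ha
      have ha' := Finset.mem_range.1 ha
      rw [Finset.sum_congr rfl fun c _ => annb_sq hω hr hr' he' ha', ← Finset.mul_sum,
        ← Finset.sum_mul, hcol e he' a ha', map_sub]
      ring
    rw [Finset.sum_congr rfl h1, ← Finset.mul_sum, Finset.sum_range_sub
      (fun a : ℕ => starRingEnd ℂ (E' (bp (LL g S) (st g e + (a : ℝ) / m)))), div_self hmR,
      map_sub, ← hr'.vert, ← hr'.vert]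
    push_cast
    rw [zero_div, add_zero]
    ring
  unfold evT
  rw [Finset.sum_congr rfl harc, ← Finset.mul_sum, area_apply]
  linear_combination (-(N : ℂ) * ∑ e ∈ Finset.range (NE g S),
    vv g (fun e => ((ω ^ ne e : ℂˣ) : ℂ)) x e * starRingEnd ℂ ((ω ^ ne e : ℂˣ) : ℂ) *
      starRingEnd ℂ (x' ((st g e + 1 : ℕ) : ZMod _) - x' ((st g e : ℕ) : ZMod _)))
    * (-Complex.I_mul_I)

end Pool.Agent.P.MP_3d25f3_gt
end

-- part Pool.Agent.P.MP_3d25f3_gt.NtA
section

set_option autoImplicit false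

open Set Filter Topology

namespace Pool.Agent.P.MP_3d25f3_gt

lemma saw_neg (x : ℚ) : saw (-x) = -saw x := by
  unfold saw
  by_cases h : Int.fract x = 0
  · rw [if_pos h, if_pos (Int.fract_neg_eq_zero.2 h), neg_zero]
  · rw [if_neg h, if_neg (fun h' => h (Int.fract_neg_eq_zero.1 h')), Int.fract_neg h]
    ring

lemma saw_add_int (x : ℚ) (k : ℤ) : saw (x + k) = saw x := by
  simp only [saw, Int.fract_add_intCast]

lemma nta_cons (q : ℕ × ℤ) (S : List (ℕ × ℤ)) (k : ℤ) :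
    jmp (q :: S) k = 2 * saw (k * q.2 / q.1) + jmp S k := by
  simp only [jmp, List.map_cons, List.sum_cons]; ring

lemma nta_zero (S : List (ℕ × ℤ)) : jmp S 0 = 0 := by
  induction S with
  | nil => simp [jmp]
  | cons q S ih => rw [nta_cons, ih]; simp [saw]

lemma jmp_neg (S : List (ℕ × ℤ)) (k : ℤ) : jmp S (-k) = -jmp S k := by
  induction S with
  | nil => simp [jmp]
  | cons q S ih =>
    rw [nta_cons, nta_cons, ih, show ((-k : ℤ) : ℚ) * q.2 / q.1 = -(k * q.2 / q.1) by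
      push_cast; ring, saw_neg]
    ring

lemma jmp_add {S : List (ℕ × ℤ)} {m : ℤ} (h : ∀ q ∈ S, (q.1 : ℤ) ∣ m) (k : ℤ) :
    jmp S (k + m) = jmp S k := by
  induction S with
  | nil => simp [jmp]
  | cons q S ih =>
    rw [nta_cons, nta_cons, ih fun q' hq' => h q' (List.mem_cons_of_mem _ hq')]
    obtain ⟨c, rfl⟩ := h q List.mem_cons_self
    by_cases h0 : (q.1 : ℚ) = 0
    · simp [h0]
    · rw [show ((k + q.1 * c : ℤ) : ℚ) * q.2 / q.1 = k * q.2 / q.1 + ((c * q.2 : ℤ) : ℚ) by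
        push_cast; field_simp, saw_add_int]

lemma jmp_of_dvd {S : List (ℕ × ℤ)} {m : ℤ} (h : ∀ q ∈ S, (q.1 : ℤ) ∣ m) : jmp S m = 0 := by
  simpa [nta_zero] using jmp_add h 0

lemma nta_period {S : List (ℕ × ℤ)} {m : ℕ} (h : ∀ q ∈ S, q.1 ∣ m) :
    ∑ j ∈ Finset.range m, jmp S j = 0 := by
  have hm : ∀ q ∈ S, (q.1 : ℤ) ∣ (m : ℤ) := fun q hq => Int.natCast_dvd_natCast.2 (h q hq)
  have h1 : ∑ j ∈ Finset.range (m + 1), jmp S j = ∑ j ∈ Finset.range m, jmp S j := by
    rw [Finset.sum_range_succ, jmp_of_dvd hm, add_zero]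
  have h2 := Finset.sum_flip (n := m) fun j : ℕ => jmp S j
  have h3 : ∑ j ∈ Finset.range (m + 1), jmp S ((m - j : ℕ) : ℤ) =
      -∑ j ∈ Finset.range (m + 1), jmp S j := by
    rw [← Finset.sum_neg_distrib]
    refine Finset.sum_congr rfl fun j hj => ?_
    rw [Nat.cast_sub (Nat.lt_succ_iff.1 (Finset.mem_range.1 hj)), sub_eq_neg_add, jmp_add hm,
      jmp_neg]
  linarith

lemma sum_jmp_mod {S : List (ℕ × ℤ)} {m : ℕ} (h : ∀ q ∈ S, q.1 ∣ m) {k k' : ℕ}
    (hk : k ≡ k' [MOD m]) :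
    ∑ j ∈ Finset.range k, jmp S j = ∑ j ∈ Finset.range k', jmp S j ∧ jmp S k = jmp S k' := by
  wlog hle : k ≤ k' generalizing k k'
  · have := this hk.symm (le_of_not_ge hle)
    exact ⟨this.1.symm, this.2.symm⟩
  obtain ⟨t, ht⟩ := (Nat.modEq_iff_dvd' hle).1 hk
  have hm : ∀ q ∈ S, q.1 ∣ m * t := fun q hq => (h q hq).mul_right t
  have hm' : ∀ q ∈ S, (q.1 : ℤ) ∣ ((m * t : ℕ) : ℤ) := fun q hq => Int.natCast_dvd_natCast.2 (hm q hq)
  obtain rfl : k' = m * t + k := by omega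
  constructor
  · rw [Finset.sum_range_add, nta_period hm, zero_add]
    refine Finset.sum_congr rfl fun j _ => ?_
    rw [Nat.cast_add, add_comm, jmp_add hm']
  · rw [Nat.cast_add, add_comm, jmp_add hm']

/-- choice of the residue -/
lemma exists_residue {n c p a k : ℕ} (hn : 0 < n) (hc : 0 < c) (hp : p.Prime) (hpc : ¬ p ∣ c)
    (hk : n ∣ k * p ^ a) : ∃ k' b, k' < c * n ∧ k' ≡ k [MOD n] ∧ c * n ∣ k' * p ^ b := by
  obtain ⟨e, n', h1, rfl⟩ := Nat.exists_eq_pow_mul_and_not_dvd hn.ne' p hp.one_lt.ne'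
  have hn' : 0 < n' := Nat.pos_of_mul_pos_left hn
  have c1 : n'.Coprime p := ((Nat.Prime.coprime_iff_not_dvd hp).2 h1).symm
  have c2 : c.Coprime p := ((Nat.Prime.coprime_iff_not_dvd hp).2 hpc).symm
  have h2 : n' ∣ k := (c1.pow_right a).dvd_of_dvd_mul_right ((Dvd.intro_left _ rfl).trans hk)
  have c3 : (p ^ e).Coprime (c * n') := ((Nat.Coprime.mul_left c2 c1).pow_right e).symm
  obtain ⟨k1, k2⟩ := (Nat.chineseRemainder c3 k 0).2
  have k3 := Nat.chineseRemainder_lt_mul c3 k 0 (pow_pos hp.pos e).ne' (Nat.mul_pos hc hn').ne'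
  set k' : ℕ := (Nat.chineseRemainder c3 k 0).1
  have k4 : c * n' ∣ k' := Nat.modEq_zero_iff_dvd.1 k2
  refine ⟨k', e, by rwa [mul_left_comm], ?_, ?_⟩
  · refine (Nat.modEq_and_modEq_iff_modEq_mul (c1.pow_right e).symm).1 ⟨k1, ?_⟩
    exact (Nat.modEq_zero_iff_dvd.2 ((Dvd.intro_left _ rfl).trans k4)).trans
      (Nat.modEq_zero_iff_dvd.2 h2).symm
  · rw [mul_left_comm, mul_comm]
    exact Nat.mul_dvd_mul_right k4 _

lemma nta_int {S : List (ℕ × ℤ)} (h : ∀ k : ℕ, jmp S k = 0) (k : ℤ) : jmp S k = 0 := by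
  obtain ⟨n, rfl | rfl⟩ := k.eq_nat_or_neg
  · exact h n
  · rw [jmp_neg, h n, neg_zero]

theorem jmp_zero_of_genus {S : List (ℕ × ℤ)}
    (h : ∀ k : ℕ, |∑ j ∈ Finset.range (k + 1), jmp S j| ≤ 0) (k : ℤ) : jmp S k = 0 := by
  refine nta_int (fun k => ?_) k
  rcases k with _ | k
  · exact nta_zero S
  · have h1 := abs_nonpos_iff.1 (h k)
    have h2 := abs_nonpos_iff.1 (h (k + 1))
    rwa [Finset.sum_range_succ, h1, zero_add] at h2

lemma nta_split (S : List (ℕ × ℤ)) (α : ℕ) (k : ℤ) : jmp S k =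
    jmp (S.filter fun q => q.1 = α) k + jmp (S.filter fun q => !decide (q.1 = α)) k := by
  induction S with
  | nil => simp [jmp]
  | cons q S ih =>
    by_cases h : q.1 = α
    · rw [List.filter_cons_of_pos (by simp [h]), List.filter_cons_of_neg (by simp [h]), nta_cons,
        nta_cons, ih, add_assoc]
    · rw [List.filter_cons_of_neg (by simp [h]), List.filter_cons_of_pos (by simp [h]), nta_cons,
        nta_cons, ih, add_left_comm]

lemma nta_sum (S : List (ℕ × ℤ)) (A : Finset ℕ) (hA : ∀ q ∈ S, q.1 ∈ A) (k : ℤ) :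
    jmp S k = ∑ α ∈ A, jmp (S.filter fun q => q.1 = α) k := by
  induction S with
  | nil => simp [jmp]
  | cons q S ih =>
    have e : ∀ α, jmp ((q :: S).filter fun q => q.1 = α) k =
        (if q.1 = α then 2 * saw (k * q.2 / q.1) else 0) + jmp (S.filter fun q => q.1 = α) k := by
      intro α
      by_cases h : q.1 = α
      · rw [List.filter_cons_of_pos (by simp [h]), nta_cons, if_pos h]
      · rw [List.filter_cons_of_neg (by simp [h]), if_neg h, zero_add]
    simp only [e, Finset.sum_add_distrib]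
    rw [Finset.sum_ite_eq, if_pos (hA q List.mem_cons_self), nta_cons,
      ih fun q' hq' => hA q' (List.mem_cons_of_mem _ hq')]

lemma nta_rec {S : List (ℕ × ℤ)}
    (h : ∀ k : ℕ, 2 * ∑ j ∈ Finset.range k, jmp S j + jmp S k = 0) (k : ℕ) : jmp S k = 0 := by
  induction k with
  | zero => exact nta_zero S
  | succ k ih =>
    have h1 := h k
    have h2 := h (k + 1)
    rw [Finset.sum_range_succ] at h2
    linarith

theorem jmp_zero_of_pp {S : List (ℕ × ℤ)} (h1 : ∀ q ∈ S, q.1 = 1 ∨ IsPrimePow q.1)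
    (h2 : ∀ q ∈ S, ∀ q' ∈ S, q.1 = q'.1 ∨ q.1.Coprime q'.1)
    (h : ∀ p a k : ℕ, p.Prime → (∀ q ∈ S, q.1 ∣ k * p ^ a) → (∃ q ∈ S, ¬ q.1 ∣ k) →
      |2 * ∑ j ∈ Finset.range k, jmp S j + jmp S k| ≤ S.countP fun q => p ∣ q.1 ∧ q.1 ∣ k)
    (k : ℤ) : jmp S k = 0 := by
  rw [nta_sum S (S.map Prod.fst).toFinset
    (fun q hq => List.mem_toFinset.2 (List.mem_map_of_mem hq))]
  refine Finset.sum_eq_zero fun α hα => ?_
  obtain ⟨q₀, hq₀, hα'⟩ := List.mem_map.1 (List.mem_toFinset.1 hα)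
  have hS : ∀ q ∈ S.filter fun q => q.1 = α, q.1 ∣ α := fun q hq => by
    rw [of_decide_eq_true (List.mem_filter.1 hq).2]
  rcases h1 q₀ hq₀ with e | e
  · refine jmp_of_dvd fun q hq => ?_
    rw [of_decide_eq_true (List.mem_filter.1 hq).2, ← hα', e]
    simp
  obtain ⟨p, a, hp, ha, hpa⟩ := (isPrimePow_nat_iff _).1 e
  have hpα : p ∣ α := by rw [← hα', ← hpa]; exact dvd_pow_self p ha.ne'
  set T := S.filter fun q => !decide (q.1 = α) with hT
  have hTc : ∀ q ∈ T, q.1.Coprime α := fun q hq => by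
    obtain ⟨k1, k2⟩ := List.mem_filter.1 hq
    rw [← hα']
    refine (h2 q k1 q₀ hq₀).resolve_left fun k3 => ?_
    simp [k3, hα'] at k2
  have hTm : ∀ q ∈ T, q.1 ∣ (T.map Prod.fst).prod := fun q hq =>
    List.dvd_prod (List.mem_map_of_mem hq)
  have hco : α.Coprime (T.map Prod.fst).prod := by
    rw [Nat.coprime_list_prod_right_iff]
    intro n hn
    obtain ⟨q, hq, rfl⟩ := List.mem_map.1 hn
    exact (hTc q hq).symm
  refine nta_int (nta_rec fun k₀ => ?_) k
  by_cases hk : α ∣ k₀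
  · obtain ⟨k1, k2⟩ := sum_jmp_mod hS (Nat.modEq_zero_iff_dvd.2 hk)
    rw [k1, k2]
    simp [nta_zero]
  obtain ⟨k', l1, l2⟩ := Nat.chineseRemainder hco k₀ 0
  have l3 : ¬ α ∣ k' := fun h' => hk ((l1.dvd_iff dvd_rfl).1 h')
  have l4 : ∀ q ∈ S, q.1 = α ∨ q ∈ T := fun q hq => by
    by_cases e : q.1 = α
    · exact Or.inl e
    · exact Or.inr (List.mem_filter.2 ⟨hq, by simp [e]⟩)
  have l5 := h p a k' hp (fun q hq => by
    rcases l4 q hq with e | e
    · rw [e, ← hα', ← hpa]; exact Dvd.intro_left _ rfl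
    · exact ((hTm q e).trans (Nat.modEq_zero_iff_dvd.1 l2)).mul_right _) ⟨q₀, hq₀, hα' ▸ l3⟩
  have l6 : (S.countP fun q => p ∣ q.1 ∧ q.1 ∣ k') = 0 := by
    refine List.countP_eq_zero.2 fun q hq hq' => ?_
    obtain ⟨m1, m2⟩ := of_decide_eq_true hq'
    rcases l4 q hq with e | e
    · exact l3 (e ▸ m2)
    · exact hp.one_lt.ne' (Nat.eq_one_of_dvd_coprimes (hTc q e) m1 hpα)
  rw [l6, Nat.cast_zero, abs_nonpos_iff] at l5
  obtain ⟨n1, n2⟩ := sum_jmp_mod hS l1
  obtain ⟨n3, n4⟩ := sum_jmp_mod hTm l2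
  simp only [nta_split S α, Finset.sum_add_distrib, ← hT] at l5
  rw [n1, n2, n3, n4] at l5
  simpa [nta_zero] using l5

end Pool.Agent.P.MP_3d25f3_gt
end

-- part Pool.Agent.P.MP_3d25f3_gt.Brg
section

set_option autoImplicit false

open Set Filter Topology

namespace Pool.Agent.P.MP_3d25f3_gt

open Module

variable {g : ℕ} {S : List (ℕ × ℤ)} {s : Side (Seifert g S)} {A : Cov → ℤ} {N : ℕ} {ne : ℕ → ℤ}

lemma ev_of_int (hS : Data S) {w : List E4 → ℂ} (hw : w ∈ Zc (1 : E4 → E4 → ℂ) 3 (s.X ∩ s.Y) ∅)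
    {c : ℂ} (h : Ev g S (pull s.e 1 w) c) (h0 : intM ℂ s.xy (cl w hw) = 0) : c = 0 := by
  obtain ⟨Φ, hΦ⟩ := s.equiv_one ℂ 3
  obtain ⟨h', e⟩ := hΦ w hw
  have h1 : cl w hw = 0 := intM_inj s.xy (s.inter ▸ isPreconnected_range s.cont)
    (h0.trans (map_zero _).symm)
  rw [h1, map_zero] at e
  exact h.zero hS ((cl_eq_zero h').1 e.symm)

lemma exists_theta' (hS : Data S) (h : Per g S s.nM A N ne) {ω : ℂˣ} (hω : ‖(ω : ℂ)‖ = 1)
    (hN : ω ^ (N : ℤ) = 1) (hne : ∃ e < NE g S, ω ^ ne e ≠ 1)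
    {W : SF (H (tw ω s.n) 1 (s.X ∩ s.Y) ∅)} (hW : IsW s.xy ω s.n W) :
    ∃ Θ : Pol g S (fun e => ((ω ^ ne e : ℂˣ) : ℂ)) →ₗ[ℂ] H (tw ω s.n) 1 (s.X ∩ s.Y) ∅,
      Function.Surjective Θ ∧ ∀ x x', ∃ w hw, W (Θ x) (Θ x') = intM ℂ s.xy (cl w hw) ∧
        Ev g S (pull s.e 1 w)
          (-Complex.I * N * area g S (fun e => ((ω ^ ne e : ℂˣ) : ℂ)) x.1 x'.1) := by
  have := s.t2
  obtain ⟨Θ, hΘ, hr⟩ := exists_theta hS s.cocM h hN hne
  obtain ⟨Φ, hΦ⟩ := s.equiv ω 1
  refine ⟨Φ.symm.toLinearMap ∘ₗ Θ, Φ.symm.surjective.comp hΘ, fun x x' => ?_⟩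
  obtain ⟨v, hv, E, hE, e⟩ := hr x
  obtain ⟨v', hv', E', hE', e'⟩ := hr x'
  obtain ⟨u, hu, f⟩ := cl_surj (Φ.symm (Θ x))
  obtain ⟨u', hu', f'⟩ := cl_surj (Φ.symm (Θ x'))
  obtain ⟨hw, hW'⟩ := hW u hu u' hu'
  refine ⟨_, hw, ?_, ?_⟩
  · rw [← hW', f, f']; rfl
  obtain ⟨h1, e1⟩ := hΦ u hu
  obtain ⟨h2, e2⟩ := hΦ u' hu'
  rw [f, LinearEquiv.apply_symm_apply, e, cl_eq] at e1
  rw [f', LinearEquiv.apply_symm_apply, e', cl_eq] at e2
  refine (ev_wf h hω hE hE').congr ?_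
  have h3 := wf_Bc s.cocM hω hv hv' e1 e2
  have h4 : wf ω s.nM (pull s.e 1 u) (pull s.e 1 u') - pull s.e 1 (wf ω s.n u u')
      ∈ Null ℂ 3 (univ : Set (Seifert g S)) := by
    refine fun y _ => ⟨univ, univ_mem, fun l hl _ => ?_⟩
    match l, hl with
    | [a, b, c, d], _ => simp [wf, cup, co1, tw, Side.nM]
  have := add_mem h3 (Null_le_Bc _ _ _ _ h4)
  rwa [sub_add_sub_cancel] at this

/-- comparison of signatures through a coisotropic subspace -/
lemma sgn_transfer {P V K : Type} [AddCommGroup P] [Module ℂ P] [AddCommGroup V] [Module ℂ V]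
    [AddCommGroup K] [Module ℂ K] [FiniteDimensional ℂ P] [FiniteDimensional ℂ K] {a : SF P}
    (ha : Herm a) {W : SF V} {B : SF K} (hB : Herm B) {Θ : P →ₗ[ℂ] V} (hΘ : Function.Surjective Θ)
    {κ : ℂ} (hκ : κ ≠ 0) (h : ∀ x y, a x y = κ * (Complex.I * W (Θ x) (Θ y))) {Q : Submodule ℂ V}
    {π : Q →ₗ[ℂ] K} (hπ : Function.Surjective π) (h1 : ∀ v v' : Q, B (π v) (π v') = Complex.I * W v v')
    (h2 : ∀ v, (∀ q ∈ Q, W v q = 0) → v ∈ Q) :
    sgn B = (if 0 < κ.re then 1 else -1) * sgn a := by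
  have : FiniteDimensional ℂ V := Module.Finite.of_surjective Θ hΘ
  set B₀ : SF V := (κ * Complex.I) • W with hB₀
  have e0 : ∀ x y, B₀ x y = κ * (Complex.I * W x y) := fun x y => by simp [hB₀, mul_assoc]
  have ea : a = cmp B₀ Θ := by ext x y; simp [h, e0]
  have hH : Herm B₀ := by
    intro x y
    obtain ⟨x, rfl⟩ := hΘ x
    obtain ⟨y, rfl⟩ := hΘ y
    rw [e0, e0, ← h, ← h]
    exact ha x y
  have e1 : sgn a = sgn (cmp B₀ Q.subtype) := by
    rw [ea, sgn_cmp_surj _ hΘ, sgn_coiso hH]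
    refine fun v hv => h2 v fun q hq => ?_
    have := hv q hq
    rw [e0] at this
    simpa [hκ] using this
  have e2 : ∀ v : Q, cmp B₀ Q.subtype v v = κ * cmp B π v v := fun v => by simp [e0, h1]
  have e3 : ∀ v : Q, (cmp B π v v).im = 0 := fun v =>
    Complex.conj_eq_iff_im.1 (hB (π v) (π v)).symm
  have e4 : ∀ v : Q, (cmp B₀ Q.subtype v v).im = 0 := fun v =>
    Complex.conj_eq_iff_im.1 (hH v v).symm
  have e5 : ∀ v : Q, (cmp B₀ Q.subtype v v).re = κ.re * (cmp B π v v).re := fun v => by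
    rw [e2, Complex.mul_re, e3]; ring
  rw [e1, ← sgn_cmp_surj B hπ]
  rcases lt_trichotomy 0 κ.re with hp | hp | hp
  · rw [if_pos hp, one_mul, sgn_of_scale hp e5]
  · have him : κ.im ≠ 0 := fun h0 => hκ (Complex.ext hp.symm h0)
    have e6 : ∀ v : Q, (cmp B π v v).re = 0 := fun v => by
      have := e4 v
      rw [e2, Complex.mul_im, e3, mul_zero, zero_add] at this
      exact (mul_eq_zero.1 this).resolve_left him
    rw [sgn_of_zero e6, sgn_of_zero fun v => by rw [e5, e6, mul_zero], mul_zero]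
  · rw [if_neg hp.not_gt, sgn_of_scale_neg hp e5]; ring

theorem bridge (hS : Data S) (h : Per g S s.nM A N ne) (hN : 0 < N) (hp : Primi g S N ne)
    {U : Set E4} {hx : XN s.X s.Y U s.n} {ρ : ℕ} {G G₁ : ℝ → SF (Fin ρ → ℂ)}
    (hF : Family hx N ρ G G₁) : (∀ k, jmp S k = 0) ∨ ∃ η : ℚ, (η = 1 ∨ η = -1) ∧ ∀ k : ℤ,
      ¬ (N : ℤ) ∣ k →
        (sgn (cmp (G₁ (th N k)) (LinearMap.ker (G (th N k))).subtype) : ℚ) = η * jmp S k := by
  obtain ⟨κ, hκ⟩ : ∃ κ : ℂ, ∀ (w : List E4 → ℂ) (hw : w ∈ Zc (1 : E4 → E4 → ℂ) 3 (s.X ∩ s.Y) ∅)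
      (c : ℂ), Ev g S (pull s.e 1 w) c → c = κ * intM ℂ s.xy (cl w hw) := by
    by_cases hex : ∃ (w : List E4 → ℂ) (hw : w ∈ Zc (1 : E4 → E4 → ℂ) 3 (s.X ∩ s.Y) ∅) (c : ℂ),
        Ev g S (pull s.e 1 w) c ∧ intM ℂ s.xy (cl w hw) ≠ 0
    · obtain ⟨w₀, hw₀, c₀, h₀, hI⟩ := hex
      refine ⟨c₀ / intM ℂ s.xy (cl w₀ hw₀), fun w hw c hc => ?_⟩
      have h1 := hc.lin h₀ (intM ℂ s.xy (cl w₀ hw₀)) (-intM ℂ s.xy (cl w hw))
      rw [← map_smul, ← map_smul, ← map_add] at h1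
      have h2 := ev_of_int hS (add_mem (Submodule.smul_mem _ _ hw) (Submodule.smul_mem _ _ hw₀)) h1
        (by rw [cl_add (Submodule.smul_mem _ _ hw) (Submodule.smul_mem _ _ hw₀), cl_smul _ hw,
              cl_smul _ hw₀, map_add, map_smul, map_smul, smul_eq_mul, smul_eq_mul]; ring)
      field_simp
      linear_combination h2
    · push Not at hex
      exact ⟨0, fun w hw c hc => by rw [zero_mul]; exact ev_of_int hS hw hc (hex w hw c hc)⟩
  have hN' : (N : ℂ) ≠ 0 := by exact_mod_cast hN.ne'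
  have key : ∀ k : ℤ, ¬ (N : ℤ) ∣ k → ∃ (P : Type) (_ : AddCommGroup P) (_ : Module ℂ P)
      (_ : FiniteDimensional ℂ P) (a : SF P) (W : SF (H (tw (cu (th N k)) s.n) 1 (s.X ∩ s.Y) ∅))
      (Θ : P →ₗ[ℂ] H (tw (cu (th N k)) s.n) 1 (s.X ∩ s.Y) ∅), Herm a ∧ (sgn a : ℚ) = -jmp S k ∧
      IsW hx.xy (cu (th N k)) s.n W ∧ Function.Surjective Θ ∧
      ∀ x y, a x y = κ / N * (Complex.I * W (Θ x) (Θ y)) := by
    intro k hk
    obtain ⟨W, hW⟩ := exists_W hx (norm_cu (th N k))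
    have hω : cu (th N k) ^ (N : ℤ) = 1 := (cu_pow_eq_one hN _).2 ⟨k, rfl⟩
    have hne : ∃ e < NE g S, cu (th N k) ^ ne e ≠ 1 := by
      by_contra hc
      push Not at hc
      exact hk ((cu_th_eq_one hN k).1 (hp _ hω hc))
    obtain ⟨Θ, hΘ, hv⟩ := exists_theta' hS h (norm_cu _) hω hne hW
    have hρ : ∀ e, ‖((cu (th N k) ^ ne e : ℂˣ) : ℂ)‖ = 1 := fun e => by
      rw [Units.val_zpow_eq_zpow_val, norm_zpow, norm_cu, one_zpow]
    refine ⟨_, _, _, inferInstance, cmp (area g S _) (Pol g S _).subtype, W, Θ, area_herm hρ,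
      area_sgn hS hρ k fun i hi => cu_th_slit hS h hN k hi, hW, hΘ, fun x y => ?_⟩
    obtain ⟨w, hw, e1, e2⟩ := hv x y
    have e3 := hκ w hw _ e2
    rw [← e1] at e3
    rw [cmp_apply, Submodule.subtype_apply, Submodule.subtype_apply]
    field_simp
    linear_combination Complex.I * e3
      + (N * area g S (fun e => ((cu (th N k) ^ ne e : ℂˣ) : ℂ)) x.1 y.1) * Complex.I_mul_I
  by_cases h0 : κ = 0
  · refine Or.inl fun k => ?_
    by_cases hk : (N : ℤ) ∣ k
    · exact jmp_of_dvd fun q hq => (h.dvd hS hq).trans hk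
    · obtain ⟨P, _, _, _, a, W, Θ, -, h2, -, -, h5⟩ := key k hk
      rw [sgn_of_zero fun x => by simp [h5, h0]] at h2
      simpa using h2
  refine Or.inr ⟨-(if 0 < (κ / N).re then 1 else -1), by split_ifs <;> simp, fun k hk => ?_⟩
  obtain ⟨P, _, _, _, a, W, Θ, h1, h2, h3, h4, h5⟩ := key k hk
  obtain ⟨Q, π, hπ, h6, h7⟩ := hF.res _ ((cu_pow_eq_one hN _).2 ⟨k, rfl⟩) W h3
  have hH : Herm (cmp (G₁ (th N k)) (LinearMap.ker (G (th N k))).subtype) := by
    intro x y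
    have d1 := hF.der (th N k) y x
    have d2 := (hF.der (th N k) x y).star
    have : (fun u => G u y x) = fun u => star (G u x y) := funext fun u => hF.herm u x y
    rw [this] at d1
    exact d1.unique d2
  rw [sgn_transfer h1 hH h4 (div_ne_zero h0 hN') h5 hπ h6 h7]
  push_cast
  rw [h2]
  split_ifs <;> ring

end Pool.Agent.P.MP_3d25f3_gt
end

-- part Pool.Agent.P.MP_3d25f3_gt.Bet
section

set_option autoImplicit false

open Set Filter Topology

namespace Pool.Agent.P.MP_3d25f3_gt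

open Module

variable {g : ℕ} {S : List (ℕ × ℤ)} {k : Type} [Field k]

/-- primitive and periods of an untwisted cocycle -/
def bet_Dat (g : ℕ) (S : List (ℕ × ℤ)) (v : List (Seifert g S) → k) (vh : k) (ve : ℕ → k) : Prop :=
  ∃ E : Cov → k, Prim g S (1 : kˣ) (fun _ => 0) v E ∧ (∀ y z, E (y, z + 1) = E (y, z) + vh) ∧
    ∀ e < NE g S, ∀ s ∈ Icc (0 : ℝ) 1, ∀ z, E (gb g S e s z) = E (ga g S e s z) + ve e

lemma bet_per : Per g S (fun _ _ => 0) (fun _ => 0) 0 (fun _ => 0) :=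
  ⟨fun _ => ⟨univ, univ_mem, fun _ _ _ _ => by simp⟩, fun _ _ => by simp,
    fun _ _ _ _ _ => by simp⟩

lemma bet_coc : CocZ (fun _ _ : Seifert g S => (0 : ℤ)) univ :=
  fun _ _ => ⟨univ, univ_mem, fun _ _ _ _ _ _ => by simp⟩

lemma bet_tw : tw (1 : kˣ) (fun _ _ : Seifert g S => (0 : ℤ)) = 1 := by
  funext x y
  simp [tw]

lemma bet_ex {v : List (Seifert g S) → k}
    (hv : v ∈ Zc (1 : Seifert g S → Seifert g S → k) 1 univ ∅) : ∃ vh ve, bet_Dat g S v vh ve := by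
  rw [← bet_tw] at hv
  obtain ⟨E, hE⟩ := exists_prim bet_per hv
  obtain ⟨vh, ve, h1, h2⟩ := Prim.data bet_per hE
  refine ⟨vh, ve, E, hE, fun y z => ?_, fun e he s hs z => ?_⟩
  · simpa using h1 y z
  · simpa using h2 e he s hs z

lemma bet_lin {v v' : List (Seifert g S) → k} {vh vh' : k} {ve ve' : ℕ → k}
    (h : bet_Dat g S v vh ve) (h' : bet_Dat g S v' vh' ve') (a b : k) :
    bet_Dat g S (a • v + b • v') (a * vh + b * vh') (fun e => a * ve e + b * ve' e) := by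
  obtain ⟨E, hE, h1, h2⟩ := h
  obtain ⟨E', hE', h1', h2'⟩ := h'
  refine ⟨_, hE.sub hE' a b, fun y z => ?_, fun e he s hs z => ?_⟩
  · simp only [h1, h1']
    ring
  · simp only [h2 e he s hs z, h2' e he s hs z]
    ring

lemma bet_zero {v : List (Seifert g S) → k} {vh : k} {ve : ℕ → k} (h : bet_Dat g S v vh ve)
    (hv : v ∈ Bc (1 : Seifert g S → Seifert g S → k) 1 univ ∅) :
    vh = 0 ∧ ∀ e < NE g S, ve e = 0 := by
  obtain ⟨E, hE, h1, h2⟩ := h
  rw [← bet_tw] at hv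
  obtain ⟨C, h3, h4⟩ := Prim.of_Bc bet_per hv hE
  refine ⟨?_, fun e he => ?_⟩
  · have h5 := h3 ⟨0, by simp⟩ 0
    rw [h1] at h5
    simp only [zpow_zero, Units.val_one, one_mul] at h5
    linear_combination h5
  · have h5 := h4 e he 0 ⟨le_rfl, zero_le_one⟩ 0
    rw [h2 e he 0 ⟨le_rfl, zero_le_one⟩ 0] at h5
    simp only [zpow_zero, Units.val_one, one_mul] at h5
    linear_combination h5

lemma bet_mem [T2Space (Seifert g S)] {v : List (Seifert g S) → k} {vh : k} {ve : ℕ → k}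
    (h : bet_Dat g S v vh ve) (hv : v ∈ Zc (1 : Seifert g S → Seifert g S → k) 1 univ ∅)
    (h1 : vh = 0) (h2 : ∀ e < NE g S, ve e = 0) :
    v ∈ Bc (1 : Seifert g S → Seifert g S → k) 1 univ ∅ := by
  obtain ⟨E, hE, h3, h4⟩ := h
  rw [← bet_tw] at hv ⊢
  refine Prim.mem_Bc bet_coc bet_per hv hE (fun y z => ?_) (fun e he s hs z => ?_)
  · simp [h3, h1]
  · simp [h4 e he s hs z, h2 e he]

lemma bet_uniq {v v' : List (Seifert g S) → k} {vh vh' : k} {ve ve' : ℕ → k}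
    (h : bet_Dat g S v vh ve) (h' : bet_Dat g S v' vh' ve')
    (hv : v - v' ∈ Bc (1 : Seifert g S → Seifert g S → k) 1 univ ∅) :
    vh = vh' ∧ ∀ e < NE g S, ve e = ve' e := by
  have h1 := bet_lin h h' 1 (-1)
  rw [show (1 : k) • v + (-1 : k) • v' = v - v' by simp [sub_eq_add_neg]] at h1
  obtain ⟨h2, h3⟩ := bet_zero h1 hv
  refine ⟨by linear_combination h2, fun e he => ?_⟩
  linear_combination h3 e he

lemma bet_int {f : ℝ → k} {c : ℝ} {a : k} (h : ∀ z, f (z + c) = f z + a) (m : ℤ) (z : ℝ) :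
    f (z + m * c) = f z + m * a := by
  induction m using Int.induction_on with
  | zero => simp
  | succ i ih =>
    have h1 := h (z + ((i : ℤ) : ℝ) * c)
    rw [show z + (((i : ℤ) + 1 : ℤ) : ℝ) * c = z + ((i : ℤ) : ℝ) * c + c by push_cast; ring, h1, ih]
    push_cast
    ring
  | pred i ih =>
    have h1 := h (z + ((-(i : ℤ) - 1 : ℤ) : ℝ) * c)
    rw [show z + ((-(i : ℤ) - 1 : ℤ) : ℝ) * c + c = z + ((-(i : ℤ) : ℤ) : ℝ) * c by
      push_cast; ring, ih] at h1
    push_cast at h1 ⊢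
    linear_combination -h1

lemma bet_slit (hS : Data S) {v : List (Seifert g S) → k} {vh : k} {ve : ℕ → k}
    (h : bet_Dat g S v vh ve) {e : ℕ} (h1 : 2 * g ≤ e) (h2 : e < NE g S) :
    (pr g S e).1 * ve e = (pr g S e).2 * vh := by
  obtain ⟨E, -, h3, h4⟩ := h
  have hw : wd g e = 2 := by simp [wd, not_lt.2 h1]
  have h5 : ∀ z, E (bp (LL g S) (st g e + 1), z + sh g S e)
      = E (bp (LL g S) (st g e + 1), z) + ve e := by
    intro z
    have h6 := h4 e h2 1 ⟨zero_le_one, le_rfl⟩ z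
    simp only [ga, gb, hw, one_mul] at h6
    rw [show ((st g e : ℝ) + ((2 : ℕ) : ℝ) - 1) = st g e + 1 by push_cast; ring] at h6
    exact h6
  have h6 := bet_int (f := fun z => E (bp (LL g S) (st g e + 1), z)) h5 ((pr g S e).1 : ℤ) 0
  have h7 := bet_int (f := fun z => E (bp (LL g S) (st g e + 1), z)) (h3 _) (pr g S e).2 0
  have h8 : ((pr g S e).1 : ℝ) ≠ 0 := by
    have := (pr_data (g := g) hS e).1
    positivity
  rw [show (((pr g S e).1 : ℤ) : ℝ) * sh g S e = ((pr g S e).2 : ℝ) * 1 by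
    rw [sh]; push_cast; field_simp] at h6
  rw [h7] at h6
  push_cast at h6
  linear_combination -h6

lemma bet_sum {v : List (Seifert g S) → k} {vh : k} {ve : ℕ → k} (h : bet_Dat g S v vh ve) :
    ∑ e ∈ Finset.range (NE g S), (if 2 * g ≤ e then ve e else 0) = 0 := by
  obtain ⟨E, -, -, h4⟩ := h
  have h1 := tel (g := g) (S := S) (fun j : ℕ => E (bp (LL g S) j, 0))
  have h2 : bp (LL g S) ((0 : ℕ) : ℝ) = bp (LL g S) ((LL g S : ℕ) : ℝ) :=
    (bp_eq_iff (NeZero.ne _) _ _).2 ⟨1, by simp⟩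
  simp only [h2, sub_self] at h1
  refine Eq.trans ?_ h1
  refine Finset.sum_congr rfl fun e he => ?_
  have he' := Finset.mem_range.1 he
  have h5 := h4 e he' 0 ⟨le_rfl, zero_le_one⟩ 0
  simp only [ga, gb, zero_mul, add_zero, sub_zero] at h5
  have h7 : ((st g e + wd g e - 1 : ℕ) : ℝ) = st g e + wd g e - 1 := by
    have := wd_ge (g := g) e
    rw [Nat.cast_sub (by omega)]
    push_cast
    ring
  rw [h7]
  push_cast
  split_ifs with hc
  · have hw : wd g e = 2 := by simp [wd, not_lt.2 hc]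
    rw [h5, hw, show ((st g e : ℝ) + ((2 : ℕ) : ℝ) - 1) = st g e + 1 by push_cast; ring]
    ring
  · have h6 := h4 e he' 1 ⟨zero_le_one, le_rfl⟩ 0
    have hs : sh g S e = 0 := by simp [sh, pr, not_le.1 hc]
    simp only [ga, gb, hs, mul_zero, add_zero] at h6
    rw [h5, h6]
    ring

/-- the periods of an untwisted class -/
lemma exists_periods [T2Space (Seifert g S)] (hS : Data S) :
    ∃ Φ : H (1 : Seifert g S → Seifert g S → k) 1 univ ∅ →ₗ[k] k × (Fin (NE g S) → k),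
      Function.Injective Φ ∧ ∀ x,
        (∀ e : Fin (NE g S), 2 * g ≤ e → (pr g S e).1 * (Φ x).2 e = (pr g S e).2 * (Φ x).1) ∧
        ∑ e : Fin (NE g S), (if 2 * g ≤ e then (Φ x).2 e else 0) = 0 := by
  choose r hr hc using fun x : H (1 : Seifert g S → Seifert g S → k) 1 univ ∅ => cl_surj x
  choose vh ve hd using fun x => bet_ex (hr x)
  have hl : ∀ (a b : k) x y, vh (a • x + b • y) = a * vh x + b * vh y ∧
      ∀ e < NE g S, ve (a • x + b • y) e = a * ve x e + b * ve y e := by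
    intro a b x y
    refine bet_uniq (hd _) (bet_lin (hd x) (hd y) a b) ?_
    refine (cl_eq (hr _) (add_mem (Submodule.smul_mem _ a (hr x))
      (Submodule.smul_mem _ b (hr y)))).1 ?_
    rw [cl_add (Submodule.smul_mem _ a (hr x)) (Submodule.smul_mem _ b (hr y)), cl_smul a (hr x),
      cl_smul b (hr y), hc, hc, hc]
  refine ⟨⟨⟨fun x => (vh x, fun e => ve x e), fun x y => ?_⟩, fun a x => ?_⟩, ?_, fun x => ⟨?_, ?_⟩⟩
  · have h1 := hl 1 1 x y
    simp only [one_smul, one_mul] at h1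
    exact Prod.ext h1.1 (funext fun e => h1.2 e e.2)
  · have h1 := hl a 0 x x
    simp only [zero_smul, zero_mul, add_zero] at h1
    exact Prod.ext h1.1 (funext fun e => h1.2 e e.2)
  · refine (injective_iff_map_eq_zero _).2 fun x hx => ?_
    have h1 : vh x = 0 := congrArg Prod.fst hx
    have h2 : ∀ e < NE g S, ve x e = 0 := fun e he => congrFun (congrArg Prod.snd hx) ⟨e, he⟩
    rw [← hc x]
    exact (cl_eq_zero (hr x)).2 (bet_mem (hd x) (hr x) h1 h2)
  · exact fun e he => bet_slit hS (hd x) he e.2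
  · exact (Fin.sum_univ_eq_sum_range (fun e => if 2 * g ≤ e then ve x e else 0) _).trans
      (bet_sum (hd x))

lemma bet_fin {V ι : Type} [AddCommGroup V] [Module k V] [Fintype ι] (f : ι → V →ₗ[k] k)
    (h : ∀ x, (∀ i, f i x = 0) → x = 0) : finrank k V ≤ Fintype.card ι := by
  rw [← finrank_fintype_fun_eq_card k]
  refine LinearMap.finrank_le_finrank_of_injective (f := LinearMap.pi f) ?_
  exact (injective_iff_map_eq_zero _).2 fun x hx => h x fun i => congrFun hx i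

lemma bet_lt (i : Fin (2 * g)) : (i : ℕ) < NE g S := by
  have := i.2
  unfold NE
  omega

theorem b1_le [T2Space (Seifert g S)] (hS : Data S) (h : ∀ p ∈ S, (p.1 : k) ≠ 0) :
    finrank k (H (1 : Seifert g S → Seifert g S → k) 1 univ ∅) ≤ 2 * g + 1 := by
  obtain ⟨Φ, hi, hΦ⟩ := exists_periods (g := g) (k := k) hS
  have h1 := bet_fin (ι := Option (Fin (2 * g))) (fun i => match i with
    | none => (LinearMap.fst k _ _).comp Φ
    | some i => ((LinearMap.proj (⟨i, bet_lt i⟩ : Fin (NE g S))).comp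
        (LinearMap.snd k _ _)).comp Φ) ?_
  · simpa using h1
  intro x hx
  have h0 : (Φ x).1 = 0 := hx none
  refine hi ?_
  rw [map_zero]
  refine Prod.ext h0 (funext fun e => ?_)
  by_cases he : (e : ℕ) < 2 * g
  · exact hx (some ⟨e, he⟩)
  · have h2 := (hΦ x).1 e (not_lt.1 he)
    rw [h0, mul_zero] at h2
    refine (mul_eq_zero.1 h2).resolve_left ?_
    rw [pr, if_neg he]
    by_cases hl : (e : ℕ) - 2 * g < S.length
    · rw [List.getD_eq_getElem _ _ hl]
      exact h _ (List.getElem_mem hl)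
    · rw [List.getD_eq_default _ _ (not_lt.1 hl)]
      simp

open Classical in
theorem b1_le' [T2Space (Seifert g S)] (hS : Data S) (h : ∃ p ∈ S, (p.1 : k) = 0) :
    finrank k (H (1 : Seifert g S → Seifert g S → k) 1 univ ∅) + 1 ≤ 2 * g +
      ((Finset.range (S.length + 1)).filter fun i => ((pr g S (2 * g + i)).1 : k) = 0).card := by
  obtain ⟨Φ, hi, hΦ⟩ := exists_periods (g := g) (k := k) hS
  obtain ⟨p, hp, hp0⟩ := h
  obtain ⟨i0, hi0, rfl⟩ := List.getElem_of_mem hp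
  set T := (Finset.range (S.length + 1)).filter fun i => ((pr g S (2 * g + i)).1 : k) = 0 with hT
  have hpr : ((pr g S (2 * g + i0)).1 : k) = 0 := by
    rw [pr, if_neg (by omega), Nat.add_sub_cancel_left, List.getD_eq_getElem _ _ hi0]
    exact hp0
  have hm : i0 ∈ T := Finset.mem_filter.2 ⟨Finset.mem_range.2 (by omega), hpr⟩
  have hlt : ∀ i : (T.erase i0), 2 * g + (i : ℕ) < NE g S := fun i => by
    have := Finset.mem_range.1 (Finset.mem_filter.1 (Finset.mem_of_mem_erase i.2)).1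
    unfold NE
    omega
  have hlt0 : 2 * g + i0 < NE g S := by
    unfold NE
    omega
  have h1 := bet_fin (ι := Fin (2 * g) ⊕ (T.erase i0)) (fun i => match i with
    | Sum.inl i => ((LinearMap.proj (⟨i, bet_lt i⟩ : Fin (NE g S))).comp
        (LinearMap.snd k _ _)).comp Φ
    | Sum.inr i => ((LinearMap.proj (⟨2 * g + i, hlt i⟩ : Fin (NE g S))).comp
        (LinearMap.snd k _ _)).comp Φ) ?_
  · have h2 := Finset.card_erase_add_one hm
    simp only [Fintype.card_sum, Fintype.card_fin, Fintype.card_coe] at h1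
    omega
  intro x hx
  have h0 : (Φ x).1 = 0 := by
    have h2 := (hΦ x).1 ⟨2 * g + i0, hlt0⟩ (Nat.le_add_right _ _)
    simp only [hpr, zero_mul] at h2
    refine (mul_eq_zero.1 h2.symm).resolve_left fun h3 => ?_
    obtain ⟨u, w, huw⟩ := Int.isCoprime_iff_gcd_eq_one.2 (pr_data (g := g) hS (2 * g + i0)).2
    have h4 := congrArg (Int.cast : ℤ → k) huw
    push_cast at h4
    rw [hpr, h3] at h4
    simp at h4
  have h5 : ∀ e : Fin (NE g S), e ≠ ⟨2 * g + i0, hlt0⟩ → (Φ x).2 e = 0 := by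
    intro e hne
    by_cases he : (e : ℕ) < 2 * g
    · exact hx (Sum.inl ⟨e, he⟩)
    · obtain ⟨e, hlt'⟩ := e
      obtain ⟨i, rfl⟩ := Nat.exists_eq_add_of_le (not_lt.1 he)
      by_cases ha : ((pr g S (2 * g + i)).1 : k) = 0
      · refine hx (Sum.inr ⟨i, Finset.mem_erase.2 ⟨fun h6 => hne (by simp [h6]), ?_⟩⟩)
        refine Finset.mem_filter.2 ⟨Finset.mem_range.2 ?_, ha⟩
        unfold NE at hlt'
        omega
      · have h2 := (hΦ x).1 ⟨2 * g + i, hlt'⟩ (Nat.le_add_right _ _)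
        rw [h0, mul_zero] at h2
        exact (mul_eq_zero.1 h2).resolve_left ha
  refine hi ?_
  rw [map_zero]
  refine Prod.ext h0 (funext fun e => ?_)
  by_cases he : e = ⟨2 * g + i0, hlt0⟩
  · have h6 := (hΦ x).2
    rw [Finset.sum_eq_single ⟨2 * g + i0, hlt0⟩ (fun b _ hb => by simp [h5 b hb])
      (fun hb => (hb (Finset.mem_univ _)).elim), if_pos (Nat.le_add_right _ _)] at h6
    rw [he]
    exact h6
  · exact h5 e he

end Pool.Agent.P.MP_3d25f3_gt
end

-- part Pool.Agent.P.MP_3d25f3_gt.Rnk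
section

set_option autoImplicit false

open Set Filter Topology

namespace Pool.Agent.P.MP_3d25f3_gt

open Module

variable {g : ℕ} {S : List (ℕ × ℤ)} {s : Side (Seifert g S)} {A : Cov → ℤ} {N : ℕ} {ne : ℕ → ℤ}
  {U : Set E4} {hx : XN s.X s.Y U s.n} {ρ : ℕ} {G G₁ : ℝ → SF (Fin ρ → ℂ)}

lemma rnk_cu_zero (n : E4 → E4 → ℤ) : tw (cu 0) n = 1 := by
  rw [show cu 0 = 1 from Units.ext (by simp [cu]), tw_one]

lemma rnk_cu_pow (N : ℕ) (k : ℤ) (m : ℕ) : cu (th N k) ^ m = cu (th N (k * m)) := by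
  apply Units.ext
  simp only [cu, th, Units.val_pow_eq_pow_val, Units.val_mk0]
  rw [← Complex.exp_nat_mul]
  congr 1
  push_cast
  ring

lemma rnk_count (P : ℕ × ℤ → Prop) [DecidablePred P] (h : ¬ P (1, 0)) :
    ((Finset.range (S.length + 1)).filter fun i => P (pr g S (2 * g + i))).card
      = S.countP fun q => P q := by
  rw [Finset.card_filter, sum_getD (fun q => if P q then 1 else 0), if_neg h, add_zero]
  induction S with
  | nil => simp
  | cons q S ih => by_cases hq : P q <;> simp [hq, ih, add_comm]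

lemma rnk_pr {q : ℕ × ℤ} (hq : q ∈ S) : ∃ i < S.length, pr g S (2 * g + i) = q := by
  obtain ⟨i, hi, rfl⟩ := List.getElem_of_mem hq
  exact ⟨i, hi, by simp [pr, hi]⟩

lemma rnk_mem (i : ℕ) : pr g S (2 * g + i) ∈ S ∨ pr g S (2 * g + i) = (1, 0) := by
  by_cases hi : i < S.length
  · left; simp [pr, hi]
  · right; simp [pr, List.getElem?_eq_none (not_lt.1 hi)]

theorem rho_le (hS : Data S) (h : Per g S s.nM A N ne) (hN : 0 < N) (hF : Family hx N ρ G G₁) :
    ρ ≤ 2 * g := by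
  have := s.t2
  have h1 := hF.card 0
  rw [rnk_cu_zero, finrank_dual s.xy good_one (subset_univ _) (j := 2) rfl] at h1
  have h2 := betti_sum (k := ℂ) s.xy
  obtain ⟨Φ, -⟩ := s.equiv_one ℂ 1
  have h3 := b1_le (g := g) (k := ℂ) hS fun p hp => by
    have := (hS.1 p hp).1
    exact Nat.cast_ne_zero.2 (by omega)
  rw [← Φ.finrank_eq] at h3
  have : Module.Finite ℂ (H (1 : E4 → E4 → ℂ) 1 s.X ∅) := (s.xy.fg good_one (subset_univ _)).2 1
  have h4 : 0 < finrank ℂ (H (1 : E4 → E4 → ℂ) 1 s.X ∅) := by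
    refine finrank_pos_iff_exists_ne_zero.2 ⟨cl _ s.coc.co1, fun h0 => ?_⟩
    rw [cl_eq_zero] at h0
    have h5 := pull_Bc (Itw_comp (1 : E4 → E4 → ℂ) s.e univ) (G' := ∅)
      (fun _ _ => s.cont.continuousAt) (empty_subset _)
      (fun x _ => (s.inter.ge (mem_range_self x)).1) (fun _ hx => hx.elim) h0
    have e : pull s.e 1 (co1 fun a b => (s.n a b : ℂ)) = co1 fun a b => (s.nM a b : ℂ) := by
      funext l
      match l with
      | [] => rfl
      | [_] => simp [co1]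
      | [_, _] => simp [co1, Side.nM]
      | _ :: _ :: _ :: _ => simp [co1]
    rw [e] at h5
    have := h.cast_eq_zero (R := ℂ) h5
    exact hN.ne' (by exact_mod_cast this)
  omega

theorem sgn_at_zero (hF : Family hx N ρ G G₁) : sgn (G 0) = 0 := by
  have h1 := hF.rank 0
  rw [rnk_cu_zero, jm_one s.xy 1, LinearMap.range_zero, finrank_bot] at h1
  have h2 := abs_sgn_le (hF.herm 0)
  rw [Module.finrank_fin_fun] at h2
  have := abs_nonneg (sgn (G 0))
  exact abs_eq_zero.1 (by omega)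

theorem sgn_pp (hS : Data S) (h : Per g S s.nM A N ne) (hN : 0 < N) (hF : Family hx N ρ G G₁)
    {p a : ℕ} (hp : p.Prime) {k : ℤ} (hk : (N : ℤ) ∣ k * p ^ a) (hq : ∃ q ∈ S, ¬ (q.1 : ℤ) ∣ k) :
    |sgn (G (th N k))| ≤ S.countP fun q => p ∣ q.1 ∧ (q.1 : ℤ) ∣ k := by
  classical
  have := s.t2
  have hdv : ∀ q ∈ S, ¬ (q.1 : ℤ) ∣ k → p ∣ q.1 := by
    intro q hq hqk
    by_contra hpq
    refine hqk (IsCoprime.dvd_of_dvd_mul_right (z := (p : ℤ) ^ a) ?_ ((h.dvd hS hq).trans hk))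
    exact (Nat.isCoprime_iff_coprime.2 ((Nat.Prime.coprime_iff_not_dvd hp).2 hpq).symm).pow_right
  obtain ⟨q, hq, hqk⟩ := hq
  obtain ⟨i, hi, hiq⟩ := rnk_pr (g := g) hq
  have hω : cu (th N k) ^ (N : ℤ) = 1 := (cu_pow_eq_one hN _).2 ⟨k, rfl⟩
  have he : 2 * g + i < NE g S := by unfold NE; omega
  have hne : cu (th N k) ^ ne (2 * g + i) ≠ 1 := by
    rw [Ne, cu_th_slit_eq_one hS h hN k hi.le, hiq]
    exact hqk
  have hpa : cu (th N k) ^ p ^ a = 1 := by
    rw [rnk_cu_pow, cu_th_eq_one hN]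
    exact_mod_cast hk
  obtain ⟨O, κ, _, _, _, _, φ, ev, w, π, hφ, hw, hw', hr, hch⟩ := exists_ploc hp hpa
  obtain ⟨y⟩ : Nonempty (Seifert g S) := inferInstance
  have hwne : w ^ ne (2 * g + i) ≠ 1 := by
    intro h1
    apply hne
    have e : Units.map (φ : O →* ℂ) w = cu (th N k) := Units.ext hw
    rw [← e, ← map_zpow, h1, map_one]
  have b1 := betti_tw hx hφ hw hw' hr (x := s.e y) (s.inter.ge (mem_range_self y)).1 fun c hc => by
    have h5 := pull_Zc (Itw_comp (tw w s.n) s.e univ) (G' := ∅)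
      (fun _ _ => s.cont.continuousAt) (empty_subset _)
      (fun x _ => (s.inter.ge (mem_range_self x)).1) (fun _ hx => hx.elim) hc
    simpa using h.h0 he hwne h5 y
  have b2 := rank_jm hx.xy (hx.good (cu (th N k))) hx.sub
  have b3 := finrank_tw hS s.cocM h hω ⟨_, he, hne⟩
  have b4 := b1_le' (g := g) (k := κ) hS ⟨q, hq, (CharP.cast_eq_zero_iff κ p _).2 (hdv q hq hqk)⟩
  have b5 := hF.rank (th N k)
  have b6 := abs_sgn_le (hF.herm (th N k))
  rw [Module.finrank_fin_fun] at b6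
  obtain ⟨Φ, -⟩ := s.equiv_one κ 1
  obtain ⟨Ψ, -⟩ := s.equiv (cu (th N k)) 1
  rw [← Φ.finrank_eq] at b4
  rw [← Ψ.finrank_eq] at b3
  have c1 := rnk_count (g := g) (S := S) (fun q => p ∣ q.1 ∧ (q.1 : ℤ) ∣ k)
    fun h1 => hp.one_lt.ne' (Nat.dvd_one.1 h1.1)
  have c2 : ((Finset.range (S.length + 1)).filter fun i => ((pr g S (2 * g + i)).1 : κ) = 0).card
      ≤ ((Finset.range (S.length + 1)).filter fun i => cu (th N k) ^ ne (2 * g + i) ≠ 1).card
      + ((Finset.range (S.length + 1)).filter fun i =>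
        p ∣ (pr g S (2 * g + i)).1 ∧ ((pr g S (2 * g + i)).1 : ℤ) ∣ k).card := by
    refine le_trans (Finset.card_le_card fun j hj => ?_) (Finset.card_union_le _ _)
    simp only [Finset.mem_filter, Finset.mem_union, Finset.mem_range] at hj ⊢
    by_cases h1 : cu (th N k) ^ ne (2 * g + j) = 1
    · exact Or.inr ⟨hj.1, (CharP.cast_eq_zero_iff κ p _).1 hj.2,
        (cu_th_slit_eq_one hS h hN k (by omega)).1 h1⟩
    · exact Or.inl ⟨hj.1, h1⟩
  rw [← c1]
  omega

end Pool.Agent.P.MP_3d25f3_gt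
end

-- part Pool.Agent.P.MP_3d25f3_gt.Jump
section

set_option autoImplicit false

open Set Filter Topology

namespace Pool.Agent.P.MP_3d25f3_gt

open Module

lemma jump_gram {W : Type} [AddCommGroup W] [Module ℂ W] {n : ℕ} (b : Basis (Fin n) ℂ W)
    (F : SF W) (x : Fin n → ℂ) :
    F (b.equivFun.symm x) (b.equivFun.symm x) =
      ∑ i, ∑ j, x i * starRingEnd ℂ (x j) * F (b i) (b j) := by
  rw [Basis.equivFun_symm_apply, map_sum F, LinearMap.sum_apply]
  refine Finset.sum_congr rfl fun i _ => ?_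
  rw [map_smul, LinearMap.smul_apply, map_sum, smul_eq_mul, Finset.mul_sum]
  refine Finset.sum_congr rfl fun j _ => ?_
  rw [LinearMap.map_smulₛₗ, smul_eq_mul, mul_assoc]

/-- positive definiteness is an open condition -/
lemma jump_open {W : Type} [AddCommGroup W] [Module ℂ W] [FiniteDimensional ℂ W] {ι : Type}
    {l : Filter ι} {F : ι → SF W} {F₀ : SF W}
    (h : ∀ x y, Tendsto (fun u => F u x y) l (𝓝 (F₀ x y)))
    (h0 : ∀ x, x ≠ 0 → 0 < (F₀ x x).re) : ∀ᶠ u in l, ∀ x, x ≠ 0 → 0 < (F u x x).re := by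
  let b := Module.finBasis ℂ W
  let Φ : (Fin (finrank ℂ W) → Fin (finrank ℂ W) → ℂ) × (Fin (finrank ℂ W) → ℂ) → ℝ :=
    fun z => (∑ i, ∑ j, z.2 i * starRingEnd ℂ (z.2 j) * z.1 i j).re
  have hΦ : Continuous Φ := by
    refine Complex.continuous_re.comp ?_
    refine continuous_finsetSum _ fun i _ => continuous_finsetSum _ fun j _ => ?_
    refine Continuous.mul (Continuous.mul (by fun_prop) ?_) (by fun_prop)
    exact Complex.continuous_conj.comp (by fun_prop)
  have h1 : ∀ᶠ M in 𝓝 (fun i j => F₀ (b i) (b j)),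
      ∀ x ∈ Metric.sphere (0 : Fin (finrank ℂ W) → ℂ) 1, 0 < Φ (M, x) := by
    refine (isCompact_sphere _ _).eventually_forall_of_forall_eventually fun x hx => ?_
    have hx0 : b.equivFun.symm x ≠ 0 := by
      intro e
      have : x = 0 := b.equivFun.symm.injective (e.trans (map_zero _).symm)
      simp [this] at hx
    have := h0 _ hx0
    rw [jump_gram] at this
    exact hΦ.continuousAt.eventually (lt_mem_nhds (a := 0) this)
  have h2 : Tendsto (fun u => fun i j => F u (b i) (b j)) l (𝓝 (fun i j => F₀ (b i) (b j))) :=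
    tendsto_pi_nhds.2 fun i => tendsto_pi_nhds.2 fun j => h _ _
  filter_upwards [h2.eventually h1] with u hu x hx
  have hy : b.equivFun x ≠ 0 := fun e => hx (b.equivFun.injective (by simpa using e))
  have hn : 0 < ‖b.equivFun x‖ := norm_pos_iff.2 hy
  have h3 := hu (((‖b.equivFun x‖⁻¹ : ℝ) : ℂ) • b.equivFun x) (by
    rw [mem_sphere_zero_iff_norm, norm_smul, Complex.norm_real, norm_inv, norm_norm,
      inv_mul_cancel₀ hn.ne'])
  have h4 := jump_gram b (F u) (((‖b.equivFun x‖⁻¹ : ℝ) : ℂ) • b.equivFun x)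
  simp only [Φ] at h3
  rw [← h4, map_smul, LinearEquiv.symm_apply_apply, map_smul (F u), LinearMap.smul_apply,
    LinearMap.map_smulₛₗ, Complex.conj_ofReal, smul_eq_mul, smul_eq_mul, Complex.re_ofReal_mul,
    Complex.re_ofReal_mul] at h3
  have h5 : 0 < ‖b.equivFun x‖⁻¹ := inv_pos.2 hn
  exact (mul_pos_iff_of_pos_left h5).1 ((mul_pos_iff_of_pos_left h5).1 h3)

lemma jump_slope {f : ℝ → ℂ} {f' : ℂ} {θ : ℝ} (h : HasDerivAt f f' θ) (h0 : f θ = 0) :
    Tendsto (fun u => (((u - θ)⁻¹ : ℝ) : ℂ) * f u) (𝓝[>] θ) (𝓝 f') := by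
  have := (hasDerivAt_iff_tendsto_slope.1 h).mono_left (nhdsGT_le_nhdsNE θ)
  refine this.congr fun u => ?_
  rw [slope_def_module, h0, sub_zero, Complex.real_smul]

lemma jump_cross {f : ℝ → ℂ} {f' : ℂ} {θ : ℝ} (h : HasDerivAt f f' θ) (h0 : f θ = 0) :
    Tendsto (fun u => (((√(u - θ))⁻¹ : ℝ) : ℂ) * f u) (𝓝[>] θ) (𝓝 0) := by
  have h1 : Tendsto (fun u : ℝ => ((√(u - θ) : ℝ) : ℂ)) (𝓝[>] θ) (𝓝 0) := by
    have : Continuous (fun u : ℝ => ((√(u - θ) : ℝ) : ℂ)) := by fun_prop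
    have := (this.tendsto θ).mono_left (nhdsWithin_le_nhds (s := Ioi θ))
    simpa using this
  have h2 := h1.mul (jump_slope h h0)
  rw [zero_mul] at h2
  refine h2.congr' ?_
  filter_upwards [self_mem_nhdsWithin] with u hu
  have hu' : 0 < u - θ := sub_pos.2 hu
  have hs : 0 < √(u - θ) := Real.sqrt_pos.2 hu'
  rw [← mul_assoc, ← Complex.ofReal_mul]
  congr 2
  have := Real.mul_self_sqrt hu'.le
  field_simp
  nlinarith

/-- positivity on the sum of a positive subspace and a subspace of the kernel on which the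
derivative is positive -/
lemma jump_pos {V : Type} [AddCommGroup V] [Module ℂ V] [FiniteDimensional ℂ V] {G : ℝ → SF V}
    {G₁ : SF V} {θ : ℝ} (hH : Herm (G θ))
    (hd : ∀ x y, HasDerivAt (fun u => G u x y) (G₁ x y) θ) {P₀ P₁ : Submodule ℂ V}
    (h0 : PosOn (G θ) P₀) (h1 : PosOn G₁ P₁) (hk : P₁ ≤ LinearMap.ker (G θ)) :
    ∀ᶠ u in 𝓝[>] θ, PosOn (G u) (P₀ ⊔ P₁) := by
  let L : ℝ → (P₀ × P₁) →ₗ[ℂ] V := fun u =>
    P₀.subtype.coprod ((((√(u - θ))⁻¹ : ℝ) : ℂ) • P₁.subtype)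
  let F₀ : SF (P₀ × P₁) := cmp (G θ) (P₀.subtype.comp (LinearMap.fst ℂ _ _)) +
    cmp G₁ (P₁.subtype.comp (LinearMap.snd ℂ _ _))
  have hF : ∀ x y : P₀ × P₁, F₀ x y = G θ x.1 y.1 + G₁ x.2 y.2 := fun _ _ => rfl
  have hL : ∀ u (x : P₀ × P₁), L u x = (x.1 : V) + (((√(u - θ))⁻¹ : ℝ) : ℂ) • (x.2 : V) :=
    fun _ _ => rfl
  have kl : ∀ (v : P₁) (y : V), G θ v y = 0 := fun v y => by
    rw [LinearMap.mem_ker.1 (hk v.2)]; rfl
  have kr : ∀ (v : P₁) (y : V), G θ y v = 0 := fun v y => by rw [hH, kl, map_zero]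
  have key := jump_open (l := 𝓝[>] θ) (F := fun u => cmp (G u) (L u)) (F₀ := F₀) ?_ ?_
  · filter_upwards [key, self_mem_nhdsWithin] with u hu hu' x hx hx0
    obtain ⟨a, ha, v, hv, rfl⟩ := Submodule.mem_sup.1 hx
    have hs : 0 < √(u - θ) := Real.sqrt_pos.2 (sub_pos.2 hu')
    have e : L u (⟨a, ha⟩, ((√(u - θ) : ℝ) : ℂ) • ⟨v, hv⟩) = a + v := by
      rw [hL]
      simp only [Submodule.coe_smul, smul_smul]
      rw [← Complex.ofReal_mul, inv_mul_cancel₀ hs.ne']
      simp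
    have := hu (⟨a, ha⟩, ((√(u - θ) : ℝ) : ℂ) • ⟨v, hv⟩) (fun e0 => hx0 (by rw [← e, e0, map_zero]))
    rwa [cmp_apply, e] at this
  · intro x y
    have t1 : Tendsto (fun u => G u x.1 y.1) (𝓝[>] θ) (𝓝 (G θ x.1 y.1)) :=
      (hd _ _).continuousAt.tendsto.mono_left nhdsWithin_le_nhds
    have t2 := jump_cross (hd x.1 y.2) (kr _ _)
    have t3 := jump_cross (hd x.2 y.1) (kl _ _)
    have t4 := jump_slope (hd x.2 y.2) (kl _ _)
    have t := ((t1.add t2).add t3).add t4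
    rw [add_zero, add_zero] at t
    rw [hF]
    refine t.congr' ?_
    filter_upwards [self_mem_nhdsWithin] with u hu
    have hu' : 0 < u - θ := sub_pos.2 hu
    have e : (((u - θ)⁻¹ : ℝ) : ℂ) = (((√(u - θ))⁻¹ : ℝ) : ℂ) * (((√(u - θ))⁻¹ : ℝ) : ℂ) := by
      rw [← Complex.ofReal_mul, ← mul_inv, Real.mul_self_sqrt hu'.le]
    rw [cmp_apply, hL, hL, e]
    simp only [map_add, map_smul, LinearMap.add_apply, LinearMap.smul_apply, LinearMap.map_smulₛₗ,
      Complex.conj_ofReal, smul_eq_mul]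
    ring
  · intro x hx
    rw [hF, Complex.add_re]
    have a0 : 0 ≤ (G θ x.1 x.1).re := by
      by_cases e : (x.1 : V) = 0
      · simp [e]
      · exact (h0 _ x.1.2 e).le
    have a1 : 0 ≤ (G₁ x.2 x.2).re := by
      by_cases e : (x.2 : V) = 0
      · simp [e]
      · exact (h1 _ x.2.2 e).le
    by_cases e : (x.1 : V) = 0
    · have e2 : (x.2 : V) ≠ 0 := fun e2 => hx (Prod.ext (Subtype.ext e) (Subtype.ext e2))
      exact add_pos_of_nonneg_of_pos a0 (h1 _ x.2.2 e2)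
    · exact add_pos_of_pos_of_nonneg (h0 _ x.1.2 e) a1

lemma jump_rank {V : Type} [AddCommGroup V] [Module ℂ V] [FiniteDimensional ℂ V] {B : SF V}
    {P₀ K : Submodule ℂ V} (h0 : PosOn B P₀) (hK : K ≤ LinearMap.ker B) (P₁ : Submodule ℂ K) :
    finrank ℂ (P₀ ⊔ P₁.map K.subtype : Submodule ℂ V) = finrank ℂ P₀ + finrank ℂ P₁ := by
  have h1 := Submodule.finrank_sup_add_finrank_inf_eq P₀ (P₁.map K.subtype)
  have h2 : P₀ ⊓ P₁.map K.subtype = ⊥ := by
    rw [eq_bot_iff]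
    rintro x ⟨hx, v, -, rfl⟩
    by_contra hne
    have := h0 _ hx hne
    have e : B (K.subtype v) = 0 := hK v.2
    rw [e] at this
    simp at this
  rw [h2, finrank_bot, add_zero, Submodule.finrank_map_subtype_eq] at h1
  exact h1

lemma jump_posmap {V : Type} [AddCommGroup V] [Module ℂ V] {B : SF V} {K : Submodule ℂ V}
    {P₁ : Submodule ℂ K} (h : PosOn (cmp B K.subtype) P₁) : PosOn B (P₁.map K.subtype) := by
  rintro _ ⟨v, hv, rfl⟩ hne
  exact h v hv (fun e => hne (by rw [e, map_zero]))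

lemma jump_right {V : Type} [AddCommGroup V] [Module ℂ V] [FiniteDimensional ℂ V] {G : ℝ → SF V}
    {G₀ G₁ : SF V} {θ : ℝ} (hH : ∀ u, Herm (G u)) (e : G θ = G₀)
    (hd : ∀ x y, HasDerivAt (fun u => G u x y) (G₁ x y) θ)
    (hn : ∀ x ∈ LinearMap.ker G₀, (∀ y ∈ LinearMap.ker G₀, G₁ x y = 0) → x = 0) :
    ∀ᶠ u in 𝓝[>] θ, sgn (G u) = sgn G₀ + sgn (cmp G₁ (LinearMap.ker G₀).subtype) := by
  subst e
  have hG₁ : Herm G₁ := fun x y => by
    have h1 := (hd x y).star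
    have h2 : (fun u => G u y x) = fun u => star (G u x y) := funext fun u => hH u x y
    have h3 := hd y x
    rw [h2] at h3
    exact h3.unique h1
  obtain ⟨K, hK⟩ : ∃ K, K = LinearMap.ker (G θ) := ⟨_, rfl⟩
  rw [← hK] at hn ⊢
  have hB : Herm (cmp G₁ K.subtype) := fun x y => hG₁ _ _
  have hker : LinearMap.ker (cmp G₁ K.subtype) = ⊥ := by
    rw [eq_bot_iff]
    intro x hx
    have : (x : V) = 0 := hn x x.2 fun y hy => LinearMap.congr_fun (LinearMap.mem_ker.1 hx) ⟨y, hy⟩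
    exact (Submodule.mem_bot ℂ).2 (Subtype.ext this)
  obtain ⟨P₀, p0, hP₀⟩ := exists_npos (G θ)
  obtain ⟨N₀, n0, hN₀⟩ := exists_npos (-G θ)
  obtain ⟨P₁, p1, hP₁⟩ := exists_npos (cmp G₁ K.subtype)
  obtain ⟨N₁, n1, hN₁⟩ := exists_npos (-cmp G₁ K.subtype)
  have s0 := npos_add (hH θ)
  have s1 := npos_add hB
  rw [hker, finrank_bot, add_zero] at s1
  have hKn : K ≤ LinearMap.ker (-G θ) := fun x hx => by
    rw [LinearMap.mem_ker, LinearMap.neg_apply, LinearMap.mem_ker.1 (hK.le hx), neg_zero]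
  have r1 := jump_rank hP₀ hK.le P₁
  have r2 := jump_rank hN₀ hKn N₁
  have e1 := jump_pos (hH θ) hd hP₀ (jump_posmap hP₁) ((Submodule.map_subtype_le _ _).trans hK.le)
  have e2 := jump_pos (G := fun u => -G u) (G₁ := -G₁) (θ := θ)
    (fun x y => by simp [hH θ x y]) (fun x y => (hd x y).neg) hN₀
    (jump_posmap (B := -G₁) (K := K) (P₁ := N₁) hN₁)
    ((Submodule.map_subtype_le _ _).trans hKn)
  filter_upwards [e1, e2] with u h1 h2
  rw [sgn_eq (hH u) h1 h2 (by rw [r1, r2]; rw [← hK] at s0; omega), r1, r2, p0, n0, p1, n1]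
  unfold sgn
  push_cast
  ring

/-- first order perturbation of a hermitian form -/
theorem jump {V : Type} [AddCommGroup V] [Module ℂ V] [FiniteDimensional ℂ V] {G : ℝ → SF V}
    {G₁ : SF V} {θ : ℝ} (hH : ∀ u, Herm (G u))
    (hd : ∀ x y, HasDerivAt (fun u => G u x y) (G₁ x y) θ)
    (hn : ∀ x ∈ LinearMap.ker (G θ), (∀ y ∈ LinearMap.ker (G θ), G₁ x y = 0) → x = 0) :
    (∀ᶠ u in 𝓝[>] θ, sgn (G u) = sgn (G θ) + sgn (cmp G₁ (LinearMap.ker (G θ)).subtype)) ∧
    (∀ᶠ u in 𝓝[<] θ, sgn (G u) = sgn (G θ) - sgn (cmp G₁ (LinearMap.ker (G θ)).subtype)) := by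
  refine ⟨jump_right hH rfl hd hn, ?_⟩
  have h1 := jump_right (G := fun u => G (-u)) (G₀ := G θ) (G₁ := -G₁) (θ := -θ)
    (fun u => hH _) (by simp) (fun x y => by
      have := HasDerivAt.scomp (-θ) (g₁ := fun u => G u x y) (h := fun u : ℝ => -u)
        (by simpa using hd x y) (hasDerivAt_neg (-θ))
      simpa [Function.comp_def] using this)
    (fun x hx h => hn x hx fun y hy => by simpa using h y hy)
  have h2 : sgn (cmp (-G₁) (LinearMap.ker (G θ)).subtype) =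
      -sgn (cmp G₁ (LinearMap.ker (G θ)).subtype) :=
    sgn_of_scale_neg (c := -1) (by norm_num) (fun x => by simp)
  have h3 : Tendsto (fun u : ℝ => -u) (𝓝[<] θ) (𝓝[>] (-θ)) := tendsto_neg_nhdsLT
  filter_upwards [h3.eventually h1] with u hu
  rw [neg_neg, h2] at hu
  rw [hu, sub_eq_add_neg]

/-- a step function between two consecutive special points -/
lemma step {σ d : ℝ → ℤ}
    (h : ∀ θ, (∀ᶠ u in 𝓝[>] θ, σ u = σ θ + d θ) ∧ ∀ᶠ u in 𝓝[<] θ, σ u = σ θ - d θ) {a b : ℝ}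
    (hab : a < b) (hd : ∀ θ ∈ Ioo a b, d θ = 0) : σ b - d b = σ a + d a := by
  have hc : ContinuousOn σ (Ioo a b) := fun θ hθ => by
    refine ContinuousAt.continuousWithinAt (Filter.EventuallyEq.continuousAt (y := σ θ) ?_)
    have h1 := eventually_nhdsWithin_iff.1 (h θ).1
    have h2 := eventually_nhdsWithin_iff.1 (h θ).2
    filter_upwards [h1, h2] with u a1 a2
    rcases lt_trichotomy u θ with e | e | e
    · rw [a2 e, hd θ hθ, sub_zero]
    · rw [e]
    · rw [a1 e, hd θ hθ, add_zero]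
  obtain ⟨u, hu, hu'⟩ := ((h a).1.and (Ioo_mem_nhdsGT hab)).exists
  obtain ⟨w, hw, hw'⟩ := ((h b).2.and (Ioo_mem_nhdsLT hab)).exists
  rw [← hu, ← hw]
  exact isPreconnected_Ioo.constant hc hw' hu'

/-- arithmetic of the jumps; `s k` is the value and `d k` the half jump at point number `k` -/
lemma steps {s d : ℤ → ℤ} {J : ℤ → ℚ} {η : ℚ} (hη : η = 1 ∨ η = -1) {N : ℕ}
    (h : ∀ k, s (k + 1) - d (k + 1) = s k + d k) (h0 : s 0 = 0) (hJ : ∀ k, J (-k) = -J k)
    (hd : ∀ k : ℤ, k ≠ 0 → |k| < N → (d k : ℚ) = η * J k) {k : ℕ} (hk : k < N) :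
    (∀ B : ℚ, (|s k + d k| : ℤ) ≤ 2 * B → (|s (-k) - d (-k)| : ℤ) ≤ 2 * B →
      |∑ j ∈ Finset.range (k + 1), J j| ≤ B) ∧
    (∀ B : ℚ, 0 < k → (|s k| : ℤ) ≤ B → (|s (-k)| : ℤ) ≤ B →
      |2 * ∑ j ∈ Finset.range k, J j + J k| ≤ B) := by
  have J0 : J 0 = 0 := by have := hJ 0; rw [neg_zero] at this; linarith
  have dp : ∀ k : ℕ, 0 < k → k < N → (d k : ℚ) = η * J k ∧ (d (-k) : ℚ) = -(η * J k) := by
    intro k h1 h2
    refine ⟨hd k (by omega) (by rw [Nat.abs_cast]; omega), ?_⟩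
    rw [hd (-k) (by omega) (by rw [abs_neg, Nat.abs_cast]; omega), hJ, mul_neg]
  have key : ∀ k : ℕ, k < N →
      ((s k : ℚ) + d k = d 0 + 2 * η * ∑ j ∈ Finset.range (k + 1), J j) ∧
      ((s (-k) : ℚ) - d (-k) = -d 0 + 2 * η * ∑ j ∈ Finset.range (k + 1), J j) := by
    intro k
    induction k with
    | zero => intro _; simp [h0, J0]
    | succ k ih =>
      intro hk
      obtain ⟨i1, i2⟩ := ih (by omega)
      obtain ⟨d1, d2⟩ := dp (k + 1) (by omega) hk
      have a1 : (s ((k + 1 : ℕ) : ℤ) : ℚ) - d ((k + 1 : ℕ) : ℤ) = s k + d k := by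
        exact_mod_cast h k
      have a2 : (s (-(k : ℤ)) : ℚ) - d (-(k : ℤ)) =
          s (-((k + 1 : ℕ) : ℤ)) + d (-((k + 1 : ℕ) : ℤ)) := by
        have := h (-((k + 1 : ℕ) : ℤ))
        rw [show -((k + 1 : ℕ) : ℤ) + 1 = -(k : ℤ) by push_cast; ring] at this
        exact_mod_cast this
      rw [Finset.sum_range_succ _ (k + 1)]
      constructor <;> linarith
  obtain ⟨k1, k2⟩ := key k hk
  constructor
  · intro B b1 b2
    push_cast at b1 b2
    rw [abs_le] at b1 b2 ⊢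
    rcases hη with rfl | rfl <;> constructor <;> linarith [b1.1, b1.2, b2.1, b2.2]
  · intro B hk0 b1 b2
    obtain ⟨d1, d2⟩ := dp k hk0 hk
    push_cast at b1 b2
    rw [Finset.sum_range_succ] at k1 k2
    rw [abs_le] at b1 b2 ⊢
    rcases hη with rfl | rfl <;> constructor <;> linarith [b1.1, b1.2, b2.1, b2.2]

end Pool.Agent.P.MP_3d25f3_gt
end

-- part Pool.Agent.P.MP_3d25f3_gt.Cls
section

set_option autoImplicit false

open Set Filter Topology

namespace Pool.Agent.P.MP_3d25f3_gt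

variable {g : ℕ} {S : List (ℕ × ℤ)}

/-- the integer cocycle of a circle valued map -/
lemma circ_coc : ∃ (n : AddCircle (1 : ℝ) → AddCircle (1 : ℝ) → ℤ) (a : ℝ → ℤ), CocZ n univ ∧
    (∀ u (k : ℤ), a (u + k) = a u + k) ∧
    ∀ u : ℝ, ∃ U ∈ 𝓝 u, ∀ x ∈ U, ∀ y ∈ U, n x y = a y - a x := by
  have key : ∀ u : ℝ, ∀ x ∈ Metric.ball u (1 / 4), ∀ y ∈ Metric.ball u (1 / 4),
      round (((AddCircle.equivIco (1 : ℝ) 0 (x : AddCircle (1 : ℝ)) : ℝ)) -
        (AddCircle.equivIco (1 : ℝ) 0 (y : AddCircle (1 : ℝ)) : ℝ)) = ⌊y⌋ - ⌊x⌋ := by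
    intro u x hx y hy
    rw [AddCircle.coe_equivIco_mk_apply, AddCircle.coe_equivIco_mk_apply]
    simp only [div_one, mul_one]
    have e : Int.fract x - Int.fract y = (x - y) + ((⌊y⌋ - ⌊x⌋ : ℤ) : ℝ) := by
      unfold Int.fract; push_cast; ring
    rw [e, round_add_intCast]
    rw [Metric.mem_ball, Real.dist_eq, abs_lt] at hx hy
    have : round (x - y) = 0 := by
      rw [round_eq_zero_iff]; constructor <;> linarith [hx.1, hx.2, hy.1, hy.2]
    rw [this, zero_add]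
  refine ⟨fun x y => round (((AddCircle.equivIco (1 : ℝ) 0 x : ℝ)) -
    (AddCircle.equivIco (1 : ℝ) 0 y : ℝ)), fun u => ⌊u⌋, ?_, fun u k => Int.floor_add_intCast u k,
    fun u => ⟨Metric.ball u (1 / 4), Metric.ball_mem_nhds u (by norm_num), key u⟩⟩
  intro p _
  obtain ⟨u, rfl⟩ := QuotientAddGroup.mk_surjective p
  refine ⟨_, QuotientAddGroup.isOpenMap_coe.image_mem_nhds
    (Metric.ball_mem_nhds u (by norm_num : (0 : ℝ) < 1 / 4)), ?_⟩
  rintro _ ⟨x, hx, rfl⟩ _ ⟨y, hy, rfl⟩ _ ⟨z, hz, rfl⟩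
  have h1 := key u x hx y hy
  have h2 := key u y hy z hz
  have h3 := key u x hx z hz
  change round _ + round _ = round _
  rw [h1, h2, h3]; ring

noncomputable def cls_cl (x : ℝ) : ℝ := max 0 (min 1 x)

lemma cls_cl_cont : Continuous cls_cl := by unfold cls_cl; fun_prop

lemma cls_cl_zero {x : ℝ} (h : x ≤ 0) : cls_cl x = 0 :=
  max_eq_left ((min_le_right _ _).trans h)

lemma cls_cl_one {x : ℝ} (h : 1 ≤ x) : cls_cl x = 1 := by
  unfold cls_cl; rw [min_eq_left h, max_eq_right zero_le_one]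

lemma cls_cl_mid {x : ℝ} (h : 0 ≤ x) (h' : x ≤ 1) : cls_cl x = x := by
  unfold cls_cl; rw [min_eq_right h', max_eq_right h]

noncomputable def cls_Phi (g : ℕ) (S : List (ℕ × ℤ)) (n₀ : ℕ) (u : ℝ) : ℝ :=
  ∑ i ∈ Finset.range (S.length + 1), n₀ * sh g S (2 * g + i) * cls_cl (u - (4 * g + 2 * i + 1))

lemma cls_Phi_cont (n₀ : ℕ) : Continuous (cls_Phi g S n₀) := by
  unfold cls_Phi
  exact continuous_finset_sum _ fun i _ =>
    continuous_const.mul (cls_cl_cont.comp (continuous_id.sub continuous_const))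

lemma cls_Phi_low (n₀ : ℕ) {u : ℝ} (hu : u ≤ 4 * g + 1) : cls_Phi g S n₀ u = 0 := by
  refine Finset.sum_eq_zero fun i _ => ?_
  have : (0 : ℝ) ≤ i := Nat.cast_nonneg i
  rw [cls_cl_zero (by linarith), mul_zero]

lemma cls_Phi_top (hS : Data S) (n₀ : ℕ) : cls_Phi g S n₀ (LL g S) = 0 := by
  have h1 : cls_Phi g S n₀ (LL g S) =
      n₀ * ∑ i ∈ Finset.range (S.length + 1), sh g S (2 * g + i) := by
    rw [Finset.mul_sum]
    refine Finset.sum_congr rfl fun i hi => ?_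
    have hi' : (i : ℝ) + 1 ≤ S.length + 1 := by exact_mod_cast Finset.mem_range.1 hi
    rw [cls_cl_one, mul_one]
    unfold LL; push_cast; linarith
  have h2 := sum_getD (g := g) (S := S) (fun p : ℕ × ℤ => (p.2 : ℝ) / p.1)
  have h3 : (S.map fun p : ℕ × ℤ => (p.2 : ℝ) / p.1).sum = 0 := by
    have := congrArg (fun q : ℚ => (q : ℝ)) hS.2
    simp only [Rat.cast_list_sum, List.map_map, Rat.cast_zero] at this
    rw [← this]
    congr 1
    refine List.map_congr_left fun p _ => ?_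
    simp
  rw [h1]
  unfold sh
  rw [h2, h3]; simp

lemma cls_int (hS : Data S) {n₀ : ℕ} (h : ∀ p ∈ S, p.1 ∣ n₀) (e : ℕ) :
    ∃ k : ℤ, n₀ * sh g S e = k := by
  have hd : (pr g S e).1 ∣ n₀ := by
    unfold pr
    split_ifs
    · exact one_dvd _
    · rcases lt_or_ge (e - 2 * g) S.length with h1 | h1
      · rw [List.getD_eq_getElem _ _ h1]; exact h _ (List.getElem_mem h1)
      · rw [List.getD_eq_default _ _ h1]; exact one_dvd _
  obtain ⟨c, hc⟩ := hd
  have h0 : ((pr g S e).1 : ℝ) ≠ 0 := by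
    have := (pr_data (g := g) hS e).1
    exact_mod_cast (by omega : (pr g S e).1 ≠ 0)
  refine ⟨c * (pr g S e).2, ?_⟩
  unfold sh
  rw [hc]; push_cast; field_simp

lemma cls_Phi_arc (hS : Data S) {n₀ : ℕ} (h : ∀ p ∈ S, p.1 ∣ n₀) {e : ℕ} (he : e < NE g S) :
    ∃ k : ℤ, ∀ s ∈ Icc (0 : ℝ) 1, cls_Phi g S n₀ (st g e + wd g e - s)
      + n₀ * (s * sh g S e) = cls_Phi g S n₀ (st g e + s) + k := by
  by_cases h1 : e < 2 * g
  · refine ⟨0, fun s hs => ?_⟩
    have h2 : st g e + 3 ≤ 4 * g := by unfold st; rw [if_pos h1]; omega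
    have h3 : (st g e : ℝ) + 3 ≤ 4 * g := by exact_mod_cast h2
    have h4 : wd g e = 3 := if_pos h1
    have h5 : sh g S e = 0 := by unfold sh pr; rw [if_pos h1]; simp
    rw [cls_Phi_low, cls_Phi_low, h5]
    · simp
    · linarith [hs.2]
    · rw [h4]; push_cast; linarith [hs.1]
  · obtain ⟨k, hk⟩ := cls_int (g := g) hS h e
    obtain ⟨i, rfl⟩ : ∃ i, e = 2 * g + i := ⟨e - 2 * g, by omega⟩
    have hi : i < S.length + 1 := by unfold NE at he; omega
    have h2 : (st g (2 * g + i) : ℝ) = 4 * g + 2 * i := by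
      unfold st; rw [if_neg h1, Nat.add_sub_cancel_left]; push_cast; ring
    have h4 : wd g (2 * g + i) = 2 := if_neg h1
    refine ⟨k, fun s hs => ?_⟩
    have key : cls_Phi g S n₀ (4 * g + 2 * i + 2 - s) - cls_Phi g S n₀ (4 * g + 2 * i + s) =
        n₀ * sh g S (2 * g + i) * (1 - s) := by
      unfold cls_Phi
      rw [← Finset.sum_sub_distrib, Finset.sum_eq_single i]
      · rw [cls_cl_zero (x := 4 * g + 2 * i + s - _) (by linarith [hs.2]),
          cls_cl_mid (by linarith [hs.2]) (by linarith [hs.1])]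
        ring
      · intro j _ hj
        rcases lt_or_gt_of_ne hj with hj | hj
        · have : (j : ℝ) + 1 ≤ i := by exact_mod_cast hj
          rw [cls_cl_one (by linarith [hs.2]), cls_cl_one (by linarith [hs.1]), sub_self]
        · have : (i : ℝ) + 1 ≤ j := by exact_mod_cast hj
          rw [cls_cl_zero (by linarith [hs.1]), cls_cl_zero (by linarith [hs.2]), sub_self]
      · intro hh; exact absurd (Finset.mem_range.2 hi) hh
    rw [h2, h4, ← hk]
    push_cast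
    linear_combination key

lemma exists_phase (hS : Data S) {n₀ : ℕ} (h : ∀ p ∈ S, p.1 ∣ n₀) : ∃ φ : Disc → ℝ, Continuous φ ∧
    ∀ e < NE g S, ∃ k : ℤ, ∀ s ∈ Icc (0 : ℝ) 1, φ (bp (LL g S) (st g e + wd g e - s))
      + n₀ * (s * sh g S e) = φ (bp (LL g S) (st g e + s)) + k := by
  have hL : LL g S ≠ 0 := NeZero.ne _
  have hL' : (0 : ℝ) < LL g S := by exact_mod_cast Nat.pos_of_ne_zero hL
  haveI : Fact ((0 : ℝ) < LL g S) := ⟨hL'⟩
  obtain ⟨ang, hc, ha⟩ := exists_ang hL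
  have h0 : cls_Phi g S n₀ 0 = 0 := cls_Phi_low n₀ (by positivity)
  have hψ : Continuous (AddCircle.liftIco (LL g S : ℝ) 0 (cls_Phi g S n₀)) :=
    AddCircle.liftIco_continuous (by rw [zero_add, h0, cls_Phi_top hS])
      (cls_Phi_cont n₀).continuousOn
  have hv : ∀ u ∈ Icc (0 : ℝ) (LL g S),
      AddCircle.liftIco (LL g S : ℝ) 0 (cls_Phi g S n₀) (u : AddCircle (LL g S : ℝ)) =
        cls_Phi g S n₀ u := by
    intro u hu
    rcases hu.2.lt_or_eq with h1 | h1
    · exact AddCircle.liftIco_coe_apply ⟨hu.1, by rwa [zero_add]⟩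
    · rw [h1, AddCircle.coe_period, ← AddCircle.coe_zero,
        AddCircle.liftIco_coe_apply ⟨le_rfl, by rwa [zero_add]⟩, h0, cls_Phi_top hS]
  have hC : IsClosed {y : Disc | ‖(y : ℂ)‖ = 1} :=
    isClosed_eq (continuous_norm.comp continuous_subtype_val) continuous_const
  have hco : ContinuousOn (fun y => AddCircle.liftIco (LL g S : ℝ) 0 (cls_Phi g S n₀) (ang y))
      {y : Disc | ‖(y : ℂ)‖ = 1} := by
    intro y hy
    obtain ⟨u, -, rfl⟩ := exists_bp hL hy
    exact (hψ.continuousAt.comp (hc u)).continuousWithinAt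
  obtain ⟨φ, hφ⟩ := ContinuousMap.exists_restrict_eq hC ⟨_, hco.restrict⟩
  have hb : ∀ u ∈ Icc (0 : ℝ) (LL g S), φ (bp (LL g S) u) = cls_Phi g S n₀ u := by
    intro u hu
    have := congrArg (fun f => f ⟨bp (LL g S) u, norm_bd _ u⟩) hφ
    rw [← hv u hu, ← ha u]
    exact this
  refine ⟨φ, φ.continuous, fun e he => ?_⟩
  obtain ⟨k, hk⟩ := cls_Phi_arc hS h he
  refine ⟨k, fun s hs => ?_⟩
  have h1 : (st g e : ℝ) + wd g e ≤ LL g S := by exact_mod_cast st_le he
  have h2 : (2 : ℝ) ≤ wd g e := by exact_mod_cast wd_ge e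
  have h3 : (0 : ℝ) ≤ st g e := Nat.cast_nonneg _
  rw [hb _ ⟨by linarith [hs.2], by linarith [hs.1]⟩, hb _ ⟨by linarith [hs.1], by linarith [hs.2]⟩]
  exact hk s hs

/-- a class whose value on the regular fibre is a given common multiple of the orders -/
theorem exists_class (hS : Data S) {n₀ : ℕ} (h : ∀ p ∈ S, p.1 ∣ n₀) :
    ∃ f A ne, CocZ f univ ∧ Per g S f A n₀ ne := by
  obtain ⟨n, a, hn, ha, hl⟩ := circ_coc
  obtain ⟨φ, hφ, hk⟩ := exists_phase (g := g) hS h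
  choose! k hk using hk
  have hθ : Continuous fun y : Cov => (n₀ : ℝ) * y.2 + φ y.1 := by fun_prop
  have hper : ∀ (y : Disc) (z : ℝ), (n₀ : ℝ) * (z + 1) + φ y = n₀ * z + φ y + ((n₀ : ℤ) : ℝ) := by
    intro y z; push_cast; ring
  have harc : ∀ e < NE g S, ∀ s ∈ Icc (0 : ℝ) 1, ∀ z,
      (n₀ : ℝ) * (gb g S e s z).2 + φ (gb g S e s z).1 =
        n₀ * (ga g S e s z).2 + φ (ga g S e s z).1 + k e := by
    intro e he s hs z
    have := hk e he s hs
    simp only [ga, gb]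
    linear_combination this
  have hz : ∀ (u : ℝ) (m : ℤ), ((u + m : ℝ) : AddCircle (1 : ℝ)) = (u : AddCircle (1 : ℝ)) := by
    intro u m
    have : ((m : ℝ) : AddCircle (1 : ℝ)) = 0 :=
      (AddCircle.coe_eq_zero_iff (1 : ℝ)).2 ⟨m, by simp⟩
    rw [AddCircle.coe_add, this, add_zero]
  obtain ⟨f', hf'⟩ := desc_cov (g := g) (S := S)
    (fun y : Cov => (((n₀ : ℝ) * y.2 + φ y.1 : ℝ) : AddCircle (1 : ℝ)))
    (fun y z => by simp only; rw [hper, hz])
    (fun e he s hs z => by rw [harc e he s hs z, hz])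
  have hq : IsQuotientMap (pp g S) :=
    isQuotientMap_quot_mk.comp (isOpenMap_pc.isQuotientMap continuous_pc pc_surj)
  have hc : Continuous f' := by
    rw [hq.continuous_iff]
    have : f' ∘ pp g S = fun y : Cov => (((n₀ : ℝ) * y.2 + φ y.1 : ℝ) : AddCircle (1 : ℝ)) :=
      funext hf'
    rw [this]
    exact (AddCircle.continuous_mk' (1 : ℝ)).comp hθ
  refine ⟨fun x y => n (f' x) (f' y), fun y => a (n₀ * y.2 + φ y.1), k,
    hn.comp (fun x _ => hc.continuousAt) (mapsTo_univ _ _), ?_, ?_, ?_⟩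
  · intro y
    obtain ⟨U, hU, hU'⟩ := hl (n₀ * y.2 + φ y.1)
    refine ⟨_, hθ.continuousAt.preimage_mem_nhds hU, fun b hb c hc => ?_⟩
    simp only [hf']
    exact hU' _ hb _ hc
  · intro y z
    simp only
    rw [hper, ha]
  · intro e he s hs z
    rw [harc e he s hs z, ha]

end Pool.Agent.P.MP_3d25f3_gt
end

-- part Pool.Agent.P.MP_3d25f3_gt.Flow
section

set_option autoImplicit false

open Set Filter Topology

namespace Pool.Agent.P.MP_3d25f3_gt

variable {g : ℕ} {S : List (ℕ × ℤ)}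

lemma flow_a {n : Seifert g S → Seifert g S → ℤ} {A : Cov → ℤ} {N : ℤ} {ne : ℕ → ℤ}
    (h : Per g S n A N ne) : ∃ a : ℝ → Seifert g S → ℤ,
      ∀ r y z, a r (pp g S (y, z)) = A (y, z + r) - A (y, z) := by
  have key : ∀ r : ℝ, ∃ f : Seifert g S → ℤ,
      ∀ y : Cov, f (pp g S y) = A (y.1, y.2 + r) - A (y.1, y.2) := by
    intro r
    refine desc_cov (fun y : Cov => A (y.1, y.2 + r) - A (y.1, y.2)) ?_ ?_
    · intro y z
      have h1 := h.per y (z + r)
      have h2 := h.per y z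
      simp only
      rw [show z + 1 + r = z + r + 1 by ring, h1, h2]
      ring
    · intro e he s hs z
      have h1 := h.arc e he s hs (z + r)
      have h2 := h.arc e he s hs z
      simp only [ga, gb] at h1 h2 ⊢
      rw [show z + s * sh g S e + r = z + r + s * sh g S e by ring, h1, h2]
      ring
  choose a ha using key
  exact ⟨a, fun r y z => ha r (y, z)⟩

lemma flow_ev {P : Solid → Prop} {y : Cov} (h : ∀ᶠ y' in 𝓝 y, P (pc y')) :
    ∀ᶠ w in 𝓝 (pc y), P w := by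
  have := isOpenMap_pc.image_mem_nhds h
  filter_upwards [this] with w hw
  obtain ⟨y', hy', rfl⟩ := hw
  exact hy'

lemma flow_itw [T2Space (Seifert g S)] {n : Seifert g S → Seifert g S → ℤ} {A : Cov → ℤ} {N : ℤ}
    {ne : ℕ → ℤ} (hn : CocZ n univ) (h : Per g S n A N ne) {φ : Seifert g S → ℝ → Seifert g S}
    (hφ : Continuous (Function.uncurry φ))
    (hφ' : ∀ y z r, φ (pp g S (y, z)) r = pp g S (y, z + r)) {a : ℝ → Seifert g S → ℤ}
    (ha : ∀ r y z, a r (pp g S (y, z)) = A (y, z + r) - A (y, z)) (s : ℝ) (x : Seifert g S) :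
    ∃ U ∈ 𝓝 x, ∀ u ∈ U, ∀ v ∈ U, n u v + a s v = a s u + n (φ u s) (φ v s) := by
  have hc : Continuous fun u => φ u s := hφ.comp (continuous_id.prodMk continuous_const)
  have h2 : CocZ (fun u v => n (φ u s) (φ v s)) univ :=
    hn.comp (fun x _ => hc.continuousAt) (mapsTo_univ _ _)
  have h3 : CocZ (fun u v => n u v + a s v - a s u - n (φ u s) (φ v s)) univ := by
    intro x hx
    obtain ⟨U, hU, h4⟩ := hn x hx
    obtain ⟨V, hV, h5⟩ := h2 x hx
    refine ⟨U ∩ V, inter_mem hU hV, fun u hu v hv w hw => ?_⟩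
    have e1 := h4 u hu.1 v hv.1 w hw.1
    have e2 := h5 u hu.2 v hv.2 w hw.2
    simp only at e2 ⊢
    linear_combination e1 - e2
  have h4 := (h3.co1 (R := ℤ)).2
  have h5 := null_of_pull (π := pm g S) isClosedMap_pm pm_surj (Coc_one univ) h4 (by
    intro w _
    obtain ⟨⟨y, z⟩, rfl⟩ := pc_surj w
    apply flow_ev
    obtain ⟨U, hU, h6⟩ := h.prim (y, z)
    obtain ⟨V, hV, h7⟩ := h.prim (y, z + s)
    have hc' : Continuous fun p : Cov => ((p.1, p.2 + s) : Cov) := by fun_prop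
    have hV' : ∀ᶠ p : Cov in 𝓝 (y, z), ((p.1, p.2 + s) : Cov) ∈ V :=
      hc'.continuousAt.preimage_mem_nhds hV
    filter_upwards [hU, hV'] with p hp hp'
    obtain ⟨y', z'⟩ := p
    have e1 := h6 (y, z) (mem_of_mem_nhds hU) (y', z') hp
    have e2 := h7 (y, z + s) (mem_of_mem_nhds hV) (y', z' + s) hp'
    have e3 := ha s y z
    have e4 := ha s y' z'
    change ((n (pp g S (y, z)) (pp g S (y', z')) + a s (pp g S (y', z')) - a s (pp g S (y, z))
      - n (φ (pp g S (y, z)) s) (φ (pp g S (y', z')) s) : ℤ) : ℤ) = 0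
    rw [hφ', hφ', e1, e2, e3, e4]
    ring)
  obtain ⟨U, hU, h6⟩ := h5 x (mem_univ x)
  refine ⟨U, hU, fun u hu v hv => ?_⟩
  have e := h6 [u, v] rfl (by simp [hu, hv])
  change ((n u v + a s v - a s u - n (φ u s) (φ v s) : ℤ) : ℤ) = 0 at e
  linear_combination e

lemma flow_nu [T2Space (Seifert g S)] {n : Seifert g S → Seifert g S → ℤ} {A : Cov → ℤ} {N : ℤ}
    {ne : ℕ → ℤ} (h : Per g S n A N ne) {φ : Seifert g S → ℝ → Seifert g S}
    (hφ' : ∀ y z r, φ (pp g S (y, z)) r = pp g S (y, z + r)) {a : ℝ → Seifert g S → ℤ}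
    (ha : ∀ r y z, a r (pp g S (y, z)) = A (y, z + r) - A (y, z)) (s : ℝ) (x : Seifert g S) :
    ∃ U ∈ 𝓝 x, ∃ J ∈ 𝓝 s, ∀ u ∈ U, ∀ r ∈ J, ∀ r' ∈ J,
      a r u + n (φ u r) (φ u r') = a r' u := by
  have hp : IsProperMap (pm g S) := continuous_pm.isProperMap
  have hcl : IsClosedMap (Prod.map (pm g S) (id : ℝ × ℝ → ℝ × ℝ)) :=
    (hp.prodMap isProperMap_id).isClosedMap
  have key := loc_closed hcl (x := (x, (s, s)))
    (P := fun w => a w.2.1 (pm g S w.1) + n (φ (pm g S w.1) w.2.1) (φ (pm g S w.1) w.2.2)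
      = a w.2.2 (pm g S w.1)) (by
    rintro ⟨w, r₀⟩ hw
    have hr : r₀ = (s, s) := congrArg Prod.snd hw
    subst hr
    obtain ⟨⟨y, z⟩, rfl⟩ := pc_surj w
    obtain ⟨V, hV, h7⟩ := h.prim (y, z + s)
    have ho : IsOpenMap (Prod.map pc (id : ℝ × ℝ → ℝ × ℝ)) := isOpenMap_pc.prodMap IsOpenMap.id
    have c1 : Continuous fun p : Cov × (ℝ × ℝ) => ((p.1.1, p.1.2 + p.2.1) : Cov) := by fun_prop
    have c2 : Continuous fun p : Cov × (ℝ × ℝ) => ((p.1.1, p.1.2 + p.2.2) : Cov) := by fun_prop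
    have e1 : ∀ᶠ p : Cov × (ℝ × ℝ) in 𝓝 ((y, z), (s, s)), ((p.1.1, p.1.2 + p.2.1) : Cov) ∈ V :=
      c1.continuousAt.preimage_mem_nhds hV
    have e2 : ∀ᶠ p : Cov × (ℝ × ℝ) in 𝓝 ((y, z), (s, s)), ((p.1.1, p.1.2 + p.2.2) : Cov) ∈ V :=
      c2.continuousAt.preimage_mem_nhds hV
    have e3 := ho.image_mem_nhds (e1.and e2)
    filter_upwards [e3] with w hw'
    obtain ⟨⟨⟨y', z'⟩, r, r'⟩, ⟨hy1, hy2⟩, rfl⟩ := hw'
    change a r (pp g S (y', z')) + n (φ (pp g S (y', z')) r) (φ (pp g S (y', z')) r')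
      = a r' (pp g S (y', z'))
    rw [hφ', hφ', ha, ha, h7 _ hy1 _ hy2]
    ring)
  obtain ⟨U, hU, K, hK, hUK⟩ := mem_nhds_prod_iff.1 key
  obtain ⟨J, hJ, J', hJ', hJJ⟩ := mem_nhds_prod_iff.1 hK
  refine ⟨U, hU, J ∩ J', inter_mem hJ hJ', fun u hu r hr r' hr' => ?_⟩
  obtain ⟨w, rfl⟩ := pm_surj u
  exact hUK (mk_mem_prod hu (hJJ (mk_mem_prod hr.1 hr'.2))) (w, (r, r')) rfl

/-- the fibre acts trivially on cohomology -/
theorem Per.kill [T2Space (Seifert g S)] {R : Type} [CommRing R]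
    {n : Seifert g S → Seifert g S → ℤ} {A : Cov → ℤ} {N : ℤ} {ne : ℕ → ℤ} (hn : CocZ n univ)
    (h : Per g S n A N ne) (t : Rˣ) (k : ℕ) (x : H (tw t n) k univ ∅) :
    (((t ^ N : Rˣ) : R) - 1) • x = 0 := by
  obtain ⟨c, hc, rfl⟩ := cl_surj x
  obtain ⟨φ, hφ, hφ'⟩ := exists_flow (g := g) (S := S)
  obtain ⟨a, ha⟩ := flow_a h
  have key := hi_gauge (τ₀ := tw t n) (τ := tw t n) (h := φ)
    (ν := fun u r => ((t ^ a r u : Rˣ) : R)) (k := k) (F := univ) (F' := ∅) (G := univ) (G' := ∅)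
    isCompact_univ isCompact_empty (empty_subset _) hφ (hn.tw t) (fun _ _ _ _ => mem_univ _)
    (fun _ hx => hx.elim) (by
      intro s _ x _
      obtain ⟨U, hU, h1⟩ := flow_itw hn h hφ hφ' ha s x
      refine ⟨U, hU, fun u hu v hv => ?_⟩
      simp only [tw]
      rw [← Units.val_mul, ← Units.val_mul, ← zpow_add, ← zpow_add, h1 u hu v hv]) (by
      intro x _ s _
      obtain ⟨U, hU, J, hJ, h1⟩ := flow_nu h hφ' ha s x
      refine ⟨U, hU, J, hJ, fun u hu r hr r' hr' => ?_⟩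
      simp only [tw]
      rw [← Units.val_mul, ← zpow_add, h1 u hu r hr r' hr']) hc
  have p1 : (fun u => φ u 1) = id := by
    funext u
    obtain ⟨⟨y, z⟩, rfl⟩ := pp_surj u
    have := pp_per (g := g) (S := S) y z 1
    rw [Int.cast_one] at this
    rw [hφ', this, id]
  have p0 : (fun u => φ u 0) = id := by
    funext u
    obtain ⟨⟨y, z⟩, rfl⟩ := pp_surj u
    rw [hφ', add_zero, id]
  have a1 : ∀ u, a 1 u = N := by
    intro u
    obtain ⟨⟨y, z⟩, rfl⟩ := pp_surj u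
    rw [ha, h.per]
    ring
  have a0 : ∀ u, a 0 u = 0 := by
    intro u
    obtain ⟨⟨y, z⟩, rfl⟩ := pp_surj u
    rw [ha, add_zero, sub_self]
  rw [← cl_smul, cl_eq_zero]
  rw [p1, p0] at key
  have hd : (((t ^ N : Rˣ) : R) - 1) • c - (pull id (fun u => ((t ^ a 1 u : Rˣ) : R)) c
      - pull id (fun u => ((t ^ a 0 u : Rˣ) : R)) c) ∈ Null R k (univ : Set (Seifert g S)) := by
    intro x _
    refine ⟨univ, univ_mem, fun l hl _ => ?_⟩
    cases l with
    | nil => simp at hl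
    | cons u l =>
      simp only [Pi.sub_apply, Pi.smul_apply, pull_cons, a1, a0, smul_eq_mul, id, List.map_id,
        zpow_zero, Units.val_one]
      ring
  have := add_mem (Null_le_Bc (tw t n) k univ ∅ hd) key
  rwa [sub_add_cancel] at this

end Pool.Agent.P.MP_3d25f3_gt
end

-- part Pool.Agent.P.MP_3d25f3_gt.SdC
section

set_option autoImplicit false

open Set Filter Topology

namespace Pool.Agent.P.MP_3d25f3_gt

lemma sdc_lift {M Z W : Type} [TopologicalSpace M] [TopologicalSpace Z] [TopologicalSpace W]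
    {e : M → Z} (he : IsEmbedding e) {ι : W → Z} (hι : IsOpenEmbedding ι)
    (h : range e ⊆ range ι) : ∃ e1 : M → W, Continuous e1 ∧ Function.Injective e1 ∧
      (∀ x, ι (e1 x) = e x) ∧ ι ⁻¹' range e = range e1 := by
  choose e1 h1 using fun x => h (mem_range_self x)
  refine ⟨e1, hι.isInducing.continuous_iff.2 ?_, fun x y hxy => he.injective ?_, h1, ?_⟩
  · rw [show ι ∘ e1 = e from funext h1]
    exact he.continuous
  · rw [← h1, ← h1, hxy]
  · ext a
    exact ⟨fun ⟨x, hx⟩ => ⟨x, hι.injective ((h1 x).trans hx)⟩, fun ⟨x, hx⟩ => ⟨x, hx ▸ (h1 x).symm⟩⟩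

lemma sdc_pos {Z : Type} [TopologicalSpace Z] {φ : OpenPartialHomeomorph Z E4} {x : Z}
    (h1 : x ∈ φ.source) (h0 : φ x 0 = 0) : ∃ y ∈ φ.source, 0 < φ y 0 :=
  let ⟨y, h2, h3⟩ := ((chart_both h1 h0).1.and_eventually (φ.open_source.mem_nhds h1)).exists
  ⟨y, h3, h2⟩

lemma sdc_coc {Z : Type} [TopologicalSpace Z] [T2Space Z] {ι : E4 → Z} (hι : IsOpenEmbedding ι)
    {Y : Set E4} {n : E4 → E4 → ℤ} (hn : CocZ n Y) (h0 : ∀ a b, 1 < ‖a‖ → 1 < ‖b‖ → n a b = 0) :
    ∃ m : Z → Z → ℤ, CocZ m (ι '' Yᶜ)ᶜ ∧ ∀ a b, m (ι a) (ι b) = n a b := by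
  classical
  obtain ⟨g, g1, g2⟩ : ∃ g : Z → E4, (∀ a, g (ι a) = a) ∧ ∀ z, z ∉ range ι → g z = fun _ => 2 :=
    ⟨Function.extend ι id fun _ _ => 2, fun a => hι.injective.extend_apply _ _ a,
      fun z hz => Function.extend_apply' _ _ _ hz⟩
  refine ⟨fun y z => n (g y) (g z), fun y hy => ?_, fun a b => by simp only [g1]⟩
  by_cases h : y ∈ range ι
  · obtain ⟨a, rfl⟩ := h
    obtain ⟨U, hU, h1⟩ := hn a (by_contra fun ha => hy ⟨a, ha, rfl⟩)
    have hc : ContinuousAt g (ι a) := hι.continuousAt_iff.1 (by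
      rw [show g ∘ ι = id from funext g1]
      exact continuousAt_id)
    exact ⟨g ⁻¹' U, hc (by rwa [g1]), fun a ha b hb c hc => h1 _ ha _ hb _ hc⟩
  · have hK : IsClosed (ι '' Metric.closedBall 0 1) :=
      ((isCompact_closedBall 0 1).image hι.continuous).isClosed
    have h1 : ∀ z ∈ (ι '' Metric.closedBall 0 1)ᶜ, 1 < ‖g z‖ := fun z hz => by
      by_cases h2 : z ∈ range ι
      · obtain ⟨a, rfl⟩ := h2
        rw [g1]
        exact not_le.1 fun ha => hz ⟨a, mem_closedBall_zero_iff.2 ha, rfl⟩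
      · rw [g2 z h2, pi_norm_const]
        norm_num
    refine ⟨_, hK.isOpen_compl.mem_nhds fun h2 => h (image_subset_range _ _ h2),
      fun a ha b hb c hc => ?_⟩
    simp only [h0 _ _ (h1 a ha) (h1 b hb), h0 _ _ (h1 b hb) (h1 c hc), h0 _ _ (h1 a ha) (h1 c hc),
      add_zero]

theorem two_sides {M : Type} [TopologicalSpace M] [CompactSpace M] [Nonempty M] (h : EmbedsFlat M)
    {f : M → M → ℤ} (hf : CocZ f univ) :
    ∃ s₁ s₂ : Side M, ∀ a b, f a b = s₁.nM a b + s₂.nM a b := by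
  obtain ⟨e, he, hφ⟩ := h
  obtain ⟨x0⟩ := ‹Nonempty M›
  have hF : Flat (range e) := by
    rintro _ ⟨x, rfl⟩
    exact hφ x
  obtain ⟨p1, hp1⟩ : ∃ p, p ∉ range e := by
    obtain ⟨φ, h1, h2⟩ := hφ x0
    obtain ⟨y, h3, h4⟩ := sdc_pos h1 ((h2 _ h1).1 (mem_range_self x0))
    exact ⟨y, fun h5 => h4.ne' ((h2 y h3).1 h5)⟩
  obtain ⟨ι1, i1, -, b1⟩ := stereo p1 (isCompact_range he.continuous) hp1
  obtain ⟨e1, c1, j1, k1, r1⟩ := sdc_lift he i1 (b1.trans (image_subset_range _ _))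
  obtain ⟨X1, Y1, xy, hi⟩ := sides (isCompact_range c1)
    (by
      rw [← r1, ← preimage_image_eq (Metric.ball 0 1) i1.injective]
      exact preimage_mono b1) (r1 ▸ hF.preimage i1)
  obtain ⟨r, r2, r3⟩ := near_retr (e := e1) isCompact_univ ⟨x0, trivial⟩ c1 j1.injOn
  obtain ⟨n, n1, n2, n3⟩ := split_coc xy (f := fun a b => f (r a) (r b))
    (hf.comp (fun a ha => by
      obtain ⟨x, rfl⟩ := hi.le ha
      exact r3 x trivial) (mapsTo_univ _ _))
  obtain ⟨m, m1, m2⟩ := sdc_coc i1 n2 n3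
  have pX : ι1 ⁻¹' (ι1 '' X1) = X1 := preimage_image_eq _ i1.injective
  have pY : ι1 ⁻¹' (ι1 '' Y1ᶜ)ᶜ = Y1 := by
    rw [preimage_compl, preimage_image_eq _ i1.injective, compl_compl]
  have cX : IsClosed (ι1 '' X1) := (xy.compact.image i1.continuous).isClosed
  have cY : IsClosed (ι1 '' Y1ᶜ)ᶜ := (i1.isOpenMap _ xy.cY.isOpen_compl).isClosed_compl
  have sd : Sided (ι1 '' X1) (ι1 '' Y1ᶜ)ᶜ := Sided.of_preimage i1
    (inter_subset_left.trans (image_subset_range _ _)) (by rw [pX, pY]; exact xy.sided)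
  have cv : (ι1 '' Y1ᶜ)ᶜ ∪ ι1 '' X1 = univ := eq_univ_of_forall fun y => by
    by_cases hy : y ∈ ι1 '' Y1ᶜ
    · obtain ⟨a, ha, rfl⟩ := hy
      exact Or.inr ⟨a, (xy.cover.ge (mem_univ a)).resolve_right ha, rfl⟩
    · exact Or.inl hy
  have it : (ι1 '' Y1ᶜ)ᶜ ∩ ι1 '' X1 = range e := by
    refine Subset.antisymm ?_ ?_
    · rintro _ ⟨h1, a, ha, rfl⟩
      exact r1.ge (hi.le ⟨ha, pY.le h1⟩)
    · rintro _ ⟨x, rfl⟩
      have h1 := hi.ge (mem_range_self x)
      rw [← k1]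
      exact ⟨pY.ge h1.2, _, h1.1, rfl⟩
  obtain ⟨a2, ha2⟩ : ∃ a, a ∉ Y1 := by
    have h1 := hi.ge (mem_range_self x0)
    obtain ⟨φ, h2, h3⟩ := xy.sided _ h1
    obtain ⟨y, h4, h5⟩ := sdc_pos h2 (le_antisymm ((h3 _ h2).2.1 h1.2) ((h3 _ h2).1.1 h1.1))
    exact ⟨y, fun h6 => not_le.2 h5 ((h3 y h4).2.1 h6)⟩
  obtain ⟨ι2, i2, -, b2⟩ := stereo (ι1 a2) cY.isCompact fun h1 => h1 ⟨a2, ha2, rfl⟩
  obtain ⟨e2, c2, j2, k2, r4⟩ := sdc_lift he i2
    ((it.ge.trans inter_subset_left).trans (b2.trans (image_subset_range _ _)))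
  refine ⟨⟨e1, X1, Y1, _, c1, j1, xy, hi, n1⟩,
    ⟨e2, ι2 ⁻¹' (ι1 '' Y1ᶜ)ᶜ, ι2 ⁻¹' (ι1 '' X1), fun a b => m (ι2 a) (ι2 b), c2, j2,
      ⟨cY.preimage i2.continuous, cX.preimage i2.continuous, ?_, ?_, sd.symm.preimage i2⟩, ?_,
      m1.comp (fun _ _ => i2.continuous.continuousAt) fun _ ha => ha⟩, fun a b => ?_⟩
  · rw [← preimage_union, cv, preimage_univ]
  · rw [← preimage_image_eq (Metric.ball 0 1) i2.injective]
    exact preimage_mono b2
  · rw [← preimage_inter, it, r4]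
  · simp only [Side.nM]
    rw [k2, k2, ← k1, ← k1, m2, r2 a trivial, r2 b trivial, sub_add_cancel]

end Pool.Agent.P.MP_3d25f3_gt
end

-- part Pool.Agent.P.MP_3d25f3_gt.Core
section

set_option autoImplicit false

open Set Filter Topology

namespace Pool.Agent.P.MP_3d25f3_gt

variable {g : ℕ} {S : List (ℕ × ℤ)}

theorem core (hS : Data S) (s : Side (Seifert g S)) {A : Cov → ℤ} {N : ℕ} {ne : ℕ → ℤ}
    (h : Per g S s.nM A N ne) (hN : 0 < N) (hp : Primi g S N ne) {k : ℕ} (hk : k < N) :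
    |∑ j ∈ Finset.range (k + 1), jmp S j| ≤ g ∧
    ∀ p a : ℕ, p.Prime → N ∣ k * p ^ a → (∃ q ∈ S, ¬ q.1 ∣ k) →
      |2 * ∑ j ∈ Finset.range k, jmp S j + jmp S k| ≤ S.countP fun q => p ∣ q.1 ∧ q.1 ∣ k := by
  have := s.t2
  obtain ⟨U, hx⟩ := s.xn
  have hkill : ∀ x : H (tw tL s.n) 2 (s.X ∩ s.Y) ∅,
      (((tL ^ (N : ℤ) : Laˣ) : La) - 1) • x = 0 := by
    intro x
    obtain ⟨Φ, -⟩ := s.equiv tL 2
    apply Φ.injective
    rw [map_smul, map_zero]
    exact Per.kill s.cocM h tL 2 _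
  obtain ⟨ρ, G, G₁, hF⟩ := exists_family hx (m := N) (by exact_mod_cast hN.ne') hkill
  rcases bridge hS h hN hp hF with h0 | ⟨η, hη, hb⟩
  · simp [h0]
  have hj : ∀ θ, (∀ᶠ u in 𝓝[>] θ, sgn (G u)
        = sgn (G θ) + sgn (cmp (G₁ θ) (LinearMap.ker (G θ)).subtype)) ∧
      ∀ᶠ u in 𝓝[<] θ, sgn (G u) = sgn (G θ) - sgn (cmp (G₁ θ) (LinearMap.ker (G θ)).subtype) :=
    fun θ => jump hF.herm (hF.der θ) (hF.nd θ)
  have hN' : (0 : ℝ) < N := by exact_mod_cast hN
  have hmono : ∀ a b : ℤ, th N a < th N b ↔ a < b := by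
    intro a b
    unfold th
    rw [div_lt_div_iff_of_pos_right hN', mul_lt_mul_iff_right₀ (by positivity), Int.cast_lt]
  have hstep : ∀ k : ℤ, sgn (G (th N (k + 1)))
      - sgn (cmp (G₁ (th N (k + 1))) (LinearMap.ker (G (th N (k + 1)))).subtype)
      = sgn (G (th N k)) + sgn (cmp (G₁ (th N k)) (LinearMap.ker (G (th N k))).subtype) := by
    intro k
    refine step (σ := fun θ => sgn (G θ))
      (d := fun θ => sgn (cmp (G₁ θ) (LinearMap.ker (G θ)).subtype)) hj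
      ((hmono _ _).2 (by omega)) fun θ hθ => ?_
    have hker : LinearMap.ker (G θ) = ⊥ := by
      refine hF.gen θ fun h1 => ?_
      obtain ⟨j, hj⟩ := (cu_pow_eq_one hN θ).1 h1
      have e : θ = th N j := hj
      rw [e] at hθ
      have h2 := (hmono _ _).1 hθ.1
      have h3 := (hmono _ _).1 hθ.2
      omega
    refine sgn_of_zero fun x => ?_
    have : (x : Fin ρ → ℂ) = 0 := (Submodule.mem_bot ℂ).1 (hker.le x.2)
    simp [this]
  have hρ := rho_le hS h hN hF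
  have hbd : ∀ u, |sgn (G u)| ≤ 2 * g := by
    intro u
    have := abs_sgn_le (hF.herm u)
    rw [Module.finrank_fin_fun] at this
    omega
  have hz : th N 0 = 0 := by simp [th]
  have hs := steps (s := fun k => sgn (G (th N k)))
    (d := fun k => sgn (cmp (G₁ (th N k)) (LinearMap.ker (G (th N k))).subtype)) (J := jmp S)
    hη (N := N) hstep (by simp only [hz]; exact sgn_at_zero hF) (jmp_neg S)
    (fun j hj0 hjN => hb j fun hd => by
      have := Int.le_of_dvd (abs_pos.2 hj0) ((dvd_abs _ _).2 hd)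
      omega) hk
  refine ⟨hs.1 g ?_ ?_, fun p a hp' hd hq => ?_⟩
  · obtain ⟨u, hu⟩ := (hj (th N k)).1.exists
    have := hbd u
    rw [hu] at this
    exact_mod_cast this
  · obtain ⟨u, hu⟩ := (hj (th N (-k))).2.exists
    have := hbd u
    rw [hu] at this
    exact_mod_cast this
  · obtain ⟨q, hq, hqk⟩ := hq
    have hk0 : 0 < k := Nat.pos_of_ne_zero fun h0 => hqk (h0 ▸ dvd_zero _)
    have hd' : (N : ℤ) ∣ (k : ℤ) * p ^ a := by exact_mod_cast hd
    have hq' : ¬ (q.1 : ℤ) ∣ (k : ℤ) := fun h1 => hqk (by exact_mod_cast h1)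
    have h1 := sgn_pp hS h hN hF hp' (k := k) hd' ⟨q, hq, hq'⟩
    have h2 := sgn_pp hS h hN hF hp' (k := -k) (by rw [neg_mul]; exact (dvd_neg).2 hd')
      ⟨q, hq, by rwa [dvd_neg]⟩
    simp only [dvd_neg, Int.natCast_dvd_natCast] at h1 h2
    exact hs.2 _ hk0 (by exact_mod_cast h1) (by exact_mod_cast h2)

/-- a good side for the prime `p` -/
lemma exists_side (hS : Data S) (h : EmbedsFlat (Seifert g S)) {p : ℕ} (hp : p.Prime) :
    ∃ (n c : ℕ) (s : Side (Seifert g S)) (A : Cov → ℤ) (ne : ℕ → ℤ), 0 < n ∧ 0 < c ∧ ¬ p ∣ c ∧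
      (∀ q ∈ S, q.1 ∣ n) ∧ (∀ m, (∀ q ∈ S, q.1 ∣ m) → n ∣ m) ∧
      Per g S s.nM A (c * n : ℕ) ne ∧ Primi g S (c * n : ℕ) ne := by
  obtain ⟨n, hn, h1, h2⟩ : ∃ n : ℕ, 0 < n ∧ (∀ q ∈ S, q.1 ∣ n) ∧
      ∀ m, (∀ q ∈ S, q.1 ∣ m) → n ∣ m := by
    refine ⟨S.toFinset.lcm Prod.fst, Nat.pos_of_ne_zero ?_,
      fun q hq => Finset.dvd_lcm (List.mem_toFinset.2 hq),
      fun m hm => Finset.lcm_dvd fun q hq => hm q (List.mem_toFinset.1 hq)⟩
    rw [Ne, Finset.lcm_eq_zero_iff]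
    rintro ⟨q, hq, h0⟩
    have := (hS.1 q (List.mem_toFinset.1 hq)).1
    omega
  have h3 : ∀ m : ℤ, (∀ q ∈ S, (q.1 : ℤ) ∣ m) → (n : ℤ) ∣ m := fun m hm =>
    Int.natCast_dvd.2 (h2 _ fun q hq => Int.natCast_dvd.1 (hm q hq))
  obtain ⟨f, A, ne, hf, hP⟩ := exists_class (g := g) hS h1
  obtain ⟨s₁, s₂, hs⟩ := two_sides h hf
  obtain ⟨A₁, N₁, ne₁, hP₁⟩ := exists_per s₁.cocM
  obtain ⟨A₂, N₂, ne₂, hP₂⟩ := exists_per s₂.cocM
  have hsum := (hP.lin hP₁ hP₂ (c₁ := 1) (c₂ := 1) (a := 0)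
    fun x => ⟨univ, univ_mem, fun y _ z _ => by simp [hs]⟩).1
  obtain ⟨c₁, hc₁⟩ := h3 N₁ fun q hq => hP₁.dvd hS hq
  obtain ⟨c₂, hc₂⟩ := h3 N₂ fun q hq => hP₂.dvd hS hq
  have hn' : (n : ℤ) ≠ 0 := by exact_mod_cast hn.ne'
  have hc : c₁ + c₂ = 1 := by
    apply mul_left_cancel₀ hn'
    rw [mul_add, ← hc₁, ← hc₂]
    linarith
  have key : ∀ (s : Side (Seifert g S)) (A : Cov → ℤ) (ne : ℕ → ℤ) (c : ℤ),
      Per g S s.nM A (n * c) ne → ¬ (p : ℤ) ∣ c →
      ∃ (c : ℕ) (s : Side (Seifert g S)) (A : Cov → ℤ) (ne : ℕ → ℤ), 0 < n ∧ 0 < c ∧ ¬ p ∣ c ∧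
      (∀ q ∈ S, q.1 ∣ n) ∧ (∀ m, (∀ q ∈ S, q.1 ∣ m) → n ∣ m) ∧
      Per g S s.nM A (c * n : ℕ) ne ∧ Primi g S (c * n : ℕ) ne := by
    intro s A ne c hP hc
    have hc0 : c ≠ 0 := fun h0 => hc (h0 ▸ dvd_zero _)
    obtain ⟨s', A', N', ne', hN', hd, hP', hpr⟩ := exists_primi s hP (mul_ne_zero hn' hc0)
    obtain ⟨c', rfl⟩ : n ∣ N' := h2 _ fun q hq => Int.natCast_dvd_natCast.1 (hP'.dvd hS hq)
    refine ⟨c', s', A', ne', hn, Nat.pos_of_mul_pos_left hN', fun hpc => hc ?_, h1, h2, ?_, ?_⟩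
    · rw [Nat.cast_mul, mul_dvd_mul_iff_left hn'] at hd
      exact (Int.natCast_dvd_natCast.2 hpc).trans hd
    · rwa [mul_comm c' n]
    · rwa [mul_comm c' n]
  by_cases hp1 : (p : ℤ) ∣ c₁
  · refine ⟨n, key s₂ A₂ ne₂ c₂ (hc₂ ▸ hP₂) fun hp2 => ?_⟩
    have := dvd_add hp1 hp2
    rw [hc] at this
    exact hp.one_lt.ne' (Nat.dvd_one.1 (by exact_mod_cast this))
  · exact ⟨n, key s₁ A₁ ne₁ c₁ (hc₁ ▸ hP₁) hp1⟩

theorem genus_bound (hS : Data S) (h : EmbedsFlat (Seifert g S)) (k : ℕ) :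
    |∑ j ∈ Finset.range (k + 1), jmp S j| ≤ g := by
  obtain ⟨n, c, s, A, ne, hn, hc, -, h1, -, hP, hpr⟩ := exists_side hS h Nat.prime_two
  have hN : 0 < c * n := Nat.mul_pos hc hn
  have := (core hS s hP hN hpr (Nat.mod_lt k hN)).1
  rwa [(sum_jmp_mod (m := c * n) (fun q hq => (h1 q hq).mul_left c)
    ((Nat.mod_modEq k (c * n)).add_right 1)).1] at this

theorem pp_bound (hS : Data S) (h : EmbedsFlat (Seifert g S)) (p a k : ℕ) (hp : p.Prime)
    (hk : ∀ q ∈ S, q.1 ∣ k * p ^ a) (hq : ∃ q ∈ S, ¬ q.1 ∣ k) :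
    |2 * ∑ j ∈ Finset.range k, jmp S j + jmp S k| ≤ S.countP fun q => p ∣ q.1 ∧ q.1 ∣ k := by
  obtain ⟨n, c, s, A, ne, hn, hc, hpc, h1, h2, hP, hpr⟩ := exists_side hS h hp
  obtain ⟨k', b, hk1, hk2, hk3⟩ := exists_residue hn hc hp hpc (h2 _ hk)
  have hiff : ∀ q ∈ S, (q.1 ∣ k' ↔ q.1 ∣ k) := fun q hq => hk2.dvd_iff (h1 q hq)
  obtain ⟨q, hq, hqk⟩ := hq
  have := (core hS s hP (Nat.mul_pos hc hn) hpr hk1).2 p b hp hk3
    ⟨q, hq, fun h0 => hqk ((hiff q hq).1 h0)⟩
  obtain ⟨e1, e2⟩ := sum_jmp_mod h1 hk2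
  rw [e1, e2] at this
  convert this using 2
  exact List.countP_congr fun q hq => by simp [hiff q hq]

end Pool.Agent.P.MP_3d25f3_gt
end

-- part Pool.Agent.P.MP_3d25f3_gt.LVal
section

/-!
The value at `s = 1` of the exponential zeta function, and nonvanishing of the first generalized
Bernoulli sums attached to odd Dirichlet characters.
-/

namespace Pool.Agent.P.MP_3d25f3_gt.LV

open Complex Set Filter Topology MeasureTheory Asymptotics HurwitzZeta
open scoped Real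

/-- generating function -/
noncomputable def gen (z : ℂ) (t : ℝ) : ℂ := z * Real.exp (-t) / (1 - z * Real.exp (-t))

theorem re_pos {z : ℂ} (hz : ‖z‖ = 1) (hz1 : z ≠ 1) {t : ℝ} (ht : 0 ≤ t) :
    0 < (1 - z * Real.exp (-t)).re := by
  have h1 : z.re < 1 := by
    have h2 : z.re ≤ 1 := hz ▸ Complex.re_le_norm z
    rcases h2.lt_or_eq with h | h
    · exact h
    · exfalso
      apply hz1
      have h3 : z.re ^ 2 + z.im ^ 2 = 1 := by
        have := Complex.sq_norm z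
        rw [hz, Complex.normSq_apply] at this
        nlinarith
      have h4 : z.im = 0 := by
        rw [h] at h3
        nlinarith
      exact Complex.ext (by simpa using h) (by simpa using h4)
  have h5 : Real.exp (-t) ≤ 1 := Real.exp_le_one_iff.mpr (by linarith)
  have h6 : 0 < Real.exp (-t) := Real.exp_pos _
  simp only [sub_re, one_re, mul_re, ofReal_re, ofReal_im, mul_zero, sub_zero, sub_pos]
  rcases le_or_gt z.re 0 with h | h
  · nlinarith
  · nlinarith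

theorem lower_bound {z : ℂ} (hz : ‖z‖ = 1) (hz1 : z ≠ 1) :
    ∃ c : ℝ, 0 < c ∧ ∀ t : ℝ, 0 ≤ t → c ≤ ‖1 - z * Real.exp (-t)‖ := by
  have h0 := re_pos hz hz1 le_rfl
  simp only [neg_zero, Real.exp_zero, ofReal_one, mul_one, sub_re, one_re, sub_pos] at h0
  refine ⟨min 1 (1 - z.re), lt_min one_pos (by linarith), fun t ht => ?_⟩
  refine le_trans ?_ (Complex.re_le_norm _)
  have h5 : Real.exp (-t) ≤ 1 := Real.exp_le_one_iff.mpr (by linarith)
  have h6 : 0 < Real.exp (-t) := Real.exp_pos _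
  simp only [sub_re, one_re, mul_re, ofReal_re, ofReal_im, mul_zero, sub_zero]
  rcases le_or_gt z.re 0 with h | h
  · exact (min_le_left _ _).trans (by nlinarith)
  · exact (min_le_right _ _).trans (by nlinarith)

theorem gen_continuousOn {z : ℂ} (hz : ‖z‖ = 1) (hz1 : z ≠ 1) : ContinuousOn (gen z) (Ici 0) := by
  unfold gen
  refine ContinuousOn.div (by fun_prop) (by fun_prop) fun t ht h => ?_
  have := re_pos hz hz1 ht
  rw [h] at this
  simp at this

theorem gen_bound {z : ℂ} (hz : ‖z‖ = 1) (hz1 : z ≠ 1) :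
    ∃ C : ℝ, ∀ t : ℝ, 0 ≤ t → ‖gen z t‖ ≤ C * Real.exp (-t) := by
  obtain ⟨c, hc, h⟩ := lower_bound hz hz1
  refine ⟨c⁻¹, fun t ht => ?_⟩
  unfold gen
  rw [norm_div, norm_mul, hz, one_mul, Complex.norm_real, Real.norm_eq_abs,
    abs_of_pos (Real.exp_pos _), div_eq_inv_mul]
  exact mul_le_mul_of_nonneg_right (inv_anti₀ hc (h t ht)) (Real.exp_pos _).le

theorem gen_hasSum {z : ℂ} (hz : ‖z‖ = 1) {t : ℝ} (ht : 0 < t) :
    HasSum (fun n : ℕ => z ^ (n + 1) * Real.exp (-((n : ℝ) + 1) * t)) (gen z t) := by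
  have h1 : ‖z * Real.exp (-t)‖ < 1 := by
    rw [norm_mul, hz, one_mul, Complex.norm_real, Real.norm_eq_abs, abs_of_pos (Real.exp_pos _)]
    exact Real.exp_lt_one_iff.mpr (by linarith)
  have h2 := (hasSum_geometric_of_norm_lt_one h1).mul_left (z * Real.exp (-t))
  unfold gen
  rw [div_eq_mul_inv]
  refine h2.congr_fun fun n => ?_
  have : Real.exp (-((n : ℝ) + 1) * t) = Real.exp (-t) ^ (n + 1) := by
    rw [← Real.exp_nat_mul]
    congr 1
    push_cast
    ring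
  rw [this]
  push_cast
  ring

theorem mellin_gen_one {z : ℂ} (hz : ‖z‖ = 1) (hz1 : z ≠ 1) :
    mellin (gen z) 1 = -Complex.log (1 - z) := by
  obtain ⟨C, hC⟩ := gen_bound hz hz1
  have hint : IntegrableOn (gen z) (Ioi 0) := by
    refine Integrable.mono' ((exp_neg_integrableOn_Ioi 0 one_pos).const_mul C) ?_ ?_
    · exact ((gen_continuousOn hz hz1).mono Ioi_subset_Ici_self).aestronglyMeasurable
        measurableSet_Ioi
    · filter_upwards [ae_restrict_mem measurableSet_Ioi] with t ht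
      simpa using hC t (le_of_lt ht)
  have hderiv : ∀ t ∈ Ici (0 : ℝ),
      HasDerivAt (fun t : ℝ => Complex.log (1 - z * Real.exp (-t))) (gen z t) t := by
    intro t ht
    have h1 : HasDerivAt (fun t : ℝ => (1 : ℂ) - z * Real.exp (-t)) (z * Real.exp (-t)) t := by
      have h2 : HasDerivAt (fun t : ℝ => Real.exp (-t)) (-Real.exp (-t)) t := by
        simpa using (hasDerivAt_neg t).exp
      have h3 := (h2.ofReal_comp.const_mul z).const_sub 1
      simpa using h3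
    exact h1.clog_real (Or.inl (re_pos hz hz1 ht))
  have hlim : Tendsto (fun t : ℝ => Complex.log (1 - z * Real.exp (-t))) atTop (𝓝 0) := by
    have h1 : Tendsto (fun t : ℝ => (1 : ℂ) - z * Real.exp (-t)) atTop (𝓝 1) := by
      have h2 : Tendsto (fun t : ℝ => ((Real.exp (-t) : ℝ) : ℂ)) atTop (𝓝 0) := by
        have := (Complex.continuous_ofReal.tendsto 0).comp Real.tendsto_exp_neg_atTop_nhds_zero
        rw [Complex.ofReal_zero] at this
        exact this
      simpa using (h2.const_mul z).const_sub 1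
    have h3 : ContinuousAt Complex.log 1 := continuousAt_clog (Or.inl (by simp))
    have h4 := h3.tendsto.comp h1
    rw [Complex.log_one] at h4
    exact h4
  have := integral_Ioi_of_hasDerivAt_of_tendsto' hderiv hint hlim
  simp only [mellin, sub_self, cpow_zero, smul_eq_mul, one_mul]
  rw [this]
  simp

theorem mellin_gen_differentiableAt {z : ℂ} (hz : ‖z‖ = 1) (hz1 : z ≠ 1) :
    DifferentiableAt ℂ (mellin (gen z)) 1 := by
  obtain ⟨C, hC⟩ := gen_bound hz hz1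
  refine mellin_differentiableAt_of_isBigO_rpow_exp (a := 1) (b := 0) one_pos ?_ ?_ ?_ (by simp)
  · exact ((gen_continuousOn hz hz1).mono Ioi_subset_Ici_self).locallyIntegrableOn
      measurableSet_Ioi
  · refine IsBigO.of_bound C ?_
    filter_upwards [eventually_ge_atTop 0] with t ht
    simpa [Real.abs_exp] using hC t ht
  · refine IsBigO.of_bound (max C 0) ?_
    filter_upwards [self_mem_nhdsWithin] with t ht
    have h1 := hC t (le_of_lt ht)
    have h5 : Real.exp (-t) ≤ 1 := Real.exp_le_one_iff.mpr (by have : 0 < t := ht; linarith)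
    have h6 : 0 < Real.exp (-t) := Real.exp_pos _
    simp only [neg_zero, Real.rpow_zero, norm_one, mul_one]
    refine h1.trans ?_
    calc C * Real.exp (-t) ≤ max C 0 * Real.exp (-t) :=
          mul_le_mul_of_nonneg_right (le_max_left _ _) h6.le
      _ ≤ max C 0 * 1 := mul_le_mul_of_nonneg_left h5 (le_max_right _ _)
      _ = max C 0 := mul_one _

theorem expZeta_one (a : ℝ) (ha : (a : UnitAddCircle) ≠ 0) :
    expZeta a 1 = -Complex.log (1 - cexp (2 * π * I * a)) := by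
  set z : ℂ := cexp (2 * π * I * a) with hzdef
  have hz : ‖z‖ = 1 := by
    rw [hzdef, show (2 * π * I * a : ℂ) = ((2 * π * a : ℝ) : ℂ) * I by push_cast; ring]
    exact Complex.norm_exp_ofReal_mul_I _
  have hz1 : z ≠ 1 := by
    intro h
    obtain ⟨n, hn⟩ := Complex.exp_eq_one_iff.mp h
    apply ha
    have h2 : (a : ℂ) = n := by
      have h3 : (2 * π * I : ℂ) ≠ 0 := by simp [Real.pi_ne_zero]
      apply mul_left_cancel₀ h3
      rw [hn]; ring
    have h4 : a = n := by exact_mod_cast h2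
    rw [h4]
    exact (AddCircle.coe_eq_zero_iff (1 : ℝ)).mpr ⟨n, by simp⟩
  have key : ∀ s : ℂ, 1 < s.re → Gamma s * expZeta a s = mellin (gen z) s := by
    intro s hs
    have h1 : HasSum (fun n : ℕ => Gamma s * z ^ (n + 1) / (((n : ℝ) + 1 : ℝ) : ℂ) ^ s)
        (mellin (gen z) s) := by
      refine hasSum_mellin (a := fun n : ℕ => z ^ (n + 1)) (p := fun n : ℕ => (n : ℝ) + 1)
        (fun n => Or.inr (by positivity)) (by linarith) (fun t ht => gen_hasSum hz ht) ?_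
      simp only [norm_pow, hz, one_pow]
      have := (summable_nat_add_iff 1).mpr (Real.summable_one_div_nat_rpow.mpr hs)
      simpa using this
    have h2 := hasSum_expZeta_of_one_lt_re a hs
    have hs0 : s ≠ 0 := by
      rintro rfl
      simp at hs
      linarith
    have h3 : HasSum (fun n : ℕ => cexp (2 * π * I * a * ((n + 1 : ℕ) : ℂ)) / ((n + 1 : ℕ) : ℂ) ^ s)
        (expZeta a s) := by
      have := (hasSum_nat_add_iff' 1).mpr h2
      simpa [hs0] using this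
    refine (h3.mul_left (Gamma s)).unique ?_
    refine h1.congr_fun fun n => ?_
    rw [hzdef, ← Complex.exp_nat_mul]
    push_cast
    ring_nf
  have hc1 : ContinuousAt (fun s => Gamma s * expZeta a s) 1 :=
    ((Complex.differentiableAt_Gamma 1 (by
      intro m h
      have := congrArg Complex.re h
      simp at this
      have : (0 : ℝ) ≤ m := Nat.cast_nonneg m
      linarith)).mul (differentiable_expZeta_of_ne_zero ha 1)).continuousAt
  have hc2 : ContinuousAt (mellin (gen z)) 1 := (mellin_gen_differentiableAt hz hz1).continuousAt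
  have hl : Tendsto (fun x : ℝ => (x : ℂ)) (𝓝[>] 1) (𝓝 1) := by
    have : Tendsto (fun x : ℝ => (x : ℂ)) (𝓝 1) (𝓝 ((1 : ℝ) : ℂ)) :=
      Complex.continuous_ofReal.tendsto 1
    simpa using this.mono_left nhdsWithin_le_nhds
  have h4 := tendsto_nhds_unique_of_eventuallyEq (hc1.tendsto.comp hl) (hc2.tendsto.comp hl) (by
    filter_upwards [self_mem_nhdsWithin] with x hx
    exact key x (by simpa using hx))
  rw [Complex.Gamma_one, one_mul] at h4
  rw [h4, mellin_gen_one hz hz1]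

theorem log_diff {x : ℝ} (h0 : 0 < x) (h1 : x < 1) :
    Complex.log (1 - cexp (2 * π * I * x)) - Complex.log (1 - cexp (2 * π * I * (-x : ℝ)))
      = π * I * (2 * x - 1) := by
  have hs : 0 < 2 * Real.sin (π * x) := by
    have := Real.sin_pos_of_pos_of_lt_pi (mul_pos Real.pi_pos h0) (by nlinarith [Real.pi_pos])
    linarith
  have e1 : ∀ y : ℝ, 1 - cexp (2 * π * I * y)
      = ((2 * Real.sin (π * y) : ℝ) : ℂ) * cexp (((π * y - π / 2 : ℝ) : ℂ) * I) := by
    intro y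
    have h2 : cexp (((π * y - π / 2 : ℝ) : ℂ) * I) = cexp (π * y * I) * (-I) := by
      rw [← Complex.exp_neg_pi_div_two_mul_I, ← Complex.exp_add]
      congr 1
      push_cast
      ring
    rw [h2]
    push_cast
    rw [Complex.sin, show (2 * π * I * y : ℂ) = π * y * I + π * y * I by ring, Complex.exp_add]
    have h3 : cexp (-(π * y) * I) * cexp (π * y * I) = 1 := by
      rw [← Complex.exp_add]; simp
    linear_combination (cexp (-(π * y) * I) * cexp (π * y * I) - cexp (π * y * I) ^ 2) * I_mul_I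
      - h3
  have e2 : 1 - cexp (2 * π * I * (-x : ℝ))
      = ((2 * Real.sin (π * x) : ℝ) : ℂ) * cexp (((π / 2 - π * x : ℝ) : ℂ) * I) := by
    have h2 := e1 (1 - x)
    have h3 : cexp (2 * π * I * ((1 - x : ℝ) : ℂ)) = cexp (2 * π * I * (-x : ℝ)) := by
      rw [show (2 * π * I * ((1 - x : ℝ) : ℂ)) = 2 * π * I * (-x : ℝ) + 2 * π * I by
        push_cast; ring, Complex.exp_add, Complex.exp_two_pi_mul_I, mul_one]
    rw [h3, show π * (1 - x) = π - π * x by ring, Real.sin_pi_sub] at h2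
    rw [h2]
    have h4 : π - π * x - π / 2 = π / 2 - π * x := by ring
    rw [h4]
  have hpi := Real.pi_pos
  rw [e1 x, e2, Complex.log_ofReal_mul hs (Complex.exp_ne_zero _),
    Complex.log_ofReal_mul hs (Complex.exp_ne_zero _),
    Complex.log_exp (by simp; nlinarith) (by simp; nlinarith),
    Complex.log_exp (by simp; nlinarith) (by simp; nlinarith)]
  push_cast
  ring

end Pool.Agent.P.MP_3d25f3_gt.LV

namespace Pool.Agent.P.MP_3d25f3_gt.LV

open Complex Finset HurwitzZeta ZMod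
open scoped Real

/-- `2 m` times the first periodic Bernoulli function at `y / m`. -/
def bern {m : ℕ} (y : ZMod m) : ℤ := if y = 0 then 0 else 2 * (y.val : ℤ) - m

variable {m : ℕ} [NeZero m]

theorem expZeta_diff (j : ZMod m) (hj : j ≠ 0) :
    expZeta (toAddCircle (-j)) 1 - expZeta (toAddCircle j) 1 = π * I / m * bern j := by
  have hm : (0 : ℝ) < m := Nat.cast_pos.mpr (NeZero.pos m)
  have h1 : toAddCircle j = ((j.val / m : ℝ) : UnitAddCircle) := toAddCircle_apply j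
  have h2 : toAddCircle (-j) = ((-(j.val / m) : ℝ) : UnitAddCircle) := by
    rw [map_neg, h1]; rfl
  have h3 : ((j.val / m : ℝ) : UnitAddCircle) ≠ 0 := by
    rw [← h1, Ne, toAddCircle_eq_zero]; exact hj
  have h4 : ((-(j.val / m) : ℝ) : UnitAddCircle) ≠ 0 := by
    rw [← h2, Ne, toAddCircle_eq_zero]; exact neg_ne_zero.mpr hj
  have h5 : (0 : ℝ) < j.val / m := div_pos (Nat.cast_pos.mpr (ZMod.val_pos.mpr hj)) hm
  have h6 : (j.val / m : ℝ) < 1 := (div_lt_one hm).mpr (Nat.cast_lt.mpr (ZMod.val_lt j))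
  rw [h1, h2, expZeta_one _ h3, expZeta_one _ h4]
  have h7 := log_diff h5 h6
  have hm' : (m : ℂ) ≠ 0 := Nat.cast_ne_zero.mpr (NeZero.ne m)
  have h8 : (π * I / m * bern j : ℂ) = π * I * (2 * ((j.val / m : ℝ) : ℂ) - 1) := by
    simp only [bern, if_neg hj]
    push_cast
    field_simp
  rw [h8, ← h7]
  ring

theorem exists_phi (χ : DirichletCharacter ℂ m) (hχ : χ.Odd) :
    ∃ Φ : ZMod m → ℂ, ZMod.dft Φ = χ ∧
      (∀ (u : (ZMod m)ˣ) (x : ZMod m), Φ (u⁻¹.val * x) = χ u * Φ x) ∧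
      ∑ x, Φ x * bern x ≠ 0 := by
  set Φ : ZMod m → ℂ := ZMod.dft.symm χ with hΦ
  have h1 : ZMod.dft Φ = χ := LinearEquiv.apply_symm_apply _ _
  have hodd : Function.Odd Φ := ZMod.dft_odd_iff.mp (h1 ▸ hχ.to_fun)
  have h0 : Φ 0 = 0 := hodd.map_zero
  refine ⟨Φ, h1, fun u x => ?_, ?_⟩
  · rw [hΦ, ZMod.invDFT_apply', ZMod.invDFT_apply', ← mul_neg, ← ZMod.dft_comp_unitMul]
    have : (fun j => χ (u.val * j)) = fun j => χ u * χ j := by
      ext j; rw [map_mul]
    rw [this, ZMod.dft_const_mul]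
    simp only [smul_eq_mul]
    ring
  · have hne : χ ≠ 1 := by
      rintro rfl
      exact DirichletCharacter.not_even_and_odd _ ⟨by
        rw [DirichletCharacter.Even, MulChar.one_apply isUnit_one.neg], hχ⟩
    have hL := DirichletCharacter.LFunction_apply_one_ne_zero hne
    rw [DirichletCharacter.LFunction, ← h1, ZMod.LFunction_dft Φ (Or.inl h0)] at hL
    have h2 : ∑ j, Φ j * expZeta (toAddCircle (-j)) 1 = -∑ j, Φ j * expZeta (toAddCircle j) 1 := by
      rw [← Finset.sum_neg_distrib]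
      refine Fintype.sum_equiv (Equiv.neg _) _ _ fun j => ?_
      simp only [Equiv.neg_apply]
      rw [hodd j]
      ring
    have h3 : 2 * ∑ j, Φ j * expZeta (toAddCircle (-j)) 1 = π * I / m * ∑ x, Φ x * bern x := by
      rw [two_mul]
      nth_rewrite 2 [h2]
      rw [← sub_eq_add_neg, ← Finset.sum_sub_distrib, Finset.mul_sum]
      refine Finset.sum_congr rfl fun j _ => ?_
      by_cases hj : j = 0
      · rw [hj, h0]; simp
      · rw [← mul_sub, expZeta_diff j hj]; ring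
    intro h4
    rw [h4, mul_zero] at h3
    exact hL ((mul_eq_zero.mp h3).resolve_left two_ne_zero)

end Pool.Agent.P.MP_3d25f3_gt.LV
end

-- part Pool.Agent.P.MP_3d25f3_gt.NtB
section

set_option autoImplicit false

open Set Filter Topology

namespace Pool.Agent.P.MP_3d25f3_gt

/-- the embedding of `ZMod d` as the multiples of `c` -/
def ntb_io (n c : ℕ) {d : ℕ} (y : ZMod d) : ZMod n := ((c * y.val : ℕ) : ZMod n)

lemma ntb_io_nat {n c d : ℕ} (h : n = c * d) (a : ℕ) :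
    ntb_io n c (a : ZMod d) = ((c * a : ℕ) : ZMod n) := by
  subst h
  unfold ntb_io
  rw [ZMod.val_natCast, ZMod.natCast_eq_natCast_iff]
  exact (Nat.mod_modEq a d).mul_left' c

lemma ntb_io_val {n c d : ℕ} [NeZero n] [NeZero d] (h : n = c * d) (y : ZMod d) :
    (ntb_io n c y).val = c * y.val := by
  have hc : 0 < c := Nat.pos_of_ne_zero fun h0 => NeZero.ne n (by simp [h, h0])
  exact ZMod.val_cast_of_lt (h ▸ Nat.mul_lt_mul_of_pos_left (ZMod.val_lt y) hc)

lemma ntb_io_inj {n c d : ℕ} [NeZero n] [NeZero d] (h : n = c * d) :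
    Function.Injective (ntb_io n c : ZMod d → ZMod n) := by
  have hc : 0 < c := Nat.pos_of_ne_zero fun h0 => NeZero.ne n (by simp [h, h0])
  intro y y' hy
  have := congrArg ZMod.val hy
  rw [ntb_io_val h, ntb_io_val h] at this
  exact ZMod.val_injective d (Nat.eq_of_mul_eq_mul_left hc this)

lemma ntb_io_mul {n c d : ℕ} [NeZero n] [NeZero d] (h : n = c * d) (hd : d ∣ n) (k : ZMod n)
    (y : ZMod d) : ntb_io n c (ZMod.castHom hd (ZMod d) k * y) = k * ntb_io n c y := by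
  obtain ⟨a, rfl⟩ := ZMod.natCast_zmod_surjective k
  obtain ⟨b, rfl⟩ := ZMod.natCast_zmod_surjective y
  rw [map_natCast, ← Nat.cast_mul, ntb_io_nat h, ntb_io_nat h]
  push_cast
  ring

lemma ntb_bern {n c d : ℕ} [NeZero n] [NeZero d] (h : n = c * d) (y : ZMod d) :
    LV.bern (ntb_io n c y) = c * LV.bern y := by
  have h0 : ntb_io n c (0 : ZMod d) = 0 := by simp [ntb_io]
  unfold LV.bern
  by_cases hy : y = 0
  · simp [hy, h0]
  · rw [if_neg hy, if_neg fun h1 => hy (ntb_io_inj h (h1.trans h0.symm)), ntb_io_val h, h]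
    push_cast
    ring

lemma ntb_fib {n d : ℕ} [NeZero n] [NeZero d] (hd : d ∣ n) : ∃ N : ℂ, N ≠ 0 ∧
    ∀ F : ZMod d → ℂ, ∑ k : ZMod n, F (ZMod.castHom hd (ZMod d) k) = N * ∑ j, F j := by
  have hs := ZMod.castHom_surjective hd
  refine ⟨((Finset.univ.filter fun k : ZMod n => ZMod.castHom hd (ZMod d) k = 0).card : ℂ), ?_,
    fun F => ?_⟩
  · rw [Nat.cast_ne_zero, Finset.card_ne_zero]
    exact ⟨0, Finset.mem_filter.2 ⟨Finset.mem_univ _, map_zero _⟩⟩
  · rw [← Finset.sum_fiberwise (s := Finset.univ) (g := ZMod.castHom hd (ZMod d)), Finset.mul_sum]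
    refine Finset.sum_congr rfl fun j _ => ?_
    rw [← AddMonoidHom.card_fiber_eq_of_mem_range (ZMod.castHom hd (ZMod d)) (hs j) (hs 0),
      ← nsmul_eq_mul, ← Finset.sum_const]
    exact Finset.sum_congr rfl fun k hk => by rw [(Finset.mem_filter.1 hk).2]

lemma ntb_kill {n d e : ℕ} [NeZero n] [NeZero d] (hd : d ∣ n) (he : ¬ d ∣ e)
    (χ : DirichletCharacter ℂ d) {Φ : ZMod d → ℂ} (hΦ : ZMod.dft Φ = χ) (B : ZMod n → ℂ)
    (hB : ∀ k, B (k + e) = B k) : ∑ k : ZMod n, Φ (ZMod.castHom hd (ZMod d) k) * B k = 0 := by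
  have h1 : Φ = ZMod.dft.symm χ := by rw [← hΦ, LinearEquiv.symm_apply_apply]
  have h2 : ∀ u : ZMod d, ∑ k : ZMod n,
      ZMod.stdAddChar (u * ZMod.castHom hd (ZMod d) k) * χ u * B k = 0 := by
    intro u
    by_cases hu : IsUnit u
    · have h3 : ∑ k : ZMod n, ZMod.stdAddChar (u * ZMod.castHom hd (ZMod d) k) * χ u * B k =
          ZMod.stdAddChar (u * (e : ZMod d)) * ∑ k : ZMod n,
            ZMod.stdAddChar (u * ZMod.castHom hd (ZMod d) k) * χ u * B k := by
        rw [Finset.mul_sum, ← Equiv.sum_comp (Equiv.addRight (e : ZMod n))]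
        refine Finset.sum_congr rfl fun k _ => ?_
        rw [Equiv.coe_addRight, hB, map_add, map_natCast, mul_add, AddChar.map_add_eq_mul]
        ring
      have h4 : ZMod.stdAddChar (u * (e : ZMod d)) ≠ 1 := fun h4 => by
        rw [← (ZMod.stdAddChar (N := d)).map_zero_eq_one, ZMod.injective_stdAddChar.eq_iff,
          hu.mul_right_eq_zero, ZMod.natCast_eq_zero_iff] at h4
        exact he h4
      have h5 := sub_eq_zero.2 h3
      rw [← one_sub_mul] at h5
      exact (mul_eq_zero.1 h5).resolve_left (sub_ne_zero.2 h4.symm)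
    · simp [χ.map_nonunit hu]
  simp only [h1, ZMod.invDFT_apply, smul_eq_mul, mul_assoc, ← Finset.mul_sum, Finset.sum_mul]
  rw [Finset.sum_comm]
  simp only [← mul_assoc, h2, Finset.sum_const_zero, mul_zero]

lemma ntb_level {n : ℕ} [NeZero n] (x : ZMod n) : ∃ c d, n = c * d ∧
    ∃ b : (ZMod d)ˣ, x = ntb_io n c b.val := by
  have hg : 0 < Nat.gcd x.val n := Nat.gcd_pos_of_pos_right _ (NeZero.pos n)
  have h : n = Nat.gcd x.val n * (n / Nat.gcd x.val n) :=
    (Nat.mul_div_cancel' (Nat.gcd_dvd_right _ _)).symm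
  refine ⟨_, _, h, ZMod.unitOfCoprime _ (Nat.coprime_div_gcd_div_gcd hg), ?_⟩
  rw [ZMod.coe_unitOfCoprime, ntb_io_nat h, Nat.mul_div_cancel' (Nat.gcd_dvd_left _ _),
    ZMod.natCast_zmod_val]

/-- independence of the sawtooth values -/
theorem odd_zero {n : ℕ} [NeZero n] (f : ZMod n → ℂ) (hf : ∀ x, f (-x) = -f x)
    (h : ∀ k : ZMod n, ∑ x, f x * (LV.bern (k * x) : ℂ) = 0) :
    f = 0 := by
  suffices H : ∀ c d, n = c * d → ∀ b : (ZMod d)ˣ, f (ntb_io n c b.val) = 0 by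
    funext x
    obtain ⟨c, d, hn, b, rfl⟩ := ntb_level x
    exact H c d hn b
  intro c
  induction c using Nat.strong_induction_on with
  | _ c ih =>
  intro d hn a
  have : NeZero d := ⟨fun h0 => NeZero.ne n (by simp [hn, h0])⟩
  have hc : c ≠ 0 := fun h0 => NeZero.ne n (by simp [hn, h0])
  have hd : d ∣ n := ⟨c, by rw [hn, mul_comm]⟩
  have key : ∀ χ : DirichletCharacter ℂ d,
      ∑ b : (ZMod d)ˣ, χ b * f (ntb_io n c b.val) = 0 := by
    intro χ
    rcases χ.even_or_odd with hχ | hχ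
    · have h1 : ∑ b : (ZMod d)ˣ, χ b * f (ntb_io n c b.val) =
          -∑ b : (ZMod d)ˣ, χ b * f (ntb_io n c b.val) := by
        rw [← Finset.sum_neg_distrib, ← Equiv.sum_comp (Equiv.neg _)]
        refine Finset.sum_congr rfl fun b _ => ?_
        have h2 := ntb_io_mul hn hd (-1) b.val
        rw [map_neg, map_one, neg_one_mul, neg_one_mul] at h2
        rw [Equiv.neg_apply, Units.val_neg, hχ.eval_neg, h2, hf]
        ring
      linear_combination (1 / 2 : ℂ) * h1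
    obtain ⟨Φ, h1, h2, h3⟩ := LV.exists_phi χ hχ
    obtain ⟨N, hN, hF⟩ := ntb_fib hd
    have h4 : ∑ x, f x * ∑ k : ZMod n, Φ (ZMod.castHom hd (ZMod d) k) * LV.bern (k * x) = 0 := by
      simp only [Finset.mul_sum]
      rw [Finset.sum_comm]
      refine Finset.sum_eq_zero fun k _ => ?_
      have := congrArg (Φ (ZMod.castHom hd (ZMod d) k) * ·) (h k)
      simp only [Finset.mul_sum, mul_zero] at this
      rw [← this]
      exact Finset.sum_congr rfl fun x _ => by ring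
    rw [← Fintype.sum_of_injective (fun b : (ZMod d)ˣ => ntb_io n c b.val)
      ((ntb_io_inj hn).comp Units.val_injective)
      (fun b => (c * N * ∑ x, Φ x * LV.bern x) * (χ b * f (ntb_io n c b.val))), ← Finset.mul_sum] at h4
    · exact (mul_eq_zero.1 h4).resolve_left
        (mul_ne_zero (mul_ne_zero (Nat.cast_ne_zero.2 hc) hN) h3)
    · intro x hx
      obtain ⟨c', d', hn', b, rfl⟩ := ntb_level x
      rcases lt_trichotomy c' c with hl | rfl | hl
      · rw [ih c' hl d' hn' b, zero_mul]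
      · obtain rfl : d = d' := Nat.eq_of_mul_eq_mul_left (Nat.pos_of_ne_zero hc) (hn.symm.trans hn')
        exact absurd ⟨b, rfl⟩ hx
      · have hd' : 0 < d' := Nat.pos_of_ne_zero fun h0 => NeZero.ne n (by simp [hn', h0])
        have hlt : d' < d := by
          by_contra hh
          have := Nat.mul_lt_mul_of_lt_of_le hl (not_lt.1 hh) hd'
          omega
        rw [ntb_kill hd (Nat.not_dvd_of_pos_of_lt hd' hlt) χ h1, mul_zero]
        intro k
        have h5 : (d' : ZMod n) * ntb_io n c' b.val = 0 := by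
          unfold ntb_io
          rw [← Nat.cast_mul, ZMod.natCast_eq_zero_iff]
          exact ⟨b.val.val, by rw [hn']; ring⟩
        rw [add_mul, h5, add_zero]
    · intro b
      have h5 := hF fun j => Φ j * LV.bern (j * b.val)
      have h6 : ∑ j, Φ j * LV.bern (j * b.val) = χ b * ∑ x, Φ x * LV.bern x := by
        rw [Finset.mul_sum, ← Equiv.sum_comp (Units.mulLeft b⁻¹)]
        refine Finset.sum_congr rfl fun j _ => ?_
        rw [Units.mulLeft_apply, h2, mul_right_comm b⁻¹.val, Units.inv_mul, one_mul, mul_assoc]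
      have h7 : ∀ k : ZMod n, Φ (ZMod.castHom hd (ZMod d) k) * LV.bern (k * ntb_io n c b.val) =
          c * (Φ (ZMod.castHom hd (ZMod d) k) *
            LV.bern (ZMod.castHom hd (ZMod d) k * b.val)) := fun k => by
        rw [← ntb_io_mul hn hd, ntb_bern hn]
        push_cast
        ring
      simp only [h7, ← Finset.mul_sum, h5, h6]
      ring
  have h1 : ∑ χ : DirichletCharacter ℂ d, χ a.val⁻¹ *
      ∑ b : (ZMod d)ˣ, χ b * f (ntb_io n c b.val) = 0 := by simp [key]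
  simp only [Finset.mul_sum, ← mul_assoc] at h1
  rw [Finset.sum_comm] at h1
  simp only [← Finset.sum_mul, DirichletCharacter.sum_char_inv_mul_char_eq ℂ a.isUnit,
    Units.val_inj, ite_mul, zero_mul, Finset.sum_ite_eq, Finset.mem_univ, if_true] at h1
  exact (mul_eq_zero.1 h1).resolve_left
    (Nat.cast_ne_zero.2 (Nat.totient_pos.2 (NeZero.pos d)).ne')

/-- the data are symmetric -/
def Symm (S : List (ℕ × ℤ)) : Prop :=
  ∀ (a : ℕ) (b : ℤ), S.countP (fun q => q.1 = a ∧ q.2 ≡ b [ZMOD a])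
    = S.countP (fun q => q.1 = a ∧ q.2 ≡ -b [ZMOD a])

lemma ntb_saw {n : ℕ} [NeZero n] (z : ℤ) :
    (LV.bern (z : ZMod n) : ℚ) = 2 * n * saw (z / n) := by
  have hn : (n : ℚ) ≠ 0 := Nat.cast_ne_zero.2 (NeZero.ne n)
  unfold LV.bern saw
  rw [Int.fract_div_intCast_eq_div_intCast_mod, ZMod.val_intCast]
  by_cases hz : (n : ℤ) ∣ z
  · simp [(ZMod.intCast_zmod_eq_zero_iff_dvd z n).2 hz, Int.emod_eq_zero_of_dvd hz]
  · rw [if_neg (mt (ZMod.intCast_zmod_eq_zero_iff_dvd z n).1 hz), if_neg (div_ne_zero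
      (Int.cast_ne_zero.2 (mt Int.dvd_of_emod_eq_zero hz)) hn)]
    push_cast
    field_simp

lemma ntb_count {n : ℕ} [NeZero n] (X : ℕ × ℤ → ZMod n) (F : ZMod n → ℚ) (L : List (ℕ × ℤ)) :
    ∑ x, (L.countP (fun q => X q = x) : ℚ) * F x = (L.map fun q => F (X q)).sum := by
  induction L with
  | nil => simp
  | cons q L ih => simp [List.countP_cons, add_mul, Finset.sum_add_distrib, ih, add_comm]

lemma ntb_iff {n a a' : ℕ} {b b' : ℤ} (hn : n ≠ 0) (ha : a ∣ n) (ha' : a' ∣ n)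
    (h : Int.gcd a b = 1) (h' : Int.gcd a' b' = 1) :
    (a' = a ∧ b' ≡ b [ZMOD a]) ↔
      ((((n / a' : ℕ) : ℤ) * b' : ℤ) : ZMod n) = ((((n / a : ℕ) : ℤ) * b : ℤ) : ZMod n) := by
  have aux : ∀ {a a' : ℕ} {b b' : ℤ}, a ∣ n → a' ∣ n → Int.gcd a b = 1 →
      (n : ℤ) ∣ ((n / a : ℕ) : ℤ) * b - ((n / a' : ℕ) : ℤ) * b' → a ∣ a' := by
    intro a a' b b' ha ha' h ⟨t, ht⟩
    have e1 : (n : ℤ) = a * ((n / a : ℕ) : ℤ) := by exact_mod_cast (Nat.mul_div_cancel' ha).symm
    have e2 : (n : ℤ) = a' * ((n / a' : ℕ) : ℤ) := by exact_mod_cast (Nat.mul_div_cancel' ha').symm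
    have h1 : (n : ℤ) * (a' * b) = n * (a * (b' + a' * t)) := by
      linear_combination (a * a') * ht + (a' * b) * e1 - (a * b') * e2
    have h2 := mul_left_cancel₀ (Int.natCast_ne_zero.2 hn) h1
    exact Int.natCast_dvd_natCast.1 (Int.dvd_of_dvd_mul_left_of_gcd_one ⟨_, h2⟩ h)
  rw [ZMod.intCast_eq_intCast_iff_dvd_sub]
  have e1 : (n : ℤ) = ((n / a : ℕ) : ℤ) * a := by exact_mod_cast (Nat.div_mul_cancel ha).symm
  constructor
  · rintro ⟨rfl, h1⟩
    rw [← mul_sub]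
    exact e1 ▸ mul_dvd_mul_left _ h1.dvd
  · intro h1
    obtain rfl : a' = a := Nat.dvd_antisymm (aux ha' ha h' (dvd_sub_comm.1 h1)) (aux ha ha' h h1)
    refine ⟨rfl, Int.modEq_iff_dvd.2 ?_⟩
    rw [← mul_sub] at h1
    refine (mul_dvd_mul_iff_left (a := ((n / a' : ℕ) : ℤ)) fun h0 => hn ?_).1 (e1 ▸ h1)
    rw [h0, zero_mul] at e1
    exact_mod_cast e1

theorem symm_of_jmp {S : List (ℕ × ℤ)} (hS : Data S) (h : ∀ k, jmp S k = 0) : Symm S := by
  intro a b
  obtain ⟨n, hn, hd⟩ : ∃ n : ℕ, n ≠ 0 ∧ ∀ q ∈ S, q.1 ∣ n := by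
    refine ⟨(S.map Prod.fst).prod, List.prod_ne_zero fun h0 => ?_,
      fun q hq => List.dvd_prod (List.mem_map_of_mem hq)⟩
    obtain ⟨q, hq, h1⟩ := List.mem_map.1 h0
    have := (hS.1 q hq).1
    omega
  have : NeZero n := ⟨hn⟩
  set X : ℕ × ℤ → ZMod n := fun q => ((((n / q.1 : ℕ) : ℤ) * q.2 : ℤ) : ZMod n) with hX
  have h1 : ∀ k : ZMod n, ∑ x, (S.countP (fun q => X q = x) : ℚ) * LV.bern (k * x) = 0 := by
    intro k
    obtain ⟨k, rfl⟩ := ZMod.intCast_surjective k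
    rw [ntb_count X (fun x => LV.bern ((k : ZMod n) * x)), ← mul_zero (n : ℚ), ← h k, jmp, ← mul_assoc,
      ← List.sum_map_mul_left]
    refine congrArg _ (List.map_congr_left fun q hq => ?_)
    have e1 : (n : ℚ) = q.1 * ((n / q.1 : ℕ) : ℚ) := by
      exact_mod_cast (Nat.mul_div_cancel' (hd q hq)).symm
    have e2 : (q.1 : ℚ) ≠ 0 := Nat.cast_ne_zero.2 (by have := (hS.1 q hq).1; omega)
    have e3 : (n : ℚ) ≠ 0 := Nat.cast_ne_zero.2 hn
    rw [hX, ← Int.cast_mul, ntb_saw, mul_comm (2 : ℚ)]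
    refine congrArg _ (congrArg _ ?_)
    rw [div_eq_div_iff e3 e2, Int.cast_mul, Int.cast_mul, Int.cast_natCast]
    linear_combination (-k * q.2) * e1
  have h2 := odd_zero (n := n) (fun x => (((S.countP (fun q => X q = x) : ℚ) -
      (S.countP (fun q => X q = -x) : ℚ) : ℚ) : ℂ)) (fun x => by simp) fun k => by
    have h3 := h1 (-k)
    rw [← Equiv.sum_comp (Equiv.neg _)] at h3
    simp only [Equiv.neg_apply, neg_mul_neg] at h3
    have h4 := congrArg ((↑) : ℚ → ℂ) (sub_eq_zero.2 ((h1 k).trans h3.symm))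
    rw [← Finset.sum_sub_distrib] at h4
    push_cast at h4 ⊢
    simpa only [sub_mul] using h4
  by_cases hab : a ∣ n ∧ Int.gcd a b = 1
  · have h3 := congrFun h2 (X (a, b))
    simp only [Pi.zero_apply, Rat.cast_eq_zero, sub_eq_zero, Nat.cast_inj] at h3
    have h4 : -X (a, b) = X (a, -b) := by simp [hX]
    rw [h4] at h3
    rw [List.countP_congr (q := fun q => X q = X (a, b)), h3]
    · exact List.countP_congr fun q hq => by
        simpa only [decide_eq_true_eq] using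
          (ntb_iff hn hab.1 (hd q hq) (by simpa using hab.2) (hS.1 q hq).2).symm
    · exact fun q hq => by
        simpa only [decide_eq_true_eq] using ntb_iff hn hab.1 (hd q hq) hab.2 (hS.1 q hq).2
  · have aux : ∀ b' : ℤ, Int.gcd a b' = Int.gcd a b →
        S.countP (fun q => q.1 = a ∧ q.2 ≡ b' [ZMOD a]) = 0 := by
      intro b' hb
      rw [List.countP_eq_zero]
      intro q hq h3
      obtain ⟨rfl, h4⟩ := of_decide_eq_true h3
      refine hab ⟨hd q hq, ?_⟩
      obtain ⟨t, ht⟩ := h4.dvd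
      rw [← hb, show b' = q.2 + q.1 * t by linear_combination ht, Int.gcd_add_mul_left_right]
      exact (hS.1 q hq).2
    rw [aux b rfl, aux (-b) (by simp)]

end Pool.Agent.P.MP_3d25f3_gt
end

-- part Pool.Agent.P.MP_3d25f3_gt.NtC
section

set_option autoImplicit false

open Set Filter Topology

namespace Pool.Agent.P.MP_3d25f3_gt

lemma ntc_perm {S T : List (ℕ × ℤ)} (h : S.Perm T) : Relation.EqvGen Move S T :=
  .rel _ _ (Or.inr (Or.inr h))

lemma ntc_one (S : List (ℕ × ℤ)) : Relation.EqvGen Move S ((1, 0) :: S) := .rel _ _ (Or.inl rfl)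

lemma ntc_cons (p : ℕ × ℤ) {S T : List (ℕ × ℤ)} (h : Relation.EqvGen Move S T) :
    Relation.EqvGen Move (p :: S) (p :: T) := by
  induction h with
  | rel S T h =>
    rcases h with rfl | ⟨c, h1, h2, rfl⟩ | h
    · exact .trans _ _ _ (ntc_one _) (ntc_perm (List.Perm.swap _ _ _))
    · exact .rel _ _ (Or.inr (Or.inl ⟨0 :: c, by simp [h1], by simp [h2], by simp⟩))
    · exact ntc_perm (h.cons p)
  | refl S => exact .refl _
  | symm S T _ ih => exact .symm _ _ ih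
  | trans S T U _ _ ih ih' => exact .trans _ _ _ ih ih'

lemma ntc_zip (S : List (ℕ × ℤ)) : List.zipWith (fun (p : ℕ × ℤ) (c : ℤ) => (p.1, p.2 + c * p.1)) S
    (List.replicate S.length 0) = S := by
  induction S with
  | nil => rfl
  | cons p S ih => simp [List.replicate_succ, ih]

lemma ntc_shift (a : ℕ) (b c d : ℤ) (S : List (ℕ × ℤ)) :
    Relation.EqvGen Move ((a, b + d * a) :: (1, c) :: S) ((a, b) :: (1, c + d) :: S) :=
  .rel _ _ (Or.inr (Or.inl ⟨-d :: d :: List.replicate S.length 0, by simp, by simp,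
    by simp [ntc_zip]⟩))

lemma ntc_symm_perm {S T : List (ℕ × ℤ)} (h : S.Perm T) (hS : Symm S) : Symm T :=
  fun a b => by rw [← h.countP_eq, ← h.countP_eq]; exact hS a b

lemma ntc_neg {a : ℕ} {x y : ℤ} : x ≡ -y [ZMOD a] ↔ -x ≡ y [ZMOD a] :=
  ⟨fun h => by simpa using h.neg, fun h => by simpa using h.neg⟩

lemma ntc_symm_one {a : ℕ} {b : ℤ} {S : List (ℕ × ℤ)} (hb : -b ≡ b [ZMOD a])
    (h : Symm ((a, b) :: S)) : Symm S := by
  intro a₁ b₁
  have := h a₁ b₁
  simp only [List.countP_cons, decide_eq_true_eq] at this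
  have e : (a = a₁ ∧ b ≡ b₁ [ZMOD a₁]) ↔ (a = a₁ ∧ b ≡ -b₁ [ZMOD a₁]) := by
    refine and_congr_right ?_
    rintro rfl
    rw [ntc_neg]
    exact ⟨fun h => hb.trans h, fun h => hb.symm.trans h⟩
  simp only [e] at this
  omega

lemma ntc_symm_two {a : ℕ} {b b' : ℤ} {S : List (ℕ × ℤ)} (hb : b' ≡ -b [ZMOD a])
    (h : Symm ((a, b) :: (a, b') :: S)) : Symm S := by
  intro a₁ b₁
  have := h a₁ b₁
  simp only [List.countP_cons, decide_eq_true_eq] at this
  have e : (a = a₁ ∧ b' ≡ b₁ [ZMOD a₁]) ↔ (a = a₁ ∧ b ≡ -b₁ [ZMOD a₁]) := by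
    refine and_congr_right ?_
    rintro rfl
    rw [ntc_neg]
    exact ⟨fun h => hb.symm.trans h, fun h => hb.trans h⟩
  have e' : (a = a₁ ∧ b' ≡ -b₁ [ZMOD a₁]) ↔ (a = a₁ ∧ b ≡ b₁ [ZMOD a₁]) := by
    refine and_congr_right ?_
    rintro rfl
    exact ⟨fun h => by simpa using (hb.symm.trans h).neg, fun h => hb.trans h.neg⟩
  simp only [e, e'] at this
  omega

lemma ntc_main (n : ℕ) : ∀ S : List (ℕ × ℤ), S.length ≤ n →
    (∀ p ∈ S, 1 ≤ p.1 ∧ Int.gcd p.1 p.2 = 1) → Symm S →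
    ∃ (P ε : List (ℕ × ℤ)) (c : ℤ), (ε = [] ∨ ε = [(2, 1)]) ∧
      Relation.EqvGen Move S ((1, c) :: (ε ++ P.flatMap fun p => [p, (p.1, -p.2)])) ∧
      (S.map fun p => (p.2 : ℚ) / p.1).sum = c + ε.length / 2 := by
  induction n with
  | zero =>
    intro S hl _ _
    obtain rfl : S = [] := List.length_eq_zero_iff.1 (by omega)
    exact ⟨[], [], 0, Or.inl rfl, ntc_one _, by simp⟩
  | succ n ih =>
    intro S hl hd hs
    match S, hl, hd, hs with
    | [], _, _, _ => exact ⟨[], [], 0, Or.inl rfl, ntc_one _, by simp⟩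
    | (a, b) :: S, hl, hd, hs =>
      obtain ⟨ha, hg⟩ := hd (a, b) List.mem_cons_self
      simp only at ha hg
      have hd' : ∀ p ∈ S, 1 ≤ p.1 ∧ Int.gcd p.1 p.2 = 1 := fun p hp =>
        hd p (List.mem_cons_of_mem _ hp)
      simp only [List.length_cons] at hl
      by_cases hb : -b ≡ b [ZMOD a]
      · obtain ⟨P, ε, c, hε, hE, he⟩ := ih S (by omega) hd' (ntc_symm_one hb hs)
        have h2 : a ∣ 2 := by
          have h1 : (a : ℤ) ∣ 2 * b := by
            have := hb.dvd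
            rwa [sub_neg_eq_add, ← two_mul] at this
          have := (Int.isCoprime_iff_gcd_eq_one.2 hg).dvd_of_dvd_mul_right h1
          exact_mod_cast this
        have hE' := ntc_cons (a, b) hE
        rcases (Nat.dvd_prime Nat.prime_two).1 h2 with rfl | rfl
        · refine ⟨P, ε, c + b, hε, .trans _ _ _ hE' (.trans _ _ _ ?_ (.symm _ _ (ntc_one _))), ?_⟩
          · simpa using ntc_shift 1 0 c b _
          · simp [he]; ring
        · obtain ⟨d, rfl⟩ : Odd b := by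
            by_contra ho
            have h3 : ((2 : ℕ) : ℤ) ∣ b := by
              simpa using even_iff_two_dvd.1 (Int.not_odd_iff_even.1 ho)
            have := Int.dvd_gcd (dvd_refl ((2 : ℕ) : ℤ)) h3
            rw [hg] at this
            omega
          rcases hε with rfl | rfl
          · refine ⟨P, [(2, 1)], c + d, Or.inr rfl,
              .trans _ _ _ hE' (.trans _ _ _ ?_ (ntc_perm (List.Perm.swap _ _ _))), ?_⟩
            · rw [show 2 * d + 1 = 1 + d * (2 : ℕ) by push_cast; ring]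
              exact ntc_shift 2 1 c d _
            · simp [he]; ring
          · refine ⟨(2, -1) :: P, [], c + (d + 1), Or.inl rfl,
              .trans _ _ _ hE' (.trans _ _ _ ?_ (ntc_perm (List.Perm.swap _ _ _))), ?_⟩
            · rw [show 2 * d + 1 = -1 + (d + 1) * (2 : ℕ) by push_cast; ring]
              exact ntc_shift 2 (-1) c (d + 1) _
            · simp [he]; ring
      · have h1 := hs a b
        have h2 : 0 < ((a, b) :: S).countP fun q => q.1 = a ∧ q.2 ≡ b [ZMOD a] :=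
          List.countP_pos_iff.2 ⟨(a, b), List.mem_cons_self, by simp⟩
        rw [h1] at h2
        obtain ⟨⟨a', b'⟩, hq, hq'⟩ := List.countP_pos_iff.1 h2
        simp only [decide_eq_true_eq] at hq'
        obtain ⟨rfl, hq'⟩ := hq'
        have hqS : (a', b') ∈ S := by
          rcases List.mem_cons.1 hq with h3 | h3
          · obtain rfl : b' = b := congrArg Prod.snd h3
            exact absurd hq'.symm hb
          · exact h3
        have hp := List.perm_cons_erase hqS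
        have hlen := hp.length_eq
        simp only [List.length_cons] at hlen
        obtain ⟨P, ε, c, hε, hE, he⟩ := ih (S.erase (a', b')) (by omega)
          (fun p hp => hd' p (List.mem_of_mem_erase hp))
          (ntc_symm_two hq' (ntc_symm_perm (hp.cons _) hs))
        obtain ⟨d, hd⟩ := hq'.symm.dvd
        obtain rfl : b' = -b + d * a' := by linear_combination hd
        refine ⟨(a', b) :: P, ε, c + d, hε, .trans _ _ _ (ntc_perm (hp.cons _))
          (.trans _ _ _ (ntc_cons _ (ntc_cons _ hE)) (.trans _ _ _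
            (ntc_cons _ (ntc_shift a' (-b) c d _)) (ntc_perm ?_))), ?_⟩
        · rw [List.flatMap_cons]
          refine ((List.Perm.swap _ _ _).cons _).trans ((List.Perm.swap _ _ _).trans
            (List.Perm.cons _ ?_))
          exact (List.perm_append_comm_assoc [(a', b), (a', -b)] ε _)
        · have ha' : (a' : ℚ) ≠ 0 := Nat.cast_ne_zero.2 (by omega)
          rw [List.map_cons, List.sum_cons, (hp.map _).sum_eq, List.map_cons, List.sum_cons, he]
          push_cast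
          field_simp
          ring

theorem skew_of_symm {S : List (ℕ × ℤ)} (hS : Data S) (h : Symm S) : Skew S := by
  obtain ⟨P, ε, c, hε, hE, he⟩ := ntc_main S.length S le_rfl hS.1 h
  rw [hS.2] at he
  rcases hε with rfl | rfl
  · obtain rfl : c = 0 := by simpa using he.symm
    exact ⟨P, .trans _ _ _ hE (.symm _ _ (ntc_one _))⟩
  · exfalso
    have : ((2 * c + 1 : ℤ) : ℚ) = 0 := by
      simp only [List.length_singleton] at he
      push_cast at he ⊢
      linarith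
    have : 2 * c + 1 = 0 := by exact_mod_cast this
    omega

end Pool.Agent.P.MP_3d25f3_gt
end

-- part Pool.Agent.P.MP_3d25f3_gt.Fin
section

set_option autoImplicit false

open Set Filter Topology

namespace Pool.Agent.P.MP_3d25f3_gt

theorem genus_zero {S : List (ℕ × ℤ)} (hS : Data S) (h : EmbedsFlat (Seifert 0 S)) : Skew S :=
  skew_of_symm hS (symm_of_jmp hS (jmp_zero_of_genus fun k => by simpa using genus_bound hS h k))

theorem prime_power {g : ℕ} {S : List (ℕ × ℤ)} (hS : Data S)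
    (h1 : ∀ q ∈ S, q.1 = 1 ∨ IsPrimePow q.1)
    (h2 : ∀ q ∈ S, ∀ q' ∈ S, q.1 = q'.1 ∨ q.1.Coprime q'.1) (h : EmbedsFlat (Seifert g S)) :
    Skew S :=
  skew_of_symm hS (symm_of_jmp hS (jmp_zero_of_pp h1 h2 (pp_bound hS h)))

end Pool.Agent.P.MP_3d25f3_gt
end
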