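import Pool.Agent.K.MP_3d25f3_gt.C0
import Pool.Agent.K.MP_3d25f3_gt.C1

-- part Pool.Agent.P.MP_3d25f3_gt.TVan
section

set_option autoImplicit false

open Set Filter Topology

namespace Pool.Agent.P.MP_3d25f3_gt.G

/-- integer cochains divisible by `m` on small lists near `F` -/
def tvan_N {Z : Type} [TopologicalSpace Z] (m : ℕ) (k : ℕ) (F : Set Z) (c : List Z → ℤ) : Prop :=
  ∀ x ∈ F, ∃ U ∈ 𝓝 x, ∀ l : List Z, l.length = k + 1 → (∀ y ∈ l, y ∈ U) → (m : ℤ) ∣ c l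

lemma tvan_iff {Z : Type} [TopologicalSpace Z] (m : ℕ) (k : ℕ) (F : Set Z) (c : List Z → ℤ) :
    cf (Int.castRingHom (ZMod m)) c ∈ Null (ZMod m) k F ↔ tvan_N m k F c := by
  refine forall₂_congr fun x _ => exists_congr fun U => and_congr_right fun _ =>
    forall₃_congr fun l _ _ => ?_
  rw [cf_apply, eq_intCast, ZMod.intCast_zmod_eq_zero_iff_dvd]

lemma tvan_D {Z : Type} (m : ℕ) (c : List Z → ℤ) :
    cf (Int.castRingHom (ZMod m)) (D 1 c) = D 1 (cf (Int.castRingHom (ZMod m)) c) :=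
  cf_D _ (fun _ _ => by simp) c

lemma tvan_lift {Z : Type} (m : ℕ) (c : List Z → ZMod m) :
    ∃ b : List Z → ℤ, cf (Int.castRingHom (ZMod m)) b = c := by
  choose b hb using fun l => ZMod.intCast_surjective (c l)
  exact ⟨b, funext fun l => by rw [cf_apply, eq_intCast, hb]⟩

lemma tvan_one {X Y : Set E4} (h : XY X Y) (hc : IsPreconnected (X ∩ Y)) {p : ℕ} (hp : p.Prime)
    {c : List E4 → ℤ} (h1 : tvan_N p 4 X (D 1 c)) : ∃ b, tvan_N p 3 X (c - D 1 b) := by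
  have := Fact.mk hp
  have hz : cf (Int.castRingHom (ZMod p)) c ∈ Zc (1 : E4 → E4 → ZMod p) 3 X ∅ := by
    refine ⟨by rw [Null_empty]; exact Submodule.mem_top, ?_⟩
    have := (tvan_iff p 4 X _).2 h1
    rwa [tvan_D] at this
  obtain ⟨b', -, h2⟩ := mem_Bc.1 ((cl_eq_zero hz).1 (xm_h3 h hc _))
  obtain ⟨b, rfl⟩ := tvan_lift p b'
  refine ⟨b, (tvan_iff p 3 X _).1 ?_⟩
  rw [map_sub, tvan_D]
  exact h2

lemma tvan_ind {X Y : Set E4} (h : XY X Y) (hc : IsPreconnected (X ∩ Y)) {p : ℕ} (hp : p.Prime)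
    (a : ℕ) {c : List E4 → ℤ} (h1 : tvan_N (p ^ a) 4 X (D 1 c)) :
    ∃ b, tvan_N (p ^ a) 3 X (c - D 1 b) := by
  induction a generalizing c with
  | zero => exact ⟨0, fun x _ => ⟨univ, univ_mem, fun l _ _ => by simp⟩⟩
  | succ a ih =>
    have hp0 : (p : ℤ) ≠ 0 := Int.natCast_ne_zero.2 hp.ne_zero
    obtain ⟨b0, h2⟩ := tvan_one h hc hp (c := c) fun x hx => by
      obtain ⟨U, hU, h3⟩ := h1 x hx
      refine ⟨U, hU, fun l hl hlU => dvd_trans ?_ (h3 l hl hlU)⟩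
      rw [pow_succ, Nat.cast_mul]
      exact dvd_mul_left _ _
    let c' : List E4 → ℤ := fun l => (c - D 1 b0) l / p
    have h3 : c - D 1 b0 - (p : ℤ) • c' ∈ Null ℤ 3 X := fun x hx => by
      obtain ⟨U, hU, h3⟩ := h2 x hx
      refine ⟨U, hU, fun l hl hlU => ?_⟩
      rw [Pi.sub_apply, Pi.smul_apply, smul_eq_mul, Int.mul_ediv_cancel' (h3 l hl hlU), sub_self]
    have h4 : D 1 (D 1 b0) ∈ Null ℤ 4 X :=
      DD_Null (k := 3) (F' := ∅) (Coc_one _) (by rw [Null_empty]; exact Submodule.mem_top)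
    have h5 : D 1 c - (p : ℤ) • D 1 c' ∈ Null ℤ 4 X := by
      have h6 := add_mem (D_Null (1 : E4 → E4 → ℤ) h3) h4
      have e : D 1 (c - D 1 b0 - (p : ℤ) • c') + D 1 (D 1 b0) = D 1 c - (p : ℤ) • D 1 c' := by
        simp only [map_sub, map_smul]
        abel
      rwa [e] at h6
    obtain ⟨b', h7⟩ := ih (c := c') fun x hx => by
      obtain ⟨U, hU, h6⟩ := h1 x hx
      obtain ⟨V, hV, h7⟩ := h5 x hx
      refine ⟨U ∩ V, inter_mem hU hV, fun l hl hlU => ?_⟩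
      have h8 := h6 l hl fun y hy => (hlU y hy).1
      have h9 := h7 l hl fun y hy => (hlU y hy).2
      rw [Pi.sub_apply, Pi.smul_apply, smul_eq_mul, sub_eq_zero] at h9
      rw [h9, pow_succ', Nat.cast_mul] at h8
      exact (mul_dvd_mul_iff_left hp0).1 h8
    refine ⟨b0 + (p : ℤ) • b', fun x hx => ?_⟩
    obtain ⟨U, hU, h6⟩ := h3 x hx
    obtain ⟨V, hV, h8⟩ := h7 x hx
    refine ⟨U ∩ V, inter_mem hU hV, fun l hl hlU => ?_⟩
    have h9 := h6 l hl fun y hy => (hlU y hy).1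
    have h10 := h8 l hl fun y hy => (hlU y hy).2
    have e : c - D 1 (b0 + (p : ℤ) • b')
        = (c - D 1 b0 - (p : ℤ) • c') + (p : ℤ) • (c' - D 1 b') := by
      simp only [map_add, map_smul, smul_sub]
      abel
    rw [e, Pi.add_apply, h9, zero_add, Pi.smul_apply, smul_eq_mul, pow_succ', Nat.cast_mul]
    exact mul_dvd_mul_left _ h10

theorem van_pp {X Y : Set E4} (h : XY X Y) (hc : IsPreconnected (X ∩ Y)) {p : ℕ} (hp : p.Prime)
    (a : ℕ) : Van (1 : E4 → E4 → ZMod (p ^ a)) 3 X ∅ := by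
  intro c' hz
  obtain ⟨c, rfl⟩ := tvan_lift (p ^ a) c'
  have h1 : tvan_N (p ^ a) 4 X (D 1 c) := (tvan_iff _ 4 X _).1 (by rw [tvan_D]; exact hz.2)
  obtain ⟨b, hb⟩ := tvan_ind h hc hp a h1
  refine mem_Bc.2 ⟨cf (Int.castRingHom _) b, by rw [Null_empty]; exact Submodule.mem_top, ?_⟩
  have := (tvan_iff _ 3 X _).2 hb
  rwa [map_sub, tvan_D] at this

end Pool.Agent.P.MP_3d25f3_gt.G
end

-- part Pool.Agent.P.MP_3d25f3_gt.GBas
section

set_option autoImplicit false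

open Set Filter Topology

namespace Pool.Agent.P.MP_3d25f3_gt.G

variable {Z W Γ R R' : Type} [CommRing Γ] [CommRing R] [CommRing R']

/-- twisting by a character of the coefficient ring -/
def tw (t : AddChar Γ Rˣ) (n : Z → Z → Γ) : Z → Z → R := fun x y => ((t (n x y) : Rˣ) : R)

lemma tw_map (φ : R →+* R') {t : AddChar Γ Rˣ} {t' : AddChar Γ R'ˣ} (h : ∀ a, φ (t a) = t' a)
    (n : Z → Z → Γ) (x y : Z) : φ (tw t n x y) = tw t' n x y := h _

lemma ch_add (t : AddChar Γ Rˣ) (a b : Γ) :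
    ((t (a + b) : Rˣ) : R) = ((t a : Rˣ) : R) * ((t b : Rˣ) : R) := by
  rw [AddChar.map_add_eq_mul, Units.val_mul]

lemma ch_inv (t : AddChar Γ Rˣ) (a : Γ) : t⁻¹ a = (t a)⁻¹ := by
  rw [AddChar.inv_apply, AddChar.map_neg_eq_inv]

lemma map_inv_ch (φ : R →+* R') {t : AddChar Γ Rˣ} {t' : AddChar Γ R'ˣ} (h : ∀ a, φ (t a) = t' a)
    (a : Γ) : φ (t⁻¹ a) = t'⁻¹ a := by
  rw [AddChar.inv_apply, AddChar.inv_apply, h]

variable [TopologicalSpace Z] [TopologicalSpace W]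

/-- cocycles with values in a ring -/
def CocZ (n : Z → Z → Γ) (F : Set Z) : Prop :=
  ∀ x ∈ F, ∃ U ∈ 𝓝 x, ∀ a ∈ U, ∀ b ∈ U, ∀ c ∈ U, n a b + n b c = n a c

lemma CocZ.mono {n : Z → Z → Γ} {F G : Set Z} (h : CocZ n F) (hG : G ⊆ F) : CocZ n G :=
  fun x hx => h x (hG hx)

lemma CocZ.comp {n : Z → Z → Γ} {F : Set Z} (h : CocZ n F) {f : W → Z} {G : Set W}
    (hf : ∀ x ∈ G, ContinuousAt f x) (hm : MapsTo f G F) :
    CocZ (fun a b => n (f a) (f b)) G := by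
  intro x hx
  obtain ⟨U, hU, h1⟩ := h (f x) (hm hx)
  exact ⟨f ⁻¹' U, hf x hx hU, fun a ha b hb c hc => h1 _ ha _ hb _ hc⟩

lemma CocZ.tw {n : Z → Z → Γ} {F : Set Z} (h : CocZ n F) (t : AddChar Γ Rˣ) : Coc (tw t n) F := by
  intro x hx
  obtain ⟨U, hU, h1⟩ := h x hx
  refine ⟨U, hU, fun a ha => ⟨?_, fun b hb c hc => ?_⟩⟩
  · have : n a a = 0 := by linear_combination h1 a ha a ha a ha
    simp [G.tw, this]
  · simp only [G.tw, ← h1 a ha b hb c hc, ch_add]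

lemma CocZ.map {Γ' : Type} [CommRing Γ'] {n : Z → Z → Γ} {F : Set Z} (h : CocZ n F) (d : Γ →+ Γ') :
    CocZ (fun a b => d (n a b)) F := by
  intro x hx
  obtain ⟨U, hU, h1⟩ := h x hx
  exact ⟨U, hU, fun a ha b hb c hc => by rw [← map_add, h1 a ha b hb c hc]⟩

lemma CocZ.int {n : Z → Z → ℤ} {F : Set Z} : CocZ n F ↔ MP_3d25f3_gt.CocZ n F := Iff.rfl

lemma Mu_tw (t : AddChar Γ Rˣ) (n : Z → Z → Γ) (F : Set Z) : Mu (tw t n) (tw t⁻¹ n) 1 F := by
  refine fun x _ => ⟨univ, univ_mem, fun a _ b _ => ?_⟩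
  simp only [tw, ← Units.val_mul, ch_inv, mul_inv_cancel, Units.val_one, Pi.one_apply]

lemma CocZ.nbhd {n : Z → Z → Γ} {F : Set Z} (h : CocZ n F) :
    ∃ N, IsOpen N ∧ F ⊆ N ∧ CocZ n N := by
  refine ⟨{x | ∃ U ∈ 𝓝 x, ∀ a ∈ U, ∀ b ∈ U, ∀ c ∈ U, n a b + n b c = n a c}, ?_, h, fun _ hx => hx⟩
  exact isOpen_iff_mem_nhds.2 fun x ⟨U, hU, h⟩ =>
    mem_of_superset (eventually_mem_nhds_iff.2 hU) fun y hy => ⟨U, hy, h⟩

lemma CocZ.co1 {n : Z → Z → Γ} {F : Set Z} (h : CocZ n F) :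
    co1 n ∈ Zc (1 : Z → Z → Γ) 1 F ∅ := by
  refine ⟨by simp, fun x hx => ?_⟩
  obtain ⟨U, hU, h1⟩ := h x hx
  refine ⟨U, hU, fun l hl h2 => ?_⟩
  obtain ⟨a, b, c, rfl⟩ := List.length_eq_three.1 hl
  rw [D_three]
  simp only [MP_3d25f3_gt.co1, Pi.one_apply, one_mul,
    ← h1 a (h2 a (by simp)) b (h2 b (by simp)) c (h2 c (by simp))]
  ring

lemma CocZ_of_Zc {c : List Z → Γ} {F : Set Z} (h : c ∈ Zc (1 : Z → Z → Γ) 1 F ∅) :
    CocZ (fun a b => c [a, b]) F := by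
  intro x hx
  obtain ⟨U, hU, h1⟩ := (mem_Zc.1 h).2 x hx
  refine ⟨U, hU, fun a ha b hb e he => ?_⟩
  have := h1 [a, b, e] rfl (by simp [ha, hb, he])
  rw [D_three] at this
  simp only [Pi.one_apply, one_mul] at this
  linear_combination this

lemma triv_tw {E : Type} [NormedAddCommGroup E] [NormedSpace ℝ E] {n : E → E → Γ} {K : Set E}
    (hK : IsCompact K) (hc : Convex ℝ K) (hn : CocZ n K) (t : AddChar Γ Rˣ) : Triv (tw t n) K := by
  obtain ⟨b, -, h⟩ := mem_Bc.1 (van_convex 0 hK hc (Coc_one K) hn.co1)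
  refine ⟨fun a => (t (-b [a]) : Rˣ), fun a => (t (b [a]) : Rˣ), fun x hx => ?_⟩
  obtain ⟨U, hU, h1⟩ := h x hx
  refine ⟨U, hU, fun a ha => ⟨by simp [← ch_add], fun a' ha' => ?_⟩⟩
  have h2 := h1 [a, a'] rfl (by simp [ha, ha'])
  rw [Pi.sub_apply, D_two, Pi.one_apply, Pi.one_apply, one_mul, sub_eq_zero] at h2
  have h3 : n a a' + -b [a'] = -b [a] := by
    have h4 : n a a' = b [a'] - b [a] := h2
    linear_combination h4
  show ((t (n a a') : Rˣ) : R) * (t (-b [a']) : Rˣ) = (t (-b [a]) : Rˣ)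
  rw [← ch_add, h3]

lemma good_tw {n : E4 → E4 → Γ} {N : Set E4} (ho : IsOpen N) (hn : CocZ n N) (t : AddChar Γ Rˣ) :
    Good (tw t n) (tw t⁻¹ n) N :=
  ⟨ho, hn.tw t, hn.tw t⁻¹, Mu_tw t n N, fun _ hK h1 h2 => triv_tw h1 h2 (hn.mono hK) t⟩

/-- primitive and periods of a cocycle -/
structure Per (g : ℕ) (S : List (ℕ × ℤ)) (n : Seifert g S → Seifert g S → Γ) (A : Cov → Γ) (N : Γ)
    (ne : ℕ → Γ) : Prop where
  prim : ∀ y, ∃ U ∈ 𝓝 y, ∀ a ∈ U, ∀ b ∈ U, n (pp g S a) (pp g S b) = A b - A a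
  per : ∀ y z, A (y, z + 1) = A (y, z) + N
  arc : ∀ e < NE g S, ∀ s ∈ Icc (0 : ℝ) 1, ∀ z, A (gb g S e s z) = A (ga g S e s z) + ne e

/-- primitive of a twisted cocycle -/
def Prim (g : ℕ) (S : List (ℕ × ℤ)) (t : AddChar Γ Rˣ) (A : Cov → Γ)
    (v : List (Seifert g S) → R) (E : Cov → R) : Prop :=
  ∀ y, ∃ U ∈ 𝓝 y, ∀ a ∈ U, ∀ b ∈ U, ((t (A a) : Rˣ) : R) * v [pp g S a, pp g S b] = E b - E a

/-- `v` is a cocycle with vertex data `x` -/
structure IsRep (g : ℕ) (S : List (ℕ × ℤ)) (ω : AddChar Γ ℂˣ) (A : Cov → Γ) (ne : ℕ → Γ)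
    (x : ZMod (LL g S) → ℂ) (v : List (Seifert g S) → ℂ) (E : Disc → ℂ) : Prop where
  prim : Prim g S ω A v (fun y => E y.1)
  vert : ∀ j : ℕ, E (bp (LL g S) j) = x j
  arc : ∀ e < NE g S, ∀ s ∈ Icc (0 : ℝ) 1, E (bp (LL g S) (st g e + wd g e - s))
    = ((ω (ne e) : ℂˣ) : ℂ) * E (bp (LL g S) (st g e + s)) + vv g (fun e => ((ω (ne e) : ℂˣ) : ℂ)) x e

variable {g : ℕ} {S : List (ℕ × ℤ)} {n : Seifert g S → Seifert g S → Γ} {A : Cov → Γ} {N : Γ}
  {ne : ℕ → Γ}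

lemma Per.map {Γ' : Type} [CommRing Γ'] (h : Per g S n A N ne) (d : Γ →+ Γ') :
    Per g S (fun a b => d (n a b)) (fun y => d (A y)) (d N) (fun e => d (ne e)) := by
  refine ⟨fun y => ?_, fun y z => by rw [h.per, map_add], fun e he s hs z => by
    rw [h.arc e he s hs, map_add]⟩
  obtain ⟨U, hU, h1⟩ := h.prim y
  exact ⟨U, hU, fun a ha b hb => by rw [h1 a ha b hb, map_sub]⟩

lemma Per.int {n : Seifert g S → Seifert g S → ℤ} {A : Cov → ℤ} {N : ℤ} {ne : ℕ → ℤ} :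
    Per g S n A N ne ↔ MP_3d25f3_gt.Per g S n A N ne :=
  ⟨fun h => ⟨h.1, h.2, h.3⟩, fun h => ⟨h.1, h.2, h.3⟩⟩

/-- a one parameter family of characters -/
structure Fm (Γ : Type) [CommRing Γ] where
  deg : Γ →+ ℤ
  ψ : AddChar Γ ℂˣ
  norm : ∀ a, ‖(ψ a : ℂ)‖ = 1

noncomputable def Fm.L (f : Fm Γ) : AddChar Γ Laˣ where
  toFun a := tL ^ f.deg a * Units.map (LaurentPolynomial.C : ℂ →+* La).toMonoidHom (f.ψ a)
  map_zero_eq_one' := by simp
  map_add_eq_mul' a b := by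
    rw [map_add, zpow_add, AddChar.map_add_eq_mul, map_mul, mul_mul_mul_comm]

noncomputable def Fm.C (f : Fm Γ) (ω : ℂˣ) : AddChar Γ ℂˣ where
  toFun a := ω ^ f.deg a * f.ψ a
  map_zero_eq_one' := by simp
  map_add_eq_mul' a b := by
    rw [map_add, zpow_add, AddChar.map_add_eq_mul, mul_mul_mul_comm]

lemma Fm.L_val (f : Fm Γ) (a : Γ) : ((f.L a : Laˣ) : La)
    = ((tL ^ f.deg a : Laˣ) : La) * LaurentPolynomial.C (f.ψ a : ℂ) := rfl

lemma Fm.C_apply (f : Fm Γ) (ω : ℂˣ) (a : Γ) : f.C ω a = ω ^ f.deg a * f.ψ a := rfl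

lemma gb_zpow (φ : R →+* R') {t : Rˣ} {t' : R'ˣ} (h : φ t = t') (k : ℤ) :
    φ ((t ^ k : Rˣ) : R) = ((t' ^ k : R'ˣ) : R') :=
  MP_3d25f3_gt.tw_map (Z := Unit) φ h (fun _ _ => k) () ()

lemma Fm.ev (f : Fm Γ) (ω : ℂˣ) (a : Γ) : evL ω (f.L a) = f.C ω a := by
  rw [f.L_val, map_mul, gb_zpow _ (evL_t ω), evL_C, f.C_apply, Units.val_mul]

lemma Fm.sg (f : Fm Γ) (a : Γ) : sgL (f.L a) = f.L⁻¹ a := by
  rw [f.L_val, map_mul, gb_zpow _ sgL_t, sgL_C, conj_unit (f.norm a), AddChar.inv_apply, f.L_val,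
    map_neg, AddChar.map_neg_eq_inv, inv_zpow']

lemma Fm.norm_C (f : Fm Γ) {ω : ℂˣ} (hω : ‖(ω : ℂ)‖ = 1) (a : Γ) : ‖(f.C ω a : ℂ)‖ = 1 := by
  rw [f.C_apply, Units.val_mul, norm_mul, f.norm, Units.val_zpow_eq_zpow_val, norm_zpow, hω]
  simp

lemma Fm.cj (f : Fm Γ) {ω : ℂˣ} (hω : ‖(ω : ℂ)‖ = 1) (a : Γ) :
    starRingEnd ℂ (f.C ω a) = (f.C ω)⁻¹ a := by
  rw [conj_unit (f.norm_C hω a), ch_inv]

end Pool.Agent.P.MP_3d25f3_gt.G
end

-- part Pool.Agent.P.MP_3d25f3_gt.GSd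
section

set_option autoImplicit false

open Set Filter Topology

namespace Pool.Agent.P.MP_3d25f3_gt.G

variable {Γ : Type} [CommRing Γ]

lemma sdb_congr {Z : Type} [TopologicalSpace Z] {m n : Z → Z → Γ} {F : Set Z} (h : CocZ m F)
    (hmn : ∀ x, ∃ U ∈ 𝓝 x, ∀ a ∈ U, ∀ b ∈ U, n a b = m a b) : CocZ n F := by
  intro x hx
  obtain ⟨U, hU, h1⟩ := h x hx
  obtain ⟨V, hV, h2⟩ := hmn x
  refine ⟨U ∩ V, inter_mem hU hV, fun a ha b hb c hc => ?_⟩
  rw [h2 a ha.2 b hb.2, h2 b hb.2 c hc.2, h2 a ha.2 c hc.2]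
  exact h1 a ha.1 b hb.1 c hc.1

lemma split_coc {X Y : Set E4} (h : XY X Y) {f : E4 → E4 → Γ} (hf : CocZ f (X ∩ Y)) :
    ∃ n : E4 → E4 → Γ, CocZ (fun a b => f a b - n a b) X ∧ CocZ n Y ∧
      ∀ a b, 1 < ‖a‖ → 1 < ‖b‖ → n a b = 0 := by
  classical
  have h0 : D (1 : E4 → E4 → Γ) (co1 f) ∈ Null Γ 2 (X ∩ Y) := by
    have := (mem_Zc.1 hf.co1).2
    exact this
  obtain ⟨b, hbY, hbX⟩ := Null_inter h.cX h.cY h0
  have hDD : D (1 : E4 → E4 → Γ) (D (1 : E4 → E4 → Γ) (co1 f)) ∈ Null Γ 3 (univ : Set E4) :=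
    DD_Null (k := 2) (F' := ∅) (Coc_one _) (by simp)
  have hbZ : b ∈ Zc (1 : E4 → E4 → Γ) 2 univ (Out 4) := by
    refine ⟨Null_mono 2 h.out hbY, ?_⟩
    change D (1 : E4 → E4 → Γ) b ∈ Null Γ 3 univ
    rw [← h.cover, Null_union]
    refine ⟨?_, D_Null _ hbY⟩
    have h1 := D_Null (1 : E4 → E4 → Γ) hbX
    have h2 := Null_mono 3 (subset_univ X) hDD
    have h3 := sub_mem h2 h1
    rw [map_sub, sub_sub_cancel] at h3
    exact h3
  obtain ⟨g, hg, hbg⟩ := mem_Bc.1 ((orn_gen.2 Γ).2.2 2 (by norm_num) hbZ)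
  have hY : CocZ (fun a b => g [a, b]) Y := by
    refine CocZ_of_Zc ⟨by simp, ?_⟩
    have h3 := sub_mem hbY (Null_mono 2 (subset_univ Y) hbg)
    rw [sub_sub_cancel] at h3
    exact h3
  have hX : CocZ (fun a b => (co1 f - g) [a, b]) X := by
    refine CocZ_of_Zc ⟨by simp, ?_⟩
    have h3 := add_mem hbX (Null_mono 2 (subset_univ X) hbg)
    rw [sub_add_sub_cancel, ← map_sub] at h3
    exact h3
  have hag : ∀ x : E4, ∃ U ∈ 𝓝 x, ∀ a ∈ U, ∀ b ∈ U,
      (if 1 < ‖a‖ ∧ 1 < ‖b‖ then 0 else g [a, b]) = g [a, b] := by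
    intro x
    by_cases hx : ‖x‖ < 1
    · refine ⟨Metric.ball 0 1, Metric.isOpen_ball.mem_nhds (mem_ball_zero_iff.2 hx),
        fun a ha b _ => ?_⟩
      rw [if_neg fun hh => absurd (mem_ball_zero_iff.1 ha) (not_lt.2 hh.1.le)]
    · obtain ⟨U, hU, h1⟩ := hg x (not_lt.1 hx)
      refine ⟨U, hU, fun a ha b hb => ?_⟩
      have : g [a, b] = 0 := h1 [a, b] rfl (by
        intro y hy
        rcases List.mem_cons.1 hy with rfl | hy
        · exact ha
        · rw [List.mem_singleton.1 hy]; exact hb)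
      rw [this, ite_self]
  refine ⟨fun a b => if 1 < ‖a‖ ∧ 1 < ‖b‖ then 0 else g [a, b], ?_, sdb_congr hY hag,
    fun a b ha hb => if_pos ⟨ha, hb⟩⟩
  refine sdb_congr hX fun x => ?_
  obtain ⟨U, hU, h1⟩ := hag x
  refine ⟨U, hU, fun a ha b hb => ?_⟩
  change f a b - (if 1 < ‖a‖ ∧ 1 < ‖b‖ then 0 else g [a, b]) = f a b - g [a, b]
  rw [h1 a ha b hb]

lemma sdc_coc {Z : Type} [TopologicalSpace Z] [T2Space Z] {ι : E4 → Z} (hι : IsOpenEmbedding ι)
    {Y : Set E4} {n : E4 → E4 → Γ} (hn : CocZ n Y) (h0 : ∀ a b, 1 < ‖a‖ → 1 < ‖b‖ → n a b = 0) :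
    ∃ m : Z → Z → Γ, CocZ m (ι '' Yᶜ)ᶜ ∧ ∀ a b, m (ι a) (ι b) = n a b := by
  classical
  obtain ⟨g, g1, g2⟩ : ∃ g : Z → E4, (∀ a, g (ι a) = a) ∧ ∀ z, z ∉ range ι → g z = fun _ => 2 :=
    ⟨Function.extend ι id fun _ _ => 2, fun a => hι.injective.extend_apply _ _ a,
      fun z hz => Function.extend_apply' _ _ _ hz⟩
  refine ⟨fun y z => n (g y) (g z), fun y hy => ?_, fun a b => by simp only [g1]⟩
  by_cases h : y ∈ range ι
  · obtain ⟨a, rfl⟩ := h
    obtain ⟨U, hU, h1⟩ := hn a (by_contra fun ha => hy ⟨a, ha, rfl⟩)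
    have hc : ContinuousAt g (ι a) := hι.continuousAt_iff.1 (by
      rw [show g ∘ ι = id from funext g1]
      exact continuousAt_id)
    exact ⟨g ⁻¹' U, hc (by rwa [g1]), fun a ha b hb c hc => h1 _ ha _ hb _ hc⟩
  · have hK : IsClosed (ι '' Metric.closedBall 0 1) :=
      ((isCompact_closedBall 0 1).image hι.continuous).isClosed
    have h1 : ∀ z ∈ (ι '' Metric.closedBall 0 1)ᶜ, 1 < ‖g z‖ := fun z hz => by
      by_cases h2 : z ∈ range ι
      · obtain ⟨a, rfl⟩ := h2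
        rw [g1]
        exact not_le.1 fun ha => hz ⟨a, mem_closedBall_zero_iff.2 ha, rfl⟩
      · rw [g2 z h2, pi_norm_const]
        norm_num
    refine ⟨_, hK.isOpen_compl.mem_nhds fun h2 => h (image_subset_range _ _ h2),
      fun a ha b hb c hc => ?_⟩
    simp only [h0 _ _ (h1 a ha) (h1 b hb), h0 _ _ (h1 b hb) (h1 c hc), h0 _ _ (h1 a ha) (h1 c hc),
      add_zero]

/-- restriction of a cocycle on a side -/
def pb {M : Type} [TopologicalSpace M] (s : Side M) (n : E4 → E4 → Γ) : M → M → Γ :=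
  fun a b => n (s.e a) (s.e b)

lemma pb_coc {M : Type} [TopologicalSpace M] (s : Side M) {n : E4 → E4 → Γ} (hn : CocZ n s.X) :
    CocZ (pb s n) univ :=
  hn.comp (fun _ _ => s.cont.continuousAt) fun x _ => (s.inter.ge (mem_range_self x)).1

lemma pb_equiv {M : Type} [TopologicalSpace M] [CompactSpace M] (s : Side M) {n : E4 → E4 → Γ}
    (hn : CocZ n s.X) {R : Type} [CommRing R] (t : AddChar Γ Rˣ) (k : ℕ) :
    ∃ Φ : H (tw t n) k (s.X ∩ s.Y) ∅ ≃ₗ[R] H (tw t (pb s n)) k univ ∅,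
      ∀ c hc, ∃ h', Φ (cl c hc) = cl (pull s.e 1 c) h' :=
  emb_equiv k isCompact_univ (empty_subset _) s.cont s.inj.injOn (by rw [s.inter, image_univ])
    (by simp) ((hn.tw t).mono inter_subset_left) fun _ _ => rfl

theorem two_sides {M : Type} [TopologicalSpace M] [CompactSpace M] [Nonempty M] (h : EmbedsFlat M) :
    ∃ s₁ s₂ : Side M, ∀ (Γ : Type) [CommRing Γ] (f : M → M → Γ), CocZ f univ →
      ∃ n₁ n₂ : E4 → E4 → Γ, CocZ n₁ s₁.X ∧ CocZ n₂ s₂.X ∧
        ∀ a b, f a b = pb s₁ n₁ a b + pb s₂ n₂ a b := by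
  obtain ⟨e, he, hφ⟩ := h
  obtain ⟨x0⟩ := ‹Nonempty M›
  have hF : Flat (range e) := by
    rintro _ ⟨x, rfl⟩
    exact hφ x
  obtain ⟨p1, hp1⟩ : ∃ p, p ∉ range e := by
    obtain ⟨φ, h1, h2⟩ := hφ x0
    obtain ⟨y, h3, h4⟩ := sdc_pos h1 ((h2 _ h1).1 (mem_range_self x0))
    exact ⟨y, fun h5 => h4.ne' ((h2 y h3).1 h5)⟩
  obtain ⟨ι1, i1, -, b1⟩ := stereo p1 (isCompact_range he.continuous) hp1
  obtain ⟨e1, c1, j1, k1, r1⟩ := sdc_lift he i1 (b1.trans (image_subset_range _ _))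
  obtain ⟨X1, Y1, xy, hi⟩ := sides (isCompact_range c1)
    (by
      rw [← r1, ← preimage_image_eq (Metric.ball 0 1) i1.injective]
      exact preimage_mono b1) (r1 ▸ hF.preimage i1)
  obtain ⟨r, r2, r3⟩ := near_retr (e := e1) isCompact_univ ⟨x0, trivial⟩ c1 j1.injOn
  have pX : ι1 ⁻¹' (ι1 '' X1) = X1 := preimage_image_eq _ i1.injective
  have pY : ι1 ⁻¹' (ι1 '' Y1ᶜ)ᶜ = Y1 := by
    rw [preimage_compl, preimage_image_eq _ i1.injective, compl_compl]
  have cX : IsClosed (ι1 '' X1) := (xy.compact.image i1.continuous).isClosed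
  have cY : IsClosed (ι1 '' Y1ᶜ)ᶜ := (i1.isOpenMap _ xy.cY.isOpen_compl).isClosed_compl
  have sd : Sided (ι1 '' X1) (ι1 '' Y1ᶜ)ᶜ := Sided.of_preimage i1
    (inter_subset_left.trans (image_subset_range _ _)) (by rw [pX, pY]; exact xy.sided)
  have cv : (ι1 '' Y1ᶜ)ᶜ ∪ ι1 '' X1 = univ := eq_univ_of_forall fun y => by
    by_cases hy : y ∈ ι1 '' Y1ᶜ
    · obtain ⟨a, ha, rfl⟩ := hy
      exact Or.inr ⟨a, (xy.cover.ge (mem_univ a)).resolve_right ha, rfl⟩
    · exact Or.inl hy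
  have it : (ι1 '' Y1ᶜ)ᶜ ∩ ι1 '' X1 = range e := by
    refine Subset.antisymm ?_ ?_
    · rintro _ ⟨h1, a, ha, rfl⟩
      exact r1.ge (hi.le ⟨ha, pY.le h1⟩)
    · rintro _ ⟨x, rfl⟩
      have h1 := hi.ge (mem_range_self x)
      rw [← k1]
      exact ⟨pY.ge h1.2, _, h1.1, rfl⟩
  obtain ⟨a2, ha2⟩ : ∃ a, a ∉ Y1 := by
    have h1 := hi.ge (mem_range_self x0)
    obtain ⟨φ, h2, h3⟩ := xy.sided _ h1
    obtain ⟨y, h4, h5⟩ := sdc_pos h2 (le_antisymm ((h3 _ h2).2.1 h1.2) ((h3 _ h2).1.1 h1.1))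
    exact ⟨y, fun h6 => not_le.2 h5 ((h3 y h4).2.1 h6)⟩
  obtain ⟨ι2, i2, -, b2⟩ := stereo (ι1 a2) cY.isCompact fun h1 => h1 ⟨a2, ha2, rfl⟩
  obtain ⟨e2, c2, j2, k2, r4⟩ := sdc_lift he i2
    ((it.ge.trans inter_subset_left).trans (b2.trans (image_subset_range _ _)))
  have z0 : ∀ F : Set E4, MP_3d25f3_gt.CocZ (fun _ _ => 0) F :=
    fun _ _ _ => ⟨univ, univ_mem, fun _ _ _ _ _ _ => by simp⟩
  refine ⟨⟨e1, X1, Y1, _, c1, j1, xy, hi, z0 _⟩,
    ⟨e2, ι2 ⁻¹' (ι1 '' Y1ᶜ)ᶜ, ι2 ⁻¹' (ι1 '' X1), _, c2, j2,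
      ⟨cY.preimage i2.continuous, cX.preimage i2.continuous, ?_, ?_, sd.symm.preimage i2⟩, ?_,
      z0 _⟩, fun Γ _ f hf => ?_⟩
  · rw [← preimage_union, cv, preimage_univ]
  · rw [← preimage_image_eq (Metric.ball 0 1) i2.injective]
    exact preimage_mono b2
  · rw [← preimage_inter, it, r4]
  obtain ⟨n, n1, n2, n3⟩ := split_coc xy (f := fun a b => f (r a) (r b))
    (hf.comp (fun a ha => by
      obtain ⟨x, rfl⟩ := hi.le ha
      exact r3 x trivial) (mapsTo_univ _ _))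
  obtain ⟨m, m1, m2⟩ := sdc_coc i1 n2 n3
  refine ⟨_, fun a b => m (ι2 a) (ι2 b), n1,
    m1.comp (fun _ _ => i2.continuous.continuousAt) fun _ ha => ha, fun a b => ?_⟩
  simp only [pb]
  rw [k2, k2, ← k1, ← k1, m2, r2 a trivial, r2 b trivial, sub_add_cancel]

end Pool.Agent.P.MP_3d25f3_gt.G
end

-- part Pool.Agent.P.MP_3d25f3_gt.TIsoA
section

set_option autoImplicit false

open Set Filter Topology

namespace Pool.Agent.P.MP_3d25f3_gt.G

variable {Z : Type} {Q : ℕ}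

/-- the integral Bockstein cochain -/
def bkz (v : Z → Z → ZMod Q) (a b c : Z) : ℤ :=
  (((v b c).val : ℤ) - (v a c).val + (v a b).val) / Q

/-- the product of `u` with the Bockstein of `v` -/
def tr (u v : Z → Z → ZMod Q) : List Z → ZMod Q
  | [a, b, c, d] => u a b * (bkz v b c d : ZMod Q)
  | _ => 0

lemma bkz_mul [NeZero Q] {v : Z → Z → ZMod Q} {a b c : Z} (h : v a b + v b c = v a c) :
    (Q : ℤ) * bkz v a b c = ((v b c).val : ℤ) - (v a c).val + (v a b).val := by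
  have hd : (Q : ℤ) ∣ ((v b c).val : ℤ) - (v a c).val + (v a b).val := by
    refine (ZMod.intCast_zmod_eq_zero_iff_dvd _ Q).1 ?_
    push_cast
    simp only [ZMod.natCast_zmod_val]
    linear_combination h
  exact Int.mul_ediv_cancel' hd

lemma bkz_coc [NeZero Q] {v : Z → Z → ZMod Q} {a b c d : Z} (h1 : v a b + v b c = v a c)
    (h2 : v a b + v b d = v a d) (h3 : v a c + v c d = v a d) (h4 : v b c + v c d = v b d) :
    bkz v b c d - bkz v a c d + bkz v a b d - bkz v a b c = 0 := by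
  have hQ : (Q : ℤ) ≠ 0 := Int.natCast_ne_zero.2 (NeZero.ne Q)
  refine mul_left_cancel₀ hQ ?_
  linear_combination bkz_mul h4 - bkz_mul h3 + bkz_mul h2 - bkz_mul h1

lemma tr_Zc [NeZero Q] [TopologicalSpace Z] {u v : Z → Z → ZMod Q} {F : Set Z} (hu : CocZ u F)
    (hv : CocZ v F) : tr u v ∈ Zc (1 : Z → Z → ZMod Q) 3 F ∅ := by
  refine ⟨by simp, fun x hx => ?_⟩
  obtain ⟨U, hU, h1⟩ := hu x hx
  obtain ⟨V, hV, h2⟩ := hv x hx
  refine ⟨U ∩ V, inter_mem hU hV, fun l hl h => ?_⟩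
  match l, hl with
  | [x0, x1, x2, x3, x4], _ =>
    have m0 := h x0 (by simp)
    have m1 := h x1 (by simp)
    have m2 := h x2 (by simp)
    have m3 := h x3 (by simp)
    have m4 := h x4 (by simp)
    have e1 := h1 x0 m0.1 x1 m1.1 x2 m2.1
    have e2 := congrArg (Int.cast : ℤ → ZMod Q) (bkz_coc (h2 x1 m1.2 x2 m2.2 x3 m3.2)
      (h2 x1 m1.2 x2 m2.2 x4 m4.2) (h2 x1 m1.2 x3 m3.2 x4 m4.2) (h2 x2 m2.2 x3 m3.2 x4 m4.2))
    push_cast at e2
    simp only [D_cons, d0, tr, Pi.one_apply]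
    linear_combination (bkz v x2 x3 x4 : ZMod Q) * e1 - u x0 x1 * e2

theorem tr_Bc {M : Type} [TopologicalSpace M] [PreconnectedSpace M] (s : Side M) {p : ℕ}
    (hp : p.Prime) {a : ℕ} {u v : E4 → E4 → ZMod (p ^ a)} (hu : CocZ u s.X) (hv : CocZ v s.X) :
    tr (pb s u) (pb s v) ∈ Bc (1 : M → M → ZMod (p ^ a)) 3 univ ∅ := by
  have : NeZero (p ^ a) := ⟨pow_ne_zero a hp.ne_zero⟩
  have h0 := van_pp s.xy (by rw [s.inter]; exact isPreconnected_range s.cont) hp a (tr_Zc hu hv)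
  have h1 := pull_Bc (Itw_comp (1 : E4 → E4 → ZMod (p ^ a)) s.e univ) (G' := ∅)
    (fun _ _ => s.cont.continuousAt) (empty_subset _)
    (fun x _ => (s.inter.ge (mem_range_self x)).1) (fun _ hx => hx.elim) h0
  have h2 : pull s.e 1 (tr u v) = tr (pb s u) (pb s v) := by
    funext l
    match l with
    | [] => rfl
    | [_] => simp [tr]
    | [_, _] => simp [tr]
    | [_, _, _] => simp [tr]
    | [_, _, _, _] => simp [tr, pb, bkz]
    | _ :: _ :: _ :: _ :: _ :: _ => simp [tr]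
  rw [h2] at h1
  exact h1

end Pool.Agent.P.MP_3d25f3_gt.G
end

-- part Pool.Agent.P.MP_3d25f3_gt.GPer
section

set_option autoImplicit false

open Set Filter Topology

namespace Pool.Agent.P.MP_3d25f3_gt.G

variable {g : ℕ} {S : List (ℕ × ℤ)} {Γ R : Type} [CommRing Γ] [CommRing R]
  {n : Seifert g S → Seifert g S → Γ} {A : Cov → Γ} {N : Γ} {ne : ℕ → Γ} {t : AddChar Γ Rˣ}
  {v : List (Seifert g S) → R} {E : Cov → R}

theorem exists_per (hn : CocZ n univ) : ∃ A N ne, Per g S n A N ne := by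
  have h1 : CocZ (fun a b => n (pp g S a) (pp g S b)) univ :=
    hn.comp (fun _ _ => continuous_pp.continuousAt) (mapsTo_univ _ _)
  obtain ⟨A, hA⟩ := cov_prim h1.co1
  have hA' : ∀ y, ∃ U ∈ 𝓝 y, ∀ a ∈ U, ∀ b ∈ U, n (pp g S a) (pp g S b) = A b - A a := by
    intro y
    obtain ⟨U, hU, h⟩ := hA y
    exact ⟨U, hU, fun a ha b hb => by simpa [co1] using h a ha b hb⟩
  have := per_conn
  let p : Cov := (⟨0, by simp⟩, 0)
  refine ⟨A, A (p.1, p.2 + 1) - A p, fun e => A (gb g S e 0 0) - A (ga g S e 0 0), hA',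
    fun y z => ?_, fun e he s hs z => ?_⟩
  · have := per_two continuous_id per_shift hA' (u := fun y => A (y.1, y.2 + 1) - A y)
      (fun a b h1 h2 => by
        rw [per_pp, per_pp] at h2
        simp only [id] at h1
        linear_combination h2 - h1) (y, z) p
    linear_combination this
  · have := per_two (per_ga e) (per_gb e) hA'
      (u := fun q => A (gb g S e q.1 q.2) - A (ga g S e q.1 q.2))
      (fun a b h1 h2 => by
        rw [pp_glue he a.1.2, pp_glue he b.1.2] at h2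
        linear_combination h2 - h1) (⟨s, hs⟩, z) (⟨0, by simp⟩, 0)
    linear_combination this

lemma Per.per_int (h : Per g S n A N ne) (y : Disc) (z : ℝ) (k : ℤ) :
    A (y, z + k) = A (y, z) + k * N := by
  induction k using Int.induction_on with
  | zero => simp
  | succ k ih =>
    have := h.per y (z + ((k : ℤ) : ℝ))
    rw [show z + (((k : ℤ) + 1 : ℤ) : ℝ) = z + ((k : ℤ) : ℝ) + 1 by push_cast; ring, this, ih]
    push_cast
    ring
  | pred k ih =>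
    have := h.per y (z + ((-(k : ℤ) - 1 : ℤ) : ℝ))
    rw [show z + ((-(k : ℤ) - 1 : ℤ) : ℝ) + 1 = z + ((-(k : ℤ) : ℤ) : ℝ) by push_cast; ring,
      ih] at this
    push_cast at this ⊢
    linear_combination -this

lemma Per.slit (h : Per g S n A N ne) (hS : Data S) {e : ℕ} (h1 : 2 * g ≤ e) (h2 : e < NE g S) :
    (pr g S e).1 * ne e = (pr g S e).2 * N := by
  have hw : wd g e = 2 := by simp [wd, not_lt.2 h1]
  have key : ∀ z, A (bp (LL g S) (st g e + 1), z + sh g S e)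
      = A (bp (LL g S) (st g e + 1), z) + ne e := by
    intro z
    have := h.arc e h2 1 (by simp) z
    simp only [ga, gb, hw, one_mul] at this
    rwa [show ((st g e : ℝ) + ((2 : ℕ) : ℝ) - 1) = st g e + 1 by push_cast; ring] at this
  have it : ∀ k : ℕ, A (bp (LL g S) (st g e + 1), k * sh g S e)
      = A (bp (LL g S) (st g e + 1), 0) + k * ne e := by
    intro k
    induction k with
    | zero => simp
    | succ k ih =>
      rw [show ((k + 1 : ℕ) : ℝ) * sh g S e = k * sh g S e + sh g S e by push_cast; ring, key, ih]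
      push_cast
      ring
  have hα : ((pr g S e).1 : ℝ) ≠ 0 := by
    have := (pr_data (g := g) hS e).1
    positivity
  have e1 := it (pr g S e).1
  have e2 := h.per_int (bp (LL g S) (st g e + 1)) 0 (pr g S e).2
  rw [show ((pr g S e).1 : ℝ) * sh g S e = 0 + ((pr g S e).2 : ℝ) by
    rw [sh]; field_simp; ring, e2] at e1
  linear_combination -e1

theorem exists_prim (h : Per g S n A N ne) (hv : v ∈ Zc (tw t n) 1 univ ∅) :
    ∃ E, Prim g S t A v E := by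
  have hI : Itw (1 : Cov → Cov → R) (tw t n) (pp g S) (fun y => ((t (A y) : Rˣ) : R)) univ := by
    intro y _
    obtain ⟨U, hU, hh⟩ := h.prim y
    refine ⟨U, hU, fun a ha b hb => ?_⟩
    simp only [tw, hh a ha b hb, ← ch_add, Pi.one_apply, one_mul, add_sub_cancel]
  obtain ⟨E, hE⟩ := cov_prim (pull_Zc hI (fun _ _ => continuous_pp.continuousAt)
    (empty_subset _) (mapsTo_univ _ _) (mapsTo_empty _ _) hv)
  exact ⟨E, fun y => by simpa using hE y⟩

lemma Prim.data (h : Per g S n A N ne) (hE : Prim g S t A v E) : ∃ (vh : R) (ve : ℕ → R),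
    (∀ y z, E (y, z + 1) = ((t N : Rˣ) : R) * E (y, z) + vh) ∧
    ∀ e < NE g S, ∀ s ∈ Icc (0 : ℝ) 1, ∀ z,
      E (gb g S e s z) = ((t (ne e) : Rˣ) : R) * E (ga g S e s z) + ve e := by
  have := per_conn
  let p : Cov := (⟨0, by simp⟩, 0)
  refine ⟨E (p.1, p.2 + 1) - ((t N : Rˣ) : R) * E p,
    fun e => E (gb g S e 0 0) - ((t (ne e) : Rˣ) : R) * E (ga g S e 0 0),
    fun y z => ?_, fun e he s hs z => ?_⟩
  · have := per_two continuous_id per_shift hE
      (u := fun y => E (y.1, y.2 + 1) - ((t N : Rˣ) : R) * E y)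
      (fun a b h1 h2 => by
        rw [per_pp, per_pp, h.per, ch_add] at h2
        simp only [id] at h1
        linear_combination h2 - ((t N : Rˣ) : R) * h1) (y, z) p
    linear_combination this
  · have := per_two (per_ga e) (per_gb e) hE
      (u := fun q => E (gb g S e q.1 q.2) - ((t (ne e) : Rˣ) : R) * E (ga g S e q.1 q.2))
      (fun a b h1 h2 => by
        rw [pp_glue he a.1.2, pp_glue he b.1.2, h.arc e he _ a.1.2, ch_add] at h2
        linear_combination h2 - ((t (ne e) : Rˣ) : R) * h1) (⟨s, hs⟩, z) (⟨0, by simp⟩, 0)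
    linear_combination this

lemma Prim.sub {v' : List (Seifert g S) → R} {E' : Cov → R} (hE : Prim g S t A v E)
    (hE' : Prim g S t A v' E') (a b : R) :
    Prim g S t A (a • v + b • v') (fun y => a * E y + b * E' y) := by
  intro y
  obtain ⟨U, hU, hh⟩ := per_and hE hE' y
  refine ⟨U, hU, fun x hx x' hx' => ?_⟩
  obtain ⟨e1, e2⟩ := hh x hx x' hx'
  simp only [Pi.add_apply, Pi.smul_apply, smul_eq_mul]
  linear_combination a * e1 + b * e2

/-- a cocycle without periods is a coboundary -/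
theorem Prim.mem_Bc [T2Space (Seifert g S)] (hn : CocZ n univ) (h : Per g S n A N ne)
    (hv : v ∈ Zc (tw t n) 1 univ ∅) (hE : Prim g S t A v E)
    (h1 : ∀ y z, E (y, z + 1) = ((t N : Rˣ) : R) * E (y, z))
    (h2 : ∀ e < NE g S, ∀ s ∈ Icc (0 : ℝ) 1, ∀ z,
      E (gb g S e s z) = ((t (ne e) : Rˣ) : R) * E (ga g S e s z)) : v ∈ Bc (tw t n) 1 univ ∅ := by
  obtain ⟨b, hb⟩ := desc_cov (g := g) (S := S) (fun y => ((t (-A y) : Rˣ) : R) * E y)
    (fun y z => by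
      rw [h1, h.per, ← mul_assoc, ← ch_add]
      congr 4
      ring)
    (fun e he s hs z => by
      rw [h2 e he s hs, h.arc e he s hs, ← mul_assoc, ← ch_add]
      congr 4
      ring)
  let B : List (Seifert g S) → R := fun l => match l with
    | [x] => b x
    | _ => 0
  have hτ : Coc (tw t n) univ := hn.tw t
  refine MP_3d25f3_gt.mem_Bc.2 ⟨B, by simp, null_of_pull isClosedMap_pm pm_surj hτ ?_ fun y _ => ?_⟩
  · rw [map_sub]
    exact sub_mem hv.2 (DD_Null (k := 1) (F' := ∅) (hτ.mono sdiff_subset) (by simp))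
  · obtain ⟨a, rfl⟩ := pc_surj y
    rw [← isOpenMap_pc.map_nhds_eq continuous_pc.continuousAt, eventually_map]
    obtain ⟨U, hU, hh⟩ := per_and h.prim hE a
    filter_upwards [hU] with a' ha'
    obtain ⟨e1, e2⟩ := hh a (mem_of_mem_nhds hU) a' ha'
    show (v - D (tw t n) B) [pp g S a, pp g S a'] = 0
    rw [Pi.sub_apply, D_two]
    show v [pp g S a, pp g S a'] - (tw t n (pp g S a) (pp g S a') * b (pp g S a') - b (pp g S a)) = 0
    rw [hb, hb, tw, e1, ← mul_assoc, ← ch_add, show A a' - A a + -A a' = -A a by ring, ← mul_sub,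
      ← e2, ← mul_assoc, ← ch_add]
    simp

theorem Prim.of_Bc (h : Per g S n A N ne) (hv : v ∈ Bc (tw t n) 1 univ ∅) (hE : Prim g S t A v E) :
    ∃ C : R, (∀ y z, E (y, z + 1) - C = ((t N : Rˣ) : R) * (E (y, z) - C)) ∧
      ∀ e < NE g S, ∀ s ∈ Icc (0 : ℝ) 1, ∀ z,
        E (gb g S e s z) - C = ((t (ne e) : Rˣ) : R) * (E (ga g S e s z) - C) := by
  obtain ⟨B, -, hB⟩ := MP_3d25f3_gt.mem_Bc.1 hv
  have hc := const_of_nhds (f := fun y => E y - ((t (A y) : Rˣ) : R) * B [pp g S y]) fun y => by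
    obtain ⟨U, hU, hh⟩ := per_and (per_and h.prim hE) (per_pull (per_null hB)) y
    refine ⟨U, hU, fun x hx x' hx' => ?_⟩
    obtain ⟨⟨e1, e2⟩, e3⟩ := hh x hx x' hx'
    rw [Pi.sub_apply, D_two, tw, e1] at e3
    have e4 := ch_add t (A x) (A x' - A x)
    rw [add_sub_cancel] at e4
    rw [e4]
    linear_combination e2 - ((t (A x) : Rˣ) : R) * e3
  let p : Cov := (⟨0, by simp⟩, 0)
  refine ⟨E p - ((t (A p) : Rˣ) : R) * B [pp g S p], fun y z => ?_, fun e he s hs z => ?_⟩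
  · have e1 := hc (y, z + 1) p
    have e2 := hc (y, z) p
    simp only [h.per, per_pp, ch_add] at e1 e2
    linear_combination e1 - ((t N : Rˣ) : R) * e2
  · have e1 := hc (gb g S e s z) p
    have e2 := hc (ga g S e s z) p
    simp only [h.arc e he s hs, pp_glue he hs, ch_add] at e1 e2
    linear_combination e1 - ((t (ne e) : Rˣ) : R) * e2

lemma Per.h0 [IsDomain R] (h : Per g S n A N ne) {e : ℕ} (he : e < NE g S) (ht : t (ne e) ≠ 1)
    {c : List (Seifert g S) → R} (hc : c ∈ Zc (tw t n) 0 univ ∅) (x : Seifert g S) : c [x] = 0 := by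
  have hk := const_of_nhds (f := fun y => ((t (A y) : Rˣ) : R) * c [pp g S y]) fun y => by
    obtain ⟨U, hU, hh⟩ := per_and h.prim (per_pull (per_null hc.2)) y
    refine ⟨U, hU, fun x hx x' hx' => ?_⟩
    obtain ⟨e1, e3⟩ := hh x hx x' hx'
    rw [D_two, tw, e1] at e3
    have e4 := ch_add t (A x) (A x' - A x)
    rw [add_sub_cancel] at e4
    rw [e4]
    linear_combination -((t (A x) : Rˣ) : R) * e3
  have h0 : (0 : ℝ) ∈ Icc (0 : ℝ) 1 := by simp
  obtain ⟨y, rfl⟩ := pp_surj x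
  have e1 := hk (gb g S e 0 0) y
  have e2 := hk (ga g S e 0 0) y
  simp only [h.arc e he 0 h0, pp_glue he h0, ch_add] at e1 e2
  have e3 : (((t (ne e) : Rˣ) : R) - 1) * (((t (A y) : Rˣ) : R) * c [pp g S y]) = 0 := by
    linear_combination e1 - ((t (ne e) : Rˣ) : R) * e2
  rcases mul_eq_zero.1 e3 with e4 | e4
  · exact absurd (Units.ext (sub_eq_zero.1 e4)) ht
  · exact (mul_eq_zero.1 e4).resolve_left (Units.ne_zero _)

lemma Per.add {n' : Seifert g S → Seifert g S → Γ} {A' : Cov → Γ} {N' : Γ} {ne' : ℕ → Γ}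
    (h : Per g S n A N ne) (h' : Per g S n' A' N' ne') :
    Per g S (fun a b => n a b + n' a b) (fun y => A y + A' y) (N + N') (fun e => ne e + ne' e) := by
  refine ⟨fun y => ?_, fun y z => by rw [h.per, h'.per]; ring, fun e he s hs z => by
    rw [h.arc e he s hs, h'.arc e he s hs]; ring⟩
  obtain ⟨U, hU, hh⟩ := per_and h.prim h'.prim y
  exact ⟨U, hU, fun a ha b hb => by rw [(hh a ha b hb).1, (hh a ha b hb).2]; ring⟩

/-- periods are determined by the cocycle -/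
lemma Per.uniq {A' : Cov → Γ} {N' : Γ} {ne' : ℕ → Γ} (h : Per g S n A N ne)
    (h' : Per g S n A' N' ne') : N = N' ∧ ∀ e < NE g S, ne e = ne' e := by
  have hc := const_of_nhds (f := fun y => A y - A' y) fun y => by
    obtain ⟨U, hU, hh⟩ := per_and h.prim h'.prim y
    refine ⟨U, hU, fun x hx x' hx' => ?_⟩
    obtain ⟨e1, e2⟩ := hh x hx x' hx'
    linear_combination e1 - e2
  refine ⟨?_, fun e he' => ?_⟩
  · have := hc (⟨0, by simp⟩, 0 + 1) (⟨0, by simp⟩, 0)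
    simp only [h.per, h'.per] at this
    linear_combination this
  · have h0 : (0 : ℝ) ∈ Icc (0 : ℝ) 1 := by simp
    have := hc (gb g S e 0 0) (ga g S e 0 0)
    simp only [h.arc e he' 0 h0, h'.arc e he' 0 h0] at this
    linear_combination this

/-- the slit periods add up to zero -/
lemma Per.sum_slit (h : Per g S n A N ne) :
    ∑ i ∈ Finset.range (S.length + 1), ne (2 * g + i) = 0 := by
  have h0 : (0 : ℝ) ∈ Icc (0 : ℝ) 1 := by simp
  have h1 : (1 : ℝ) ∈ Icc (0 : ℝ) 1 := by simp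
  let F : ℕ → Γ := fun j => A (bp (LL g S) j, 0)
  have a0 : ∀ e < NE g S, F (st g e + wd g e) = F (st g e) + ne e := fun e he => by
    simpa [F, ga, gb] using h.arc e he 0 h0 0
  have a1 : ∀ e < 2 * g, F (st g e + 2) = F (st g e + 1) + ne e := fun e he => by
    have := h.arc e (by unfold NE; omega) 1 h1 0
    have h2 : sh g S e = 0 := by simp [sh, pr, he]
    have h3 : wd g e = 3 := by simp [wd, he]
    simp only [ga, gb, h2, h3, mul_zero, add_zero] at this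
    rw [show ((st g e : ℝ) + ((3 : ℕ) : ℝ) - 1) = ((st g e + 2 : ℕ) : ℝ) by push_cast; ring,
      show ((st g e : ℝ) + 1) = ((st g e + 1 : ℕ) : ℝ) by push_cast; ring] at this
    exact this
  have b : ∀ k ≤ g, F (4 * k) = F 0 := by
    intro k
    induction k with
    | zero => intro _; rfl
    | succ k ih =>
      intro hk
      have c1 := a0 (2 * k + 0) (by unfold NE; omega)
      have c2 := a0 (2 * k + 1) (by unfold NE; omega)
      have c3 := a1 (2 * k + 0) (by omega)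
      have c4 := a1 (2 * k + 1) (by omega)
      rw [moda_st_lo hk (by omega), moda_wd_lo hk (by omega)] at c1 c2
      rw [moda_st_lo hk (by omega)] at c3 c4
      rw [← ih (by omega), show 4 * (k + 1) = 4 * k + 1 + 3 by ring, c2]
      simp only [add_zero, add_assoc, Nat.reduceAdd] at c1 c3 c4
      linear_combination c1 - c3 - c4
  have c : ∀ i ≤ S.length + 1, F (4 * g + 2 * i)
      = F 0 + ∑ j ∈ Finset.range i, ne (2 * g + j) := by
    intro i
    induction i with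
    | zero => intro _; simpa using b g le_rfl
    | succ i ih =>
      intro hi
      have c1 := a0 (2 * g + i) (by unfold NE; omega)
      rw [moda_st_hi, moda_wd_hi, ih (by omega)] at c1
      rw [Finset.sum_range_succ, show 4 * g + 2 * (i + 1) = 4 * g + 2 * i + 2 by ring, c1, add_assoc]
  have d := c _ le_rfl
  have e1 : bp (LL g S) ((0 : ℕ) : ℝ) = bp (LL g S) (LL g S) :=
    (bp_eq_iff (NeZero.ne _) _ _).2 ⟨1, by simp⟩
  have e2 : F (4 * g + 2 * (S.length + 1)) = F 0 := by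
    show A (bp (LL g S) (LL g S : ℕ), 0) = A (bp (LL g S) ((0 : ℕ) : ℝ), 0)
    rw [e1]
  rw [e2] at d
  linear_combination -d

end Pool.Agent.P.MP_3d25f3_gt.G
end

-- part Pool.Agent.P.MP_3d25f3_gt.TIsoC
section

set_option autoImplicit false

open Set Filter Topology

namespace Pool.Agent.P.MP_3d25f3_gt.G

variable {g : ℕ} {S : List (ℕ × ℤ)} {Q : ℕ} [NeZero Q] {u v : Seifert g S → Seifert g S → ZMod Q}
  {Au Av : Cov → ZMod Q} {nu nv : ℕ → ZMod Q}

/-- sum of the lifts of `v` along the fibre over the vertex `j` -/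
noncomputable def fib (v : Seifert g S → Seifert g S → ZMod Q) (m j : ℕ) : ℤ :=
  ∑ c ∈ Finset.range m, ((v (pp g S (bp (LL g S) j, (c : ℝ) / m))
    (pp g S (bp (LL g S) j, ((c + 1 : ℕ) : ℝ) / m))).val : ℤ)

lemma pp_vert {j : ℕ} (hj : j ≤ LL g S) (h : j ≤ 4 * g ∨ j % 2 = 0) (z : ℝ) :
    pp g S (bp (LL g S) j, z) = pp g S (bp (LL g S) (0 : ℕ), z) := by
  have h0 : (0 : ℝ) ∈ Icc (0 : ℝ) 1 := by simp
  have h1 : (1 : ℝ) ∈ Icc (0 : ℝ) 1 := by simp
  let F : ℕ → Seifert g S := fun j => pp g S (bp (LL g S) j, z)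
  have a0 : ∀ e < NE g S, F (st g e + wd g e) = F (st g e) := fun e he => by
    simpa [F, ga, gb] using pp_glue he h0 z
  have a1 : ∀ e < 2 * g, F (st g e + 2) = F (st g e + 1) := fun e he => by
    have := pp_glue (g := g) (S := S) (e := e) (by unfold NE; omega) h1 z
    have h2 : sh g S e = 0 := by simp [sh, pr, he]
    have h3 : wd g e = 3 := by simp [wd, he]
    simp only [ga, gb, h2, h3, mul_zero, add_zero] at this
    rw [show ((st g e : ℝ) + ((3 : ℕ) : ℝ) - 1) = ((st g e + 2 : ℕ) : ℝ) by push_cast; ring,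
      show ((st g e : ℝ) + 1) = ((st g e + 1 : ℕ) : ℝ) by push_cast; ring] at this
    exact this
  have b0 : ∀ k < g, F (4 * k + 1) = F (4 * k) ∧ F (4 * k + 2) = F (4 * k) ∧
      F (4 * k + 3) = F (4 * k) ∧ F (4 * k + 4) = F (4 * k) := by
    intro k hk
    have c1 := a0 (2 * k + 0) (by unfold NE; omega)
    have c2 := a0 (2 * k + 1) (by unfold NE; omega)
    have c3 := a1 (2 * k + 0) (by omega)
    have c4 := a1 (2 * k + 1) (by omega)
    rw [moda_st_lo hk (by omega), moda_wd_lo hk (by omega)] at c1 c2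
    rw [moda_st_lo hk (by omega)] at c3 c4
    simp only [add_zero, add_assoc, Nat.reduceAdd] at c1 c2 c3 c4
    exact ⟨c3.symm.trans (c4.symm.trans c1), c4.symm.trans c1, c1,
      c2.trans (c3.symm.trans (c4.symm.trans c1))⟩
  have b : ∀ k ≤ g, F (4 * k) = F 0 := by
    intro k
    induction k with
    | zero => intro _; rfl
    | succ k ih => exact fun hk => (b0 k hk).2.2.2.trans (ih (by omega))
  have c : ∀ i ≤ S.length + 1, F (4 * g + 2 * i) = F 0 := by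
    intro i
    induction i with
    | zero => intro _; exact b g le_rfl
    | succ i ih =>
      intro hi
      have c1 := a0 (2 * g + i) (by unfold NE; omega)
      rw [moda_st_hi, moda_wd_hi] at c1
      exact c1.trans (ih (by omega))
  change F j = F 0
  unfold LL at hj
  by_cases hg : j < 4 * g
  · have hk : j / 4 < g := by omega
    have e := b (j / 4) hk.le
    obtain ⟨d1, d2, d3, -⟩ := b0 (j / 4) hk
    have : j = 4 * (j / 4) ∨ j = 4 * (j / 4) + 1 ∨ j = 4 * (j / 4) + 2 ∨ j = 4 * (j / 4) + 3 := by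
      omega
    rcases this with r | r | r | r <;> rw [r]
    exacts [e, d1.trans e, d2.trans e, d3.trans e]
  · rw [show j = 4 * g + 2 * ((j - 4 * g) / 2) by omega]
    exact c _ (by omega)

lemma fib_vert (m : ℕ) {j : ℕ} (hj : j ≤ LL g S) (h : j ≤ 4 * g ∨ j % 2 = 0) :
    fib v m j = fib v m 0 := by
  simp only [fib, pp_vert hj h]

omit [NeZero Q] in
lemma tisoc_col {N : ZMod Q} (hv : Per g S v Av N nv) : ∃ m₀, ∀ m ≥ m₀, ∀ e < NE g S, ∀ a ≤ m,
    ∀ c ≤ m, v (pp g S (uA g S e m a c)) (pp g S (uA g S e m a (c + 1)))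
      = Av (uA g S e m a (c + 1)) - Av (uA g S e m a c) := by
  obtain ⟨m₀, hm₀⟩ := fine (g := g) (S := S)
    (P := fun U => ∀ a ∈ U, ∀ b ∈ U, v (pp g S a) (pp g S b) = Av b - Av a) hv.prim
  refine ⟨m₀, fun m hm e he a ha c hc => ?_⟩
  obtain ⟨⟨U, hU, hmem⟩, -⟩ := hm₀ m hm e he a ha c hc
  exact hU _ (hmem 0 (by omega) 0 (by omega)) _ (hmem 0 (by omega) 1 (by omega))

lemma tisoc_tel (y : Disc) (m k : ℕ)
    (h : ∀ c < k, v (pp g S (y, (c : ℝ) / m)) (pp g S (y, ((c + 1 : ℕ) : ℝ) / m))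
      = Av (y, ((c + 1 : ℕ) : ℝ) / m) - Av (y, (c : ℝ) / m)) :
    ((∑ c ∈ Finset.range k, ((v (pp g S (y, (c : ℝ) / m))
      (pp g S (y, ((c + 1 : ℕ) : ℝ) / m))).val : ℤ) : ℤ) : ZMod Q)
      = Av (y, (k : ℝ) / m) - Av (y, 0) := by
  have h1 := Finset.sum_range_sub (fun c : ℕ => Av (y, (c : ℝ) / m)) k
  rw [Nat.cast_zero, zero_div] at h1
  rw [← h1, Int.cast_sum]
  refine Finset.sum_congr rfl fun c hc => ?_
  rw [Int.cast_natCast, ZMod.natCast_zmod_val, h c (Finset.mem_range.1 hc)]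

lemma tisoc_iter {Γ : Type} [CommRing Γ] {f : ℝ → Γ} {s : ℝ} {n : Γ} (h : ∀ z, f (z + s) = f z + n)
    (z : ℝ) (k : ℤ) : f (z + k * s) = f z + k * n := by
  induction k using Int.induction_on with
  | zero => simp
  | succ k ih =>
    rw [show z + (((k : ℤ) + 1 : ℤ) : ℝ) * s = z + ((k : ℤ) : ℝ) * s + s by push_cast; ring, h, ih]
    push_cast
    ring
  | pred k ih =>
    have := h (z + ((-(k : ℤ) - 1 : ℤ) : ℝ) * s)
    rw [show z + ((-(k : ℤ) - 1 : ℤ) : ℝ) * s + s = z + ((-(k : ℤ) : ℤ) : ℝ) * s by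
      push_cast; ring, ih] at this
    push_cast at this ⊢
    linear_combination -this

lemma tisoc_blocks {G : ℕ → ℤ} {m : ℕ} (h : Function.Periodic G m) (k : ℕ) :
    ∑ c ∈ Finset.range (k * m), G c = k * ∑ c ∈ Finset.range m, G c := by
  induction k with
  | zero => simp
  | succ k ih =>
    rw [add_mul, one_mul, Finset.sum_range_add, ih,
      Finset.sum_congr rfl fun c _ => (add_comm (k * m) c ▸ h.nat_mul k c : G (k * m + c) = G c)]
    push_cast
    ring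

lemma fib_zero (hv : Per g S v Av 0 nv) : ∃ m₀, ∀ m ≥ m₀, 0 < m → (Q : ℤ) ∣ fib v m 0 := by
  obtain ⟨m₀, h⟩ := tisoc_col hv
  refine ⟨m₀, fun m hm hm0 => ?_⟩
  have hmR : (m : ℝ) ≠ 0 := by positivity
  have hs : st g 0 = 0 := by unfold st; split_ifs <;> omega
  have hu : ∀ c : ℕ, uA g S 0 m 0 c = (bp (LL g S) (0 : ℕ), (c : ℝ) / m) := fun c => by
    simp [uA, ga, hs]
  rw [← ZMod.intCast_zmod_eq_zero_iff_dvd, fib, tisoc_tel (Av := Av) _ m m fun c hc => by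
    simpa only [hu] using h m hm 0 (by unfold NE; omega) 0 (Nat.zero_le _) c hc.le, div_self hmR]
  have := hv.per (bp (LL g S) (0 : ℕ)) 0
  rw [zero_add] at this
  rw [this, add_zero, sub_self]

lemma fib_tip (hS : Data S) (hv : Per g S v Av 0 nv) : ∃ m₀, ∀ m ≥ m₀, 0 < m → ∀ i ≤ S.length,
    (pr g S (2 * g + i)).1 ∣ m → ∀ b : ℤ,
      ((pr g S (2 * g + i)).2 * b : ZMod Q) = nv (2 * g + i) →
      ((pr g S (2 * g + i)).1 * b : ZMod Q) = 0 →
      ((pr g S (2 * g + i)).1 * Q : ℤ) ∣ fib v m (4 * g + 2 * i + 1) - (pr g S (2 * g + i)).1 * b := by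
  obtain ⟨m₀, h⟩ := tisoc_col hv
  refine ⟨m₀, fun m hm hm0 i hi hd b hb1 hb2 => ?_⟩
  have hmR : (m : ℝ) ≠ 0 := by positivity
  have he : 2 * g + i < NE g S := by unfold NE; omega
  have h1 : (1 : ℝ) ∈ Icc (0 : ℝ) 1 := by simp
  obtain ⟨hα, hgcd⟩ := pr_data (g := g) hS (2 * g + i)
  have hsh : sh g S (2 * g + i) = (pr g S (2 * g + i)).2 / (pr g S (2 * g + i)).1 := rfl
  set y := bp (LL g S) ((4 * g + 2 * i + 1 : ℕ) : ℝ) with hy
  have ha : ∀ z, ga g S (2 * g + i) 1 z = (y, z) := fun z => by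
    rw [ga, moda_st_hi, hy]; push_cast; rfl
  have hb : ∀ z, gb g S (2 * g + i) 1 z = (y, z + sh g S (2 * g + i)) := fun z => by
    rw [gb, moda_st_hi, moda_wd_hi, hy, one_mul]
    congr 2
    push_cast; ring
  have hu : ∀ c : ℕ, uA g S (2 * g + i) m m c = (y, (c : ℝ) / m) := fun c => by
    rw [uA, div_self hmR, ha]
  have kP : Function.Periodic (fun z => pp g S (y, z)) (sh g S (2 * g + i)) := fun z => by
    have := pp_glue he h1 z
    rwa [ha, hb] at this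
  have kA : ∀ z, Av (y, z + sh g S (2 * g + i)) = Av (y, z) + nv (2 * g + i) := fun z => by
    have := hv.arc _ he 1 h1 z
    rwa [ha, hb] at this
  generalize (pr g S (2 * g + i)).1 = α at *
  generalize (pr g S (2 * g + i)).2 = β at *
  obtain ⟨m', rfl⟩ := hd
  have hαR : (α : ℝ) ≠ 0 := by positivity
  have hm' : (m' : ℝ) ≠ 0 := fun e => hmR (by push_cast; rw [e, mul_zero])
  obtain ⟨x, w, hxw⟩ : ∃ x w : ℤ, (α : ℤ) * w + β * x = 1 :=
    ⟨_, _, by rw [← Int.gcd_eq_gcd_ab, hgcd]; rfl⟩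
  have hR : (m' : ℝ) / (α * m' : ℕ) = x * sh g S (2 * g + i) + w := by
    have : (α : ℝ) * w + β * x = 1 := by exact_mod_cast hxw
    rw [hsh]
    push_cast
    field_simp
    linear_combination -this
  have kP' : ∀ z, pp g S (y, z + (m' : ℝ) / (α * m' : ℕ)) = pp g S (y, z) := fun z => by
    rw [hR, ← add_assoc, pp_per]
    exact kP.int_mul x z
  have kA' : Av (y, (m' : ℝ) / (α * m' : ℕ)) - Av (y, 0) = b := by
    have e1 := tisoc_iter (f := fun z => Av (y, z)) kA 0 x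
    have e2 : (α : ZMod Q) * w + β * x = 1 := by exact_mod_cast congrArg (Int.cast (R := ZMod Q)) hxw
    rw [zero_add] at e1
    rw [hR, hv.per_int, e1]
    linear_combination (-(x : ZMod Q)) * hb1 + (b : ZMod Q) * e2 - (w : ZMod Q) * hb2
  have hper : Function.Periodic (fun c : ℕ => ((v (pp g S (y, (c : ℝ) / (α * m' : ℕ)))
      (pp g S (y, ((c + 1 : ℕ) : ℝ) / (α * m' : ℕ)))).val : ℤ)) m' := fun c => by
    have e1 : ((c + m' : ℕ) : ℝ) / (α * m' : ℕ) = c / (α * m' : ℕ) + m' / (α * m' : ℕ) := by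
      rw [Nat.cast_add, add_div]
    have e2 : ((c + m' + 1 : ℕ) : ℝ) / (α * m' : ℕ) =
        ((c + 1 : ℕ) : ℝ) / (α * m' : ℕ) + m' / (α * m' : ℕ) := by
      rw [add_right_comm, Nat.cast_add, add_div]
    simp only [e1, e2, kP']
  have ht := tisoc_tel (g := g) (S := S) (v := v) (Av := Av) y (α * m') m' fun c hc => by
    simpa only [hu] using h _ hm _ he _ le_rfl c (hc.le.trans (Nat.le_mul_of_pos_left _ hα))
  rw [fib, ← hy, tisoc_blocks hper, ← mul_sub]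
  refine mul_dvd_mul_left _ ?_
  rw [← ZMod.intCast_zmod_eq_zero_iff_dvd, Int.cast_sub, ht, kA', sub_self]

end Pool.Agent.P.MP_3d25f3_gt.G
end
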