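import Pool.Agent.K.MP_3d25f3_gt.C2
import Pool.Agent.K.MP_3d25f3_gt.C3
import Pool.Agent.K.MP_3d25f3_gt.C0
import Pool.Agent.P.MP_3d25f3_gt.Stmt

-- part Pool.Agent.P.MP_3d25f3_gt.TIsoB
section

set_option autoImplicit false

open Set Filter Topology

namespace Pool.Agent.P.MP_3d25f3_gt.G

variable {g : ℕ} {S : List (ℕ × ℤ)} {Q : ℕ} [NeZero Q] {u v : Seifert g S → Seifert g S → ZMod Q}
  {Au Av : Cov → ZMod Q} {nu nv : ℕ → ZMod Q}

/-- the Bockstein as a cochain -/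
def tisob_bz {Z : Type} (v : Z → Z → ZMod Q) : List Z → ℤ
  | [a, b, c] => bkz v a b c
  | _ => 0

/-- the primitive of the product -/
def tisob_B (U : Solid → ZMod Q) (v : Seifert g S → Seifert g S → ZMod Q) : List Solid → ZMod Q
  | [y0, y1, y2] => U y0 * (bkz v (pm g S y0) (pm g S y1) (pm g S y2) : ZMod Q)
  | _ => 0

lemma tisob_null (hu : Per g S u Au 0 nu) (hv : Per g S v Av 0 nv) {U : Solid → ZMod Q}
    (hU : ∀ y, U (pc y) = Au y) :
    D 1 (tisob_B U v) - pull (pm g S) 1 (tr u v) ∈ Null (ZMod Q) 3 (univ : Set Solid) := by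
  intro y _
  obtain ⟨z, rfl⟩ := pc_surj y
  obtain ⟨U1, hU1, h1⟩ := hu.prim z
  obtain ⟨U2, hU2, h2⟩ := hv.prim z
  refine ⟨pc '' (U1 ∩ U2), isOpenMap_pc.image_mem_nhds (inter_mem hU1 hU2), ?_⟩
  intro l hl hW
  match l, hl, hW with
  | [y0, y1, y2, y3], _, hW =>
    obtain ⟨a0, ha0, rfl⟩ := hW y0 (by simp)
    obtain ⟨a1, ha1, rfl⟩ := hW y1 (by simp)
    obtain ⟨a2, ha2, rfl⟩ := hW y2 (by simp)
    obtain ⟨a3, ha3, rfl⟩ := hW y3 (by simp)
    have n01 : u (pp g S a0) (pp g S a1) = Au a1 - Au a0 := h1 a0 ha0.1 a1 ha1.1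
    have co : ∀ a ∈ U2, ∀ b ∈ U2, ∀ c ∈ U2,
        v (pp g S a) (pp g S b) + v (pp g S b) (pp g S c) = v (pp g S a) (pp g S c) :=
      fun a ha b hb c hc => by
        rw [h2 a ha b hb, h2 b hb c hc, h2 a ha c hc]
        ring
    have hk := congrArg (Int.cast : ℤ → ZMod Q) (bkz_coc (co _ ha0.2 _ ha1.2 _ ha2.2)
      (co _ ha0.2 _ ha1.2 _ ha3.2) (co _ ha0.2 _ ha2.2 _ ha3.2) (co _ ha1.2 _ ha2.2 _ ha3.2))
    push_cast at hk
    have hw : pull (pm g S) 1 (tr u v) [pc a0, pc a1, pc a2, pc a3]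
        = u (pp g S a0) (pp g S a1) * (bkz v (pp g S a1) (pp g S a2) (pp g S a3) : ZMod Q) := by
      rw [pull_cons, Pi.one_apply, one_mul]
      rfl
    have hB : ∀ a b c, tisob_B U v [pc a, pc b, pc c]
        = Au a * (bkz v (pp g S a) (pp g S b) (pp g S c) : ZMod Q) := fun a b c => by
      rw [← hU]
      rfl
    rw [Pi.sub_apply, hw, D_four, hB, hB, hB, hB, n01]
    simp only [Pi.one_apply]
    linear_combination Au a0 * hk

omit [NeZero Q] in
lemma tisob_sq (hu : Per g S u Au 0 nu) {U : Solid → ZMod Q} (hU : ∀ y, U (pc y) = Au y)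
    {e m a : ℕ} (he : e < NE g S) (ha : a < m) (c : ℕ) :
    sqr (tisob_B U v) (fun a c => pc (uA g S e m a c)) a c
      - sqr (tisob_B U v) (fun a c => pc (uB g S e m a c)) a c
      = -(nu e * (sqr (tisob_bz v) (fun a c => pp g S (uA g S e m a c)) a c : ℤ)) := by
  have gl : ∀ a ≤ m, ∀ c' : ℕ, pp g S (uB g S e m a c') = pp g S (uA g S e m a c') :=
    fun a ha c' => pp_glue he (annb_mem ha) _
  have hB : ∀ a b c, tisob_B U v [pc a, pc b, pc c]
      = Au a * (bkz v (pp g S a) (pp g S b) (pp g S c) : ZMod Q) := fun a b c => by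
    rw [← hU]
    rfl
  have h1 : Au (uB g S e m a c) = Au (uA g S e m a c) + nu e := hu.arc e he _ (annb_mem ha.le) _
  simp only [sqr, hB, gl a ha.le, gl (a + 1) ha, h1, tisob_bz]
  push_cast
  ring

theorem iso_ev (hS : Data S) (hu : Per g S u Au 0 nu) (hv : Per g S v Av 0 nv)
    (hB : tr u v ∈ Bc (1 : Seifert g S → Seifert g S → ZMod Q) 3 univ ∅) :
    ∃ m₀, ∀ m ≥ m₀, 0 < m → (∀ e < NE g S, (pr g S e).1 ∣ m) → ∃ T : ℕ → ℤ,
      (∀ e < NE g S, Q * T e = fib v m (st g e + 1) - fib v m (st g e)) ∧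
      ∑ e ∈ Finset.range (NE g S), nu e * (T e : ZMod Q) = 0 := by
  obtain ⟨U, hU⟩ := desc_pc Au fun y z => by rw [hu.per, add_zero]
  obtain ⟨m₁, h1⟩ := ev_zero hS (tisob_null hu hv hU) hB
  obtain ⟨m₂, h2⟩ := fine (g := g) (S := S)
    (P := fun U => ∀ a ∈ U, ∀ b ∈ U, v (pp g S a) (pp g S b) = Av b - Av a) hv.prim
  refine ⟨max m₁ m₂, fun m hm hpos hd => ⟨fun e => ∑ a ∈ Finset.range m, ∑ c ∈ Finset.range m,
    sqr (tisob_bz v) (fun a c => pp g S (uA g S e m a c)) a c, fun e he => ?_, ?_⟩⟩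
  · have hmR : (m : ℝ) ≠ 0 := by positivity
    have h3 := sum_sqr_D (co1 fun a b => ((v a b).val : ℤ)) (fun a c => pp g S (uA g S e m a c)) m
      fun a => by
        have := per_pp (g := g) (S := S) (bp (LL g S) (st g e + (a : ℝ) / m)) 0
        simpa [uA, ga, div_self hmR] using this
    have h4 : ∀ a ∈ Finset.range m, ∀ c ∈ Finset.range m,
        (Q : ℤ) * sqr (tisob_bz v) (fun a c => pp g S (uA g S e m a c)) a c
          = sqr (D 1 (co1 fun a b => ((v a b).val : ℤ))) (fun a c => pp g S (uA g S e m a c)) a c := by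
      intro a ha c hc
      obtain ⟨⟨W, hW, hmem⟩, -⟩ := h2 m (le_of_max_le_right hm) e he a (Finset.mem_range.1 ha).le c
        (Finset.mem_range.1 hc).le
      have co : ∀ a ∈ W, ∀ b ∈ W, ∀ c ∈ W,
          v (pp g S a) (pp g S b) + v (pp g S b) (pp g S c) = v (pp g S a) (pp g S c) :=
        fun a ha b hb c hc => by
          rw [hW a ha b hb, hW b hb c hc, hW a ha c hc]
          ring
      have b1 := bkz_mul (co _ (hmem 0 zero_le_one 0 zero_le_one) _ (hmem 1 le_rfl 0 zero_le_one) _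
        (hmem 1 le_rfl 1 le_rfl))
      have b2 := bkz_mul (co _ (hmem 0 zero_le_one 0 zero_le_one) _ (hmem 0 zero_le_one 1 le_rfl) _
        (hmem 1 le_rfl 1 le_rfl))
      simp only [add_zero] at b1 b2
      simp only [sqr, tisob_bz, D_three, co1, Pi.one_apply, one_mul]
      linear_combination b1 - b2
    rw [Finset.mul_sum, Finset.sum_congr rfl fun a ha => (Finset.mul_sum _ _ _).trans
      (Finset.sum_congr rfl (h4 a ha)), h3]
    simp only [fib, co1, uA, ga, div_self hmR, Nat.cast_zero, zero_div, add_zero, Nat.cast_add,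
      Nat.cast_one]
  · have h3 := h1 m (le_of_max_le_left hm) hpos hd
    rw [evT, Finset.sum_congr rfl fun e he => Finset.sum_congr rfl fun a ha =>
      Finset.sum_congr rfl fun c _ =>
        tisob_sq hu hU (Finset.mem_range.1 he) (Finset.mem_range.1 ha) c] at h3
    simp only [Finset.sum_neg_distrib, neg_eq_zero, ← Finset.mul_sum] at h3
    simpa only [Int.cast_sum] using h3

theorem iso_sum (hS : Data S) (hu : Per g S u Au 0 nu) (hv : Per g S v Av 0 nv)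
    (hB : tr u v ∈ Bc (1 : Seifert g S → Seifert g S → ZMod Q) 3 univ ∅) (b y : ℕ → ℤ)
    (hb : ∀ i ≤ S.length, ((pr g S (2 * g + i)).2 * b i : ZMod Q) = nv (2 * g + i))
    (hy : ∀ i ≤ S.length, (pr g S (2 * g + i)).1 * b i = Q * y i) :
    ∑ i ∈ Finset.range (S.length + 1), nu (2 * g + i) * (y i : ZMod Q) = 0 := by
  obtain ⟨m₁, h1⟩ := iso_ev hS hu hv hB
  obtain ⟨m₂, h2⟩ := fib_zero hv
  obtain ⟨m₃, h3⟩ := fib_tip hS hv
  obtain ⟨m, hm, hpos, hd⟩ := annb_exists_m (g := g) hS (max m₁ (max m₂ m₃))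
  obtain ⟨T, hT, hs⟩ := h1 m (le_of_max_le_left hm) hpos hd
  obtain ⟨f, hf⟩ := h2 m (le_of_max_le_left (le_of_max_le_right hm)) hpos
  have hQ : (Q : ℤ) ≠ 0 := by exact_mod_cast NeZero.ne Q
  have h0 : ∀ k < g, ∀ e < 2, T (2 * k + e) = 0 := fun k hk e he => by
    have := hT (2 * k + e) (by unfold NE; omega)
    rw [moda_st_lo hk he, fib_vert m (by unfold LL; omega) (.inl (by omega)),
      fib_vert m (j := 4 * k + e) (by unfold LL; omega) (.inl (by omega)), sub_self] at this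
    exact (mul_eq_zero.1 this).resolve_left hQ
  have h4 : ∀ i ∈ Finset.range (S.length + 1), nu (2 * g + i) * (T (2 * g + i) : ZMod Q)
      = nu (2 * g + i) * (y i : ZMod Q) - nu (2 * g + i) * (f : ZMod Q) := fun i hi => by
    have hi' : i ≤ S.length := Nat.lt_succ_iff.1 (Finset.mem_range.1 hi)
    have he : 2 * g + i < NE g S := by unfold NE; omega
    have h5 := congrArg (Int.cast : ℤ → ZMod Q) (hy i hi')
    push_cast at h5
    rw [ZMod.natCast_self, zero_mul] at h5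
    obtain ⟨t, ht⟩ := h3 m (le_of_max_le_right (le_of_max_le_right hm)) hpos i hi' (hd _ he) (b i)
      (hb i hi') h5
    have h6 := hT _ he
    rw [moda_st_hi, fib_vert m (j := 4 * g + 2 * i) (by unfold LL; omega) (.inr (by omega)), hf] at h6
    have h7 : T (2 * g + i) = y i + (pr g S (2 * g + i)).1 * t - f :=
      mul_left_cancel₀ hQ (by linear_combination h6 + ht + hy i hi')
    have h8 := hu.slit hS (Nat.le_add_right _ _) he
    rw [h7]
    push_cast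
    linear_combination (t : ZMod Q) * h8
  rw [sum_arcs, Finset.sum_eq_zero fun k hk => by
      have a0 : T (2 * k) = 0 := h0 k (Finset.mem_range.1 hk) 0 (by omega)
      rw [a0, h0 k (Finset.mem_range.1 hk) 1 (by omega)]
      simp, zero_add, Finset.sum_congr rfl h4, Finset.sum_sub_distrib, ← Finset.sum_mul,
    hu.sum_slit, zero_mul, sub_zero] at hs
  exact hs

end Pool.Agent.P.MP_3d25f3_gt.G
end

-- part Pool.Agent.P.MP_3d25f3_gt.TDesc
section

set_option autoImplicit false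

open Set Filter Topology

namespace Pool.Agent.P.MP_3d25f3_gt.G

variable {g : ℕ} {S : List (ℕ × ℤ)}

lemma tdesc_int (L : ℕ) (hL : L ≠ 0) (w : ℝ) :
    (∃ j : ℤ, bp L w = bp L j) ↔ ∃ k : ℤ, w = k := by
  constructor
  · rintro ⟨j, hj⟩
    obtain ⟨k, hk⟩ := (bp_eq_iff hL _ _).1 hj
    exact ⟨j - k * L, by push_cast; linarith⟩
  · rintro ⟨k, rfl⟩
    exact ⟨k, rfl⟩

lemma tdesc_vert_fin (L : ℕ) (hL : L ≠ 0) : {y : Disc | ∃ j : ℤ, y = bp L j}.Finite := by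
  refine ((Set.finite_Ico (0 : ℤ) L).image fun j : ℤ => bp L j).subset ?_
  rintro _ ⟨j, rfl⟩
  have hL' : (0 : ℤ) < L := by exact_mod_cast Nat.pos_of_ne_zero hL
  refine ⟨j % L, ⟨Int.emod_nonneg _ hL'.ne', Int.emod_lt_of_pos _ hL'⟩, ?_⟩
  refine (bp_eq_iff hL _ _).2 ⟨j / L, ?_⟩
  have : j = j % L + j / L * L := by rw [Int.emod_add_ediv_mul]
  exact_mod_cast this

lemma tdesc_tors (hS : Data S) {e : ℕ} (he : e < NE g S) (k : ℤ) :
    (∏ i ∈ Finset.range (NE g S), (pr g S i).1) •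
      (((k : ℝ) * sh g S e : ℝ) : AddCircle (1 : ℝ)) = 0 := by
  obtain ⟨c, hc⟩ := Finset.dvd_prod_of_mem (fun i => (pr g S i).1) (Finset.mem_range.2 he)
  have hα : ((pr g S e).1 : ℝ) ≠ 0 := by
    have := (pr_data (g := g) hS e).1
    positivity
  rw [hc, ← AddCircle.coe_nsmul, AddCircle.coe_eq_zero_iff]
  refine ⟨c * k * (pr g S e).2, ?_⟩
  rw [sh, nsmul_eq_mul, zsmul_eq_mul]
  push_cast
  field_simp

lemma tdesc_vert (hS : Data S) (P : Solid) (hP : ∃ j : ℤ, P.1 = bp (LL g S) j) :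
    (pm g S ⁻¹' {pm g S P}).Finite := by
  set A := ∏ i ∈ Finset.range (NE g S), (pr g S i).1 with hA
  have hA0 : 0 < A := Finset.prod_pos fun i _ => (pr_data (g := g) hS i).1
  have hL : LL g S ≠ 0 := NeZero.ne _
  obtain ⟨f, hf⟩ := desc_solid (g := g) (S := S)
    (fun y => (∃ j : ℤ, y.1 = bp (LL g S) j) ∧ A • (y.2 - P.2) = 0) fun e he s _ z => by
      refine propext ?_
      show (∃ j : ℤ, bp (LL g S) (st g e + wd g e - s) = bp (LL g S) j) ∧
          A • (((z + s * sh g S e : ℝ) : AddCircle (1 : ℝ)) - P.2) = 0 ↔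
        (∃ j : ℤ, bp (LL g S) (st g e + s) = bp (LL g S) j) ∧
          A • ((z : AddCircle (1 : ℝ)) - P.2) = 0
      rw [tdesc_int _ hL, tdesc_int _ hL]
      have h1 : (∃ k : ℤ, (st g e : ℝ) + wd g e - s = k) ↔ ∃ k : ℤ, s = k :=
        ⟨fun ⟨k, hk⟩ => ⟨st g e + wd g e - k, by push_cast; linarith⟩,
          fun ⟨k, hk⟩ => ⟨st g e + wd g e - k, by push_cast; linarith⟩⟩
      have h2 : (∃ k : ℤ, (st g e : ℝ) + s = k) ↔ ∃ k : ℤ, s = k :=
        ⟨fun ⟨k, hk⟩ => ⟨k - st g e, by push_cast; linarith⟩,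
          fun ⟨k, hk⟩ => ⟨st g e + k, by push_cast; linarith⟩⟩
      rw [h1, h2]
      refine and_congr_right ?_
      rintro ⟨k, rfl⟩
      rw [AddCircle.coe_add, add_sub_right_comm, smul_add, tdesc_tors hS he, add_zero]
  have h3 : {t : AddCircle (1 : ℝ) | A • (t - P.2) = 0}.Finite := by
    refine ((AddCircle.finite_torsion (1 : ℝ) hA0).image fun u => u + P.2).subset fun t ht => ?_
    exact ⟨t - P.2, ht, sub_add_cancel _ _⟩
  refine ((tdesc_vert_fin _ hL).prod h3).subset fun y hy => ?_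
  have h4 : pm g S y = pm g S P := hy
  have h5 : f (pm g S y) := by
    rw [h4, hf]
    exact ⟨hP, by simp⟩
  rw [hf] at h5
  exact h5

lemma fib_finite (hS : Data S) (x : Seifert g S) : (pm g S ⁻¹' {x}).Finite := by
  obtain ⟨⟨y, z⟩, rfl⟩ := pp_surj x
  have hL : LL g S ≠ 0 := NeZero.ne _
  have hy1 : ‖(y : ℂ)‖ ≤ 1 := mem_closedBall_zero_iff.1 y.2
  have harc : ∀ e < NE g S, ∀ s ∈ Ioo (0 : ℝ) 1, ∀ w,
      (pm g S ⁻¹' {pp g S (ga g S e s w)}).Finite := fun e he s hs w =>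
    (Set.toFinite {pc (ga g S e s w), pc (gb g S e s w)}).subset fun b hb => fib_arc he hs w hb
  rcases hy1.lt_or_eq with h | h
  · refine (Set.finite_singleton (pc (y, z))).subset fun b hb => ?_
    exact (fib_int (a := pc (y, z)) (Eq.symm hb) h).symm
  · obtain ⟨u, hu, rfl⟩ := exists_bp hL h
    have h1 := Nat.floor_le hu.1
    have h2 := Nat.lt_floor_add_one u
    rcases h1.eq_or_lt with h3 | h3
    · exact tdesc_vert hS _ ⟨⌊u⌋₊, by rw [Int.cast_natCast, h3]; rfl⟩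
    · have hj : ⌊u⌋₊ < LL g S := (Nat.floor_lt hu.1).2 hu.2
      obtain ⟨e, he, h4 | h4⟩ := st_surj hj
      · have h5 : (st g e : ℝ) = ⌊u⌋₊ := by rw [h4]
        have := harc e he (u - ⌊u⌋₊) ⟨by linarith, by linarith⟩ z
        rwa [ga, h5, add_sub_cancel] at this
      · have h5 : (st g e : ℝ) + wd g e = ⌊u⌋₊ + 1 := by exact_mod_cast h4.symm
        have hs : (⌊u⌋₊ + 1 - u : ℝ) ∈ Ioo (0 : ℝ) 1 := ⟨by linarith, by linarith⟩
        have := harc e he _ hs (z - (⌊u⌋₊ + 1 - u) * sh g S e)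
        rwa [← pp_glue he (Ioo_subset_Icc_self hs), gb, h5, sub_sub_cancel, sub_add_cancel] at this

lemma tdesc_eps {X : Type} [PseudoMetricSpace X] {C : Set (X × X)} (hC : IsClosed C) (y y' : X) :
    ∀ᶠ ε in 𝓝[>] (0 : ℝ), ∀ a ∈ Metric.ball y ε, ∀ b ∈ Metric.ball y' ε,
      (a, b) ∈ C → (y, y') ∈ C := by
  by_cases h : (y, y') ∈ C
  · exact Eventually.of_forall fun _ _ _ _ _ _ => h
  · obtain ⟨δ, hδ, h1⟩ := Metric.mem_nhds_iff.1 (hC.isOpen_compl.mem_nhds h)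
    filter_upwards [Ioo_mem_nhdsGT hδ] with ε hε a ha b hb hab
    refine absurd hab (h1 ?_)
    rw [← ball_prod_same]
    exact ⟨Metric.ball_subset_ball hε.2.le ha, Metric.ball_subset_ball hε.2.le hb⟩

lemma tdesc_graph (e : ℕ) : IsClosed {p : Solid × Solid | ∃ s ∈ Icc (0 : ℝ) 1, ∃ z,
    p = (pc (ga g S e s z), pc (gb g S e s z))} := by
  let F : Icc (0 : ℝ) 1 × AddCircle (1 : ℝ) → Solid × Solid := fun q =>
    ((bp (LL g S) (st g e + q.1), q.2),
      (bp (LL g S) (st g e + wd g e - q.1), q.2 + (((q.1 : ℝ) * sh g S e : ℝ) : AddCircle (1 : ℝ))))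
  have hF : Continuous F := by
    refine (((continuous_bp _).comp (by fun_prop)).prodMk continuous_snd).prodMk
      (((continuous_bp _).comp (by fun_prop)).prodMk (continuous_snd.add ?_))
    exact (AddCircle.continuous_mk' (1 : ℝ)).comp (by fun_prop)
  have h : range F = {p : Solid × Solid | ∃ s ∈ Icc (0 : ℝ) 1, ∃ z,
      p = (pc (ga g S e s z), pc (gb g S e s z))} := by
    ext p
    constructor
    · rintro ⟨⟨s, t⟩, rfl⟩
      obtain ⟨z, rfl⟩ := QuotientAddGroup.mk_surjective t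
      exact ⟨s, s.2, z, rfl⟩
    · rintro ⟨s, hs, z, rfl⟩
      exact ⟨(⟨s, hs⟩, z), rfl⟩
  exact h ▸ (isCompact_range hF).isClosed

lemma tdesc_loc [T2Space (Seifert g S)] (hS : Data S) {Γ : Type} [CommRing Γ] (E : Solid → Γ)
    (ne : ℕ → Γ) (h : ∀ e < NE g S, ∀ s ∈ Icc (0 : ℝ) 1, ∀ z,
      E (pc (gb g S e s z)) = E (pc (ga g S e s z)) + ne e) (x : Seifert g S) :
    ∃ b : Seifert g S → Γ, ∀ y, pm g S y = x → ∀ᶠ y' in 𝓝 y, b (pm g S y') = E y' - E y := by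
  classical
  have hF := fib_finite hS x
  have h1 := (eventually_all_finite hF).2 fun y _ => (eventually_all_finite hF).2 fun y' _ =>
    (eventually_all_finite (Set.finite_Iio (NE g S))).2 fun e _ =>
      tdesc_eps (tdesc_graph (g := g) (S := S) e) y y'
  have h2 := (eventually_all_finite hF).2 fun y _ => (eventually_all_finite hF).2 fun y' _ =>
    tdesc_eps (isClosed_diagonal (X := Solid)) y y'
  obtain ⟨ε, ⟨e1, e2⟩, hε⟩ := ((h1.and h2).and self_mem_nhdsWithin).exists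
  let r : Solid → Solid := fun w =>
    if hw : ∃ y ∈ pm g S ⁻¹' {x}, w ∈ Metric.ball y ε then hw.choose else w
  have hr : ∀ y ∈ pm g S ⁻¹' {x}, ∀ w ∈ Metric.ball y ε, r w = y := fun y hy w hw => by
    have h3 : ∃ y ∈ pm g S ⁻¹' {x}, w ∈ Metric.ball y ε := ⟨y, hy, hw⟩
    simp only [r, dif_pos h3]
    exact e2 _ h3.choose_spec.1 y hy w h3.choose_spec.2 w hw rfl
  let V : Set (Seifert g S) :=
    {x' | ∀ w, pm g S w = x' → ∃ y ∈ pm g S ⁻¹' {x}, w ∈ Metric.ball y ε}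
  have hV : V ∈ 𝓝 x := loc_closed isClosedMap_pm
    (P := fun w => ∃ y ∈ pm g S ⁻¹' {x}, w ∈ Metric.ball y ε) fun y hy =>
      mem_of_superset (Metric.ball_mem_nhds y hε) fun w hw => ⟨y, hy, hw⟩
  obtain ⟨b, hb⟩ := desc_solid (g := g) (S := S)
    (fun w => if pm g S w ∈ V then E w - E (r w) else 0) fun e he s hs z => by
      have h3 : pm g S (pc (gb g S e s z)) = pm g S (pc (ga g S e s z)) := pp_glue he hs z
      simp only [h3]
      split_ifs with h4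
      · obtain ⟨y, hy, ha⟩ := h4 _ rfl
        obtain ⟨y', hy', hb⟩ := h4 _ h3
        obtain ⟨s', hs', z', h5⟩ := e1 y hy y' hy' e he _ ha _ hb ⟨s, hs, z, rfl⟩
        obtain ⟨rfl, rfl⟩ := Prod.mk.inj h5
        rw [hr _ hy _ ha, hr _ hy' _ hb, h e he s hs, h e he s' hs']
        ring
      · rfl
  refine ⟨b, fun y hy => ?_⟩
  have h6 : pm g S ⁻¹' V ∈ 𝓝 y := continuous_pm.continuousAt.preimage_mem_nhds (hy ▸ hV)
  filter_upwards [h6, Metric.ball_mem_nhds y hε] with w h7 h8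
  rw [hb, if_pos (show pm g S w ∈ V from h7), hr y hy w h8]

/-- an arbitrary function with constant jumps across the arcs is a primitive of a cocycle -/
theorem desc_per [T2Space (Seifert g S)] (hS : Data S) {Γ : Type} [CommRing Γ] (E : Solid → Γ)
    (ne : ℕ → Γ) (h : ∀ e < NE g S, ∀ s ∈ Icc (0 : ℝ) 1, ∀ z,
      E (pc (gb g S e s z)) = E (pc (ga g S e s z)) + ne e) :
    ∃ n, CocZ n univ ∧ Per g S n (fun y => E (pc y)) 0 ne := by
  obtain ⟨v, hv, hp⟩ := descend (π := pm g S) isClosedMap_pm continuous_pm pm_surj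
    (Coc_one (R := Γ) univ) (γ := fun _ => 1) (γ' := fun _ => 1) (E := E) (fun _ => one_mul _)
    (fun _ => ⟨univ, univ_mem, fun _ _ _ _ => one_mul _⟩)
    (fun x => by simpa only [one_mul] using tdesc_loc hS E ne h x)
  refine ⟨fun a b => v [a, b], CocZ_of_Zc hv, fun y => ?_, fun y z => ?_, h⟩
  · obtain ⟨U, hU, h1⟩ := hp (pc y)
    refine ⟨pc ⁻¹' U, continuous_pc.continuousAt.preimage_mem_nhds hU, fun a ha b hb => ?_⟩
    have := h1 _ ha _ hb
    rwa [one_mul] at this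
  · rw [add_zero, (pc_eq_iff (y, z) (y, z + 1)).2 ⟨rfl, 1, by simp⟩]

end Pool.Agent.P.MP_3d25f3_gt.G
end

-- part Pool.Agent.P.MP_3d25f3_gt.TCls
section

set_option autoImplicit false

open Set Filter Topology

namespace Pool.Agent.P.MP_3d25f3_gt.G

variable {g : ℕ} {S : List (ℕ × ℤ)}

/-- a step at the position `c`, winding at the position itself -/
noncomputable def tcls_ph {Γ : Type} [CommRing Γ] (c : ℝ) (a : ℕ) (t v : Γ) (w z : ℝ) : Γ :=
  if w < c then 0 else if w = c then t * ((⌊(a : ℝ) * z⌋ : ℤ) : Γ) else v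

lemma tcls_lo {Γ : Type} [CommRing Γ] {c w : ℝ} (a : ℕ) (t v : Γ) (z : ℝ) (h : w < c) :
    tcls_ph c a t v w z = 0 := if_pos h

lemma tcls_hi {Γ : Type} [CommRing Γ] {c w : ℝ} (a : ℕ) (t v : Γ) (z : ℝ) (h : c < w) :
    tcls_ph c a t v w z = v := by
  unfold tcls_ph
  rw [if_neg (not_lt.2 h.le), if_neg h.ne']

lemma tcls_mid {Γ : Type} [CommRing Γ] (c : ℝ) (a : ℕ) (t v : Γ) (z : ℝ) :
    tcls_ph c a t v c z = t * ((⌊(a : ℝ) * z⌋ : ℤ) : Γ) := by
  unfold tcls_ph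
  rw [if_neg (lt_irrefl c), if_pos rfl]

lemma tcls_per {Γ : Type} [CommRing Γ] (c : ℝ) {a : ℕ} {t : Γ} (v : Γ) (w z : ℝ)
    (h : t * (a : Γ) = 0) : tcls_ph c a t v w (z + 1) = tcls_ph c a t v w z := by
  unfold tcls_ph
  rw [show (a : ℝ) * (z + 1) = a * z + ((a : ℤ) : ℝ) by push_cast; ring, Int.floor_add_intCast]
  push_cast
  rw [mul_add, h, add_zero]

lemma tcls_t (hS : Data S) {Γ : Type} [CommRing Γ] (e : ℕ) (v : Γ)
    (h : ((pr g S e).1 : Γ) * v = 0) :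
    ∃ t : Γ, t * ((pr g S e).1 : Γ) = 0 ∧ t * ((pr g S e).2 : Γ) = v := by
  have h1 := Int.gcd_eq_gcd_ab ((pr g S e).1 : ℤ) (pr g S e).2
  rw [(pr_data (g := g) hS e).2] at h1
  have h2 := congrArg (fun k : ℤ => (k : Γ)) h1
  simp only [Nat.cast_one, Int.cast_one, Int.cast_add, Int.cast_mul, Int.cast_natCast] at h2
  refine ⟨(Int.gcdB ((pr g S e).1 : ℤ) (pr g S e).2 : Γ) * v, ?_, ?_⟩
  · linear_combination (Int.gcdB ((pr g S e).1 : ℤ) (pr g S e).2 : Γ) * h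
  · linear_combination (-v) * h2 - (Int.gcdA ((pr g S e).1 : ℤ) (pr g S e).2 : Γ) * h

lemma tcls_F (hS : Data S) {Γ : Type} [CommRing Γ] (u : ℕ → Γ)
    (h1 : ∀ i ≤ S.length, ((pr g S (2 * g + i)).1 : Γ) * u i = 0)
    (h2 : ∑ i ∈ Finset.range (S.length + 1), u i = 0) :
    ∃ F : ℝ → ℝ → Γ, (∀ w z, F w (z + 1) = F w z) ∧ (∀ z, F (LL g S) z = F 0 z) ∧
      ∀ e < NE g S, ∀ s ∈ Icc (0 : ℝ) 1, ∀ z, F (st g e + wd g e - s) (z + s * sh g S e)
        = F (st g e + s) z + if e < 2 * g then 0 else u (e - 2 * g) := by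
  have ht : ∀ i, i ≤ S.length → ∃ t : Γ, t * ((pr g S (2 * g + i)).1 : Γ) = 0 ∧
      t * ((pr g S (2 * g + i)).2 : Γ) = u i := fun i hi => tcls_t hS _ _ (h1 i hi)
  choose! t ht1 ht2 using ht
  have hlow : ∀ w z : ℝ, w ≤ 4 * g → ∑ i ∈ Finset.range (S.length + 1),
      tcls_ph (4 * g + 2 * i + 1) (pr g S (2 * g + i)).1 (t i) (u i) w z = 0 := by
    intro w z hw
    refine Finset.sum_eq_zero fun i _ => tcls_lo _ _ _ _ ?_
    have : (0 : ℝ) ≤ i := Nat.cast_nonneg i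
    linarith
  refine ⟨fun w z => ∑ i ∈ Finset.range (S.length + 1),
    tcls_ph (4 * g + 2 * i + 1) (pr g S (2 * g + i)).1 (t i) (u i) w z, ?_, ?_, ?_⟩
  · intro w z
    exact Finset.sum_congr rfl fun i hi =>
      tcls_per _ _ _ _ (ht1 i (Nat.lt_succ_iff.1 (Finset.mem_range.1 hi)))
  · intro z
    beta_reduce
    rw [hlow 0 z (by positivity), ← h2]
    refine Finset.sum_congr rfl fun i hi => tcls_hi _ _ _ _ ?_
    have hi' : (i : ℝ) + 1 ≤ S.length + 1 := by exact_mod_cast Finset.mem_range.1 hi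
    unfold LL
    push_cast
    linarith
  · intro e he s hs z
    beta_reduce
    by_cases h0 : e < 2 * g
    · have h3 : st g e + 3 ≤ 4 * g := by unfold st; rw [if_pos h0]; omega
      have h4 : (st g e : ℝ) + 3 ≤ 4 * g := by exact_mod_cast h3
      have h5 : wd g e = 3 := if_pos h0
      rw [if_pos h0, add_zero, hlow, hlow]
      · linarith [hs.2]
      · rw [h5]; push_cast; linarith [hs.1]
    · obtain ⟨i, rfl⟩ : ∃ i, e = 2 * g + i := ⟨e - 2 * g, by omega⟩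
      have hi : i < S.length + 1 := by unfold NE at he; omega
      rw [if_neg h0, Nat.add_sub_cancel_left, moda_st_hi, moda_wd_hi, ← sub_eq_iff_eq_add',
        ← Finset.sum_sub_distrib, Finset.sum_eq_single i]
      · rcases hs.2.lt_or_eq with h3 | h3
        · rw [tcls_hi _ _ _ _ (by push_cast; linarith), tcls_lo _ _ _ _ (by push_cast; linarith),
            sub_zero]
        · have h4 : ((pr g S (2 * g + i)).1 : ℝ) ≠ 0 := by
            have := (pr_data (g := g) hS (2 * g + i)).1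
            exact_mod_cast (by omega : (pr g S (2 * g + i)).1 ≠ 0)
          rw [h3, show ((4 * g + 2 * i : ℕ) : ℝ) + (2 : ℕ) - 1 = 4 * g + 2 * i + 1 by
              push_cast; ring,
            show ((4 * g + 2 * i : ℕ) : ℝ) + 1 = 4 * g + 2 * i + 1 by push_cast; ring,
            tcls_mid, tcls_mid,
            show ((pr g S (2 * g + i)).1 : ℝ) * (z + 1 * sh g S (2 * g + i))
              = (pr g S (2 * g + i)).1 * z + ((pr g S (2 * g + i)).2 : ℝ) by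
              unfold sh; field_simp,
            Int.floor_add_intCast]
          push_cast
          linear_combination ht2 i (by omega)
      · intro j _ hj
        rcases lt_or_gt_of_ne hj with hj | hj
        · have : (j : ℝ) + 1 ≤ i := by exact_mod_cast hj
          rw [tcls_hi _ _ _ _ (by push_cast; linarith [hs.2]),
            tcls_hi _ _ _ _ (by push_cast; linarith [hs.1]), sub_self]
        · have : (i : ℝ) + 1 ≤ j := by exact_mod_cast hj
          rw [tcls_lo _ _ _ _ (by push_cast; linarith [hs.1]),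
            tcls_lo _ _ _ _ (by push_cast; linarith [hs.2]), sub_self]
      · intro hh
        exact absurd (Finset.mem_range.2 hi) hh

lemma exists_jump (hS : Data S) {Γ : Type} [CommRing Γ] (u : ℕ → Γ)
    (h1 : ∀ i ≤ S.length, ((pr g S (2 * g + i)).1 : Γ) * u i = 0)
    (h2 : ∑ i ∈ Finset.range (S.length + 1), u i = 0) :
    ∃ E : Solid → Γ, ∀ e < NE g S, ∀ s ∈ Icc (0 : ℝ) 1, ∀ z,
      E (pc (gb g S e s z)) = E (pc (ga g S e s z)) + if e < 2 * g then 0 else u (e - 2 * g) := by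
  obtain ⟨F, hF1, hF2, hF3⟩ := tcls_F (g := g) hS u h1 h2
  have hL : LL g S ≠ 0 := NeZero.ne _
  have hL' : (0 : ℝ) < LL g S := by exact_mod_cast Nat.pos_of_ne_zero hL
  have : Fact ((0 : ℝ) < LL g S) := ⟨hL'⟩
  obtain ⟨ang, -, ha⟩ := exists_ang hL
  have hv : ∀ w ∈ Icc (0 : ℝ) (LL g S),
      AddCircle.liftIco (LL g S : ℝ) 0 F (w : AddCircle (LL g S : ℝ)) = F w := by
    intro w hw
    rcases hw.2.lt_or_eq with h3 | h3
    · exact AddCircle.liftIco_coe_apply ⟨hw.1, by rwa [zero_add]⟩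
    · rw [h3, AddCircle.coe_period, ← AddCircle.coe_zero,
        AddCircle.liftIco_coe_apply ⟨le_rfl, by rwa [zero_add]⟩]
      exact funext fun z => (hF2 z).symm
  obtain ⟨E, hE⟩ := desc_pc (fun y : Cov => AddCircle.liftIco (LL g S : ℝ) 0 F (ang y.1) y.2)
    (fun y z => hF1 _ z)
  refine ⟨E, fun e he s hs z => ?_⟩
  have h3 : (st g e : ℝ) + wd g e ≤ LL g S := by exact_mod_cast st_le he
  have h4 : (2 : ℝ) ≤ wd g e := by exact_mod_cast wd_ge e
  have h5 : (0 : ℝ) ≤ st g e := Nat.cast_nonneg _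
  rw [hE, hE]
  simp only [ga, gb]
  rw [ha, ha, hv _ ⟨by linarith [hs.2], by linarith [hs.1]⟩,
    hv _ ⟨by linarith [hs.1], by linarith [hs.2]⟩]
  exact hF3 e he s hs z

theorem exists_tors [T2Space (Seifert g S)] (hS : Data S) {Γ : Type} [CommRing Γ] (u : ℕ → Γ)
    (h1 : ∀ i ≤ S.length, ((pr g S (2 * g + i)).1 : Γ) * u i = 0)
    (h2 : ∑ i ∈ Finset.range (S.length + 1), u i = 0) :
    ∃ n A ne, CocZ n univ ∧ Per g S n A 0 ne ∧ ∀ i, ne (2 * g + i) = u i := by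
  obtain ⟨E, hE⟩ := exists_jump hS u h1 h2
  obtain ⟨n, hn, hp⟩ := desc_per hS E _ hE
  exact ⟨n, _, _, hn, hp, fun i => by simp⟩

end Pool.Agent.P.MP_3d25f3_gt.G
end

-- part Pool.Agent.P.MP_3d25f3_gt.TLag
section

set_option autoImplicit false

open Set Filter Topology

namespace Pool.Agent.P.MP_3d25f3_gt.G

/-- two complementary isotropic subgroups of the linking pairing -/
structure Lag (p a : ℕ) (I : Finset ℕ) (e : ℕ → ℕ) (β : ℕ → ℤ) (L L' : AddSubgroup (ℕ → ℤ)) :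
    Prop where
  prime : p.Prime
  lev : ∀ i ∈ I, 1 ≤ e i ∧ e i ≤ a
  unit : ∀ i ∈ I, ¬ (p : ℤ) ∣ β i
  one : (fun _ => 1) ∈ L
  iso : ∀ y ∈ L, ∀ y' ∈ L, (p : ℤ) ^ a ∣ ∑ i ∈ I, (p : ℤ) ^ (a - e i) * β i * y i * y' i
  iso' : ∀ y ∈ L', ∀ y' ∈ L', (p : ℤ) ^ a ∣ ∑ i ∈ I, (p : ℤ) ^ (a - e i) * β i * y i * y' i
  spl : ∀ w : ℕ → ℤ, (p : ℤ) ^ a ∣ ∑ i ∈ I, (p : ℤ) ^ (a - e i) * β i * w i →
    ∃ x ∈ L, ∃ x' ∈ L', ∀ i ∈ I, (p : ℤ) ^ e i ∣ w i - x i - x' i

variable {p a : ℕ} {I : Finset ℕ} {e : ℕ → ℕ} {β : ℕ → ℤ} {L L' : AddSubgroup (ℕ → ℤ)}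

theorem tlag_cong (h : Lag p a I e β L L') {w x x' : ℕ → ℤ}
    (hw : ∀ i ∈ I, (p : ℤ) ^ e i ∣ w i - x i - x' i) (y : ℕ → ℤ) :
    (p : ℤ) ^ a ∣ ∑ k ∈ I, (p : ℤ) ^ (a - e k) * β k * (w k - x k - x' k) * y k := by
  refine Finset.dvd_sum fun k hk => ?_
  obtain ⟨c, hc⟩ := hw k hk
  refine ⟨β k * c * y k, ?_⟩
  rw [hc, ← pow_sub_mul_pow (p : ℤ) (h.lev k hk).2]
  ring

theorem tlag_key (h : Lag p a I e β L L') {i j : ℕ} (hi : i ∈ I) (hj : j ∈ I) (hij : i ≠ j)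
    (hle : e i ≤ e j) :
    ∃ x ∈ L, (p : ℤ) ^ e i ∣ β j + β i * (p : ℤ) ^ (e j - e i) - 2 * (x i - x j) := by
  have hp : Prime (p : ℤ) := Nat.prime_iff_prime_int.1 h.prime
  obtain ⟨w, wi, wj, w0⟩ : ∃ w : ℕ → ℤ, w i = β j ∧ w j = -(β i * (p : ℤ) ^ (e j - e i)) ∧
      ∀ k, k ≠ i → k ≠ j → w k = 0 :=
    ⟨fun k => if k = i then β j else if k = j then -(β i * (p : ℤ) ^ (e j - e i)) else 0,
      by simp, by simp [hij.symm], fun k h1 h2 => by simp [h1, h2]⟩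
  have e1 : (p : ℤ) ^ (a - e i) = (p : ℤ) ^ (a - e j) * (p : ℤ) ^ (e j - e i) := by
    rw [← pow_add]
    congr 1
    have := (h.lev j hj).2
    omega
  have hB : ∀ y : ℕ → ℤ, ∑ k ∈ I, (p : ℤ) ^ (a - e k) * β k * w k * y k =
      (p : ℤ) ^ (a - e i) * (β i * (β j * (y i - y j))) := fun y => by
    rw [Finset.sum_eq_add_of_mem i j hi hj hij fun k _ hk => by simp [w0 k hk.1 hk.2], wi, wj, e1]
    ring
  obtain ⟨x, hx, x', hx', hw⟩ := h.spl w (by
    have h1 := hB fun _ => 1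
    simp only [mul_one, sub_self, mul_zero] at h1
    rw [h1]
    exact dvd_zero _)
  refine ⟨x, hx, ?_⟩
  have h1 := (((tlag_cong h hw w).sub (tlag_cong h hw x)).add (tlag_cong h hw x')).sub
    ((h.iso x hx x hx).sub (h.iso' x' hx' x' hx'))
  have e2 : ∑ k ∈ I, (p : ℤ) ^ (a - e k) * β k * (w k - x k - x' k) * w k -
      ∑ k ∈ I, (p : ℤ) ^ (a - e k) * β k * (w k - x k - x' k) * x k +
      ∑ k ∈ I, (p : ℤ) ^ (a - e k) * β k * (w k - x k - x' k) * x' k -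
      (∑ k ∈ I, (p : ℤ) ^ (a - e k) * β k * x k * x k -
        ∑ k ∈ I, (p : ℤ) ^ (a - e k) * β k * x' k * x' k) =
      ∑ k ∈ I, (p : ℤ) ^ (a - e k) * β k * w k * (w k - 2 * x k) := by
    simp only [← Finset.sum_sub_distrib, ← Finset.sum_add_distrib]
    exact Finset.sum_congr rfl fun k _ => by ring
  rw [e2, hB, ← pow_sub_mul_pow (p : ℤ) (h.lev i hi).2,
    mul_dvd_mul_iff_left (pow_ne_zero _ hp.ne_zero), wi, wj] at h1
  have h2 := hp.pow_dvd_of_dvd_mul_left _ (h.unit j hj)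
    (hp.pow_dvd_of_dvd_mul_left _ (h.unit i hi) h1)
  rwa [show β j - 2 * x i - (-(β i * (p : ℤ) ^ (e j - e i)) - 2 * x j) =
    β j + β i * (p : ℤ) ^ (e j - e i) - 2 * (x i - x j) by ring] at h2

theorem tlag_pair (h : Lag p a I e β L L') {i j : ℕ} (hi : i ∈ I) (hj : j ∈ I) (hij : i ≠ j)
    {d : ℕ} (hd : 1 ≤ d) (h1 : d ≤ e i) (hle : e i ≤ e j)
    (hy : ∀ y ∈ L, (p : ℤ) ^ d ∣ y i - y j) : e i = e j ∧ (p : ℤ) ^ d ∣ β i + β j := by
  obtain ⟨x, hx, h2⟩ := tlag_key h hi hj hij hle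
  have h3 := ((pow_dvd_pow _ h1).trans h2).add ((hy x hx).mul_left 2)
  rw [sub_add_cancel] at h3
  rcases hle.eq_or_lt with h4 | h4
  · rw [h4, Nat.sub_self, pow_zero, mul_one, add_comm] at h3
    exact ⟨h4, h3⟩
  · exact absurd ((dvd_add_left ((dvd_pow_self _ (by omega)).mul_left _)).1
      ((dvd_pow_self _ (by omega)).trans h3)) (h.unit j hj)

theorem tlag_two (h : Lag 2 a I e β L L') {i j : ℕ} (hi : i ∈ I) (hj : j ∈ I) : ¬e i < e j :=
  fun hlt => by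
    obtain ⟨x, -, h2⟩ := tlag_key h hi hj (fun e' => hlt.ne (congrArg e e')) hlt.le
    have h1 := (h.lev i hi).1
    have h3 := ((dvd_pow_self _ (by omega)).trans h2).add (dvd_mul_right 2 (x i - x j))
    rw [sub_add_cancel] at h3
    exact h.unit j hj ((dvd_add_left ((dvd_pow_self _ (by omega)).mul_left _)).1 h3)

theorem Lag.pair (h : Lag p a I e β L L') {i j : ℕ} (hi : i ∈ I) (hj : j ∈ I) (hij : i ≠ j)
    {d : ℕ} (hd : 1 ≤ d) (h1 : d ≤ e i) (h2 : d ≤ e j)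
    (hy : ∀ y ∈ L, (p : ℤ) ^ d ∣ y i - y j) : e i = e j ∧ (p : ℤ) ^ d ∣ β i + β j := by
  rcases le_total (e i) (e j) with h3 | h3
  · exact tlag_pair h hi hj hij hd h1 h3 hy
  · have := tlag_pair h hj hi hij.symm hd h2 h3 fun y hy' => dvd_sub_comm.1 (hy y hy')
    exact ⟨this.1.symm, add_comm (β j) (β i) ▸ this.2⟩

theorem Lag.two (h : Lag 2 a I e β L L') {i j : ℕ} (hi : i ∈ I) (hj : j ∈ I) : e i = e j := by
  exact le_antisymm (not_lt.1 (tlag_two h hj hi)) (not_lt.1 (tlag_two h hi hj))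

end Pool.Agent.P.MP_3d25f3_gt.G
end

-- part Pool.Agent.P.MP_3d25f3_gt.TFinA
section

set_option autoImplicit false

open Set Filter Topology

namespace Pool.Agent.P.MP_3d25f3_gt.G

variable {g : ℕ} {S : List (ℕ × ℤ)} {p a : ℕ} {I : Finset ℕ} {e : ℕ → ℕ}

/-- the cone points whose order is a power of `p` -/
structure PD (g : ℕ) (S : List (ℕ × ℤ)) (p a : ℕ) (I : Finset ℕ) (e : ℕ → ℕ) : Prop where
  prime : p.Prime
  mem : ∀ i, i ∈ I ↔ i ≤ S.length ∧ p ∣ (pr g S (2 * g + i)).1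
  pow : ∀ i ∈ I, (pr g S (2 * g + i)).1 = p ^ e i
  le : ∀ i ∈ I, e i ≤ a
  top : ∃ i ∈ I, e i = a

/-- slit vectors of the classes modulo `p ^ a` that extend over a side -/
def LS (s : Side (Seifert g S)) (p a : ℕ) (I : Finset ℕ) (e : ℕ → ℕ) : AddSubgroup (ℕ → ℤ) where
  carrier := {y | ∃ (u : E4 → E4 → ZMod (p ^ a)) (A : Cov → ZMod (p ^ a)) (ne : ℕ → ZMod (p ^ a)),
    CocZ u s.X ∧ Per g S (pb s u) A 0 ne ∧ ∀ i ∈ I, ne (2 * g + i)
      = (((p : ℤ) ^ (a - e i) * (pr g S (2 * g + i)).2 * y i : ℤ) : ZMod (p ^ a))}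
  zero_mem' := by
    refine ⟨fun _ _ => 0, fun _ => 0, fun _ => 0, fun _ _ => ⟨univ, univ_mem, ?_⟩,
      ⟨fun _ => ⟨univ, univ_mem, ?_⟩, ?_, ?_⟩, ?_⟩
    all_goals simp [pb]
  add_mem' := by
    rintro y y' ⟨u, A, ne, h1, h2, h3⟩ ⟨u', A', ne', h1', h2', h3'⟩
    refine ⟨fun a b => u a b + u' a b, fun z => A z + A' z, fun k => ne k + ne' k,
      fun x hx => ?_, ?_, fun i hi => ?_⟩
    · obtain ⟨U, hU, k1⟩ := h1 x hx
      obtain ⟨V, hV, k2⟩ := h1' x hx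
      refine ⟨U ∩ V, inter_mem hU hV, fun a ha b hb c hc => ?_⟩
      linear_combination k1 a ha.1 b hb.1 c hc.1 + k2 a ha.2 b hb.2 c hc.2
    · have := h2.add h2'
      rw [add_zero] at this
      exact this
    · show ne (2 * g + i) + ne' (2 * g + i) = _
      rw [h3 i hi, h3' i hi, Pi.add_apply]
      push_cast
      ring
  neg_mem' := by
    rintro y ⟨u, A, ne, h1, h2, h3⟩
    refine ⟨fun a b => -u a b, fun z => -A z, fun k => -ne k, h1.map negAddMonoidHom, ?_,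
      fun i hi => ?_⟩
    · have := h2.map negAddMonoidHom
      rw [map_zero] at this
      exact this
    · show -ne (2 * g + i) = _
      rw [h3 i hi, Pi.neg_apply]
      push_cast
      ring

lemma tfina_cop (hp : p.Prime) {z : ℤ} (hz : ¬ (p : ℤ) ∣ z) (k : ℕ) :
    IsCoprime ((p : ℤ) ^ k) z :=
  ((Nat.prime_iff_prime_int.1 hp).coprime_iff_not_dvd.2 hz).pow_left

lemma tfina_pow (p a : ℕ) : (p : ZMod (p ^ a)) ^ a = 0 := by
  exact_mod_cast ZMod.natCast_self (p ^ a)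

lemma tfina_zero (z : ℤ) : (z : ZMod (p ^ a)) = 0 ↔ (p : ℤ) ^ a ∣ z := by
  rw [ZMod.intCast_zmod_eq_zero_iff_dvd]
  push_cast
  rfl

lemma tfina_inv (hp : p.Prime) {z : ℤ} (hz : ¬ (p : ℤ) ∣ z) (a : ℕ) :
    ∃ m : ℤ, (m : ZMod (p ^ a)) * z = 1 := by
  obtain ⟨u, v, h⟩ := tfina_cop hp hz a
  refine ⟨v, ?_⟩
  have h1 := congrArg (Int.cast : ℤ → ZMod (p ^ a)) h
  push_cast at h1
  rw [tfina_pow, mul_zero, zero_add] at h1
  exact h1

lemma tfina_split (p : ℕ) {k : ℕ} (hk : k ≤ a) : (p : ℤ) ^ a = (p : ℤ) ^ k * (p : ℤ) ^ (a - k) := by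
  rw [← pow_add, Nat.add_sub_cancel' hk]

lemma tfina_kill (hp : p.Prime) {k : ℕ} (hk : k ≤ a) {β : ℤ} (hβ : ¬ (p : ℤ) ∣ β)
    {x : ZMod (p ^ a)} (hx : (p : ZMod (p ^ a)) ^ k * x = 0) :
    ∃ y : ℤ, x = (((p : ℤ) ^ (a - k) * β * y : ℤ) : ZMod (p ^ a)) := by
  obtain ⟨z, rfl⟩ := ZMod.intCast_surjective x
  have h1 : (p : ℤ) ^ a ∣ (p : ℤ) ^ k * z := by
    rw [← tfina_zero]
    push_cast
    exact hx
  have hp0 : (p : ℤ) ^ k ≠ 0 := pow_ne_zero _ (by exact_mod_cast hp.ne_zero)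
  rw [tfina_split p hk, mul_dvd_mul_iff_left hp0] at h1
  obtain ⟨w, rfl⟩ := h1
  obtain ⟨m, hm⟩ := tfina_inv hp hβ a
  refine ⟨m * w, ?_⟩
  push_cast
  linear_combination (-(p : ZMod (p ^ a)) ^ (a - k) * w) * hm

lemma tfina_NE {i : ℕ} (hi : i ≤ S.length) : 2 * g + i < NE g S := by
  unfold NE
  omega

lemma PD.lev (h : PD g S p a I e) : ∀ i ∈ I, 1 ≤ e i ∧ e i ≤ a := by
  refine fun i hi => ⟨Nat.one_le_iff_ne_zero.2 fun h0 => ?_, h.le i hi⟩
  have h1 := ((h.mem i).1 hi).2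
  rw [h.pow i hi, h0, pow_zero] at h1
  exact h.prime.one_lt.ne' (Nat.dvd_one.1 h1)

lemma PD.unit (h : PD g S p a I e) (hS : Data S) :
    ∀ i ∈ I, ¬ (p : ℤ) ∣ (pr g S (2 * g + i)).2 := by
  intro i hi h1
  have h2 : (p : ℤ) ∣ ((pr g S (2 * g + i)).1 : ℤ) := Int.natCast_dvd_natCast.2 ((h.mem i).1 hi).2
  have h3 := Int.dvd_gcd h2 h1
  rw [(pr_data hS _).2] at h3
  exact h.prime.one_lt.ne' (Nat.dvd_one.1 h3)

lemma PD.per_zero (h : PD g S p a I e) (hS : Data S) {u : Seifert g S → Seifert g S → ZMod (p ^ a)}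
    {A : Cov → ZMod (p ^ a)} {N : ZMod (p ^ a)} {ne : ℕ → ZMod (p ^ a)} (hu : Per g S u A N ne) :
    N = 0 ∧ ∀ i ≤ S.length, i ∉ I → ne (2 * g + i) = 0 := by
  have hN : N = 0 := by
    obtain ⟨i, hi, hia⟩ := h.top
    have h1 := hu.slit hS (e := 2 * g + i) (by omega) (tfina_NE ((h.mem i).1 hi).1)
    rw [h.pow i hi, hia, ZMod.natCast_self, zero_mul] at h1
    obtain ⟨m, hm⟩ := tfina_inv h.prime (h.unit hS i hi) a
    linear_combination -N * hm - (m : ZMod (p ^ a)) * h1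
  refine ⟨hN, fun i hi hI => ?_⟩
  have h1 := hu.slit hS (e := 2 * g + i) (by omega) (tfina_NE hi)
  rw [hN, mul_zero] at h1
  have h2 : ¬ (p : ℤ) ∣ ((pr g S (2 * g + i)).1 : ℤ) := fun h3 =>
    hI ((h.mem i).2 ⟨hi, Int.natCast_dvd_natCast.1 h3⟩)
  obtain ⟨m, hm⟩ := tfina_inv h.prime h2 a
  rw [Int.cast_natCast] at hm
  linear_combination -ne (2 * g + i) * hm + (m : ZMod (p ^ a)) * h1

lemma tfina_sub (h : PD g S p a I e) : I ⊆ Finset.range (S.length + 1) := fun i hi =>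
  Finset.mem_range.2 (Nat.lt_succ_of_le ((h.mem i).1 hi).1)

theorem LS_iso (h : PD g S p a I e) (hS : Data S) (s : Side (Seifert g S)) :
    ∀ y ∈ LS s p a I e, ∀ y' ∈ LS s p a I e,
      (p : ℤ) ^ a ∣ ∑ i ∈ I, (p : ℤ) ^ (a - e i) * (pr g S (2 * g + i)).2 * y i * y' i := by
  rintro y ⟨u, A, ne, h1, h2, h3⟩ y' ⟨u', A', ne', h1', h2', h3'⟩
  have : NeZero (p ^ a) := ⟨pow_ne_zero _ h.prime.ne_zero⟩
  have key := iso_sum hS h2 h2' (tr_Bc s h.prime h1 h1')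
    (fun i => if i ∈ I then (p : ℤ) ^ (a - e i) * y' i else 0) (fun i => if i ∈ I then y' i else 0)
    (fun i hi => by
      by_cases hI : i ∈ I
      · rw [if_pos hI, h3' i hI]
        push_cast
        ring
      · rw [if_neg hI, (h.per_zero hS h2').2 i hi hI]
        simp)
    (fun i _ => by
      by_cases hI : i ∈ I
      · rw [if_pos hI, if_pos hI, h.pow i hI]
        push_cast
        rw [tfina_split p (h.le i hI), mul_assoc]
      · rw [if_neg hI, if_neg hI]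
        simp)
  rw [← Finset.sum_subset (tfina_sub h) fun i _ hI => by simp [hI]] at key
  rw [← tfina_zero, ← key, Int.cast_sum]
  refine Finset.sum_congr rfl fun i hi => ?_
  rw [if_pos hi, h3 i hi, Int.cast_mul]

theorem LS_one (h : PD g S p a I e) (hS : Data S) (s : Side (Seifert g S)) {n : E4 → E4 → ℤ}
    (hn : CocZ n s.X) {A : Cov → ℤ} {ne : ℕ → ℤ} {c : ℤ} (hc : ¬ (p : ℤ) ∣ c)
    (hP : Per g S (pb s n) A (c * p ^ a) ne) : (fun _ => 1) ∈ LS s p a I e := by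
  obtain ⟨m, hm⟩ := tfina_inv h.prime hc a
  let d : ℤ →+ ZMod (p ^ a) :=
    (AddMonoidHom.mulLeft (m : ZMod (p ^ a))).comp (Int.castAddHom (ZMod (p ^ a)))
  have hd : ∀ z : ℤ, d z = (m : ZMod (p ^ a)) * z := fun _ => rfl
  refine ⟨fun x y => d (n x y), fun z => d (A z), fun k => d (ne k), hn.map d, ?_, fun i hi => ?_⟩
  · have h1 := hP.map d
    have h2 : d (c * p ^ a) = 0 := by
      rw [hd]
      push_cast
      rw [tfina_pow, mul_zero, mul_zero]
    rw [h2] at h1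
    exact h1
  · have h1 := hP.slit hS (e := 2 * g + i) (by omega) (tfina_NE ((h.mem i).1 hi).1)
    rw [h.pow i hi, Int.cast_id, tfina_split p (h.le i hi)] at h1
    push_cast at h1
    have hp0 : (p : ℤ) ^ e i ≠ 0 := pow_ne_zero _ (by exact_mod_cast h.prime.ne_zero)
    have h2 : ne (2 * g + i) = (p : ℤ) ^ (a - e i) * (pr g S (2 * g + i)).2 * c :=
      mul_left_cancel₀ hp0 (by rw [h1]; ring)
    show d (ne (2 * g + i)) = _
    rw [hd, h2]
    push_cast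
    linear_combination ((p : ZMod (p ^ a)) ^ (a - e i) * (pr g S (2 * g + i)).2) * hm

lemma tfina_mem (h : PD g S p a I e) (hS : Data S) (s : Side (Seifert g S))
    {u : E4 → E4 → ZMod (p ^ a)} (hu : CocZ u s.X) :
    ∃ A ne, Per g S (pb s u) A 0 ne ∧ ∃ x ∈ LS s p a I e, ∀ i ∈ I, ne (2 * g + i)
      = (((p : ℤ) ^ (a - e i) * (pr g S (2 * g + i)).2 * x i : ℤ) : ZMod (p ^ a)) := by
  obtain ⟨A, N, ne, hP⟩ := exists_per (pb_coc s hu)
  obtain rfl := (h.per_zero hS hP).1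
  have h1 : ∀ i, ∃ x : ℤ, i ∈ I → ne (2 * g + i)
      = (((p : ℤ) ^ (a - e i) * (pr g S (2 * g + i)).2 * x : ℤ) : ZMod (p ^ a)) := fun i => by
    by_cases hi : i ∈ I
    · have h2 := hP.slit hS (e := 2 * g + i) (by omega) (tfina_NE ((h.mem i).1 hi).1)
      rw [h.pow i hi, mul_zero, Nat.cast_pow] at h2
      obtain ⟨x, hx⟩ := tfina_kill h.prime (h.le i hi) (h.unit hS i hi) h2
      exact ⟨x, fun _ => hx⟩
    · exact ⟨0, fun h2 => absurd h2 hi⟩
  choose x hx using h1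
  exact ⟨A, ne, hP, x, ⟨u, A, ne, hu, hP, hx⟩, hx⟩

theorem LS_spl (h : PD g S p a I e) (hS : Data S) (s s' : Side (Seifert g S))
    (hs : ∀ u : Seifert g S → Seifert g S → ZMod (p ^ a), CocZ u univ →
      ∃ u₁ u₂, CocZ u₁ s.X ∧ CocZ u₂ s'.X ∧ ∀ x y, u x y = pb s u₁ x y + pb s' u₂ x y)
    (w : ℕ → ℤ) (hw : (p : ℤ) ^ a ∣ ∑ i ∈ I, (p : ℤ) ^ (a - e i) * (pr g S (2 * g + i)).2 * w i) :
    ∃ x ∈ LS s p a I e, ∃ x' ∈ LS s' p a I e, ∀ i ∈ I, (p : ℤ) ^ e i ∣ w i - x i - x' i := by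
  have := s.t2
  obtain ⟨n, A, ne, hn, hP, hne⟩ := exists_tors (g := g) hS (Γ := ZMod (p ^ a))
    (fun i => if i ∈ I then
      (((p : ℤ) ^ (a - e i) * (pr g S (2 * g + i)).2 * w i : ℤ) : ZMod (p ^ a)) else 0)
    (fun i _ => by
      by_cases hI : i ∈ I
      · rw [if_pos hI, h.pow i hI, ← Int.cast_natCast, ← Int.cast_mul, tfina_zero]
        push_cast
        rw [tfina_split p (h.le i hI), mul_assoc, ← mul_assoc]
        exact dvd_mul_right _ _
      · rw [if_neg hI, mul_zero])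
    (by
      rw [← Finset.sum_subset (tfina_sub h) fun i _ hI => if_neg hI,
        Finset.sum_congr rfl fun i hi => if_pos hi, ← Int.cast_sum, tfina_zero]
      exact hw)
  obtain ⟨u₁, u₂, h1, h2, h3⟩ := hs n hn
  obtain ⟨A₁, ne₁, hP₁, x, hx, e₁⟩ := tfina_mem h hS s h1
  obtain ⟨A₂, ne₂, hP₂, x', hx', e₂⟩ := tfina_mem h hS s' h2
  refine ⟨x, hx, x', hx', fun i hi => ?_⟩
  have h4 := hP₁.add hP₂
  rw [show (fun a b => pb s u₁ a b + pb s' u₂ a b) = n from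
    funext fun a => funext fun b => (h3 a b).symm] at h4
  have h5 := (hP.uniq h4).2 (2 * g + i) (tfina_NE ((h.mem i).1 hi).1)
  rw [hne, if_pos hi] at h5
  rw [e₁ i hi, e₂ i hi] at h5
  have h6 : (p : ℤ) ^ a ∣ (p : ℤ) ^ (a - e i) * ((pr g S (2 * g + i)).2 * (w i - x i - x' i)) := by
    rw [← tfina_zero]
    push_cast at h5 ⊢
    linear_combination h5
  have hp0 : (p : ℤ) ^ (a - e i) ≠ 0 := pow_ne_zero _ (by exact_mod_cast h.prime.ne_zero)
  rw [tfina_split p (h.le i hi), mul_comm ((p : ℤ) ^ e i), mul_dvd_mul_iff_left hp0] at h6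
  exact (tfina_cop h.prime (h.unit hS i hi) (e i)).dvd_of_dvd_mul_left h6

end Pool.Agent.P.MP_3d25f3_gt.G
end
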