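import Pool.Agent.K.MP_3d25f3_gt.C5
import Pool.Agent.K.MP_3d25f3_gt.C0
import Pool.Agent.K.MP_3d25f3_gt.C2
import Pool.Agent.K.MP_3d25f3_gt.C1
import Pool.Agent.K.MP_3d25f3_gt.C4

-- part Pool.Agent.P.MP_3d25f3_gt.GFacA
section

set_option autoImplicit false

open Set Filter Topology

namespace Pool.Agent.P.MP_3d25f3_gt.G

open Module

variable {Γ : Type} [CommRing Γ] {X Y N : Set E4} {n : E4 → E4 → Γ} {f : Fm Γ}

lemma hev (f : Fm Γ) (ω : ℂˣ) (n : E4 → E4 → Γ) : ∀ x y, evL ω (tw f.L n x y) = tw (f.C ω) n x y :=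
  tw_map _ (f.ev ω) n

lemma hev' (f : Fm Γ) (ω : ℂˣ) (n : E4 → E4 → Γ) :
    ∀ x y, evL ω (tw f.L⁻¹ n x y) = tw (f.C ω)⁻¹ n x y := tw_map _ (map_inv_ch _ (f.ev ω)) n

lemma hsg (f : Fm Γ) (n : E4 → E4 → Γ) : ∀ x y, sgL (tw f.L n x y) = tw f.L⁻¹ n x y :=
  tw_map _ f.sg n

lemma hsg' (f : Fm Γ) (n : E4 → E4 → Γ) : ∀ x y, sgL (tw f.L⁻¹ n x y) = tw f.L n x y :=
  tw_map _ (fun a => by simpa using map_inv_ch _ f.sg a) n

lemma hcj {Z : Type} (f : Fm Γ) {ω : ℂˣ} (hω : ‖(ω : ℂ)‖ = 1) (n : Z → Z → Γ) :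
    ∀ x y, starRingEnd ℂ (tw (f.C ω) n x y) = tw (f.C ω)⁻¹ n x y := tw_map _ (f.cj hω) n

/-- a side with an integer cocycle on an open neighbourhood -/
structure XN (X Y N : Set E4) (n : E4 → E4 → Γ) : Prop where
  xy : XY X Y
  op : IsOpen N
  sub : X ⊆ N
  coc : CocZ n N

lemma XN.good (h : XN X Y N n) {R : Type} [CommRing R] (t : AddChar Γ Rˣ) : Good (tw t n) (tw t⁻¹ n) N :=
  good_tw h.op h.coc t

lemma XN.cocX (h : XN X Y N n) {R : Type} [CommRing R] (t : AddChar Γ Rˣ) : Coc (tw t n) X :=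
  (h.good t).coc.mono h.sub

lemma XN.ok (h : XN X Y N n) {R : Type} [CommRing R] (t : AddChar Γ Rˣ) :
    POK (tw t n) (tw t⁻¹ n) (Out 4) univ Y X ∅ := h.xy.ok (h.good t) h.sub

/-- the sesquilinear pairing over the Laurent ring -/
noncomputable def lamL (f : Fm Γ) (h : XN X Y N n) :
    H (tw f.L n) 2 univ Y →ₗ[La] H (tw f.L n) 2 X ∅ →ₛₗ[sgL] La :=
  (pair (h.ok f.L) (i := 2) (j := 2) rfl).compl₂ (cmap sgL (hsg f n) 2 X ∅)

noncomputable def pbL (f : Fm Γ) (h : XN X Y N n) {ω : ℂˣ} (hω : ‖(ω : ℂ)‖ = 1) :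
    H (tw (f.C ω) n) 2 univ Y →ₗ[ℂ] H (tw f.L n) 2 X ∅ →+ ℂ where
  toFun x := ((pair (h.ok (f.C ω)) (i := 2) (j := 2) rfl x).toAddMonoidHom.comp
    (cmap (starRingEnd ℂ) (hcj f hω n) 2 X ∅).toAddMonoidHom).comp
      (cmap (evL ω) (hev f ω n) 2 X ∅).toAddMonoidHom
  map_add' x y := by ext b; simp
  map_smul' c x := by ext b; simp

lemma pbL_apply (h : XN X Y N n) {ω : ℂˣ} (hω : ‖(ω : ℂ)‖ = 1) (x : H (tw (f.C ω) n) 2 univ Y)
    (b : H (tw f.L n) 2 X ∅) : pbL f h hω x b = pair (h.ok (f.C ω)) (i := 2) (j := 2) rfl x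
      (cmap (starRingEnd ℂ) (hcj f hω n) 2 X ∅ (cmap (evL ω) (hev f ω n) 2 X ∅ b)) := rfl

/-- `W` is the triple product form on the hypersurface -/
def IsW (f : Fm Γ) (h : XY X Y) (ω : ℂˣ) (n : E4 → E4 → Γ) (W : SF (H (tw (f.C ω) n) 1 (X ∩ Y) ∅)) : Prop :=
  ∀ v hv v' hv', ∃ hw, W (cl v hv) (cl v' hv') = intM ℂ h (cl (wf f.deg (f.C ω) n v v') hw)

lemma faca_sg_sg (k : ℕ) (F F' : Set E4) (z : H (tw f.L n) k F F') :
    cmap sgL (hsg' f n) k F F' (cmap sgL (hsg f n) k F F' z) = z := by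
  obtain ⟨c, hc, rfl⟩ := cl_surj z
  rw [cmap_cl, cmap_cl]
  have e : cf sgL (cf sgL c) = c := by funext l; simp [sgL_sgL]
  simp only [e]

lemma faca_sg_sg' (k : ℕ) (F F' : Set E4) (z : H (tw f.L⁻¹ n) k F F') :
    cmap sgL (hsg f n) k F F' (cmap sgL (hsg' f n) k F F' z) = z := by
  obtain ⟨c, hc, rfl⟩ := cl_surj z
  rw [cmap_cl, cmap_cl]
  have e : cf sgL (cf sgL c) = c := by funext l; simp [sgL_sgL]
  simp only [e]

lemma faca_sg_jm (x : H (tw f.L n) 2 univ Y) :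
    cmap sgL (hsg f n) 2 X ∅ (jm (tw f.L n) 2 X Y x)
      = jm (tw f.L⁻¹ n) 2 X Y (cmap sgL (hsg f n) 2 univ Y x) := faca_cmap_jm sgL (hsg f n) 2 x

lemma faca_lam (h : XN X Y N n) (x : H (tw f.L n) 2 univ Y) (b : H (tw f.L n) 2 X ∅) :
    lamL f h x b = pair (h.ok f.L) (i := 2) (j := 2) rfl x (cmap sgL (hsg f n) 2 X ∅ b) := rfl

lemma faca_conj_ev {ω : ℂˣ} (hω : ‖(ω : ℂ)‖ = 1) (b : H (tw f.L n) 2 X ∅) :
    cmap (starRingEnd ℂ) (hcj f hω n) 2 X ∅ (cmap (evL ω) (hev f ω n) 2 X ∅ b)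
      = cmap (evL ω) (hev' f ω n) 2 X ∅ (cmap sgL (hsg f n) 2 X ∅ b) := by
  obtain ⟨c, hc, rfl⟩ := cl_surj b
  rw [cmap_cl, cmap_cl, cmap_cl, cmap_cl]
  have e : cf (starRingEnd ℂ) (cf (evL ω) c) = cf (evL ω) (cf sgL c) := by
    funext l; simp only [cf_apply, evL_sgL hω]
  simp only [e]

lemma lamL_herm (h : XN X Y N n) (x y : H (tw f.L n) 2 univ Y) :
    lamL f h y (jm (tw f.L n) 2 X Y x) = sgL (lamL f h x (jm (tw f.L n) 2 X Y y)) := by
  rw [faca_lam, faca_lam, faca_sg_jm,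
    ← pair_cmap sgL (hsg f n) (hsg' f n) (h.ok f.L) (h.xy.ok (h.good f.L).symm h.sub), faca_sg_sg]
  exact pair_comm h.xy (h.good f.L) h.sub y _

lemma pbL_red (h : XN X Y N n) {ω : ℂˣ} (hω : ‖(ω : ℂ)‖ = 1) (x : H (tw f.L n) 2 univ Y)
    (b : H (tw f.L n) 2 X ∅) :
    pbL f h hω (cmap (evL ω) (hev f ω n) 2 univ Y x) b = evL ω (lamL f h x b) := by
  rw [pbL_apply, faca_lam, faca_conj_ev hω]
  exact pair_cmap (evL ω) (hev f ω n) (hev' f ω n) (h.ok f.L) (h.ok (f.C ω)) rfl x _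

lemma pbL_smul (h : XN X Y N n) {ω : ℂˣ} (hω : ‖(ω : ℂ)‖ = 1) (x : H (tw (f.C ω) n) 2 univ Y) (c : La)
    (b : H (tw f.L n) 2 X ∅) : pbL f h hω x (c • b) = starRingEnd ℂ (evL ω c) * pbL f h hω x b := by
  rw [pbL_apply, pbL_apply, LinearMap.map_smulₛₗ, LinearMap.map_smulₛₗ, map_smul, smul_eq_mul]

lemma faca_coc (h : XN X Y N n) {R : Type} [CommRing R] (t : AddChar Γ Rˣ) : Coc (tw t n) (univ \ Y) := by
  refine (h.cocX t).mono fun z hz => ?_
  have : z ∈ X ∪ Y := by rw [h.xy.cover]; trivial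
  exact this.resolve_right hz.2

theorem pbL_perp (h : XN X Y N n) {ω : ℂˣ} (hω : ‖(ω : ℂ)‖ = 1) (x : H (tw (f.C ω) n) 2 univ Y)
    (hx : ∀ b, pbL f h hω x b = 0) :
    ∃ y ∈ Submodule.torsion La (H (tw f.L n) 2 univ Y), x = cmap (evL ω) (hev f ω n) 2 univ Y y := by
  have hr := red_evL ω
  have f1 := (h.xy.fg (h.good (f.C ω)) h.sub).1
  have f2 := (h.xy.fg (h.good (f.C ω)).symm h.sub).2
  have f3 := (h.xy.fg (h.good f.L) h.sub).1
  have f4 := (h.xy.fg (h.good f.L).symm h.sub).2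
  have := f1 1
  have := f1 2
  have := f2 2
  have := f2 3
  have := f3 2
  have := f4 3
  rw [← mem_imT hr.surj]
  refine ti (p₂ := pair (h.ok (f.C ω)) (i := 2) (j := 2) rfl) (p₁ := pair (h.ok (f.C ω)) (i := 1) (j := 3) rfl)
    (h.xy.dual (h.good (f.C ω)) h.sub rfl) (h.xy.dual (h.good (f.C ω)) h.sub rfl)
    (I₁ := imI (cmap (evL ω) (hev f ω n) 1 univ Y)) (I₂ := imI (cmap (evL ω) (hev' f ω n) 2 X ∅))
    (T₃ := imT (cmap (evL ω) (hev' f ω n) 3 X ∅)) ?_ ?_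
    (tcH hr (hev f ω n) 1 (faca_coc h f.L) (subset_univ Y))
    (tcH hr (hev' f ω n) 2 ((h.cocX f.L⁻¹).mono sdiff_subset) (empty_subset X)) x ?_
  · intro a ha b hb
    obtain ⟨a, ht, rfl⟩ := (mem_imT hr.surj _ _).1 ha
    obtain ⟨b, rfl⟩ := (mem_imI hr.surj _ _).1 hb
    rw [pair_cmap (evL ω) (hev f ω n) (hev' f ω n) (h.ok f.L) (h.ok (f.C ω)), faca_tors _ a b (Or.inl ht),
      map_zero]
  · intro a ha b hb
    obtain ⟨a, rfl⟩ := (mem_imI hr.surj _ _).1 ha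
    obtain ⟨b, ht, rfl⟩ := (mem_imT hr.surj _ _).1 hb
    rw [pair_cmap (evL ω) (hev f ω n) (hev' f ω n) (h.ok f.L) (h.ok (f.C ω)), faca_tors _ a b (Or.inr ht),
      map_zero]
  · intro b hb
    obtain ⟨b, rfl⟩ := (mem_imI hr.surj _ _).1 hb
    have := hx (cmap sgL (hsg' f n) 2 X ∅ b)
    rwa [pbL_apply, faca_conj_ev hω, faca_sg_sg'] at this

/-- the bound at a root of unity of prime power order -/
theorem betti_tw (h : XN X Y N n) {O κ : Type} [CommRing O] [IsDomain O] [IsPrincipalIdealRing O]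
    [Field κ] {φ : O →+* ℂ} {ev : O →+* κ} {w : AddChar Γ Oˣ} {π : O} {ω : AddChar Γ ℂˣ}
    (hφ : Function.Injective φ)
    (hw : ∀ a, φ (w a) = ω a) (hw' : ∀ a, ev (w a) = 1) (hr : Red ev π) {x : E4} (hx : x ∈ X)
    (h0 : ∀ c ∈ Zc (tw w n) 0 X ∅, c [x] = 0) :
    finrank ℂ (H (tw ω n) 1 X ∅) + finrank ℂ (H (tw ω⁻¹ n) 2 X ∅) + 1
      ≤ finrank κ (H (1 : E4 → E4 → κ) 1 (X ∩ Y) ∅) := by
  have e1 : ∀ a b, ev (tw w n a b) = (1 : E4 → E4 → κ) a b := fun a b => hw' _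
  have e2 : ∀ a b, ev (tw w⁻¹ n a b) = (1 : E4 → E4 → κ) a b := fun a b => hw' _
  have f1 := (h.xy.fg (h.good w) h.sub).2
  have f2 := (h.xy.fg (h.good w).symm h.sub).2
  have f3 := (h.xy.fg (good_one (R := κ)) (subset_univ X)).2
  have := f1 1
  have := f2 2
  have := f3 0
  have := f3 1
  have := f3 2
  have c1 : Coc (tw w n) (X \ ∅) := (h.cocX w).mono sdiff_subset
  have c2 : Coc (tw w⁻¹ n) (X \ ∅) := (h.cocX w⁻¹).mono sdiff_subset
  have r1 := rk hr (cmap ev e1 1 X ∅) (cmap_eq_zero hr e1 c1 (empty_subset X)) hφ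
    (cmap φ (tw_map φ hw n) 1 X ∅)
    (span_cmap hφ (tw_map φ hw n) 1 h.xy.compact (h.cocX ω))
  have r2 := rk hr (cmap ev e2 2 X ∅) (cmap_eq_zero hr e2 c2 (empty_subset X)) hφ
    (cmap φ (tw_map φ (map_inv_ch φ hw) n) 2 X ∅)
    (span_cmap hφ (tw_map φ (map_inv_ch φ hw) n) 2 h.xy.compact (h.cocX ω⁻¹))
  have t0 := tcH hr e1 0 c1 (empty_subset X)
  have l1 := Submodule.finrank_le (imI (cmap ev e1 1 X ∅))
  have l2 := Submodule.finrank_le (imI (cmap ev e2 2 X ∅))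
  have bs := betti_sum (k := κ) h.xy
  have hone : (fun _ => 1 : List E4 → κ) ∈ Zc (1 : E4 → E4 → κ) 0 X ∅ := by
    refine ⟨by simp, fun z _ => ⟨univ, univ_mem, fun l hl _ => ?_⟩⟩
    match l, hl with
    | [a, b], _ => rw [D_two]; simp
  have hlt : imI (cmap ev e1 0 X ∅) ≠ ⊤ := by
    intro ht
    have hm : cl _ hone ∈ imI (cmap ev e1 0 X ∅) := by rw [ht]; trivial
    obtain ⟨y, hy⟩ := (mem_imI hr.surj _ _).1 hm
    obtain ⟨c, hc, rfl⟩ := cl_surj y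
    rw [cmap_cl, cl_eq, Bc_zero] at hy
    obtain ⟨U, hU, hU'⟩ := hy x hx
    have := hU' [x] rfl (by simpa using mem_of_mem_nhds hU)
    rw [Pi.sub_apply, cf_apply, h0 c hc, map_zero, sub_zero] at this
    exact one_ne_zero this
  have l0 := Submodule.finrank_lt hlt
  have t1 : finrank κ (imT (cmap ev e1 1 X ∅)) + finrank κ (imI (cmap ev e1 0 X ∅))
      = finrank κ (H (1 : E4 → E4 → κ) 0 X ∅) := t0
  omega

end Pool.Agent.P.MP_3d25f3_gt.G
end

-- part Pool.Agent.P.MP_3d25f3_gt.GFacB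
section

set_option autoImplicit false

open Set Filter Topology

namespace Pool.Agent.P.MP_3d25f3_gt.G

open Module

variable {Γ : Type} [CommRing Γ] {X Y N : Set E4} {n : E4 → E4 → Γ} {f : Fm Γ} {ω : ℂˣ}

/-- the second factor of the triple product -/
noncomputable def facb_in {Z : Type} (f : Fm Γ) (ω : ℂˣ) (n : Z → Z → Γ) :
    (List Z → ℂ) →ₛₗ[starRingEnd ℂ] (List Z → ℂ) :=
  (cf (starRingEnd ℂ)).comp (cupL (tw (f.C ω) n) 1 (co1 fun a b => (f.deg (n a b) : ℂ)))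

lemma facb_wf {Z : Type} (f : Fm Γ) (ω : ℂˣ) (n : Z → Z → Γ) (v v' : List Z → ℂ) :
    wf f.deg (f.C ω) n v v' = cupL (tw (f.C ω)⁻¹ n) 1 v (facb_in f ω n v') := rfl

lemma facb_in_Zc {Z : Type} [TopologicalSpace Z] {n : Z → Z → Γ} {F : Set Z} (hn : CocZ n F)
    (hω : ‖(ω : ℂ)‖ = 1) {v : List Z → ℂ} (hv : v ∈ Zc (tw (f.C ω) n) 1 F ∅) :
    facb_in f ω n v ∈ Zc (tw (f.C ω)⁻¹ n) 2 F ∅ :=
  cf_Zc _ (hcj f hω n) (cup_Zc_abs (Coc_one F) (hn.tw (f.C ω)) (facb_mu _ F) (p := 1) (q := 1) rfl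
    (CocZ.int.1 (hn.map f.deg)).co1 hv)

lemma facb_in_Bc {Z : Type} [TopologicalSpace Z] {n : Z → Z → Γ} {F : Set Z} (hn : CocZ n F)
    (hω : ‖(ω : ℂ)‖ = 1) {v : List Z → ℂ} (hv : v ∈ Bc (tw (f.C ω) n) 1 F ∅) :
    facb_in f ω n v ∈ Bc (tw (f.C ω)⁻¹ n) 2 F ∅ :=
  cf_Bc _ (hcj f hω n) (cup_Bc_abs_right (Coc_one F) (hn.tw (f.C ω)) (facb_mu _ F) (p := 1) (q := 1) rfl
    (CocZ.int.1 (hn.map f.deg)).co1 hv)

lemma wf_Zc {Z : Type} [TopologicalSpace Z] {n : Z → Z → Γ} {F : Set Z} (hn : CocZ n F)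
    (hω : ‖(ω : ℂ)‖ = 1) {v v' : List Z → ℂ} (hv : v ∈ Zc (tw (f.C ω) n) 1 F ∅)
    (hv' : v' ∈ Zc (tw (f.C ω) n) 1 F ∅) : wf f.deg (f.C ω) n v v' ∈ Zc (1 : Z → Z → ℂ) 3 F ∅ := by
  exact cup_Zc_abs (hn.tw (f.C ω)) (hn.tw (f.C ω)⁻¹) (Mu_tw (f.C ω) n F) (p := 1) (q := 2) rfl hv
    (facb_in_Zc hn hω hv')

lemma wf_Bc {Z : Type} [TopologicalSpace Z] {n : Z → Z → Γ} {F : Set Z} (hn : CocZ n F)
    (hω : ‖(ω : ℂ)‖ = 1) {v v' u u' : List Z → ℂ} (hv : v ∈ Zc (tw (f.C ω) n) 1 F ∅)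
    (hv' : v' ∈ Zc (tw (f.C ω) n) 1 F ∅) (hu : v - u ∈ Bc (tw (f.C ω) n) 1 F ∅)
    (hu' : v' - u' ∈ Bc (tw (f.C ω) n) 1 F ∅) :
    wf f.deg (f.C ω) n v v' - wf f.deg (f.C ω) n u u' ∈ Bc (1 : Z → Z → ℂ) 3 F ∅ := by
  have hz : v - u ∈ Zc (tw (f.C ω) n) 1 F ∅ :=
    Bc_le_Zc ((hn.tw (f.C ω)).mono sdiff_subset) (empty_subset F) hu
  have hu0 : u ∈ Zc (tw (f.C ω) n) 1 F ∅ := by
    have := sub_mem hv hz
    rwa [sub_sub_cancel] at this
  have h1 := cup_Bc_abs_left (hn.tw (f.C ω)) (hn.tw (f.C ω)⁻¹) (Mu_tw (f.C ω) n F) (p := 1) (q := 2) (k := 3) rfl hu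
    (facb_in_Zc hn hω hv')
  have h2 := cup_Bc_abs_right (hn.tw (f.C ω)) (hn.tw (f.C ω)⁻¹) (Mu_tw (f.C ω) n F) (p := 1) (q := 2) (k := 3) rfl
    hu0 (facb_in_Bc hn hω hu')
  have h3 : wf f.deg (f.C ω) n v v' - wf f.deg (f.C ω) n u u' = cupL (tw (f.C ω)⁻¹ n) 1 (v - u) (facb_in f ω n v')
      + cupL (tw (f.C ω)⁻¹ n) 1 u (facb_in f ω n (v' - u')) := by
    rw [facb_wf, facb_wf, map_sub, map_sub, map_sub, LinearMap.sub_apply]
    abel
  rw [h3]
  exact add_mem h1 h2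

lemma facb_coc (h : XN X Y N n) : CocZ n (X ∩ Y) := h.coc.mono (inter_subset_left.trans h.sub)

lemma facb_wf_right (h : XN X Y N n) (hω : ‖(ω : ℂ)‖ = 1) {v v' : List E4 → ℂ}
    (hv : v ∈ Zc (tw (f.C ω) n) 1 (X ∩ Y) ∅) (hv' : v' ∈ Bc (tw (f.C ω) n) 1 (X ∩ Y) ∅) :
    wf f.deg (f.C ω) n v v' ∈ Bc (1 : E4 → E4 → ℂ) 3 (X ∩ Y) ∅ :=
  cup_Bc_abs_right ((facb_coc h).tw (f.C ω)) ((facb_coc h).tw (f.C ω)⁻¹) (Mu_tw (f.C ω) n _) (p := 1) (q := 2) rfl
    hv (facb_in_Bc (facb_coc h) hω hv')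

noncomputable def facb_WZ (f : Fm Γ) (h : XN X Y N n) (hω : ‖(ω : ℂ)‖ = 1) :
    Zc (tw (f.C ω) n) 1 (X ∩ Y) ∅ →ₗ[ℂ] H (tw (f.C ω) n) 1 (X ∩ Y) ∅ →ₛₗ[starRingEnd ℂ] ℂ where
  toFun a := (intM ℂ h.xy).comp (hmap ((cupL (tw (f.C ω)⁻¹ n) 1 a.1).comp (facb_in f ω n))
    (fun _ hc => wf_Zc (facb_coc h) hω a.2 hc) (fun _ _ hb => facb_wf_right h hω a.2 hb))
  map_add' a a' := by
    refine LinearMap.ext fun b => ?_
    obtain ⟨b, hb, rfl⟩ := cl_surj b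
    change intM ℂ h.xy (cl _ (wf_Zc (facb_coc h) hω (a + a').2 hb))
      = intM ℂ h.xy (cl _ (wf_Zc (facb_coc h) hω a.2 hb))
        + intM ℂ h.xy (cl _ (wf_Zc (facb_coc h) hω a'.2 hb))
    rw [← map_add, ← cl_add]
    simp only [Submodule.coe_add, wf, cup_add_left]
  map_smul' r a := by
    refine LinearMap.ext fun b => ?_
    obtain ⟨b, hb, rfl⟩ := cl_surj b
    change intM ℂ h.xy (cl _ (wf_Zc (facb_coc h) hω (r • a).2 hb))
      = r • intM ℂ h.xy (cl _ (wf_Zc (facb_coc h) hω a.2 hb))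
    rw [← map_smul, ← cl_smul]
    simp only [Submodule.coe_smul, wf, cup_smul_left]

lemma exists_W (h : XN X Y N n) (hω : ‖(ω : ℂ)‖ = 1) : ∃ W, IsW f h.xy ω n W := by
  refine ⟨Submodule.liftQ _ (facb_WZ f h hω) ?_, fun v hv v' hv' =>
    ⟨wf_Zc (facb_coc h) hω hv hv', rfl⟩⟩
  intro a ha
  rw [LinearMap.mem_ker]
  refine LinearMap.ext fun b => ?_
  obtain ⟨b, hb, rfl⟩ := cl_surj b
  change intM ℂ h.xy (cl _ (wf_Zc (facb_coc h) hω a.2 hb)) = 0
  have h1 : wf f.deg (f.C ω) n a.1 b ∈ Bc (1 : E4 → E4 → ℂ) 3 (X ∩ Y) ∅ :=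
    cup_Bc_abs_left ((facb_coc h).tw (f.C ω)) ((facb_coc h).tw (f.C ω)⁻¹) (Mu_tw (f.C ω) n _) (p := 1) (q := 2) rfl
      ha (facb_in_Zc (facb_coc h) hω hb)
  rw [(cl_eq_zero _).2 h1, map_zero]

variable {β : H (tw (f.C ω) n) 1 (X ∩ Y) ∅ →+ H (tw f.L n) 2 (X ∩ Y) ∅}

lemma bock_lift (h : XN X Y N n) (hβ : IsBock (evL ω) (epL ω) (hev f ω n) 1 (X ∩ Y) ∅ β)
    (v : H (tw (f.C ω) n) 1 (X ∩ Y) ∅) (b : H (tw f.L n) 2 X ∅) (hb : β v = rm (tw f.L n) 2 X Y b) :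
    ∃ x, jm (tw f.L n) 2 X Y x = epL ω • (-b) ∧
      cmap (evL ω) (hev f ω n) 2 univ Y x = dl h.xy (h.cocX (f.C ω)) 1 v := by
  obtain ⟨c, y, hc, hy, -, h1, rfl, h2⟩ := hβ.rep v
  obtain ⟨b, hb0, rfl⟩ := cl_surj b
  rw [h2] at hb
  obtain ⟨c', -, h3⟩ := mem_Bc.1 ((cl_eq hy _).1 hb)
  have ha0 : D (tw f.L n) (c - epL ω • c') - epL ω • b ∈ Zc (tw f.L n) 2 X (X ∩ Y) := by
    refine mem_Zc.2 ⟨?_, ?_⟩
    · have h4 := add_mem h1 (Submodule.smul_mem _ (epL ω) h3)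
      have h5 : D (tw f.L n) (c - epL ω • c') - epL ω • b = D (tw f.L n) c - epL ω • y
          + epL ω • (y - b - D (tw f.L n) c') := by
        rw [map_sub, map_smul, smul_sub, smul_sub]
        abel
      rw [h5]
      exact h4
    · rw [map_sub, map_smul]
      exact sub_mem (facb_DD (h.cocX f.L) 2 _) (Submodule.smul_mem _ _ hb0.2)
  obtain ⟨a, ha, h4⟩ := exc_surj 2 h.xy.cX h.xy.cY ha0
  rw [h.xy.cover] at ha
  refine ⟨cl a ha, ?_, ?_⟩
  · change cl a _ = cl (epL ω • (-b)) (Submodule.smul_mem _ _ (neg_mem hb0))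
    rw [cl_eq]
    refine mem_Bc.2 ⟨c - epL ω • c', by simp, ?_⟩
    have h5 : a - epL ω • (-b) - D (tw f.L n) (c - epL ω • c')
        = -(D (tw f.L n) (c - epL ω • c') - epL ω • b - a) := by
      rw [smul_neg]
      abel
    rw [h5]
    exact neg_mem h4
  · rw [cmap_cl, eq_comm, dl_eq]
    refine Null_le_Bc _ _ _ _ ?_
    have h5 : cf (evL ω) a - D (tw (f.C ω) n) (cf (evL ω) c)
        = -cf (evL ω) (D (tw f.L n) (c - epL ω • c') - epL ω • b - a) := by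
      rw [← cf_D _ (hev f ω n)]
      simp only [map_sub, map_smul, LinearMap.map_smulₛₗ, facb_ev, zero_smul]
      abel
    rw [h5]
    exact neg_mem (cf_Null _ h4)

lemma bock_back (h : XN X Y N n) (hβ : IsBock (evL ω) (epL ω) (hev f ω n) 1 (X ∩ Y) ∅ β)
    (v : H (tw (f.C ω) n) 1 (X ∩ Y) ∅) (x : H (tw f.L n) 2 univ Y)
    (hx : dl h.xy (h.cocX (f.C ω)) 1 v = cmap (evL ω) (hev f ω n) 2 univ Y x) :
    ∃ b, β v = rm (tw f.L n) 2 X Y b := by
  obtain ⟨v, hv, rfl⟩ := cl_surj v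
  obtain ⟨a, ha, rfl⟩ := cl_surj x
  rw [cmap_cl, dl_eq] at hx
  obtain ⟨p, hp, h1⟩ := mem_Bc.1 hx
  obtain ⟨c, rfl, -⟩ := red_lift (red_evL ω) v
  obtain ⟨p, rfl, hp'⟩ := red_lift (red_evL ω) p
  obtain ⟨y, hy, -⟩ := red_div (red_evL ω) (D (tw f.L n) (c + p) - a)
  have h2 : D (tw f.L n) (c + p) - a - epL ω • y ∈ Null La 2 X := by
    refine hy _ _ ?_
    have h3 : cf (evL ω) (D (tw f.L n) (c + p) - a)
        = -(cf (evL ω) a - D (tw (f.C ω) n) (cf (evL ω) c) - D (tw (f.C ω) n) (cf (evL ω) p)) := by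
      rw [map_sub, cf_D _ (hev f ω n), map_add, map_add]
      abel
    rw [h3]
    exact neg_mem h1
  have hy0 : y ∈ Zc (tw f.L n) 2 X ∅ :=
    facb_quot (h.cocX f.L) (Null_mono _ (subset_univ X) ha.2) h2
  have hc : cf (evL ω) (c + p) ∈ Zc (tw (f.C ω) n) 1 (X ∩ Y) ∅ := by
    rw [map_add]
    exact add_mem hv (mem_Zc.2 ⟨by simp, D_Null _ hp⟩)
  have h4 : cl _ hv = cl _ hc := by
    rw [eq_comm, cl_eq, map_add, add_sub_cancel_left]
    exact Null_le_Bc _ _ _ _ hp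
  refine ⟨cl y hy0, ?_⟩
  rw [h4]
  refine hβ.spec (c + p) y hc (Zc_mono _ _ inter_subset_left subset_rfl hy0) (by simp) ?_
  have h5 := add_mem (Null_mono _ (inter_subset_left (t := Y)) h2)
    (Null_mono _ (inter_subset_right (s := X)) ha.1)
  have h6 : D (tw f.L n) (c + p) - epL ω • y = D (tw f.L n) (c + p) - a - epL ω • y + a := by abel
  rw [h6]
  exact h5

/-- the Bockstein cochain of a constant lift -/
noncomputable def facb_y (f : Fm Γ) (ω : ℂˣ) (n : E4 → E4 → Γ) (v : List E4 → ℂ) : List E4 → La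
  | a :: b :: l => (pow_sub_eq ω (f.deg (n a b))).choose *
      (LaurentPolynomial.C (f.ψ (n a b) : ℂ) * LaurentPolynomial.C (v (b :: l)))
  | _ => 0

lemma facb_y_spec {F : Set E4} {v : List E4 → ℂ} (hv : D (tw (f.C ω) n) v ∈ Null ℂ 2 F) :
    D (tw f.L n) (cf LaurentPolynomial.C v) - epL ω • facb_y f ω n v ∈ Null La 2 F := by
  refine facb_len3 (fun x y z => ?_) (cf_Null LaurentPolynomial.C hv)
  have h1 := (pow_sub_eq ω (f.deg (n x y))).choose_spec.1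
  simp only [Pi.sub_apply, Pi.smul_apply, smul_eq_mul, D_three, cf_apply, facb_y, tw, map_add,
    map_sub, map_mul, Fm.L_val, Fm.C_apply, Units.val_mul]
  linear_combination (LaurentPolynomial.C (f.ψ (n x y) : ℂ) * LaurentPolynomial.C (v [y, z]) : La) * h1

lemma facb_y_ev (F : Set E4) (v : List E4 → ℂ) :
    ((ω⁻¹ : ℂˣ) : ℂ) • cup (tw (f.C ω) n) 1 (co1 fun a b => (f.deg (n a b) : ℂ)) v - cf (evL ω) (facb_y f ω n v)
      ∈ Null ℂ 2 F := by
  refine facb_len3 (fun x y z => ?_) (zero_mem _)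
  have h1 := (pow_sub_eq ω (f.deg (n x y))).choose_spec.2
  simp only [Pi.sub_apply, Pi.smul_apply, smul_eq_mul, cf_apply, facb_y, map_mul, h1, evL_C,
    Pi.zero_apply]
  simp only [cup, co1, tw, List.take, List.drop, List.getD_cons_succ, List.getD_cons_zero,
    zpow_sub_one, Fm.C_apply, Units.val_mul]
  ring

lemma bock_psi (h : XN X Y N n) (hω : ‖(ω : ℂ)‖ = 1)
    (hβ : IsBock (evL ω) (epL ω) (hev f ω n) 1 (X ∩ Y) ∅ β) {W : SF (H (tw (f.C ω) n) 1 (X ∩ Y) ∅)}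
    (hW : IsW f h.xy ω n W) (v v' : H (tw (f.C ω) n) 1 (X ∩ Y) ∅) (b : H (tw f.L n) 2 X ∅)
    (hb : β v' = rm (tw f.L n) 2 X Y b) : (ω : ℂ) * W v v' = pbL f h hω (dl h.xy (h.cocX (f.C ω)) 1 v) b := by
  obtain ⟨v, hv, rfl⟩ := cl_surj v
  obtain ⟨v', hv', rfl⟩ := cl_surj v'
  obtain ⟨b, hb0, rfl⟩ := cl_surj b
  obtain ⟨hw, h1⟩ := hW v hv v' hv'
  have hn := facb_coc h
  have he : cf (evL ω) (cf LaurentPolynomial.C v') = v' := by
    funext l
    exact evL_C ω _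
  have hc : cf (evL ω) (cf LaurentPolynomial.C v') ∈ Zc (tw (f.C ω) n) 1 (X ∩ Y) ∅ := by
    rw [he]
    exact hv'
  have h2 := facb_y_spec (f := f) (ω := ω) (n := n) hv'.2
  have hy : facb_y f ω n v' ∈ Zc (tw f.L n) 2 (X ∩ Y) ∅ :=
    facb_quot (ω := ω) (hn.tw f.L) (c := cf LaurentPolynomial.C v') (a := 0) (by simp)
      (by rwa [sub_zero])
  have h3 := hβ.spec _ _ hc hy (by simp) h2
  have h4 : cl _ hc = cl v' hv' := by simp only [he]
  rw [h4, hb] at h3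
  have h5 := cf_Bc _ (hev f ω n) ((cl_eq hy _).1 h3.symm)
  have h6 := add_mem (Null_le_Bc (tw (f.C ω) n) 2 (X ∩ Y) ∅ (facb_y_ev (f := f) (ω := ω) (n := n) _ v')) h5
  rw [map_sub, sub_add_sub_cancel] at h6
  have h7 := cf_Bc _ (hcj f hω n) h6
  have h8 : starRingEnd ℂ ((ω⁻¹ : ℂˣ) : ℂ) = ω := by
    rw [← conj_unit hω, Complex.conj_conj]
  rw [map_sub, LinearMap.map_smulₛₗ, h8] at h7
  have h9 := cup_Bc_abs_right (hn.tw (f.C ω)) (hn.tw (f.C ω)⁻¹) (Mu_tw (f.C ω) n _) (p := 1) (q := 2) (k := 3) rfl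
    hv h7
  have hb1 : cf (starRingEnd ℂ) (cf (evL ω) b) ∈ Zc (tw (f.C ω)⁻¹ n) 2 X ∅ :=
    cf_Zc _ (hcj f hω n) (cf_Zc _ (hev f ω n) hb0)
  have hw' := cup_Zc_abs (hn.tw (f.C ω)) (hn.tw (f.C ω)⁻¹) (Mu_tw (f.C ω) n _) (p := 1) (q := 2) (k := 3) rfl hv
    (Zc_mono _ _ inter_subset_left subset_rfl hb1)
  have h10 := pair_dl h.xy (h.good (f.C ω)) h.sub (i := 1) (j := 2) rfl hv hb1 hw'
  refine Eq.trans ?_ h10.symm
  rw [h1, ← smul_eq_mul, ← map_smul, ← cl_smul]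
  congr 1
  rw [cl_eq]
  rw [← cupL_apply, map_sub, map_smul] at h9
  exact h9

end Pool.Agent.P.MP_3d25f3_gt.G
end

-- part Pool.Agent.P.MP_3d25f3_gt.GFacC
section

set_option autoImplicit false

open Set Filter Topology

namespace Pool.Agent.P.MP_3d25f3_gt.G

open Module

variable {Γ : Type} [CommRing Γ] {X Y N : Set E4} {n : E4 → E4 → Γ} {f : Fm Γ}

/-- the family of hermitian forms -/
structure Family (f : Fm Γ) (h : XN X Y N n) (m : ℤ) (ρ : ℕ) (G G₁ : ℝ → SF (Fin ρ → ℂ)) : Prop where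
  herm : ∀ θ, Herm (G θ)
  der : ∀ θ x y, HasDerivAt (fun u => G u x y) (G₁ θ x y) θ
  card : ∀ θ, ρ ≤ finrank ℂ (H (tw (f.C (cu θ)) n) 2 univ Y)
  rank : ∀ θ, ρ ≤ finrank ℂ (LinearMap.ker (G θ))
    + finrank ℂ (LinearMap.range (jm (tw (f.C (cu θ)) n) 2 X Y))
  gen : ∀ θ, cu θ ^ m ≠ 1 → LinearMap.ker (G θ) = ⊥
  nd : ∀ θ, ∀ x ∈ LinearMap.ker (G θ), (∀ y ∈ LinearMap.ker (G θ), G₁ θ x y = 0) → x = 0
  res : ∀ θ, cu θ ^ m = 1 → ∀ W, IsW f h.xy (cu θ) n W →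
    ∃ (Q : Submodule ℂ (H (tw (f.C (cu θ)) n) 1 (X ∩ Y) ∅)) (π : Q →ₗ[ℂ] LinearMap.ker (G θ)),
      Function.Surjective π ∧ (∀ v v' : Q, G₁ θ (π v) (π v') = Complex.I * W v v') ∧
      ∀ v, (∀ q ∈ Q, W v q = 0) → v ∈ Q

/-- the Gram matrix over the Laurent ring -/
noncomputable def facc_M (f : Fm Γ) (h : XN X Y N n) {ρ : ℕ} (e : Fin ρ → H (tw f.L n) 2 univ Y)
    (i j : Fin ρ) : La := lamL f h (e i) (jm (tw f.L n) 2 X Y (e j))

noncomputable def facc_G (f : Fm Γ) (h : XN X Y N n) {ρ : ℕ} (e : Fin ρ → H (tw f.L n) 2 univ Y) (θ : ℝ) :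
    SF (Fin ρ → ℂ) := gram fun i j => evL (cu θ) (facc_M f h e i j)

noncomputable def facc_G1 (f : Fm Γ) (h : XN X Y N n) {ρ : ℕ} (e : Fin ρ → H (tw f.L n) 2 univ Y) (θ : ℝ) :
    SF (Fin ρ → ℂ) := gram fun i j => deriv (fun u => evL (cu u) (facc_M f h e i j)) θ

lemma facc_lam (h : XN X Y N n) {ρ : ℕ} (e : Fin ρ → H (tw f.L n) 2 univ Y) (x y : Fin ρ → ℂ) :
    lamL f h (∑ i, (LaurentPolynomial.C (x i) : La) • e i)
        (jm (tw f.L n) 2 X Y (∑ i, (LaurentPolynomial.C (y i) : La) • e i))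
      = ∑ i, ∑ j, LaurentPolynomial.C (x i) * LaurentPolynomial.C (starRingEnd ℂ (y j))
        * facc_M f h e i j := by
  rw [map_sum (lamL f h), LinearMap.sum_apply]
  refine Finset.sum_congr rfl fun i _ => ?_
  rw [map_smul, LinearMap.smul_apply, map_sum, map_sum, Finset.smul_sum]
  refine Finset.sum_congr rfl fun j _ => ?_
  rw [map_smul, LinearMap.map_smulₛₗ, sgL_C, smul_eq_mul, smul_eq_mul, facc_M, mul_assoc]

lemma facc_Geq (h : XN X Y N n) {ρ : ℕ} (e : Fin ρ → H (tw f.L n) 2 univ Y) (θ : ℝ)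
    (x y : Fin ρ → ℂ) : facc_G f h e θ x y
      = evL (cu θ) (lamL f h (∑ i, (LaurentPolynomial.C (x i) : La) • e i)
        (jm (tw f.L n) 2 X Y (∑ i, (LaurentPolynomial.C (y i) : La) • e i))) := by
  rw [facc_lam, facc_G, gram_apply, map_sum]
  refine Finset.sum_congr rfl fun i _ => ?_
  rw [map_sum]
  refine Finset.sum_congr rfl fun j _ => ?_
  rw [map_mul, map_mul, evL_C, evL_C]

lemma facc_der (h : XN X Y N n) {ρ : ℕ} (e : Fin ρ → H (tw f.L n) 2 univ Y) (θ : ℝ)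
    (x y : Fin ρ → ℂ) : HasDerivAt (fun u => facc_G f h e u x y) (facc_G1 f h e θ x y) θ := by
  simp only [facc_G, facc_G1, gram_apply]
  refine HasDerivAt.fun_sum fun i _ => HasDerivAt.fun_sum fun j _ => ?_
  exact (differentiable_evL (facc_M f h e i j) θ).hasDerivAt.const_mul _

lemma facc_herm (h : XN X Y N n) {ρ : ℕ} (e : Fin ρ → H (tw f.L n) 2 univ Y) (θ : ℝ) :
    Herm (facc_G f h e θ) := by
  intro x y
  rw [facc_Geq, facc_Geq, lamL_herm, evL_sgL (norm_cu θ)]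

lemma facc_comm (ω : ℂˣ) (x : H (tw f.L n) 2 univ Y) :
    cmap (evL ω) (hev f ω n) 2 X ∅ (jm (tw f.L n) 2 X Y x)
      = jm (tw (f.C ω) n) 2 X Y (cmap (evL ω) (hev f ω n) 2 univ Y x) := by
  obtain ⟨a, ha, rfl⟩ := cl_surj x
  rfl

lemma facc_rank (h : XN X Y N n) {ρ : ℕ} (e : Fin ρ → H (tw f.L n) 2 univ Y) (θ : ℝ) :
    ρ ≤ finrank ℂ (LinearMap.ker (facc_G f h e θ))
      + finrank ℂ (LinearMap.range (jm (tw (f.C (cu θ)) n) 2 X Y)) := by
  have : Module.Finite ℂ (H (tw (f.C (cu θ)) n) 2 X ∅) := (h.xy.fg (h.good (f.C (cu θ))) h.sub).2 2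
  let L : (Fin ρ → ℂ) →ₗ[ℂ] H (tw (f.C (cu θ)) n) 2 X ∅ := jm (tw (f.C (cu θ)) n) 2 X Y ∘ₗ
    Fintype.linearCombination ℂ fun i => cmap (evL (cu θ)) (hev f (cu θ) n) 2 univ Y (e i)
  have h1 : LinearMap.ker L ≤ LinearMap.ker (facc_G f h e θ) := by
    intro y hy
    rw [LinearMap.mem_ker] at hy ⊢
    ext1 x
    have h2 : cmap (evL (cu θ)) (hev f (cu θ) n) 2 X ∅
        (jm (tw f.L n) 2 X Y (∑ i, (LaurentPolynomial.C (y i) : La) • e i)) = 0 := by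
      rw [facc_comm, ← hy, map_sum]
      simp only [L, LinearMap.comp_apply, Fintype.linearCombination_apply,
        LinearMap.map_smulₛₗ, evL_C]
    rw [facc_herm h e θ x y, facc_Geq, ← pbL_red h (norm_cu θ), pbL_apply, h2, map_zero,
      map_zero, map_zero, LinearMap.zero_apply]
  have h3 : LinearMap.range L ≤ LinearMap.range (jm (tw (f.C (cu θ)) n) 2 X Y) :=
    LinearMap.range_comp_le_range _ _
  have h4 := L.finrank_range_add_finrank_ker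
  have h5 := Submodule.finrank_mono h1
  have h6 := Submodule.finrank_mono h3
  rw [Module.finrank_fin_fun] at h4
  omega

lemma facc_res (h : XN X Y N n) {m : ℤ}
    (hk : ∀ x : H (tw f.L n) 2 (X ∩ Y) ∅, (((tL ^ m : Laˣ) : La) - 1) • x = 0) {ρ : ℕ}
    {e : Fin ρ → H (tw f.L n) 2 univ Y}
    (h1 : ∀ x, ∃ c : Fin ρ → La, x - ∑ i, c i • e i ∈ Submodule.torsion La (H (tw f.L n) 2 univ Y))
    (h2 : ∀ c : Fin ρ → La, ∑ i, c i • e i ∈ Submodule.torsion La (H (tw f.L n) 2 univ Y) → c = 0)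
    (θ : ℝ) {W : SF (H (tw (f.C (cu θ)) n) 1 (X ∩ Y) ∅)} (hW : IsW f h.xy (cu θ) n W) :
    ∃ β : H (tw (f.C (cu θ)) n) 1 (X ∩ Y) ∅ →+ H (tw f.L n) 2 (X ∩ Y) ∅,
      ResD sgL (evL (cu θ)) LaurentPolynomial.C (epL (cu θ))
        (-((tL⁻¹ : Laˣ) * LaurentPolynomial.C (((cu θ)⁻¹ : ℂˣ) : ℂ))) (((tL ^ m : Laˣ) : La) - 1)
        (jm (tw f.L n) 2 X Y) (rm (tw f.L n) 2 X Y) (lamL f h)
        (cmap (evL (cu θ)) (hev f (cu θ) n) 2 univ Y) (pbL f h (norm_cu θ))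
        (dl h.xy (h.cocX (f.C (cu θ))) 1) β ((cu θ : ℂ) • W) e (facc_G f h e θ) := by
  obtain ⟨β, hβ⟩ := exists_bock (red_evL (cu θ)) (hev f (cu θ) n) 1 (F := X ∩ Y) (F' := ∅)
    ((h.cocX f.L).mono (sdiff_subset.trans inter_subset_left)) (empty_subset _)
  have hc : Coc (tw f.L n) (univ \ Y) := (h.cocX f.L).mono fun x hx =>
    (h.xy.cover.ge (mem_univ x)).resolve_right hx.2
  refine ⟨β, sgL_sgL, evL_sgL (norm_cu θ), evL_C _, (red_evL _).ker, fun h0 => ?_,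
    sgL_epL (norm_cu θ), exact_jm_rm h.xy (h.cocX f.L) 2, hk, lamL_herm h, pbL_red h _,
    pbL_smul h _, pbL_perp h _, fun x hx => ?_, hβ.smul, fun y hy => ?_, bock_lift h hβ,
    bock_back h hβ, fun v v' b hb => ?_, h1, h2, facc_Geq h e θ⟩
  · exact one_ne_zero ((red_evL (cu θ)).reg 1 (by rw [h0, zero_mul]))
  · exact (cmap_eq_zero (red_evL _) (hev f _ n) hc (subset_univ _) x).1 hx
  · obtain ⟨v, hv⟩ := (hβ.range y).1 hy
    exact ⟨v, hv.symm⟩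
  · rw [← bock_psi h (norm_cu θ) hβ hW v v' b hb]
    rfl

lemma facc_G1_eq (h : XN X Y N n) {ρ : ℕ} (e : Fin ρ → H (tw f.L n) 2 univ Y) (θ : ℝ)
    (x y : Fin ρ → ℂ) (q : La)
    (hq : lamL f h (∑ i, (LaurentPolynomial.C (x i) : La) • e i)
        (jm (tw f.L n) 2 X Y (∑ i, (LaurentPolynomial.C (y i) : La) • e i)) = epL (cu θ) * q) :
    facc_G1 f h e θ x y = Complex.I * cu θ * evL (cu θ) q := by
  have h1 := facc_der h e θ x y
  simp only [facc_Geq, hq] at h1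
  exact h1.unique (hasDerivAt_epL θ q)

lemma facc_root (h : XN X Y N n) {m : ℤ} (hm : m ≠ 0)
    (hk : ∀ x : H (tw f.L n) 2 (X ∩ Y) ∅, (((tL ^ m : Laˣ) : La) - 1) • x = 0) {ρ : ℕ}
    {e : Fin ρ → H (tw f.L n) 2 univ Y}
    (h1 : ∀ x, ∃ c : Fin ρ → La, x - ∑ i, c i • e i ∈ Submodule.torsion La (H (tw f.L n) 2 univ Y))
    (h2 : ∀ c : Fin ρ → La, ∑ i, c i • e i ∈ Submodule.torsion La (H (tw f.L n) 2 univ Y) → c = 0)
    (θ : ℝ) (hθ : cu θ ^ m = 1) {W : SF (H (tw (f.C (cu θ)) n) 1 (X ∩ Y) ∅)}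
    (hW : IsW f h.xy (cu θ) n W) :
    (∀ x ∈ LinearMap.ker (facc_G f h e θ),
      (∀ y ∈ LinearMap.ker (facc_G f h e θ), facc_G1 f h e θ x y = 0) → x = 0) ∧
    ∃ (Q : Submodule ℂ (H (tw (f.C (cu θ)) n) 1 (X ∩ Y) ∅))
      (π : Q →ₗ[ℂ] LinearMap.ker (facc_G f h e θ)), Function.Surjective π ∧
      (∀ v v' : Q, facc_G1 f h e θ (π v) (π v') = Complex.I * W v v') ∧
      ∀ v, (∀ q ∈ Q, W v q = 0) → v ∈ Q := by
  obtain ⟨β, hR⟩ := facc_res h hk h1 h2 θ hW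
  obtain ⟨q, hq, hq'⟩ := pow_sub_eq (cu θ) m
  rw [hθ, Units.val_one, map_one] at hq
  have hq0 : evL (cu θ) q ≠ 0 := by
    rw [hq']
    exact mul_ne_zero (Int.cast_ne_zero.2 hm) (Units.ne_zero _)
  obtain ⟨a1, Q, π, a2, a3, a4⟩ := hR.residue hq hq0 (G₁ := facc_G1 f h e θ)
    (c := Complex.I * cu θ) (mul_ne_zero Complex.I_ne_zero (Units.ne_zero _)) (facc_G1_eq h e θ)
  refine ⟨a1, Q, π, a2, fun v v' => ?_, fun v hv => a4 v fun q hq => ?_⟩
  · rw [a3, map_neg, map_mul, evL_t_inv, evL_C, LinearMap.smul_apply, LinearMap.smul_apply,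
      smul_eq_mul, Units.val_inv_eq_inv_val]
    have := Units.ne_zero (cu θ)
    field_simp
  · rw [LinearMap.smul_apply, LinearMap.smul_apply, hv q hq, smul_zero]

theorem exists_family (h : XN X Y N n) {m : ℤ} (hm : m ≠ 0)
    (hk : ∀ x : H (tw f.L n) 2 (X ∩ Y) ∅, (((tL ^ m : Laˣ) : La) - 1) • x = 0) :
    ∃ ρ G G₁, Family f h m ρ G G₁ := by
  have : Module.Finite La (H (tw f.L n) 2 univ Y) := (h.xy.fg (h.good f.L) h.sub).1 2
  obtain ⟨ρ, e, h1, h2⟩ := exists_tbasis La (H (tw f.L n) 2 univ Y)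
  have hgen : ∀ θ, cu θ ^ m ≠ 1 → LinearMap.ker (facc_G f h e θ) = ⊥ := by
    intro θ hθ
    obtain ⟨W, hW⟩ := exists_W h (norm_cu θ)
    obtain ⟨β, hR⟩ := facc_res h hk h1 h2 θ hW
    refine hR.nondeg ?_
    rw [facc_ev_s, sub_ne_zero]
    exact fun h3 => hθ (Units.val_eq_one.1 h3)
  refine ⟨ρ, facc_G f h e, facc_G1 f h e, facc_herm h e, facc_der h e, fun θ => ?_, facc_rank h e,
    hgen, fun θ => ?_, fun θ hθ W hW => (facc_root h hm hk h1 h2 θ hθ hW).2⟩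
  · have : Module.Finite ℂ (H (tw (f.C (cu θ)) n) 2 univ Y) := (h.xy.fg (h.good (f.C (cu θ))) h.sub).1 2
    obtain ⟨W, hW⟩ := exists_W h (norm_cu θ)
    obtain ⟨β, hR⟩ := facc_res h hk h1 h2 θ hW
    simpa using hR.card_le
  · by_cases hθ : cu θ ^ m = 1
    · obtain ⟨W, hW⟩ := exists_W h (norm_cu θ)
      exact (facc_root h hm hk h1 h2 θ hθ hW).1
    · intro x hx _
      rwa [hgen θ hθ, Submodule.mem_bot] at hx

end Pool.Agent.P.MP_3d25f3_gt.G
end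

-- part Pool.Agent.P.MP_3d25f3_gt.GThe
section

set_option autoImplicit false

open Set Filter Topology

namespace Pool.Agent.P.MP_3d25f3_gt.G

open Module

variable {g : ℕ} {S : List (ℕ × ℤ)} {Γ : Type} [CommRing Γ] {n : Seifert g S → Seifert g S → Γ}
  {A : Cov → Γ} {N : Γ} {ne : ℕ → Γ}

theorem exists_rep [T2Space (Seifert g S)] (hn : CocZ n univ) (h : Per g S n A N ne) {ω : AddChar Γ ℂˣ}
    (hω : ω N = 1) {x : ZMod (LL g S) → ℂ} (hx : x ∈ Pol g S fun e => ((ω (ne e) : ℂˣ) : ℂ)) :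
    ∃ v ∈ Zc (tw ω n) 1 univ ∅, ∃ E, IsRep g S ω A ne x v E := by
  obtain ⟨E, hE1, hE2, hE3⟩ := exists_step hx
  obtain ⟨γ, hγ⟩ := desc_pc (fun y => ω (A y)) fun y z => by
    simp only [h.per, AddChar.map_add_eq_mul, hω, mul_one]
  obtain ⟨σ, hσ⟩ := (pm_surj (g := g) (S := S)).hasRightInverse
  obtain ⟨v, hv, hp⟩ := descend (π := pm g S) isClosedMap_pm continuous_pm pm_surj (hn.tw ω)
    (γ := fun y => ((γ y : ℂˣ) : ℂ)) (γ' := fun y => (((γ y)⁻¹ : ℂˣ) : ℂ)) (E := fun y => E y.1)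
    (fun y => Units.mul_inv _) (fun y => by
      obtain ⟨y, rfl⟩ := pc_surj y
      obtain ⟨U, hU, hU'⟩ := h.prim y
      refine ⟨pc '' U, isOpenMap_pc.image_mem_nhds hU, ?_⟩
      rintro _ ⟨a, ha, rfl⟩ _ ⟨b, hb, rfl⟩
      have := hU' a ha b hb
      simp only [pp] at this
      simp only [tw, hγ, this]
      rw [← Units.val_mul, ← AddChar.map_add_eq_mul, add_sub_cancel]) (fun x' => by
      rcases exi_cases x' with ⟨P, rfl, hP⟩ | ⟨P, u, rfl, hu, hP⟩ | ⟨e, he, z, rfl⟩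
      · refine ⟨fun x' => (((γ P)⁻¹ : ℂˣ) : ℂ) * (E (σ x').1 - E P.1), fun y hy => ?_⟩
        obtain rfl := fib_int hy.symm hP
        have ho : IsOpen {y' : Solid | ‖(y'.1 : ℂ)‖ < 1} := isOpen_lt (by fun_prop) (by fun_prop)
        filter_upwards [ho.mem_nhds hP] with y' hy'
        rw [← fib_int (hσ (pm g S y')).symm hy']
      · refine ⟨0, fun y hy => ?_⟩
        obtain ⟨u', hu', hy'⟩ := fib_bd hy.symm hu hP
        have t1 : Tendsto (fun y' : Solid => y'.1) (𝓝 y) (𝓝 (bp (LL g S) u')) := by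
          rw [← hy']; exact continuous_fst.continuousAt
        filter_upwards [t1.eventually (hE3 u' hu')] with y'' hy''
        simp [hy'', hy']
      · refine exi_mid (γ' := fun y => (((γ y)⁻¹ : ℂˣ) : ℂ)) he z (hE2 e he) ?_
        simp only [hγ, h.arc e he (1 / 2) ⟨by norm_num, by norm_num⟩ z]
        rw [← Units.val_mul, AddChar.map_add_eq_mul, mul_inv_rev, mul_comm (ω (ne e))⁻¹, mul_assoc,
          inv_mul_cancel, mul_one])
  refine ⟨v, hv, E, fun y => ?_, hE1, hE2⟩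
  obtain ⟨U, hU, hU'⟩ := hp (pc y)
  refine ⟨pc ⁻¹' U, continuous_pc.continuousAt.preimage_mem_nhds hU, fun a ha b hb => ?_⟩
  have := hU' _ ha _ hb
  rw [hγ] at this
  exact this

lemma the_eq [T2Space (Seifert g S)] (hn : CocZ n univ) (h : Per g S n A N ne) {ω : AddChar Γ ℂˣ}
    (hω : ω N = 1) {v v' : List (Seifert g S) → ℂ} (hv : v ∈ Zc (tw ω n) 1 univ ∅)
    (hv' : v' ∈ Zc (tw ω n) 1 univ ∅) {E E' : Cov → ℂ} (hE : Prim g S ω A v E)
    (hE' : Prim g S ω A v' E') (h1 : ∀ y z, E (y, z + 1) = E (y, z))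
    (h1' : ∀ y z, E' (y, z + 1) = E' (y, z)) (ve : ℕ → ℂ)
    (h2 : ∀ e < NE g S, ∀ s ∈ Icc (0 : ℝ) 1, ∀ z,
      E (gb g S e s z) = ((ω (ne e) : ℂˣ) : ℂ) * E (ga g S e s z) + ve e)
    (h2' : ∀ e < NE g S, ∀ s ∈ Icc (0 : ℝ) 1, ∀ z,
      E' (gb g S e s z) = ((ω (ne e) : ℂˣ) : ℂ) * E' (ga g S e s z) + ve e) :
    cl v hv = cl v' hv' := by
  rw [cl_eq]
  have e : v - v' = (1 : ℂ) • v + (-1 : ℂ) • v' := by simp [sub_eq_add_neg]
  have hz : (1 : ℂ) • v + (-1 : ℂ) • v' ∈ Zc (tw ω n) 1 univ ∅ := e ▸ sub_mem hv hv'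
  rw [e]
  refine Prim.mem_Bc hn h hz (hE.sub hE' 1 (-1)) (fun y z => ?_) fun e he s hs z => ?_
  · rw [h1, h1', hω]; simp
  · rw [h2 e he s hs, h2' e he s hs]; ring

lemma the_data (hS : Data S) (h : Per g S n A N ne) {ω : AddChar Γ ℂˣ} (hω : ω N = 1)
    (hne : ∃ e < NE g S, ω (ne e) ≠ 1) {v : List (Seifert g S) → ℂ} {E : Cov → ℂ}
    (hE : Prim g S ω A v E) : (∀ y z, E (y, z + 1) = E (y, z)) ∧
      ∃ x ∈ Pol g S (fun e => ((ω (ne e) : ℂˣ) : ℂ)), ∀ e < NE g S, ∀ s ∈ Icc (0 : ℝ) 1, ∀ z,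
        E (gb g S e s z) = ((ω (ne e) : ℂˣ) : ℂ) * E (ga g S e s z) +
          vv g (fun e => ((ω (ne e) : ℂˣ) : ℂ)) x e := by
  obtain ⟨vh, ve, h1, h2⟩ := hE.data h
  simp only [hω, Units.val_one, one_mul] at h1
  set ρ : ℕ → ℂ := fun e => ((ω (ne e) : ℂˣ) : ℂ) with hρ
  have h0 : (0 : ℝ) ∈ Icc (0 : ℝ) 1 := ⟨le_rfl, zero_le_one⟩
  have h01 : (1 : ℝ) ∈ Icc (0 : ℝ) 1 := ⟨zero_le_one, le_rfl⟩
  have hvh : vh = 0 := by
    obtain ⟨e, he, hne⟩ := hne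
    have a1 := h2 e he 0 h0 (0 + 1)
    have a2 := h2 e he 0 h0 0
    simp only [ga, gb, zero_mul, add_zero] at a1 a2
    rw [h1, h1, a2] at a1
    have a3 : (ρ e - 1) * vh = 0 := by simp only [hρ]; linear_combination -a1
    refine (mul_eq_zero.1 a3).resolve_left fun a4 => hne (Units.ext ?_)
    exact sub_eq_zero.1 a4
  simp only [hvh, add_zero] at h1
  have hint : ∀ (y : Disc) (z : ℝ) (k : ℤ), E (y, z + k) = E (y, z) := by
    intro y z k
    induction k using Int.induction_on with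
    | zero => simp
    | succ k ih => rw [← ih, ← h1 y (z + (k : ℤ))]; congr 2; push_cast; ring
    | pred k ih => rw [← ih, ← h1 y (z + (-k - 1 : ℤ))]; congr 2; push_cast; ring
  let X : ℕ → ℂ := fun k => if 4 * g ≤ k ∧ k % 2 = 1 then
    ve (2 * g + (k - 4 * g) / 2) / (1 - ρ (2 * g + (k - 4 * g) / 2)) else E (bp (LL g S) k, 0)
  let x : ZMod (LL g S) → ℂ := fun j => X j.val
  have hx : ∀ j ≤ LL g S, ¬ (4 * g ≤ j ∧ j % 2 = 1) → x j = E (bp (LL g S) j, 0) := by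
    intro j hj hj'
    rcases hj.eq_or_lt with rfl | hj
    · have e1 : bp (LL g S) ((0 : ℕ) : ℝ) = bp (LL g S) (LL g S) :=
        (bp_eq_iff (NeZero.ne _) _ _).2 ⟨1, by simp⟩
      simp only [x, X, ZMod.natCast_self, ZMod.val_zero]
      rw [if_neg (by omega), e1]
    · simp only [x, X, the_val hj]
      rw [if_neg hj']
  have hv1 : ∀ e < NE g S, vv g ρ x e = ve e := by
    intro e he
    have a1 := h2 e he 0 h0 0
    have a2 := st_le he
    simp only [ga, gb, zero_mul, add_zero, sub_zero] at a1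
    rw [vv, hx _ a2 (by unfold st wd; split_ifs <;> omega),
      hx _ (by omega) (by unfold st; split_ifs <;> omega)]
    push_cast
    rw [a1]
    simp only [hρ]
    push_cast
    ring
  refine ⟨h1, x, fun e he => ?_, fun e he s hs z => by rw [hv1 e he]; exact h2 e he s hs z⟩
  rw [hv1 e he]
  have a2 := st_le he
  have a3 := wd_ge (g := g) e
  by_cases hg : e < 2 * g
  · have a1 := h2 e he 1 h01 0
    have a4 : sh g S e = 0 := by simp [sh, pr, hg]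
    simp only [ga, gb, a4, mul_zero, add_zero] at a1
    rw [hx _ (by omega) (by unfold st wd; split_ifs; omega),
      hx _ (by omega) (by unfold st; split_ifs; omega), Nat.cast_sub (by omega)]
    push_cast
    rw [a1]
    simp only [hρ]
    push_cast
    ring
  · have a4 : wd g e = 2 := by simp [wd, hg]
    have a5 : st g e = 4 * g + 2 * (e - 2 * g) := by simp [st, hg]
    have a6 : st g e + wd g e - 1 = st g e + 1 := by omega
    have a7 : x ((st g e + 1 : ℕ) : ZMod _) = ve e / (1 - ρ e) := by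
      have a8 : 2 * g + (st g e + 1 - 4 * g) / 2 = e := by omega
      simp only [x, X, the_val (show st g e + 1 < LL g S by omega)]
      rw [if_pos (by omega), a8]
    rw [a6, a7]
    by_cases h1ρ : ρ e = 1
    · have b1 : ∀ z, E (bp (LL g S) (st g e + 1), z + sh g S e) =
          E (bp (LL g S) (st g e + 1), z) + ve e := by
        intro z
        have a1 := h2 e he 1 h01 z
        have a9 : ((ω (ne e) : ℂˣ) : ℂ) = 1 := h1ρ
        simp only [ga, gb, a4, one_mul, a9] at a1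
        rw [← a1]
        congr 3
        push_cast
        ring
      have b2 : ∀ m : ℕ, E (bp (LL g S) (st g e + 1), m * sh g S e) =
          E (bp (LL g S) (st g e + 1), 0) + m * ve e := by
        intro m
        induction m with
        | zero => simp
        | succ m ih => push_cast; rw [add_mul, one_mul, b1, ih]; ring
      have b3 := (pr_data (g := g) hS e).1
      have b4 : (((pr g S e).1 : ℕ) : ℝ) * sh g S e = 0 + ((pr g S e).2 : ℤ) := by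
        have : (((pr g S e).1 : ℕ) : ℝ) ≠ 0 := by exact_mod_cast (by omega : (pr g S e).1 ≠ 0)
        rw [sh]; field_simp; simp
      have b5 := b2 (pr g S e).1
      rw [b4, hint] at b5
      have b6 : (((pr g S e).1 : ℕ) : ℂ) ≠ 0 := by exact_mod_cast (by omega : (pr g S e).1 ≠ 0)
      have b7 : ve e = 0 := (mul_eq_zero.1 (by linear_combination -b5)).resolve_left b6
      rw [b7, h1ρ]
      simp
    · have b1 : 1 - ρ e ≠ 0 := sub_ne_zero.2 (Ne.symm h1ρ)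
      field_simp

lemma the_arc {ω : AddChar Γ ℂˣ} {x : ZMod (LL g S) → ℂ} {v : List (Seifert g S) → ℂ} {E : Disc → ℂ}
    (h : IsRep g S ω A ne x v E) : ∀ e < NE g S, ∀ s ∈ Icc (0 : ℝ) 1, ∀ z,
      (fun y : Cov => E y.1) (gb g S e s z) =
        ((ω (ne e) : ℂˣ) : ℂ) * (fun y : Cov => E y.1) (ga g S e s z) +
          vv g (fun e => ((ω (ne e) : ℂˣ) : ℂ)) x e :=
  fun e he s hs _ => h.arc e he s hs

/-- the first twisted cohomology is a quotient of the vertex data -/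
theorem exists_theta [T2Space (Seifert g S)] (hS : Data S) (hn : CocZ n univ)
    (h : Per g S n A N ne) {ω : AddChar Γ ℂˣ} (hω : ω N = 1) (hne : ∃ e < NE g S, ω (ne e) ≠ 1) :
    ∃ Θ : Pol g S (fun e => ((ω (ne e) : ℂˣ) : ℂ)) →ₗ[ℂ] H (tw ω n) 1 univ ∅,
      Function.Surjective Θ ∧ ∀ x, ∃ v hv E, IsRep g S ω A ne x.1 v E ∧ Θ x = cl v hv := by
  choose v hv E hE using fun x : Pol g S (fun e => ((ω (ne e) : ℂˣ) : ℂ)) =>
    exists_rep hn h hω x.2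
  have lin : ∀ (a b : ℂ) (x y : Pol g S (fun e => ((ω (ne e) : ℂˣ) : ℂ))),
      cl (v (a • x + b • y)) (hv _) = a • cl (v x) (hv x) + b • cl (v y) (hv y) := by
    intro a b x y
    rw [← cl_smul, ← cl_smul, ← cl_add]
    refine the_eq hn h hω _ _ (hE _).prim ((hE x).prim.sub (hE y).prim a b) (fun _ _ => rfl)
      (fun _ _ => rfl) _ (the_arc (hE _)) fun e he s hs z => ?_
    have a1 := the_arc (hE x) e he s hs z
    have a2 := the_arc (hE y) e he s hs z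
    simp only at a1 a2 ⊢
    rw [a1, a2]
    simp only [vv, Submodule.coe_add, Submodule.coe_smul, Pi.add_apply, Pi.smul_apply,
      smul_eq_mul]
    ring
  refine ⟨{ toFun := fun x => cl (v x) (hv x)
            map_add' := fun x y => by simpa using lin 1 1 x y
            map_smul' := fun a x => by simpa using lin a 0 x x }, fun c => ?_,
    fun x => ⟨v x, hv x, E x, hE x, rfl⟩⟩
  obtain ⟨w, hw, rfl⟩ := cl_surj c
  obtain ⟨F, hF⟩ := exists_prim h hw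
  obtain ⟨h1, x, hx, h2⟩ := the_data hS h hω hne hF
  exact ⟨⟨x, hx⟩, the_eq hn h hω _ _ (hE _).prim hF (fun _ _ => rfl) h1 _ (the_arc (hE _)) h2⟩

open Classical in
theorem finrank_tw [T2Space (Seifert g S)] (hS : Data S) (hn : CocZ n univ)
    (h : Per g S n A N ne) {ω : AddChar Γ ℂˣ} (hω : ω N = 1) (hne : ∃ e < NE g S, ω (ne e) ≠ 1) :
    2 * g + ((Finset.range (S.length + 1)).filter fun i => ω (ne (2 * g + i)) ≠ 1).card
      ≤ finrank ℂ (H (tw ω n) 1 univ ∅) + 2 := by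
  obtain ⟨Θ, hΘ, hrep⟩ := exists_theta hS hn h hω hne
  have h1 := LinearMap.finrank_range_add_finrank_ker Θ
  rw [LinearMap.range_eq_top.2 hΘ, finrank_top] at h1
  have h2 := finrank_Pol (g := g) (S := S) fun e => ((ω (ne e) : ℂˣ) : ℂ)
  have h3 := finrank_nojump (g := g) (S := S) (ρ := fun e => ((ω (ne e) : ℂˣ) : ℂ))
    (fun e => Units.ne_zero _) ((LinearMap.ker Θ).map (Submodule.subtype _)) (by
      rintro _ ⟨x, hx, rfl⟩
      obtain ⟨v, hv, E, hE, e1⟩ := hrep x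
      have hB : v ∈ Bc (tw ω n) 1 univ ∅ := (cl_eq_zero hv).1 (e1 ▸ LinearMap.mem_ker.1 hx)
      obtain ⟨C, -, hC⟩ := hE.prim.of_Bc h hB
      refine ⟨x.2, C, fun e he => ?_⟩
      have a1 := hC e he 0 ⟨le_rfl, zero_le_one⟩ 0
      have a2 := the_arc hE e he 0 ⟨le_rfl, zero_le_one⟩ 0
      simp only at a1 a2
      rw [a2] at a1
      show vv g _ x.1 e = _
      linear_combination a1)
  rw [Submodule.finrank_map_subtype_eq] at h3
  have h4 := Finset.card_filter_add_card_filter_not (s := Finset.range (S.length + 1))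
    fun i => ω (ne (2 * g + i)) = 1
  have h5 : ((Finset.range (S.length + 1)).filter
      fun i => ((ω (ne (2 * g + i)) : ℂˣ) : ℂ) = 1).card =
      ((Finset.range (S.length + 1)).filter fun i => ω (ne (2 * g + i)) = 1).card := by
    congr 1
    exact Finset.filter_congr fun i _ => Units.val_eq_one
  rw [Finset.card_range] at h4
  unfold NE at h2
  simp only [ne_eq] at h4 ⊢
  omega

end Pool.Agent.P.MP_3d25f3_gt.G
end

-- part Pool.Agent.P.MP_3d25f3_gt.GBrg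
section

set_option autoImplicit false

open Set Filter Topology

namespace Pool.Agent.P.MP_3d25f3_gt.G

open Module

variable {g : ℕ} {S : List (ℕ × ℤ)} {Γ : Type} [CommRing Γ]

/-- the jumps of the twisted family -/
def jw (g : ℕ) (S : List (ℕ × ℤ)) (w : ℕ → ℚ) (k : ℤ) : ℚ :=
  ∑ i ∈ Finset.range (S.length + 1),
    2 * saw (k * (pr g S (2 * g + i)).2 / (pr g S (2 * g + i)).1 + w i)

variable {s : Side (Seifert g S)} {n : E4 → E4 → Γ} {A : Cov → Γ} {N : Γ} {ne : ℕ → Γ} {f : Fm Γ}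
  {N₀ : ℕ} {w : ℕ → ℚ}

lemma exists_theta' (hS : Data S) (hn : CocZ n s.X) (h : Per g S (pb s n) A N ne) {ω : ℂˣ}
    (hω : ‖(ω : ℂ)‖ = 1) (hN : f.C ω N = 1) (hne : ∃ e < NE g S, f.C ω (ne e) ≠ 1)
    {W : SF (H (tw (f.C ω) n) 1 (s.X ∩ s.Y) ∅)} (hW : IsW f s.xy ω n W) :
    ∃ Θ : Pol g S (fun e => ((f.C ω (ne e) : ℂˣ) : ℂ)) →ₗ[ℂ] H (tw (f.C ω) n) 1 (s.X ∩ s.Y) ∅,
      Function.Surjective Θ ∧ ∀ x x', ∃ w hw, W (Θ x) (Θ x') = intM ℂ s.xy (cl w hw) ∧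
        Ev g S (pull s.e 1 w)
          (-Complex.I * f.deg N * area g S (fun e => ((f.C ω (ne e) : ℂˣ) : ℂ)) x.1 x'.1) := by
  have := s.t2
  obtain ⟨Θ, hΘ, hr⟩ := exists_theta hS (pb_coc s hn) h hN hne
  obtain ⟨Φ, hΦ⟩ := pb_equiv s hn (f.C ω) 1
  refine ⟨Φ.symm.toLinearMap ∘ₗ Θ, Φ.symm.surjective.comp hΘ, fun x x' => ?_⟩
  obtain ⟨v, hv, E, hE, e⟩ := hr x
  obtain ⟨v', hv', E', hE', e'⟩ := hr x'
  obtain ⟨u, hu, f1⟩ := cl_surj (Φ.symm (Θ x))
  obtain ⟨u', hu', f2⟩ := cl_surj (Φ.symm (Θ x'))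
  obtain ⟨hw, hW'⟩ := hW u hu u' hu'
  refine ⟨_, hw, ?_, ?_⟩
  · rw [← hW', f1, f2]; rfl
  obtain ⟨h1, e1⟩ := hΦ u hu
  obtain ⟨h2, e2⟩ := hΦ u' hu'
  rw [f1, LinearEquiv.apply_symm_apply, e, cl_eq] at e1
  rw [f2, LinearEquiv.apply_symm_apply, e', cl_eq] at e2
  refine (ev_wf f.deg h (f.norm_C hω) hE hE').congr ?_
  have h3 := wf_Bc (pb_coc s hn) hω hv hv' e1 e2
  have h4 : wf f.deg (f.C ω) (pb s n) (pull s.e 1 u) (pull s.e 1 u') - pull s.e 1 (wf f.deg (f.C ω) n u u')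
      ∈ Null ℂ 3 (univ : Set (Seifert g S)) := by
    refine fun y _ => ⟨univ, univ_mem, fun l hl _ => ?_⟩
    match l, hl with
    | [a, b, c, d], _ => simp [wf, cup, co1, tw, pb]
  have := add_mem h3 (Null_le_Bc _ _ _ _ h4)
  rwa [sub_add_sub_cancel] at this

lemma slit_val (hS : Data S) (h : Per g S (pb s n) A N ne) (hN : 0 < N₀) (h1 : f.deg N = N₀)
    (hw : ∀ i ≤ S.length, (f.ψ (ne (2 * g + i)) : ℂ) = rt (w i)) (k : ℤ) {i : ℕ}
    (hi : i ≤ S.length) : (f.C (cu (th N₀ k)) (ne (2 * g + i)) : ℂ)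
      = rt (k * (pr g S (2 * g + i)).2 / (pr g S (2 * g + i)).1 + w i) := by
  have h2 := h.map f.deg
  rw [h1] at h2
  rw [f.C_apply, Units.val_mul, hw i hi, chain_rt_add, cu_th_slit hS (Per.int.1 h2) hN k hi]

lemma area_val (h : Per g S (pb s n) A N ne) {χ : AddChar Γ ℂˣ} (hχ : ∀ a, ‖(χ a : ℂ)‖ = 1)
    {μ : ℕ → ℚ} (hμ : ∀ i ≤ S.length, (χ (ne (2 * g + i)) : ℂ) = rt (μ i)) :
    (sgn (cmp (area g S fun e => (χ (ne e) : ℂ)) (Pol g S fun e => (χ (ne e) : ℂ)).subtype) : ℚ)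
      = -∑ i ∈ Finset.range (S.length + 1), 2 * saw (μ i) := by
  have e : (fun i : Fin (S.length + 1) => (χ (ne (2 * g + i)) : ℂ)) =
      fun i : Fin (S.length + 1) => rt (μ i) := funext fun i => hμ i (Nat.lt_succ_iff.1 i.2)
  have h1 : ∀ m ≤ S.length + 1, rt (∑ i ∈ Finset.range m, μ i)
      = χ (∑ i ∈ Finset.range m, ne (2 * g + i)) := by
    intro m
    induction m with
    | zero => intro _; simp [rt]
    | succ m ih =>
      intro hm
      rw [Finset.sum_range_succ, Finset.sum_range_succ, chain_rt_add, ch_add, ih (by omega),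
        hμ m (by omega)]
  have h2 := h1 _ le_rfl
  rw [h.sum_slit, AddChar.map_zero_eq_one, Units.val_one] at h2
  obtain ⟨z, hz⟩ := chain_rt_one h2
  rw [Finset.sum_range] at hz
  rw [area_sgn_chain fun e => hχ _, e, chain_sgn, hz, chain_saw_int, ← Finset.mul_sum,
    Finset.sum_range]
  ring

theorem bridge (hS : Data S) (hn : CocZ n s.X) (h : Per g S (pb s n) A N ne) (hN : 0 < N₀)
    (h1 : f.deg N = N₀) (h2 : f.ψ N = 1)
    (hw : ∀ i ≤ S.length, (f.ψ (ne (2 * g + i)) : ℂ) = rt (w i))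
    (hne : ∀ k : ℤ, ∃ i ≤ S.length,
      rt (k * (pr g S (2 * g + i)).2 / (pr g S (2 * g + i)).1 + w i) ≠ 1)
    {U : Set E4} {hx : XN s.X s.Y U n} {ρ : ℕ} {G G₁ : ℝ → SF (Fin ρ → ℂ)}
    (hF : Family f hx N₀ ρ G G₁) : (∀ k, jw g S w k = 0) ∨ ∃ η : ℚ, η ≠ 0 ∧ ∀ k : ℤ,
        (sgn (cmp (G₁ (th N₀ k)) (LinearMap.ker (G (th N₀ k))).subtype) : ℚ) = η * jw g S w k := by
  obtain ⟨κ, hκ⟩ : ∃ κ : ℂ, ∀ (w : List E4 → ℂ) (hw : w ∈ Zc (1 : E4 → E4 → ℂ) 3 (s.X ∩ s.Y) ∅)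
      (c : ℂ), Ev g S (pull s.e 1 w) c → c = κ * intM ℂ s.xy (cl w hw) := by
    by_cases hex : ∃ (w : List E4 → ℂ) (hw : w ∈ Zc (1 : E4 → E4 → ℂ) 3 (s.X ∩ s.Y) ∅) (c : ℂ),
        Ev g S (pull s.e 1 w) c ∧ intM ℂ s.xy (cl w hw) ≠ 0
    · obtain ⟨w₀, hw₀, c₀, h₀, hI⟩ := hex
      refine ⟨c₀ / intM ℂ s.xy (cl w₀ hw₀), fun w hw c hc => ?_⟩
      have h1 := hc.lin h₀ (intM ℂ s.xy (cl w₀ hw₀)) (-intM ℂ s.xy (cl w hw))
      rw [← map_smul, ← map_smul, ← map_add] at h1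
      have h2 := ev_of_int hS (add_mem (Submodule.smul_mem _ _ hw) (Submodule.smul_mem _ _ hw₀)) h1
        (by rw [cl_add (Submodule.smul_mem _ _ hw) (Submodule.smul_mem _ _ hw₀), cl_smul _ hw,
              cl_smul _ hw₀, map_add, map_smul, map_smul, smul_eq_mul, smul_eq_mul]; ring)
      field_simp
      linear_combination h2
    · push Not at hex
      exact ⟨0, fun w hw c hc => by rw [zero_mul]; exact ev_of_int hS hw hc (hex w hw c hc)⟩
  have hN' : (N₀ : ℂ) ≠ 0 := by exact_mod_cast hN.ne'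
  have key : ∀ k : ℤ, ∃ (P : Type) (_ : AddCommGroup P) (_ : Module ℂ P)
      (_ : FiniteDimensional ℂ P) (a : SF P) (W : SF (H (tw (f.C (cu (th N₀ k))) n) 1 (s.X ∩ s.Y) ∅))
      (Θ : P →ₗ[ℂ] H (tw (f.C (cu (th N₀ k))) n) 1 (s.X ∩ s.Y) ∅), Herm a ∧ (sgn a : ℚ) = -jw g S w k ∧
      IsW f hx.xy (cu (th N₀ k)) n W ∧ Function.Surjective Θ ∧
      ∀ x y, a x y = κ / N₀ * (Complex.I * W (Θ x) (Θ y)) := by
    intro k
    obtain ⟨W, hW⟩ := exists_W (f := f) hx (norm_cu (th N₀ k))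
    have hω : f.C (cu (th N₀ k)) N = 1 := by
      rw [f.C_apply, h1, h2, (cu_pow_eq_one hN (th N₀ k)).2 ⟨k, rfl⟩, one_mul]
    have hne' : ∃ e < NE g S, f.C (cu (th N₀ k)) (ne e) ≠ 1 := by
      obtain ⟨i, hi, h3⟩ := hne k
      refine ⟨2 * g + i, by unfold NE; omega, fun h4 => h3 ?_⟩
      rw [← slit_val hS h hN h1 hw k hi, h4, Units.val_one]
    obtain ⟨Θ, hΘ, hv⟩ := exists_theta' hS hn h (norm_cu _) hω hne' hW
    have hρ := f.norm_C (norm_cu (th N₀ k))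
    refine ⟨_, _, _, inferInstance, cmp (area g S _) (Pol g S _).subtype, W, Θ,
      area_herm fun e => hρ _, area_val h hρ fun i hi => slit_val hS h hN h1 hw k hi, hW, hΘ,
      fun x y => ?_⟩
    obtain ⟨w₁, hw₁, e1, e2⟩ := hv x y
    have e3 := hκ w₁ hw₁ _ e2
    rw [← e1, h1, Int.cast_natCast] at e3
    rw [cmp_apply, Submodule.subtype_apply, Submodule.subtype_apply]
    field_simp
    linear_combination Complex.I * e3
      + (N₀ * area g S (fun e => ((f.C (cu (th N₀ k)) (ne e) : ℂˣ) : ℂ)) x.1 y.1) * Complex.I_mul_I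
  by_cases h0 : κ = 0
  · refine Or.inl fun k => ?_
    obtain ⟨P, _, _, _, a, W, Θ, -, h2, -, -, h5⟩ := key k
    rw [sgn_of_zero fun x => by simp [h5, h0]] at h2
    simpa using h2
  refine Or.inr ⟨-(if 0 < (κ / N₀).re then 1 else -1), by split_ifs <;> simp, fun k => ?_⟩
  obtain ⟨P, _, _, _, a, W, Θ, h1, h2, h3, h4, h5⟩ := key k
  obtain ⟨Q, π, hπ, h6, h7⟩ := hF.res _ ((cu_pow_eq_one hN _).2 ⟨k, rfl⟩) W h3
  have hH : Herm (cmp (G₁ (th N₀ k)) (LinearMap.ker (G (th N₀ k))).subtype) := by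
    intro x y
    have d1 := hF.der (th N₀ k) y x
    have d2 := (hF.der (th N₀ k) x y).star
    have : (fun u => G u y x) = fun u => star (G u x y) := funext fun u => hF.herm u x y
    rw [this] at d1
    exact d1.unique d2
  rw [sgn_transfer h1 hH h4 (div_ne_zero h0 hN') h5 hπ h6 h7]
  push_cast
  rw [h2]
  split_ifs <;> ring

end Pool.Agent.P.MP_3d25f3_gt.G
end

-- part Pool.Agent.P.MP_3d25f3_gt.GFlow
section

set_option autoImplicit false

open Set Filter Topology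

namespace Pool.Agent.P.MP_3d25f3_gt.G

variable {g : ℕ} {S : List (ℕ × ℤ)} {Γ : Type} [CommRing Γ]

lemma flow_a {n : Seifert g S → Seifert g S → Γ} {A : Cov → Γ} {N : Γ} {ne : ℕ → Γ}
    (h : Per g S n A N ne) : ∃ a : ℝ → Seifert g S → Γ,
      ∀ r y z, a r (pp g S (y, z)) = A (y, z + r) - A (y, z) := by
  have key : ∀ r : ℝ, ∃ f : Seifert g S → Γ,
      ∀ y : Cov, f (pp g S y) = A (y.1, y.2 + r) - A (y.1, y.2) := by
    intro r
    refine desc_cov (fun y : Cov => A (y.1, y.2 + r) - A (y.1, y.2)) ?_ ?_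
    · intro y z
      have h1 := h.per y (z + r)
      have h2 := h.per y z
      simp only
      rw [show z + 1 + r = z + r + 1 by ring, h1, h2]
      ring
    · intro e he s hs z
      have h1 := h.arc e he s hs (z + r)
      have h2 := h.arc e he s hs z
      simp only [ga, gb] at h1 h2 ⊢
      rw [show z + s * sh g S e + r = z + r + s * sh g S e by ring, h1, h2]
      ring
  choose a ha using key
  exact ⟨a, fun r y z => ha r (y, z)⟩

lemma flow_itw [T2Space (Seifert g S)] {n : Seifert g S → Seifert g S → Γ} {A : Cov → Γ} {N : Γ}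
    {ne : ℕ → Γ} (hn : CocZ n univ) (h : Per g S n A N ne) {φ : Seifert g S → ℝ → Seifert g S}
    (hφ : Continuous (Function.uncurry φ))
    (hφ' : ∀ y z r, φ (pp g S (y, z)) r = pp g S (y, z + r)) {a : ℝ → Seifert g S → Γ}
    (ha : ∀ r y z, a r (pp g S (y, z)) = A (y, z + r) - A (y, z)) (s : ℝ) (x : Seifert g S) :
    ∃ U ∈ 𝓝 x, ∀ u ∈ U, ∀ v ∈ U, n u v + a s v = a s u + n (φ u s) (φ v s) := by
  have hc : Continuous fun u => φ u s := hφ.comp (continuous_id.prodMk continuous_const)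
  have h2 : CocZ (fun u v => n (φ u s) (φ v s)) univ :=
    hn.comp (fun x _ => hc.continuousAt) (mapsTo_univ _ _)
  have h3 : CocZ (fun u v => n u v + a s v - a s u - n (φ u s) (φ v s)) univ := by
    intro x hx
    obtain ⟨U, hU, h4⟩ := hn x hx
    obtain ⟨V, hV, h5⟩ := h2 x hx
    refine ⟨U ∩ V, inter_mem hU hV, fun u hu v hv w hw => ?_⟩
    have e1 := h4 u hu.1 v hv.1 w hw.1
    have e2 := h5 u hu.2 v hv.2 w hw.2
    simp only at e2 ⊢
    linear_combination e1 - e2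
  have h4 := h3.co1.2
  have h5 := null_of_pull (π := pm g S) isClosedMap_pm pm_surj (Coc_one univ) h4 (by
    intro w _
    obtain ⟨⟨y, z⟩, rfl⟩ := pc_surj w
    apply flow_ev
    obtain ⟨U, hU, h6⟩ := h.prim (y, z)
    obtain ⟨V, hV, h7⟩ := h.prim (y, z + s)
    have hc' : Continuous fun p : Cov => ((p.1, p.2 + s) : Cov) := by fun_prop
    have hV' : ∀ᶠ p : Cov in 𝓝 (y, z), ((p.1, p.2 + s) : Cov) ∈ V :=
      hc'.continuousAt.preimage_mem_nhds hV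
    filter_upwards [hU, hV'] with p hp hp'
    obtain ⟨y', z'⟩ := p
    have e1 := h6 (y, z) (mem_of_mem_nhds hU) (y', z') hp
    have e2 := h7 (y, z + s) (mem_of_mem_nhds hV) (y', z' + s) hp'
    have e3 := ha s y z
    have e4 := ha s y' z'
    change ((n (pp g S (y, z)) (pp g S (y', z')) + a s (pp g S (y', z')) - a s (pp g S (y, z))
      - n (φ (pp g S (y, z)) s) (φ (pp g S (y', z')) s) : Γ) : Γ) = 0
    rw [hφ', hφ', e1, e2, e3, e4]
    ring)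
  obtain ⟨U, hU, h6⟩ := h5 x (mem_univ x)
  refine ⟨U, hU, fun u hu v hv => ?_⟩
  have e := h6 [u, v] rfl (by simp [hu, hv])
  change ((n u v + a s v - a s u - n (φ u s) (φ v s) : Γ) : Γ) = 0 at e
  linear_combination e

lemma flow_nu [T2Space (Seifert g S)] {n : Seifert g S → Seifert g S → Γ} {A : Cov → Γ} {N : Γ}
    {ne : ℕ → Γ} (h : Per g S n A N ne) {φ : Seifert g S → ℝ → Seifert g S}
    (hφ' : ∀ y z r, φ (pp g S (y, z)) r = pp g S (y, z + r)) {a : ℝ → Seifert g S → Γ}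
    (ha : ∀ r y z, a r (pp g S (y, z)) = A (y, z + r) - A (y, z)) (s : ℝ) (x : Seifert g S) :
    ∃ U ∈ 𝓝 x, ∃ J ∈ 𝓝 s, ∀ u ∈ U, ∀ r ∈ J, ∀ r' ∈ J,
      a r u + n (φ u r) (φ u r') = a r' u := by
  have hp : IsProperMap (pm g S) := continuous_pm.isProperMap
  have hcl : IsClosedMap (Prod.map (pm g S) (id : ℝ × ℝ → ℝ × ℝ)) :=
    (hp.prodMap isProperMap_id).isClosedMap
  have key := loc_closed hcl (x := (x, (s, s)))
    (P := fun w => a w.2.1 (pm g S w.1) + n (φ (pm g S w.1) w.2.1) (φ (pm g S w.1) w.2.2)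
      = a w.2.2 (pm g S w.1)) (by
    rintro ⟨w, r₀⟩ hw
    have hr : r₀ = (s, s) := congrArg Prod.snd hw
    subst hr
    obtain ⟨⟨y, z⟩, rfl⟩ := pc_surj w
    obtain ⟨V, hV, h7⟩ := h.prim (y, z + s)
    have ho : IsOpenMap (Prod.map pc (id : ℝ × ℝ → ℝ × ℝ)) := isOpenMap_pc.prodMap IsOpenMap.id
    have c1 : Continuous fun p : Cov × (ℝ × ℝ) => ((p.1.1, p.1.2 + p.2.1) : Cov) := by fun_prop
    have c2 : Continuous fun p : Cov × (ℝ × ℝ) => ((p.1.1, p.1.2 + p.2.2) : Cov) := by fun_prop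
    have e1 : ∀ᶠ p : Cov × (ℝ × ℝ) in 𝓝 ((y, z), (s, s)), ((p.1.1, p.1.2 + p.2.1) : Cov) ∈ V :=
      c1.continuousAt.preimage_mem_nhds hV
    have e2 : ∀ᶠ p : Cov × (ℝ × ℝ) in 𝓝 ((y, z), (s, s)), ((p.1.1, p.1.2 + p.2.2) : Cov) ∈ V :=
      c2.continuousAt.preimage_mem_nhds hV
    have e3 := ho.image_mem_nhds (e1.and e2)
    filter_upwards [e3] with w hw'
    obtain ⟨⟨⟨y', z'⟩, r, r'⟩, ⟨hy1, hy2⟩, rfl⟩ := hw'
    change a r (pp g S (y', z')) + n (φ (pp g S (y', z')) r) (φ (pp g S (y', z')) r')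
      = a r' (pp g S (y', z'))
    rw [hφ', hφ', ha, ha, h7 _ hy1 _ hy2]
    ring)
  obtain ⟨U, hU, K, hK, hUK⟩ := mem_nhds_prod_iff.1 key
  obtain ⟨J, hJ, J', hJ', hJJ⟩ := mem_nhds_prod_iff.1 hK
  refine ⟨U, hU, J ∩ J', inter_mem hJ hJ', fun u hu r hr r' hr' => ?_⟩
  obtain ⟨w, rfl⟩ := pm_surj u
  exact hUK (mk_mem_prod hu (hJJ (mk_mem_prod hr.1 hr'.2))) (w, (r, r')) rfl

/-- the fibre acts trivially on cohomology -/
theorem Per.kill [T2Space (Seifert g S)] {R : Type} [CommRing R]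
    {n : Seifert g S → Seifert g S → Γ} {A : Cov → Γ} {N : Γ} {ne : ℕ → Γ} (hn : CocZ n univ)
    (h : Per g S n A N ne) (t : AddChar Γ Rˣ) (k : ℕ) (x : H (tw t n) k univ ∅) :
    (((t N : Rˣ) : R) - 1) • x = 0 := by
  obtain ⟨c, hc, rfl⟩ := cl_surj x
  obtain ⟨φ, hφ, hφ'⟩ := exists_flow (g := g) (S := S)
  obtain ⟨a, ha⟩ := flow_a h
  have key := hi_gauge (τ₀ := tw t n) (τ := tw t n) (h := φ)
    (ν := fun u r => ((t (a r u) : Rˣ) : R)) (k := k) (F := univ) (F' := ∅) (G := univ) (G' := ∅)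
    isCompact_univ isCompact_empty (empty_subset _) hφ (hn.tw t) (fun _ _ _ _ => mem_univ _)
    (fun _ hx => hx.elim) (by
      intro s _ x _
      obtain ⟨U, hU, h1⟩ := flow_itw hn h hφ hφ' ha s x
      refine ⟨U, hU, fun u hu v hv => ?_⟩
      simp only [tw]
      rw [← Units.val_mul, ← Units.val_mul, ← AddChar.map_add_eq_mul, ← AddChar.map_add_eq_mul, h1 u hu v hv]) (by
      intro x _ s _
      obtain ⟨U, hU, J, hJ, h1⟩ := flow_nu h hφ' ha s x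
      refine ⟨U, hU, J, hJ, fun u hu r hr r' hr' => ?_⟩
      simp only [tw]
      rw [← Units.val_mul, ← AddChar.map_add_eq_mul, h1 u hu r hr r' hr']) hc
  have p1 : (fun u => φ u 1) = id := by
    funext u
    obtain ⟨⟨y, z⟩, rfl⟩ := pp_surj u
    have := pp_per (g := g) (S := S) y z 1
    rw [Int.cast_one] at this
    rw [hφ', this, id]
  have p0 : (fun u => φ u 0) = id := by
    funext u
    obtain ⟨⟨y, z⟩, rfl⟩ := pp_surj u
    rw [hφ', add_zero, id]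
  have a1 : ∀ u, a 1 u = N := by
    intro u
    obtain ⟨⟨y, z⟩, rfl⟩ := pp_surj u
    rw [ha, h.per]
    ring
  have a0 : ∀ u, a 0 u = 0 := by
    intro u
    obtain ⟨⟨y, z⟩, rfl⟩ := pp_surj u
    rw [ha, add_zero, sub_self]
  rw [← cl_smul, cl_eq_zero]
  rw [p1, p0] at key
  have hd : (((t N : Rˣ) : R) - 1) • c - (pull id (fun u => ((t (a 1 u) : Rˣ) : R)) c
      - pull id (fun u => ((t (a 0 u) : Rˣ) : R)) c) ∈ Null R k (univ : Set (Seifert g S)) := by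
    intro x _
    refine ⟨univ, univ_mem, fun l hl _ => ?_⟩
    cases l with
    | nil => simp at hl
    | cons u l =>
      simp only [Pi.sub_apply, Pi.smul_apply, pull_cons, a1, a0, smul_eq_mul, id, List.map_id,
        AddChar.map_zero_eq_one, Units.val_one]
      ring
  have := add_mem (Null_le_Bc (tw t n) k univ ∅ hd) key
  rwa [sub_add_cancel] at this

end Pool.Agent.P.MP_3d25f3_gt.G
end

-- part Pool.Agent.P.MP_3d25f3_gt.GCore
section

set_option autoImplicit false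

open Set Filter Topology

namespace Pool.Agent.P.MP_3d25f3_gt.G

open Module

variable {g : ℕ} {S : List (ℕ × ℤ)} {Γ : Type} [CommRing Γ]

variable {s : Side (Seifert g S)} {n : E4 → E4 → Γ} {A : Cov → Γ} {N : Γ} {ne : ℕ → Γ} {f : Fm Γ}

/-- a character of prime power order lifts to a local ring -/
lemma exists_lift {p c : ℕ} (hp : p.Prime) {χ : AddChar Γ ℂˣ} (h : ∀ a, χ a ^ p ^ c = 1) :
    ∃ (O κ : Type) (_ : CommRing O) (_ : IsDomain O) (_ : IsPrincipalIdealRing O) (_ : Field κ)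
      (φ : O →+* ℂ) (ev : O →+* κ) (w : AddChar Γ Oˣ) (π : O), Function.Injective φ ∧
      (∀ a, φ (w a) = χ a) ∧ (∀ a, ev (w a) = 1) ∧ Red ev π ∧ CharP κ p := by
  have hn : p ^ c ≠ 0 := pow_ne_zero _ hp.ne_zero
  have : NeZero (p ^ c) := ⟨hn⟩
  have hζ := Complex.isPrimitiveRoot_exp _ hn
  set η : ℂˣ := (hζ.isUnit hn).unit with hη
  have hη' : IsPrimitiveRoot η (p ^ c) := hζ.isUnit_unit hn
  obtain ⟨O, κ, _, _, _, _, φ, ev, w, π, hφ, hw, hw', hr, hch⟩ := exists_ploc hp hη'.pow_eq_one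
  have h1 : ∀ a, ∃ j : ℕ, η ^ j = χ a := fun a =>
    let ⟨j, _, hj⟩ := hη'.eq_pow_of_mem_rootsOfUnity ((mem_rootsOfUnity _ _).2 (h a)); ⟨j, hj⟩
  choose j hj using h1
  have h2 : ∀ a, φ ((w ^ j a : Oˣ) : O) = χ a := fun a => by
    rw [Units.val_pow_eq_pow_val, map_pow, hw, ← hj, Units.val_pow_eq_pow_val]
  refine ⟨O, κ, _, ‹_›, ‹_›, _, φ, ev, ⟨fun a => w ^ j a, Units.ext (hφ ?_),
    fun a b => Units.ext (hφ ?_)⟩, π, hφ, h2, fun a => ?_, hr, hch⟩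
  · rw [h2]; simp
  · rw [h2, Units.val_mul, map_mul, h2, h2, ch_add]
  · show ev ((w ^ j a : Oˣ) : O) = 1
    rw [Units.val_pow_eq_pow_val, map_pow, hw', one_pow]

theorem sgn_pp (hS : Data S) (hn : CocZ n s.X) (h : Per g S (pb s n) A N ne) {U : Set E4}
    {hx : XN s.X s.Y U n} {m : ℤ} {ρ : ℕ} {G G₁ : ℝ → SF (Fin ρ → ℂ)} (hF : Family f hx m ρ G G₁)
    {p c : ℕ} (hp : p.Prime) {θ : ℝ} (hχ : ∀ a, f.C (cu θ) a ^ p ^ c = 1) (hω : f.C (cu θ) N = 1)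
    (hI : ∃ q ∈ S, p ∣ q.1)
    (hs : ∀ i ≤ S.length, p ∣ (pr g S (2 * g + i)).1 → f.C (cu θ) (ne (2 * g + i)) ≠ 1) :
    sgn (G θ) = 0 := by
  classical
  have := s.t2
  obtain ⟨q, hq, hqk⟩ := hI
  obtain ⟨i, hi, hiq⟩ := rnk_pr (g := g) hq
  have he : 2 * g + i < NE g S := by unfold NE; omega
  have hne := hs i hi.le (hiq ▸ hqk)
  obtain ⟨O, κ, _, _, _, _, φ, ev, w, π, hφ, hw, hw', hr, hch⟩ := exists_lift hp hχ
  obtain ⟨y⟩ : Nonempty (Seifert g S) := inferInstance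
  have hwne : w (ne (2 * g + i)) ≠ 1 := fun h1 => hne (Units.ext (by
    rw [← hw, h1, Units.val_one, map_one, Units.val_one]))
  have b1 := betti_tw hx hφ hw hw' hr (x := s.e y) (s.inter.ge (mem_range_self y)).1 fun c hc => by
    have h5 := pull_Zc (Itw_comp (tw w n) s.e univ) (G' := ∅)
      (fun _ _ => s.cont.continuousAt) (empty_subset _)
      (fun x _ => (s.inter.ge (mem_range_self x)).1) (fun _ hx => hx.elim) hc
    simpa using h.h0 he hwne h5 y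
  have b2 := rank_jm hx.xy (hx.good (f.C (cu θ))) hx.sub
  have b3 := finrank_tw hS (pb_coc s hn) h hω ⟨_, he, hne⟩
  have b4 := b1_le' (g := g) (k := κ) hS ⟨q, hq, (CharP.cast_eq_zero_iff κ p _).2 hqk⟩
  have b5 := hF.rank θ
  have b6 := abs_sgn_le (hF.herm θ)
  rw [Module.finrank_fin_fun] at b6
  obtain ⟨Φ, -⟩ := s.equiv_one κ 1
  obtain ⟨Ψ, -⟩ := pb_equiv s hn (f.C (cu θ)) 1
  rw [← Φ.finrank_eq] at b4
  rw [← Ψ.finrank_eq] at b3
  have c2 : ((Finset.range (S.length + 1)).filter fun i => ((pr g S (2 * g + i)).1 : κ) = 0).card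
      ≤ ((Finset.range (S.length + 1)).filter fun i => f.C (cu θ) (ne (2 * g + i)) ≠ 1).card := by
    refine Finset.card_le_card fun j hj => ?_
    simp only [Finset.mem_filter, Finset.mem_range] at hj ⊢
    exact ⟨hj.1, hs j (by omega) ((CharP.cast_eq_zero_iff κ p _).1 hj.2)⟩
  have := abs_nonneg (sgn (G θ))
  exact abs_eq_zero.1 (by omega)

theorem core (hS : Data S) (s : Side (Seifert g S)) {n : E4 → E4 → Γ} (hn : CocZ n s.X)
    {A : Cov → Γ} {N : Γ} {ne : ℕ → Γ} (h : Per g S (pb s n) A N ne) (f : Fm Γ) {N₀ : ℕ}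
    (hN : 0 < N₀) (h1 : f.deg N = N₀) (h2 : f.ψ N = 1) {w : ℕ → ℚ}
    (hw : ∀ i ≤ S.length, (f.ψ (ne (2 * g + i)) : ℂ) = rt (w i))
    (hne : ∀ k : ℤ, ∃ i ≤ S.length,
      rt (k * (pr g S (2 * g + i)).2 / (pr g S (2 * g + i)).1 + w i) ≠ 1)
    {p c : ℕ} (hp : p.Prime) (hψ : ∀ a, f.ψ a ^ p ^ c = 1) (hI : ∃ q ∈ S, p ∣ q.1) {k : ℤ} {m : ℕ}
    (hk : ∀ j : ℤ, j = k ∨ j = k + m → (N₀ : ℤ) ∣ j * p ^ c ∧ ∀ i ≤ S.length,
      p ∣ (pr g S (2 * g + i)).1 →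
        rt (j * (pr g S (2 * g + i)).2 / (pr g S (2 * g + i)).1 + w i) ≠ 1) :
    ∑ j ∈ Finset.range m, (jw g S w (k + j) + jw g S w (k + j + 1)) = 0 := by
  have := s.t2
  obtain ⟨U, u1, u2, u3⟩ := hn.nbhd
  have hx : XN s.X s.Y U n := ⟨s.xy, u1, u2, u3⟩
  have hkill : ∀ x : H (tw f.L n) 2 (s.X ∩ s.Y) ∅,
      (((tL ^ (N₀ : ℤ) : Laˣ) : La) - 1) • x = 0 := by
    intro x
    obtain ⟨Φ, -⟩ := pb_equiv s hn f.L 2
    apply Φ.injective
    have h3 := Per.kill (pb_coc s hn) h f.L 2 (Φ x)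
    rw [f.L_val, h1, h2, Units.val_one, map_one, mul_one] at h3
    rw [map_smul, map_zero, h3]
  obtain ⟨ρ, G, G₁, hF⟩ := exists_family hx (m := N₀) (by exact_mod_cast hN.ne') hkill
  rcases bridge hS hn h hN h1 h2 hw hne hF with h0 | ⟨η, hη, hb⟩
  · simp [h0]
  have hj : ∀ θ, (∀ᶠ u in 𝓝[>] θ, sgn (G u)
        = sgn (G θ) + sgn (cmp (G₁ θ) (LinearMap.ker (G θ)).subtype)) ∧
      ∀ᶠ u in 𝓝[<] θ, sgn (G u) = sgn (G θ) - sgn (cmp (G₁ θ) (LinearMap.ker (G θ)).subtype) :=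
    fun θ => jump hF.herm (hF.der θ) (hF.nd θ)
  have hN' : (0 : ℝ) < N₀ := by exact_mod_cast hN
  have hmono : ∀ a b : ℤ, th N₀ a < th N₀ b ↔ a < b := by
    intro a b
    unfold th
    rw [div_lt_div_iff_of_pos_right hN', mul_lt_mul_iff_right₀ (by positivity), Int.cast_lt]
  have hstep : ∀ k : ℤ, sgn (G (th N₀ (k + 1)))
      - sgn (cmp (G₁ (th N₀ (k + 1))) (LinearMap.ker (G (th N₀ (k + 1)))).subtype)
      = sgn (G (th N₀ k)) + sgn (cmp (G₁ (th N₀ k)) (LinearMap.ker (G (th N₀ k))).subtype) := by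
    intro k
    refine step (σ := fun θ => sgn (G θ))
      (d := fun θ => sgn (cmp (G₁ θ) (LinearMap.ker (G θ)).subtype)) hj
      ((hmono _ _).2 (by omega)) fun θ hθ => ?_
    have hker : LinearMap.ker (G θ) = ⊥ := by
      refine hF.gen θ fun h1 => ?_
      obtain ⟨j, hj⟩ := (cu_pow_eq_one hN θ).1 h1
      have e : θ = th N₀ j := hj
      rw [e] at hθ
      have h2 := (hmono _ _).1 hθ.1
      have h3 := (hmono _ _).1 hθ.2
      omega
    refine sgn_of_zero fun x => ?_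
    have : (x : Fin ρ → ℂ) = 0 := (Submodule.mem_bot ℂ).1 (hker.le x.2)
    simp [this]
  have hz : ∀ j : ℤ, j = k ∨ j = k + m → sgn (G (th N₀ j)) = 0 := by
    intro j hj'
    obtain ⟨a1, a2⟩ := hk j hj'
    have a3 : cu (th N₀ j) ^ p ^ c = 1 := by
      rw [rnk_cu_pow, cu_th_eq_one hN]
      exact_mod_cast a1
    refine sgn_pp hS hn h hF hp (c := c) (fun a => ?_) ?_ hI fun i hi hpi h4 => a2 i hi hpi ?_
    · rw [f.C_apply, mul_pow, hψ, mul_one, ← zpow_natCast, ← zpow_mul, mul_comm, zpow_mul,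
        zpow_natCast, a3, one_zpow]
    · rw [f.C_apply, h1, h2, (cu_pow_eq_one hN (th N₀ j)).2 ⟨j, rfl⟩, one_mul]
    · rw [← slit_val hS h hN h1 hw j hi, h4, Units.val_one]
  have hs : ∀ m : ℕ, (sgn (G (th N₀ (k + m))) : ℚ) = sgn (G (th N₀ k))
      + η * ∑ j ∈ Finset.range m, (jw g S w (k + j) + jw g S w (k + j + 1)) := by
    intro m
    induction m with
    | zero => simp
    | succ m ih =>
      have a1 := congrArg (Int.cast : ℤ → ℚ) (hstep (k + m))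
      push_cast at a1
      rw [hb, hb, ih] at a1
      rw [Finset.sum_range_succ, Nat.cast_succ, ← add_assoc]
      linear_combination a1
  have h3 := hs m
  rw [hz _ (Or.inl rfl), hz _ (Or.inr rfl)] at h3
  simpa [hη] using h3

end Pool.Agent.P.MP_3d25f3_gt.G
end

-- part Pool.Agent.P.MP_3d25f3_gt.TCum
section

set_option autoImplicit false

open Set Filter Topology

namespace Pool.Agent.P.MP_3d25f3_gt.G

/-- `2 ((k β / α))` -/
def jq (q : ℕ × ℤ) (k : ℤ) : ℚ := 2 * saw (k * q.2 / q.1)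

/-- the cumulative sum -/
def cum (q : ℕ × ℤ) (x : ℤ) : ℚ :=
  ∑ j ∈ Finset.range (x % q.1).toNat, (jq q j + jq q (j + 1))

lemma tcum_jmp (q : ℕ × ℤ) (k : ℤ) : jq q k = jmp [q] k := by
  rw [nta_cons]; simp [jq, jmp]

lemma jq_zero (q : ℕ × ℤ) : jq q 0 = 0 := by
  rw [tcum_jmp, nta_zero]

lemma jq_congr {q : ℕ × ℤ} {x y : ℤ} (h : x ≡ y [ZMOD q.1]) : jq q x = jq q y := by
  have h1 : ∀ q' ∈ [q], (q'.1 : ℤ) ∣ y - x := fun q' hq' => by
    rw [List.mem_singleton.1 hq']; exact h.dvd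
  rw [tcum_jmp, tcum_jmp, ← jmp_add h1 x]
  congr 1; ring

lemma jq_neg (α : ℕ) {β β' : ℤ} (h : (α : ℤ) ∣ β + β') (k : ℤ) :
    jq (α, β) k + jq (α, β') k = 0 := by
  obtain ⟨c, hc⟩ := h
  unfold jq
  by_cases h0 : (α : ℚ) = 0
  · simp [h0, saw]
  · have e : β' = α * c - β := by rw [← hc]; ring
    have e2 : (k : ℚ) * β' / α = -(k * β / α) + ((k * c : ℤ) : ℚ) := by
      rw [e]; push_cast; field_simp; ring
    simp only []
    rw [e2, saw_add_int, saw_neg]; ring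

lemma jq_mul {c : ℕ} (hc : 0 < c) (m : ℕ) (β k : ℤ) : jq (c * m, β) (c * k) = jq (m, β) k := by
  have h0 : (c : ℚ) ≠ 0 := Nat.cast_ne_zero.2 hc.ne'
  unfold jq
  simp only []
  congr 2
  push_cast
  rw [mul_assoc, mul_div_mul_left _ _ h0]

lemma cum_zero (q : ℕ × ℤ) : cum q 0 = 0 := by
  simp [cum]

lemma cum_congr {q : ℕ × ℤ} {x y : ℤ} (h : x ≡ y [ZMOD q.1]) : cum q x = cum q y := by
  unfold cum
  rw [show x % q.1 = y % q.1 from h]

lemma tcum_sum (q : ℕ × ℤ) (n : ℕ) :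
    ∑ j ∈ Finset.range n, (jq q j + jq q (j + 1)) = 2 * ∑ j ∈ Finset.range n, jq q j + jq q n := by
  induction n with
  | zero => simp [jq_zero]
  | succ n ih => rw [Finset.sum_range_succ, Finset.sum_range_succ, ih]; push_cast; ring

lemma tcum_period (q : ℕ × ℤ) : ∑ j ∈ Finset.range q.1, (jq q j + jq q (j + 1)) = 0 := by
  have h1 : ∑ j ∈ Finset.range q.1, jq q j = 0 := by
    simp only [tcum_jmp]
    exact nta_period fun q' hq' => by rw [List.mem_singleton.1 hq']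
  have h2 : jq q (q.1 : ℕ) = 0 := by
    rw [← jq_zero q]
    exact jq_congr (Int.modEq_zero_iff_dvd.2 dvd_rfl)
  rw [tcum_sum, h1, h2]; ring

lemma cum_succ {q : ℕ × ℤ} (hq : 0 < q.1) (x : ℤ) :
    cum q (x + 1) = cum q x + (jq q x + jq q (x + 1)) := by
  have ha : (0 : ℤ) < q.1 := Int.natCast_pos.2 hq
  have h0 := Int.emod_nonneg x ha.ne'
  have h1 := Int.emod_lt_of_pos x ha
  obtain ⟨n, hn⟩ := Int.eq_ofNat_of_zero_le h0
  have hx : (n : ℤ) ≡ x [ZMOD q.1] := by rw [← hn]; exact Int.mod_modEq x _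
  have e : cum q x + (jq q x + jq q (x + 1)) =
      ∑ j ∈ Finset.range (n + 1), (jq q j + jq q (j + 1)) := by
    rw [Finset.sum_range_succ, jq_congr hx, jq_congr (hx.add_right 1), cum, hn, Int.toNat_natCast]
  rw [e, cum_congr (hx.add_right 1).symm]
  rcases (show (n : ℤ) + 1 < q.1 ∨ (n : ℤ) + 1 = q.1 by omega) with h2 | h2
  · rw [cum, Int.emod_eq_of_lt (by omega) h2, show ((n : ℤ) + 1).toNat = n + 1 by omega]
  · rw [show n + 1 = q.1 by omega, tcum_period, h2, cum, Int.emod_self]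
    simp

lemma cum_add {q : ℕ × ℤ} (hq : 0 < q.1) (x : ℤ) (m : ℕ) :
    cum q (x + m) = cum q x + ∑ j ∈ Finset.range m, (jq q (x + j) + jq q (x + j + 1)) := by
  induction m with
  | zero => simp
  | succ m ih =>
    rw [Finset.sum_range_succ, ← add_assoc, ← ih, ← cum_succ hq]
    congr 1; push_cast; ring

lemma cum_nat {q : ℕ × ℤ} (hq : 0 < q.1) (k : ℕ) :
    cum q k = 2 * ∑ j ∈ Finset.range k, jq q j + jq q k := by
  have h := cum_add hq 0 k
  simp only [zero_add, cum_zero] at h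
  rw [h, tcum_sum]

lemma cum_neg (α : ℕ) {β β' : ℤ} (h : (α : ℤ) ∣ β + β') (k : ℤ) :
    cum (α, β) k + cum (α, β') k = 0 := by
  unfold cum
  rw [← Finset.sum_add_distrib]
  refine Finset.sum_eq_zero fun j _ => ?_
  have h1 := jq_neg α h j
  have h2 := jq_neg α h (j + 1)
  linarith

lemma tcum_perm {c : ℕ} (hc : 0 < c) {β : ℤ} (hβ : IsCoprime (c : ℤ) β) (f : ℤ → ℚ)
    (hf : ∀ x y, x ≡ y [ZMOD c] → f x = f y) (n : ℤ) :
    ∑ t ∈ Finset.range c, f (n + t * β) = ∑ t ∈ Finset.range c, f t := by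
  have : NeZero c := ⟨hc.ne'⟩
  have h1 : ∀ g : ZMod c → ℚ, ∑ t ∈ Finset.range c, g t = ∑ z, g z := fun g =>
    Finset.sum_nbij' (fun t => (t : ZMod c)) ZMod.val (fun _ _ => Finset.mem_univ _)
      (fun z _ => Finset.mem_range.2 (ZMod.val_lt z))
      (fun t ht => ZMod.val_cast_of_lt (Finset.mem_range.1 ht))
      (fun z _ => ZMod.natCast_zmod_val z) fun _ _ => rfl
  have h2 : ∀ k : ℤ, f ((k : ZMod c).val) = f k := fun k => hf _ _ (by
    rw [ZMod.val_intCast]; exact Int.mod_modEq k _)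
  obtain ⟨a, b, hab⟩ := hβ
  have hu : (β : ZMod c) * b = 1 := by
    have := congrArg (Int.cast : ℤ → ZMod c) hab
    push_cast at this
    rw [ZMod.natCast_self, mul_zero, zero_add, mul_comm] at this
    exact this
  let e : ZMod c ≃ ZMod c :=
    { toFun := fun z => n + z * β
      invFun := fun z => (z - n) * b
      left_inv := fun z => by simp only []; rw [add_sub_cancel_left, mul_assoc, hu, mul_one]
      right_inv := fun z => by simp only []; rw [mul_assoc, mul_comm (b : ZMod c), hu]; ring }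
  calc ∑ t ∈ Finset.range c, f (n + t * β)
      = ∑ t ∈ Finset.range c, f (e (t : ZMod c)).val := by
        refine Finset.sum_congr rfl fun t _ => ?_
        rw [← h2]
        congr 3
        simp [e]
    _ = ∑ z, f (e z).val := h1 fun z => f (e z).val
    _ = ∑ z : ZMod c, f z.val := e.sum_comp fun z => f z.val
    _ = ∑ t ∈ Finset.range c, f ((t : ZMod c)).val := (h1 fun z => f z.val).symm
    _ = _ := Finset.sum_congr rfl fun t ht => by
        rw [ZMod.val_cast_of_lt (Finset.mem_range.1 ht)]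

lemma tcum_gauss (n : ℕ) : ∑ t ∈ Finset.range n, (t : ℚ) = n * (n - 1) / 2 := by
  induction n with
  | zero => simp
  | succ n ih => rw [Finset.sum_range_succ, ih]; push_cast; ring

lemma tcum_herm {c : ℕ} (hc : 0 < c) {w : ℚ} (h0 : 0 ≤ w) (h1 : w < 1) :
    ∑ t ∈ Finset.range c, saw ((w + t) / c) = saw w := by
  have hc' : (0 : ℚ) < c := Nat.cast_pos.2 hc
  have hf : ∀ t ∈ Finset.range c, Int.fract ((w + t) / c) = (w + t) / c := fun t ht => by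
    have h2 : (t : ℚ) + 1 ≤ c := by exact_mod_cast Finset.mem_range.1 ht
    refine Int.fract_eq_self.2 ⟨by positivity, ?_⟩
    rw [div_lt_one hc']; linarith
  have hs : ∑ t ∈ Finset.range c, ((w + t) / c - 1 / 2) = w - 1 / 2 := by
    rw [Finset.sum_sub_distrib, ← Finset.sum_div, Finset.sum_add_distrib, tcum_gauss]
    simp only [Finset.sum_const, Finset.card_range, nsmul_eq_mul]
    field_simp; ring
  have hw : Int.fract w = w := Int.fract_eq_self.2 ⟨h0, h1⟩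
  rcases h0.eq_or_lt with e | e
  · subst e
    obtain ⟨c, rfl⟩ := Nat.exists_eq_add_one_of_ne_zero hc.ne'
    rw [Finset.sum_range_succ'] at hs ⊢
    have h3 : ∑ t ∈ Finset.range c, saw ((0 + ((t + 1 : ℕ) : ℚ)) / (c + 1 : ℕ)) =
        ∑ t ∈ Finset.range c, ((0 + ((t + 1 : ℕ) : ℚ)) / (c + 1 : ℕ) - 1 / 2) := by
      refine Finset.sum_congr rfl fun t ht => ?_
      have h4 := hf (t + 1) (Finset.mem_range.2 (Nat.succ_lt_succ (Finset.mem_range.1 ht)))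
      rw [saw, h4, if_neg (by positivity)]
    rw [h3]
    simp only [Nat.cast_zero, add_zero, zero_div] at hs ⊢
    linarith
  · rw [saw, hw, if_neg e.ne', ← hs]
    refine Finset.sum_congr rfl fun t ht => ?_
    rw [saw, hf t ht, if_neg (by positivity)]

/-- distribution relation -/
lemma jq_dist {c m : ℕ} (hc : 0 < c) (hm : 0 < m) {β : ℤ} (hβ : IsCoprime (c : ℤ) β) (x : ℤ) :
    ∑ t ∈ Finset.range c, jq (c * m, β) (x + t * m) = jq (m, β) x := by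
  have hc' : (c : ℚ) ≠ 0 := Nat.cast_ne_zero.2 hc.ne'
  have hm' : (m : ℚ) ≠ 0 := Nat.cast_ne_zero.2 hm.ne'
  set y : ℚ := x * β / m with hy
  have h1 := tcum_perm hc hβ (fun k => saw ((Int.fract y + k) / c)) (fun k k' hk => by
    obtain ⟨d, hd⟩ := hk.dvd
    have e : k' = k + c * d := by rw [← hd]; ring
    rw [e, ← saw_add_int _ d]
    congr 1; push_cast; field_simp; ring) ⌊y⌋
  have h2 := tcum_herm hc (Int.fract_nonneg y) (Int.fract_lt_one y)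
  have h3 : saw (Int.fract y) = saw y := by simp only [saw, Int.fract_fract]
  simp only [Int.cast_natCast] at h1
  unfold jq
  rw [← Finset.mul_sum]
  simp only []
  rw [← hy, ← h3, ← h2, ← h1]
  congr 1
  refine Finset.sum_congr rfl fun t _ => ?_
  congr 1
  push_cast
  rw [← add_assoc, Int.fract_add_floor, hy]
  field_simp

end Pool.Agent.P.MP_3d25f3_gt.G
end

-- part Pool.Agent.P.MP_3d25f3_gt.TFinB
section

set_option autoImplicit false

open Set Filter Topology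

namespace Pool.Agent.P.MP_3d25f3_gt.G

variable {g : ℕ} {S : List (ℕ × ℤ)} {p a : ℕ} {I : Finset ℕ} {e : ℕ → ℕ}

/-- the family of characters twisted by a class modulo `Q` -/
lemma exists_fm (Q : ℕ) [NeZero Q] : ∃ f : Fm (ℤ × ZMod Q), (∀ x, f.deg x = x.1) ∧
    (∀ (x : ℤ × ZMod Q) (z : ℤ), x.2 = z → (f.ψ x : ℂ) = rt (z / Q)) ∧ ∀ x, f.ψ x ^ Q = 1 := by
  refine ⟨⟨AddMonoidHom.fst _ _, (Circle.toUnits.compAddChar ZMod.toCircle).compAddMonoidHom
    (AddMonoidHom.snd ℤ (ZMod Q)), fun x => Circle.norm_coe _⟩, fun _ => rfl, fun x z hz => ?_,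
    fun x => ?_⟩
  · change ((ZMod.toCircle x.2 : Circle) : ℂ) = _
    rw [hz, ZMod.toCircle_intCast, rt]
    push_cast
    rw [mul_div_assoc]
  · change Circle.toUnits (ZMod.toCircle x.2) ^ Q = 1
    rw [← map_pow, ← AddChar.map_nsmul_eq_pow, nsmul_eq_mul, ZMod.natCast_self, zero_mul,
      AddChar.map_zero_eq_one, map_one]

lemma tfinb_crt {c Q : ℕ} (hc : 0 < c) (hQ : 0 < Q) (h : IsCoprime (c : ℤ) Q) (k : ℤ) :
    ∃ m : ℕ, (c : ℤ) ∣ m ∧ (m : ℤ) ≡ k [ZMOD Q] := by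
  obtain ⟨u, v, huv⟩ := h
  have h0 : (c : ℤ) * Q ≠ 0 := by positivity
  obtain ⟨m, hm⟩ := Int.eq_ofNat_of_zero_le (Int.emod_nonneg (u * c * k) h0)
  have h1 := Int.mul_ediv_add_emod (u * c * k) (c * Q)
  rw [hm] at h1
  refine ⟨m, ⟨u * k - Q * (u * c * k / (c * Q)), by linear_combination h1⟩, ?_⟩
  rw [Int.modEq_iff_dvd]
  exact ⟨v * k + c * (u * c * k / (c * Q)), by linear_combination -h1 - k * huv⟩

lemma tfinb_coc {Z Γ Γ' : Type} [TopologicalSpace Z] [CommRing Γ] [CommRing Γ'] {n : Z → Z → Γ}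
    {u : Z → Z → Γ'} {F : Set Z} (hn : CocZ n F) (hu : CocZ u F) (t : Γ') :
    CocZ (fun a b => (n a b, t * u a b)) F := by
  intro x hx
  obtain ⟨U, hU, h1⟩ := hn x hx
  obtain ⟨U', hU', h2⟩ := hu x hx
  refine ⟨_, inter_mem hU hU', fun a ha b hb c hc => Prod.ext (h1 a ha.1 b hb.1 c hc.1) ?_⟩
  change t * u a b + t * u b c = t * u a c
  rw [← mul_add, h2 a ha.2 b hb.2 c hc.2]

lemma tfinb_per {Γ Γ' : Type} [CommRing Γ] [CommRing Γ'] {n : Seifert g S → Seifert g S → Γ}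
    {A : Cov → Γ} {N : Γ} {ne : ℕ → Γ} {u : Seifert g S → Seifert g S → Γ'} {A' : Cov → Γ'}
    {ne' : ℕ → Γ'} (h : Per g S n A N ne) (h' : Per g S u A' 0 ne') (t : Γ') :
    Per g S (fun a b => (n a b, t * u a b)) (fun y => (A y, t * A' y)) (N, 0)
      (fun e => (ne e, t * ne' e)) := by
  refine ⟨fun y => ?_, fun y z => Prod.ext (h.per y z) ?_,
    fun e he s hs z => Prod.ext (h.arc e he s hs z) ?_⟩
  · obtain ⟨U, hU, hh⟩ := per_and h.prim h'.prim y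
    refine ⟨U, hU, fun a ha b hb => Prod.ext (hh a ha b hb).1 ?_⟩
    change t * u _ _ = t * A' b - t * A' a
    rw [(hh a ha b hb).2, mul_sub]
  · change t * A' (y, z + 1) = t * A' (y, z) + 0
    rw [h'.per, add_zero, add_zero]
  · change t * A' _ = t * A' _ + t * ne' e
    rw [h'.arc e he s hs, mul_add]

lemma tfinb_rt (hS : Data S) (j : ℕ) (x z : ℤ) :
    rt (x * (pr g S j).2 / (pr g S j).1 + z * (pr g S j).2 / (pr g S j).1) = 1 ↔
      ((pr g S j).1 : ℤ) ∣ x + z := by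
  rw [← add_div, ← add_mul, ← Int.cast_add, ← Int.cast_mul, prm_rt _ (pr_data hS _).1]
  exact ⟨fun h1 => Int.dvd_of_dvd_mul_left_of_gcd_one h1 (pr_data hS _).2, fun h1 => h1.mul_right _⟩

lemma tfinb_off (h : PD g S p a I e) (hS : Data S) {n : Seifert g S → Seifert g S → ℤ}
    {A : Cov → ℤ} {ne : ℕ → ℤ} {c : ℕ} (hP : Per g S n A (c * p ^ a : ℕ) ne) {i : ℕ}
    (hi : i ≤ S.length) (hI : i ∉ I) : ((pr g S (2 * g + i)).1 : ℤ) ∣ c := by
  have h1 := hP.slit hS (e := 2 * g + i) (by omega) (by unfold NE; omega)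
  have h2 : ((pr g S (2 * g + i)).1 : ℤ) ∣ (c * p ^ a : ℕ) :=
    Int.dvd_of_dvd_mul_right_of_gcd_one ⟨_, h1.symm⟩ (pr_data hS _).2
  have h3 : ¬ p ∣ (pr g S (2 * g + i)).1 := fun h3 => hI ((h.mem i).2 ⟨hi, h3⟩)
  exact Int.natCast_dvd_natCast.2 (Nat.Coprime.dvd_of_dvd_mul_right
    (((Nat.Prime.coprime_iff_not_dvd h.prime).2 h3).symm.pow_right a)
    (Int.natCast_dvd_natCast.1 h2))

theorem LS_H1 (h : PD g S p a I e) (hS : Data S) (s : Side (Seifert g S)) {n : E4 → E4 → ℤ}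
    (hn : CocZ n s.X) {A : Cov → ℤ} {ne : ℕ → ℤ} {c : ℕ} (hc : ¬ p ∣ c)
    (hP : Per g S (pb s n) A (c * p ^ a : ℕ) ne)
    (H0 : ∀ k : ℤ, (∀ i ∈ I, ¬ (p : ℤ) ^ e i ∣ k) →
      ∑ i ∈ I, cum (p ^ e i, (pr g S (2 * g + i)).2) k = 0) :
    ∀ y ∈ LS s p a I e, ∀ k k' : ℤ, ¬ (p : ℤ) ∣ k → ¬ (p : ℤ) ∣ k' →
      ∑ i ∈ I, cum (p ^ e i, (pr g S (2 * g + i)).2) (p * y i + k)
        = ∑ i ∈ I, cum (p ^ e i, (pr g S (2 * g + i)).2) (p * y i + k') := by
  intro y hy k k' hk hk'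
  classical
  have hp := h.prime
  have hdv : ∀ i ∈ I, (p : ℤ) ∣ (p : ℤ) ^ e i := fun i hi =>
    dvd_pow_self _ (by have := (h.lev i hi).1; omega)
  obtain ⟨i0, hi0, -⟩ := h.top
  by_cases hc0 : ∃ k0 : ℤ, ∀ i ∈ I, (p : ℤ) ^ e i ∣ p * y i + k0
  · obtain ⟨k0, hk0⟩ := hc0
    have h1 : (p : ℤ) ∣ k0 :=
      (dvd_add_right (dvd_mul_right _ _)).1 ((hdv i0 hi0).trans (hk0 i0 hi0))
    have key : ∀ k : ℤ, ¬ (p : ℤ) ∣ k →
        ∑ i ∈ I, cum (p ^ e i, (pr g S (2 * g + i)).2) (p * y i + k) = 0 := by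
      intro k hk
      rw [← H0 (k - k0) fun i hi h2 => hk ((dvd_sub_left h1).1 ((hdv i hi).trans h2))]
      refine Finset.sum_congr rfl fun i hi => cum_congr ?_
      rw [Int.modEq_iff_dvd]
      push_cast
      rw [show k - k0 - (p * y i + k) = -(p * y i + k0) by ring, dvd_neg]
      exact hk0 i hi
    rw [key k hk, key k' hk']
  push Not at hc0
  obtain ⟨u, Au, nu, hu, hPu, hnu⟩ := hy
  have hQ : 0 < p ^ a := pow_pos hp.pos a
  have : NeZero (p ^ a) := ⟨hQ.ne'⟩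
  obtain ⟨f, f1, f2, f3⟩ := exists_fm (p ^ a)
  have hc1 : 0 < c := Nat.pos_of_ne_zero fun h0 => hc (h0 ▸ dvd_zero p)
  have hcop : IsCoprime (c : ℤ) ((p ^ a : ℕ) : ℤ) :=
    Nat.isCoprime_iff_coprime.2 (((Nat.Prime.coprime_iff_not_dvd hp).2 hc).symm.pow_right a)
  obtain ⟨K, hK1, hK2⟩ := tfinb_crt hc1 hQ hcop k
  obtain ⟨m, hm1, hm2⟩ := tfinb_crt hc1 hQ hcop (k' - k)
  have hKm : (K : ℤ) + m ≡ k' [ZMOD (p ^ a : ℕ)] := by
    have := hK2.add hm2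
    rwa [add_sub_cancel] at this
  have hpa : ∀ i ∈ I, ((p ^ e i : ℕ) : ℤ) ∣ (p ^ a : ℕ) := fun i hi =>
    Int.natCast_dvd_natCast.2 (pow_dvd_pow p (h.le i hi))
  have hnd : ∀ x z : ℤ, x ≡ z [ZMOD (p ^ a : ℕ)] → ¬ (p : ℤ) ∣ z → ¬ (p : ℤ) ∣ x := by
    intro x z h1 h2 h3
    have h4 : (p : ℤ) ∣ z - x :=
      ((hdv i0 hi0).trans (by exact_mod_cast hpa i0 hi0)).trans h1.dvd
    exact h2 ((dvd_sub_left h3).1 h4)
  let y' : ℕ → ℤ := fun i => if i ∈ I then p * y i else 0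
  have hy' : ∀ i ∈ I, y' i = p * y i := fun i hi => if_pos hi
  have hcore := core hS s (tfinb_coc hn hu p) (tfinb_per hP hPu p) f (N₀ := c * p ^ a)
    (Nat.mul_pos hc1 hQ) (f1 _) (Units.ext ((f2 _ 0 (by simp)).trans (by simp [rt])))
    (w := fun i => y' i * (pr g S (2 * g + i)).2 / (pr g S (2 * g + i)).1) (fun i hi => ?_)
    (fun j => ?_) hp f3 ?_ (k := K) (m := m) fun j hj => ⟨?_, fun i hi h1 => ?_⟩
  · have e1 : ∀ x : ℤ, jw g S (fun i => y' i * (pr g S (2 * g + i)).2 / (pr g S (2 * g + i)).1) x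
        = ∑ i ∈ Finset.range (S.length + 1), jq (pr g S (2 * g + i)) (y' i + x) := by
      intro x
      refine Finset.sum_congr rfl fun i _ => ?_
      rw [jq, ← add_div, ← add_mul, Int.cast_add, add_comm]
    simp only [e1, ← Finset.sum_add_distrib] at hcore
    rw [Finset.sum_comm] at hcore
    have e2 : ∀ i ∈ Finset.range (S.length + 1), ∑ j ∈ Finset.range m,
        (jq (pr g S (2 * g + i)) (y' i + (K + j)) + jq (pr g S (2 * g + i)) (y' i + (K + j + 1))) =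
        cum (pr g S (2 * g + i)) (y' i + K + m) - cum (pr g S (2 * g + i)) (y' i + K) := by
      intro i _
      rw [cum_add (pr_data hS _).1, add_sub_cancel_left]
      simp only [add_assoc]
    rw [Finset.sum_congr rfl e2, ← Finset.sum_subset (s₁ := I)
      (fun i hi => Finset.mem_range.2 (Nat.lt_succ_of_le ((h.mem i).1 hi).1))
      (fun i hi hI => sub_eq_zero.2 (cum_congr ?_)), Finset.sum_sub_distrib, sub_eq_zero] at hcore
    · have e3 : ∀ i ∈ I, ∀ x z : ℤ, x ≡ z [ZMOD (p ^ a : ℕ)] →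
          cum (p ^ e i, (pr g S (2 * g + i)).2) (p * y i + z) =
            cum (pr g S (2 * g + i)) (y' i + x) := by
        intro i hi x z hxz
        rw [hy' i hi, ← h.pow i hi]
        refine cum_congr (Int.ModEq.add_left _ (hxz.symm.of_dvd ?_))
        rw [h.pow i hi]
        exact hpa i hi
      rw [Finset.sum_congr rfl fun i hi => e3 i hi _ _ hK2,
        Finset.sum_congr rfl fun i hi => e3 i hi _ _ hKm, ← hcore]
      simp only [add_assoc]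
    · refine Int.ModEq.symm (Int.modEq_iff_dvd.2 ?_)
      rw [add_sub_cancel_left]
      exact (tfinb_off h hS hP (Nat.le_of_lt_succ (Finset.mem_range.1 hi)) hI).trans hm1
  · by_cases hI : i ∈ I
    · rw [f2 _ (p * ((p : ℤ) ^ (a - e i) * (pr g S (2 * g + i)).2 * y i))
        (by rw [Int.cast_mul, ← hnu i hI, Int.cast_natCast]), hy' i hI, h.pow i hI]
      have h2 : (p : ℚ) ≠ 0 := by exact_mod_cast hp.ne_zero
      have h3 : (p : ℚ) ^ a = p ^ (a - e i) * p ^ e i := by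
        rw [← pow_add, Nat.sub_add_cancel (h.le i hI)]
      congr 1
      push_cast
      rw [h3]
      field_simp
    · rw [f2 _ 0 (by
        change p * nu (2 * g + i) = _
        rw [(h.per_zero hS hPu).2 i hi hI, mul_zero, Int.cast_zero]), show y' i = 0 from if_neg hI]
      simp
  · obtain ⟨i, hi, h1⟩ := hc0 j
    refine ⟨i, ((h.mem i).1 hi).1, fun h2 => h1 ?_⟩
    have h3 := (tfinb_rt hS _ _ _).1 h2
    rw [h.pow i hi, hy' i hi, add_comm] at h3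
    exact_mod_cast h3
  · rcases rnk_mem (g := g) (S := S) i0 with h1 | h1
    · exact ⟨_, h1, ((h.mem i0).1 hi0).2⟩
    · have h2 := ((h.mem i0).1 hi0).2
      rw [h1] at h2
      exact absurd (Nat.dvd_one.1 h2) hp.ne_one
  · push_cast
    refine mul_dvd_mul_right ?_ _
    rcases hj with rfl | rfl
    · exact hK1
    · exact hK1.add hm1
  · intro h2
    have h3 := (Int.natCast_dvd_natCast.2 h1).trans ((tfinb_rt hS _ _ _).1 h2)
    rw [hy' i ((h.mem i).2 ⟨hi, h1⟩), dvd_add_left (dvd_mul_right _ _)] at h3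
    rcases hj with rfl | rfl
    · exact hnd _ _ hK2 hk h3
    · exact hnd _ _ hKm hk' h3

end Pool.Agent.P.MP_3d25f3_gt.G
end

-- part Pool.Agent.P.MP_3d25f3_gt.TFinC
section

set_option autoImplicit false

open Set Filter Topology

namespace Pool.Agent.P.MP_3d25f3_gt.G

variable {g : ℕ} {S : List (ℕ × ℤ)} {p a : ℕ} {I : Finset ℕ} {e : ℕ → ℕ}

lemma exists_PD (h1 : ∀ q ∈ S, q.1 = 1 ∨ IsPrimePow q.1) (hp : p.Prime)
    (h : ∃ i ≤ S.length, p ∣ (pr g S (2 * g + i)).1) : ∃ a I e, PD g S p a I e := by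
  classical
  have hk : ∀ i, ∃ k, p ∣ (pr g S (2 * g + i)).1 → (pr g S (2 * g + i)).1 = p ^ k := fun i => by
    by_cases hd : p ∣ (pr g S (2 * g + i)).1
    · have h2 : (pr g S (2 * g + i)).1 ≠ 1 := fun e1 => hp.not_dvd_one (e1 ▸ hd)
      have h3 : pr g S (2 * g + i) ∈ S := (rnk_mem i).resolve_right fun e1 => h2 (by rw [e1])
      obtain ⟨q, k, hq, -, e1⟩ := (isPrimePow_nat_iff _).1 ((h1 _ h3).resolve_left h2)
      rw [← e1] at hd
      rw [← (Nat.prime_dvd_prime_iff_eq hp hq).1 (hp.dvd_of_dvd_pow hd)] at e1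
      exact ⟨k, fun _ => e1.symm⟩
    · exact ⟨0, fun k => absurd k hd⟩
  choose e he using hk
  have hm : ∀ i, i ∈ (Finset.range (S.length + 1)).filter (fun i => p ∣ (pr g S (2 * g + i)).1) ↔
      i ≤ S.length ∧ p ∣ (pr g S (2 * g + i)).1 := fun i => by
    rw [Finset.mem_filter, Finset.mem_range, Nat.lt_succ_iff]
  obtain ⟨i0, hi0⟩ := h
  obtain ⟨j, hj, hj'⟩ := Finset.exists_mem_eq_sup _ ⟨i0, (hm i0).2 hi0⟩ e
  exact ⟨_, _, e, hp, hm, fun i hi => he i ((hm i).1 hi).2, fun i hi => Finset.le_sup hi,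
    j, hj, hj'.symm⟩

/-- the part of the orders prime to `p` -/
lemma PD.exists_c (h : PD g S p a I e) (hS : Data S) : ∃ c : ℕ, ¬ p ∣ c ∧
    (∀ i ≤ S.length, i ∉ I → (pr g S (2 * g + i)).1 ∣ c) ∧ ∀ q ∈ S, q.1 ∣ c * p ^ a := by
  classical
  have := hS.1
  have h2 : ∀ i ≤ S.length, i ∉ I → (pr g S (2 * g + i)).1 ∣
      ∏ i ∈ (Finset.range (S.length + 1)).filter (fun i => i ∉ I), (pr g S (2 * g + i)).1 :=
    fun i hi hI => Finset.dvd_prod_of_mem (fun i => (pr g S (2 * g + i)).1)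
      (Finset.mem_filter.2 ⟨Finset.mem_range.2 (Nat.lt_succ_of_le hi), hI⟩)
  refine ⟨_, fun hd => ?_, h2, fun q hq => ?_⟩
  · obtain ⟨i, hi, hd⟩ := (h.prime.prime.dvd_finsetProd_iff _).1 hd
    obtain ⟨h3, h4⟩ := Finset.mem_filter.1 hi
    exact h4 ((h.mem i).2 ⟨Nat.le_of_lt_succ (Finset.mem_range.1 h3), hd⟩)
  · obtain ⟨i, hi, rfl⟩ := rnk_pr (g := g) hq
    by_cases hI : i ∈ I
    · rw [h.pow i hI]
      exact (pow_dvd_pow p (h.le i hI)).mul_left _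
    · exact (h2 i hi.le hI).mul_right _

lemma jmp_eq (g : ℕ) (S : List (ℕ × ℤ)) (k : ℤ) :
    jmp S k = ∑ i ∈ Finset.range (S.length + 1), jq (pr g S (2 * g + i)) k := by
  rw [sum_getD (fun q => jq q k)]
  have h0 : jq (1, 0) k = 0 := by simp [jq, saw]
  rw [h0, add_zero, jmp, ← List.sum_map_mul_left]
  rfl

theorem PD.H0 (h : PD g S p a I e) (hS : Data S) (hE : EmbedsFlat (Seifert g S)) (k : ℤ)
    (hk : ∀ i ∈ I, ¬ (p : ℤ) ^ e i ∣ k) :
    ∑ i ∈ I, cum (p ^ e i, (pr g S (2 * g + i)).2) k = 0 := by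
  classical
  obtain ⟨c, hc, hc1, hc2⟩ := h.exists_c hS
  have hco : (p ^ a).Coprime c := ((Nat.Prime.coprime_iff_not_dvd h.prime).2 hc).pow_left a
  have hpos : (0 : ℤ) < (p ^ a : ℕ) := by exact_mod_cast pow_pos h.prime.pos a
  obtain ⟨K, hK1, hK2⟩ := Nat.chineseRemainder hco (k % (p ^ a : ℕ)).toNat 0
  have hcK : c ∣ K := (Nat.modEq_zero_iff_dvd).1 hK2
  have hKk : (K : ℤ) ≡ k [ZMOD (p ^ a : ℕ)] := by
    have h3 := Int.natCast_modEq_iff.2 hK1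
    rw [Int.toNat_of_nonneg (Int.emod_nonneg _ hpos.ne')] at h3
    exact h3.trans (Int.mod_modEq _ _)
  have hKi : ∀ i ∈ I, (K : ℤ) ≡ k [ZMOD (p ^ e i : ℕ)] := fun i hi =>
    hKk.of_dvd (Int.natCast_dvd_natCast.2 (pow_dvd_pow p (h.le i hi)))
  have hnd : ∀ i ∈ I, ¬ (pr g S (2 * g + i)).1 ∣ K := fun i hi hd => by
    rw [h.pow i hi] at hd
    have h3 := (hKi i hi).dvd_iff.1 (Int.natCast_dvd_natCast.2 hd)
    exact hk i hi (by exact_mod_cast h3)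
  obtain ⟨i0, hi0, -⟩ := h.top
  have hq0 : pr g S (2 * g + i0) ∈ S := (rnk_mem i0).resolve_right fun e1 =>
    hnd i0 hi0 (by rw [e1]; exact one_dvd _)
  have hb := pp_bound hS hE p a K h.prime
    (fun q hq => (hc2 q hq).trans (Nat.mul_dvd_mul_right hcK _)) ⟨_, hq0, hnd i0 hi0⟩
  have hz : (S.countP fun q => p ∣ q.1 ∧ q.1 ∣ K) = 0 := by
    rw [List.countP_eq_zero]
    intro q hq hh
    obtain ⟨i, hi, rfl⟩ := rnk_pr (g := g) hq
    have h3 := of_decide_eq_true hh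
    exact hnd i ((h.mem i).2 ⟨hi.le, h3.1⟩) h3.2
  rw [hz, Nat.cast_zero, abs_nonpos_iff] at hb
  have hsum : ∑ i ∈ Finset.range (S.length + 1), cum (pr g S (2 * g + i)) K = 0 := by
    rw [← hb, Finset.sum_congr rfl fun i _ => cum_nat (pr_data hS (2 * g + i)).1 K,
      Finset.sum_add_distrib, ← Finset.mul_sum, Finset.sum_comm, jmp_eq g]
    simp only [jmp_eq g]
  have hsub : I ⊆ Finset.range (S.length + 1) := fun i hi =>
    Finset.mem_range.2 (Nat.lt_succ_of_le ((h.mem i).1 hi).1)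
  rw [← hsum, ← Finset.sum_subset hsub fun i hi hI => ?_]
  · refine Finset.sum_congr rfl fun i hi => ?_
    rw [← cum_congr (q := (p ^ e i, (pr g S (2 * g + i)).2)) (hKi i hi), ← h.pow i hi]
  · rw [← cum_zero (pr g S (2 * g + i))]
    refine cum_congr (Int.modEq_zero_iff_dvd.2 (Int.natCast_dvd_natCast.2 ?_))
    exact (hc1 i (Nat.le_of_lt_succ (Finset.mem_range.1 hi)) hI).trans hcK

/-- sum over the primes -/
theorem jmp_of_primes (h1 : ∀ q ∈ S, q.1 = 1 ∨ IsPrimePow q.1) (k : ℤ)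
    (h : ∀ p a I e, PD g S p a I e → ∑ i ∈ I, jq (p ^ e i, (pr g S (2 * g + i)).2) k = 0) :
    jmp S k = 0 := by
  classical
  rw [jmp_eq g, ← Finset.sum_fiberwise_of_maps_to (g := fun i => (pr g S (2 * g + i)).1.minFac)
    fun i hi => Finset.mem_image_of_mem (fun i => (pr g S (2 * g + i)).1.minFac) hi]
  refine Finset.sum_eq_zero fun m hm => ?_
  obtain ⟨i0, hi0, hm0⟩ := Finset.mem_image.1 hm
  by_cases hm1 : m = 1
  · refine Finset.sum_eq_zero fun i hi => ?_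
    have h2 : (pr g S (2 * g + i)).1 = 1 :=
      Nat.minFac_eq_one_iff.1 ((Finset.mem_filter.1 hi).2.trans hm1)
    rw [← jq_zero (pr g S (2 * g + i))]
    refine jq_congr ?_
    rw [h2]
    exact Int.modEq_one
  · have hp : m.Prime := by
      rw [← hm0]
      exact Nat.minFac_prime fun e1 => hm1 (hm0.symm.trans (Nat.minFac_eq_one_iff.2 e1))
    obtain ⟨a, I, e, hP⟩ := exists_PD (g := g) h1 hp
      ⟨i0, Nat.le_of_lt_succ (Finset.mem_range.1 hi0), hm0 ▸ Nat.minFac_dvd _⟩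
    have hI : (Finset.range (S.length + 1)).filter
        (fun i => (pr g S (2 * g + i)).1.minFac = m) = I := by
      ext i
      rw [Finset.mem_filter, Finset.mem_range, Nat.lt_succ_iff]
      refine ⟨fun hi => (hP.mem i).2 ⟨hi.1, hi.2 ▸ Nat.minFac_dvd _⟩,
        fun hi => ⟨((hP.mem i).1 hi).1, ?_⟩⟩
      rw [hP.pow i hi]
      exact hp.pow_minFac (by have := (hP.lev i hi).1; omega)
    rw [hI, ← h m a I e hP]
    refine Finset.sum_congr rfl fun i hi => ?_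
    rw [← hP.pow i hi]

end Pool.Agent.P.MP_3d25f3_gt.G
end

-- part Pool.Agent.P.MP_3d25f3_gt.TAvg
section

set_option autoImplicit false

open Set Filter Topology

namespace Pool.Agent.P.MP_3d25f3_gt.G

variable {p a : ℕ} {I : Finset ℕ} {e : ℕ → ℕ} {β : ℕ → ℤ} {L L' : AddSubgroup (ℕ → ℤ)}

/-- averaging over a subgroup -/
theorem avg {Q : ℕ} (hQ : 0 < Q) (L : AddSubgroup (ℕ → ℤ)) (F : ℕ → ℤ → ℚ)
    (hF : ∀ i ∈ I, ∀ x y, x ≡ y [ZMOD Q] → F i x = F i y) {C : Finset ℕ} (hC : C ⊆ I) (m : ℤ)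
    (h0 : ∀ y ∈ L, ∑ i ∈ I, F i (y i + m) = ∑ i ∈ I, F i (y i))
    (h1 : ∀ i ∈ C, ∀ y ∈ L, F i (y i + m) = F i m ∧ F i (y i) = F i 0)
    (h2 : ∀ i ∈ I, i ∉ C → ∃ z ∈ L, ∀ x, F i (x + m) = F i (x + z i)) :
    ∑ i ∈ C, F i m = ∑ i ∈ C, F i 0 := by
  classical
  have : NeZero Q := ⟨hQ.ne'⟩
  let red : (ℕ → ℤ) →+ (I → ZMod Q) :=
    { toFun := fun y i => ((y i : ℤ) : ZMod Q)
      map_zero' := by ext i; simp
      map_add' := by intro y z; ext i; simp }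
  have hred : ∀ (y : ℕ → ℤ) (i : I), red y i = ((y i : ℤ) : ZMod Q) := fun _ _ => rfl
  let G := L.map red
  have : Fintype G := Fintype.ofFinite G
  have hs : ∀ g : G, ∃ y ∈ L, red y = g := fun g => AddSubgroup.mem_map.1 g.2
  choose s hsL hsr using hs
  have hsum : ∑ i ∈ I, ∑ g : G, (F i (s g i + m) - F i (s g i)) = 0 := by
    rw [Finset.sum_comm]
    apply Finset.sum_eq_zero
    intro g _
    rw [Finset.sum_sub_distrib, h0 _ (hsL g), sub_self]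
  have hoff : ∀ i ∈ I, i ∉ C → ∑ g : G, (F i (s g i + m) - F i (s g i)) = 0 := by
    intro i hi hiC
    obtain ⟨z, hz, hzF⟩ := h2 i hi hiC
    let zG : G := ⟨red z, AddSubgroup.mem_map_of_mem _ hz⟩
    have h3 : ∀ g : G, F i (s g i + m) = F i (s (g + zG) i) := by
      intro g
      rw [hzF]
      apply hF i hi
      have e1 := congrFun (hsr (g + zG)) ⟨i, hi⟩
      have e2 := congrFun (hsr g) ⟨i, hi⟩
      have e3 : ((g + zG : G) : I → ZMod Q) ⟨i, hi⟩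
          = (g : I → ZMod Q) ⟨i, hi⟩ + ((z i : ℤ) : ZMod Q) := rfl
      rw [hred] at e1 e2
      rw [e3, ← e2] at e1
      apply (ZMod.intCast_eq_intCast_iff _ _ _).1
      push_cast
      exact e1.symm
    rw [Finset.sum_sub_distrib, sub_eq_zero, Finset.sum_congr rfl (fun g _ => h3 g)]
    exact Equiv.sum_comp (Equiv.addRight zG) (fun g => F i (s g i))
  have hon : ∀ i ∈ C, ∑ g : G, (F i (s g i + m) - F i (s g i))
      = (Fintype.card G : ℚ) * (F i m - F i 0) := by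
    intro i hi
    have h4 : ∀ g : G, F i (s g i + m) - F i (s g i) = F i m - F i 0 := by
      intro g
      rw [(h1 i hi _ (hsL g)).1, (h1 i hi _ (hsL g)).2]
    rw [Finset.sum_congr rfl (fun g _ => h4 g), Finset.sum_const, Finset.card_univ, nsmul_eq_mul]
  rw [← Finset.sum_subset hC (fun i hi hiC => hoff i hi hiC), Finset.sum_congr rfl hon,
    ← Finset.mul_sum] at hsum
  have hc : (Fintype.card G : ℚ) ≠ 0 := by exact_mod_cast Fintype.card_ne_zero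
  have h5 := (mul_eq_zero.1 hsum).resolve_left hc
  rw [Finset.sum_sub_distrib] at h5
  linarith

open Classical in
theorem Lag.per (h : Lag p a I e β L L')
    (H1 : ∀ y ∈ L, ∀ k k' : ℤ, ¬ (p : ℤ) ∣ k → ¬ (p : ℤ) ∣ k' →
      ∑ i ∈ I, cum (p ^ e i, β i) (p * y i + k) = ∑ i ∈ I, cum (p ^ e i, β i) (p * y i + k'))
    {j : ℕ} (hj : j ∈ I) (he : 2 ≤ e j) {k : ℤ} (hk : ¬ (p : ℤ) ∣ k) :
    ∑ i ∈ I.filter (fun i => e i = e j ∧ ∀ y ∈ L, (p : ℤ) ^ (e j - 1) ∣ y i - y j),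
        cum (p ^ e i, β i) (k + (p : ℤ) ^ (e j - 1))
      = ∑ i ∈ I.filter (fun i => e i = e j ∧ ∀ y ∈ L, (p : ℤ) ^ (e j - 1) ∣ y i - y j),
        cum (p ^ e i, β i) k := by
  have hp : Prime (p : ℤ) := Nat.prime_iff_prime_int.1 h.prime
  have hcong : ∀ (i : ℕ) (x y : ℤ), (p : ℤ) ^ e i ∣ y - x →
      cum (p ^ e i, β i) x = cum (p ^ e i, β i) y := by
    intro i x y hxy
    apply cum_congr
    apply Int.modEq_iff_dvd.2
    simpa using hxy
  let M : AddSubgroup (ℕ → ℤ) :=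
    { carrier := {w | ∃ y ∈ L, (p : ℤ) ^ (e j - 1) ∣ y j ∧ w = fun i => (p : ℤ) * y i}
      zero_mem' := ⟨0, L.zero_mem, by simp, by ext i; simp⟩
      add_mem' := by
        rintro _ _ ⟨y, hy, hy1, rfl⟩ ⟨z, hz, hz1, rfl⟩
        refine ⟨y + z, L.add_mem hy hz, dvd_add hy1 hz1, ?_⟩
        ext i
        simp [mul_add]
      neg_mem' := by
        rintro _ ⟨y, hy, hy1, rfl⟩
        refine ⟨-y, L.neg_mem hy, (dvd_neg).2 hy1, ?_⟩
        ext i
        simp }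
  have hM : ∀ w, w ∈ M ↔ ∃ y ∈ L, (p : ℤ) ^ (e j - 1) ∣ y j ∧ w = fun i => (p : ℤ) * y i :=
    fun _ => Iff.rfl
  have hpm : (p : ℤ) ∣ (p : ℤ) ^ (e j - 1) := dvd_pow_self _ (by omega)
  have hQ : 0 < p ^ a := pow_pos h.prime.pos a
  have key := avg (I := I) hQ M (fun i x => cum (p ^ e i, β i) (x + k))
    (by
      intro i hi x y hxy
      apply hcong
      have h1 := Int.modEq_iff_dvd.1 hxy
      have h2 : (p : ℤ) ^ e i ∣ (p : ℤ) ^ a := pow_dvd_pow _ (h.lev i hi).2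
      have h3 : y + k - (x + k) = y - x := by ring
      rw [h3]
      refine h2.trans ?_
      simpa using h1)
    (C := I.filter (fun i => e i = e j ∧ ∀ y ∈ L, (p : ℤ) ^ (e j - 1) ∣ y i - y j))
    (Finset.filter_subset _ _) ((p : ℤ) ^ (e j - 1))
    (by
      intro w hw
      obtain ⟨y, hy, -, rfl⟩ := (hM w).1 hw
      have h1 : ¬ (p : ℤ) ∣ (p : ℤ) ^ (e j - 1) + k := fun h2 => hk ((dvd_add_right hpm).1 h2)
      have h2 := H1 y hy _ k h1 hk
      simpa only [add_assoc] using h2)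
    (by
      intro i hi w hw
      obtain ⟨y, hy, hy1, rfl⟩ := (hM w).1 hw
      obtain ⟨-, hi1, hi2⟩ := Finset.mem_filter.1 hi
      have h1 : (p : ℤ) ^ (e j - 1) ∣ y i := by
        have h2 := dvd_add (hi2 y hy) hy1
        simpa using h2
      have h2 : (p : ℤ) ^ e i ∣ (p : ℤ) * y i := by
        have h3 : e i = (e j - 1) + 1 := by omega
        rw [h3, pow_succ']
        exact mul_dvd_mul_left _ h1
      constructor
      · apply hcong
        have h3 : (p : ℤ) ^ (e j - 1) + k - (p * y i + (p : ℤ) ^ (e j - 1) + k) = -(p * y i) := by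
          ring
        rw [h3]
        exact (dvd_neg).2 h2
      · apply hcong
        have h3 : (0 : ℤ) + k - (p * y i + k) = -(p * y i) := by ring
        rw [h3]
        exact (dvd_neg).2 h2)
    (by
      intro i hi hiC
      by_cases hlt : e i < e j
      · refine ⟨0, M.zero_mem, fun x => ?_⟩
        apply hcong
        have h3 : x + (0 : ℕ → ℤ) i + k - (x + (p : ℤ) ^ (e j - 1) + k)
            = -(p : ℤ) ^ (e j - 1) := by
          simp only [Pi.zero_apply]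
          ring
        rw [h3]
        exact (dvd_neg).2 (pow_dvd_pow _ (by omega))
      · have hex : ∃ y ∈ L, ¬ (p : ℤ) ^ (e j - 1) ∣ y i - y j := by
          by_contra hno
          have hall : ∀ y ∈ L, (p : ℤ) ^ (e j - 1) ∣ y i - y j := by
            intro y hy
            by_contra h4
            exact hno ⟨y, hy, h4⟩
          apply hiC
          refine Finset.mem_filter.2 ⟨hi, ?_, hall⟩
          by_cases hij : i = j
          · rw [hij]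
          · exact (h.pair hi hj hij (d := e j - 1) (by omega) (by omega) (by omega) hall).1
        obtain ⟨y, hy, hy1⟩ := hex
        have hu : y i - y j ≠ 0 := fun h4 => hy1 (by rw [h4]; exact dvd_zero _)
        obtain ⟨v, w, hw, hvw⟩ := WfDvdMonoid.max_power_factor hu hp.irreducible
        have hv : v < e j - 1 := by
          by_contra h4
          apply hy1
          rw [hvw]
          exact Dvd.dvd.mul_right (pow_dvd_pow _ (by omega)) _
        have hco : IsCoprime ((p : ℤ) ^ e i) w :=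
          ((hp.irreducible.coprime_iff_not_dvd).2 hw).pow_left
        obtain ⟨s, t, hst⟩ := hco
        obtain ⟨n, hn⟩ : ∃ n, e j - 1 = n + v + 1 := ⟨e j - 2 - v, by omega⟩
        have hy' : (t * (p : ℤ) ^ n) • (y - y j • (fun _ => (1 : ℤ))) ∈ L :=
          L.zsmul_mem (L.sub_mem hy (L.zsmul_mem h.one _)) _
        refine ⟨_, (hM _).2 ⟨_, hy', by simp, rfl⟩, fun x => ?_⟩
        apply hcong
        refine ⟨-(s * (p : ℤ) ^ (e j - 1)), ?_⟩
        simp only [Pi.smul_apply, Pi.sub_apply, smul_eq_mul, mul_one]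
        rw [hvw, hn]
        have h5 : (p : ℤ) ^ (n + v + 1) = p ^ n * p ^ v * p := by ring
        rw [h5]
        linear_combination ((p : ℤ) ^ n * p ^ v * p) * hst)
  simpa only [zero_add, add_comm k] using key

end Pool.Agent.P.MP_3d25f3_gt.G
end

-- part Pool.Agent.P.MP_3d25f3_gt.TFouA
section

set_option autoImplicit false

open Set Filter Topology

namespace Pool.Agent.P.MP_3d25f3_gt.G

variable {p e : ℕ} {β β' : ℤ}

lemma tfoua_unit (hp : p.Prime) (he : 1 ≤ e) (hβ : ¬ (p : ℤ) ∣ β) {x : ℤ}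
    (hx : ¬ (p : ℤ) ∣ x) :
    ∃ n : ℤ, jq (p ^ e, β) x = 2 * ((x : ℚ) * β / (p : ℚ) ^ e - n) - 1 := by
  have hp0 : (p : ℚ) ≠ 0 := by exact_mod_cast hp.ne_zero
  have hpi : Prime (p : ℤ) := Nat.prime_iff_prime_int.mp hp
  refine ⟨⌊(x : ℚ) * β / (p : ℚ) ^ e⌋, ?_⟩
  have hne : Int.fract ((x : ℚ) * β / (p : ℚ) ^ e) ≠ 0 := by
    intro h0
    have h1 : (x : ℚ) * β / (p : ℚ) ^ e = (⌊(x : ℚ) * β / (p : ℚ) ^ e⌋ : ℚ) := by
      have := Int.floor_add_fract ((x : ℚ) * β / (p : ℚ) ^ e)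
      rw [h0, add_zero] at this
      exact this.symm
    rw [div_eq_iff (pow_ne_zero _ hp0)] at h1
    have h2 : x * β = ⌊(x : ℚ) * β / (p : ℚ) ^ e⌋ * (p : ℤ) ^ e := by exact_mod_cast h1
    have h3 : (p : ℤ) ∣ x * β := by
      rw [h2]
      exact Dvd.dvd.mul_left (dvd_pow_self _ (by omega)) _
    rcases hpi.dvd_or_dvd h3 with h | h
    · exact hx h
    · exact hβ h
  unfold jq saw
  simp only [Nat.cast_pow]
  rw [if_neg hne, Int.fract]
  ring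

lemma tfoua_two (hp : p.Prime) (h2 : p ≠ 2) : ¬ (p : ℤ) ∣ 2 := by
  intro h
  have h' : p ∣ 2 := by exact_mod_cast h
  exact h2 ((Nat.prime_dvd_prime_iff_eq hp Nat.prime_two).mp h')

lemma tfoua_one (hp : p.Prime) : ¬ (p : ℤ) ∣ 1 := by
  intro h
  have h' : p ∣ 1 := by exact_mod_cast h
  exact hp.one_lt.ne' (Nat.dvd_one.mp h')

lemma tfoua_add {x y : ℤ} (hx : ¬ (p : ℤ) ∣ x) (hy : (p : ℤ) ∣ y) : ¬ (p : ℤ) ∣ x + y := by
  intro h
  exact hx ((dvd_add_left hy).mp h)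

theorem fou_single (hp : p.Prime) (h2 : p ≠ 2) (he : 2 ≤ e) (hβ : ¬ (p : ℤ) ∣ β)
    (h : ∀ k : ℤ, ¬ (p : ℤ) ∣ k → cum (p ^ e, β) (k + (p : ℤ) ^ (e - 1)) = cum (p ^ e, β) k) :
    False := by
  obtain ⟨n, rfl⟩ : ∃ n, e = n + 1 := ⟨e - 1, by omega⟩
  simp only [Nat.add_sub_cancel] at h
  have hp0 : (p : ℚ) ≠ 0 := by exact_mod_cast hp.ne_zero
  have hpi : Prime (p : ℤ) := Nat.prime_iff_prime_int.mp hp
  have hq : (p : ℤ) ∣ (p : ℤ) ^ n := dvd_pow_self _ (by omega)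
  have hN : 0 < ((p ^ (n + 1), β) : ℕ × ℤ).1 := pow_pos hp.pos _
  have u1 := tfoua_one hp
  have u2 := tfoua_two hp h2
  have a1 := h 1 u1
  have a2 := h 2 u2
  have s1 := cum_succ hN 1
  have s2 := cum_succ hN (1 + (p : ℤ) ^ n)
  have e1 : (1 : ℤ) + 1 = 2 := by norm_num
  have e2 : (1 : ℤ) + (p : ℤ) ^ n + 1 = 2 + (p : ℤ) ^ n := by ring
  rw [e1] at s1
  rw [e2] at s2
  obtain ⟨n1, h1⟩ := tfoua_unit (e := n + 1) hp (by omega) hβ u1
  obtain ⟨n2, h2'⟩ := tfoua_unit (e := n + 1) hp (by omega) hβ u2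
  obtain ⟨n3, h3⟩ := tfoua_unit (e := n + 1) hp (by omega) hβ (tfoua_add u1 hq)
  obtain ⟨n4, h4⟩ := tfoua_unit (e := n + 1) hp (by omega) hβ (tfoua_add u2 hq)
  have key : jq (p ^ (n + 1), β) (1 + (p : ℤ) ^ n) + jq (p ^ (n + 1), β) (2 + (p : ℤ) ^ n)
      = jq (p ^ (n + 1), β) 1 + jq (p ^ (n + 1), β) 2 := by linarith
  rw [h1, h2', h3, h4] at key
  push_cast at key
  have k2 : (2 : ℚ) * β = p * (n3 + n4 - n1 - n2) := by
    have hpn : (p : ℚ) ^ n ≠ 0 := pow_ne_zero _ hp0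
    have : (2 : ℚ) * ((p : ℚ) ^ n * β / (p : ℚ) ^ (n + 1)) = n3 + n4 - n1 - n2 := by
      have f1 : (1 + (p : ℚ) ^ n) * β / (p : ℚ) ^ (n + 1)
          = 1 * β / (p : ℚ) ^ (n + 1) + (p : ℚ) ^ n * β / (p : ℚ) ^ (n + 1) := by ring
      have f2 : (2 + (p : ℚ) ^ n) * β / (p : ℚ) ^ (n + 1)
          = 2 * β / (p : ℚ) ^ (n + 1) + (p : ℚ) ^ n * β / (p : ℚ) ^ (n + 1) := by ring
      rw [f1, f2] at key
      linarith
    rw [← this, pow_succ]
    field_simp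
  have k3 : 2 * β = p * (n3 + n4 - n1 - n2) := by exact_mod_cast k2
  rcases hpi.dvd_or_dvd (Dvd.intro _ k3.symm) with h | h
  · exact u2 h
  · exact hβ h

lemma tfoua_abs (hp : p.Prime) (h2 : p ≠ 2) (g D : ℤ → ℚ) (q : ℕ)
    (h1 : ∀ x, g (x + 1) = g x + (D x + D (x + 1)))
    (hs : ∀ x, ∑ t ∈ Finset.range p, D (x + t * ((p * q : ℕ) : ℤ)) = 0)
    (hm : ∀ j : ℤ, D (p * j) = 0)
    (hg : ∀ k : ℤ, ¬ (p : ℤ) ∣ k → g (k + ((p * q : ℕ) : ℤ)) = g k) : D 1 = 0 := by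
  have hp0 : (p : ℚ) ≠ 0 := by exact_mod_cast hp.ne_zero
  have hq : (p : ℤ) ∣ ((p * q : ℕ) : ℤ) := by push_cast; exact Dvd.intro _ rfl
  set Q : ℤ := ((p * q : ℕ) : ℤ) with hQ
  have G1 : ∀ x : ℤ, ∑ t ∈ Finset.range p, g (x + 1 + t * Q)
      = ∑ t ∈ Finset.range p, g (x + t * Q) := by
    intro x
    have : ∀ t ∈ Finset.range p, g (x + 1 + t * Q)
        = g (x + t * Q) + (D (x + t * Q) + D (x + 1 + t * Q)) := by
      intro t _
      have e1 : x + 1 + t * Q = x + t * Q + 1 := by ring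
      rw [e1, h1]
    rw [Finset.sum_congr rfl this, Finset.sum_add_distrib, Finset.sum_add_distrib, hs, hs]
    ring
  have G2 : ∀ x : ℤ, ∑ t ∈ Finset.range p, g (x + t * Q)
      = ∑ t ∈ Finset.range p, g (0 + t * Q) := by
    intro x
    induction x using Int.induction_on with
    | zero => rfl
    | succ i ih => rw [G1, ih]
    | pred i ih =>
      rw [← ih, ← G1]
      have : -(i : ℤ) - 1 + 1 = -i := by ring
      rw [this]
  have G3 : ∀ x : ℤ, ¬ (p : ℤ) ∣ x → ∀ t : ℕ, g (x + t * Q) = g x := by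
    intro x hx t
    induction t with
    | zero => simp
    | succ t ih =>
      have e1 : x + ((t + 1 : ℕ) : ℤ) * Q = x + t * Q + Q := by push_cast; ring
      rw [e1, hg _ (tfoua_add hx (Dvd.dvd.mul_left hq _)), ih]
  have G4 : ∀ x : ℤ, ¬ (p : ℤ) ∣ x →
      (p : ℚ) * g x = ∑ t ∈ Finset.range p, g (0 + t * Q) := by
    intro x hx
    rw [← G2 x, Finset.sum_congr rfl (fun t _ => G3 x hx t)]
    simp
  have G5 : ∀ x y : ℤ, ¬ (p : ℤ) ∣ x → ¬ (p : ℤ) ∣ y → g x = g y := by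
    intro x y hx hy
    exact mul_left_cancel₀ hp0 ((G4 x hx).trans (G4 y hy).symm)
  have u1 := tfoua_one hp
  have hp3 : 3 ≤ p := by
    have := hp.two_le
    omega
  have un : ∀ (j : ℤ) (m : ℕ), m + 1 < p → ¬ (p : ℤ) ∣ p * j + 1 + m := by
    intro j m hm' hd
    have e1 : (p : ℤ) * j + 1 + m = p * j + ((m + 1 : ℕ) : ℤ) := by push_cast; ring
    rw [e1, dvd_add_right (Dvd.intro _ rfl)] at hd
    have : p ∣ m + 1 := by exact_mod_cast hd
    have := Nat.le_of_dvd (by omega) this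
    omega
  have A1 : ∀ (j : ℤ) (m : ℕ), m + 1 < p →
      D (p * j + 1 + m) = (-1) ^ m * D (p * j + 1) := by
    intro j m
    induction m with
    | zero => intro _; simp
    | succ m ih =>
      intro hm'
      have i1 := ih (by omega)
      have s := h1 (p * j + 1 + m)
      have e1 : (p : ℤ) * j + 1 + ((m + 1 : ℕ) : ℤ) = p * j + 1 + m + 1 := by push_cast; ring
      have c := G5 _ _ (un j (m + 1) hm') (un j m (by omega))
      rw [e1] at c ⊢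
      rw [pow_succ]
      linarith
  have A2 : ∀ j : ℤ, D (p * (j + 1) + 1) = D (p * j + 1) := by
    intro j
    obtain ⟨m, hm'⟩ : ∃ m, p = m + 2 := ⟨p - 2, by omega⟩
    have hodd : Odd m := by
      have := hp.odd_of_ne_two h2
      rw [hm'] at this
      exact (Nat.odd_add.mp this).mpr (by decide)
    have a := A1 j m (by omega)
    rw [hodd.neg_one_pow] at a
    have e1 : (p : ℤ) * j + 1 + m + 1 = p * (j + 1) := by
      have : (p : ℤ) = m + 2 := by exact_mod_cast hm'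
      linear_combination -this
    have s1 := h1 (p * j + 1 + m)
    have s2 := h1 (p * (j + 1))
    rw [e1] at s1
    have z := hm (j + 1)
    have v : ¬ (p : ℤ) ∣ p * (j + 1) + 1 := by
      have := un (j + 1) 0 (by omega)
      simpa using this
    have c := G5 _ _ v (un j m (by omega))
    linarith
  have A3 : ∀ j : ℕ, D (p * j + 1) = D 1 := by
    intro j
    induction j with
    | zero => simp
    | succ j ih => push_cast; rw [A2, ih]
  have A4 : ∀ t ∈ Finset.range p, D (1 + t * Q) = D 1 := by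
    intro t _
    rw [← A3 (t * q)]
    congr 1
    rw [hQ]
    push_cast
    ring
  have A5 := hs 1
  rw [Finset.sum_congr rfl A4] at A5
  simpa [hp.ne_zero] using A5

theorem fou_pair (hp : p.Prime) (h2 : p ≠ 2) (he : 2 ≤ e) (hβ : ¬ (p : ℤ) ∣ β)
    (hβ' : ¬ (p : ℤ) ∣ β') (hs : (p : ℤ) ^ (e - 1) ∣ β + β')
    (h : ∀ k : ℤ, ¬ (p : ℤ) ∣ k →
      cum (p ^ e, β) (k + (p : ℤ) ^ (e - 1)) + cum (p ^ e, β') (k + (p : ℤ) ^ (e - 1))
        = cum (p ^ e, β) k + cum (p ^ e, β') k) : (p : ℤ) ^ e ∣ β + β' := by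
  obtain ⟨n, rfl⟩ : ∃ n, e = n + 2 := ⟨e - 2, by omega⟩
  have e0 : n + 2 - 1 = n + 1 := by omega
  rw [e0] at h hs
  have hp0 : (p : ℚ) ≠ 0 := by exact_mod_cast hp.ne_zero
  have hpi : Prime (p : ℤ) := Nat.prime_iff_prime_int.mp hp
  have c1 : IsCoprime (p : ℤ) β := (Prime.coprime_iff_not_dvd hpi).mpr hβ
  have c2 : IsCoprime (p : ℤ) β' := (Prime.coprime_iff_not_dvd hpi).mpr hβ'
  have eN : p ^ (n + 2) = p * (p * p ^ n) := by ring
  have eq' : ((p * p ^ n : ℕ) : ℤ) = (p : ℤ) ^ (n + 1) := by push_cast; ring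
  have hs' : ((p * p ^ n : ℕ) : ℤ) ∣ β + β' := by rw [eq']; exact hs
  have hpos : 0 < p * p ^ n := Nat.mul_pos hp.pos (pow_pos hp.pos _)
  have hN : ∀ b : ℤ, 0 < ((p ^ (n + 2), b) : ℕ × ℤ).1 := fun _ => pow_pos hp.pos _
  have key := tfoua_abs hp h2 (fun x => cum (p ^ (n + 2), β) x + cum (p ^ (n + 2), β') x)
    (fun x => jq (p ^ (n + 2), β) x + jq (p ^ (n + 2), β') x) (p ^ n)
    (by
      intro x
      simp only [cum_succ (hN β), cum_succ (hN β')]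
      ring)
    (by
      intro x
      rw [Finset.sum_add_distrib, eN, jq_dist hp.pos hpos c1, jq_dist hp.pos hpos c2]
      exact jq_neg _ hs' x)
    (by
      intro j
      simp only [eN]
      rw [jq_mul hp.pos, jq_mul hp.pos]
      exact jq_neg _ hs' j)
    (by
      intro k hk
      simp only [eq']
      exact h k hk)
  have u1 := tfoua_one hp
  obtain ⟨n1, h1⟩ := tfoua_unit (e := n + 2) hp (by omega) hβ u1
  obtain ⟨n2, h2'⟩ := tfoua_unit (e := n + 2) hp (by omega) hβ' u1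
  simp only [h1, h2'] at key
  have k2 : (β : ℚ) + β' = (p : ℚ) ^ (n + 2) * (n1 + n2 + 1) := by
    have hpn : (p : ℚ) ^ (n + 2) ≠ 0 := pow_ne_zero _ hp0
    have : ((β : ℚ) + β') / (p : ℚ) ^ (n + 2) = n1 + n2 + 1 := by
      push_cast at key
      rw [add_div]
      simp only [one_mul] at key
      linarith
    rw [← this]
    field_simp
  have k3 : β + β' = (p : ℤ) ^ (n + 2) * (n1 + n2 + 1) := by exact_mod_cast k2
  exact Dvd.intro _ k3.symm

end Pool.Agent.P.MP_3d25f3_gt.G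
end

-- part Pool.Agent.P.MP_3d25f3_gt.TFouB
section

set_option autoImplicit false

open Set Filter Topology

namespace Pool.Agent.P.MP_3d25f3_gt.G

variable {p a : ℕ} {I : Finset ℕ} {e : ℕ → ℕ} {β : ℕ → ℤ} {L L' : AddSubgroup (ℕ → ℤ)}

lemma jq_of_cum {J : Finset ℕ} {q : ℕ → ℕ × ℤ} (hq : ∀ i ∈ J, 0 < (q i).1)
    (h : ∀ k : ℤ, ∑ i ∈ J, cum (q i) k = 0) (k : ℤ) : ∑ i ∈ J, jq (q i) k = 0 := by
  have key : ∀ x : ℤ, ∑ i ∈ J, jq (q i) x + ∑ i ∈ J, jq (q i) (x + 1) = 0 := fun x => by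
    have h1 := h (x + 1)
    rw [Finset.sum_congr rfl fun i hi => cum_succ (hq i hi) x, Finset.sum_add_distrib, h x,
      zero_add, Finset.sum_add_distrib] at h1
    exact h1
  induction k using Int.induction_on with
  | zero => exact Finset.sum_eq_zero fun i _ => jq_zero _
  | succ n ih => have := key n; rwa [ih, zero_add] at this
  | pred n ih => have := key (-n - 1); rwa [sub_add_cancel, ih, add_zero] at this

/-- the partner of an index of level at least two -/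
theorem Lag.partner (h : Lag p a I e β L L') (h2 : p ≠ 2)
    (H1 : ∀ y ∈ L, ∀ k k' : ℤ, ¬ (p : ℤ) ∣ k → ¬ (p : ℤ) ∣ k' →
      ∑ i ∈ I, cum (p ^ e i, β i) (p * y i + k) = ∑ i ∈ I, cum (p ^ e i, β i) (p * y i + k')) :
    ∃ σ : ℕ → ℕ, ∀ j ∈ I, 2 ≤ e j → σ j ∈ I ∧ σ j ≠ j ∧ e (σ j) = e j ∧ σ (σ j) = j ∧
      (p : ℤ) ^ e j ∣ β j + β (σ j) := by
  classical
  set R : ℕ → ℕ → Prop := fun i j => e i = e j ∧ ∀ y ∈ L, (p : ℤ) ^ (e j - 1) ∣ y i - y j with hR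
  have hp : Prime (p : ℤ) := Nat.prime_iff_prime_int.1 h.prime
  have pr : ∀ j, 2 ≤ e j → ∀ i ∈ I, ∀ i' ∈ I, R i j → R i' j → i ≠ i' →
      (p : ℤ) ^ (e j - 1) ∣ β i + β i' := fun j he i hi i' hi' r r' ne =>
    (h.pair hi hi' ne (by omega) (by have := r.1; omega) (by have := r'.1; omega) fun y hy => by
      have := dvd_sub (r.2 y hy) (r'.2 y hy)
      rwa [sub_sub_sub_cancel_right] at this).2
  have rf : ∀ j, R j j := fun j => ⟨rfl, fun y _ => by simp⟩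
  have three : ∀ j ∈ I, 2 ≤ e j → ∀ i ∈ I, ∀ i' ∈ I, R i j → R i' j → i ≠ j → i' ≠ j → i = i' := by
    intro j hj he i hi i' hi' r r' n n'
    by_contra ne
    have d : (p : ℤ) ∣ (p : ℤ) ^ (e j - 1) := dvd_pow_self _ (by omega)
    have a1 := d.trans (pr j he i hi j hj r (rf j) n)
    have a2 := d.trans (pr j he i' hi' j hj r' (rf j) n')
    have a3 := d.trans (pr j he i hi i' hi' r r' ne)
    have a4 : (p : ℤ) ∣ 2 * β j := by
      have := dvd_sub (dvd_add a1 a2) a3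
      rwa [show β i + β j + (β i' + β j) - (β i + β i') = 2 * β j by ring] at this
    rcases hp.dvd_or_dvd a4 with a5 | a5
    · exact h2 ((Nat.prime_dvd_prime_iff_eq h.prime Nat.prime_two).1 (by exact_mod_cast a5))
    · exact h.unit j hj a5
  have ex : ∀ j, j ∈ I → 2 ≤ e j → ∃ j', j' ∈ I ∧ j' ≠ j ∧ R j' j := by
    intro j hj he
    by_contra hn
    refine fou_single h.prime h2 he (h.unit j hj) fun k hk => ?_
    have h1 := h.per H1 hj he hk
    have h3 : I.filter (fun i => R i j) = {j} := by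
      ext i
      rw [Finset.mem_filter, Finset.mem_singleton]
      exact ⟨fun hi => by_contra fun ne => hn ⟨i, hi.1, ne, hi.2⟩,
        fun hi => by rw [hi]; exact ⟨hj, rf _⟩⟩
    have h4 : ∀ f : ℕ → ℚ, ∑ i ∈ I.filter (fun i => R i j), f i = f j := fun f => by
      rw [h3, Finset.sum_singleton]
    rw [← h4 fun i => cum (p ^ e i, β i) (k + (p : ℤ) ^ (e j - 1)),
      ← h4 fun i => cum (p ^ e i, β i) k]
    convert h1
  choose! σ hσ using ex
  refine ⟨σ, fun j hj he => ?_⟩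
  obtain ⟨s1, s2, s3⟩ := hσ j hj he
  have he' : 2 ≤ e (σ j) := by rw [s3.1]; exact he
  obtain ⟨t1, t2, t3⟩ := hσ (σ j) s1 he'
  have s4 : R j (σ j) := ⟨s3.1.symm, fun y hy => by
    rw [s3.1, ← neg_sub]; exact (s3.2 y hy).neg_right⟩
  refine ⟨s1, s2, s3.1, three _ s1 he' _ t1 _ hj t3 s4 t2 s2.symm, ?_⟩
  refine fou_pair h.prime h2 he (h.unit j hj) (h.unit _ s1) (pr j he j hj _ s1 (rf j) s3 s2.symm)
    fun k hk => ?_
  have h1 := h.per H1 hj he hk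
  have h3 : I.filter (fun i => R i j) = {j, σ j} := by
    ext i
    rw [Finset.mem_filter, Finset.mem_insert, Finset.mem_singleton]
    refine ⟨fun hi => (em (i = j)).imp_right fun ne => three j hj he i hi.1 _ s1 hi.2 s3 ne s2, ?_⟩
    rintro (rfl | rfl)
    exacts [⟨hj, rf _⟩, ⟨s1, s3⟩]
  have h4 : ∀ f : ℕ → ℚ, ∑ i ∈ I.filter (fun i => R i j), f i = f j + f (σ j) := fun f => by
    rw [h3, Finset.sum_pair s2.symm]
  have h5 := h4 fun i => cum (p ^ e i, β i) (k + (p : ℤ) ^ (e j - 1))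
  have h6 := h4 fun i => cum (p ^ e i, β i) k
  simp only [s3.1] at h5 h6
  rw [← h5, ← h6]
  convert h1

theorem Lag.main (h : Lag p a I e β L L')
    (H0 : ∀ k : ℤ, (∀ i ∈ I, ¬ (p : ℤ) ^ e i ∣ k) → ∑ i ∈ I, cum (p ^ e i, β i) k = 0)
    (H1 : ∀ y ∈ L, ∀ k k' : ℤ, ¬ (p : ℤ) ∣ k → ¬ (p : ℤ) ∣ k' →
      ∑ i ∈ I, cum (p ^ e i, β i) (p * y i + k) = ∑ i ∈ I, cum (p ^ e i, β i) (p * y i + k'))
    (k : ℤ) : ∑ i ∈ I, jq (p ^ e i, β i) k = 0 := by
  classical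
  have pos : ∀ i, 0 < ((p ^ e i, β i) : ℕ × ℤ).1 := fun i => pow_pos h.prime.pos _
  have zero : ∀ i (k : ℤ), (p : ℤ) ^ e i ∣ k → cum (p ^ e i, β i) k = 0 := fun i k hk => by
    rw [← cum_zero (p ^ e i, β i)]
    exact cum_congr (Int.modEq_zero_iff_dvd.2 (by exact_mod_cast hk))
  by_cases h2 : p = 2
  · refine jq_of_cum (q := fun i => (p ^ e i, β i)) (fun i _ => pos i) (fun k => ?_) k
    by_cases hk : ∃ i ∈ I, (p : ℤ) ^ e i ∣ k
    · obtain ⟨j, hj, hk⟩ := hk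
      refine Finset.sum_eq_zero fun i hi => zero i k ?_
      subst h2
      rwa [h.two hi hj]
    · exact H0 k fun i hi hd => hk ⟨i, hi, hd⟩
  obtain ⟨σ, hσ⟩ := h.partner h2 H1
  have inv : ∀ f : ℕ × ℤ → ℚ, (∀ (α : ℕ) (b b' : ℤ), (α : ℤ) ∣ b + b' → f (α, b) + f (α, b') = 0) →
      ∑ i ∈ I, f (p ^ e i, β i) = ∑ i ∈ I.filter (fun i => ¬ 2 ≤ e i), f (p ^ e i, β i) := by
    intro f hf
    rw [← Finset.sum_filter_add_sum_filter_not I fun i => 2 ≤ e i, add_eq_right]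
    refine Finset.sum_involution (fun i _ => σ i) (fun i hi => ?_) (fun i hi _ => ?_)
      (fun i hi => ?_) fun i hi => ?_ <;> obtain ⟨h1, h3⟩ := Finset.mem_filter.1 hi <;>
      obtain ⟨s1, s2, s3, s4, s5⟩ := hσ i h1 h3
    · rw [s3]; exact hf _ _ _ (by exact_mod_cast s5)
    · exact s2
    · exact Finset.mem_filter.2 ⟨s1, s3 ▸ h3⟩
    · exact s4
  rw [inv (fun q => jq q k) fun α b b' hb => jq_neg α hb k]
  refine jq_of_cum (q := fun i => (p ^ e i, β i)) (fun i _ => pos i) (fun k => ?_) k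
  by_cases hk : (p : ℤ) ∣ k
  · refine Finset.sum_eq_zero fun i hi => zero i k ?_
    obtain ⟨h1, h3⟩ := Finset.mem_filter.1 hi
    rwa [show e i = 1 by have := (h.lev i h1).1; omega, pow_one]
  · rw [← inv (fun q => cum q k) fun α b b' hb => cum_neg α hb k]
    exact H0 k fun i hi hd => hk ((dvd_pow_self _ (by have := (h.lev i hi).1; omega)).trans hd)

end Pool.Agent.P.MP_3d25f3_gt.G
end

-- part Pool.Agent.P.MP_3d25f3_gt.TFin
section

set_option autoImplicit false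

open Set Filter Topology

namespace Pool.Agent.P.MP_3d25f3_gt.G

variable {g : ℕ} {S : List (ℕ × ℤ)} {p a : ℕ} {I : Finset ℕ} {e : ℕ → ℕ}

lemma side_main (h : PD g S p a I e) (hS : Data S) (hE : EmbedsFlat (Seifert g S))
    (s s' : Side (Seifert g S))
    (hs : ∀ u : Seifert g S → Seifert g S → ZMod (p ^ a), CocZ u univ →
      ∃ u₁ u₂, CocZ u₁ s.X ∧ CocZ u₂ s'.X ∧ ∀ x y, u x y = pb s u₁ x y + pb s' u₂ x y)
    {n : E4 → E4 → ℤ} (hn : CocZ n s.X) {A : Cov → ℤ} {ne : ℕ → ℤ} {c : ℤ} (hc : ¬ (p : ℤ) ∣ c)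
    (hP : Per g S (pb s n) A (c * p ^ a) ne) (k : ℤ) :
    ∑ i ∈ I, jq (p ^ e i, (pr g S (2 * g + i)).2) k = 0 := by
  have hL : Lag p a I e (fun i => (pr g S (2 * g + i)).2) (LS s p a I e) (LS s' p a I e) :=
    ⟨h.prime, h.lev, h.unit hS, LS_one h hS s hn hc hP, LS_iso h hS s, LS_iso h hS s',
      LS_spl h hS s s' hs⟩
  have hc' : ¬ p ∣ c.natAbs := fun h1 => hc (Int.natCast_dvd.2 h1)
  refine hL.main (h.H0 hS hE) ?_ k
  rcases Int.natAbs_eq c with e1 | e1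
  · exact LS_H1 h hS s hn hc' (by rw [Nat.cast_mul, ← e1, Nat.cast_pow]; exact hP) (h.H0 hS hE)
  · refine LS_H1 h hS s (hn.map negAddMonoidHom) hc' ?_ (h.H0 hS hE) (A := fun y => -A y)
      (ne := fun e => -ne e)
    have h2 : ((c.natAbs * p ^ a : ℕ) : ℤ) = -(c * p ^ a) := by
      rw [Nat.cast_mul, Nat.cast_pow, ← neg_mul, ← neg_eq_iff_eq_neg.2 e1]
    rw [h2]
    exact hP.map negAddMonoidHom

theorem prime_powers (hS : Data S) (h1 : ∀ q ∈ S, q.1 = 1 ∨ IsPrimePow q.1)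
    (hE : EmbedsFlat (Seifert g S)) : Skew S := by
  refine skew_of_symm hS (symm_of_jmp hS fun k => jmp_of_primes (g := g) h1 k fun p a I e h => ?_)
  obtain ⟨c, hc, -, hd⟩ := h.exists_c hS
  obtain ⟨f, A, ne, hf, hP⟩ := exists_class (g := g) hS hd
  obtain ⟨s₁, s₂, hs⟩ := two_sides hE
  obtain ⟨n₁, n₂, hn₁, hn₂, hn⟩ := hs ℤ f hf
  obtain ⟨A₁, N₁, ne₁, hP₁⟩ := exists_per (pb_coc s₁ hn₁)
  obtain ⟨A₂, N₂, ne₂, hP₂⟩ := exists_per (pb_coc s₂ hn₂)
  have hsum : ((c * p ^ a : ℕ) : ℤ) = N₁ + N₂ := by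
    have h2 := hP₁.add hP₂
    rw [← show f = fun x y => pb s₁ n₁ x y + pb s₂ n₂ x y from funext₂ hn] at h2
    exact ((Per.int.2 hP).uniq h2).1
  obtain ⟨i, hi, hia⟩ := h.top
  have hq : pr g S (2 * g + i) ∈ S := (rnk_mem i).resolve_right fun h0 => by
    have := ((h.mem i).1 hi).2
    rw [h0] at this
    exact h.prime.one_lt.ne' (Nat.dvd_one.1 this)
  have hdv : ∀ {n A N ne}, Per g S n A N ne → (p : ℤ) ^ a ∣ N := fun hP => by
    have := (Per.int.1 hP).dvd hS hq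
    rwa [h.pow i hi, hia, Nat.cast_pow] at this
  obtain ⟨c₁, rfl⟩ := hdv hP₁
  obtain ⟨c₂, rfl⟩ := hdv hP₂
  have hcc : (c : ℤ) = c₁ + c₂ := by
    apply mul_left_cancel₀ (pow_ne_zero a (Nat.cast_ne_zero.2 h.prime.ne_zero : (p : ℤ) ≠ 0))
    push_cast at hsum
    linear_combination hsum
  rw [mul_comm] at hP₁ hP₂
  by_cases hp1 : (p : ℤ) ∣ c₁
  · refine side_main h hS hE s₂ s₁ (fun u hu => ?_) hn₂ (fun hp2 => hc ?_) hP₂ k
    · obtain ⟨u₁, u₂, a1, a2, a3⟩ := hs _ u hu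
      exact ⟨u₂, u₁, a2, a1, fun x y => by rw [a3, add_comm]⟩
    · exact Int.natCast_dvd_natCast.1 (hcc ▸ dvd_add hp1 hp2)
  · exact side_main h hS hE s₁ s₂ (hs _) hn₁ hp1 hP₁ k

end Pool.Agent.P.MP_3d25f3_gt.G
end
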